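import Pool.Agent.H62.UT.Defs

/-!
Row UCMa.  The pair `(Ns A i, Hs G A i)` of a union-closed family `A`, and its exits.

Notation: `N = Ns A i`, `H = Hs G A i`.  For a member `Z ∈ A` with `i ∉ Z`: if `insert i Z ∈ A` then
`Z ∈ H` (take `T = insert i Z`), otherwise `Z ∈ N`.  This is `mem_N_or_H`.

Proofs.
* `Ns_sub`: `T ⊆ G`, `i ∉ T`.   `Hs_sub`: `filter_subset`.
* `Hs_up`: same `T`.
* `Ns_not_Hs`: let `w ∈ N` and `T ∈ A`, `i ∈ T ⊆ insert i w`; then `w ∪ T = insert i w` is a member,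
  contradiction.
* `Ns_union`: `x ∪ y ∈ A`, `i ∉ x ∪ y`; `mem_N_or_H`.
* `exit_T`: let `(w, Y)` be an exit.  There is `T ∈ A`, `i ∈ T ⊆ insert i Y`.  `T' = w ∪ T ∈ A`,
  `i ∈ T' ⊆ insert i Y` (as `w ⊆ Y`).  `Z = T'.erase i` is in `H` (`T' ⊆ insert i Z`), `w ⊆ Z` (as
  `i ∉ w`), `Z ⊆ Y`.  So `Z = w` or `Z = Y`; `Z = w` is impossible (`w ∉ H`); so `T' = insert i Y`.
* `exit_F`: let `(w, Y)` be an exit, `T = insert i Y`, and `Z ∈ A`, `w ⊆ Z ⊆ T`.  If `i ∉ Z`: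
  `Z ⊆ Y`, `Z ∈ N` or `Z ∈ H`, so `Z = w` or `Z = Y`.  If `i ∈ Z`: `Z.erase i ∈ H`,
  `w ⊆ Z.erase i ⊆ Y`, so `Z.erase i = w` (impossible, `w ∉ H`) or `Z.erase i = Y`, `Z = T`.
* `exit_bad`: let `j ∈ Y \ w` and suppose `Z = (insert i Y).erase j ∈ A`.  `w ⊆ Z ⊆ insert i Y` (`j ∉ w`),
  so by `exit_F` `Z = w` (impossible: `i ∈ Z` as `i ≠ j`, since `j ∈ Y`, `i ∉ Y`; but `i ∉ w`),
  or `Z = Y` (impossible, `j ∈ Y`, `j ∉ Z`), or `Z = insert i Y` (impossible, `j`).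
* `exit_nonempty`: `w ≠ Y` since `w ∉ H`, and `w ⊆ Y`.
-/

set_option autoImplicit false

namespace Pool.Agent.H62.UC

open Finset

variable {α : Type*} [DecidableEq α]

theorem Ns_sub {G : Finset α} {A : Finset (Finset α)} (hG : ∀ T ∈ A, T ⊆ G) (i : α) :
    Ns A i ⊆ (G.erase i).powerset := by
  intro T hT
  rw [mem_Ns] at hT
  exact mem_powerset.mpr (subset_erase.mpr ⟨hG T hT.1, hT.2.1⟩)

theorem Hs_sub (G : Finset α) (A : Finset (Finset α)) (i : α) :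
    Hs G A i ⊆ (G.erase i).powerset := by
  exact filter_subset _ _

theorem Hs_up {G : Finset α} {A : Finset (Finset α)} {i : α} :
    ∀ Y ∈ Hs G A i, ∀ Z ⊆ G.erase i, Y ⊆ Z → Z ∈ Hs G A i := by
  intro Y hY Z hZ hYZ
  rw [mem_Hs] at hY ⊢
  obtain ⟨_, T, hT, hi, hTY⟩ := hY
  exact ⟨subset_erase.mp hZ, T, hT, hi, hTY.trans (insert_subset_insert i hYZ)⟩

theorem mem_N_or_H {G : Finset α} {A : Finset (Finset α)} (hG : ∀ T ∈ A, T ⊆ G) {i : α}
    {Z : Finset α} (hZ : Z ∈ A) (hi : i ∉ Z) : Z ∈ Ns A i ∨ Z ∈ Hs G A i := by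
  by_cases h : insert i Z ∈ A
  · right
    rw [mem_Hs]
    exact ⟨⟨hG Z hZ, hi⟩, insert i Z, h, mem_insert_self i Z, Subset.refl _⟩
  · left
    rw [mem_Ns]
    exact ⟨hZ, hi, h⟩

theorem Ns_not_Hs {G : Finset α} {A : Finset (Finset α)} (hA : ∀ S ∈ A, ∀ T ∈ A, S ∪ T ∈ A)
    {i : α} : ∀ w ∈ Ns A i, w ∉ Hs G A i := by
  intro w hw hwH
  rw [mem_Ns] at hw
  rw [mem_Hs] at hwH
  obtain ⟨_, T, hT, hi, hTw⟩ := hwH
  apply hw.2.2
  have h1 : w ∪ T = insert i w := by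
    apply Subset.antisymm
    · exact union_subset (subset_insert i w) hTw
    · exact insert_subset (mem_union_right w hi) subset_union_left
  rw [← h1]
  exact hA w hw.1 T hT

theorem Ns_union {G : Finset α} {A : Finset (Finset α)} (hA : ∀ S ∈ A, ∀ T ∈ A, S ∪ T ∈ A)
    (hG : ∀ T ∈ A, T ⊆ G) {i : α} :
    ∀ x ∈ Ns A i, ∀ y ∈ Ns A i, x ∪ y ∈ Ns A i ∨ x ∪ y ∈ Hs G A i := by
  intro x hx y hy
  rw [mem_Ns] at hx hy
  refine mem_N_or_H hG (hA x hx.1 y hy.1) ?_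
  rw [mem_union, not_or]
  exact ⟨hx.2.1, hy.2.1⟩

theorem exit_T {G : Finset α} {A : Finset (Finset α)} (hA : ∀ S ∈ A, ∀ T ∈ A, S ∪ T ∈ A)
    (hG : ∀ T ∈ A, T ⊆ G) {i : α} {e : Finset α × Finset α}
    (he : e ∈ exits (Ns A i) (Hs G A i)) : insert i e.2 ∈ A := by
  obtain ⟨w, Y⟩ := e
  rw [mem_exits] at he
  obtain ⟨hw, hY, hwY, hmin⟩ := he
  have hwn := Ns_not_Hs (G := G) hA w hw
  have hw' := mem_Ns.mp hw
  have hY' := mem_Hs.mp hY
  obtain ⟨⟨hYG, hiY⟩, T, hT, hi, hTY⟩ := hY'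
  have hT' : w ∪ T ∈ A := hA w hw'.1 T hT
  have hi' : i ∈ w ∪ T := mem_union_right w hi
  have hTY' : w ∪ T ⊆ insert i Y := union_subset (hwY.trans (subset_insert i Y)) hTY
  have hZH : (w ∪ T).erase i ∈ Hs G A i := by
    rw [mem_Hs]
    refine ⟨⟨(erase_subset i _).trans (hG _ hT'), notMem_erase i _⟩, w ∪ T, hT', hi', ?_⟩
    rw [insert_erase hi']
  have h1 : w ⊆ (w ∪ T).erase i := subset_erase.mpr ⟨subset_union_left, hw'.2.1⟩
  have h2 : (w ∪ T).erase i ⊆ Y := by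
    intro a ha
    rw [mem_erase] at ha
    rcases mem_insert.mp (hTY' ha.2) with h | h
    · exact absurd h ha.1
    · exact h
  rcases hmin _ (Or.inr hZH) h1 h2 with h | h
  · rw [h] at hZH
    exact absurd hZH hwn
  · show insert i Y ∈ A
    have h3 : insert i ((w ∪ T).erase i) = insert i Y := congrArg (insert i) h
    rw [insert_erase hi'] at h3
    rw [← h3]
    exact hT'

theorem exit_F {G : Finset α} {A : Finset (Finset α)} (hA : ∀ S ∈ A, ∀ T ∈ A, S ∪ T ∈ A)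
    (hG : ∀ T ∈ A, T ⊆ G) {i : α} {e : Finset α × Finset α}
    (he : e ∈ exits (Ns A i) (Hs G A i)) {Z : Finset α} (hZ : Z ∈ A) (h1 : e.1 ⊆ Z)
    (h2 : Z ⊆ insert i e.2) : Z = e.1 ∨ Z = e.2 ∨ Z = insert i e.2 := by
  obtain ⟨w, Y⟩ := e
  rw [mem_exits] at he
  obtain ⟨hw, hY, hwY, hmin⟩ := he
  have hwn := Ns_not_Hs (G := G) hA w hw
  have hw' := mem_Ns.mp hw
  change w ⊆ Z at h1
  change Z ⊆ insert i Y at h2
  show Z = w ∨ Z = Y ∨ Z = insert i Y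
  by_cases hi : i ∈ Z
  · have hZH : Z.erase i ∈ Hs G A i := by
      rw [mem_Hs]
      refine ⟨⟨(erase_subset i _).trans (hG _ hZ), notMem_erase i _⟩, Z, hZ, hi, ?_⟩
      rw [insert_erase hi]
    have h3 : w ⊆ Z.erase i := subset_erase.mpr ⟨h1, hw'.2.1⟩
    have h4 : Z.erase i ⊆ Y := by
      intro a ha
      rw [mem_erase] at ha
      rcases mem_insert.mp (h2 ha.2) with h | h
      · exact absurd h ha.1
      · exact h
    rcases hmin _ (Or.inr hZH) h3 h4 with h | h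
    · rw [h] at hZH
      exact absurd hZH hwn
    · right; right
      have h5 : insert i (Z.erase i) = insert i Y := congrArg (insert i) h
      rwa [insert_erase hi] at h5
  · have h3 : Z ⊆ Y := by
      intro a ha
      rcases mem_insert.mp (h2 ha) with h | h
      · exact absurd (h ▸ ha) hi
      · exact h
    rcases hmin Z (mem_N_or_H hG hZ hi) h1 h3 with h | h
    · exact Or.inl h
    · exact Or.inr (Or.inl h)

theorem exit_bad {G : Finset α} {A : Finset (Finset α)} (hA : ∀ S ∈ A, ∀ T ∈ A, S ∪ T ∈ A)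
    (hG : ∀ T ∈ A, T ⊆ G) {i : α} {e : Finset α × Finset α}
    (he : e ∈ exits (Ns A i) (Hs G A i)) {j : α} (hj : j ∈ e.2 \ e.1) :
    (insert i e.2).erase j ∉ A := by
  intro hZ
  have he' := mem_exits.mp he
  obtain ⟨hw, hY, hwY, -⟩ := he'
  have hw' := mem_Ns.mp hw
  have hY' := mem_Hs.mp hY
  rw [mem_sdiff] at hj
  have hij : i ≠ j := by
    intro h
    exact hY'.1.2 (h ▸ hj.1)
  have hiZ : i ∈ (insert i e.2).erase j := mem_erase.mpr ⟨hij, mem_insert_self i _⟩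
  have h1 : e.1 ⊆ (insert i e.2).erase j :=
    subset_erase.mpr ⟨hwY.trans (subset_insert i _), hj.2⟩
  rcases exit_F hA hG he hZ h1 (erase_subset j _) with h | h | h
  · rw [h] at hiZ
    exact hw'.2.1 hiZ
  · rw [h] at hiZ
    exact hY'.1.2 hiZ
  · have h2 : j ∈ insert i e.2 := mem_insert_of_mem hj.1
    rw [← h] at h2
    exact notMem_erase j _ h2

theorem exit_nonempty {G : Finset α} {A : Finset (Finset α)}
    (hA : ∀ S ∈ A, ∀ T ∈ A, S ∪ T ∈ A) {i : α} {e : Finset α × Finset α}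
    (he : e ∈ exits (Ns A i) (Hs G A i)) : (e.2 \ e.1).Nonempty := by
  rw [mem_exits] at he
  obtain ⟨hw, hY, hwY, -⟩ := he
  rw [sdiff_nonempty]
  intro h
  have h1 : e.1 = e.2 := Subset.antisymm hwY h
  exact Ns_not_Hs (G := G) hA e.1 hw (h1 ▸ hY)

end Pool.Agent.H62.UC
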