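import Pool.Agent.H62.UC.Lf
import Pool.Agent.H62.UC.Ma

/-!
Row UCMc.  The exit inequality in the slices over `S`.

Notation: `V' = S.erase i`, `N = Ns A i`, `H = Hs G A i`, `q = nuG` below (the sum on the left).
For `R ⊆ G \ S` let `sl M = V'.powerset.filter (fun Y => Y ∪ R ∈ M)`.

Proof.
(1) For each `R ∈ (G \ S).powerset` apply `exits_ge` to `V'`, `p`, `sl N`, `sl H` and
    `J' e = J (e.1 ∪ R, e.2 ∪ R)`.  Hypotheses: `sl H` is up-closed in `V'.powerset` (`Hs_up`,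
    `Y ∪ R ⊆ Z ∪ R ⊆ G.erase i`, as `i ∈ S`, `R ⊆ G \ S`); `sl N`, `sl H` disjoint (`Ns_not_Hs`);
    `(x ∪ R) ∪ (y ∪ R) = (x ∪ y) ∪ R` and `Ns_union`; for an exit `e` of `(sl N, sl H)` the pair
    `(e.1 ∪ R, e.2 ∪ R)` is an exit of `(N, H)`: if `Z ∈ N ∪ H`, `e.1 ∪ R ⊆ Z ⊆ e.2 ∪ R` then
    `Z = (Z ∩ V') ∪ R` (as `e.2 ⊆ V'`), so `Z ∩ V' ∈ sl N ∪ sl H` lies between `e.1` and `e.2`.  And
    `(e.2 ∪ R) \ (e.1 ∪ R) = e.2 \ e.1` as `R` is disjoint from `V' ⊇ e.2`; it is `⊆ S`.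
(2) `q_R := ∑_{Y ∈ V'.powerset, Y ∉ sl H} pm V' p Y ≤ q`: if some `T ∈ A` has `i ∈ T ⊆ insert i Y` then
    `Y ∪ R ∈ H`, `Y ∈ sl H`; terms `≥ 0` (`pm_nonneg`).  If `sl N ≠ ∅`, a `w ∈ sl N` is not in `sl H`, so
    `q_R ≥ pm V' p w > 0` and `log (1 / q) ≤ log (1 / q_R)`.  So in all cases
    `|sl N| log (1 / q) ≤ |sl N| log (1 / q_R) ≤ ∑_{e ∈ exits (sl N) (sl H)} log (1 / (1 - p (J' e)))`.
(3) Sum over `R`.  `∑_R |sl N| = |N|`: `Y ↦ Y ∪ R` and `T ↦ (T \ S, T ∩ V')`: every `T ∈ N` is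
    `(T ∩ V') ∪ (T \ S)` (`i ∉ T`), `T \ S ⊆ G \ S` (`Ns_sub`).  The maps `e ↦ (e.1 ∪ R, e.2 ∪ R)` are
    injective and have disjoint images for different `R` (`R = (e.1 ∪ R) \ S`), all inside
    `(exits N H).filter (fun e => e.2 \ e.1 ⊆ S)`; the terms `log (1 / (1 - p (J e)))` are `≥ 0` for
    `J e ∈ e.2 \ e.1 ⊆ S`, `J e ≠ i` (`i ∉ e.2`), as `0 < p j ≤ 1/2`.
-/

set_option autoImplicit false

namespace Pool.Agent.H62.UC

open Finset

variable {α : Type*} [DecidableEq α]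

/-- the slice over `R` -/
private def Mc_sl (V R : Finset α) (M : Finset (Finset α)) : Finset (Finset α) :=
  V.powerset.filter (fun Y => Y ∪ R ∈ M)

private theorem Mc_mem {V R : Finset α} {M : Finset (Finset α)} {Y : Finset α} :
    Y ∈ Mc_sl V R M ↔ Y ⊆ V ∧ Y ∪ R ∈ M := by
  simp [Mc_sl]

private theorem Mc_exit {V R : Finset α} {N H : Finset (Finset α)} (hd : Disjoint V R)
    {e : Finset α × Finset α} (he : e ∈ exits (Mc_sl V R N) (Mc_sl V R H)) :
    (e.1 ∪ R, e.2 ∪ R) ∈ exits N H ∧ (e.2 ∪ R) \ (e.1 ∪ R) = e.2 \ e.1 ∧ e.1 ⊆ V ∧ e.2 ⊆ V := by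
  rw [mem_exits] at he
  obtain ⟨h1, h2, h3, h4⟩ := he
  rw [Mc_mem] at h1 h2
  have hdis : ∀ a, a ∈ V → a ∉ R := fun a ha hR => (disjoint_left.1 hd) ha hR
  refine ⟨?_, ?_, h1.1, h2.1⟩
  · rw [mem_exits]
    refine ⟨h1.2, h2.2, union_subset_union_left h3, ?_⟩
    intro Z hZ hZ1 hZ2
    have hZ1' : e.1 ∪ R ⊆ Z := hZ1
    have hZ2' : Z ⊆ e.2 ∪ R := hZ2
    have hZe : Z ∩ V ∪ R = Z := by
      ext a
      simp only [mem_union, mem_inter]
      constructor
      · rintro (⟨h, -⟩ | h)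
        · exact h
        · exact hZ1' (mem_union_right _ h)
      · intro h
        rcases mem_union.1 (hZ2' h) with h5 | h5
        · exact Or.inl ⟨h, h2.1 h5⟩
        · exact Or.inr h5
    have h5 : Z ∩ V ∈ Mc_sl V R N ∨ Z ∩ V ∈ Mc_sl V R H := by
      rw [Mc_mem, Mc_mem, hZe]
      rcases hZ with h | h
      · exact Or.inl ⟨inter_subset_right, h⟩
      · exact Or.inr ⟨inter_subset_right, h⟩
    have h6 : e.1 ⊆ Z ∩ V := fun a ha => mem_inter.2 ⟨hZ1' (mem_union_left _ ha), h1.1 ha⟩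
    have h7 : Z ∩ V ⊆ e.2 := by
      intro a ha
      rw [mem_inter] at ha
      rcases mem_union.1 (hZ2' ha.1) with h | h
      · exact h
      · exact absurd h (hdis a ha.2)
    rcases h4 _ h5 h6 h7 with h | h
    · left
      show Z = e.1 ∪ R
      rw [← hZe, h]
    · right
      show Z = e.2 ∪ R
      rw [← hZe, h]
  · ext a
    simp only [mem_sdiff, mem_union, not_or]
    constructor
    · rintro ⟨h | h, h5, h6⟩
      · exact ⟨h, h5⟩
      · exact absurd h h6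
    · rintro ⟨h, h5⟩
      exact ⟨Or.inl h, h5, hdis a (h2.1 h)⟩

private theorem Mc_rec {V R Y : Finset α} {S : Finset α} (hV : V ⊆ S) (hR : ∀ a ∈ R, a ∉ S)
    (hY : Y ⊆ V) : (Y ∪ R) \ S = R := by
  ext a
  simp only [mem_sdiff, mem_union]
  constructor
  · rintro ⟨h | h, h5⟩
    · exact absurd (hV (hY h)) h5
    · exact h
  · intro h
    exact ⟨Or.inr h, hR a h⟩

private theorem Mc_inj {V R Y Y' : Finset α} (hd : Disjoint V R) (hY : Y ⊆ V) (hY' : Y' ⊆ V)
    (h : Y ∪ R = Y' ∪ R) : Y = Y' := by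
  have hdis : ∀ a, a ∈ V → a ∉ R := fun a ha hR => (disjoint_left.1 hd) ha hR
  ext a
  constructor
  · intro ha
    have h1 : a ∈ Y' ∪ R := by
      rw [← h]
      exact mem_union_left _ ha
    rcases mem_union.1 h1 with h2 | h2
    · exact h2
    · exact absurd h2 (hdis a (hY ha))
  · intro ha
    have h1 : a ∈ Y ∪ R := by
      rw [h]
      exact mem_union_left _ ha
    rcases mem_union.1 h1 with h2 | h2
    · exact h2
    · exact absurd h2 (hdis a (hY' ha))

theorem slice_bound {G : Finset α} {A : Finset (Finset α)}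
    (hA : ∀ S ∈ A, ∀ T ∈ A, S ∪ T ∈ A) (hG : ∀ T ∈ A, T ⊆ G) {S : Finset α} (hS : S ⊆ G)
    {i : α} (hi : i ∈ S) {p : α → ℝ} (hp : ∀ j ∈ S.erase i, 0 < p j ∧ p j ≤ 1 / 2)
    {J : Finset α × Finset α → α}
    (hJ : ∀ e ∈ exits (Ns A i) (Hs G A i), J e ∈ e.2 \ e.1) :
    ((Ns A i).card : ℝ) * Real.log
        (1 / ∑ Y ∈ (S.erase i).powerset with ¬ ∃ T ∈ A, i ∈ T ∧ T ⊆ insert i Y,
          pm (S.erase i) p Y) ≤
      ∑ e ∈ exits (Ns A i) (Hs G A i) with e.2 \ e.1 ⊆ S, Real.log (1 / (1 - p (J e))) := by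
  set V : Finset α := S.erase i with hV
  set N := Ns A i with hN
  set H := Hs G A i with hH
  have hVS : V ⊆ S := erase_subset i S
  have hVG : V ⊆ G.erase i := erase_subset_erase i hS
  have hp1 : ∀ j ∈ V, 0 < p j ∧ p j < 1 := fun j hj => ⟨(hp j hj).1, by linarith [(hp j hj).2]⟩
  have hp0 : ∀ j ∈ V, 0 ≤ p j ∧ p j ≤ 1 := fun j hj => ⟨(hp1 j hj).1.le, (hp1 j hj).2.le⟩
  set q : ℝ := ∑ Y ∈ V.powerset with ¬ ∃ T ∈ A, i ∈ T ∧ T ⊆ insert i Y, pm V p Y with hq
  have hRS : ∀ R ∈ (G \ S).powerset, ∀ a ∈ R, a ∉ S := fun R hR a ha =>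
    (mem_sdiff.1 (mem_powerset.1 hR ha)).2
  have hRd : ∀ R ∈ (G \ S).powerset, Disjoint V R := fun R hR =>
    disjoint_left.2 fun a ha hR' => hRS R hR a hR' (hVS ha)
  have hRG : ∀ R ∈ (G \ S).powerset, R ⊆ G.erase i := fun R hR a ha =>
    mem_erase.2 ⟨fun h => hRS R hR a ha (h ▸ hi), (mem_sdiff.1 (mem_powerset.1 hR ha)).1⟩
  -- one slice
  have hslice : ∀ R ∈ (G \ S).powerset, ((Mc_sl V R N).card : ℝ) * Real.log (1 / q) ≤
      ∑ e ∈ exits N H with (e.2 \ e.1 ⊆ S ∧ e.1 \ S = R), Real.log (1 / (1 - p (J e))) := by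
    intro R hR
    have hd := hRd R hR
    have hge := exits_ge (V := V) (p := p) hp (N := Mc_sl V R N) (H := Mc_sl V R H)
      (fun Y hY => mem_powerset.2 (Mc_mem.1 hY).1) (fun Y hY => mem_powerset.2 (Mc_mem.1 hY).1)
      (by
        intro Y hY Z hZ hYZ
        rw [Mc_mem] at hY ⊢
        exact ⟨hZ, Hs_up _ hY.2 _ (union_subset (hZ.trans hVG) (hRG R hR))
          (union_subset_union_left hYZ)⟩)
      (by
        intro w hw hw2
        exact Ns_not_Hs hA _ (Mc_mem.1 hw).2 (Mc_mem.1 hw2).2)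
      (by
        intro x hx y hy
        rw [Mc_mem] at hx hy
        have h1 : x ∪ y ∪ R = (x ∪ R) ∪ (y ∪ R) := by
          ext a
          simp only [mem_union]
          tauto
        rw [Mc_mem, Mc_mem, h1]
        rcases Ns_union hA hG _ hx.2 _ hy.2 with h | h
        · exact Or.inl ⟨union_subset hx.1 hy.1, h⟩
        · exact Or.inr ⟨union_subset hx.1 hy.1, h⟩)
      (J := fun e => J (e.1 ∪ R, e.2 ∪ R))
      (by
        intro e he
        have h1 := Mc_exit hd he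
        have h2 := hJ _ h1.1
        have h3 : J (e.1 ∪ R, e.2 ∪ R) ∈ (e.2 ∪ R) \ (e.1 ∪ R) := h2
        rw [h1.2.1] at h3
        exact h3)
    have hcard : ((Mc_sl V R N).card : ℝ) * Real.log (1 / q) ≤ ((Mc_sl V R N).card : ℝ) *
        Real.log (1 / ∑ Z ∈ V.powerset with Z ∉ Mc_sl V R H, pm V p Z) := by
      rcases (Mc_sl V R N).eq_empty_or_nonempty with h0 | ⟨w, hw⟩
      · rw [h0]
        simp
      · refine mul_le_mul_of_nonneg_left ?_ (Nat.cast_nonneg _)
        have hwH : w ∉ Mc_sl V R H := fun hw2 =>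
          Ns_not_Hs hA _ (Mc_mem.1 hw).2 (Mc_mem.1 hw2).2
        have hqR : 0 < ∑ Z ∈ V.powerset with Z ∉ Mc_sl V R H, pm V p Z := by
          refine sum_pos' (fun Z hZ => pm_nonneg hp0 (mem_powerset.1 (mem_filter.1 hZ).1))
            ⟨w, mem_filter.2 ⟨mem_powerset.2 (Mc_mem.1 hw).1, hwH⟩, pm_pos hp1 (Mc_mem.1 hw).1⟩
        have hqq : ∑ Z ∈ V.powerset with Z ∉ Mc_sl V R H, pm V p Z ≤ q := by
          refine sum_le_sum_of_subset_of_nonneg ?_ ?_
          · intro Y hY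
            rw [mem_filter] at hY ⊢
            refine ⟨hY.1, ?_⟩
            rintro ⟨T, hT, hiT, hTY⟩
            apply hY.2
            have hYV := mem_powerset.1 hY.1
            rw [Mc_mem]
            refine ⟨hYV, ?_⟩
            have h2 : Y ∪ R ⊆ G.erase i := union_subset (hYV.trans hVG) (hRG R hR)
            rw [hH, mem_Hs]
            exact ⟨⟨h2.trans (erase_subset i G), fun h3 => (mem_erase.1 (h2 h3)).1 rfl⟩, T, hT,
              hiT, hTY.trans (insert_subset_insert i subset_union_left)⟩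
          · intro Z hZ _
            exact pm_nonneg hp0 (mem_powerset.1 (mem_filter.1 hZ).1)
        refine Real.log_le_log (one_div_pos.2 (hqR.trans_le hqq)) ?_
        exact one_div_le_one_div_of_le hqR hqq
    refine hcard.trans (hge.trans ?_)
    have himg : ∑ e ∈ exits (Mc_sl V R N) (Mc_sl V R H),
        Real.log (1 / (1 - p (J (e.1 ∪ R, e.2 ∪ R)))) =
        ∑ e ∈ (exits (Mc_sl V R N) (Mc_sl V R H)).image (fun e => (e.1 ∪ R, e.2 ∪ R)),
          Real.log (1 / (1 - p (J e))) := by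
      rw [sum_image]
      intro e he e' he' hee
      have h1 := Mc_exit hd he
      have h1' := Mc_exit hd he'
      have h2 := congrArg Prod.fst hee
      have h3 := congrArg Prod.snd hee
      exact Prod.ext (Mc_inj hd h1.2.2.1 h1'.2.2.1 h2) (Mc_inj hd h1.2.2.2 h1'.2.2.2 h3)
    rw [himg]
    refine sum_le_sum_of_subset_of_nonneg ?_ ?_
    · intro e' he'
      rw [mem_image] at he'
      obtain ⟨e, he, rfl⟩ := he'
      have h1 := Mc_exit hd he
      rw [mem_filter]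
      refine ⟨h1.1, ?_, ?_⟩
      · show (e.2 ∪ R) \ (e.1 ∪ R) ⊆ S
        rw [h1.2.1]
        exact sdiff_subset.trans (h1.2.2.2.trans hVS)
      · exact Mc_rec hVS (hRS R hR) h1.2.2.1
    · intro e he _
      rw [mem_filter] at he
      have h1 := hJ e he.1
      have h2 : J e ∈ V := by
        rw [hV, mem_erase]
        refine ⟨?_, he.2.1 h1⟩
        intro h3
        have h4 := (mem_exits.1 he.1).2.1
        rw [hH, mem_Hs] at h4
        exact h4.1.2 (h3 ▸ (mem_sdiff.1 h1).1)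
      have h3 := hp (J e) h2
      refine Real.log_nonneg ?_
      rw [le_div_iff₀ (by linarith)]
      linarith
  -- the fibres of the left side
  have hcardN : ((N.card : ℕ) : ℝ) = ∑ R ∈ (G \ S).powerset, ((Mc_sl V R N).card : ℝ) := by
    have h1 : N.card = ∑ R ∈ (G \ S).powerset, (N.filter (fun T => T \ S = R)).card := by
      refine card_eq_sum_card_fiberwise ?_
      intro T hT
      have hT' : T ∈ N := hT
      have h2 := mem_powerset.1 (Ns_sub hG i hT')
      show T \ S ∈ ((G \ S).powerset : Set (Finset α))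
      rw [mem_coe, mem_powerset]
      exact sdiff_subset_sdiff (h2.trans (erase_subset i G)) le_rfl
    rw [h1, Nat.cast_sum]
    refine sum_congr rfl fun R hR => ?_
    congr 1
    symm
    refine card_bij (fun Y _ => Y ∪ R) ?_ ?_ ?_
    · intro Y hY
      rw [Mc_mem] at hY
      rw [mem_filter]
      exact ⟨hY.2, Mc_rec hVS (hRS R hR) hY.1⟩
    · intro Y hY Y' hY' h
      exact Mc_inj (hRd R hR) (Mc_mem.1 hY).1 (Mc_mem.1 hY').1 h
    · intro T hT
      rw [mem_filter] at hT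
      have h2 := mem_powerset.1 (Ns_sub hG i hT.1)
      have h3 : T ∩ V ∪ R = T := by
        rw [← hT.2]
        ext a
        simp only [mem_union, mem_inter, mem_sdiff, hV, mem_erase]
        constructor
        · rintro (⟨h, -⟩ | ⟨h, -⟩)
          · exact h
          · exact h
        · intro h
          by_cases haS : a ∈ S
          · exact Or.inl ⟨h, (mem_erase.1 (h2 h)).1, haS⟩
          · exact Or.inr ⟨h, haS⟩
      refine ⟨T ∩ V, ?_, h3⟩
      rw [Mc_mem, h3]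
      exact ⟨inter_subset_right, hT.1⟩
  rw [hcardN, sum_mul]
  refine (sum_le_sum hslice).trans (le_of_eq ?_)
  have hfib : ∑ e ∈ exits N H with e.2 \ e.1 ⊆ S, Real.log (1 / (1 - p (J e))) =
      ∑ R ∈ (G \ S).powerset, ∑ e ∈ (exits N H).filter (fun e => e.2 \ e.1 ⊆ S) with
        e.1 \ S = R, Real.log (1 / (1 - p (J e))) := by
    refine (sum_fiberwise_of_maps_to ?_ _).symm
    intro e he
    have h1 := (mem_exits.1 (mem_filter.1 he).1).1
    have h2 := mem_powerset.1 (Ns_sub hG i h1)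
    rw [mem_powerset]
    exact sdiff_subset_sdiff (h2.trans (erase_subset i G)) le_rfl
  rw [hfib]
  refine sum_congr rfl fun R _ => ?_
  rw [filter_filter]

end Pool.Agent.H62.UC
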