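import Pool.Agent.H62.UT.Defs

/-!
Row UCMd.  Frequencies.

Proof.  `A` is the disjoint union of the members with `i` and without `i`.  The members with `i` are
`Bd A i` and `{T ∈ A : i ∈ T, T.erase i ∈ A}`; the members without `i` are `Ns A i` and
`{T ∈ A : i ∉ T, insert i T ∈ A}`; `T ↦ T.erase i` is a bijection between the two remaining families
(`Finset.card_bij'` or `card_nbij'`).  So
`2 freq - |A| = freq - (|A| - freq) = |Bd| - |Ns|`.
-/

set_option autoImplicit false

namespace Pool.Agent.H62.UC

open Finset

variable {α : Type*} [DecidableEq α]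

theorem freq_identity (A : Finset (Finset α)) (i : α) :
    2 * ((A.filter (fun T => i ∈ T)).card : ℝ) - (A.card : ℝ) =
      ((Bd A i).card : ℝ) - ((Ns A i).card : ℝ) := by
  have h1 : (A.filter (fun T => i ∈ T)).card + (A.filter (fun T => i ∉ T)).card = A.card :=
    Finset.card_filter_add_card_filter_not (fun T : Finset α => i ∈ T)
  have h2 : ((A.filter (fun T => i ∈ T)).filter (fun T => T.erase i ∈ A)).card +
      ((A.filter (fun T => i ∈ T)).filter (fun T => T.erase i ∉ A)).card =
      (A.filter (fun T => i ∈ T)).card :=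
    Finset.card_filter_add_card_filter_not (fun T : Finset α => T.erase i ∈ A)
  have h3 : ((A.filter (fun T => i ∉ T)).filter (fun T => insert i T ∈ A)).card +
      ((A.filter (fun T => i ∉ T)).filter (fun T => insert i T ∉ A)).card =
      (A.filter (fun T => i ∉ T)).card :=
    Finset.card_filter_add_card_filter_not (fun T : Finset α => insert i T ∈ A)
  have h4 : ((A.filter (fun T => i ∈ T)).filter (fun T => T.erase i ∈ A)).card =
      ((A.filter (fun T => i ∉ T)).filter (fun T => insert i T ∈ A)).card := by
    refine Finset.card_bij' (fun T _ => T.erase i) (fun T _ => insert i T) ?_ ?_ ?_ ?_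
    · intro T hT
      simp only [Finset.mem_filter] at hT ⊢
      exact ⟨⟨hT.2, Finset.notMem_erase i T⟩, by rw [Finset.insert_erase hT.1.2]; exact hT.1.1⟩
    · intro T hT
      simp only [Finset.mem_filter] at hT ⊢
      exact ⟨⟨hT.2, Finset.mem_insert_self i T⟩, by rw [Finset.erase_insert hT.1.2]; exact hT.1.1⟩
    · intro T hT
      simp only [Finset.mem_filter] at hT
      exact Finset.insert_erase hT.1.2
    · intro T hT
      simp only [Finset.mem_filter] at hT
      exact Finset.erase_insert hT.1.2
  have h5 : Bd A i = (A.filter (fun T => i ∈ T)).filter (fun T => T.erase i ∉ A) := by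
    ext T
    simp only [Bd, Finset.mem_filter]
    tauto
  have h6 : Ns A i = (A.filter (fun T => i ∉ T)).filter (fun T => insert i T ∉ A) := by
    ext T
    simp only [Ns, Finset.mem_filter]
    tauto
  rw [h5, h6]
  have h1' : ((A.filter (fun T => i ∈ T)).card : ℝ) + ((A.filter (fun T => i ∉ T)).card : ℝ) = (A.card : ℝ) := by
    exact_mod_cast h1
  have h2' : ((((A.filter (fun T => i ∈ T)).filter (fun T => T.erase i ∈ A)).card : ℕ) : ℝ) +
      ((((A.filter (fun T => i ∈ T)).filter (fun T => T.erase i ∉ A)).card : ℕ) : ℝ) =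
      ((A.filter (fun T => i ∈ T)).card : ℝ) := by exact_mod_cast h2
  have h3' : ((((A.filter (fun T => i ∉ T)).filter (fun T => insert i T ∈ A)).card : ℕ) : ℝ) +
      ((((A.filter (fun T => i ∉ T)).filter (fun T => insert i T ∉ A)).card : ℕ) : ℝ) =
      ((A.filter (fun T => i ∉ T)).card : ℝ) := by exact_mod_cast h3
  have h4' : ((((A.filter (fun T => i ∈ T)).filter (fun T => T.erase i ∈ A)).card : ℕ) : ℝ) =
      ((((A.filter (fun T => i ∉ T)).filter (fun T => insert i T ∈ A)).card : ℕ) : ℝ) := by
    exact_mod_cast h4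
  linarith

end Pool.Agent.H62.UC
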