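import Pool.Agent.H62.UC.Mb
import Pool.Agent.H62.UC.Mc
import Pool.Agent.H62.UC.Md

/-!
Row UCMe.  The main inequality.

`pr lam i j = 1 - 2 ^ (- min 1 (lam j / lam i))`,
`nu A S lam i = P(no member T with i ∈ T ⊆ X ∪ {i})`, `X ⊆ S ∖ {i}` random, `j ∈ X` with probability
`pr lam i j`.

Proof of `pr_bounds`: `0 < min 1 (lam j / lam i) ≤ 1`, so `1/2 ≤ 2 ^ (-min) < 1` (`Real.rpow_lt_one`,
`Real.rpow_le_rpow_of_exponent_le`).
Proof of `log_pr`: `1 - pr = 2 ^ (-min)`, `Real.log_rpow`.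
Proof of `main_ineq`: `G = S ∪ A.sup id` (all members and `S` lie in `G`: `Finset.le_sup`).
For each `i ∈ S` choose `J i e ∈ e.2 \ e.1` for all exits `e` (`exit_nonempty`; e.g.
`J i e = if h : (e.2 \ e.1).Nonempty then h.choose else i`).  By `slice_bound` with `p = pr lam i`:
`|Ns A i| log (1 / nu) ≤ ∑_{e, e.2 \ e.1 ⊆ S} log (1 / (1 - pr lam i (J i e))) = log 2 * ∑ min 1 (lam (J i e) / lam i)`
(`log_pr` needs `J i e ∈ S`).  Multiply by `lam i > 0`, sum over `i ∈ S`, `inj_bound`: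
`∑ lam i |Ns A i| log (1 / nu) ≤ log 2 ∑_{j ∈ S} lam j |Bd A j|`.  Subtract
`log 2 ∑ lam i |Ns A i|` and use `freq_identity`.
-/

set_option autoImplicit false

namespace Pool.Agent.H62.UC

open Finset

variable {α : Type*} [DecidableEq α]

/-- The probability of `j` in the random set for `i`. -/
noncomputable def pr (lam : α → ℝ) (i j : α) : ℝ := 1 - (2:ℝ) ^ (-min 1 (lam j / lam i))

/-- The probability that the random set together with `i` does not cover `i`. -/
noncomputable def nu (A : Finset (Finset α)) (S : Finset α) (lam : α → ℝ) (i : α) : ℝ :=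
  ∑ Y ∈ (S.erase i).powerset with ¬ ∃ T ∈ A, i ∈ T ∧ T ⊆ insert i Y,
    pm (S.erase i) (pr lam i) Y

private theorem UCMe_min {lam : α → ℝ} {i j : α} (hi : 0 < lam i) (hj : 0 < lam j) :
    0 < min 1 (lam j / lam i) ∧ min 1 (lam j / lam i) ≤ 1 :=
  ⟨lt_min one_pos (div_pos hj hi), min_le_left _ _⟩

theorem pr_bounds {lam : α → ℝ} {i j : α} (hi : 0 < lam i) (hj : 0 < lam j) :
    0 < pr lam i j ∧ pr lam i j ≤ 1 / 2 := by
  obtain ⟨h1, h2⟩ := UCMe_min hi hj
  have h3 : (2 : ℝ) ^ (-min 1 (lam j / lam i)) < 1 :=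
    Real.rpow_lt_one_of_one_lt_of_neg one_lt_two (neg_lt_zero.2 h1)
  have h4 : (2 : ℝ) ^ (-1 : ℝ) ≤ (2 : ℝ) ^ (-min 1 (lam j / lam i)) :=
    Real.rpow_le_rpow_of_exponent_le one_le_two (neg_le_neg h2)
  rw [Real.rpow_neg_one] at h4
  unfold pr
  constructor
  · linarith
  · norm_num at h4 ⊢
    linarith

theorem log_pr (lam : α → ℝ) (i j : α) :
    Real.log (1 / (1 - pr lam i j)) = min 1 (lam j / lam i) * Real.log 2 := by
  have h1 : 1 - pr lam i j = (2 : ℝ) ^ (-min 1 (lam j / lam i)) := by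
    unfold pr
    ring
  rw [h1, one_div, Real.log_inv, Real.log_rpow two_pos]
  ring

theorem main_ineq {A : Finset (Finset α)} (hA : ∀ S ∈ A, ∀ T ∈ A, S ∪ T ∈ A) {S : Finset α}
    {lam : α → ℝ} (hlam : ∀ i ∈ S, 0 < lam i) :
    ∑ i ∈ S, lam i * (((Ns A i).card : ℝ) * (Real.log (1 / nu A S lam i) - Real.log 2)) ≤
      Real.log 2 * ∑ i ∈ S, lam i *
        (2 * ((A.filter (fun T => i ∈ T)).card : ℝ) - (A.card : ℝ)) := by
  obtain ⟨G, hG'⟩ : ∃ G, G = S ∪ A.sup id := ⟨_, rfl⟩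
  have hS : S ⊆ G := by
    rw [hG']
    exact subset_union_left
  have hG : ∀ T ∈ A, T ⊆ G := by
    intro T hT
    rw [hG']
    exact (Finset.le_sup (f := id) hT).trans subset_union_right
  have hex : ∃ J : α → Finset α × Finset α → α, ∀ i ∈ S, ∀ e ∈ exits (Ns A i) (Hs G A i),
      J i e ∈ e.2 \ e.1 := by
    classical
    refine ⟨fun i e => if h : (e.2 \ e.1).Nonempty then h.choose else i, ?_⟩
    intro i _ e he
    have h := exit_nonempty hA he
    show (if h : (e.2 \ e.1).Nonempty then h.choose else i) ∈ e.2 \ e.1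
    rw [dif_pos h]
    exact h.choose_spec
  obtain ⟨J, hJ⟩ := hex
  have h1 : ∀ i ∈ S, lam i * (((Ns A i).card : ℝ) * Real.log (1 / nu A S lam i)) ≤
      Real.log 2 * ∑ e ∈ exits (Ns A i) (Hs G A i) with e.2 \ e.1 ⊆ S,
        lam i * min 1 (lam (J i e) / lam i) := by
    intro i hi
    have h2 := slice_bound hA hG hS hi (p := pr lam i) (fun j hj =>
      pr_bounds (hlam i hi) (hlam j (mem_of_mem_erase hj))) (J := J i) (hJ i hi)
    have h3 : ∑ e ∈ exits (Ns A i) (Hs G A i) with e.2 \ e.1 ⊆ S,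
        Real.log (1 / (1 - pr lam i (J i e))) =
        Real.log 2 * ∑ e ∈ exits (Ns A i) (Hs G A i) with e.2 \ e.1 ⊆ S,
          min 1 (lam (J i e) / lam i) := by
      rw [mul_sum]
      refine sum_congr rfl fun e _ => ?_
      rw [log_pr, mul_comm]
    rw [h3] at h2
    have h4 := mul_le_mul_of_nonneg_left h2 (hlam i hi).le
    rw [← mul_sum]
    calc lam i * (((Ns A i).card : ℝ) * Real.log (1 / nu A S lam i)) ≤
        lam i * (Real.log 2 * ∑ e ∈ exits (Ns A i) (Hs G A i) with e.2 \ e.1 ⊆ S,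
          min 1 (lam (J i e) / lam i)) := h4
      _ = _ := by ring
  have h5 := sum_le_sum h1
  rw [← mul_sum] at h5
  have h6 := inj_bound hA hG hlam hJ
  have h7 : 0 ≤ Real.log 2 := Real.log_nonneg one_le_two
  have h8 := h5.trans (mul_le_mul_of_nonneg_left h6 h7)
  have h9 : ∑ i ∈ S, lam i * (2 * ((A.filter (fun T => i ∈ T)).card : ℝ) - (A.card : ℝ)) =
      ∑ i ∈ S, lam i * ((Bd A i).card : ℝ) - ∑ i ∈ S, lam i * ((Ns A i).card : ℝ) := by
    rw [← sum_sub_distrib]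
    refine sum_congr rfl fun i _ => ?_
    rw [freq_identity]
    ring
  have h10 : ∑ i ∈ S, lam i * (((Ns A i).card : ℝ) * (Real.log (1 / nu A S lam i) - Real.log 2)) =
      ∑ i ∈ S, lam i * (((Ns A i).card : ℝ) * Real.log (1 / nu A S lam i)) -
        Real.log 2 * ∑ i ∈ S, lam i * ((Ns A i).card : ℝ) := by
    rw [mul_sum, ← sum_sub_distrib]
    refine sum_congr rfl fun i _ => ?_
    ring
  rw [h9, h10, mul_sub]
  linarith

end Pool.Agent.H62.UC
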