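import Pool.Agent.H62.UT.Defs

/-!
Row UCLa.  The product measure `pm V p`.

Proofs.
* `pm_pos`, `pm_nonneg`: products of positive (nonnegative) numbers, for `Z ⊆ V`.
* `pm_total`: `Finset.prod_add` (`∏_{j ∈ V} (p j + (1 - p j)) = ∑_{Z ∈ V.powerset} ...`) and
  `∏ 1 = 1`; or induction on `V`.
* `pm_insert`, `pm_insert'`: `V`-recursion, direct: `insert k V \ Z = insert k (V \ Z)` for `k ∉ Z`,
  `insert k V \ insert k Z = V \ Z` for `k ∉ V`, `Z ⊆ V`.
* `pm_ratio`: for `j ∈ V`, `Z ⊆ V`, `j ∉ Z`: `(1 - p j) pm V p (insert j Z) = p j * pm V p Z`: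
  `V \ Z = insert j (V \ insert j Z)`.
* `pm_decr`: by `pm_ratio`, removing one point `j` does not decrease `pm` if `0 ≤ p j ≤ 1/2`; for
  `Z' ⊆ Z` induct on `Z \ Z'`.
  Alternatively directly: `pm V p Z = ∏_{j ∈ V} (if j ∈ Z then p j else 1 - p j)`, compare factors.
-/

/-!
Row UCLa.  The product measure `pm V p`.

Proofs.
* `pm_pos`, `pm_nonneg`: products of positive (nonnegative) numbers, for `Z ⊆ V`.
* `pm_total`: `Finset.prod_add` (`∏_{j ∈ V} (p j + (1 - p j)) = ∑_{Z ∈ V.powerset} ...`) and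
  `∏ 1 = 1`; or induction on `V`.
* `pm_insert`, `pm_insert'`: `V`-recursion, direct: `insert k V \ Z = insert k (V \ Z)` for `k ∉ Z`,
  `insert k V \ insert k Z = V \ Z` for `k ∉ V`, `Z ⊆ V`.
* `pm_ratio`: for `j ∈ V`, `Z ⊆ V`, `j ∉ Z`: `(1 - p j) pm V p (insert j Z) = p j * pm V p Z`:
  `V \ Z = insert j (V \ insert j Z)`.
* `pm_decr`: by `pm_ratio`, removing one point `j` does not decrease `pm` if `0 ≤ p j ≤ 1/2`; for
  `Z' ⊆ Z` induct on `Z \ Z'`.
  Alternatively directly: `pm V p Z = ∏_{j ∈ V} (if j ∈ Z then p j else 1 - p j)`, compare factors.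
-/

set_option autoImplicit false

namespace Pool.Agent.H62.UC

open Finset

variable {α : Type*} [DecidableEq α]

theorem pm_pos {V : Finset α} {p : α → ℝ} (hp : ∀ j ∈ V, 0 < p j ∧ p j < 1) {Z : Finset α}
    (hZ : Z ⊆ V) : 0 < pm V p Z := by
  refine mul_pos (prod_pos fun j hj => (hp j (hZ hj)).1) (prod_pos fun j hj => ?_)
  have := (hp j (mem_sdiff.1 hj).1).2
  linarith

theorem pm_nonneg {V : Finset α} {p : α → ℝ} (hp : ∀ j ∈ V, 0 ≤ p j ∧ p j ≤ 1)
    {Z : Finset α} (hZ : Z ⊆ V) : 0 ≤ pm V p Z := by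
  refine mul_nonneg (prod_nonneg fun j hj => (hp j (hZ hj)).1) (prod_nonneg fun j hj => ?_)
  have := (hp j (mem_sdiff.1 hj).1).2
  linarith

theorem pm_total (V : Finset α) (p : α → ℝ) : ∑ Z ∈ V.powerset, pm V p Z = 1 := by
  have h := prod_add p (fun j => 1 - p j) V
  have h1 : ∏ j ∈ V, (p j + (1 - p j)) = 1 := prod_eq_one fun j _ => by ring
  rw [h1] at h
  exact h.symm

theorem pm_insert {V : Finset α} {p : α → ℝ} {k : α} (hk : k ∉ V) {Z : Finset α}
    (hZ : Z ⊆ V) : pm (insert k V) p Z = (1 - p k) * pm V p Z := by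
  have h1 : insert k V \ Z = insert k (V \ Z) := insert_sdiff_of_notMem _ (fun h => hk (hZ h))
  rw [pm, pm, h1, prod_insert (fun h => hk (mem_sdiff.1 h).1)]
  ring

theorem pm_insert' {V : Finset α} {p : α → ℝ} {k : α} (hk : k ∉ V) {Z : Finset α}
    (hZ : Z ⊆ V) : pm (insert k V) p (insert k Z) = p k * pm V p Z := by
  have h1 : insert k V \ insert k Z = V \ Z := by
    ext a
    simp only [mem_sdiff, mem_insert, not_or]
    constructor
    · rintro ⟨h2 | h2, h3, h4⟩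
      · exact absurd h2 h3
      · exact ⟨h2, h4⟩
    · rintro ⟨h2, h3⟩
      exact ⟨Or.inr h2, fun h => hk (h ▸ h2), h3⟩
  rw [pm, pm, h1, prod_insert (fun h => hk (hZ h))]
  ring

theorem pm_ratio {V : Finset α} {p : α → ℝ} {j : α} (hj : j ∈ V) {Z : Finset α}
    (hZ : Z ⊆ V) (hjZ : j ∉ Z) :
    (1 - p j) * pm V p (insert j Z) = p j * pm V p Z := by
  have h1 : V \ Z = insert j (V \ insert j Z) := by
    ext a
    simp only [mem_sdiff, mem_insert, not_or]
    constructor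
    · rintro ⟨h2, h3⟩
      by_cases h4 : a = j
      · exact Or.inl h4
      · exact Or.inr ⟨h2, h4, h3⟩
    · rintro (h2 | h2)
      · rw [h2]
        exact ⟨hj, hjZ⟩
      · exact ⟨h2.1, h2.2.2⟩
  rw [pm, pm, h1, prod_insert (fun h => (mem_sdiff.1 h).2 (mem_insert_self _ _)),
    prod_insert hjZ]
  ring

theorem pm_decr {V : Finset α} {p : α → ℝ} (hp : ∀ j ∈ V, 0 ≤ p j ∧ p j ≤ 1 / 2) :
    Decr V (pm V p) := by
  have key : ∀ Z ⊆ V, pm V p Z = ∏ j ∈ V, (if j ∈ Z then p j else 1 - p j) := by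
    intro Z hZ
    rw [pm, ← prod_sdiff hZ, mul_comm]
    congr 1
    · refine prod_congr rfl fun j hj => ?_
      rw [if_neg (mem_sdiff.1 hj).2]
    · refine prod_congr rfl fun j hj => ?_
      rw [if_pos hj]
  refine ⟨fun Z hZ => pm_nonneg (fun j hj => ⟨(hp j hj).1, ?_⟩) hZ, fun Z hZ Z' hZ' => ?_⟩
  · have := (hp j hj).2
    linarith
  rw [key Z hZ, key Z' (hZ'.trans hZ)]
  refine prod_le_prod (fun j hj => ?_) (fun j hj => ?_)
  · have h1 := hp j hj
    split_ifs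
    · exact h1.1
    · linarith
  · have h1 := hp j hj
    by_cases h2 : j ∈ Z'
    · rw [if_pos h2, if_pos (hZ' h2)]
    · rw [if_neg h2]
      split_ifs
      · linarith
      · exact le_refl _

end Pool.Agent.H62.UC
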