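import Pool.Agent.H62.UC.OreA

/-!
# OREC (`trace_lemma`): closed invariant subspaces of `H × H`, Ore condition, trace lemma

`G : Submodule ℂ (H × H)` closed and invariant under `u ⊕ u`, `u ∈ N'`. Let `P` be the orthogonal
projection of the Hilbert space `WithLp 2 (H × H)` on `G`; its four blocks commute with `N'`, hence
are in `N`.
-/

namespace Pool.H62.UC

open scoped InnerProductSpace TensorProduct ComplexConjugate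
open Filter Topology ContinuousLinearMap

noncomputable section


variable {H : Type*} [NormedAddCommGroup H] [InnerProductSpace ℂ H] [CompleteSpace H]

/-- the projection fixes the elements of `G` -/
theorem OreC_fix (G : Submodule ℂ (H × H)) (P Q R : H →L[ℂ] H)
    (hm : ∀ ζ ω : H, (P ζ + (star Q) ω, Q ζ + R ω) ∈ G)
    (ho : ∀ ζ ω : H, ∀ p ∈ G, ⟪p.1, ζ - (P ζ + (star Q) ω)⟫_ℂ + ⟪p.2, ω - (Q ζ + R ω)⟫_ℂ = 0)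
    (a b : H) (hab : (a, b) ∈ G) : P a + (star Q) b = a ∧ Q a + R b = b := by
  have h1 := hm a b
  have h2 : ((a, b) - (P a + (star Q) b, Q a + R b) : H × H) ∈ G := G.sub_mem hab h1
  have h3 := ho a b _ h2
  simp only [Prod.mk_sub_mk] at h3
  set d := a - (P a + (star Q) b) with hd
  set e := b - (Q a + R b) with he
  rw [inner_self_eq_norm_sq_to_K, inner_self_eq_norm_sq_to_K] at h3
  have h4 : ‖d‖ ^ 2 + ‖e‖ ^ 2 = 0 := by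
    have h' := congrArg Complex.re h3
    have q1 : (((‖d‖ : ℝ) : ℂ) ^ 2).re = ‖d‖ ^ 2 := by rw [← Complex.ofReal_pow, Complex.ofReal_re]
    have q2 : (((‖e‖ : ℝ) : ℂ) ^ 2).re = ‖e‖ ^ 2 := by rw [← Complex.ofReal_pow, Complex.ofReal_re]
    rw [Complex.add_re] at h'
    exact q1 ▸ q2 ▸ h'
  have h5 : ‖d‖ = 0 := by nlinarith [norm_nonneg d, norm_nonneg e, sq_nonneg ‖d‖, sq_nonneg ‖e‖]
  have h6 : ‖e‖ = 0 := by nlinarith [norm_nonneg d, norm_nonneg e, sq_nonneg ‖d‖, sq_nonneg ‖e‖]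
  rw [norm_eq_zero] at h5 h6
  exact ⟨(sub_eq_zero.mp h5).symm, (sub_eq_zero.mp h6).symm⟩

/-- Pythagoras for `G₁ ≤ G₂` -/
theorem OreC_pyth (G₁ G₂ : Submodule ℂ (H × H)) (hle : G₁ ≤ G₂) (z w a b c d : H)
    (h1 : (a, b) ∈ G₁)
    (o1 : ∀ p ∈ G₁, ⟪p.1, z - a⟫_ℂ + ⟪p.2, w - b⟫_ℂ = 0)
    (o2 : ∀ p ∈ G₂, ⟪p.1, z - c⟫_ℂ + ⟪p.2, w - d⟫_ℂ = 0) :
    ‖c‖ ^ 2 + ‖d‖ ^ 2 = (‖a‖ ^ 2 + ‖b‖ ^ 2) + (‖c - a‖ ^ 2 + ‖d - b‖ ^ 2) := by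
  have e1 := o1 (a, b) h1
  have e2 := o2 (a, b) (hle h1)
  simp only at e1 e2
  have e3 : ⟪a, c - a⟫_ℂ + ⟪b, d - b⟫_ℂ = 0 := by
    have q1 : ⟪a, c - a⟫_ℂ = ⟪a, z - a⟫_ℂ - ⟪a, z - c⟫_ℂ := by
      rw [← inner_sub_right]; congr 1; abel
    have q2 : ⟪b, d - b⟫_ℂ = ⟪b, w - b⟫_ℂ - ⟪b, w - d⟫_ℂ := by
      rw [← inner_sub_right]; congr 1; abel
    rw [q1, q2]
    linear_combination e1 - e2
  have e4 : c = a + (c - a) := by abel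
  have e5 : d = b + (d - b) := by abel
  have n1 : ‖c‖ ^ 2 = ‖a‖ ^ 2 + 2 * (⟪a, c - a⟫_ℂ).re + ‖c - a‖ ^ 2 := by
    conv_lhs => rw [e4]
    exact @norm_add_sq ℂ H _ _ _ a (c - a)
  have n2 : ‖d‖ ^ 2 = ‖b‖ ^ 2 + 2 * (⟪b, d - b⟫_ℂ).re + ‖d - b‖ ^ 2 := by
    conv_lhs => rw [e5]
    exact @norm_add_sq ℂ H _ _ _ b (d - b)
  have e6 : (⟪a, c - a⟫_ℂ).re + (⟪b, d - b⟫_ℂ).re = 0 := by
    have := congrArg Complex.re e3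
    simpa using this
  rw [n1, n2]; linarith

/-- membership through the commutant -/
theorem OreC_mem (N : VonNeumannAlgebra H) (R : H →L[ℂ] H)
    (h : ∀ u ∈ N.commutant, u * R = R * u) : R ∈ N := by
  have : R ∈ N.commutant.commutant := by
    rw [VonNeumannAlgebra.mem_commutant_iff]
    exact h
  rwa [VonNeumannAlgebra.commutant_commutant] at this

/-- lower bound of the trace of the projection on a densely defined `G` -/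
theorem OreC_lower (N : VonNeumannAlgebra H) (Ω : H) (hN : IsST N Ω) (G : Submodule ℂ (H × H))
    (hd : Dense {ζ : H | ∃ ω, (ζ, ω) ∈ G}) (P Q R : H →L[ℂ] H) (hP : P ∈ N) (hQ : Q ∈ N)
    (sP : star P = P)
    (hm : ∀ ζ ω : H, (P ζ + (star Q) ω, Q ζ + R ω) ∈ G)
    (ho : ∀ ζ ω : H, ∀ p ∈ G, ⟪p.1, ζ - (P ζ + (star Q) ω)⟫_ℂ + ⟪p.2, ω - (Q ζ + R ω)⟫_ℂ = 0) :
    ‖Ω‖ ^ 2 ≤ (‖P Ω‖ ^ 2 + ‖Q Ω‖ ^ 2) + (‖(star Q) Ω‖ ^ 2 + ‖R Ω‖ ^ 2) := by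
  have m1 : ∀ ζ, (P ζ, Q ζ) ∈ G := fun ζ => by simpa using hm ζ 0
  have m2 : ∀ ω, ((star Q) ω, R ω) ∈ G := fun ω => by simpa using hm 0 ω
  have f1 := fun ζ => OreC_fix G P Q R hm ho _ _ (m1 ζ)
  have f2 := fun ζ => OreC_fix G P Q R hm ho _ _ (m2 ζ)
  -- block identity
  have hZ : P = P * star P + star Q * star (star Q) := by
    ext ζ
    have := (f1 ζ).1
    rw [sP, star_star]
    simpa using this.symm
  have hpos : P.IsPositive := by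
    rw [hZ]
    refine IsPositive.add ?_ ?_
    · exact isPositive_self_comp_adjoint P
    · rw [star_star]
      exact isPositive_adjoint_comp_self Q
  have hinj : ∀ ξ, P ξ = 0 → ξ = 0 := by
    intro ξ hξ
    have o := ho ξ 0 (P ξ, Q ξ) (m1 ξ)
    simp only [hξ, map_zero, add_zero, sub_zero, zero_sub, inner_zero_left, zero_add,
      inner_neg_right, neg_eq_zero] at o
    have hq : Q ξ = 0 := inner_self_eq_zero.mp o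
    have hall : ∀ ζ ∈ {ζ : H | ∃ ω, (ζ, ω) ∈ G}, ⟪ζ, ξ⟫_ℂ = 0 := by
      rintro ζ ⟨ω, hω⟩
      have := ho ξ 0 _ hω
      simpa [hξ, hq] using this
    exact hd.eq_zero_of_inner_right ℂ (fun v hv => hall v hv)
  choose Rg hR using fun (ε : ℝ) (hε : 0 < ε) => reg_inv P hpos ε hε
  let Rf : ℝ → H →L[ℂ] H := fun ε => if h : 0 < ε then Rg ε h else 0
  have hRf : ∀ ε (h : 0 < ε), Rf ε = Rg ε h := fun ε h => by simp [Rf, h]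
  have hlim := tik_pos P hpos hinj Rf (fun ε hε => by
    rw [hRf ε hε]; exact ⟨(hR ε hε).1, (hR ε hε).2.1⟩) Ω
  refine le_of_tendsto hlim ?_
  filter_upwards [self_mem_nhdsWithin] with ε hε
  have hε : 0 < ε := hε
  rw [hRf ε hε]
  obtain ⟨r1, r2, r3, r4, -, -⟩ := hR ε hε
  set T := Rg ε hε with hT
  have hTN : T ∈ N := by
    apply OreC_mem
    intro u hu
    apply r4
    exact ((VonNeumannAlgebra.mem_commutant_iff.mp hu) P hP).symm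
  have hrow : T * (P * star P + star Q * star (star Q) + (ε : ℂ) • (1 : H →L[ℂ] H)) = 1 ∧
      (P * star P + star Q * star (star Q) + (ε : ℂ) • (1 : H →L[ℂ] H)) * T = 1 := by
    rw [← hZ]; exact ⟨r1, r2⟩
  have b1 := tik_row_le P (star Q) T ε hε hrow (P Ω) (Q Ω)
  have b2 := tik_row_le P (star Q) T ε hε hrow ((star Q) Ω) (R Ω)
  rw [(f1 Ω).1] at b1
  rw [(f2 Ω).1] at b2
  have sadj : ∀ (A : H →L[ℂ] H) (x y : H), ⟪(star A) x, y⟫_ℂ = ⟪x, A y⟫_ℂ := fun A x y => by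
    rw [star_eq_adjoint, adjoint_inner_left]
  have t1 : ⟪P Ω, T (P Ω)⟫_ℂ = ⟪Ω, (T * P * P) Ω⟫_ℂ := by
    have : ⟪P Ω, T (P Ω)⟫_ℂ = ⟪Ω, (P * (T * P)) Ω⟫_ℂ := by
      conv_lhs => rw [← sP]
      rw [sadj]; simp [sP]
    rw [this, hN.trace P hP (T * P) (mul_mem hTN hP)]
  have t2 : ⟪(star Q) Ω, T ((star Q) Ω)⟫_ℂ = ⟪Ω, (T * star Q * Q) Ω⟫_ℂ := by
    have : ⟪(star Q) Ω, T ((star Q) Ω)⟫_ℂ = ⟪Ω, (Q * (T * star Q)) Ω⟫_ℂ := by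
      rw [sadj]; simp
    rw [this, hN.trace Q hQ (T * star Q) (mul_mem hTN (star_mem hQ))]
  have t3 : ⟪Ω, (T * P * P) Ω⟫_ℂ + ⟪Ω, (T * star Q * Q) Ω⟫_ℂ = ⟪Ω, T (P Ω)⟫_ℂ := by
    rw [← inner_add_right]
    congr 1
    have := (f1 Ω).1
    simp only [mul_apply_eq_comp]
    rw [← map_add, this]
  rw [t1] at b1
  rw [t2] at b2
  have t4 := congrArg Complex.re t3
  rw [Complex.add_re] at t4
  linarith

/-- Trace lemma: `G₁ ≤ G₂` closed invariant, `G₁` densely defined, `G₂` single valued; then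
`G₁ = G₂`.  With `P` (resp. `Q`) the projection on `G₁` (resp. `G₂`), `P ≤ Q`:
`tr Q = lim tr (T* R_ε T) = lim ⟪Ω, R_ε Q₁₁ Ω⟫ ≤ ‖Ω‖²` for `T = π₁ Q` (row `(Q₁₁, Q₁₂)`, kernel
`G₂ᗮ` since `G₂` is single valued, `T T* = Q₁₁`: this is `dim_le`), and
`tr P ≥ lim ⟪Ω, (P₁₁ + ε)⁻¹ P₁₁ Ω⟫ = ‖Ω‖²` (`tik_row_le` for the row `(P₁₁, P₁₂)`, whose
`T T*` is `P₁₁`, an injective positive operator, applied to the projections of `(Ω,0)`, `(0,Ω)`;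
`tik_pos`). So `tr (Q - P) ≤ 0`, `(Q - P)(Ω, 0) = 0 = (Q - P)(0, Ω)` and `Q = P` since the blocks
are in `N` and `Ω` is separating. -/
theorem trace_lemma (N : VonNeumannAlgebra H) (Ω : H) (hN : IsST N Ω)
    (G₁ G₂ : Submodule ℂ (H × H)) (h1 : IsClosed (G₁ : Set (H × H)))
    (h2 : IsClosed (G₂ : Set (H × H))) (i1 : Inv N G₁) (i2 : Inv N G₂) (hle : G₁ ≤ G₂)
    (hd : Dense {ζ : H | ∃ ω, (ζ, ω) ∈ G₁}) (hs : ∀ ω : H, ((0 : H), ω) ∈ G₂ → ω = 0) :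
    G₁ = G₂ := by
  obtain ⟨P₁, Q₁, R₁, p1, q1, r1, sP1, sR1, m1, o1⟩ := proj_blocks N G₁ h1 i1
  obtain ⟨P₂, Q₂, R₂, p2, q2, r2, sP2, sR2, m2, o2⟩ := proj_blocks N G₂ h2 i2
  have hlow := OreC_lower N Ω hN G₁ hd P₁ Q₁ R₁ p1 q1 sP1 m1 o1
  -- membership of the rows
  have a1 : ∀ ζ, (P₁ ζ, Q₁ ζ) ∈ G₁ := fun ζ => by simpa using m1 ζ 0
  have b1 : ∀ ω, ((star Q₁) ω, R₁ ω) ∈ G₁ := fun ω => by simpa using m1 0 ω
  have a2 : ∀ ζ, (P₂ ζ, Q₂ ζ) ∈ G₂ := fun ζ => by simpa using m2 ζ 0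
  have b2 : ∀ ω, ((star Q₂) ω, R₂ ω) ∈ G₂ := fun ω => by simpa using m2 0 ω
  have f1 := fun ζ => OreC_fix G₂ P₂ Q₂ R₂ m2 o2 _ _ (a2 ζ)
  have f2 := fun ζ => OreC_fix G₂ P₂ Q₂ R₂ m2 o2 _ _ (b2 ζ)
  -- the kernel of the row is orthogonal to `G₂`
  have hker : ∀ ζ ω : H, P₂ ζ + (star Q₂) ω = 0 → ∀ p ∈ G₂, ⟪ζ, p.1⟫_ℂ + ⟪ω, p.2⟫_ℂ = 0 := by
    intro ζ ω h p hp
    have h' := m2 ζ ω
    rw [h] at h'
    have h'' := hs _ h'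
    have h3 := o2 ζ ω p hp
    rw [h, h'', sub_zero, sub_zero] at h3
    have h4 := congrArg (starRingEnd ℂ) h3
    rw [map_add, inner_conj_symm, inner_conj_symm, map_zero] at h4
    exact h4
  have hup := dim_le N Ω hN P₂ (star Q₂) p2 (star_mem q2) (P₂ Ω) (R₂ Ω) ((star Q₂) Ω) (Q₂ Ω)
    (fun ζ ω h => hker ζ ω h _ (a2 Ω)) (f1 Ω).1 (fun ζ ω h => hker ζ ω h _ (b2 Ω)) (f2 Ω).1
  have y1 := OreC_pyth G₁ G₂ hle Ω 0 (P₁ Ω) (Q₁ Ω) (P₂ Ω) (Q₂ Ω) (a1 Ω)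
    (fun p hp => by simpa using o1 Ω 0 p hp) (fun p hp => by simpa using o2 Ω 0 p hp)
  have y2 := OreC_pyth G₁ G₂ hle 0 Ω ((star Q₁) Ω) (R₁ Ω) ((star Q₂) Ω) (R₂ Ω) (b1 Ω)
    (fun p hp => by simpa using o1 0 Ω p hp) (fun p hp => by simpa using o2 0 Ω p hp)
  have hz : (‖P₂ Ω - P₁ Ω‖ ^ 2 + ‖Q₂ Ω - Q₁ Ω‖ ^ 2) +
      (‖(star Q₂) Ω - (star Q₁) Ω‖ ^ 2 + ‖R₂ Ω - R₁ Ω‖ ^ 2) ≤ 0 := by linarith
  have n0 : ∀ x : H, 0 ≤ ‖x‖ ^ 2 := fun x => sq_nonneg _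
  have zz : ∀ x : H, ‖x‖ ^ 2 ≤ 0 → x = 0 := fun x hx => by
    have : ‖x‖ = 0 := by nlinarith [norm_nonneg x]
    exact norm_eq_zero.mp this
  have e1 : P₂ Ω - P₁ Ω = 0 := zz _ (by
    linarith [n0 (P₂ Ω - P₁ Ω), n0 (Q₂ Ω - Q₁ Ω), n0 ((star Q₂) Ω - (star Q₁) Ω),
      n0 (R₂ Ω - R₁ Ω)])
  have e2 : Q₂ Ω - Q₁ Ω = 0 := zz _ (by
    linarith [n0 (P₂ Ω - P₁ Ω), n0 (Q₂ Ω - Q₁ Ω), n0 ((star Q₂) Ω - (star Q₁) Ω),
      n0 (R₂ Ω - R₁ Ω)])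
  have e3 : R₂ Ω - R₁ Ω = 0 := zz _ (by
    linarith [n0 (P₂ Ω - P₁ Ω), n0 (Q₂ Ω - Q₁ Ω), n0 ((star Q₂) Ω - (star Q₁) Ω),
      n0 (R₂ Ω - R₁ Ω)])
  have g1 : P₂ = P₁ := sub_eq_zero.mp (hN.sep _ (sub_mem p2 p1) (by simpa using e1))
  have g2 : Q₂ = Q₁ := sub_eq_zero.mp (hN.sep _ (sub_mem q2 q1) (by simpa using e2))
  have g3 : R₂ = R₁ := sub_eq_zero.mp (hN.sep _ (sub_mem r2 r1) (by simpa using e3))
  subst g1 g2 g3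
  refine le_antisymm hle ?_
  rintro ⟨a, b⟩ hp
  obtain ⟨u, v⟩ := OreC_fix G₂ _ _ _ m2 o2 a b hp
  have := m1 a b
  rwa [u, v] at this

end

end Pool.H62.UC
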