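import Pool.Agent.H62.UC.OpOf
import Pool.Agent.H62.UC.OreC

/-!
# AFF: from fractions to closed affiliated operators
-/

namespace Pool.H62.UC

open scoped InnerProductSpace TensorProduct ComplexConjugate
open Filter Topology

noncomputable section


variable {H : Type*} [NormedAddCommGroup H] [InnerProductSpace ℂ H] [CompleteSpace H]
variable {K : Type*} [NormedAddCommGroup K] [InnerProductSpace ℂ K] [CompleteSpace K]

private theorem aff_comm (N : VonNeumannAlgebra K) (T u : K →L[ℂ] K) (hT : T ∈ N)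
    (hu : u ∈ N.commutant) (ξ : K) : T (u ξ) = u (T ξ) := by
  have h1 := VonNeumannAlgebra.mem_commutant_iff.1 hu T hT
  have h2 := congrArg (fun Z : K →L[ℂ] K => Z ξ) h1
  simpa using h2

/-- the diagonal action as a linear map -/
private def affMap (a b : K →L[ℂ] K) : (K × K) →ₗ[ℂ] (K × K) :=
  (a.prodMap b : (K × K) →L[ℂ] (K × K)).toLinearMap

private theorem affMap_apply (a b : K →L[ℂ] K) (p : K × K) : affMap a b p = (a p.1, b p.2) := rfl

private theorem affMap_cont (a b : K →L[ℂ] K) : Continuous (affMap a b) :=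
  (a.prodMap b : (K × K) →L[ℂ] (K × K)).continuous

/-- if the generating set is mapped by `a ⊕ b` into the closed subspace `G`, so is the closure of
its span -/
private theorem aff_le (S : Set (K × K)) (G : Submodule ℂ (K × K))
    (hG : IsClosed (G : Set (K × K))) (a b : K →L[ℂ] K)
    (h : ∀ p ∈ S, ((a p.1, b p.2) : K × K) ∈ G) (p : K × K)
    (hp : p ∈ (Submodule.span ℂ S).topologicalClosure) : ((a p.1, b p.2) : K × K) ∈ G := by
  have h1 : (Submodule.span ℂ S).topologicalClosure ≤ G.comap (affMap a b) := by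
    apply Submodule.topologicalClosure_minimal
    · rw [Submodule.span_le]
      intro q hq
      exact h q hq
    · exact hG.preimage (affMap_cont a b)
  exact h1 hp

/-- From the fraction form to a closed operator: `η = {(ζ, ω) : (ζ, A ω) ∈ opOf N Ω β}` is closed,
invariant, single valued, contains `{(u B Ω, u c)}` whose domain is dense (`dense_comm`), so by
`trace_lemma` it is the closure of that set.  For `T ∈ N`, `B k = T c`:
`closure {(ζ, T ω)} ⊆ opOf N Ω k` and contains the closure of `{(u B Ω, u B k)}`, which is all of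
`opOf N Ω k` by `trace_lemma`. -/
theorem aff (N : VonNeumannAlgebra K) (Ω : K) (hN : IsTV N.toStarSubalgebra Ω) (A : K →L[ℂ] K)
    (hA : A ∈ N) (hAi : ∀ ξ, A ξ = 0 → ξ = 0) (B : K →L[ℂ] K) (hB : B ∈ N.commutant)
    (hBi : ∀ ξ, B ξ = 0 → ξ = 0) (β c : K) (h : A c = B β) :
    ∃ η : Submodule ℂ (K × K), Affil N η ∧ ∀ T ∈ N, ∀ k : K, B k = T c →
      closure {p : K × K | ∃ q ∈ η, p = (q.1, T q.2)} = (opOf N Ω k : Set (K × K)) := by
  have hST : IsST N Ω := (isST_of N Ω hN).1
  have hop := opOf_affil N Ω hN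
  have hd := dense_comm N Ω hN B hB hBi
  set S : Set (K × K) := {p : K × K | ∃ u ∈ N.commutant, p = (u (B Ω), u c)} with hS
  set η : Submodule ℂ (K × K) := (opOf N Ω β).comap (affMap 1 A) with hη
  set η₀ : Submodule ℂ (K × K) := (Submodule.span ℂ S).topologicalClosure with hη₀
  have hmem : ∀ k : K, ∀ u ∈ N.commutant, ((u Ω, u k) : K × K) ∈ opOf N Ω k := by
    intro k u hu
    apply Submodule.le_topologicalClosure
    exact Submodule.subset_span ⟨u, hu, rfl⟩
  have hηm : ∀ p : K × K, p ∈ η ↔ ((p.1, A p.2) : K × K) ∈ opOf N Ω β := fun p => Iff.rfl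
  have hAff : Affil N η := by
    refine ⟨?_, ?_, ?_, ?_⟩
    · exact (hop β).closed.preimage (affMap_cont 1 A)
    · intro u hu p hp
      rw [hηm] at hp ⊢
      have h1 := (hop β).inv u hu _ hp
      simpa [aff_comm N A u hA hu] using h1
    · refine hd.mono ?_
      rintro ζ ⟨u, hu, rfl⟩
      refine ⟨u c, ?_⟩
      rw [hηm]
      have h1 := hmem β (u * B) (mul_mem hu hB)
      simpa [aff_comm N A u hA hu, h] using h1
    · intro ω hω
      rw [hηm] at hω
      exact hAi ω ((hop β).sv _ hω)
  have hη0c : IsClosed (η₀ : Set (K × K)) := Submodule.isClosed_topologicalClosure _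
  have hη0i : Inv N η₀ := by
    intro u hu p hp
    refine aff_le S η₀ hη0c u u ?_ p hp
    rintro q ⟨w, hw, rfl⟩
    apply Submodule.le_topologicalClosure
    exact Submodule.subset_span ⟨u * w, mul_mem hu hw, rfl⟩
  have hη0le : η₀ ≤ η := by
    apply Submodule.topologicalClosure_minimal
    · rw [Submodule.span_le]
      rintro q ⟨u, hu, rfl⟩
      show ((u (B Ω), u c) : K × K) ∈ η
      rw [hηm]
      have h1 := hmem β (u * B) (mul_mem hu hB)
      simpa [aff_comm N A u hA hu, h] using h1
    · exact hAff.closed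
  have hη0d : Dense {ζ : K | ∃ ω, ((ζ, ω) : K × K) ∈ η₀} := by
    refine hd.mono ?_
    rintro ζ ⟨u, hu, rfl⟩
    exact ⟨u c, Submodule.le_topologicalClosure _ (Submodule.subset_span ⟨u, hu, rfl⟩)⟩
  have hηeq : η₀ = η :=
    trace_lemma N Ω hST η₀ η hη0c hAff.closed hη0i hAff.inv hη0le hη0d hAff.sv
  refine ⟨η, hAff, ?_⟩
  intro T hT k hk
  have hset : {p : K × K | ∃ q ∈ η, p = (q.1, T q.2)} = (η.map (affMap 1 T) : Set (K × K)) := by
    ext p
    constructor
    · rintro ⟨q, hq, rfl⟩
      exact ⟨q, hq, rfl⟩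
    · rintro ⟨q, hq, rfl⟩
      exact ⟨q, hq, rfl⟩
  have hcl : closure {p : K × K | ∃ q ∈ η, p = (q.1, T q.2)}
      = ((η.map (affMap 1 T)).topologicalClosure : Set (K × K)) := by
    rw [hset]; rfl
  rw [hcl]
  congr 1
  have hle : ∀ q ∈ η, ((q.1, T q.2) : K × K) ∈ opOf N Ω k := by
    intro q hq
    rw [← hηeq] at hq
    refine aff_le S _ (hop k).closed 1 T ?_ q hq
    rintro p ⟨u, hu, rfl⟩
    have h1 := hmem k (u * B) (mul_mem hu hB)
    simpa [aff_comm N T u hT hu, hk] using h1
  apply trace_lemma N Ω hST _ _ (Submodule.isClosed_topologicalClosure _) (hop k).closed ?_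
    (hop k).inv ?_ ?_ (hop k).sv
  · intro u hu p hp
    have h1 : (η.map (affMap 1 T)).topologicalClosure ≤
        ((η.map (affMap 1 T)).topologicalClosure).comap (affMap u u) := by
      apply Submodule.topologicalClosure_minimal
      · rintro _ ⟨q, hq, rfl⟩
        apply Submodule.le_topologicalClosure
        refine ⟨(u q.1, u q.2), hAff.inv u hu q hq, ?_⟩
        simp [affMap_apply, aff_comm N T u hT hu]
      · exact (Submodule.isClosed_topologicalClosure _).preimage (affMap_cont u u)
    exact h1 hp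
  · apply Submodule.topologicalClosure_minimal
    · rintro _ ⟨q, hq, rfl⟩
      exact hle q hq
    · exact (hop k).closed
  · refine hAff.dense.mono ?_
    rintro ζ ⟨ω, hω⟩
    exact ⟨T ω, Submodule.le_topologicalClosure _ ⟨(ζ, ω), hω, rfl⟩⟩

end

end Pool.H62.UC
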