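import Pool.Agent.H62.UC.Bas

/-!
# EXT: the boundedly closed extension of a closable derivation

`Gmax = {(z, ξ) : z ∈ M, (z Ω, ξ) ∈ closure {(x Ω, d x) : x ∈ D}}` is a submodule, single valued by
closability, boundedly closed (`Std.ball_closed`).  Let `Gr` be the intersection of all submodules
`G' ≤ Gmax` which contain the graph of `d` and are boundedly closed (field `closed` of `BClosed`).
Then `Gr` is boundedly closed.  Leibniz: write `p · q = (p.1 q.1, l p.1 q.2 + r q.1 p.2)`.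
For `p` in the graph of `d` the set `{q ∈ Gmax : p · q ∈ Gr}` is one of the `G'` (closedness:
if `q_k → q` with `‖q_k.1‖ ≤ C` then `p · q_k → p · q` boundedly, by `Std.r_tendsto`),
hence contains `Gr`; then for `q ∈ Gr` the set `{p ∈ Gmax : p · q ∈ Gr}` is one of the `G'`.
-/

namespace Pool.H62.UC

open scoped InnerProductSpace TensorProduct ComplexConjugate
open Filter Topology

noncomputable section

variable {H : Type*} [NormedAddCommGroup H] [InnerProductSpace ℂ H] [CompleteSpace H]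
variable {K : Type*} [NormedAddCommGroup K] [InnerProductSpace ℂ K] [CompleteSpace K]

/-- The graph of `d : D → K` as a subset of `H × K`. -/
def dGraph (S : Std H K) (D : StarSubalgebra ℂ (H →L[ℂ] H)) (d : D →ₗ[ℂ] K) : Set (H × K) :=
  {q | ∃ x : D, q = ((x : H →L[ℂ] H) S.Ω, d x)}

/-- the product of two pairs -/
def extMul (S : Std H K) (p q : (H →L[ℂ] H) × K) : (H →L[ℂ] H) × K :=
  (p.1 * q.1, S.l p.1 q.2 + S.r q.1 p.2)

/-- boundedly closed sets of pairs -/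
def ExtBC (S : Std H K) (A : Submodule ℂ ((H →L[ℂ] H) × K)) : Prop :=
  ∀ C : ℝ, IsClosed {q : H × K | ∃ p ∈ A, ‖p.1‖ ≤ C ∧ q = (p.1 S.Ω, p.2)}

theorem ext_uniq (S : Std H K) {p q : (H →L[ℂ] H) × K} (hp : p.1 ∈ S.M) (hq : q.1 ∈ S.M)
    (h : ((p.1 S.Ω, p.2) : H × K) = (q.1 S.Ω, q.2)) : p = q := by
  obtain ⟨h1, h2⟩ := Prod.mk.inj h
  have h3 : p.1 - q.1 = 0 := by
    refine S.sep (sub_mem hp hq) ?_
    rw [sub_apply, h1, sub_self]
  exact Prod.ext (sub_eq_zero.1 h3) h2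

/-- the maximal extension -/
def extMax (S : Std H K) (Gs : Submodule ℂ (H × K)) : Submodule ℂ ((H →L[ℂ] H) × K) where
  carrier := {p | p.1 ∈ S.M ∧ (p.1 S.Ω, p.2) ∈ Gs.topologicalClosure}
  add_mem' {p q} hp hq := by
    refine ⟨add_mem hp.1 hq.1, ?_⟩
    have h := Gs.topologicalClosure.add_mem hp.2 hq.2
    simpa using h
  zero_mem' := by
    refine ⟨zero_mem S.M, ?_⟩
    have h := Gs.topologicalClosure.zero_mem
    exact h
  smul_mem' c p hp := by
    refine ⟨S.smul_mem c hp.1, ?_⟩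
    have h := Gs.topologicalClosure.smul_mem c hp.2
    simpa using h

theorem mem_extMax (S : Std H K) (Gs : Submodule ℂ (H × K)) (p : (H →L[ℂ] H) × K) :
    p ∈ extMax S Gs ↔ p.1 ∈ S.M ∧ (p.1 S.Ω, p.2) ∈ Gs.topologicalClosure := Iff.rfl

theorem extMax_bc (S : Std H K) (Gs : Submodule ℂ (H × K)) : ExtBC S (extMax S Gs) := by
  intro C
  have h1 : {q : H × K | ∃ p ∈ extMax S Gs, ‖p.1‖ ≤ C ∧ q = (p.1 S.Ω, p.2)} =
      (Prod.fst ⁻¹' {ξ : H | ∃ x ∈ S.M, ‖x‖ ≤ C ∧ x S.Ω = ξ}) ∩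
        (Gs.topologicalClosure : Set (H × K)) := by
    ext q
    constructor
    · rintro ⟨p, hp, hC, rfl⟩
      exact ⟨⟨p.1, hp.1, hC, rfl⟩, hp.2⟩
    · rintro ⟨⟨x, hx, hC, hxq⟩, h2⟩
      have hq : q = (x S.Ω, q.2) := Prod.ext hxq.symm rfl
      refine ⟨(x, q.2), ⟨hx, ?_⟩, hC, hq⟩
      rw [SetLike.mem_coe, hq] at h2
      exact h2
  rw [h1]
  exact ((S.ball_closed C).preimage continuous_fst).inter Gs.isClosed_topologicalClosure

/-- sequential criterion -/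
theorem ext_seq (S : Std H K) (Gs : Submodule ℂ (H × K))
    (A : Submodule ℂ ((H →L[ℂ] H) × K)) (hA : A ≤ extMax S Gs)
    (h : ∀ (C : ℝ) (u : ℕ → (H →L[ℂ] H) × K) (q : (H →L[ℂ] H) × K), (∀ k, u k ∈ A) →
      (∀ k, ‖(u k).1‖ ≤ C) → q ∈ extMax S Gs →
      Tendsto (fun k => (u k).1 S.Ω) atTop (𝓝 (q.1 S.Ω)) →
      Tendsto (fun k => (u k).2) atTop (𝓝 q.2) → q ∈ A) : ExtBC S A := by
  intro C
  apply IsSeqClosed.isClosed
  intro v q hv hq
  choose u hu1 hu2 hu3 using hv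
  have h1 : q ∈ {q : H × K | ∃ p ∈ extMax S Gs, ‖p.1‖ ≤ C ∧ q = (p.1 S.Ω, p.2)} :=
    (extMax_bc S Gs C).isSeqClosed (fun k => ⟨u k, hA (hu1 k), hu2 k, hu3 k⟩) hq
  obtain ⟨p, hp, hpC, rfl⟩ := h1
  refine ⟨p, h C u p hu1 hu2 hp ?_ ?_, hpC, rfl⟩
  · have h2 := (continuous_fst.tendsto _).comp hq
    refine h2.congr fun k => ?_
    simp [hu3 k]
  · have h2 := (continuous_snd.tendsto _).comp hq
    refine h2.congr fun k => ?_
    simp [hu3 k]

/-- a boundedly closed submodule contains the bounded limits of its sequences -/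
theorem ext_lim (S : Std H K) (Gs : Submodule ℂ (H × K))
    {A : Submodule ℂ ((H →L[ℂ] H) × K)} (hA : A ≤ extMax S Gs) (hbc : ExtBC S A)
    {C : ℝ} {u : ℕ → (H →L[ℂ] H) × K} {q : (H →L[ℂ] H) × K} (hu : ∀ k, u k ∈ A)
    (hC : ∀ k, ‖(u k).1‖ ≤ C) (hq : q.1 ∈ S.M)
    (h1 : Tendsto (fun k => (u k).1 S.Ω) atTop (𝓝 (q.1 S.Ω)))
    (h2 : Tendsto (fun k => (u k).2) atTop (𝓝 q.2)) : q ∈ A := by
  have h3 : Tendsto (fun k => (((u k).1 S.Ω, (u k).2) : H × K)) atTop (𝓝 (q.1 S.Ω, q.2)) :=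
    h1.prodMk_nhds h2
  have h4 : ((q.1 S.Ω, q.2) : H × K) ∈
      {q : H × K | ∃ p ∈ A, ‖p.1‖ ≤ C ∧ q = (p.1 S.Ω, p.2)} :=
    (hbc C).isSeqClosed (fun k => ⟨u k, hu k, hC k, rfl⟩) h3
  obtain ⟨p, hp, _, hpq⟩ := h4
  have h5 : q = p := ext_uniq S hq (hA hp).1 hpq
  rw [h5]
  exact hp

/-- elements of `extMax` whose left multiple by `p` is in `B` -/
def extL (S : Std H K) (Gs : Submodule ℂ (H × K)) (B : Submodule ℂ ((H →L[ℂ] H) × K))
    (p : (H →L[ℂ] H) × K) : Submodule ℂ ((H →L[ℂ] H) × K) where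
  carrier := {q | q ∈ extMax S Gs ∧ extMul S p q ∈ B}
  add_mem' {q q'} hq hq' := by
    refine ⟨add_mem hq.1 hq'.1, ?_⟩
    have h1 : extMul S p (q + q') = extMul S p q + extMul S p q' := by
      unfold extMul
      refine Prod.ext ?_ ?_
      · simp [mul_add]
      · simp only [Prod.fst_add, Prod.snd_add, map_add]
        rw [S.r_add hq.1.1 hq'.1.1, add_apply]
        abel
    rw [h1]
    exact add_mem hq.2 hq'.2
  zero_mem' := by
    refine ⟨zero_mem _, ?_⟩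
    have h1 : extMul S p 0 = 0 := by
      unfold extMul
      refine Prod.ext ?_ ?_
      · simp
      · simp only [Prod.fst_zero, Prod.snd_zero, map_zero]
        have h2 := S.r_smul 0 (zero_mem S.M)
        rw [zero_smul, zero_smul] at h2
        rw [h2]
        simp
    rw [h1]
    exact zero_mem _
  smul_mem' c q hq := by
    refine ⟨Submodule.smul_mem _ c hq.1, ?_⟩
    have h1 : extMul S p (c • q) = c • extMul S p q := by
      unfold extMul
      refine Prod.ext ?_ ?_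
      · simp
      · simp only [Prod.smul_fst, Prod.smul_snd, map_smul, smul_add]
        rw [S.r_smul c hq.1.1, smul_apply]
    rw [h1]
    exact Submodule.smul_mem _ c hq.2

/-- elements of `extMax` whose right multiple by `q` is in `B` -/
def extR (S : Std H K) (Gs : Submodule ℂ (H × K)) (B : Submodule ℂ ((H →L[ℂ] H) × K))
    (q : (H →L[ℂ] H) × K) : Submodule ℂ ((H →L[ℂ] H) × K) where
  carrier := {p | p ∈ extMax S Gs ∧ extMul S p q ∈ B}
  add_mem' {p p'} hp hp' := by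
    refine ⟨add_mem hp.1 hp'.1, ?_⟩
    have h1 : extMul S (p + p') q = extMul S p q + extMul S p' q := by
      unfold extMul
      refine Prod.ext ?_ ?_
      · simp [add_mul]
      · simp only [Prod.fst_add, Prod.snd_add, map_add]
        rw [S.l_add, add_apply]
        abel
    rw [h1]
    exact add_mem hp.2 hp'.2
  zero_mem' := by
    refine ⟨zero_mem _, ?_⟩
    have h1 : extMul S 0 q = 0 := by
      unfold extMul
      refine Prod.ext ?_ ?_
      · simp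
      · simp only [Prod.fst_zero, Prod.snd_zero, map_zero]
        have h2 := S.l_smul 0 0
        rw [zero_smul, zero_smul] at h2
        rw [h2]
        simp
    rw [h1]
    exact zero_mem _
  smul_mem' c p hp := by
    refine ⟨Submodule.smul_mem _ c hp.1, ?_⟩
    have h1 : extMul S (c • p) q = c • extMul S p q := by
      unfold extMul
      refine Prod.ext ?_ ?_
      · simp
      · simp only [Prod.smul_fst, Prod.smul_snd, map_smul, smul_add]
        rw [S.l_smul c, smul_apply]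
    rw [h1]
    exact Submodule.smul_mem _ c hp.2

theorem ext_exists (S : Std H K) (D : StarSubalgebra ℂ (H →L[ℂ] H)) (hD : ∀ x ∈ D, x ∈ S.M)
    (d : D →ₗ[ℂ] K)
    (leib : ∀ x y : D, d (x * y) = S.l (x : H →L[ℂ] H) (d y) + S.r (y : H →L[ℂ] H) (d x))
    (closable : ∀ ξ : K, ((0 : H), ξ) ∈ closure (dGraph S D d) → ξ = 0) :
    ∃ Gr : Submodule ℂ ((H →L[ℂ] H) × K), BClosed S Gr ∧
      (∀ x : D, ((x : H →L[ℂ] H), d x) ∈ Gr) ∧
      (∀ p ∈ Gr, (p.1 S.Ω, p.2) ∈ closure (dGraph S D d)) := by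
  obtain ⟨Gs, hGs⟩ : ∃ Gs : Submodule ℂ (H × K), (Gs : Set (H × K)) = dGraph S D d := by
    refine ⟨⟨⟨⟨dGraph S D d, ?_⟩, ?_⟩, ?_⟩, rfl⟩
    · rintro a b ⟨x, rfl⟩ ⟨y, rfl⟩
      exact ⟨x + y, by simp⟩
    · exact ⟨0, by simp; rfl⟩
    · rintro c a ⟨x, rfl⟩
      exact ⟨c • x, by simp⟩
  have hcl : ∀ q : H × K, q ∈ Gs.topologicalClosure ↔ q ∈ closure (dGraph S D d) := by
    intro q
    rw [← hGs]
    exact Iff.rfl
  obtain ⟨Fam, hFam⟩ : ∃ Fam : Set (Submodule ℂ ((H →L[ℂ] H) × K)), Fam =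
      {A | A ≤ extMax S Gs ∧ (∀ x : D, ((x : H →L[ℂ] H), d x) ∈ A) ∧ ExtBC S A} := ⟨_, rfl⟩
  have hmemF : ∀ A, A ∈ Fam ↔ (A ≤ extMax S Gs ∧ (∀ x : D, ((x : H →L[ℂ] H), d x) ∈ A) ∧
      ExtBC S A) := by
    intro A; rw [hFam]; exact Iff.rfl
  have hgmax : ∀ x : D, ((x : H →L[ℂ] H), d x) ∈ extMax S Gs := by
    intro x
    refine ⟨hD x x.2, ?_⟩
    rw [hcl]
    exact subset_closure ⟨x, rfl⟩
  have hmaxF : extMax S Gs ∈ Fam := (hmemF _).2 ⟨le_rfl, hgmax, extMax_bc S Gs⟩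
  obtain ⟨Gr, hGr⟩ : ∃ Gr, Gr = sInf Fam := ⟨_, rfl⟩
  have hmem : ∀ p, p ∈ Gr ↔ ∀ A ∈ Fam, p ∈ A := by
    intro p; rw [hGr, Submodule.mem_sInf]
  have hle : ∀ A ∈ Fam, Gr ≤ A := fun A hA p hp => (hmem p).1 hp A hA
  have hGmax : Gr ≤ extMax S Gs := hle _ hmaxF
  have hgraph : ∀ x : D, ((x : H →L[ℂ] H), d x) ∈ Gr := by
    intro x
    rw [hmem]
    exact fun A hA => ((hmemF A).1 hA).2.1 x
  have hbc : ExtBC S Gr := by
    apply ext_seq S Gs Gr hGmax
    intro C u q hu hC hq h1 h2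
    rw [hmem]
    intro A hA
    obtain ⟨hA1, _, hA3⟩ := (hmemF A).1 hA
    exact ext_lim S Gs hA1 hA3 (fun k => hle A hA (hu k)) hC hq.1 h1 h2
  have hM : ∀ p ∈ Gr, p.1 ∈ S.M := fun p hp => (hGmax hp).1
  -- first step
  have hstep1 : ∀ x : D, Gr ≤ extL S Gs Gr ((x : H →L[ℂ] H), d x) := by
    intro x
    apply hle
    rw [hmemF]
    refine ⟨fun q hq => hq.1, ?_, ?_⟩
    · intro y
      refine ⟨hgmax y, ?_⟩
      have h1 : extMul S ((x : H →L[ℂ] H), d x) ((y : H →L[ℂ] H), d y) =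
          (((x * y : D) : H →L[ℂ] H), d (x * y)) := by
        unfold extMul
        rw [leib]
        rfl
      rw [h1]
      exact hgraph _
    · refine ext_seq S Gs (extL S Gs Gr ((x : H →L[ℂ] H), d x)) (fun q hq => hq.1) ?_
      intro C u q hu hC hq h1 h2
      refine ⟨hq, ?_⟩
      refine ext_lim S Gs hGmax hbc (C := ‖(x : H →L[ℂ] H)‖ * C) (fun k => (hu k).2) ?_
        (mul_mem (hD x x.2) hq.1) ?_ ?_
      · intro k
        exact (norm_mul_le _ _).trans (mul_le_mul_of_nonneg_left (hC k) (norm_nonneg _))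
      · have h3 := ((x : H →L[ℂ] H).continuous.tendsto (q.1 S.Ω)).comp h1
        exact h3
      · have h3 : Tendsto (fun k => S.l (x : H →L[ℂ] H) (u k).2) atTop
            (𝓝 (S.l (x : H →L[ℂ] H) q.2)) :=
          ((S.l (x : H →L[ℂ] H)).continuous.tendsto q.2).comp h2
        have h4 := S.r_tendsto (fun k => (hu k).1.1) hq.1 hC h1 (d x)
        exact h3.add h4
  have hstep2 : ∀ q ∈ Gr, Gr ≤ extR S Gs Gr q := by
    intro q hq
    apply hle
    rw [hmemF]
    refine ⟨fun p hp => hp.1, ?_, ?_⟩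
    · intro x
      exact ⟨hgmax x, (hstep1 x hq).2⟩
    · refine ext_seq S Gs (extR S Gs Gr q) (fun p hp => hp.1) ?_
      intro C u p hu hC hp h1 h2
      refine ⟨hp, ?_⟩
      refine ext_lim S Gs hGmax hbc (C := C * ‖q.1‖) (fun k => (hu k).2) ?_
        (mul_mem hp.1 (hM q hq)) ?_ ?_
      · intro k
        exact (norm_mul_le _ _).trans (mul_le_mul_of_nonneg_right (hC k) (norm_nonneg _))
      · have h3 := ((S.ρ q.1).continuous.tendsto (p.1 S.Ω)).comp h1
        change Tendsto (fun k => ((u k).1 * q.1) S.Ω) atTop (𝓝 ((p.1 * q.1) S.Ω))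
        rw [← S.ρ_apply p.1 hp.1 q.1 (hM q hq)]
        refine h3.congr fun k => ?_
        exact S.ρ_apply (u k).1 (hu k).1.1 q.1 (hM q hq)
      · have h3 : Tendsto (fun k => S.r q.1 (u k).2) atTop (𝓝 (S.r q.1 p.2)) :=
          ((S.r q.1).continuous.tendsto p.2).comp h2
        have h4 := S.l_tendsto (fun k => (hu k).1.1) hp.1 hC h1 q.2
        exact h4.add h3
  refine ⟨Gr, ⟨hM, ?_, ?_, hbc⟩, hgraph, ?_⟩
  · intro p hp q hq
    exact (hstep2 q hq hp).2
  · intro ξ hξ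
    apply closable ξ
    have h1 := (hGmax hξ).2
    rw [hcl] at h1
    simpa using h1
  · intro p hp
    exact (hcl _).1 (hGmax hp).2

end

end Pool.H62.UC
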