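import Pool.Agent.H62.UC.OreA

/-!
# OREB (`ore_right`, `ore_left`): closed invariant subspaces of `H × H`, Ore condition, trace lemma

`G : Submodule ℂ (H × H)` closed and invariant under `u ⊕ u`, `u ∈ N'`. Let `P` be the orthogonal
projection of the Hilbert space `WithLp 2 (H × H)` on `G`; its four blocks commute with `N'`, hence
are in `N`.
-/

namespace Pool.H62.UC

open scoped InnerProductSpace TensorProduct ComplexConjugate
open Filter Topology ContinuousLinearMap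

noncomputable section


variable {H : Type*} [NormedAddCommGroup H] [InnerProductSpace ℂ H] [CompleteSpace H]

/-- right Ore condition in `N` -/
theorem ore_right (N : VonNeumannAlgebra H) (Ω : H) (hN : IsST N Ω) (A X : H →L[ℂ] H)
    (hA : A ∈ N) (hX : X ∈ N) (hinj : ∀ ξ, A ξ = 0 → ξ = 0) :
    ∃ P ∈ N, ∃ Q ∈ N, (∀ ζ, P ζ = 0 → ζ = 0) ∧ X * P = A * Q := by
  let G : Submodule ℂ (H × H) :=
    LinearMap.ker (X.toLinearMap ∘ₗ LinearMap.fst ℂ H H - A.toLinearMap ∘ₗ LinearMap.snd ℂ H H)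
  have hmem : ∀ p : H × H, p ∈ G ↔ X p.1 = A p.2 := by
    intro p
    rw [LinearMap.mem_ker]
    exact sub_eq_zero
  have hcomm : ∀ T ∈ N, ∀ u ∈ N.commutant, ∀ ξ, T (u ξ) = u (T ξ) := by
    intro T hT u hu ξ
    have h1 := VonNeumannAlgebra.mem_commutant_iff.1 hu T hT
    have h2 := congrArg (fun Z : H →L[ℂ] H => Z ξ) h1
    simpa using h2
  have hG : IsClosed (G : Set (H × H)) := by
    have hset : (G : Set (H × H)) = {p : H × H | X p.1 = A p.2} := by
      ext p; exact hmem p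
    rw [hset]
    exact isClosed_eq (X.continuous.comp continuous_fst) (A.continuous.comp continuous_snd)
  have hinv : Inv N G := by
    intro u hu p hp
    rw [hmem] at hp ⊢
    show X (u p.1) = A (u p.2)
    rw [hcomm X hX u hu, hcomm A hA u hu, hp]
  have hd : Dense {ζ : H | ∃ ω, (ζ, ω) ∈ G} := by
    have hset : {ζ : H | ∃ ω, (ζ, ω) ∈ G} = {ζ : H | ∃ ω, X ζ = A ω} := by
      ext ζ
      constructor
      · rintro ⟨ω, hω⟩
        exact ⟨ω, (hmem _).1 hω⟩
      · rintro ⟨ω, hω⟩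
        exact ⟨ω, (hmem _).2 hω⟩
    rw [hset]
    exact dense_dom N Ω hN A X hA hX hinj
  obtain ⟨P, hP, Q, hQ, hPi, hPQ⟩ := exists_pair N G hG hinv hd
  refine ⟨P, hP, Q, hQ, hPi, ?_⟩
  ext ζ
  exact (hmem _).1 (hPQ ζ)

/-- left Ore condition in `N` -/
theorem ore_left (N : VonNeumannAlgebra H) (Ω : H) (hN : IsST N Ω) (A X : H →L[ℂ] H)
    (hA : A ∈ N) (hX : X ∈ N) (hinj : ∀ ξ, A ξ = 0 → ξ = 0) :
    ∃ P ∈ N, ∃ Q ∈ N, (∀ ζ, P ζ = 0 → ζ = 0) ∧ P * X = Q * A := by
  obtain ⟨P, hP, Q, hQ, hPi, hPQ⟩ := ore_right N Ω hN (star A) (star X) (star_mem hA)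
    (star_mem hX) (inj_star N Ω hN A hA hinj)
  refine ⟨star P, star_mem hP, star Q, star_mem hQ, inj_star N Ω hN P hP hPi, ?_⟩
  have h := congrArg star hPQ
  simpa [star_mul, star_star] using h

end

end Pool.H62.UC
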