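import Pool.Agent.H62.UC.Bas

/-!
# JUNCA: words
-/

namespace Pool.H62.UC

open scoped InnerProductSpace TensorProduct ComplexConjugate
open Filter Topology

noncomputable section


variable {H : Type*} [NormedAddCommGroup H] [InnerProductSpace ℂ H] [CompleteSpace H]
variable {K : Type*} [NormedAddCommGroup K] [InnerProductSpace ℂ K] [CompleteSpace K]

/-- the product of the letters of a word -/
def gword (u v : ℕ → H →L[ℂ] H) : List ((ℕ × ℕ) × ℕ) → (H →L[ℂ] H)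
  | [] => 1
  | i :: w => v i.1.1 * u i.2 * gword u v w

/-- the left element of a junction -/
def gL (u v : ℕ → H →L[ℂ] H) (c : List ((ℕ × ℕ) × ℕ) × (ℕ × ℕ)) : H →L[ℂ] H :=
  gword u v c.1 * v c.2.1

/-- its ghost -/
def gL' (u v : ℕ → H →L[ℂ] H) (c : List ((ℕ × ℕ) × ℕ) × (ℕ × ℕ)) : H →L[ℂ] H :=
  gword u v c.1 * v c.2.2

/-- the left multiplier of a junction, for any map `Y` (used with values in operators and in `K`) -/
def qL {A : Type*} [AddCommGroup A] (u v : ℕ → H →L[ℂ] H) (Y : (H →L[ℂ] H) → A)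
    (c : List ((ℕ × ℕ) × ℕ) × (ℕ × ℕ)) : A := Y (star (gL u v c)) - Y (star (gL' u v c))

/-- the right multiplier -/
def qR {A : Type*} (u v : ℕ → H →L[ℂ] H) (Y : (H →L[ℂ] H) → A)
    (R : List ((ℕ × ℕ) × ℕ)) : A := Y (star (gword u v R))

/-- unitaries of `M` -/
def UM (S : Std H K) : Set (H →L[ℂ] H) := {g | g ∈ S.M ∧ g ∈ unitary (H →L[ℂ] H)}

theorem UM_one (S : Std H K) : (1 : H →L[ℂ] H) ∈ UM S :=
  ⟨S.one_mem, one_mem _⟩

theorem UM_mul (S : Std H K) {x y : H →L[ℂ] H} (hx : x ∈ UM S) (hy : y ∈ UM S) :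
    x * y ∈ UM S :=
  ⟨mul_mem hx.1 hy.1, mul_mem hx.2 hy.2⟩

theorem UM_star (S : Std H K) {x : H →L[ℂ] H} (hx : x ∈ UM S) : star x ∈ UM S :=
  ⟨star_mem hx.1, Unitary.star_mem hx.2⟩

theorem UM_norm (S : Std H K) {x : H →L[ℂ] H} (hx : x ∈ UM S) : ‖x‖ ≤ 1 := by
  refine ContinuousLinearMap.opNorm_le_bound _ zero_le_one (fun ξ => ?_)
  rw [one_mul]
  exact (ContinuousLinearMap.norm_map_of_mem_unitary hx.2 ξ).le

theorem gword_mem (S : Std H K) (u v : ℕ → H →L[ℂ] H) (hu : ∀ l, u l ∈ UM S)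
    (hv : ∀ n, v n ∈ UM S) (w : List ((ℕ × ℕ) × ℕ)) : gword u v w ∈ UM S := by
  induction w with
  | nil => exact UM_one S
  | cons i w ih => exact UM_mul S (UM_mul S (hv _) (hu _)) ih

theorem gword_append (u v : ℕ → H →L[ℂ] H) (L : List ((ℕ × ℕ) × ℕ)) (i : (ℕ × ℕ) × ℕ)
    (R : List ((ℕ × ℕ) × ℕ)) :
    gword u v (L ++ i :: R) = gword u v L * v i.1.1 * u i.2 * gword u v R := by
  induction L with
  | nil =>
    change v i.1.1 * u i.2 * gword u v R = 1 * v i.1.1 * u i.2 * gword u v R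
    rw [one_mul]
  | cons j L ih =>
    change v j.1.1 * u j.2 * gword u v (L ++ i :: R) =
      v j.1.1 * u j.2 * gword u v L * v i.1.1 * u i.2 * gword u v R
    rw [ih]
    simp only [mul_assoc]

end

end Pool.H62.UC
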