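import Pool.Agent.H62.UC.Defs

/-!
# JOP: the conjugation of a cyclic trace vector

`A` a unital star algebra with cyclic trace vector `Ω`.  `x Ω ↦ x* Ω` (`x ∈ A`) is isometric and
conjugate linear, and extends to an involutive conjugate linear isometry `J` with
`⟪J ζ, J ω⟫ = ⟪ω, ζ⟫`.  For `m ∈ A` put `ρ m = J m* J`: `ρ m (x Ω) = x m Ω`, `ρ m ∈ A'`.
* commutant: for `n' ∈ A'`, `m ∈ A`:
  `⟪n'* Ω, m Ω⟫ = ⟪Ω, n' m Ω⟫ = ⟪m* Ω, n' Ω⟫ = ⟪J (m Ω), n' Ω⟫ = ⟪J (n' Ω), m Ω⟫`, so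
  `J (n' Ω) = n'* Ω`.
* double commutant: for `n ∈ A''`, `m ∈ A`:
  `⟪n* Ω, m Ω⟫ = ⟪Ω, n ρ(m) Ω⟫ = ⟪Ω, ρ(m) n Ω⟫ = ⟪ρ(m*) Ω, n Ω⟫ = ⟪m* Ω, n Ω⟫ = ⟪J (n Ω), m Ω⟫`.
* so `Ω` is a trace vector for `A''` and for `A'`: `⟪Ω, x y Ω⟫ = ⟪x* Ω, y Ω⟫ = ⟪J (xΩ), y Ω⟫ =
  ⟪J (y Ω), x Ω⟫ = ⟪y* Ω, x Ω⟫ = ⟪Ω, y x Ω⟫`.
* `J` maps `A''` to `A'`: for `n ∈ A''`, `J n J` commutes with `A''`: on `x Ω`, `x ∈ A`,
  `J n J x Ω = J n x* Ω = x n* Ω`.
-/

namespace Pool.H62.UC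

open scoped InnerProductSpace TensorProduct ComplexConjugate
open Filter Topology

noncomputable section

variable {H : Type*} [NormedAddCommGroup H] [InnerProductSpace ℂ H] [CompleteSpace H]


theorem jop_inner_left (x : H →L[ℂ] H) (ζ ω : H) : ⟪x ζ, ω⟫_ℂ = ⟪ζ, (star x) ω⟫_ℂ := by
  rw [ContinuousLinearMap.star_eq_adjoint, ContinuousLinearMap.adjoint_inner_right]

theorem jop_inner_right (x : H →L[ℂ] H) (ζ ω : H) : ⟪ζ, x ω⟫_ℂ = ⟪(star x) ζ, ω⟫_ℂ := by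
  rw [ContinuousLinearMap.star_eq_adjoint, ContinuousLinearMap.adjoint_inner_left]

theorem jop_norm_star (A : StarSubalgebra ℂ (H →L[ℂ] H)) (Ω : H) (hA : IsTV A Ω)
    (x : H →L[ℂ] H) (hx : x ∈ A) : ‖(star x) Ω‖ = ‖x Ω‖ := by
  have h : ⟪(star x) Ω, (star x) Ω⟫_ℂ = ⟪x Ω, x Ω⟫_ℂ := by
    rw [jop_inner_left, star_star, jop_inner_left x]
    exact hA.trace x hx (star x) (star_mem hx)
  rw [inner_self_eq_norm_sq_to_K, inner_self_eq_norm_sq_to_K] at h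
  have h2 : ‖(star x) Ω‖ ^ 2 = ‖x Ω‖ ^ 2 := by exact_mod_cast h
  exact (sq_eq_sq₀ (norm_nonneg _) (norm_nonneg _)).1 h2

theorem jop_J (A : StarSubalgebra ℂ (H →L[ℂ] H)) (Ω : H) (hA : IsTV A Ω) :
    ∃ J : H →SL[starRingEnd ℂ] H, ∀ x ∈ A, J (x Ω) = (star x) Ω := by
  let e : A →ₗ[ℂ] H :=
    { toFun := fun x => (x : H →L[ℂ] H) Ω
      map_add' := fun x y => by simp
      map_smul' := fun c x => by simp }
  let f : A →ₛₗ[starRingEnd ℂ] H :=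
    { toFun := fun x => (star (x : H →L[ℂ] H)) Ω
      map_add' := fun x y => by simp
      map_smul' := fun c x => by simp [star_smul] }
  have hd : DenseRange e := by
    have := hA.cyclic
    refine this.mono ?_
    rintro ξ ⟨x, hx, rfl⟩
    exact ⟨⟨x, hx⟩, rfl⟩
  refine ⟨f.extendOfNorm e, fun x hx => ?_⟩
  refine LinearMap.extendOfNorm_eq (f := f) (e := e) hd ⟨1, ?_⟩ ⟨x, hx⟩
  intro y
  rw [one_mul]
  exact (jop_norm_star A Ω hA y y.2).le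

section fix
variable (A : StarSubalgebra ℂ (H →L[ℂ] H)) (Ω : H) (hA : IsTV A Ω)
  (J : H →SL[starRingEnd ℂ] H) (hJ : ∀ x ∈ A, J (x Ω) = (star x) Ω)

include hA hJ

theorem jop_JJ (ζ : H) : J (J ζ) = ζ := by
  refine hA.cyclic.induction (P := fun ζ => J (J ζ) = ζ) ?_ ?_ ζ
  · rintro ξ ⟨x, hx, rfl⟩
    rw [hJ x hx, hJ _ (star_mem hx), star_star]
  · exact isClosed_eq (J.continuous.comp J.continuous) continuous_id

theorem jop_J_inner (ζ ω : H) : ⟪J ζ, J ω⟫_ℂ = ⟪ω, ζ⟫_ℂ := by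
  refine hA.cyclic.induction (P := fun ζ => ⟪J ζ, J ω⟫_ℂ = ⟪ω, ζ⟫_ℂ) ?_ ?_ ζ
  · rintro ξ ⟨x, hx, rfl⟩
    refine hA.cyclic.induction (P := fun ω => ⟪J (x Ω), J ω⟫_ℂ = ⟪ω, x Ω⟫_ℂ) ?_ ?_ ω
    · rintro ξ ⟨y, hy, rfl⟩
      rw [hJ x hx, hJ y hy, jop_inner_left, star_star, jop_inner_left y]
      exact hA.trace x hx (star y) (star_mem hy)
    · exact isClosed_eq (continuous_const.inner J.continuous) (continuous_id.inner continuous_const)
  · exact isClosed_eq (J.continuous.inner continuous_const) (continuous_const.inner continuous_id)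

theorem jop_J_norm (ζ : H) : ‖J ζ‖ = ‖ζ‖ := by
  have h := jop_J_inner A Ω hA J hJ ζ ζ
  rw [inner_self_eq_norm_sq_to_K, inner_self_eq_norm_sq_to_K] at h
  have h2 : ‖J ζ‖ ^ 2 = ‖ζ‖ ^ 2 := by exact_mod_cast h
  exact (sq_eq_sq₀ (norm_nonneg _) (norm_nonneg _)).1 h2

omit hJ in
/-- two vectors with the same inner products against the cyclic set agree -/
theorem jop_ext {ζ ω : H} (h : ∀ x ∈ A, ⟪ζ, x Ω⟫_ℂ = ⟪ω, x Ω⟫_ℂ) : ζ = ω := by
  refine ext_inner_right ℂ fun v => ?_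
  refine hA.cyclic.induction (P := fun v => ⟪ζ, v⟫_ℂ = ⟪ω, v⟫_ℂ) ?_ ?_ v
  · rintro ξ ⟨x, hx, rfl⟩
    exact h x hx
  · exact isClosed_eq (continuous_const.inner continuous_id) (continuous_const.inner continuous_id)

/-- `J` on the commutant -/
theorem jop_J_comm (n : H →L[ℂ] H) (hn : n ∈ Set.centralizer (A : Set (H →L[ℂ] H))) :
    J (n Ω) = (star n) Ω := by
  refine jop_ext A Ω hA fun m hm => ?_
  have h1 : n (m Ω) = m (n Ω) := by
    have := hn m hm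
    exact (DFunLike.congr_fun this Ω).symm
  have h2 := jop_J_inner A Ω hA J hJ (n Ω) ((star m) Ω)
  rw [hJ _ (star_mem hm), star_star] at h2
  rw [h2, jop_inner_left (star n), star_star, h1, jop_inner_left, star_star]

omit hA in
/-- right multiplication by `m` -/
theorem jop_rho_apply (m : H →L[ℂ] H) (hm : m ∈ A) (x : H →L[ℂ] H) (hx : x ∈ A) :
    J ((star m) (J (x Ω))) = (x * m) Ω := by
  rw [hJ x hx]
  have h1 : (star m) ((star x) Ω) = (star (x * m)) Ω := by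
    rw [star_mul]; rfl
  rw [h1, hJ _ (star_mem (mul_mem hx hm)), star_star]

theorem jop_rho (m : H →L[ℂ] H) (hm : m ∈ A) :
    ∃ r : H →L[ℂ] H, (∀ ξ, r ξ = J ((star m) (J ξ))) ∧ r ∈ Set.centralizer (A : Set (H →L[ℂ] H)) ∧
      (∀ x ∈ A, r (x Ω) = (x * m) Ω) := by
  have hr : ∀ ξ, (J.comp ((star m).comp J)) ξ = J ((star m) (J ξ)) := fun ξ => rfl
  refine ⟨J.comp ((star m).comp J), hr, ?_, ?_⟩
  · intro g hg
    ext ξ
    refine hA.cyclic.induction (P := fun ξ => (g * (J.comp ((star m).comp J))) ξ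
      = ((J.comp ((star m).comp J)) * g) ξ) ?_ ?_ ξ
    · rintro ξ ⟨x, hx, rfl⟩
      have h1 : (J.comp ((star m).comp J)) (x Ω) = (x * m) Ω := by
        rw [hr]; exact jop_rho_apply A Ω J hJ m hm x hx
      have h2 : (J.comp ((star m).comp J)) ((g * x) Ω) = (g * x * m) Ω := by
        rw [hr]; exact jop_rho_apply A Ω J hJ m hm (g * x) (mul_mem hg hx)
      change g ((J.comp ((star m).comp J)) (x Ω)) = (J.comp ((star m).comp J)) ((g * x) Ω)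
      rw [h1, h2, mul_assoc]
      rfl
    · exact isClosed_eq (ContinuousLinearMap.continuous _) (ContinuousLinearMap.continuous _)
  · intro x hx
    rw [hr]
    exact jop_rho_apply A Ω J hJ m hm x hx

theorem jop_J_dc (n : H →L[ℂ] H)
    (hn : n ∈ Set.centralizer (Set.centralizer (A : Set (H →L[ℂ] H)))) :
    J (n Ω) = (star n) Ω := by
  refine jop_ext A Ω hA fun m hm => ?_
  obtain ⟨r, hr, hrA, hrx⟩ := jop_rho A Ω hA J hJ m hm
  have hr1 : r Ω = m Ω := by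
    have := hrx 1 (one_mem A)
    simpa using this
  have hrn : r (n Ω) = n (r Ω) := DFunLike.congr_fun (hn r hrA) Ω
  have hJΩ : J Ω = Ω := by
    have := hJ 1 (one_mem A)
    simpa using this
  -- ⟪n* Ω, m Ω⟫ = ⟪Ω, n r Ω⟫ = ⟪Ω, r n Ω⟫ = ⟪Ω, J m* J n Ω⟫ = ⟪m* J n Ω, Ω⟫ = ⟪J n Ω, m Ω⟫
  have e1 : n (m Ω) = J ((star m) (J (n Ω))) := by rw [← hr1, ← hrn, hr]
  have h2 := jop_J_inner A Ω hA J hJ Ω ((star m) (J (n Ω)))
  rw [hJΩ] at h2
  rw [jop_inner_left (star n), star_star, e1, h2, jop_inner_left (star m), star_star]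

/-- the trace identity from the behaviour of `J` -/
theorem jop_trace (x y : H →L[ℂ] H) (hx : J (x Ω) = (star x) Ω) (hy : J (y Ω) = (star y) Ω) :
    ⟪Ω, (x * y) Ω⟫_ℂ = ⟪Ω, (y * x) Ω⟫_ℂ := by
  have h := jop_J_inner A Ω hA J hJ (x Ω) (J (y Ω))
  rw [jop_JJ A Ω hA J hJ, hx, hy] at h
  change ⟪Ω, x (y Ω)⟫_ℂ = ⟪Ω, y (x Ω)⟫_ℂ
  rw [jop_inner_right x, jop_inner_right y Ω]
  exact h

end fix

theorem jop_contr (y : H →L[ℂ] H) (hy : ‖y‖ ≤ 1) : ‖1 - star y * y‖ ≤ 1 := by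
  refine ContinuousLinearMap.opNorm_le_bound _ zero_le_one fun ξ => ?_
  rw [one_mul]
  have e1 : (1 - star y * y) ξ = ξ - (star y) (y ξ) := rfl
  have e2 : ‖ξ - (star y) (y ξ)‖ ^ 2
      = ‖ξ‖ ^ 2 - 2 * RCLike.re ⟪ξ, (star y) (y ξ)⟫_ℂ + ‖(star y) (y ξ)‖ ^ 2 :=
    norm_sub_sq (𝕜 := ℂ) _ _
  have e3 : RCLike.re ⟪ξ, (star y) (y ξ)⟫_ℂ = ‖y ξ‖ ^ 2 := by
    rw [← jop_inner_left, inner_self_eq_norm_sq_to_K]
    norm_cast
  have e4 : ‖(star y) (y ξ)‖ ≤ ‖y ξ‖ := by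
    refine ((star y).le_opNorm _).trans ?_
    rw [norm_star]
    exact mul_le_of_le_one_left (norm_nonneg _) hy
  have e5 : ‖(star y) (y ξ)‖ ^ 2 ≤ ‖y ξ‖ ^ 2 := by gcongr
  have e6 : ‖ξ - (star y) (y ξ)‖ ^ 2 ≤ ‖ξ‖ ^ 2 := by
    rw [e2, e3]
    nlinarith [sq_nonneg ‖y ξ‖]
  rw [e1]
  exact (sq_le_sq₀ (norm_nonneg _) (norm_nonneg _)).1 e6

theorem jop_erg (f : H →L[ℂ] H) (hf : ‖f‖ ≤ 1) : ∃ P : H →L[ℂ] H, (∀ x, f x = x → P x = x) ∧
    (∀ x, f (P x) = P x) ∧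
    ∀ x, Tendsto (fun n : ℕ => ((n : ℂ)⁻¹) • ∑ k ∈ Finset.range n, (f ^ k) x) atTop
      (𝓝 (P x)) := by
  refine ⟨(f.eqLocus (1 : H →L[ℂ] H)).subtypeL.comp
    (f.eqLocus (1 : H →L[ℂ] H)).orthogonalProjectionOnto, ?_, ?_, ?_⟩
  · intro x hx
    have hx' : x ∈ f.eqLocus (1 : H →L[ℂ] H) := hx
    have := (f.eqLocus (1 : H →L[ℂ] H)).orthogonalProjectionOnto_mem_subspace_eq_self ⟨x, hx'⟩
    exact congrArg Subtype.val this
  · intro x
    exact ((f.eqLocus (1 : H →L[ℂ] H)).orthogonalProjectionOnto x).2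
  · intro x
    have h := f.tendsto_birkhoffAverage_orthogonalProjection hf x
    refine h.congr fun n => ?_
    rw [birkhoffAverage, birkhoffSum]
    congr 1
    refine Finset.sum_congr rfl fun k _ => ?_
    rw [FunLike.coe_pow_eq_iterate]
    rfl

theorem jop_pow_trace (A : StarSubalgebra ℂ (H →L[ℂ] H)) (Ω : H) (hA : IsTV A Ω)
    (y : H →L[ℂ] H) (hy : y ∈ A) (k : ℕ) :
    ⟪Ω, ((1 - y * star y) ^ k) Ω⟫_ℂ = ⟪Ω, ((1 - star y * y) ^ k) Ω⟫_ℂ := by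
  have hsemi : SemiconjBy y (1 - star y * y) (1 - y * star y) := by
    change y * (1 - star y * y) = (1 - y * star y) * y
    noncomm_ring
  have hS : (1 - y * star y) ∈ A := sub_mem (one_mem A) (mul_mem hy (star_mem hy))
  induction k with
  | zero => simp
  | succ k ih =>
    have h1 : (1 - y * star y) ^ (k + 1)
        = (1 - y * star y) ^ k - ((1 - y * star y) ^ k * y) * star y := by
      rw [pow_succ]; noncomm_ring
    have h2 : (1 - star y * y) ^ (k + 1)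
        = (1 - star y * y) ^ k - star y * (y * (1 - star y * y) ^ k) := by
      rw [pow_succ']; noncomm_ring
    have h3 : (1 - y * star y) ^ k * y = y * (1 - star y * y) ^ k :=
      (hsemi.pow_right k).eq.symm
    have h4 := hA.trace ((1 - y * star y) ^ k * y) (mul_mem (pow_mem hS k) hy) (star y)
      (star_mem hy)
    rw [h1, h2, sub_apply, sub_apply, inner_sub_right,
      inner_sub_right, ih, h4, h3]

theorem jop_norm_avg (A : StarSubalgebra ℂ (H →L[ℂ] H)) (Ω : H) (hA : IsTV A Ω)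
    (y : H →L[ℂ] H) (hy : y ∈ A) (n : ℕ) :
    ‖∑ k ∈ Finset.range n, ((1 - y * star y) ^ k) Ω‖
      = ‖∑ k ∈ Finset.range n, ((1 - star y * y) ^ k) Ω‖ := by
  have key : ∀ S : H →L[ℂ] H, star S = S →
      ⟪∑ k ∈ Finset.range n, (S ^ k) Ω, ∑ k ∈ Finset.range n, (S ^ k) Ω⟫_ℂ
        = ∑ i ∈ Finset.range n, ∑ j ∈ Finset.range n, ⟪Ω, (S ^ (i + j)) Ω⟫_ℂ := by
    intro S hS
    rw [sum_inner]
    refine Finset.sum_congr rfl fun i _ => ?_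
    rw [inner_sum]
    refine Finset.sum_congr rfl fun j _ => ?_
    rw [jop_inner_left, star_pow, hS, pow_add]
    rfl
  have h1 := key (1 - y * star y) (by simp)
  have h2 := key (1 - star y * y) (by simp)
  have h3 : ⟪∑ k ∈ Finset.range n, ((1 - y * star y) ^ k) Ω,
      ∑ k ∈ Finset.range n, ((1 - y * star y) ^ k) Ω⟫_ℂ
      = ⟪∑ k ∈ Finset.range n, ((1 - star y * y) ^ k) Ω,
      ∑ k ∈ Finset.range n, ((1 - star y * y) ^ k) Ω⟫_ℂ := by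
    rw [h1, h2]
    refine Finset.sum_congr rfl fun i _ => Finset.sum_congr rfl fun j _ => ?_
    exact jop_pow_trace A Ω hA y hy (i + j)
  rw [inner_self_eq_norm_sq_to_K, inner_self_eq_norm_sq_to_K] at h3
  have h4 : ‖∑ k ∈ Finset.range n, ((1 - y * star y) ^ k) Ω‖ ^ 2
      = ‖∑ k ∈ Finset.range n, ((1 - star y * y) ^ k) Ω‖ ^ 2 := by exact_mod_cast h3
  exact (sq_eq_sq₀ (norm_nonneg _) (norm_nonneg _)).1 h4

/-- injectivity passes to the adjoint, contraction case -/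
theorem jop_star_inj_aux (A : StarSubalgebra ℂ (H →L[ℂ] H)) (Ω : H) (hA : IsTV A Ω)
    (y : H →L[ℂ] H) (hy : y ∈ A) (hy1 : ‖y‖ ≤ 1) (hinj : ∀ ξ, y ξ = 0 → ξ = 0) (ξ : H)
    (hξ : (star y) ξ = 0) : ξ = 0 := by
  obtain ⟨J, hJ⟩ := jop_J A Ω hA
  obtain ⟨P, hP, hPf, hPt⟩ := jop_erg (1 - star y * y) (jop_contr y hy1)
  have hc : ‖1 - y * star y‖ ≤ 1 := by
    have := jop_contr (star y) (by rw [norm_star]; exact hy1)
    rwa [star_star] at this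
  obtain ⟨Q, hQ, hQf, hQt⟩ := jop_erg (1 - y * star y) hc
  have hP0 : P Ω = 0 := by
    apply hinj
    have h1 : P Ω - (star y) (y (P Ω)) = P Ω := hPf Ω
    have h2 : (star y) (y (P Ω)) = 0 := by
      have := sub_eq_self.1 h1
      exact this
    have h3 : ⟪y (P Ω), y (P Ω)⟫_ℂ = 0 := by
      rw [jop_inner_left, h2, inner_zero_right]
    exact inner_self_eq_zero.1 h3
  have hQ0 : Q Ω = 0 := by
    have h1 := (hPt Ω).norm
    have h2 := (hQt Ω).norm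
    rw [hP0, norm_zero] at h1
    have h3 : ∀ n : ℕ, ‖((n : ℂ)⁻¹) • ∑ k ∈ Finset.range n, ((1 - star y * y) ^ k) Ω‖
        = ‖((n : ℂ)⁻¹) • ∑ k ∈ Finset.range n, ((1 - y * star y) ^ k) Ω‖ := by
      intro n
      rw [norm_smul, norm_smul, jop_norm_avg A Ω hA y hy n]
    have h4 := tendsto_nhds_unique h2 (h1.congr h3)
    exact norm_eq_zero.1 h4
  have hQm : ∀ ζ, Q ζ = 0 := by
    intro ζ
    refine hA.cyclic.induction (P := fun ζ => Q ζ = 0) ?_ ?_ ζ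
    · rintro ξ ⟨m, hm, rfl⟩
      obtain ⟨r, hr, hrA, hrx⟩ := jop_rho A Ω hA J hJ m hm
      have hr1 : r Ω = m Ω := by
        have := hrx 1 (one_mem A)
        simpa using this
      rw [← hr1]
      have hcomm : ∀ k : ℕ, ((1 - y * star y) ^ k) (r Ω) = r (((1 - y * star y) ^ k) Ω) := by
        intro k
        have hS : (1 - y * star y) ^ k ∈ A :=
          pow_mem (sub_mem (one_mem A) (mul_mem hy (star_mem hy))) k
        exact DFunLike.congr_fun (hrA _ hS) Ω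
      have h1 := (r.continuous.tendsto _).comp (hQt Ω)
      have h2 := hQt (r Ω)
      have h3 : ∀ n : ℕ, (r ∘ fun n : ℕ => ((n : ℂ)⁻¹) •
          ∑ k ∈ Finset.range n, ((1 - y * star y) ^ k) Ω) n
          = ((n : ℂ)⁻¹) • ∑ k ∈ Finset.range n, ((1 - y * star y) ^ k) (r Ω) := by
        intro n
        change r (((n : ℂ)⁻¹) • ∑ k ∈ Finset.range n, ((1 - y * star y) ^ k) Ω) = _
        rw [map_smul, map_sum]
        congr 1
        exact Finset.sum_congr rfl fun k _ => (hcomm k).symm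
      have h4 := tendsto_nhds_unique h2 (h1.congr h3)
      rw [h4, hQ0, map_zero]
    · exact isClosed_eq Q.continuous continuous_const
  have h5 : (1 - y * star y) ξ = ξ := by
    change ξ - y ((star y) ξ) = ξ
    rw [hξ, map_zero, sub_zero]
  rw [← hQ ξ h5]
  exact hQm ξ

theorem jop_star_inj (A : StarSubalgebra ℂ (H →L[ℂ] H)) (Ω : H) (hA : IsTV A Ω)
    (y : H →L[ℂ] H) (hy : y ∈ A) (hinj : ∀ ξ, y ξ = 0 → ξ = 0) (ξ : H)
    (hξ : (star y) ξ = 0) : ξ = 0 := by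
  have hpos : 0 < ‖y‖ + 1 := by positivity
  set c : ℂ := (((‖y‖ + 1)⁻¹ : ℝ) : ℂ) with hc
  have hc0 : c ≠ 0 := by
    rw [hc]
    exact_mod_cast (inv_pos.2 hpos).ne'
  have hcn : ‖c‖ = (‖y‖ + 1)⁻¹ := by
    rw [hc, Complex.norm_real, Real.norm_of_nonneg (inv_pos.2 hpos).le]
  refine jop_star_inj_aux A Ω hA (c • y) (A.smul_mem hy c) ?_ ?_ ξ ?_
  · rw [norm_smul, hcn, inv_mul_le_iff₀ hpos]
    linarith
  · intro ζ hζ
    apply hinj
    have h1 : c • y ζ = 0 := hζ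
    exact (smul_eq_zero.1 h1).resolve_left hc0
  · rw [star_smul]
    change (star c) • (star y) ξ = 0
    rw [hξ, smul_zero]

theorem exists_J (A : StarSubalgebra ℂ (H →L[ℂ] H)) (Ω : H) (hA : IsTV A Ω) :
    ∃ J : H → H, (∀ ζ ω, J (ζ + ω) = J ζ + J ω) ∧ (∀ (c : ℂ) ζ, J (c • ζ) = conj c • J ζ) ∧
      (∀ ζ, ‖J ζ‖ = ‖ζ‖) ∧ (∀ ζ, J (J ζ) = ζ) ∧ (∀ ζ ω, ⟪J ζ, J ω⟫_ℂ = ⟪ω, ζ⟫_ℂ) ∧
      (∀ x ∈ Set.centralizer (Set.centralizer (A : Set (H →L[ℂ] H))), J (x Ω) = (star x) Ω) ∧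
      (∀ x ∈ Set.centralizer (A : Set (H →L[ℂ] H)), J (x Ω) = (star x) Ω) := by
  obtain ⟨J, hJ⟩ := jop_J A Ω hA
  refine ⟨J, fun ζ ω => map_add J ζ ω, fun c ζ => ?_, jop_J_norm A Ω hA J hJ,
    jop_JJ A Ω hA J hJ, jop_J_inner A Ω hA J hJ, jop_J_dc A Ω hA J hJ, jop_J_comm A Ω hA J hJ⟩
  exact J.map_smulₛₗ c ζ

/-- trace on the commutant -/
theorem trace_commutant (A : StarSubalgebra ℂ (H →L[ℂ] H)) (Ω : H) (hA : IsTV A Ω)
    (x y : H →L[ℂ] H) (hx : x ∈ Set.centralizer (A : Set (H →L[ℂ] H)))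
    (hy : y ∈ Set.centralizer (A : Set (H →L[ℂ] H))) : ⟪Ω, (x * y) Ω⟫_ℂ = ⟪Ω, (y * x) Ω⟫_ℂ := by
  obtain ⟨J, hJ⟩ := jop_J A Ω hA
  exact jop_trace A Ω hA J hJ x y (jop_J_comm A Ω hA J hJ x hx) (jop_J_comm A Ω hA J hJ y hy)

/-- trace on the double commutant -/
theorem trace_dc (A : StarSubalgebra ℂ (H →L[ℂ] H)) (Ω : H) (hA : IsTV A Ω)
    (x y : H →L[ℂ] H) (hx : x ∈ Set.centralizer (Set.centralizer (A : Set (H →L[ℂ] H))))
    (hy : y ∈ Set.centralizer (Set.centralizer (A : Set (H →L[ℂ] H)))) :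
    ⟪Ω, (x * y) Ω⟫_ℂ = ⟪Ω, (y * x) Ω⟫_ℂ := by
  obtain ⟨J, hJ⟩ := jop_J A Ω hA
  exact jop_trace A Ω hA J hJ x y (jop_J_dc A Ω hA J hJ x hx) (jop_J_dc A Ω hA J hJ y hy)

/-- a von Neumann algebra with cyclic trace vector: the trace vector is separating for `N` and `N'`
-/
theorem isST_of (N : VonNeumannAlgebra H) (Ω : H) (hN : IsTV N.toStarSubalgebra Ω) :
    IsST N Ω ∧ IsST N.commutant Ω := by
  obtain ⟨J, hJ⟩ := jop_J N.toStarSubalgebra Ω hN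
  refine ⟨⟨hN.trace, fun x hx h0 => ?_⟩, ⟨fun x hx y hy => ?_, fun x hx h0 => ?_⟩⟩
  · ext ζ
    refine hN.cyclic.induction (P := fun ζ => x ζ = (0 : H →L[ℂ] H) ζ) ?_ ?_ ζ
    · rintro ξ ⟨m, hm, rfl⟩
      obtain ⟨r, hr, hrA, hrx⟩ := jop_rho N.toStarSubalgebra Ω hN J hJ m hm
      have hr1 : r Ω = m Ω := by
        have := hrx 1 (one_mem _)
        simpa using this
      have h1 : x (r Ω) = r (x Ω) := DFunLike.congr_fun (hrA x hx) Ω
      rw [← hr1, h1, h0, map_zero]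
      rfl
    · exact isClosed_eq x.continuous (0 : H →L[ℂ] H).continuous
  · refine trace_commutant N.toStarSubalgebra Ω hN x y ?_ ?_
    · exact fun g hg => VonNeumannAlgebra.mem_commutant_iff.1 hx g hg
    · exact fun g hg => VonNeumannAlgebra.mem_commutant_iff.1 hy g hg
  · ext ζ
    refine hN.cyclic.induction (P := fun ζ => x ζ = (0 : H →L[ℂ] H) ζ) ?_ ?_ ζ
    · rintro ξ ⟨m, hm, rfl⟩
      have h1 : m (x Ω) = x (m Ω) :=
        DFunLike.congr_fun (VonNeumannAlgebra.mem_commutant_iff.1 hx m hm) Ω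
      rw [← h1, h0, map_zero]
      rfl
    · exact isClosed_eq x.continuous (0 : H →L[ℂ] H).continuous

/-- right multiplication: for `y ∈ N` there is `z ∈ N'` with `z (x Ω) = x y Ω` for `x ∈ N`, with the
same kernel triviality; `z = J y* J`. -/
theorem exists_right (N : VonNeumannAlgebra H) (Ω : H) (hN : IsTV N.toStarSubalgebra Ω)
    (y : H →L[ℂ] H) (hy : y ∈ N) :
    ∃ z ∈ N.commutant, (∀ x ∈ N, z (x Ω) = (x * y) Ω) ∧ z Ω = y Ω ∧
      ((∀ ξ, y ξ = 0 → ξ = 0) → ∀ ξ, z ξ = 0 → ξ = 0) := by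
  obtain ⟨J, hJ⟩ := jop_J N.toStarSubalgebra Ω hN
  obtain ⟨r, hr, hrA, hrx⟩ := jop_rho N.toStarSubalgebra Ω hN J hJ y hy
  refine ⟨r, VonNeumannAlgebra.mem_commutant_iff.2 fun g hg => hrA g hg, hrx, ?_, ?_⟩
  · have := hrx 1 (one_mem _)
    simpa using this
  · intro hinj ξ hξ
    rw [hr] at hξ
    have h1 : (star y) (J ξ) = 0 := by
      rw [← jop_JJ N.toStarSubalgebra Ω hN J hJ ((star y) (J ξ)), hξ, map_zero]
    have h2 : J ξ = 0 := jop_star_inj N.toStarSubalgebra Ω hN y hy hinj (J ξ) h1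
    rw [← jop_JJ N.toStarSubalgebra Ω hN J hJ ξ, h2, map_zero]

end

end Pool.H62.UC
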