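import Pool.Agent.H62.UC.Bas
import Pool.Agent.H62.UC.Jop

/-!
# NK: the algebra `M ⊗ M^op` and its trace vector
-/

namespace Pool.H62.UC

open scoped InnerProductSpace TensorProduct ComplexConjugate
open Filter Topology

noncomputable section


variable {H : Type*} [NormedAddCommGroup H] [InnerProductSpace ℂ H] [CompleteSpace H]
variable {K : Type*} [NormedAddCommGroup K] [InnerProductSpace ℂ K] [CompleteSpace K]

/-- The von Neumann algebra `M ⊗ M^op` on `K`: the double commutant of the left and right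
multiplications. -/
def NK (S : Std H K) : VonNeumannAlgebra K where
  toStarSubalgebra := StarSubalgebra.centralizer ℂ
    (Set.centralizer ({A : K →L[ℂ] K | ∃ x ∈ S.M, A = S.l x} ∪
      {A : K →L[ℂ] K | ∃ y ∈ S.M, A = S.r y}))
  centralizer_centralizer' := by
    exact Set.centralizer_centralizer_centralizer _

theorem NK_mem_iff (S : Std H K) (A : K →L[ℂ] K) : A ∈ NK S ↔
    A ∈ StarSubalgebra.centralizer ℂ
    (Set.centralizer ({A : K →L[ℂ] K | ∃ x ∈ S.M, A = S.l x} ∪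
      {A : K →L[ℂ] K | ∃ y ∈ S.M, A = S.r y})) := Iff.rfl

theorem NK_star_gen (S : Std H K) (A : K →L[ℂ] K)
    (hA : A ∈ ({A : K →L[ℂ] K | ∃ x ∈ S.M, A = S.l x} ∪
      {A : K →L[ℂ] K | ∃ y ∈ S.M, A = S.r y})) :
    star A ∈ ({A : K →L[ℂ] K | ∃ x ∈ S.M, A = S.l x} ∪
      {A : K →L[ℂ] K | ∃ y ∈ S.M, A = S.r y}) := by
  rcases hA with ⟨x, hx, rfl⟩ | ⟨y, hy, rfl⟩
  · exact Or.inl ⟨star x, star_mem hx, (S.l_star x).symm⟩
  · exact Or.inr ⟨star y, star_mem hy, (S.r_star hy).symm⟩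

theorem NK_gen_mem (S : Std H K) (A : K →L[ℂ] K)
    (hA : A ∈ ({A : K →L[ℂ] K | ∃ x ∈ S.M, A = S.l x} ∪
      {A : K →L[ℂ] K | ∃ y ∈ S.M, A = S.r y})) : A ∈ NK S := by
  rw [NK_mem_iff, StarSubalgebra.mem_centralizer_iff]
  intro g hg
  refine ⟨(hg A hA).symm, ?_⟩
  have h := hg (star A) (NK_star_gen S A hA)
  have h2 := congrArg star h
  rw [star_mul, star_mul, star_star] at h2
  exact h2

theorem l_mem_NK (S : Std H K) {x : H →L[ℂ] H} (hx : x ∈ S.M) : S.l x ∈ NK S := by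
  exact NK_gen_mem S _ (Or.inl ⟨x, hx, rfl⟩)

theorem r_mem_NK (S : Std H K) {y : H →L[ℂ] H} (hy : y ∈ S.M) : S.r y ∈ NK S := by
  exact NK_gen_mem S _ (Or.inr ⟨y, hy, rfl⟩)

/-- products of left and right multiplications -/
def NK_prods (S : Std H K) : Set (K →L[ℂ] K) :=
  {A | ∃ x ∈ S.M, ∃ y ∈ S.M, A = S.l x * S.r y}

theorem NK_lr (S : Std H K) (x y : H →L[ℂ] H) : S.r y * S.l x = S.l x * S.r y := by
  ext κ
  exact (S.lr_comm x y κ).symm

theorem NK_prods_mul (S : Std H K) {A B : K →L[ℂ] K} (hA : A ∈ NK_prods S) (hB : B ∈ NK_prods S) :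
    A * B ∈ NK_prods S := by
  obtain ⟨x, hx, y, hy, rfl⟩ := hA
  obtain ⟨x', hx', y', hy', rfl⟩ := hB
  refine ⟨x * x', mul_mem hx hx', y' * y, mul_mem hy' hy, ?_⟩
  rw [S.l_mul, S.r_mul hy' hy, mul_assoc, ← mul_assoc (S.r y), NK_lr, mul_assoc, mul_assoc]

theorem NK_prods_star (S : Std H K) {A : K →L[ℂ] K} (hA : A ∈ NK_prods S) :
    star A ∈ NK_prods S := by
  obtain ⟨x, hx, y, hy, rfl⟩ := hA
  refine ⟨star x, star_mem hx, star y, star_mem hy, ?_⟩
  rw [star_mul, S.l_star, S.r_star hy, ← S.l_star, ← S.r_star hy, NK_lr]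

theorem NK_span_mul (S : Std H K) {A B : K →L[ℂ] K} (hA : A ∈ Submodule.span ℂ (NK_prods S))
    (hB : B ∈ Submodule.span ℂ (NK_prods S)) : A * B ∈ Submodule.span ℂ (NK_prods S) := by
  induction hA using Submodule.span_induction with
  | mem A hA =>
    induction hB using Submodule.span_induction with
    | mem B hB => exact Submodule.subset_span (NK_prods_mul S hA hB)
    | zero => rw [mul_zero]; exact Submodule.zero_mem _
    | add B C _ _ h1 h2 => rw [mul_add]; exact Submodule.add_mem _ h1 h2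
    | smul c B _ h => rw [mul_smul_comm]; exact Submodule.smul_mem _ c h
  | zero => rw [zero_mul]; exact Submodule.zero_mem _
  | add A C _ _ h1 h2 => rw [add_mul]; exact Submodule.add_mem _ h1 h2
  | smul c A _ h => rw [smul_mul_assoc]; exact Submodule.smul_mem _ c h

theorem NK_span_star (S : Std H K) {A : K →L[ℂ] K} (hA : A ∈ Submodule.span ℂ (NK_prods S)) :
    star A ∈ Submodule.span ℂ (NK_prods S) := by
  induction hA using Submodule.span_induction with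
  | mem A hA => exact Submodule.subset_span (NK_prods_star S hA)
  | zero => rw [star_zero]; exact Submodule.zero_mem _
  | add A C _ _ h1 h2 => rw [star_add]; exact Submodule.add_mem _ h1 h2
  | smul c A _ h => rw [star_smul]; exact Submodule.smul_mem _ _ h

theorem NK_span_one (S : Std H K) : (1 : K →L[ℂ] K) ∈ Submodule.span ℂ (NK_prods S) :=
  Submodule.subset_span ⟨1, S.one_mem, 1, S.one_mem, by rw [S.l_one, S.r_one, mul_one]⟩

/-- the algebraic tensor product as a star algebra on `K` -/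
def NK_alg (S : Std H K) : StarSubalgebra ℂ (K →L[ℂ] K) where
  carrier := Submodule.span ℂ (NK_prods S)
  mul_mem' := fun hA hB => NK_span_mul S hA hB
  one_mem' := NK_span_one S
  add_mem' := fun hA hB => Submodule.add_mem _ hA hB
  zero_mem' := Submodule.zero_mem _
  algebraMap_mem' := fun c => by
    rw [Algebra.algebraMap_eq_smul_one]
    exact Submodule.smul_mem _ c (NK_span_one S)
  star_mem' := fun hA => NK_span_star S hA

theorem NK_mem_alg (S : Std H K) (A : K →L[ℂ] K) :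
    A ∈ NK_alg S ↔ A ∈ Submodule.span ℂ (NK_prods S) := Iff.rfl

theorem NK_prods_trace (S : Std H K) {A B : K →L[ℂ] K} (hA : A ∈ NK_prods S)
    (hB : B ∈ NK_prods S) : ⟪S.T.tp S.Ω S.Ω, (A * B) (S.T.tp S.Ω S.Ω)⟫_ℂ =
      ⟪S.T.tp S.Ω S.Ω, (B * A) (S.T.tp S.Ω S.Ω)⟫_ℂ := by
  obtain ⟨x, hx, y, hy, rfl⟩ := hA
  obtain ⟨x', hx', y', hy', rfl⟩ := hB
  have h : ∀ x x' : H →L[ℂ] H, ∀ y ∈ S.M, ∀ y' ∈ S.M,
      ⟪S.T.tp S.Ω S.Ω, (S.l x * S.r y * (S.l x' * S.r y')) (S.T.tp S.Ω S.Ω)⟫_ℂ =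
      ⟪S.Ω, (x * x') S.Ω⟫_ℂ * ⟪S.Ω, (y' * y) S.Ω⟫_ℂ := by
    intro x x' y hy y' hy'
    have h1 : (S.l x * S.r y * (S.l x' * S.r y')) (S.T.tp S.Ω S.Ω) =
        S.l x (S.r y (S.l x' (S.r y' (S.T.tp S.Ω S.Ω)))) := rfl
    rw [h1, S.r_tp, S.l_tp, S.r_tp, S.l_tp, S.T.inner_tp, S.ρ_Ω hy',
      S.ρ_apply y' hy' y hy]
    rfl
  rw [h x x' y hy y' hy', h x' x y' hy' y hy, S.tv.trace x hx x' hx', S.tv.trace y' hy' y hy]

theorem NK_alg_trace (S : Std H K) {A B : K →L[ℂ] K} (hA : A ∈ Submodule.span ℂ (NK_prods S))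
    (hB : B ∈ Submodule.span ℂ (NK_prods S)) :
    ⟪S.T.tp S.Ω S.Ω, (A * B) (S.T.tp S.Ω S.Ω)⟫_ℂ =
      ⟪S.T.tp S.Ω S.Ω, (B * A) (S.T.tp S.Ω S.Ω)⟫_ℂ := by
  induction hA using Submodule.span_induction with
  | mem A hA =>
    induction hB using Submodule.span_induction with
    | mem B hB => exact NK_prods_trace S hA hB
    | zero => rw [mul_zero, zero_mul]
    | add B C _ _ h1 h2 =>
      rw [mul_add, add_mul, _root_.add_apply, _root_.add_apply, inner_add_right, inner_add_right,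
        h1, h2]
    | smul c B _ h =>
      rw [mul_smul_comm, smul_mul_assoc, _root_.smul_apply, _root_.smul_apply, inner_smul_right,
        inner_smul_right, h]
  | zero => rw [mul_zero, zero_mul]
  | add A C _ _ h1 h2 =>
    rw [mul_add, add_mul, _root_.add_apply, _root_.add_apply, inner_add_right, inner_add_right,
        h1, h2]
  | smul c A _ h =>
    rw [mul_smul_comm, smul_mul_assoc, _root_.smul_apply, _root_.smul_apply, inner_smul_right,
        inner_smul_right, h]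

theorem NK_dense (S : Std H K) :
    Dense {ξ : K | ∃ A ∈ NK_alg S, A (S.T.tp S.Ω S.Ω) = ξ} := by
  -- the set is a submodule
  let V : Submodule ℂ K :=
    (Submodule.span ℂ (NK_prods S)).map
      (ContinuousLinearMap.apply ℂ K (S.T.tp S.Ω S.Ω)).toLinearMap
  have hV : (V : Set K) = {ξ : K | ∃ A ∈ NK_alg S, A (S.T.tp S.Ω S.Ω) = ξ} := by
    ext ξ
    constructor
    · rintro ⟨A, hA, rfl⟩
      exact ⟨A, hA, rfl⟩
    · rintro ⟨A, hA, rfl⟩
      exact ⟨A, hA, rfl⟩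
  rw [← hV]
  intro κ
  refine S.T.induction (fun κ => κ ∈ closure (V : Set K)) ?_ ?_ ?_ ?_ κ
  · intro a b
    -- simple tensors
    have hd : Dense ({ξ : H | ∃ x ∈ S.M, x S.Ω = ξ} ×ˢ {ξ : H | ∃ x ∈ S.M, x S.Ω = ξ}) :=
      Dense.prod S.tv.cyclic S.tv.cyclic
    have hab := hd (a, b)
    have hc : Continuous fun p : H × H => S.T.tp p.1 p.2 := by fun_prop
    have h1 : S.T.tp a b ∈ closure ((fun p : H × H => S.T.tp p.1 p.2) ''
        ({ξ : H | ∃ x ∈ S.M, x S.Ω = ξ} ×ˢ {ξ : H | ∃ x ∈ S.M, x S.Ω = ξ})) :=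
      image_closure_subset_closure_image hc ⟨(a, b), hab, rfl⟩
    refine closure_mono ?_ h1
    rintro _ ⟨⟨_, _⟩, ⟨⟨x, hx, rfl⟩, ⟨y, hy, rfl⟩⟩, rfl⟩
    refine ⟨S.l x * S.r y, Submodule.subset_span ⟨x, hx, y, hy, rfl⟩, ?_⟩
    change S.l x (S.r y (S.T.tp S.Ω S.Ω)) = S.T.tp (x S.Ω) (y S.Ω)
    rw [S.r_tp, S.l_tp, S.ρ_Ω hy]
  · intro x y hx hy
    exact V.topologicalClosure.add_mem hx hy
  · intro c x hx
    exact V.topologicalClosure.smul_mem c hx
  · exact isClosed_closure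

theorem NK_norm_one (S : Std H K) : ‖S.T.tp S.Ω S.Ω‖ = 1 := by
  rw [S.T.norm_tp, S.tv.norm_one, mul_one]

theorem NK_isTV_alg (S : Std H K) : IsTV (NK_alg S) (S.T.tp S.Ω S.Ω) where
  norm_one := NK_norm_one S
  trace := fun _ hA _ hB => NK_alg_trace S hA hB
  cyclic := NK_dense S

theorem NK_alg_le (S : Std H K) {A : K →L[ℂ] K} (hA : A ∈ NK_alg S) : A ∈ NK S := by
  have hA' : A ∈ Submodule.span ℂ (NK_prods S) := hA
  have h : Submodule.span ℂ (NK_prods S) ≤ Subalgebra.toSubmodule (NK S).toSubalgebra := by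
    rw [Submodule.span_le]
    rintro _ ⟨x, hx, y, hy, rfl⟩
    exact (NK S).toSubalgebra.mul_mem (l_mem_NK S hx) (r_mem_NK S hy)
  exact h hA'

theorem NK_mem_cc (S : Std H K) {A : K →L[ℂ] K} (hA : A ∈ NK S) :
    A ∈ Set.centralizer (Set.centralizer (NK_alg S : Set (K →L[ℂ] K))) := by
  intro c hc
  rw [NK_mem_iff, StarSubalgebra.mem_centralizer_iff] at hA
  refine (hA c ?_).1
  intro g hg
  refine hc g ?_
  rcases hg with ⟨x, hx, rfl⟩ | ⟨y, hy, rfl⟩
  · exact Submodule.subset_span ⟨x, hx, 1, S.one_mem, by rw [S.r_one, mul_one]⟩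
  · exact Submodule.subset_span ⟨1, S.one_mem, y, hy, by rw [S.l_one, one_mul]⟩

/-- the trace vector `Ω ⊗ Ω` of `NK S`: the linear span of the `l x * r y` is a unital star algebra
with cyclic trace vector; `trace_dc`. -/
theorem isTV_NK (S : Std H K) : IsTV (NK S).toStarSubalgebra (S.T.tp S.Ω S.Ω) where
  norm_one := NK_norm_one S
  trace := fun x hx y hy => trace_dc (NK_alg S) _ (NK_isTV_alg S) x y (NK_mem_cc S hx)
    (NK_mem_cc S hy)
  cyclic := by
    refine (NK_dense S).mono ?_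
    rintro _ ⟨A, hA, h⟩
    exact ⟨A, NK_alg_le S hA, h⟩

end

end Pool.H62.UC
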