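import Pool.Agent.H62.UC.Comm

/-!
# ATOM: finite dimensional central projections increasing to `e` (no monotonicity needed)

`ContinuousLinearMap.orthogonalComplement_iSup_eigenspaces_eq_bot`,
`ContinuousLinearMap.finite_dimensional_eigenspace`.  The eigenspace of `0` is `(1 - e) H`, the
others are in `e H`; so `e Ω` is in the closure of the span of the eigenspaces of nonzero
eigenvalues, hence for every `k` there is a finite set of nonzero eigenvalues such that
`‖e Ω - z e Ω‖ ≤ 1/(k+1)` where `z` is the projection on the (finite dimensional) supremum `V` of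
their eigenspaces.  `V` is invariant under `M` and `M'` (which commute with `T`), so `z ∈ M' ∩ M'' `
(`Submodule.starProjection`, `VonNeumannAlgebra.IsStarProjection.mem_iff`). Strong convergence:
`Std.tendsto_of`.
-/

namespace Pool.H62.UC

open scoped InnerProductSpace TensorProduct ComplexConjugate
open Filter Topology

noncomputable section

variable {H : Type*} [NormedAddCommGroup H] [InnerProductSpace ℂ H] [CompleteSpace H]
variable {K : Type*} [NormedAddCommGroup K] [InnerProductSpace ℂ K] [CompleteSpace K]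

section Atoms

variable (T : H →L[ℂ] H)

/-- the sum of the eigenspaces of a finite set of nonzero eigenvalues -/
def atomV (s : Finset {μ : ℂ // μ ≠ 0}) : Submodule ℂ H :=
  s.sup fun μ => Module.End.eigenspace (T : Module.End ℂ H) μ.1

theorem atom_finDim (hT : IsCompactOperator T) (s : Finset {μ : ℂ // μ ≠ 0}) :
    FiniteDimensional ℂ (atomV T s) := by
  have : ∀ μ : {μ : ℂ // μ ≠ 0},
      FiniteDimensional ℂ (Module.End.eigenspace (T : Module.End ℂ H) μ.1) := fun μ =>
    ContinuousLinearMap.finite_dimensional_eigenspace hT μ.1 μ.2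
  exact Submodule.finiteDimensional_finset_sup s _

omit [CompleteSpace H] in
theorem atom_induction (s : Finset {μ : ℂ // μ ≠ 0}) (P : H → Prop) (h0 : P 0)
    (hadd : ∀ x y, P x → P y → P (x + y)) (hsmul : ∀ (c : ℂ) x, P x → P (c • x))
    (hE : ∀ (μ : ℂ), μ ≠ 0 → ∀ x, T x = μ • x → P x) : ∀ x ∈ atomV T s, P x := by
  let Q : Submodule ℂ H :=
    { carrier := {x | P x}
      zero_mem' := h0
      add_mem' := fun {x y} hx hy => hadd x y hx hy
      smul_mem' := fun c x hx => hsmul c x hx }
  have h1 : atomV T s ≤ Q := by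
    refine Finset.sup_le fun μ _ => ?_
    intro x hx
    exact hE μ.1 μ.2 x (Module.End.mem_eigenspace_iff.1 hx)
  intro x hx
  exact h1 hx

omit [CompleteSpace H] in
theorem atom_mem {s : Finset {μ : ℂ // μ ≠ 0}} {μ : {μ : ℂ // μ ≠ 0}} (hμ : μ ∈ s) {x : H}
    (hx : T x = μ.1 • x) : x ∈ atomV T s := by
  have h1 : Module.End.eigenspace (T : Module.End ℂ H) μ.1 ≤ atomV T s :=
    Finset.le_sup (f := fun μ : {μ : ℂ // μ ≠ 0} =>
      Module.End.eigenspace (T : Module.End ℂ H) μ.1) hμ
  exact h1 (Module.End.mem_eigenspace_iff.2 hx)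

omit [CompleteSpace H] in
theorem atom_invt (s : Finset {μ : ℂ // μ ≠ 0}) (y : H →L[ℂ] H) (hy : T * y = y * T) :
    ∀ x ∈ atomV T s, y x ∈ atomV T s := by
  have h1 : atomV T s ≤ (atomV T s).comap (y : H →ₗ[ℂ] H) := by
    refine Finset.sup_le fun μ hμ => ?_
    intro x hx
    have hx' : T x = μ.1 • x := Module.End.mem_eigenspace_iff.1 hx
    refine atom_mem T hμ ?_
    have h2 : T (y x) = y (T x) := congrArg (fun A : H →L[ℂ] H => A x) hy
    show T (y x) = μ.1 • y x
    rw [h2, hx', map_smul]
  intro x hx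
  exact h1 hx

end Atoms

theorem atom_proj_mem (N : VonNeumannAlgebra H) (V : Submodule ℂ H) [V.HasOrthogonalProjection]
    (h : ∀ y ∈ N.commutant, ∀ x ∈ V, y x ∈ V) : V.starProjection ∈ N := by
  have h1 : IsStarProjection V.starProjection := isStarProjection_starProjection
  rw [VonNeumannAlgebra.IsStarProjection.mem_iff h1]
  intro y hy
  rw [Module.End.mem_invtSubmodule_iff_forall_mem_of_mem]
  intro x hx
  have h2 : (V.starProjection : H →L[ℂ] H).range = V := Submodule.range_starProjection V
  rw [h2] at hx ⊢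
  exact h y hy x hx

theorem atoms (S : Std H K) (e : H →L[ℂ] H) (he : IsStarProjection e) (heM : e ∈ S.M)
    (hec : ∀ x ∈ S.M, e * x = x * e) (T : H →L[ℂ] H) (hT : IsCompactOperator T)
    (hTp : T.IsPositive) (hTM : T ∈ S.M) (hTc : ∀ x ∈ S.M, T * x = x * T) (hTe : T * e = T)
    (hker : ∀ ξ, T ξ = 0 → e ξ = 0) :
    ∃ z : ℕ → H →L[ℂ] H, (∀ k, IsStarProjection (z k)) ∧ (∀ k, z k ∈ S.M) ∧
      (∀ k, ∀ x ∈ S.M, z k * x = x * z k) ∧ (∀ k, z k * e = z k) ∧
      (∀ k, FiniteDimensional ℂ (LinearMap.range (z k : H →ₗ[ℂ] H))) ∧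
      ∀ ω, Tendsto (fun k => z k ω) atTop (𝓝 (e ω)) := by
  have hfd : ∀ s, FiniteDimensional ℂ (atomV T s) := atom_finDim T hT
  have heT : e * T = T := by rw [hec T hTM, hTe]
  have hes : star e = e := he.isSelfAdjoint
  have hz1 : ∀ s, IsStarProjection (atomV T s).starProjection := fun s =>
    isStarProjection_starProjection
  have hz2 : ∀ s, (atomV T s).starProjection ∈ S.M := by
    intro s
    refine atom_proj_mem S.M _ fun y hy => atom_invt T s y ?_
    rw [VonNeumannAlgebra.mem_commutant_iff] at hy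
    exact hy T hTM
  have hz3 : ∀ s, (atomV T s).starProjection ∈ S.M.commutant := by
    intro s
    refine atom_proj_mem S.M.commutant _ fun y hy => atom_invt T s y ?_
    rw [S.M.commutant_commutant] at hy
    exact hTc y hy
  have hev : ∀ s, ∀ x ∈ atomV T s, e x = x := by
    intro s
    refine atom_induction T s _ (map_zero e) ?_ ?_ ?_
    · intro x y hx hy
      rw [map_add, hx, hy]
    · intro c x hx
      rw [map_smul, hx]
    · intro μ hμ x hx
      have h1 : e (T x) = T x := congrArg (fun A : H →L[ℂ] H => A x) heT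
      rw [hx, map_smul] at h1
      exact smul_right_injective H hμ h1
  have hz4 : ∀ s, (atomV T s).starProjection * e = (atomV T s).starProjection := by
    intro s
    rw [← hec _ (hz2 s)]
    ext x
    exact hev s _ (Submodule.starProjection_apply_mem _ x)
  -- the key approximation
  have hkey : ∀ ε : ℝ, 0 < ε → ∃ s, ‖(atomV T s).starProjection S.Ω - e S.Ω‖ ≤ ε := by
    intro ε hε
    set W : Submodule ℂ H := ⨆ μ : {μ : ℂ // μ ≠ 0},
      Module.End.eigenspace (T : Module.End ℂ H) μ.1 with hW
    have h1 : ∀ ξ ∈ Wᗮ, e ξ = 0 := by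
      intro ξ hξ
      have h2 : e ξ ∈ (⨆ μ, Module.End.eigenspace (T : Module.End ℂ H) μ)ᗮ := by
        have h3 : (⨆ μ, Module.End.eigenspace (T : Module.End ℂ H) μ) ≤ (ℂ ∙ (e ξ))ᗮ := by
          refine iSup_le fun μ => ?_
          intro x hx
          have hx' : T x = μ • x := Module.End.mem_eigenspace_iff.1 hx
          rw [Submodule.mem_orthogonal_singleton_iff_inner_left]
          have h4 : ⟪x, e ξ⟫_ℂ = ⟪e x, ξ⟫_ℂ := by
            rw [jop_inner_left, hes]
          rw [h4]
          by_cases hμ : μ = 0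
          · rw [hμ, zero_smul] at hx'
            rw [hker x hx', inner_zero_left]
          · have h5 : x ∈ atomV T {(⟨μ, hμ⟩ : {μ : ℂ // μ ≠ 0})} :=
              atom_mem T (Finset.mem_singleton_self _) hx'
            rw [hev _ x h5]
            have h6 : x ∈ W := (le_iSup (fun μ : {μ : ℂ // μ ≠ 0} =>
              Module.End.eigenspace (T : Module.End ℂ H) μ.1) ⟨μ, hμ⟩) hx
            exact (Submodule.mem_orthogonal W ξ).1 hξ x h6
        rw [Submodule.mem_orthogonal]
        intro u hu
        exact Submodule.mem_orthogonal_singleton_iff_inner_left.1 (h3 hu)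
      have h3 := ContinuousLinearMap.orthogonalComplement_iSup_eigenspaces_eq_bot hT
        hTp.isSymmetric
      have h4 : e ξ ∈ (⊥ : Submodule ℂ H) := by
        rw [← h3]
        exact h2
      exact (Submodule.mem_bot ℂ).1 h4
    have h2 : e S.Ω ∈ W.topologicalClosure := by
      rw [← Submodule.orthogonal_orthogonal_eq_closure, Submodule.mem_orthogonal]
      intro ξ hξ
      rw [jop_inner_right, hes, h1 ξ hξ, inner_zero_left]
    obtain ⟨w, hw, hwε⟩ := Metric.mem_closure_iff.1
      (show e S.Ω ∈ closure (W : Set H) from h2) ε hε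
    obtain ⟨s, hs⟩ := Submodule.mem_iSup_iff_exists_finset.1 (show w ∈ W from hw)
    have hws : w ∈ atomV T s := by
      have : (⨆ i ∈ s, Module.End.eigenspace (T : Module.End ℂ H) i.1) ≤ atomV T s :=
        iSup₂_le fun μ hμ => Finset.le_sup (f := fun μ : {μ : ℂ // μ ≠ 0} =>
          Module.End.eigenspace (T : Module.End ℂ H) μ.1) hμ
      exact this hs
    refine ⟨s, ?_⟩
    have h3 : (atomV T s).starProjection S.Ω = (atomV T s).starProjection (e S.Ω) :=
      (congrArg (fun A : H →L[ℂ] H => A S.Ω) (hz4 s)).symm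
    rw [h3, norm_sub_rev, Submodule.starProjection_minimal]
    have h4 : (⨅ x : atomV T s, ‖e S.Ω - x‖) ≤ ‖e S.Ω - w‖ :=
      ciInf_le ⟨0, by rintro _ ⟨x, rfl⟩; exact norm_nonneg _⟩ (⟨w, hws⟩ : atomV T s)
    refine h4.trans ?_
    rw [← dist_eq_norm]
    exact hwε.le
  choose s hs using fun k : ℕ => hkey (1 / ((k : ℝ) + 1)) (by positivity)
  refine ⟨fun k => (atomV T (s k)).starProjection, fun k => hz1 _, fun k => hz2 _, ?_,
    fun k => hz4 _, ?_, ?_⟩
  · intro k x hx
    have h1 := hz3 (s k)
    rw [VonNeumannAlgebra.mem_commutant_iff] at h1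
    exact (h1 x hx).symm
  · intro k
    have h2 : ((atomV T (s k)).starProjection : H →L[ℂ] H).range = atomV T (s k) :=
      Submodule.range_starProjection _
    have h3 := hfd (s k)
    rw [← h2] at h3
    exact h3
  · intro ω
    refine S.tendsto_of (C := 1) (fun k => hz2 (s k)) heM
      (fun k => Submodule.starProjection_norm_le _) ?_ ω
    rw [tendsto_iff_norm_sub_tendsto_zero]
    exact squeeze_zero (fun k => norm_nonneg _) hs tendsto_one_div_add_atTop_nhds_zero_nat

end

end Pool.H62.UC
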