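import Pool.Agent.H62.UC.JuncA

/-!
# CLOSEA (`four_unitaries`): a countable group of unitaries closed under countably many maps

`exists_group`: given a sequence `x` in `M`, a sequence `v` in `UM S` and maps `Y k : UM S → M`,
there is an enumeration `u : ℕ → UM S` whose range `W` is a group (contains `1`, closed under
products and stars) containing all `v n`, such that all `x k` and all `Y k g` (`g ∈ W`) are in the
linear span of `W`.  Every element of `M` is a linear combination of four unitaries of `M`
(self-adjoint contraction `a = (w + w*)/2`, `w = a + i √(1 - a²)`; alternatively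
`CStarAlgebra`: `exists_sum_four_unitary`, check membership in `M`: `M` is a C*-algebra, or the
square root commutes with `M'`).  Countable closure: iterate.
-/

namespace Pool.H62.UC

open scoped InnerProductSpace TensorProduct ComplexConjugate
open Filter Topology

noncomputable section


variable {H : Type*} [NormedAddCommGroup H] [InnerProductSpace ℂ H] [CompleteSpace H]
variable {K : Type*} [NormedAddCommGroup K] [InnerProductSpace ℂ K] [CompleteSpace K]

/-- a von Neumann algebra is norm closed -/
theorem closea_isClosed (N : VonNeumannAlgebra H) :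
    IsClosed (N.toStarSubalgebra : Set (H →L[ℂ] H)) := by
  have h : (N.toStarSubalgebra : Set (H →L[ℂ] H)) =
      ⋂ g ∈ (N.commutant : Set (H →L[ℂ] H)), {z : H →L[ℂ] H | g * z = z * g} := by
    ext z
    simp only [Set.mem_iInter, Set.mem_ofPred_eq]
    have h1 : z ∈ N.commutant.commutant ↔ ∀ g ∈ N.commutant, g * z = z * g :=
      VonNeumannAlgebra.mem_commutant_iff
    rw [VonNeumannAlgebra.commutant_commutant] at h1
    exact h1
  rw [h]
  refine isClosed_biInter fun g _ => ?_
  exact isClosed_eq (continuous_const.mul continuous_id) (continuous_id.mul continuous_const)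

theorem four_unitaries (S : Std H K) (x : H →L[ℂ] H) (hx : x ∈ S.M) :
    ∃ (w : Fin 4 → H →L[ℂ] H) (c : Fin 4 → ℂ), (∀ j, w j ∈ UM S) ∧ x = ∑ j, c j • w j := by
  have hcl : IsClosed (S.M.toStarSubalgebra : Set (H →L[ℂ] H)) := closea_isClosed S.M
  let inst : CStarAlgebra (S.M.toStarSubalgebra) := StarSubalgebra.cstarAlgebra S.M.toStarSubalgebra
  obtain ⟨u, c, h, -⟩ := CStarAlgebra.exists_sum_four_unitary
    (⟨x, hx⟩ : S.M.toStarSubalgebra)
  refine ⟨fun j => ((u j : S.M.toStarSubalgebra) : H →L[ℂ] H), c, fun j => ⟨(u j).1.2, ?_⟩, ?_⟩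
  · have h1 := (u j).2
    rw [Unitary.mem_iff] at h1 ⊢
    exact ⟨congrArg Subtype.val h1.1, congrArg Subtype.val h1.2⟩
  · have h2 := congrArg (Subtype.val : S.M.toStarSubalgebra → H →L[ℂ] H) h
    have h3 : ((∑ i, c i • ((u i : S.M.toStarSubalgebra)) : S.M.toStarSubalgebra) : H →L[ℂ] H) =
        ∑ i, c i • (((u i : S.M.toStarSubalgebra)) : H →L[ℂ] H) := by
      rw [AddSubmonoidClass.coe_finsetSum]
      rfl
    exact h2.trans h3

end

end Pool.H62.UC
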