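import Pool.Agent.H62.UC.Defs

/-!
# MEANA: basic properties of means (finitely additive probabilities)

Real bounded functions: positivity gives monotonicity; `m (conj f) = conj (m f)`;
`‖m f‖ ≤ sup ‖f‖` (rotate so that `m f ≥ 0`, then take real parts).
Vector means by the Riesz representation theorem (`InnerProductSpace.toDual`), operator means by
`LinearMap.mkContinuous` of `v ↦ vec (fun i => T i v)`.
-/

namespace Pool.H62.UC

open scoped InnerProductSpace TensorProduct ComplexConjugate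
open Filter Topology

noncomputable section

variable {I : Type*}
variable {V : Type*} [NormedAddCommGroup V] [InnerProductSpace ℂ V] [CompleteSpace V]
variable {W : Type*} [NormedAddCommGroup W] [InnerProductSpace ℂ W] [CompleteSpace W]

private theorem meana_bdd_add {f g : I → ℂ} (hf : Bdd f) (hg : Bdd g) :
    Bdd (fun i => f i + g i) := by
  obtain ⟨C, hC⟩ := hf
  obtain ⟨D, hD⟩ := hg
  exact ⟨C + D, fun i => (norm_add_le _ _).trans (add_le_add (hC i) (hD i))⟩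

private theorem meana_bdd_smul {f : I → ℂ} (c : ℂ) (hf : Bdd f) :
    Bdd (fun i => c * f i) := by
  obtain ⟨C, hC⟩ := hf
  refine ⟨‖c‖ * C, fun i => ?_⟩
  rw [norm_mul]
  exact mul_le_mul_of_nonneg_left (hC i) (norm_nonneg _)

private theorem meana_bdd_real {f : I → ℝ} (hf : ∃ C : ℝ, ∀ i, |f i| ≤ C) :
    Bdd (fun i => (f i : ℂ)) := by
  obtain ⟨C, hC⟩ := hf
  exact ⟨C, fun i => by simpa using hC i⟩

private theorem meana_bdd_const (c : ℂ) : Bdd (fun _ : I => c) := ⟨‖c‖, fun _ => le_rfl⟩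

private theorem meana_sub (m : Mean I) (f g : I → ℂ) (hf : Bdd f) (hg : Bdd g) :
    m.m (fun i => f i - g i) = m.m f - m.m g := by
  have h := m.add f (fun i => (-1) * g i) hf (meana_bdd_smul _ hg)
  rw [m.smul _ _ hg] at h
  have h2 : (fun i => f i - g i) = (fun i => f i + (-1) * g i) := by
    funext i; ring
  rw [h2, h]; ring

private theorem meana_nonempty (m : Mean I) : Nonempty I := by
  by_contra h
  rw [not_nonempty_iff] at h
  have h1 := m.const 1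
  have h0 := m.const 0
  have : (fun _ : I => (1 : ℂ)) = (fun _ => 0) := by
    funext i; exact (h.false i).elim
  rw [this, h0] at h1
  exact one_ne_zero h1.symm

theorem Mean.mono (m : Mean I) (f g : I → ℝ) (hf : ∃ C : ℝ, ∀ i, |f i| ≤ C)
    (hg : ∃ C : ℝ, ∀ i, |g i| ≤ C) (h : ∀ i, f i ≤ g i) :
    (m.m (fun i => (f i : ℂ))).re ≤ (m.m (fun i => (g i : ℂ))).re := by
  have h1 : ∃ C : ℝ, ∀ i, |g i - f i| ≤ C := by
    obtain ⟨C, hC⟩ := hf
    obtain ⟨D, hD⟩ := hg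
    exact ⟨D + C, fun i => (abs_sub _ _).trans (add_le_add (hD i) (hC i))⟩
  have h2 := (m.nonneg (fun i => g i - f i) h1 (fun i => sub_nonneg.mpr (h i))).1
  have h3 : (fun i => ((g i - f i : ℝ) : ℂ)) = (fun i => (g i : ℂ) - (f i : ℂ)) := by
    funext i; push_cast; ring
  rw [h3, meana_sub m _ _ (meana_bdd_real hg) (meana_bdd_real hf), Complex.sub_re] at h2
  linarith

theorem Mean.im_eq_zero (m : Mean I) (f : I → ℝ) (hf : ∃ C : ℝ, ∀ i, |f i| ≤ C) :
    (m.m (fun i => (f i : ℂ))).im = 0 := by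
  obtain ⟨C, hC⟩ := hf
  have h1 : ∃ D : ℝ, ∀ i, |f i + C| ≤ D := by
    refine ⟨C + |C|, fun i => ?_⟩
    calc |f i + C| ≤ |f i| + |C| := abs_add_le _ _
      _ ≤ C + |C| := by linarith [hC i]
  have h2 := (m.nonneg (fun i => f i + C) h1
    (fun i => by have := (abs_le.mp (hC i)).1; linarith)).2
  have h3 : (fun i => ((f i + C : ℝ) : ℂ)) = (fun i => (f i : ℂ) + (C : ℂ)) := by
    funext i; push_cast; ring
  rw [h3, m.add _ _ (meana_bdd_real ⟨C, hC⟩) (meana_bdd_const _), m.const, Complex.add_im,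
    Complex.ofReal_im, add_zero] at h2
  exact h2

private theorem meana_real (m : Mean I) (f : I → ℝ) (hf : ∃ C : ℝ, ∀ i, |f i| ≤ C) :
    m.m (fun i => (f i : ℂ)) = ((m.m (fun i => (f i : ℂ))).re : ℂ) := by
  apply Complex.ext
  · simp
  · simpa using m.im_eq_zero f hf

private theorem meana_re_bdd {f : I → ℂ} (hf : Bdd f) : ∃ C : ℝ, ∀ i, |(f i).re| ≤ C := by
  obtain ⟨C, hC⟩ := hf
  exact ⟨C, fun i => (Complex.abs_re_le_norm _).trans (hC i)⟩

private theorem meana_im_bdd {f : I → ℂ} (hf : Bdd f) : ∃ C : ℝ, ∀ i, |(f i).im| ≤ C := by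
  obtain ⟨C, hC⟩ := hf
  exact ⟨C, fun i => (Complex.abs_im_le_norm _).trans (hC i)⟩

private theorem meana_split (m : Mean I) (f : I → ℂ) (hf : Bdd f) :
    m.m f = m.m (fun i => ((f i).re : ℂ)) + Complex.I * m.m (fun i => ((f i).im : ℂ)) := by
  have h1 : f = (fun i => ((f i).re : ℂ) + Complex.I * ((f i).im : ℂ)) := by
    funext i
    rw [mul_comm]
    exact (Complex.re_add_im _).symm
  have h2 := m.add (fun i => ((f i).re : ℂ)) (fun i => Complex.I * ((f i).im : ℂ))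
    (meana_bdd_real (meana_re_bdd hf)) (meana_bdd_smul _ (meana_bdd_real (meana_im_bdd hf)))
  rw [m.smul _ _ (meana_bdd_real (meana_im_bdd hf))] at h2
  rw [← h2]
  exact congrArg m.m h1

theorem Mean.conj (m : Mean I) (f : I → ℂ) (hf : Bdd f) :
    m.m (fun i => conj (f i)) = conj (m.m f) := by
  have hc : Bdd (fun i => conj (f i)) := by
    obtain ⟨C, hC⟩ := hf
    exact ⟨C, fun i => by simpa using hC i⟩
  rw [meana_split m _ hc, meana_split m _ hf]
  have h1 : (fun i => (((conj (f i)).re : ℝ) : ℂ)) = (fun i => ((f i).re : ℂ)) := by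
    funext i; simp
  have h2 : (fun i => (((conj (f i)).im : ℝ) : ℂ)) = (fun i => (-1) * ((f i).im : ℂ)) := by
    funext i; simp
  rw [h1, h2, m.smul _ _ (meana_bdd_real (meana_im_bdd hf)),
    meana_real m _ (meana_re_bdd hf), meana_real m _ (meana_im_bdd hf)]
  simp only [map_add, map_mul, Complex.conj_I, Complex.conj_ofReal]
  ring

theorem Mean.re (m : Mean I) (f : I → ℂ) (hf : Bdd f) :
    m.m (fun i => (((f i).re : ℝ) : ℂ)) = ((m.m f).re : ℂ) := by
  rw [meana_split m _ hf, meana_real m _ (meana_re_bdd hf), meana_real m _ (meana_im_bdd hf)]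
  simp

/-- the mean of the norm dominates the norm of the mean -/
theorem Mean.norm_le_norm (m : Mean I) (f : I → ℂ) (g : I → ℝ) (hg : ∃ C : ℝ, ∀ i, |g i| ≤ C)
    (hf : ∀ i, ‖f i‖ ≤ g i) : ‖m.m f‖ ≤ (m.m (fun i => (g i : ℂ))).re := by
  have hfb : Bdd f := by
    obtain ⟨C, hC⟩ := hg
    exact ⟨C, fun i => (hf i).trans ((le_abs_self _).trans (hC i))⟩
  obtain ⟨c, hc1, hc2⟩ : ∃ c : ℂ, ‖c‖ = 1 ∧ c * m.m f = (‖m.m f‖ : ℂ) := by
    by_cases h0 : m.m f = 0
    · exact ⟨1, by simp, by simp [h0]⟩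
    · refine ⟨conj (m.m f) / ‖m.m f‖, ?_, ?_⟩
      · rw [norm_div]
        simp [norm_ne_zero_iff.mpr h0]
      · have h1 : (‖m.m f‖ : ℂ) ≠ 0 := by
          exact_mod_cast norm_ne_zero_iff.mpr h0
        rw [div_mul_eq_mul_div, div_eq_iff h1, Complex.conj_mul']
        ring
  have h1 := m.smul c f hfb
  rw [hc2] at h1
  have h2 := m.re (fun i => c * f i) (meana_bdd_smul c hfb)
  rw [h1, Complex.ofReal_re] at h2
  have h3 := m.mono (fun i => (c * f i).re) g (meana_re_bdd (meana_bdd_smul c hfb)) hg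
    (fun i => by
      calc (c * f i).re ≤ ‖c * f i‖ := Complex.re_le_norm _
        _ = ‖f i‖ := by rw [norm_mul, hc1, one_mul]
        _ ≤ g i := hf i)
  rw [h2, Complex.ofReal_re] at h3
  exact h3

theorem Mean.norm_le (m : Mean I) (f : I → ℂ) (C : ℝ) (hf : ∀ i, ‖f i‖ ≤ C) : ‖m.m f‖ ≤ C := by
  have h := m.norm_le_norm f (fun _ => C) ⟨|C|, fun _ => le_rfl⟩ hf
  rw [m.const, Complex.ofReal_re] at h
  exact h

theorem Mean.sum (m : Mean I) {ι : Type*} (s : Finset ι) (c : ι → ℂ) (f : ι → I → ℂ)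
    (hf : ∀ j ∈ s, Bdd (f j)) :
    m.m (fun i => ∑ j ∈ s, c j * f j i) = ∑ j ∈ s, c j * m.m (f j) := by
  classical
  have key : ∀ s : Finset ι, (∀ j ∈ s, Bdd (f j)) →
      Bdd (fun i => ∑ j ∈ s, c j * f j i) ∧
      m.m (fun i => ∑ j ∈ s, c j * f j i) = ∑ j ∈ s, c j * m.m (f j) := by
    intro s
    induction s using Finset.induction_on with
    | empty =>
      intro _
      constructor
      · simpa using meana_bdd_const (I := I) 0
      · simpa using m.const 0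
    | insert a s ha ih =>
      intro h
      obtain ⟨h1, h2⟩ := ih (fun j hj => h j (Finset.mem_insert_of_mem hj))
      have h3 : (fun i => ∑ j ∈ insert a s, c j * f j i)
          = (fun i => c a * f a i + ∑ j ∈ s, c j * f j i) := by
        funext i; rw [Finset.sum_insert ha]
      have hb := meana_bdd_smul (c a) (h a (Finset.mem_insert_self a s))
      constructor
      · rw [h3]
        exact meana_bdd_add hb h1
      · rw [h3, m.add (fun i => c a * f a i) (fun i => ∑ j ∈ s, c j * f j i) hb h1, h2,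
          m.smul _ _ (h a (Finset.mem_insert_self a s)), Finset.sum_insert ha]
  exact (key s hf).2

theorem Mean.sub (m : Mean I) (f g : I → ℂ) (hf : Bdd f) (hg : Bdd g) :
    m.m (fun i => f i - g i) = m.m f - m.m g := meana_sub m f g hf hg

/-- The weak mean of a bounded family of vectors. -/
def Mean.vec (m : Mean I) (F : I → V) : V :=
  open Classical in
  if h : ∃ v : V, ∀ w : V, ⟪w, v⟫_ℂ = m.m (fun i => ⟪w, F i⟫_ℂ) then h.choose else 0

private theorem meana_inner_bdd {F : I → V} (hF : ∃ C : ℝ, ∀ i, ‖F i‖ ≤ C) (w : V) :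
    Bdd (fun i => ⟪w, F i⟫_ℂ) := by
  obtain ⟨C, hC⟩ := hF
  exact ⟨‖w‖ * C, fun i => (norm_inner_le_norm _ _).trans
    (mul_le_mul_of_nonneg_left (hC i) (norm_nonneg _))⟩

private theorem meana_inner_bdd' {F : I → V} (hF : ∃ C : ℝ, ∀ i, ‖F i‖ ≤ C) (w : V) :
    Bdd (fun i => ⟪F i, w⟫_ℂ) := by
  obtain ⟨C, hC⟩ := hF
  exact ⟨C * ‖w‖, fun i => (norm_inner_le_norm _ _).trans
    (mul_le_mul_of_nonneg_right (hC i) (norm_nonneg _))⟩

theorem Mean.inner_vec (m : Mean I) (F : I → V) (hF : ∃ C : ℝ, ∀ i, ‖F i‖ ≤ C) (w : V) :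
    ⟪w, m.vec F⟫_ℂ = m.m (fun i => ⟪w, F i⟫_ℂ) := by
  have hex : ∃ v : V, ∀ w : V, ⟪w, v⟫_ℂ = m.m (fun i => ⟪w, F i⟫_ℂ) := by
    obtain ⟨C, hC⟩ := hF
    let φ : V →ₗ[ℂ] ℂ :=
      { toFun := fun w => m.m (fun i => ⟪F i, w⟫_ℂ)
        map_add' := by
          intro a b
          have h1 : (fun i => ⟪F i, a + b⟫_ℂ) = (fun i => ⟪F i, a⟫_ℂ + ⟪F i, b⟫_ℂ) := by
            funext i; exact inner_add_right _ _ _
          rw [h1]
          exact m.add _ _ (meana_inner_bdd' ⟨C, hC⟩ a) (meana_inner_bdd' ⟨C, hC⟩ b)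
        map_smul' := by
          intro c a
          have h1 : (fun i => ⟪F i, c • a⟫_ℂ) = (fun i => c * ⟪F i, a⟫_ℂ) := by
            funext i; exact inner_smul_right _ _ _
          rw [h1, m.smul _ _ (meana_inner_bdd' ⟨C, hC⟩ a)]
          simp }
    have hφ : ∀ w, ‖φ w‖ ≤ C * ‖w‖ := fun w =>
      m.norm_le _ _ (fun i => (norm_inner_le_norm _ _).trans
        (mul_le_mul_of_nonneg_right (hC i) (norm_nonneg _)))
    let Φ : StrongDual ℂ V := φ.mkContinuous C hφ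
    refine ⟨(InnerProductSpace.toDual ℂ V).symm Φ, fun w => ?_⟩
    rw [← inner_conj_symm, InnerProductSpace.toDual_symm_apply]
    have h2 : Φ w = m.m (fun i => ⟪F i, w⟫_ℂ) := rfl
    rw [h2, ← m.conj _ (meana_inner_bdd' ⟨C, hC⟩ w)]
    congr 1
    funext i
    exact inner_conj_symm _ _
  rw [Mean.vec, dif_pos hex]
  exact hex.choose_spec w

/-- A mean of points of a closed convex set is in the set (compare `m.vec F` with its nearest
point: `exists_norm_eq_iInf_of_complete_convex`, `norm_eq_iInf_iff_real_inner_le_zero`). -/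
theorem Mean.vec_mem (m : Mean I) (F : I → V) (hF : ∃ C : ℝ, ∀ i, ‖F i‖ ≤ C) (S : Set V)
    (hS : IsClosed S) (hc : Convex ℝ S) (hne : Nonempty I) (hFS : ∀ i, F i ∈ S) :
    m.vec F ∈ S := by
  letI : InnerProductSpace ℝ V := InnerProductSpace.complexToReal
  obtain ⟨i0⟩ := hne
  obtain ⟨p, hp, hmin⟩ := exists_norm_eq_iInf_of_complete_convex (K := S) ⟨F i0, hFS i0⟩
    hS.isComplete hc (m.vec F)
  rw [norm_eq_iInf_iff_real_inner_le_zero hc hp] at hmin
  set u := m.vec F - p with hu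
  have h1 : ∀ i, (⟪u, F i⟫_ℂ).re ≤ (⟪u, p⟫_ℂ).re := by
    intro i
    have := hmin (F i) (hFS i)
    rw [real_inner_eq_re_inner ℂ, inner_sub_right] at this
    simpa using this
  have h2 := m.mono (fun i => (⟪u, F i⟫_ℂ).re) (fun _ => (⟪u, p⟫_ℂ).re)
    (meana_re_bdd (meana_inner_bdd hF u)) ⟨|(⟪u, p⟫_ℂ).re|, fun _ => le_rfl⟩ h1
  rw [m.re _ (meana_inner_bdd hF u), m.const, Complex.ofReal_re, Complex.ofReal_re,
    ← m.inner_vec F hF u] at h2
  have h3 : (⟪u, u⟫_ℂ).re ≤ 0 := by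
    have : ⟪u, u⟫_ℂ = ⟪u, m.vec F⟫_ℂ - ⟪u, p⟫_ℂ := by
      rw [← inner_sub_right]
    rw [this, Complex.sub_re]
    linarith
  have h4 : u = 0 := by
    have h5 : (⟪u, u⟫_ℂ).re = ‖u‖ ^ 2 := by
      rw [inner_self_eq_norm_sq_to_K]
      norm_cast
    rw [h5] at h3
    have : ‖u‖ = 0 := by nlinarith [norm_nonneg u]
    exact norm_eq_zero.mp this
  have h6 : m.vec F = p := sub_eq_zero.mp (hu ▸ h4)
  rw [h6]
  exact hp

theorem Mean.norm_vec_le (m : Mean I) (F : I → V) (C : ℝ) (hF : ∀ i, ‖F i‖ ≤ C) (hC : 0 ≤ C) :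
    ‖m.vec F‖ ≤ C := by
  have h := m.inner_vec F ⟨C, hF⟩ (m.vec F)
  have h1 : ‖m.m (fun i => ⟪m.vec F, F i⟫_ℂ)‖ ≤ ‖m.vec F‖ * C :=
    m.norm_le _ _ (fun i => (norm_inner_le_norm _ _).trans
      (mul_le_mul_of_nonneg_left (hF i) (norm_nonneg _)))
  rw [← h] at h1
  have h2 : ‖⟪m.vec F, m.vec F⟫_ℂ‖ = ‖m.vec F‖ * ‖m.vec F‖ := by
    rw [inner_self_eq_norm_sq_to_K]
    simp [pow_two]
  rw [h2] at h1
  by_cases h0 : ‖m.vec F‖ = 0
  · rw [h0]; exact hC
  · exact le_of_mul_le_mul_left h1 (lt_of_le_of_ne (norm_nonneg _) (Ne.symm h0))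

theorem Mean.vec_add (m : Mean I) (F G : I → V) (hF : ∃ C : ℝ, ∀ i, ‖F i‖ ≤ C)
    (hG : ∃ C : ℝ, ∀ i, ‖G i‖ ≤ C) : m.vec (fun i => F i + G i) = m.vec F + m.vec G := by
  have hFG : ∃ C : ℝ, ∀ i, ‖F i + G i‖ ≤ C := by
    obtain ⟨C, hC⟩ := hF
    obtain ⟨D, hD⟩ := hG
    exact ⟨C + D, fun i => (norm_add_le _ _).trans (add_le_add (hC i) (hD i))⟩
  refine ext_inner_left ℂ (fun w => ?_)
  rw [inner_add_right, m.inner_vec _ hFG, m.inner_vec _ hF, m.inner_vec _ hG,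
    ← m.add _ _ (meana_inner_bdd hF w) (meana_inner_bdd hG w)]
  congr 1
  funext i
  exact inner_add_right _ _ _

theorem Mean.vec_sub (m : Mean I) (F G : I → V) (hF : ∃ C : ℝ, ∀ i, ‖F i‖ ≤ C)
    (hG : ∃ C : ℝ, ∀ i, ‖G i‖ ≤ C) : m.vec (fun i => F i - G i) = m.vec F - m.vec G := by
  have hFG : ∃ C : ℝ, ∀ i, ‖F i - G i‖ ≤ C := by
    obtain ⟨C, hC⟩ := hF
    obtain ⟨D, hD⟩ := hG
    exact ⟨C + D, fun i => (norm_sub_le _ _).trans (add_le_add (hC i) (hD i))⟩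
  refine ext_inner_left ℂ (fun w => ?_)
  rw [inner_sub_right, m.inner_vec _ hFG, m.inner_vec _ hF, m.inner_vec _ hG,
    ← m.sub _ _ (meana_inner_bdd hF w) (meana_inner_bdd hG w)]
  congr 1
  funext i
  exact inner_sub_right _ _ _

theorem Mean.vec_const (m : Mean I) (v : V) : m.vec (fun _ => v) = v := by
  refine ext_inner_left ℂ (fun w => ?_)
  rw [m.inner_vec _ ⟨‖v‖, fun _ => le_rfl⟩, m.const]

theorem Mean.vec_map (m : Mean I) (F : I → V) (hF : ∃ C : ℝ, ∀ i, ‖F i‖ ≤ C)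
    (A : V →L[ℂ] W) : m.vec (fun i => A (F i)) = A (m.vec F) := by
  have hAF : ∃ C : ℝ, ∀ i, ‖A (F i)‖ ≤ C := by
    obtain ⟨C, hC⟩ := hF
    exact ⟨‖A‖ * C, fun i => (A.le_opNorm _).trans
      (mul_le_mul_of_nonneg_left (hC i) (norm_nonneg _))⟩
  refine ext_inner_left ℂ (fun w => ?_)
  rw [m.inner_vec _ hAF, ← ContinuousLinearMap.adjoint_inner_left, m.inner_vec _ hF]
  congr 1
  funext i
  rw [ContinuousLinearMap.adjoint_inner_left]

/-- The weak mean of a bounded family of operators. -/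
def Mean.op (m : Mean I) (T : I → V →L[ℂ] W) : V →L[ℂ] W :=
  open Classical in
  if h : ∃ A : V →L[ℂ] W, ∀ v w, ⟪w, A v⟫_ℂ = m.m (fun i => ⟪w, T i v⟫_ℂ) then h.choose else 0

private theorem meana_op_bdd {T : I → V →L[ℂ] W} (hT : ∃ C : ℝ, ∀ i, ‖T i‖ ≤ C) (v : V) :
    ∃ C : ℝ, ∀ i, ‖T i v‖ ≤ C := by
  obtain ⟨C, hC⟩ := hT
  exact ⟨C * ‖v‖, fun i => ((T i).le_opNorm _).trans
    (mul_le_mul_of_nonneg_right (hC i) (norm_nonneg _))⟩

private theorem meana_op_exists (m : Mean I) (T : I → V →L[ℂ] W)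
    (hT : ∃ C : ℝ, ∀ i, ‖T i‖ ≤ C) :
    ∃ A : V →L[ℂ] W, ∀ v, A v = m.vec (fun i => T i v) := by
  obtain ⟨C, hC⟩ := hT
  have hC0 : 0 ≤ C := by
    obtain ⟨i⟩ := meana_nonempty m
    exact (norm_nonneg _).trans (hC i)
  let φ : V →ₗ[ℂ] W :=
    { toFun := fun v => m.vec (fun i => T i v)
      map_add' := by
        intro a b
        rw [← m.vec_add _ _ (meana_op_bdd ⟨C, hC⟩ a) (meana_op_bdd ⟨C, hC⟩ b)]
        congr 1
        funext i
        exact map_add _ _ _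
      map_smul' := by
        intro c a
        have h1 : (fun i => T i (c • a)) = (fun i => (c • ContinuousLinearMap.id ℂ W) (T i a)) := by
          funext i; simp
        rw [h1, m.vec_map _ (meana_op_bdd ⟨C, hC⟩ a)]
        simp }
  refine ⟨φ.mkContinuous C (fun v => ?_), fun v => rfl⟩
  exact m.norm_vec_le _ _ (fun i => ((T i).le_opNorm _).trans
    (mul_le_mul_of_nonneg_right (hC i) (norm_nonneg _))) (mul_nonneg hC0 (norm_nonneg _))

theorem Mean.inner_op (m : Mean I) (T : I → V →L[ℂ] W) (hT : ∃ C : ℝ, ∀ i, ‖T i‖ ≤ C)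
    (v : V) (w : W) : ⟪w, m.op T v⟫_ℂ = m.m (fun i => ⟪w, T i v⟫_ℂ) := by
  have hex : ∃ A : V →L[ℂ] W, ∀ v w, ⟪w, A v⟫_ℂ = m.m (fun i => ⟪w, T i v⟫_ℂ) := by
    obtain ⟨A, hA⟩ := meana_op_exists m T hT
    refine ⟨A, fun v w => ?_⟩
    rw [hA, m.inner_vec _ (meana_op_bdd hT v)]
  rw [Mean.op, dif_pos hex]
  exact hex.choose_spec v w

theorem Mean.op_apply (m : Mean I) (T : I → V →L[ℂ] W) (hT : ∃ C : ℝ, ∀ i, ‖T i‖ ≤ C)
    (v : V) : m.op T v = m.vec (fun i => T i v) := by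
  refine ext_inner_left ℂ (fun w => ?_)
  rw [m.inner_op T hT, m.inner_vec _ (meana_op_bdd hT v)]

theorem Mean.norm_op_le (m : Mean I) (T : I → V →L[ℂ] W) (C : ℝ) (hC : 0 ≤ C)
    (hT : ∀ i, ‖T i‖ ≤ C) : ‖m.op T‖ ≤ C := by
  refine ContinuousLinearMap.opNorm_le_bound _ hC (fun v => ?_)
  rw [m.op_apply T ⟨C, hT⟩]
  exact m.norm_vec_le _ _ (fun i => ((T i).le_opNorm _).trans
    (mul_le_mul_of_nonneg_right (hT i) (norm_nonneg _))) (mul_nonneg hC (norm_nonneg _))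

private theorem meana_op_ext (m : Mean I) (T : I → V →L[ℂ] W) (hT : ∃ C : ℝ, ∀ i, ‖T i‖ ≤ C)
    (A : V →L[ℂ] W) (h : ∀ v w, m.m (fun i => ⟪w, T i v⟫_ℂ) = ⟪w, A v⟫_ℂ) : m.op T = A := by
  ext v
  refine ext_inner_left ℂ (fun w => ?_)
  rw [m.inner_op T hT, h]

theorem Mean.op_star (m : Mean I) (T : I → V →L[ℂ] V) (hT : ∃ C : ℝ, ∀ i, ‖T i‖ ≤ C) :
    m.op (fun i => star (T i)) = star (m.op T) := by
  have hT' : ∃ C : ℝ, ∀ i, ‖star (T i)‖ ≤ C := by
    obtain ⟨C, hC⟩ := hT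
    exact ⟨C, fun i => by rw [norm_star]; exact hC i⟩
  refine meana_op_ext m _ hT' _ (fun v w => ?_)
  rw [ContinuousLinearMap.star_eq_adjoint, ContinuousLinearMap.adjoint_inner_right,
    ← inner_conj_symm, m.inner_op T hT, ← m.conj _ (meana_inner_bdd (meana_op_bdd hT w) v)]
  congr 1
  funext i
  rw [inner_conj_symm, ContinuousLinearMap.star_eq_adjoint,
    ContinuousLinearMap.adjoint_inner_right]

/-- left multiplication by a fixed operator -/
theorem Mean.op_mul_left (m : Mean I) (T : I → V →L[ℂ] V) (hT : ∃ C : ℝ, ∀ i, ‖T i‖ ≤ C)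
    (A : V →L[ℂ] V) : m.op (fun i => A * T i) = A * m.op T := by
  have hT' : ∃ C : ℝ, ∀ i, ‖A * T i‖ ≤ C := by
    obtain ⟨C, hC⟩ := hT
    exact ⟨‖A‖ * C, fun i => (norm_mul_le _ _).trans
      (mul_le_mul_of_nonneg_left (hC i) (norm_nonneg _))⟩
  refine meana_op_ext m _ hT' _ (fun v w => ?_)
  rw [mul_apply_eq_comp, ← ContinuousLinearMap.adjoint_inner_left,
    m.inner_op T hT]
  congr 1
  funext i
  rw [mul_apply_eq_comp, ContinuousLinearMap.adjoint_inner_left]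

/-- right multiplication by a fixed operator -/
theorem Mean.op_mul_right (m : Mean I) (T : I → V →L[ℂ] V) (hT : ∃ C : ℝ, ∀ i, ‖T i‖ ≤ C)
    (A : V →L[ℂ] V) : m.op (fun i => T i * A) = m.op T * A := by
  have hT' : ∃ C : ℝ, ∀ i, ‖T i * A‖ ≤ C := by
    obtain ⟨C, hC⟩ := hT
    exact ⟨C * ‖A‖, fun i => (norm_mul_le _ _).trans
      (mul_le_mul_of_nonneg_right (hC i) (norm_nonneg _))⟩
  refine meana_op_ext m _ hT' _ (fun v w => ?_)
  rw [mul_apply_eq_comp, m.inner_op T hT]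
  rfl

theorem Mean.op_mem (m : Mean I) (T : I → V →L[ℂ] V) (hT : ∃ C : ℝ, ∀ i, ‖T i‖ ≤ C)
    (N : VonNeumannAlgebra V) (hN : ∀ i, T i ∈ N) : m.op T ∈ N := by
  rw [← N.commutant_commutant, VonNeumannAlgebra.mem_commutant_iff]
  intro g hg
  rw [VonNeumannAlgebra.mem_commutant_iff] at hg
  rw [← m.op_mul_left T hT g, ← m.op_mul_right T hT g]
  congr 1
  funext i
  exact (hg (T i) (hN i)).symm

end

end Pool.H62.UC
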