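import Pool.Agent.H62.UC.MeanA

/-!
# MEANB: constructions of means
-/

namespace Pool.H62.UC

open scoped InnerProductSpace TensorProduct ComplexConjugate
open Filter Topology

noncomputable section


variable {I J : Type*}

/-- point evaluation -/
def Mean.dirac (i : I) : Mean I where
  m f := f i
  add _ _ _ _ := rfl
  smul _ _ _ := rfl
  const _ := rfl
  nonneg f _ h := by simpa using h i

private theorem meanB_bdd (k : I → Mean J) (f : J → ℂ) (hf : Bdd f) :
    Bdd (fun i => (k i).m f) := by
  obtain ⟨C, hC⟩ := hf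
  exact ⟨C, fun i => Mean.norm_le (k i) f C hC⟩

/-- composition of means: first choose `i` by `m`, then `j` by `k i` -/
def Mean.bind (m : Mean I) (k : I → Mean J) : Mean J where
  m f := m.m (fun i => (k i).m f)
  add f g hf hg := by
    have h1 : (fun i => (k i).m (fun j => f j + g j)) = fun i => (k i).m f + (k i).m g := by
      funext i
      exact (k i).add f g hf hg
    rw [h1]
    exact m.add _ _ (meanB_bdd k f hf) (meanB_bdd k g hg)
  smul c f hf := by
    have h1 : (fun i => (k i).m (fun j => c * f j)) = fun i => c * (k i).m f := by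
      funext i
      exact (k i).smul c f hf
    rw [h1]
    exact m.smul c _ (meanB_bdd k f hf)
  const c := by
    have h1 : (fun i => (k i).m (fun _ => c)) = fun _ => c := by
      funext i
      exact (k i).const c
    rw [h1]
    exact m.const c
  nonneg f hf h := by
    have h1 : (fun i => (k i).m (fun j => (f j : ℂ))) =
        fun i => (((k i).m (fun j => (f j : ℂ))).re : ℂ) := by
      funext i
      refine Complex.ext rfl ?_
      rw [Complex.ofReal_im]
      exact ((k i).nonneg f hf h).2
    rw [h1]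
    obtain ⟨C, hC⟩ := hf
    refine m.nonneg _ ⟨C, fun i => ?_⟩ fun i => ((k i).nonneg f ⟨C, hC⟩ h).1
    refine (Complex.abs_re_le_norm _).trans (Mean.norm_le (k i) _ C fun j => ?_)
    rw [Complex.norm_real]
    exact hC j

/-- push forward -/
def Mean.map (m : Mean I) (g : I → J) : Mean J := m.bind (fun i => Mean.dirac (g i))

private theorem meanB_lim (F : Ultrafilter I) (f : I → ℂ) (hf : Bdd f) :
    ∃ x, Tendsto f F (𝓝 x) := by
  obtain ⟨C, hC⟩ := hf
  have hcomp : IsCompact (Metric.closedBall (0 : ℂ) C) := isCompact_closedBall 0 C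
  obtain ⟨x, -, hx⟩ := hcomp.ultrafilter_le_nhds (F.map f) (by
    rw [le_principal_iff]
    exact Filter.mem_map.2 (Filter.univ_mem' fun i => by simpa using hC i))
  exact ⟨x, hx⟩

private theorem meanB_limUnder (F : Ultrafilter I) (f : I → ℂ) (hf : Bdd f) :
    Tendsto f F (𝓝 (limUnder (F : Filter I) f)) := tendsto_nhds_limUnder (meanB_lim F f hf)

/-- limit along an ultrafilter -/
def Mean.ultra (F : Ultrafilter I) : Mean I where
  m f := limUnder (F : Filter I) f
  add f g hf hg :=
    ((meanB_limUnder F f hf).add (meanB_limUnder F g hg)).limUnder_eq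
  smul c f hf := ((meanB_limUnder F f hf).const_mul c).limUnder_eq
  const c := tendsto_const_nhds.limUnder_eq
  nonneg f hf h := by
    have hb : Bdd (fun i => (f i : ℂ)) := by
      obtain ⟨C, hC⟩ := hf
      exact ⟨C, fun i => by rw [Complex.norm_real]; exact hC i⟩
    have h1 := meanB_limUnder F _ hb
    have h2 := (Complex.continuous_re.tendsto _).comp h1
    have h3 := (Complex.continuous_im.tendsto _).comp h1
    refine ⟨ge_of_tendsto' h2 fun i => ?_, ?_⟩
    · simpa using h i
    · refine tendsto_nhds_unique h3 ?_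
      have : (Complex.im ∘ fun i => (f i : ℂ)) = fun _ => 0 := by
        funext i
        simp
      rw [this]
      exact tendsto_const_nhds

theorem Mean.ultra_tendsto (F : Ultrafilter I) (f : I → ℂ) (hf : Bdd f) :
    Tendsto f F (𝓝 ((Mean.ultra F).m f)) := meanB_limUnder F f hf

private theorem meanB_summable (f : ℕ → ℂ) (hf : Bdd f) :
    Summable (fun l => (1 / 2 : ℂ) ^ (l + 1) * f l) := by
  obtain ⟨C, hC⟩ := hf
  refine Summable.of_norm_bounded (g := fun l => (1 / 2 : ℝ) ^ (l + 1) * C) ?_ fun l => ?_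
  · exact ((summable_nat_add_iff 1).2 summable_geometric_two).mul_right C
  · rw [norm_mul, norm_pow]
    have : ‖(1 / 2 : ℂ)‖ = 1 / 2 := by norm_num
    rw [this]
    exact mul_le_mul_of_nonneg_left (hC l) (by positivity)

/-- `f ↦ ∑ 2^{-(l+1)} f l` -/
def Mean.wsum : Mean ℕ where
  m f := ∑' l, (1 / 2 : ℂ) ^ (l + 1) * f l
  add f g hf hg := by
    rw [← (meanB_summable f hf).tsum_add (meanB_summable g hg)]
    refine tsum_congr fun l => ?_
    ring
  smul c f hf := by
    rw [← tsum_mul_left]
    refine tsum_congr fun l => ?_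
    ring
  const c := by
    rw [tsum_mul_right]
    have h1 : ∑' l : ℕ, (1 / 2 : ℂ) ^ (l + 1) = 1 := by
      simp_rw [pow_succ]
      rw [tsum_mul_right, tsum_geometric_of_norm_lt_one (by norm_num)]
      norm_num
    rw [h1, one_mul]
  nonneg f hf h := by
    have h1 : ∑' l : ℕ, (1 / 2 : ℂ) ^ (l + 1) * (f l : ℂ) =
        ((∑' l : ℕ, (1 / 2 : ℝ) ^ (l + 1) * f l : ℝ) : ℂ) := by
      rw [Complex.ofReal_tsum]
      refine tsum_congr fun l => ?_
      push_cast
      ring
    rw [h1, Complex.ofReal_re, Complex.ofReal_im]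
    exact ⟨tsum_nonneg fun l => mul_nonneg (by positivity) (h l), rfl⟩

/-- `f ↦ (f 0 + ... + f J) / (J + 1)` -/
def Mean.avg (J : ℕ) : Mean ℕ where
  m f := (∑ j ∈ Finset.range (J + 1), f j) / (J + 1)
  add f g hf hg := by
    rw [Finset.sum_add_distrib, add_div]
  smul c f hf := by
    rw [← Finset.mul_sum, mul_div_assoc]
  const c := by
    have h1 : ((J : ℂ) + 1) ≠ 0 := Nat.cast_add_one_ne_zero J
    rw [Finset.sum_const, Finset.card_range, nsmul_eq_mul]
    push_cast
    field_simp
  nonneg f hf h := by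
    have h1 : (∑ j ∈ Finset.range (J + 1), (f j : ℂ)) / ((J : ℂ) + 1) =
        (((∑ j ∈ Finset.range (J + 1), f j) / ((J : ℝ) + 1) : ℝ) : ℂ) := by
      push_cast
      rfl
    rw [h1, Complex.ofReal_re, Complex.ofReal_im]
    exact ⟨div_nonneg (Finset.sum_nonneg fun j _ => h j) (by positivity), rfl⟩

/-- the law of a random word of length `k` with independent letters of law `m` (first letter
chosen first) -/
def Mean.words (m : Mean I) : ℕ → Mean (List I)
  | 0 => Mean.dirac []
  | k + 1 => m.bind (fun i => (Mean.words m k).map (fun w => i :: w))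

/-- the letters are indexed by `(n, n', l)` : ultrafilter limits in `n, n'`, weights in `l` -/
def mNN (F : Ultrafilter ℕ) : Mean (ℕ × ℕ) :=
  (Mean.ultra F).bind (fun n => (Mean.ultra F).map (fun n' => (n, n')))

def mI (F : Ultrafilter ℕ) : Mean ((ℕ × ℕ) × ℕ) :=
  (mNN F).bind (fun p => Mean.wsum.map (fun l => (p, l)))

/-- left part: a word `L` of random length `≤ J` followed by a pair `(n, n')` -/
def mL (F : Ultrafilter ℕ) (J : ℕ) : Mean (List ((ℕ × ℕ) × ℕ) × (ℕ × ℕ)) :=
  (Mean.avg J).bind (fun j => ((mI F).words j).bind (fun L => (mNN F).map (fun p => (L, p))))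

/-- right part: a word `R` of random length `≤ J` -/
def mR (F : Ultrafilter ℕ) (J : ℕ) : Mean (List ((ℕ × ℕ) × ℕ)) :=
  (Mean.avg J).bind (fun j => (mI F).words j)

/-- the limits `J → ∞` -/
def mLω (F : Ultrafilter ℕ) : Mean (List ((ℕ × ℕ) × ℕ) × (ℕ × ℕ)) := (Mean.ultra F).bind (mL F)

def mRω (F : Ultrafilter ℕ) : Mean (List ((ℕ × ℕ) × ℕ)) := (Mean.ultra F).bind (mR F)

/-- the double limit `lim_J lim_J'` of `mL J ⊗ mR J'` -/
def mLR (F : Ultrafilter ℕ) :
    Mean ((List ((ℕ × ℕ) × ℕ) × (ℕ × ℕ)) × List ((ℕ × ℕ) × ℕ)) :=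
  (Mean.ultra F).bind (fun J => (Mean.ultra F).bind (fun J' =>
    (mL F J).bind (fun c => (mR F J').map (fun R => (c, R)))))

theorem Mean.bind_m (m : Mean I) (k : I → Mean J) (f : J → ℂ) :
    (m.bind k).m f = m.m (fun i => (k i).m f) := rfl

theorem Mean.map_m (m : Mean I) (g : I → J) (f : J → ℂ) :
    (m.map g).m f = m.m (fun i => f (g i)) := rfl

theorem Mean.words_succ (m : Mean I) (k : ℕ) (f : List I → ℂ) :
    (m.words (k + 1)).m f = m.m (fun i => (m.words k).m (fun w => f (i :: w))) := rfl

end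

end Pool.H62.UC
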