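import Pool.Agent.H62.UC.Comm
import Pool.Agent.H62.UC.MeanA
import Pool.Agent.H62.UC.MeanB
import Pool.Agent.H62.UC.JuncA
import Pool.Agent.H62.UC.CloseA

/-!
# DECA: the central projection of the atomic part

Let `C` be the set of weak (ultrafilter) limits of unitaries of `M`:
`C = {w ∈ M | ∃ F : Ultrafilter (H →L[ℂ] H), (∀ᶠ u in F, u ∈ UM S) ∧ ∀ ζ ω, ⟪ζ, u ω⟫ → ⟪ζ, w ω⟫}`.
For every ultrafilter `F` containing `UM S` the limit exists: `w = (Mean.ultra F).op` of the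
identity cut off outside the unit ball, or Riesz directly; it is in `M` and `‖w‖ ≤ 1`.
* `C` is a semigroup, star-closed, contains `UM S` (iterated limits: `Ultrafilter.bind`/`map`;
  for fixed `w` the maps `x ↦ x w`, `x ↦ w x` are weakly continuous).
* there is `w ∈ C` minimising `‖w Ω‖` (limit of a minimising sequence along an ultrafilter on `ℕ`,
  weak lower semicontinuity of the norm; the limit of the limits is in `C` by `Ultrafilter.bind`).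
* `e = w* w ∈ C`: `‖w* w Ω‖ ≤ ‖w Ω‖`, so equality; `⟪w Ω, (1 - w w*) w Ω⟫ = 0` and
  `1 - w w* ≥ 0`, so `w w* w = w` and `e` is a projection with `‖e Ω‖ = ‖w Ω‖` minimal in `C`.
* central: for `u ∈ UM S`: `e u e ∈ C`, `‖e u e Ω‖ ≥ ‖e Ω‖ = ‖u e Ω‖`, so `(1 - e) u e Ω = 0`,
  `(1 - e) u e = 0` for all unitaries, hence (star) `e u = e u e = u e`; `four_unitaries`.
* compactness: let `F` be an ultrafilter containing `UM S`, with limit `w ∈ C`. `e w ∈ C` so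
  `‖e Ω‖ ≤ ‖e w Ω‖ = ‖w e Ω‖`, and `u e Ω → w e Ω` weakly with `‖u e Ω‖ = ‖e Ω‖`, so in norm.
  So every ultrafilter on `{u e Ω}` converges: the closure is compact.
-/

namespace Pool.H62.UC

open scoped InnerProductSpace TensorProduct ComplexConjugate
open Filter Topology

noncomputable section

variable {H : Type*} [NormedAddCommGroup H] [InnerProductSpace ℂ H] [CompleteSpace H]
variable {K : Type*} [NormedAddCommGroup K] [InnerProductSpace ℂ K] [CompleteSpace K]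

/-- the weak embedding of operators -/
def decaF (x : H →L[ℂ] H) : H × H → ℂ := fun p => ⟪p.1, x p.2⟫_ℂ

/-- weak limits of unitaries of `M` -/
def decaC (S : Std H K) : Set (H →L[ℂ] H) := {w | decaF w ∈ closure (decaF '' UM S)}

omit [CompleteSpace H] in
theorem deca_norm_inner (a : H) : ‖⟪a, a⟫_ℂ‖ = ‖a‖ * ‖a‖ := by
  rw [inner_self_eq_norm_sq_to_K]
  simp [pow_two]

theorem deca_ultra (S : Std H K) {w : H →L[ℂ] H} (hw : w ∈ decaC S) :
    ∃ F : Ultrafilter (H →L[ℂ] H), (∀ᶠ u in (F : Filter (H →L[ℂ] H)), u ∈ UM S) ∧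
      Tendsto decaF (F : Filter (H →L[ℂ] H)) (𝓝 (decaF w)) := by
  have h1 : MapClusterPt (decaF w) (𝓟 (UM S)) decaF := by
    rw [MapClusterPt, Filter.map_principal]
    exact mem_closure_iff_clusterPt.1 hw
  obtain ⟨U, hU, hT⟩ := mapClusterPt_iff_ultrafilter.1 h1
  exact ⟨U, le_principal_iff.1 hU, hT⟩

theorem deca_UM (S : Std H K) {u : H →L[ℂ] H} (hu : u ∈ UM S) : u ∈ decaC S :=
  subset_closure ⟨u, hu, rfl⟩

theorem deca_lim {I : Type*} (F : Ultrafilter I) (T : I → H →L[ℂ] H) (hT : ∀ i, ‖T i‖ ≤ 1) :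
    ∃ w : H →L[ℂ] H, Tendsto (fun i => decaF (T i)) (F : Filter I) (𝓝 (decaF w)) := by
  refine ⟨(Mean.ultra F).op T, tendsto_pi_nhds.2 fun p => ?_⟩
  have hb : Bdd (fun i => ⟪p.1, T i p.2⟫_ℂ) := by
    refine ⟨‖p.1‖ * ‖p.2‖, fun i => (norm_inner_le_norm _ _).trans ?_⟩
    refine mul_le_mul_of_nonneg_left (((T i).le_opNorm _).trans ?_) (norm_nonneg _)
    calc ‖T i‖ * ‖p.2‖ ≤ 1 * ‖p.2‖ := mul_le_mul_of_nonneg_right (hT i) (norm_nonneg _)
      _ = ‖p.2‖ := one_mul _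
  have h1 := Mean.ultra_tendsto F _ hb
  rw [← Mean.inner_op (Mean.ultra F) T ⟨1, hT⟩] at h1
  exact h1

theorem deca_lim_C (S : Std H K) {I : Type*} (F : Ultrafilter I) (T : I → H →L[ℂ] H)
    (hT : ∀ i, ‖T i‖ ≤ 1) (hC : ∀ᶠ i in (F : Filter I), T i ∈ decaC S) :
    ∃ w ∈ decaC S, Tendsto (fun i => decaF (T i)) (F : Filter I) (𝓝 (decaF w)) := by
  obtain ⟨w, hw⟩ := deca_lim F T hT
  exact ⟨w, isClosed_closure.mem_of_tendsto hw hC, hw⟩

/-- closed conditions pass to `C` -/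
theorem deca_closed (S : Std H K) (P : Set (H × H → ℂ)) (hP : IsClosed P)
    (hu : ∀ u ∈ UM S, decaF u ∈ P) {w : H →L[ℂ] H} (hw : w ∈ decaC S) : decaF w ∈ P := by
  refine closure_minimal ?_ hP hw
  rintro _ ⟨u, h, rfl⟩
  exact hu u h

theorem deca_map (S : Std H K) (g : (H × H → ℂ) → (H × H → ℂ)) (hg : Continuous g)
    (f : (H →L[ℂ] H) → (H →L[ℂ] H)) (hfg : ∀ x, g (decaF x) = decaF (f x))
    (hu : ∀ u ∈ UM S, f u ∈ decaC S) {w : H →L[ℂ] H} (hw : w ∈ decaC S) : f w ∈ decaC S := by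
  have h1 := deca_closed S (g ⁻¹' closure (decaF '' UM S)) (isClosed_closure.preimage hg)
    (fun u h => by
      rw [Set.mem_preimage, hfg]
      exact hu u h) hw
  rw [Set.mem_preimage, hfg] at h1
  exact h1

theorem deca_mul (S : Std H K) {w v : H →L[ℂ] H} (hw : w ∈ decaC S) (hv : v ∈ decaC S) :
    w * v ∈ decaC S := by
  have h1 : ∀ u ∈ UM S, ∀ x ∈ decaC S, x * u ∈ decaC S := by
    intro u hu x hx
    refine deca_map S (fun g p => g (p.1, u p.2)) (continuous_pi fun p => continuous_apply _)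
      (fun x => x * u) (fun x => ?_) (fun y hy => deca_UM S (UM_mul S hy hu)) hx
    rfl
  refine deca_map S (fun g p => g ((star w) p.1, p.2)) (continuous_pi fun p => continuous_apply _)
      (fun x => w * x) (fun x => ?_) (fun y hy => h1 y hy w hw) hv
  funext p
  show ⟪(star w) p.1, x p.2⟫_ℂ = ⟪p.1, w (x p.2)⟫_ℂ
  rw [jop_inner_right w]

theorem deca_star (S : Std H K) {w : H →L[ℂ] H} (hw : w ∈ decaC S) : star w ∈ decaC S := by
  refine deca_map S (fun g p => conj (g (p.2, p.1)))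
    (continuous_pi fun p => Complex.continuous_conj.comp (continuous_apply _))
      (fun x => star x) (fun x => ?_) (fun y hy => deca_UM S (UM_star S hy)) hw
  funext p
  show conj ⟪p.2, x p.1⟫_ℂ = ⟪p.1, (star x) p.2⟫_ℂ
  rw [inner_conj_symm, jop_inner_left]

theorem deca_mem (S : Std H K) {w : H →L[ℂ] H} (hw : w ∈ decaC S) : w ∈ S.M := by
  rw [← S.M.commutant_commutant, VonNeumannAlgebra.mem_commutant_iff]
  intro z hz
  have h1 := deca_closed S (⋂ p : H × H, {g | g ((star z) p.1, p.2) = g (p.1, z p.2)})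
    (isClosed_iInter fun p => isClosed_eq (continuous_apply _) (continuous_apply _))
    (fun u hu => by
      refine Set.mem_iInter.2 fun p => ?_
      show ⟪(star z) p.1, u p.2⟫_ℂ = ⟪p.1, u (z p.2)⟫_ℂ
      rw [← jop_inner_right]
      have h2 : z * u = u * z := by
        rw [VonNeumannAlgebra.mem_commutant_iff] at hz
        exact (hz u hu.1).symm
      have h3 := congrArg (fun T : H →L[ℂ] H => T p.2) h2
      exact congrArg (fun v => ⟪p.1, v⟫_ℂ) h3) hw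
  rw [Set.mem_iInter] at h1
  ext ω
  refine ext_inner_left ℂ fun ζ => ?_
  have h2 : ⟪(star z) ζ, w ω⟫_ℂ = ⟪ζ, w (z ω)⟫_ℂ := h1 (ζ, ω)
  show ⟪ζ, z (w ω)⟫_ℂ = ⟪ζ, w (z ω)⟫_ℂ
  rw [← h2, jop_inner_right]

theorem deca_norm (S : Std H K) {w : H →L[ℂ] H} (hw : w ∈ decaC S) : ‖w‖ ≤ 1 := by
  have h1 := deca_closed S (⋂ p : H × H, {g | ‖g p‖ ≤ ‖p.1‖ * ‖p.2‖})
    (isClosed_iInter fun p => isClosed_le (continuous_apply p).norm continuous_const)
    (fun u hu => by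
      refine Set.mem_iInter.2 fun p => ?_
      show ‖⟪p.1, u p.2⟫_ℂ‖ ≤ ‖p.1‖ * ‖p.2‖
      refine (norm_inner_le_norm _ _).trans (mul_le_mul_of_nonneg_left ?_ (norm_nonneg _))
      calc ‖u p.2‖ ≤ ‖u‖ * ‖p.2‖ := u.le_opNorm _
        _ ≤ 1 * ‖p.2‖ := mul_le_mul_of_nonneg_right (UM_norm S hu) (norm_nonneg _)
        _ = ‖p.2‖ := one_mul _) hw
  rw [Set.mem_iInter] at h1
  refine ContinuousLinearMap.opNorm_le_bound _ zero_le_one fun ω => ?_
  rw [one_mul]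
  have h2 : ‖⟪w ω, w ω⟫_ℂ‖ ≤ ‖w ω‖ * ‖ω‖ := h1 (w ω, ω)
  rw [deca_norm_inner] at h2
  by_cases h0 : ‖w ω‖ = 0
  · rw [h0]; exact norm_nonneg _
  · exact le_of_mul_le_mul_left h2 (lt_of_le_of_ne (norm_nonneg _) (Ne.symm h0))

theorem deca_apply_le (S : Std H K) {w : H →L[ℂ] H} (hw : w ∈ decaC S) (ζ : H) :
    ‖w ζ‖ ≤ ‖ζ‖ := by
  calc ‖w ζ‖ ≤ ‖w‖ * ‖ζ‖ := w.le_opNorm _
    _ ≤ 1 * ‖ζ‖ := mul_le_mul_of_nonneg_right (deca_norm S hw) (norm_nonneg _)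
    _ = ‖ζ‖ := one_mul _

theorem deca_min (S : Std H K) : ∃ w ∈ decaC S, ∀ v ∈ decaC S, ‖w S.Ω‖ ≤ ‖v S.Ω‖ := by
  set A : Set ℝ := (fun w : H →L[ℂ] H => ‖w S.Ω‖) '' decaC S with hA
  have hne : A.Nonempty := ⟨_, 1, deca_UM S (UM_one S), rfl⟩
  have hbd : BddBelow A := ⟨0, by rintro _ ⟨w, -, rfl⟩; exact norm_nonneg _⟩
  have h1 : ∀ n : ℕ, ∃ w ∈ decaC S, ‖w S.Ω‖ < sInf A + 1 / ((n : ℝ) + 1) := by
    intro n
    obtain ⟨_, ⟨w, hw, rfl⟩, h⟩ := exists_lt_of_csInf_lt hne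
      (show sInf A < sInf A + 1 / ((n : ℝ) + 1) from lt_add_of_pos_right _ (by positivity))
    exact ⟨w, hw, h⟩
  choose T hT hT2 using h1
  obtain ⟨w, hw, hlim⟩ := deca_lim_C S (Filter.hyperfilter ℕ) T (fun n => deca_norm S (hT n))
    (Filter.Eventually.of_forall hT)
  refine ⟨w, hw, fun v hv => ?_⟩
  refine le_trans ?_ (csInf_le hbd ⟨v, hv, rfl⟩)
  have h2 : Tendsto (fun n => ⟪w S.Ω, T n S.Ω⟫_ℂ) (Filter.hyperfilter ℕ : Filter ℕ)
      (𝓝 ⟪w S.Ω, w S.Ω⟫_ℂ) := (tendsto_pi_nhds.1 hlim) (w S.Ω, S.Ω)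
  have h3 : Tendsto (fun n : ℕ => ‖w S.Ω‖ * (sInf A + 1 / ((n : ℝ) + 1)))
      (Filter.hyperfilter ℕ : Filter ℕ) (𝓝 (‖w S.Ω‖ * (sInf A + 0))) :=
    ((tendsto_one_div_add_atTop_nhds_zero_nat.const_add _).const_mul _).mono_left
      Nat.hyperfilter_le_atTop
  have h4 := le_of_tendsto_of_tendsto h2.norm h3 (Filter.Eventually.of_forall fun n =>
    (norm_inner_le_norm _ _).trans
      (mul_le_mul_of_nonneg_left (hT2 n).le (norm_nonneg _)))
  rw [deca_norm_inner, add_zero] at h4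
  by_cases h0 : ‖w S.Ω‖ = 0
  · rw [h0]
    refine le_csInf hne ?_
    rintro _ ⟨w, -, rfl⟩
    exact norm_nonneg _
  · exact le_of_mul_le_mul_left h4 (lt_of_le_of_ne (norm_nonneg _) (Ne.symm h0))

omit [CompleteSpace H] in
theorem deca_norm_sub_sq (a b : H) :
    ‖a - b‖ ^ 2 = ‖a‖ ^ 2 - 2 * (⟪a, b⟫_ℂ).re + ‖b‖ ^ 2 := by
  have := norm_sub_sq (𝕜 := ℂ) a b
  simpa using this

theorem deca_isProj (S : Std H K) : ∃ e ∈ decaC S, IsStarProjection e ∧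
    ∀ v ∈ decaC S, ‖e S.Ω‖ ≤ ‖v S.Ω‖ := by
  obtain ⟨w, hw, hmin⟩ := deca_min S
  have hs := deca_star S hw
  have hwM := deca_mem S hw
  have he : star w * w ∈ decaC S := deca_mul S hs hw
  have h1 : ‖(star w * w) S.Ω‖ = ‖w S.Ω‖ :=
    le_antisymm (deca_apply_le S hs _) (hmin _ he)
  have h2 : w S.Ω - w ((star w * w) S.Ω) = 0 := by
    have h3 := deca_norm_sub_sq (w S.Ω) (w ((star w * w) S.Ω))
    have h4 : ⟪w S.Ω, w ((star w * w) S.Ω)⟫_ℂ = ⟪(star w * w) S.Ω, (star w * w) S.Ω⟫_ℂ := by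
      rw [jop_inner_right w]
      rfl
    have h5 : (⟪w S.Ω, w ((star w * w) S.Ω)⟫_ℂ).re = ‖w S.Ω‖ ^ 2 := by
      rw [h4, ← h1, inner_self_eq_norm_sq_to_K]
      norm_cast
    have h6 : ‖w ((star w * w) S.Ω)‖ ≤ ‖w S.Ω‖ := by
      have := deca_apply_le S hw ((star w * w) S.Ω)
      rwa [h1] at this
    rw [h5] at h3
    have h7 : ‖w ((star w * w) S.Ω)‖ ^ 2 ≤ ‖w S.Ω‖ ^ 2 :=
      pow_le_pow_left₀ (norm_nonneg _) h6 2
    have h8 : ‖w S.Ω - w ((star w * w) S.Ω)‖ ^ 2 ≤ 0 := by linarith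
    have h9 : ‖w S.Ω - w ((star w * w) S.Ω)‖ = 0 := by
      have := norm_nonneg (w S.Ω - w ((star w * w) S.Ω))
      nlinarith
    exact norm_eq_zero.1 h9
  have h3 : w - w * (star w * w) = 0 := by
    refine (isST_of S.M S.Ω S.tv).1.sep _ ?_ ?_
    · exact sub_mem hwM (mul_mem hwM (mul_mem (star_mem hwM) hwM))
    · exact h2
  have h4 : w * (star w * w) = w := (sub_eq_zero.1 h3).symm
  refine ⟨star w * w, he, ⟨?_, ?_⟩, fun v hv => ?_⟩
  · show star w * w * (star w * w) = star w * w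
    rw [mul_assoc, h4]
  · show star (star w * w) = star w * w
    rw [star_mul, star_star]
  · rw [h1]
    exact hmin v hv

theorem deca_central (S : Std H K) {e : H →L[ℂ] H} (heC : e ∈ decaC S) (he : IsStarProjection e)
    (hmin : ∀ v ∈ decaC S, ‖e S.Ω‖ ≤ ‖v S.Ω‖) : ∀ x ∈ S.M, e * x = x * e := by
  have heM := deca_mem S heC
  have hee : e * e = e := he.isIdempotentElem
  have hes : star e = e := he.isSelfAdjoint
  have h1 : ∀ u ∈ UM S, e * u * e = u * e := by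
    intro u hu
    have h2 : e * u * e ∈ decaC S := deca_mul S (deca_mul S heC (deca_UM S hu)) heC
    have h3 := hmin _ h2
    have h4 : ‖(u * e) S.Ω‖ ≤ ‖e S.Ω‖ := deca_apply_le S (deca_UM S hu) (e S.Ω)
    have h5 := deca_norm_sub_sq ((u * e) S.Ω) ((e * u * e) S.Ω)
    have h6 : ⟪(u * e) S.Ω, (e * u * e) S.Ω⟫_ℂ = ⟪(e * u * e) S.Ω, (e * u * e) S.Ω⟫_ℂ := by
      have h7 : (e * u * e) S.Ω = e ((e * u * e) S.Ω) := by
        have : e * u * e = e * (e * u * e) := by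
          simp only [← mul_assoc, hee]
        exact congrArg (fun T : H →L[ℂ] H => T S.Ω) this
      rw [h7, jop_inner_right e, hes, ← h7]
      rfl
    have h7 : (⟪(u * e) S.Ω, (e * u * e) S.Ω⟫_ℂ).re = ‖(e * u * e) S.Ω‖ ^ 2 := by
      rw [h6, inner_self_eq_norm_sq_to_K]
      norm_cast
    rw [h7] at h5
    have h8 : ‖(u * e) S.Ω‖ ^ 2 ≤ ‖(e * u * e) S.Ω‖ ^ 2 :=
      pow_le_pow_left₀ (norm_nonneg _) (h4.trans h3) 2
    have h9 : ‖(u * e) S.Ω - (e * u * e) S.Ω‖ = 0 := by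
      have := norm_nonneg ((u * e) S.Ω - (e * u * e) S.Ω)
      nlinarith
    have h10 : u * e - e * u * e = 0 := by
      refine (isST_of S.M S.Ω S.tv).1.sep _ ?_ ?_
      · exact sub_mem (mul_mem hu.1 heM) (mul_mem (mul_mem heM hu.1) heM)
      · exact norm_eq_zero.1 h9
    exact (sub_eq_zero.1 h10).symm
  have h2 : ∀ u ∈ UM S, e * u = u * e := by
    intro u hu
    have h3 := congrArg star (h1 (star u) (UM_star S hu))
    simp only [star_mul, star_star, hes] at h3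
    rw [← h3, ← mul_assoc, h1 u hu]
  intro x hx
  obtain ⟨w, c, hw, rfl⟩ := four_unitaries S x hx
  rw [Finset.mul_sum, Finset.sum_mul]
  refine Finset.sum_congr rfl fun j _ => ?_
  rw [mul_smul_comm, smul_mul_assoc, h2 _ (hw j)]

theorem deca_compact (S : Std H K) {e : H →L[ℂ] H} (heC : e ∈ decaC S)
    (hmin : ∀ v ∈ decaC S, ‖e S.Ω‖ ≤ ‖v S.Ω‖) :
    IsCompact (closure {ξ : H | ∃ u ∈ UM S, u (e S.Ω) = ξ}) := by
  classical
  refine TotallyBounded.isCompact_of_isClosed (TotallyBounded.closure ?_) isClosed_closure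
  rw [totallyBounded_iff_ultrafilter]
  intro f hf
  set m : (H →L[ℂ] H) → H := fun u => u (e S.Ω) with hm
  have hset : {ξ : H | ∃ u ∈ UM S, u (e S.Ω) = ξ} = m '' UM S := rfl
  rw [hset, le_principal_iff] at hf
  -- pull back
  have hne : (comap m (f : Filter H) ⊓ 𝓟 (UM S)).NeBot := by
    rw [← Filter.map_neBot_iff m, Filter.push_pull', Filter.map_principal]
    rw [inf_eq_left.2 (le_principal_iff.2 hf)]
    exact f.neBot
  obtain ⟨F, hF⟩ := Ultrafilter.exists_le (comap m (f : Filter H) ⊓ 𝓟 (UM S))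
  have hFU : ∀ᶠ u in (F : Filter (H →L[ℂ] H)), u ∈ UM S := le_principal_iff.1 (hF.trans inf_le_right)
  have hFf : Tendsto m F f := map_le_iff_le_comap.2 (hF.trans inf_le_left)
  have hFf2 : F.map m = f := by
    refine Ultrafilter.eq_of_le ?_
    exact hFf
  obtain ⟨w, hw, hlim⟩ := deca_lim_C S F (fun u => if u ∈ UM S then u else 0)
    (fun u => by
      by_cases h : u ∈ UM S
      · simp only [if_pos h]
        exact UM_norm S h
      · simp only [if_neg h, norm_zero]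
        exact zero_le_one)
    (hFU.mono fun u hu => by
      simp only [if_pos hu]
      exact deca_UM S hu)
  have hwe : w * e ∈ decaC S := deca_mul S hw heC
  have h1 : Tendsto (fun u : H →L[ℂ] H => ⟪w (e S.Ω), u (e S.Ω)⟫_ℂ) (F : Filter (H →L[ℂ] H))
      (𝓝 ⟪w (e S.Ω), w (e S.Ω)⟫_ℂ) := by
    have h2 := (tendsto_pi_nhds.1 hlim) (w (e S.Ω), e S.Ω)
    refine h2.congr' (hFU.mono fun u hu => ?_)
    simp only [if_pos hu]
    rfl
  have h2 : Tendsto (fun u : H →L[ℂ] H => ‖u (e S.Ω) - w (e S.Ω)‖ ^ 2) (F : Filter (H →L[ℂ] H))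
      (𝓝 0) := by
    have h3 : Tendsto (fun u : H →L[ℂ] H => ‖e S.Ω‖ ^ 2 - 2 * (⟪w (e S.Ω), u (e S.Ω)⟫_ℂ).re
        + ‖w (e S.Ω)‖ ^ 2) (F : Filter (H →L[ℂ] H))
        (𝓝 (‖e S.Ω‖ ^ 2 - 2 * (⟪w (e S.Ω), w (e S.Ω)⟫_ℂ).re + ‖w (e S.Ω)‖ ^ 2)) :=
      (((Complex.continuous_re.tendsto _).comp h1).const_mul 2 |>.const_sub _).add_const _
    have h4 : (⟪w (e S.Ω), w (e S.Ω)⟫_ℂ).re = ‖w (e S.Ω)‖ ^ 2 := by
      rw [inner_self_eq_norm_sq_to_K]
      norm_cast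
    have h5 : ‖w (e S.Ω)‖ = ‖e S.Ω‖ := le_antisymm (deca_apply_le S hw _) (hmin _ hwe)
    rw [h4, h5] at h3
    have h6 : ‖e S.Ω‖ ^ 2 - 2 * ‖e S.Ω‖ ^ 2 + ‖e S.Ω‖ ^ 2 = 0 := by ring
    rw [h6] at h3
    refine squeeze_zero' (Filter.Eventually.of_forall fun u => by positivity) ?_ h3
    refine hFU.mono fun u hu => ?_
    rw [deca_norm_sub_sq, ← h5]
    have h7 : ‖u (e S.Ω)‖ ≤ ‖e S.Ω‖ := deca_apply_le S (deca_UM S hu) _
    have h8 : ‖u (e S.Ω)‖ ^ 2 ≤ ‖e S.Ω‖ ^ 2 := pow_le_pow_left₀ (norm_nonneg _) h7 2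
    have h9 : (⟪u (e S.Ω), w (e S.Ω)⟫_ℂ).re = (⟪w (e S.Ω), u (e S.Ω)⟫_ℂ).re := by
      rw [← inner_conj_symm, Complex.conj_re]
    rw [h9, h5]
    linarith
  have h3 : Tendsto (fun u : H →L[ℂ] H => u (e S.Ω)) (F : Filter (H →L[ℂ] H))
      (𝓝 (w (e S.Ω))) := by
    rw [tendsto_iff_norm_sub_tendsto_zero]
    have h4 := h2.sqrt
    simpa using h4
  have h4 : (f : Filter H) ≤ 𝓝 (w (e S.Ω)) := by
    rw [← hFf2]
    exact h3
  exact cauchy_nhds.mono h4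

theorem dec_ultra (S : Std H K) : ∃ e : H →L[ℂ] H, IsStarProjection e ∧ e ∈ S.M ∧
    (∀ x ∈ S.M, e * x = x * e) ∧
    (∃ F : Ultrafilter (H →L[ℂ] H), (∀ᶠ u in (F : Filter (H →L[ℂ] H)), u ∈ UM S) ∧
      ∀ ζ ω : H, Tendsto (fun u : H →L[ℂ] H => ⟪ζ, u ω⟫_ℂ) F (𝓝 ⟪ζ, e ω⟫_ℂ)) ∧
    IsCompact (closure {ξ : H | ∃ u ∈ UM S, u (e S.Ω) = ξ}) := by
  obtain ⟨e, heC, he, hmin⟩ := deca_isProj S
  refine ⟨e, he, deca_mem S heC, deca_central S heC he hmin, ?_, deca_compact S heC hmin⟩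
  obtain ⟨F, hF, hlim⟩ := deca_ultra S heC
  exact ⟨F, hF, fun ζ ω => (tendsto_pi_nhds.1 hlim) (ζ, ω)⟩

end

end Pool.H62.UC
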