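import Pool.Agent.H62.UC.TrigDefs

/-!
# TRIGB: elementary properties of `uexp` (`NormedSpace.exp`)
-/

namespace Pool.H62.UC

open scoped InnerProductSpace TensorProduct ComplexConjugate
open Filter Topology

noncomputable section


variable {H : Type*} [NormedAddCommGroup H] [InnerProductSpace ℂ H] [CompleteSpace H]

theorem uexp_unitary (θ : ℝ) (x : H →L[ℂ] H) (hx : IsSelfAdjoint x) :
    uexp θ x ∈ unitary (H →L[ℂ] H) := by
  unfold uexp
  letI : NormedAlgebra ℚ (H →L[ℂ] H) := NormedAlgebra.restrictScalars ℚ ℂ _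
  refine NormedSpace.exp_mem_unitary_of_mem_skewAdjoint ?_
  rw [skewAdjoint.mem_iff, star_smul, hx.star_eq, ← neg_smul]
  congr 1
  simp

theorem uexp_add (θ θ' : ℝ) (x : H →L[ℂ] H) : uexp (θ + θ') x = uexp θ x * uexp θ' x := by
  unfold uexp
  have h1 : (Complex.I * ((θ + θ' : ℝ) : ℂ)) • x =
      (Complex.I * (θ : ℂ)) • x + (Complex.I * (θ' : ℂ)) • x := by
    rw [← add_smul]
    congr 1
    push_cast
    ring
  rw [h1]
  letI : NormedAlgebra ℚ (H →L[ℂ] H) := NormedAlgebra.restrictScalars ℚ ℂ _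
  exact NormedSpace.exp_add_of_commute
    (((Commute.refl x).smul_left _).smul_right _)

theorem uexp_zero (x : H →L[ℂ] H) : uexp 0 x = 1 := by
  unfold uexp
  rw [Complex.ofReal_zero, mul_zero, zero_smul, NormedSpace.exp_zero]

/-- the derivative at `0`, in norm -/
theorem uexp_deriv (x : H →L[ℂ] H) :
    Tendsto (fun θ : ℝ => ((Complex.I * (θ : ℂ))⁻¹) • (uexp θ x - 1)) (𝓝[>] 0) (𝓝 x) := by
  have h1 : HasDerivAt (fun u : ℂ => NormedSpace.exp (u • x)) (NormedSpace.exp ((0 : ℂ) • x) * x)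
      (0 : ℂ) := hasDerivAt_exp_smul_const x (0 : ℂ)
  rw [zero_smul, NormedSpace.exp_zero, one_mul, hasDerivAt_iff_tendsto_slope_zero] at h1
  have h2 : Tendsto (fun θ : ℝ => Complex.I * (θ : ℂ)) (𝓝[>] 0) (𝓝[≠] 0) := by
    refine tendsto_nhdsWithin_iff.2 ⟨?_, ?_⟩
    · have h3 : Tendsto (fun θ : ℝ => Complex.I * (θ : ℂ)) (𝓝 0) (𝓝 (Complex.I * ((0 : ℝ) : ℂ))) :=
        (continuous_const.mul Complex.continuous_ofReal).tendsto 0
      rw [Complex.ofReal_zero, mul_zero] at h3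
      exact h3.mono_left nhdsWithin_le_nhds
    · refine eventually_nhdsWithin_of_forall fun θ hθ => ?_
      have hθ' : (0 : ℝ) < θ := hθ
      simp only [Set.mem_compl_iff, Set.mem_singleton_iff]
      exact mul_ne_zero Complex.I_ne_zero (Complex.ofReal_ne_zero.2 hθ'.ne')
  have h3 := h1.comp h2
  refine h3.congr fun θ => ?_
  simp only [Function.comp_apply, zero_add, zero_smul, NormedSpace.exp_zero]
  rfl

omit [CompleteSpace H] in
private theorem trigB_pow (θ : ℝ) (x : H →L[ℂ] H) (k : ℕ) :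
    ((k.factorial : ℂ)⁻¹) • ((Complex.I * (θ : ℂ)) • x) ^ k =
      ((Complex.I * (θ : ℂ)) ^ k / (k.factorial : ℂ)) • x ^ k := by
  rw [smul_pow, smul_smul]
  congr 1
  rw [div_eq_mul_inv, mul_comm]

/-- partial sums of the exponential series -/
theorem uexp_series (θ : ℝ) (x : H →L[ℂ] H) :
    Tendsto (fun N : ℕ => ∑ k ∈ Finset.range N,
      ((Complex.I * (θ : ℂ)) ^ k / (k.factorial : ℂ)) • x ^ k) atTop (𝓝 (uexp θ x)) := by
  have h1 := (NormedSpace.exp_series_hasSum_exp' (𝕂 := ℂ)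
    ((Complex.I * (θ : ℂ)) • x)).tendsto_sum_nat
  refine h1.congr fun N => ?_
  exact Finset.sum_congr rfl fun k _ => trigB_pow θ x k

theorem uexp_series_norm (θ : ℝ) (x : H →L[ℂ] H) (N : ℕ) :
    ‖∑ k ∈ Finset.range N, ((Complex.I * (θ : ℂ)) ^ k / (k.factorial : ℂ)) • x ^ k‖ ≤
      Real.exp (|θ| * ‖x‖) := by
  have hpow : ∀ k : ℕ, ‖x ^ k‖ ≤ ‖x‖ ^ k := by
    intro k
    rcases Nat.eq_zero_or_pos k with rfl | hk
    · rw [pow_zero, pow_zero]
      exact ContinuousLinearMap.norm_id_le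
    · exact norm_pow_le' x hk
  calc _ ≤ ∑ k ∈ Finset.range N, (|θ| * ‖x‖) ^ k / (k.factorial : ℝ) := by
        refine (norm_sum_le _ _).trans (Finset.sum_le_sum fun k _ => ?_)
        rw [norm_smul, norm_div, norm_pow, norm_mul, Complex.norm_I, one_mul, Complex.norm_real,
          Real.norm_eq_abs, Complex.norm_natCast, mul_pow, mul_div_right_comm]
        exact mul_le_mul_of_nonneg_left (hpow k) (by positivity)
    _ ≤ Real.exp (|θ| * ‖x‖) := Real.sum_le_exp_of_nonneg (by positivity) N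

end

end Pool.H62.UC
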