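import Pool.Agent.H62.UC.ExtM
import Pool.Agent.H62.UC.TrigB

/-!
# EXPD: exponentials in the domain of a boundedly closed derivation

`(1, 0) ∈ Gr` is NOT assumed; it is a hypothesis `h1` (true for extensions of derivations on unital
algebras: `d 1 = d 1 + d 1`).

* `exp_mem`: powers `x^k` are in the domain with derivative `∑ x^j ξ x^{k-1-j}` (norm
  `≤ k ‖x‖^{k-1} ‖ξ‖`), the exponential series and its derivative series converge in norm, with
  bounded partial sums; bounded closedness gives `(uexp θ x, δ_θ) ∈ Gr` and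
  `‖δ_θ‖ ≤ |θ| ‖ξ‖ exp (|θ| ‖x‖)`.
* cocycle: `δ_{θ+θ'} = l (uexp θ x) δ_{θ'} + r (uexp θ' x) δ_θ`, so (unitaries act isometrically)
  `‖δ_{nθ}‖ ≤ n ‖δ_θ‖`; apply with `θ/n` and let `n → ∞`: `‖δ_θ‖ ≤ |θ| ‖ξ‖`.
* `exp_lip`: for self-adjoint `x, u ∈ M`:
  `uexp θ x - uexp θ u = ∑_{k<n} uexp (kθ/n) x (uexp (θ/n) x - uexp (θ/n) u) uexp ((n-1-k)θ/n) u`,
  so `‖(uexp θ x - uexp θ u) Ω‖ ≤ n ‖(uexp (θ/n) x - uexp (θ/n) u) Ω‖` (trace property), which tends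
  to `|θ| ‖(x - u) Ω‖`.
-/

namespace Pool.H62.UC

open scoped InnerProductSpace TensorProduct ComplexConjugate
open Filter Topology

noncomputable section


variable {H : Type*} [NormedAddCommGroup H] [InnerProductSpace ℂ H] [CompleteSpace H]
variable {K : Type*} [NormedAddCommGroup K] [InnerProductSpace ℂ K] [CompleteSpace K]

/-- derivative of `x ^ k` -/
def expd_D (S : Std H K) (x : H →L[ℂ] H) (ξ : K) : ℕ → K
  | 0 => 0
  | k + 1 => S.l (x ^ k) ξ + S.r x (expd_D S x ξ k)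

theorem expd_pow {S : Std H K} {Gr : Submodule ℂ ((H →L[ℂ] H) × K)} (hG : BClosed S Gr)
    (h1 : ((1 : H →L[ℂ] H), (0 : K)) ∈ Gr) (x : H →L[ℂ] H) (ξ : K) (hx : (x, ξ) ∈ Gr) (k : ℕ) :
    (x ^ k, expd_D S x ξ k) ∈ Gr := by
  induction k with
  | zero =>
    rw [pow_zero]
    exact h1
  | succ k ih =>
    have h2 := hG.leib _ ih _ hx
    rw [pow_succ]
    exact h2

theorem expd_l_pow (S : Std H K) (x : H →L[ℂ] H) (ξ : K) (k : ℕ) :
    ‖S.l (x ^ k) ξ‖ ≤ ‖x‖ ^ k * ‖ξ‖ := by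
  induction k with
  | zero =>
    rw [pow_zero, pow_zero, S.l_one, one_mul]
    exact le_rfl
  | succ k ih =>
    rw [pow_succ', S.l_mul]
    change ‖S.l x (S.l (x ^ k) ξ)‖ ≤ _
    calc ‖S.l x (S.l (x ^ k) ξ)‖ ≤ ‖S.l x‖ * ‖S.l (x ^ k) ξ‖ := ContinuousLinearMap.le_opNorm _ _
      _ ≤ ‖x‖ * (‖x‖ ^ k * ‖ξ‖) := by
          refine mul_le_mul (S.l_norm_le x) ih (norm_nonneg _) (norm_nonneg _)
      _ = ‖x‖ ^ (k + 1) * ‖ξ‖ := by ring

theorem expd_norm (S : Std H K) (x : H →L[ℂ] H) (hx : x ∈ S.M) (ξ : K) (k : ℕ) :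
    ‖expd_D S x ξ (k + 1)‖ ≤ (k + 1) * ‖x‖ ^ k * ‖ξ‖ := by
  induction k with
  | zero =>
    have h0 : expd_D S x ξ (0 + 1) = S.l (x ^ 0) ξ + S.r x 0 := rfl
    rw [h0, map_zero, add_zero]
    have h2 := expd_l_pow S x ξ 0
    simpa using h2
  | succ k ih =>
    have h0 : expd_D S x ξ (k + 1 + 1) = S.l (x ^ (k + 1)) ξ + S.r x (expd_D S x ξ (k + 1)) := rfl
    rw [h0]
    have h2 := expd_l_pow S x ξ (k + 1)
    have h3 : ‖S.r x (expd_D S x ξ (k + 1))‖ ≤ ‖x‖ * ((k + 1) * ‖x‖ ^ k * ‖ξ‖) := by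
      refine (ContinuousLinearMap.le_opNorm _ _).trans ?_
      exact mul_le_mul (S.r_norm_le hx) ih (norm_nonneg _) (norm_nonneg _)
    refine (norm_add_le _ _).trans ((add_le_add h2 h3).trans (le_of_eq ?_))
    push_cast
    ring

theorem expd_mem_of_tendsto (M : VonNeumannAlgebra H) (P : ℕ → H →L[ℂ] H) (y : H →L[ℂ] H)
    (hP : ∀ N, P N ∈ M) (h : Tendsto P atTop (𝓝 y)) : y ∈ M := by
  rw [← VonNeumannAlgebra.commutant_commutant M, VonNeumannAlgebra.mem_commutant_iff]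
  intro g hg
  have h1 : Tendsto (fun N => g * P N) atTop (𝓝 (g * y)) := h.const_mul g
  have h2 : Tendsto (fun N => P N * g) atTop (𝓝 (y * g)) := h.mul_const g
  have h3 : (fun N => g * P N) = fun N => P N * g := by
    funext N
    rw [VonNeumannAlgebra.mem_commutant_iff] at hg
    exact (hg (P N) (hP N)).symm
  rw [h3] at h1
  exact tendsto_nhds_unique h1 h2

/-- first step: the crude estimate -/
theorem expd_crude {S : Std H K} {Gr : Submodule ℂ ((H →L[ℂ] H) × K)} (hG : BClosed S Gr)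
    (h1 : ((1 : H →L[ℂ] H), (0 : K)) ∈ Gr) (x : H →L[ℂ] H) (ξ : K) (hx : (x, ξ) ∈ Gr) (θ : ℝ) :
    ∃ δ : K, (uexp θ x, δ) ∈ Gr ∧ ‖δ‖ ≤ |θ| * ‖ξ‖ * Real.exp (|θ| * ‖x‖) := by
  have hxM : x ∈ S.M := hG.mem _ hx
  set c : ℕ → ℂ := fun k => (Complex.I * (θ : ℂ)) ^ k / (k.factorial : ℂ) with hc
  set f : ℕ → K := fun k => c k • expd_D S x ξ k with hf
  have hcn : ∀ k, ‖c k‖ = |θ| ^ k / (k.factorial : ℝ) := by
    intro k
    rw [hc]
    simp only [norm_div, norm_pow, norm_mul, Complex.norm_I, one_mul, Complex.norm_real,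
      Real.norm_eq_abs, Complex.norm_natCast]
  set g : ℕ → ℝ := fun j => |θ| * ‖ξ‖ * ((|θ| * ‖x‖) ^ j / (j.factorial : ℝ)) with hg
  have hgs : HasSum g (|θ| * ‖ξ‖ * Real.exp (|θ| * ‖x‖)) := by
    rw [hg]
    refine HasSum.mul_left _ ?_
    rw [Real.exp_eq_exp_ℝ]
    exact NormedSpace.expSeries_div_hasSum_exp (|θ| * ‖x‖)
  have hfg : ∀ j, ‖f (j + 1)‖ ≤ g j := by
    intro j
    rw [hf]
    simp only
    rw [norm_smul, hcn]
    have h2 := expd_norm S x hxM ξ j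
    have h3 : (0 : ℝ) ≤ |θ| ^ (j + 1) / ((j + 1).factorial : ℝ) := by positivity
    refine (mul_le_mul_of_nonneg_left h2 h3).trans (le_of_eq ?_)
    rw [hg]
    simp only
    rw [Nat.factorial_succ]
    push_cast
    have h4 : (j.factorial : ℝ) ≠ 0 := by positivity
    have h5 : (j : ℝ) + 1 ≠ 0 := by positivity
    field_simp
    ring
  have hfs1 : Summable (fun j => f (j + 1)) :=
    Summable.of_norm_bounded hgs.summable hfg
  have hfs : Summable f := (summable_nat_add_iff 1).1 hfs1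
  have hf0 : f 0 = 0 := by
    rw [hf]
    simp only
    have : expd_D S x ξ 0 = 0 := rfl
    rw [this, smul_zero]
  have htsum : (∑' k, f k) = ∑' j, f (j + 1) := by
    rw [hfs.tsum_eq_zero_add, hf0, zero_add]
  refine ⟨∑' k, f k, ?_, ?_⟩
  · have hP : ∀ N, (∑ k ∈ Finset.range N, c k • x ^ k, ∑ k ∈ Finset.range N, f k) ∈ Gr := by
      intro N
      have h2 : (∑ k ∈ Finset.range N, c k • x ^ k, ∑ k ∈ Finset.range N, f k) =
          ∑ k ∈ Finset.range N, c k • ((x ^ k, expd_D S x ξ k) : (H →L[ℂ] H) × K) := by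
        rw [Prod.ext_iff, Prod.fst_sum, Prod.snd_sum]
        exact ⟨rfl, rfl⟩
      rw [h2]
      exact Submodule.sum_mem _ fun k _ => Submodule.smul_mem _ _ (expd_pow hG h1 x ξ hx k)
    have hlim := uexp_series θ x
    have hyM : uexp θ x ∈ S.M :=
      expd_mem_of_tendsto S.M _ _ (fun N => hG.mem _ (hP N)) hlim
    refine (hG.ext_mem (fun N => ∑ k ∈ Finset.range N, c k • x ^ k)
      (fun N => ∑ k ∈ Finset.range N, f k) (uexp θ x) (∑' k, f k) (Real.exp (|θ| * ‖x‖)) hP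
      (fun N => uexp_series_norm θ x N) hyM ?_ hfs.hasSum.tendsto_sum_nat).1
    exact ((ContinuousLinearMap.apply ℂ H S.Ω).continuous.tendsto _).comp hlim
  · rw [htsum]
    exact tsum_of_norm_bounded hgs hfg

/-- second step: iteration of the cocycle identity -/
theorem expd_iter {S : Std H K} {Gr : Submodule ℂ ((H →L[ℂ] H) × K)} (hG : BClosed S Gr)
    (h1 : ((1 : H →L[ℂ] H), (0 : K)) ∈ Gr) (x : H →L[ℂ] H) (ξ : K) (hx : (x, ξ) ∈ Gr)
    (hsa : IsSelfAdjoint x) (θ : ℝ) (n : ℕ) :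
    ∃ δ : K, (uexp (n * θ) x, δ) ∈ Gr ∧ ‖δ‖ ≤ n * (|θ| * ‖ξ‖ * Real.exp (|θ| * ‖x‖)) := by
  have hu : ∀ θ' : ℝ, ‖uexp θ' x‖ ≤ 1 := by
    intro θ'
    have h2 := CStarRing.norm_mem_unitary_mul (1 : H →L[ℂ] H) (uexp_unitary θ' x hsa)
    rw [mul_one] at h2
    rw [h2]
    exact ContinuousLinearMap.norm_id_le
  induction n with
  | zero =>
    refine ⟨0, ?_, ?_⟩
    · rw [Nat.cast_zero, zero_mul, uexp_zero]
      exact h1
    · simp
  | succ n ih =>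
    obtain ⟨δ, hδ, hδn⟩ := ih
    obtain ⟨δ', hδ', hδn'⟩ := expd_crude hG h1 x ξ hx θ
    refine ⟨S.l (uexp (n * θ) x) δ' + S.r (uexp θ x) δ, ?_, ?_⟩
    · have h2 := hG.leib _ hδ _ hδ'
      have h3 : ((n + 1 : ℕ) : ℝ) * θ = n * θ + θ := by
        push_cast
        ring
      rw [h3, uexp_add]
      exact h2
    · have h2 : ‖S.l (uexp (n * θ) x) δ'‖ ≤ ‖δ'‖ := by
        refine (ContinuousLinearMap.le_opNorm _ _).trans ?_
        refine mul_le_of_le_one_left (norm_nonneg _) ?_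
        exact (S.l_norm_le _).trans (hu _)
      have h3 : ‖S.r (uexp θ x) δ‖ ≤ ‖δ‖ := by
        refine (ContinuousLinearMap.le_opNorm _ _).trans ?_
        refine mul_le_of_le_one_left (norm_nonneg _) ?_
        exact (S.r_norm_le (hG.mem _ hδ')).trans (hu _)
      refine (norm_add_le _ _).trans ?_
      push_cast
      linarith

theorem exp_mem {S : Std H K} {Gr : Submodule ℂ ((H →L[ℂ] H) × K)} (hG : BClosed S Gr)
    (h1 : ((1 : H →L[ℂ] H), (0 : K)) ∈ Gr) (x : H →L[ℂ] H) (ξ : K) (hx : (x, ξ) ∈ Gr)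
    (hsa : IsSelfAdjoint x) (θ : ℝ) :
    ∃ δ : K, (uexp θ x, δ) ∈ Gr ∧ ‖δ‖ ≤ |θ| * ‖ξ‖ := by
  obtain ⟨δ, hδ, -⟩ := expd_crude hG h1 x ξ hx θ
  refine ⟨δ, hδ, ?_⟩
  have hbound : ∀ n : ℕ, ‖δ‖ ≤ |θ| * ‖ξ‖ * Real.exp (|θ| * ‖x‖ * (1 / ((n : ℝ) + 1))) := by
    intro n
    obtain ⟨δ', hδ', hn'⟩ := expd_iter hG h1 x ξ hx hsa (θ / (n + 1)) (n + 1)
    have hn : ((n : ℝ) + 1) ≠ 0 := by positivity
    have h2 : ((n + 1 : ℕ) : ℝ) * (θ / (n + 1)) = θ := by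
      push_cast
      field_simp
    rw [h2] at hδ'
    have h3 : δ = δ' := by
      have h4 := Gr.sub_mem hδ hδ'
      rw [Prod.mk_sub_mk, sub_self] at h4
      exact sub_eq_zero.1 (hG.sv _ h4)
    rw [← h3] at hn'
    refine hn'.trans (le_of_eq ?_)
    have h5 : |θ / ((n : ℝ) + 1)| = |θ| / ((n : ℝ) + 1) := by
      rw [abs_div, abs_of_pos (by positivity : (0 : ℝ) < (n : ℝ) + 1)]
    rw [h5]
    have h6 : |θ| / ((n : ℝ) + 1) * ‖x‖ = |θ| * ‖x‖ * (1 / ((n : ℝ) + 1)) := by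
      ring
    rw [h6]
    push_cast
    field_simp
  have hlim : Tendsto (fun n : ℕ => |θ| * ‖ξ‖ * Real.exp (|θ| * ‖x‖ * (1 / ((n : ℝ) + 1)))) atTop
      (𝓝 (|θ| * ‖ξ‖ * Real.exp (|θ| * ‖x‖ * 0))) :=
    ((Real.continuous_exp.tendsto _).comp
      (tendsto_one_div_add_atTop_nhds_zero_nat.const_mul _)).const_mul _
  rw [mul_zero, Real.exp_zero, mul_one] at hlim
  exact ge_of_tendsto' hlim hbound

end

end Pool.H62.UC
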