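import Pool.Agent.H62.UC.Bas

/-!
# EXTM: sequential closedness of boundedly closed derivations
-/

namespace Pool.H62.UC

open scoped InnerProductSpace TensorProduct ComplexConjugate
open Filter Topology

noncomputable section


variable {H : Type*} [NormedAddCommGroup H] [InnerProductSpace ℂ H] [CompleteSpace H]
variable {K : Type*} [NormedAddCommGroup K] [InnerProductSpace ℂ K] [CompleteSpace K]

theorem extm_of_mem {S : Std H K} {Gr : Submodule ℂ ((H →L[ℂ] H) × K)} (hG : BClosed S Gr)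
    {y : H →L[ℂ] H} {η : K} {C : ℝ} (hy : y ∈ S.M)
    (h : (y S.Ω, η) ∈ {q : H × K | ∃ p ∈ Gr, ‖p.1‖ ≤ C ∧ q = (p.1 S.Ω, p.2)}) :
    (y, η) ∈ Gr ∧ ‖y‖ ≤ C := by
  obtain ⟨p, hp, hpC, hpe⟩ := h
  rw [Prod.mk.injEq] at hpe
  have h1 : y - p.1 = 0 := by
    refine S.sep (sub_mem hy (hG.mem p hp)) ?_
    change y S.Ω - p.1 S.Ω = 0
    rw [hpe.1, sub_self]
  have h2 : y = p.1 := sub_eq_zero.1 h1
  constructor
  · rw [h2, hpe.2]
    exact hp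
  · rw [h2]
    exact hpC

theorem BClosed.ext_mem {S : Std H K} {Gr : Submodule ℂ ((H →L[ℂ] H) × K)} (hG : BClosed S Gr)
    (x : ℕ → H →L[ℂ] H) (ξ : ℕ → K) (y : H →L[ℂ] H) (η : K) (C : ℝ)
    (h : ∀ k, (x k, ξ k) ∈ Gr) (hC : ∀ k, ‖x k‖ ≤ C) (hy : y ∈ S.M)
    (hx : Tendsto (fun k => x k S.Ω) atTop (𝓝 (y S.Ω))) (hξ : Tendsto ξ atTop (𝓝 η)) :
    (y, η) ∈ Gr ∧ ‖y‖ ≤ C := by
  refine extm_of_mem hG hy ?_
  refine (hG.closed C).mem_of_tendsto (hx.prodMk_nhds hξ) ?_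
  exact Filter.Eventually.of_forall fun k => ⟨(x k, ξ k), h k, hC k, rfl⟩

theorem extm_convex {S : Std H K} (Gr : Submodule ℂ ((H →L[ℂ] H) × K)) (C : ℝ) :
    Convex ℝ {q : H × K | ∃ p ∈ Gr, ‖p.1‖ ≤ C ∧ q = (p.1 S.Ω, p.2)} := by
  rintro _ ⟨p, hp, hpC, rfl⟩ _ ⟨q, hq, hqC, rfl⟩ a b ha hb hab
  refine ⟨(a : ℂ) • p + (b : ℂ) • q, Gr.add_mem (Gr.smul_mem _ hp) (Gr.smul_mem _ hq), ?_, ?_⟩
  · change ‖(a : ℂ) • p.1 + (b : ℂ) • q.1‖ ≤ C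
    refine (norm_add_le _ _).trans ?_
    rw [norm_smul, norm_smul, Complex.norm_real, Complex.norm_real, Real.norm_of_nonneg ha,
      Real.norm_of_nonneg hb]
    calc a * ‖p.1‖ + b * ‖q.1‖ ≤ a * C + b * C :=
          add_le_add (mul_le_mul_of_nonneg_left hpC ha) (mul_le_mul_of_nonneg_left hqC hb)
      _ = C := by rw [← add_mul, hab, one_mul]
  · rfl

/-- the same with weak convergence of the derivatives (bounded sequences; Mazur: the set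
`{(x Ω, ξ) : (x, ξ) ∈ Gr, ‖x‖ ≤ C}` is closed and convex) -/
theorem BClosed.ext_mem_weak {S : Std H K} {Gr : Submodule ℂ ((H →L[ℂ] H) × K)}
    (hG : BClosed S Gr) (x : ℕ → H →L[ℂ] H) (ξ : ℕ → K) (y : H →L[ℂ] H) (η : K) (C : ℝ)
    (h : ∀ k, (x k, ξ k) ∈ Gr) (hC : ∀ k, ‖x k‖ ≤ C) (hy : y ∈ S.M)
    (hx : ∀ ζ : H, Tendsto (fun k => ⟪ζ, x k S.Ω⟫_ℂ) atTop (𝓝 ⟪ζ, y S.Ω⟫_ℂ))
    (hξ : ∀ κ : K, Tendsto (fun k => ⟪κ, ξ k⟫_ℂ) atTop (𝓝 ⟪κ, η⟫_ℂ)) :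
    (y, η) ∈ Gr ∧ ‖y‖ ≤ C := by
  refine extm_of_mem hG hy ?_
  by_contra hcon
  obtain ⟨f, u, hf1, hf2⟩ := RCLike.geometric_hahn_banach_closed_point (𝕜 := ℂ)
    (extm_convex (S := S) Gr C) (hG.closed C) hcon
  set a : H := (InnerProductSpace.toDual ℂ H).symm (f.comp (ContinuousLinearMap.inl ℂ H K)) with ha
  set b : K := (InnerProductSpace.toDual ℂ K).symm (f.comp (ContinuousLinearMap.inr ℂ H K)) with hb
  have hfab : ∀ (s : H) (t : K), f (s, t) = ⟪a, s⟫_ℂ + ⟪b, t⟫_ℂ := by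
    intro s t
    rw [ha, hb, InnerProductSpace.toDual_symm_apply, InnerProductSpace.toDual_symm_apply]
    change f (s, t) = f (s, 0) + f (0, t)
    rw [← map_add, Prod.mk_add_mk, add_zero, zero_add]
  have hlim : Tendsto (fun k => f (x k S.Ω, ξ k)) atTop (𝓝 (f (y S.Ω, η))) := by
    simp only [hfab]
    exact (hx a).add (hξ b)
  have hlim2 : Tendsto (fun k => (f (x k S.Ω, ξ k)).re) atTop (𝓝 (f (y S.Ω, η)).re) :=
    (Complex.continuous_re.tendsto _).comp hlim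
  have hle : (f (y S.Ω, η)).re ≤ u := by
    refine le_of_tendsto' hlim2 fun k => ?_
    exact (hf1 _ ⟨(x k, ξ k), h k, hC k, rfl⟩).le
  exact absurd hf2 (not_lt.2 hle)

end

end Pool.H62.UC
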