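import Pool.Agent.H62.UC.Bas
import Pool.Agent.H62.UC.Jop

/-!
# CONC: the concrete coarse bimodule

`KK H` is the Hilbert space completion of `H ⊗ H`; `lact x = x ⊗ 1`, `rleg y = 1 ⊗ y`
(`TensorProduct.mapL`, `ContinuousLinearMap.completion`).  `rmul M Ω y` is right multiplication by
`y ∈ M` on `H = L²(M)`: the bounded operator with `x Ω ↦ x y Ω` (exists by `exists_right`).
-/

namespace Pool.H62.UC

open scoped InnerProductSpace TensorProduct ComplexConjugate
open Filter Topology

noncomputable section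

set_option linter.unusedSectionVars false

variable {H : Type*} [NormedAddCommGroup H] [InnerProductSpace ℂ H] [CompleteSpace H]

/-- The coarse bimodule `L²(M) ⊗ L²(M^op)` as a Hilbert space. -/
abbrev KK (H : Type*) [NormedAddCommGroup H] [InnerProductSpace ℂ H] : Type _ :=
  UniformSpace.Completion (H ⊗[ℂ] H)

/-- `x ⊗ 1` -/
def lact (x : H →L[ℂ] H) : KK H →L[ℂ] KK H :=
  (TensorProduct.mapL x (ContinuousLinearMap.id ℂ H)).completion

/-- `1 ⊗ y` -/
def rleg (y : H →L[ℂ] H) : KK H →L[ℂ] KK H :=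
  (TensorProduct.mapL (ContinuousLinearMap.id ℂ H) y).completion

/-- Right multiplication by `y` on `L²(M)`: the bounded operator `x Ω ↦ x y Ω`, `x ∈ M`. -/
def rmul (M : VonNeumannAlgebra H) (Ω : H) (y : H →L[ℂ] H) : H →L[ℂ] H :=
  open Classical in
  if h : ∃ T : H →L[ℂ] H, ∀ x ∈ M, T (x Ω) = (x * y) Ω then h.choose else 0

theorem rmul_apply (M : VonNeumannAlgebra H) (Ω : H) (hM : IsTV M.toStarSubalgebra Ω)
    (x y : H →L[ℂ] H) (hx : x ∈ M) (hy : y ∈ M) : rmul M Ω y (x Ω) = (x * y) Ω := by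
  have h : ∃ T : H →L[ℂ] H, ∀ x ∈ M, T (x Ω) = (x * y) Ω := by
    obtain ⟨z, _, hz, _⟩ := exists_right M Ω hM y hy
    exact ⟨z, hz⟩
  unfold rmul
  rw [dif_pos h]
  exact h.choose_spec x hx

theorem CONC_lact_coe (x : H →L[ℂ] H) (a b : H) :
    lact x ((a ⊗ₜ[ℂ] b : H ⊗[ℂ] H) : KK H) = ((x a ⊗ₜ[ℂ] b : H ⊗[ℂ] H) : KK H) := by
  unfold lact
  rw [ContinuousLinearMap.completion_apply_coe, TensorProduct.mapL_tmul]
  rfl

theorem CONC_rleg_coe (y : H →L[ℂ] H) (a b : H) :
    rleg y ((a ⊗ₜ[ℂ] b : H ⊗[ℂ] H) : KK H) = ((a ⊗ₜ[ℂ] y b : H ⊗[ℂ] H) : KK H) := by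
  unfold rleg
  rw [ContinuousLinearMap.completion_apply_coe, TensorProduct.mapL_tmul]
  rfl

theorem CONC_ext {A B : KK H →L[ℂ] KK H}
    (h : ∀ a b : H, A ((a ⊗ₜ[ℂ] b : H ⊗[ℂ] H) : KK H) = B ((a ⊗ₜ[ℂ] b : H ⊗[ℂ] H) : KK H)) :
    A = B := by
  ext κ
  induction κ using UniformSpace.Completion.induction_on with
  | hp => exact isClosed_eq A.continuous B.continuous
  | ih κ =>
    induction κ using TensorProduct.induction_on with
    | zero => rw [UniformSpace.Completion.coe_zero, map_zero, map_zero]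
    | tmul a b => exact h a b
    | add x y hx hy => rw [UniformSpace.Completion.coe_add, map_add, map_add, hx, hy]

theorem CONC_inner {A B : KK H →L[ℂ] KK H}
    (h : ∀ a b c d : H, ⟪A ((a ⊗ₜ[ℂ] b : H ⊗[ℂ] H) : KK H), ((c ⊗ₜ[ℂ] d : H ⊗[ℂ] H) : KK H)⟫_ℂ
      = ⟪((a ⊗ₜ[ℂ] b : H ⊗[ℂ] H) : KK H), B ((c ⊗ₜ[ℂ] d : H ⊗[ℂ] H) : KK H)⟫_ℂ) :
    ∀ κ μ : KK H, ⟪A κ, μ⟫_ℂ = ⟪κ, B μ⟫_ℂ := by
  intro κ μ
  induction κ using UniformSpace.Completion.induction_on with
  | hp => exact isClosed_eq (by fun_prop) (by fun_prop)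
  | ih κ =>
    induction κ using TensorProduct.induction_on with
    | zero => rw [UniformSpace.Completion.coe_zero, map_zero, inner_zero_left, inner_zero_left]
    | tmul a b =>
      induction μ using UniformSpace.Completion.induction_on with
      | hp =>
        exact isClosed_eq (by fun_prop) (by fun_prop)
      | ih μ =>
        induction μ using TensorProduct.induction_on with
        | zero => rw [UniformSpace.Completion.coe_zero, map_zero, inner_zero_right, inner_zero_right]
        | tmul c d => exact h a b c d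
        | add x y hx hy => rw [UniformSpace.Completion.coe_add, map_add, inner_add_right,
            inner_add_right, hx, hy]
    | add x y hx hy => rw [UniformSpace.Completion.coe_add, map_add, inner_add_left,
            inner_add_left, hx, hy]

theorem CONC_coe_smul (c : ℂ) (x : H ⊗[ℂ] H) : ((c • x : H ⊗[ℂ] H) : KK H) = c • (x : KK H) :=
  UniformSpace.Completion.coe_smul c x

/-- left action as a star homomorphism -/
def CONC_L : (H →L[ℂ] H) →⋆ₐ[ℂ] (KK H →L[ℂ] KK H) where
  toFun := lact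
  map_one' := CONC_ext fun a b => by rw [CONC_lact_coe]; rfl
  map_mul' x y := CONC_ext fun a b => by
    rw [mul_apply_eq_comp, CONC_lact_coe, CONC_lact_coe, CONC_lact_coe]; rfl
  map_zero' := CONC_ext fun a b => by
    rw [CONC_lact_coe, _root_.zero_apply, TensorProduct.zero_tmul,
      _root_.zero_apply, UniformSpace.Completion.coe_zero]
  map_add' x y := CONC_ext fun a b => by
    rw [CONC_lact_coe, _root_.add_apply, TensorProduct.add_tmul,
      _root_.add_apply, UniformSpace.Completion.coe_add, CONC_lact_coe, CONC_lact_coe]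
  commutes' c := CONC_ext fun a b => by
    rw [CONC_lact_coe, Algebra.algebraMap_eq_smul_one, Algebra.algebraMap_eq_smul_one,
      _root_.smul_apply, _root_.smul_apply,
      one_apply_eq_self, one_apply_eq_self,
      ← TensorProduct.smul_tmul', CONC_coe_smul]
  map_star' x := by
    rw [ContinuousLinearMap.star_eq_adjoint, ContinuousLinearMap.star_eq_adjoint]
    rw [ContinuousLinearMap.eq_adjoint_iff]
    apply CONC_inner
    intro a b c d
    rw [CONC_lact_coe, CONC_lact_coe, UniformSpace.Completion.inner_coe,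
      UniformSpace.Completion.inner_coe, TensorProduct.inner_tmul, TensorProduct.inner_tmul,
      ContinuousLinearMap.adjoint_inner_left]

/-- right leg action as a star homomorphism -/
def CONC_R : (H →L[ℂ] H) →⋆ₐ[ℂ] (KK H →L[ℂ] KK H) where
  toFun := rleg
  map_one' := CONC_ext fun a b => by rw [CONC_rleg_coe]; rfl
  map_mul' x y := CONC_ext fun a b => by
    rw [mul_apply_eq_comp, CONC_rleg_coe, CONC_rleg_coe, CONC_rleg_coe]; rfl
  map_zero' := CONC_ext fun a b => by
    rw [CONC_rleg_coe, _root_.zero_apply, TensorProduct.tmul_zero,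
      _root_.zero_apply, UniformSpace.Completion.coe_zero]
  map_add' x y := CONC_ext fun a b => by
    rw [CONC_rleg_coe, _root_.add_apply, TensorProduct.tmul_add,
      _root_.add_apply, UniformSpace.Completion.coe_add, CONC_rleg_coe, CONC_rleg_coe]
  commutes' c := CONC_ext fun a b => by
    rw [CONC_rleg_coe, Algebra.algebraMap_eq_smul_one, Algebra.algebraMap_eq_smul_one,
      _root_.smul_apply, _root_.smul_apply,
      one_apply_eq_self, one_apply_eq_self,
      TensorProduct.tmul_smul, CONC_coe_smul]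
  map_star' x := by
    rw [ContinuousLinearMap.star_eq_adjoint, ContinuousLinearMap.star_eq_adjoint]
    rw [ContinuousLinearMap.eq_adjoint_iff]
    apply CONC_inner
    intro a b c d
    rw [CONC_rleg_coe, CONC_rleg_coe, UniformSpace.Completion.inner_coe,
      UniformSpace.Completion.inner_coe, TensorProduct.inner_tmul, TensorProduct.inner_tmul,
      ContinuousLinearMap.adjoint_inner_left]

/-- the tensor product of two vectors in the completion -/
def CONC_tp : H →L[ℂ] H →L[ℂ] KK H :=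
  (ContinuousLinearMap.compL ℂ H (H ⊗[ℂ] H) (KK H) UniformSpace.Completion.toComplL) ∘L
    (TensorProduct.mkL ℂ H H)

theorem CONC_tp_apply (a b : H) : CONC_tp a b = ((a ⊗ₜ[ℂ] b : H ⊗[ℂ] H) : KK H) := rfl

theorem CONC_dense :
    (Submodule.span ℂ {κ : KK H | ∃ a b, CONC_tp a b = κ}).topologicalClosure = ⊤ := by
  rw [Submodule.eq_top_iff']
  intro κ
  have h1 : (κ : KK H) ∈ closure (Set.range ((↑) : H ⊗[ℂ] H → KK H)) :=
    UniformSpace.Completion.denseRange_coe κ
  refine closure_mono ?_ h1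
  rintro _ ⟨x, rfl⟩
  induction x using TensorProduct.induction_on with
  | zero =>
    rw [UniformSpace.Completion.coe_zero]
    exact Submodule.zero_mem _
  | tmul a b => exact Submodule.subset_span ⟨a, b, rfl⟩
  | add x y hx hy =>
    rw [UniformSpace.Completion.coe_add]
    exact Submodule.add_mem _ hx hy

theorem exists_coarse : ∃ T : Coarse H (KK H), (∀ a b : H, T.tp a b = ((a ⊗ₜ[ℂ] b : H ⊗[ℂ] H) : KK H)) ∧
    (∀ x, T.L x = lact x) ∧ (∀ y, T.R y = rleg y) := by
  refine ⟨{ tp := CONC_tp, inner_tp := ?_, dense_tp := CONC_dense, L := CONC_L, R := CONC_R,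
            L_tp := ?_, R_tp := ?_ }, fun a b => rfl, fun x => rfl, fun y => rfl⟩
  · intro a b c d
    rw [CONC_tp_apply, CONC_tp_apply, UniformSpace.Completion.inner_coe, TensorProduct.inner_tmul]
  · intro A a b
    exact CONC_lact_coe A a b
  · intro A a b
    exact CONC_rleg_coe A a b

theorem exists_std (M : VonNeumannAlgebra H) (Ω : H) (hM : IsTV M.toStarSubalgebra Ω) :
    ∃ S : Std H (KK H), S.M = M ∧ S.Ω = Ω ∧ (∀ x, S.l x = lact x) ∧
      (∀ y, S.r y = rleg (rmul M Ω y)) ∧
      S.T.tp Ω Ω = ((Ω ⊗ₜ[ℂ] Ω : H ⊗[ℂ] H) : KK H) := by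
  obtain ⟨T, hT1, hT2, hT3⟩ := exists_coarse (H := H)
  refine ⟨{ M := M, Ω := Ω, tv := hM, T := T, ρ := rmul M Ω,
            ρ_apply := fun x hx y hy => rmul_apply M Ω hM x y hx hy }, rfl, rfl, fun x => hT2 x,
            fun y => hT3 _, hT1 Ω Ω⟩

end

end Pool.H62.UC
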