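import Pool.Agent.H62.UC.Fin2
import Pool.Agent.H62.UC.Aff
import Pool.Agent.H62.UC.Conc

/-!
# FINAL: the theorem for von Neumann algebras given as sets
-/

namespace Pool.H62.UC

open scoped InnerProductSpace TensorProduct
open Filter Topology

noncomputable section

variable {H : Type*} [NormedAddCommGroup H] [InnerProductSpace ℂ H] [CompleteSpace H]

theorem star_centralizer {A : Type*} [Ring A] [StarRing A] (M : Set A)
    (hs : ∀ x ∈ M, star x ∈ M) {z : A} (hz : z ∈ Set.centralizer M) :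
    star z ∈ Set.centralizer M := by
  rw [Set.mem_centralizer_iff] at hz ⊢
  intro m hm
  have h1 := congrArg star (hz (star m) (hs m hm))
  rw [star_mul, star_mul, star_star] at h1
  exact h1.symm

theorem exists_vN (M : Set (H →L[ℂ] H)) (hs : ∀ x ∈ M, star x ∈ M)
    (hc : Set.centralizer (Set.centralizer M) = M) :
    ∃ M' : VonNeumannAlgebra H, ∀ x, x ∈ M' ↔ x ∈ M := by
  refine ⟨{ toStarSubalgebra := StarSubalgebra.centralizer ℂ (Set.centralizer M)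
            centralizer_centralizer' := Set.centralizer_centralizer_centralizer _ }, fun x => ?_⟩
  change x ∈ StarSubalgebra.centralizer ℂ (Set.centralizer M) ↔ _
  rw [StarSubalgebra.mem_centralizer_iff]
  constructor
  · intro h
    rw [← hc, Set.mem_centralizer_iff]
    exact fun m hm => (h m hm).1
  · intro h z hz
    rw [← hc, Set.mem_centralizer_iff] at h
    exact ⟨h z hz, h (star z) (star_centralizer M hs hz)⟩

/-- generators of `M ⊗ M^op` -/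
def gens (M : Set (H →L[ℂ] H)) (ρ : (H →L[ℂ] H) → (H →L[ℂ] H)) : Set (KK H →L[ℂ] KK H) :=
  {A | ∃ x ∈ M, A = lact x} ∪ {A | ∃ y ∈ M, A = rleg (ρ y)}

theorem exists_rho (M : Set (H →L[ℂ] H)) (hs : ∀ x ∈ M, star x ∈ M)
    (hc : Set.centralizer (Set.centralizer M) = M) (Ω : H) (h1 : ‖Ω‖ = 1)
    (h2 : ∀ x ∈ M, ∀ y ∈ M, ⟪Ω, (x * y) Ω⟫_ℂ = ⟪Ω, (y * x) Ω⟫_ℂ)
    (h3 : Dense {ξ : H | ∃ x ∈ M, x Ω = ξ}) (y : H →L[ℂ] H) (hy : y ∈ M) :
    ∃ T : H →L[ℂ] H, ∀ x ∈ M, T (x Ω) = (x * y) Ω := by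
  obtain ⟨M', hM'⟩ := exists_vN M hs hc
  have tv : IsTV M'.toStarSubalgebra Ω := by
    refine ⟨h1, fun x hx y hy => h2 x ((hM' x).1 hx) y ((hM' y).1 hy), ?_⟩
    refine h3.mono ?_
    rintro ξ ⟨x, hx, rfl⟩
    exact ⟨x, (hM' x).2 hx, rfl⟩
  obtain ⟨z, _, hz, _⟩ := exists_right M' Ω tv y ((hM' y).2 hy)
  exact ⟨z, fun x hx => hz x ((hM' x).2 hx)⟩

theorem final (M : Set (H →L[ℂ] H)) (hs : ∀ x ∈ M, star x ∈ M)
    (hc : Set.centralizer (Set.centralizer M) = M) (Ω : H) (h1 : ‖Ω‖ = 1)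
    (h2 : ∀ x ∈ M, ∀ y ∈ M, ⟪Ω, (x * y) Ω⟫_ℂ = ⟪Ω, (y * x) Ω⟫_ℂ)
    (h3 : Dense {ξ : H | ∃ x ∈ M, x Ω = ξ})
    (ρ : (H →L[ℂ] H) → (H →L[ℂ] H)) (hρ : ∀ x ∈ M, ∀ y ∈ M, ρ y (x Ω) = (x * y) Ω)
    (D : StarSubalgebra ℂ (H →L[ℂ] H))
    (hD : Set.centralizer (Set.centralizer (D : Set (H →L[ℂ] H))) = M)
    (d : D →ₗ[ℂ] KK H)
    (leibniz : ∀ x y : D, d (x * y) = lact (x : H →L[ℂ] H) (d y) +
      rleg (ρ (y : H →L[ℂ] H)) (d x))
    (closable : ∀ ξ : KK H, ((0 : H), ξ) ∈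
      closure {q : H × KK H | ∃ x : D, q = ((x : H →L[ℂ] H) Ω, d x)} → ξ = 0)
    (C : ℝ) (hstar : ∀ x : D, ‖d (star x)‖ ≤ C * (‖d x‖ + ‖(x : H →L[ℂ] H) Ω‖))
    (S : ℝ → H →L[ℂ] H)
    (heat : Heat {q : H × KK H | ∃ x : D, q = ((x : H →L[ℂ] H) Ω, d x)} S)
    (unif : ∀ ε : ℝ, 0 < ε → ∃ t₀ : ℝ, 0 < t₀ ∧ ∀ t : ℝ, 0 < t → t ≤ t₀ → ∀ g ∈ M, ‖g‖ ≤ 1 →
      ‖S t (g Ω) - g Ω‖ ≤ ε) :
    ∃ η : Submodule ℂ (KK H × KK H), IsClosed (η : Set (KK H × KK H)) ∧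
      (∀ u ∈ Set.centralizer (Set.centralizer (Set.centralizer (gens M ρ))), ∀ p ∈ η,
        (u p.1, u p.2) ∈ η) ∧
      Dense {ζ : KK H | ∃ ω, (ζ, ω) ∈ η} ∧ (∀ ω : KK H, ((0 : KK H), ω) ∈ η → ω = 0) ∧
      ∀ x : D, closure {p : KK H × KK H | ∃ q ∈ η, p = (q.1, lact (x : H →L[ℂ] H) q.2 -
        rleg (ρ (x : H →L[ℂ] H)) q.2)} =
      closure {p : KK H × KK H | ∃ u ∈ Set.centralizer (Set.centralizer (Set.centralizer
        (gens M ρ))), p = (u ((Ω ⊗ₜ[ℂ] Ω : H ⊗[ℂ] H) : KK H), u (d x))} := by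
  obtain ⟨M', hM'⟩ := exists_vN M hs hc
  have tv : IsTV M'.toStarSubalgebra Ω := by
    refine ⟨h1, fun x hx y hy => h2 x ((hM' x).1 hx) y ((hM' y).1 hy), ?_⟩
    refine h3.mono ?_
    rintro ξ ⟨x, hx, rfl⟩
    exact ⟨x, (hM' x).2 hx, rfl⟩
  obtain ⟨T₀, hT1, hT2, hT3⟩ := exists_coarse (H := H)
  let T : Std H (KK H) :=
    ⟨M', Ω, tv, T₀, ρ, fun x hx y hy => hρ x ((hM' x).1 hx) y ((hM' y).1 hy)⟩
  have hl : ∀ x, T.l x = lact x := hT2
  have hr : ∀ y, T.r y = rleg (ρ y) := fun y => hT3 _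
  have hDM : ∀ x ∈ D, x ∈ M := by
    intro x hx
    rw [← hD]
    exact Set.subset_centralizer_centralizer hx
  have hN : ∀ A : KK H →L[ℂ] KK H, A ∈ NK T ↔
      A ∈ Set.centralizer (Set.centralizer (gens M ρ)) := by
    intro A
    have e1 : ({A : KK H →L[ℂ] KK H | ∃ x ∈ T.M, A = T.l x} ∪
      {A : KK H →L[ℂ] KK H | ∃ y ∈ T.M, A = T.r y}) = gens M ρ := by
      ext Z
      constructor
      · rintro (⟨x, hx, rfl⟩ | ⟨y, hy, rfl⟩)
        · exact Or.inl ⟨x, (hM' x).1 hx, hl x⟩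
        · exact Or.inr ⟨y, (hM' y).1 hy, hr y⟩
      · rintro (⟨x, hx, rfl⟩ | ⟨y, hy, rfl⟩)
        · exact Or.inl ⟨x, (hM' x).2 hx, (hl x).symm⟩
        · exact Or.inr ⟨y, (hM' y).2 hy, (hr y).symm⟩
    rw [NK_mem_iff, StarSubalgebra.mem_centralizer_iff, e1]
    constructor
    · intro h
      rw [Set.mem_centralizer_iff]
      exact fun m hm => (h m hm).1
    · intro h z hz
      rw [Set.mem_centralizer_iff] at h
      refine ⟨h z hz, h (star z) (star_centralizer _ ?_ hz)⟩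
      intro Z hZ
      rw [← e1] at hZ ⊢
      exact NK_star_gen T Z hZ
  have hNc : ∀ u : KK H →L[ℂ] KK H, u ∈ (NK T).commutant ↔
      u ∈ Set.centralizer (Set.centralizer (Set.centralizer (gens M ρ))) := by
    intro u
    rw [VonNeumannAlgebra.mem_commutant_iff, Set.mem_centralizer_iff]
    exact ⟨fun h m hm => h m ((hN m).2 hm), fun h m hm => h m ((hN m).1 hm)⟩
  obtain ⟨A, hA, β, B, hB, c, hAi, hBi, hAc, hx⟩ := general_pair T D
    (fun x hx => (hM' x).2 (hDM x hx))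
    (by
      intro Z hZ
      have h4 : Z ∈ Set.centralizer M := by
        rw [← hD, Set.centralizer_centralizer_centralizer]
        exact Set.mem_centralizer_iff.2 hZ
      rw [VonNeumannAlgebra.mem_commutant_iff]
      intro g hg
      exact h4 g ((hM' g).1 hg))
    d (by intro x y; rw [hl, hr]; exact leibniz x y) closable (max C 0) (le_max_right _ _)
    (by
      intro x
      refine (hstar x).trans ?_
      exact mul_le_mul_of_nonneg_right (le_max_left _ _)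
        (add_nonneg (norm_nonneg _) (norm_nonneg _)))
    S heat (by
      intro ε hε
      obtain ⟨t₀, ht₀, h5⟩ := unif ε hε
      exact ⟨t₀, ht₀, fun t ht htt g hg hg1 => h5 t ht htt g ((hM' g).1 hg) hg1⟩)
  have htp : T.T.tp T.Ω T.Ω = ((Ω ⊗ₜ[ℂ] Ω : H ⊗[ℂ] H) : KK H) := hT1 Ω Ω
  obtain ⟨η, hη, hη'⟩ := aff (NK T) (T.T.tp T.Ω T.Ω) (isTV_NK T) A hA hAi B hB hBi β c hAc
  refine ⟨η, hη.closed, fun u hu p hp => hη.inv u ((hNc u).2 hu) p hp, hη.dense, hη.sv,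
    fun x => ?_⟩
  have hTx : lact (x : H →L[ℂ] H) - rleg (ρ (x : H →L[ℂ] H)) ∈ NK T := by
    have h6 := l_mem_NK T ((hM' x).2 (hDM x x.2))
    have h7 := r_mem_NK T ((hM' x).2 (hDM x x.2))
    rw [hl] at h6
    rw [hr] at h7
    exact sub_mem h6 h7
  have h8 := hη' _ hTx (d x) (by rw [hx x, hl, hr]; rfl)
  have h9 : (opOf (NK T) (T.T.tp T.Ω T.Ω) (d x) : Set (KK H × KK H)) =
      closure {p : KK H × KK H | ∃ u ∈ Set.centralizer (Set.centralizer (Set.centralizer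
        (gens M ρ))), p = (u ((Ω ⊗ₜ[ℂ] Ω : H ⊗[ℂ] H) : KK H), u (d x))} := by
    rw [htp]
    unfold opOf
    rw [Submodule.topologicalClosure_coe]
    congr 1
    apply Set.Subset.antisymm
    · intro p hp
      induction hp using Submodule.span_induction with
      | mem p hp =>
        obtain ⟨u, hu, rfl⟩ := hp
        exact ⟨u, (hNc u).1 hu, rfl⟩
      | zero => exact ⟨0, Set.zero_mem_centralizer, rfl⟩
      | add p q _ _ hp hq =>
        obtain ⟨u, hu, rfl⟩ := hp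
        obtain ⟨w, hw, rfl⟩ := hq
        exact ⟨u + w, Set.add_mem_centralizer hu hw, by simp⟩
      | smul a p _ hp =>
        obtain ⟨u, hu, rfl⟩ := hp
        refine ⟨a • u, ?_, by simp⟩
        rw [Set.mem_centralizer_iff] at hu ⊢
        intro m hm
        rw [mul_smul_comm, smul_mul_assoc, hu m hm]
    · rintro p ⟨u, hu, rfl⟩
      exact Submodule.subset_span ⟨u, (hNc u).2 hu, rfl⟩
  rw [← h9, ← h8]
  rfl

end

end Pool.H62.UC
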