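import Pool.Agent.H62.UC.Comm
import Pool.Agent.H62.UC.JuncA
import Pool.Agent.H62.UC.CloseA

/-!
# TCOMP: a compact central operator with kernel `(1 - e) H`

Let `κ_u = tp (u e Ω) (u* e Ω) ∈ K` for `u ∈ UM S` (note `u* e Ω = J (u e Ω)`).  Let `κ₀` be the
element of minimal norm of the closed convex hull of `{κ_u}`.
* `l v (r v* κ_u) = κ_{v u}`, so `κ₀` is invariant under the isometries `l v r v*`, hence
  `l x κ₀ = r x κ₀` for `x ∈ UM S`, hence for `x ∈ M` (`four_unitaries`).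
* `(L (ρ v)) (R v*) κ_u = κ_{u v}`, so `κ₀` is invariant under these too.
* Let `T_κ : H → H` be defined by `⟪ζ, T_κ ω⟫ = ⟪tp ζ (J ω), κ⟫` (`J` from `exists_J`).
  `T_{κ_u} = |u e Ω⟩⟨u e Ω|`.  `T_κ` is compact: it is a norm limit of finite rank operators
  (`‖T_κ‖ ≤ ‖κ‖`, `T_{tp a b} = |a⟩⟨J b|`).
  Invariance of `κ₀` gives: `T = T_{κ₀}` commutes with `M` and with `ρ(M)`, so `T ∈ M` is central
  (`mem_of_comm_ρ`).  `T` is positive (limit of convex combinations of positive operators).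
  `T (1 - e) = 0` likewise.
* kernel: the projection `p₀` on `ker T` is central; put `p = p₀ e`, `T p = 0`; claim `p = 0`.
  The set `{p u e Ω} ` has compact closure; if `p Ω ≠ 0` choose a finite dimensional projection `Q`
  with `‖(1 - Q) p u e Ω‖ ≤ ‖p Ω‖/2` for all `u`; note `‖p u e Ω‖ = ‖u p Ω‖ = ‖p Ω‖`.
  The functional `f(κ) = ∑_j ⟪q_j, p T_κ p q_j⟫` (`q_j` an orthonormal basis of the range of `Q`) is
  continuous and linear, `f(κ_u) = ‖Q p u e Ω‖² ≥ ‖p Ω‖²/4`, so `f(κ₀) ≥ ‖p Ω‖²/4 > 0`,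
  contradicting `T p = 0`.
-/

namespace Pool.H62.UC

open scoped InnerProductSpace TensorProduct ComplexConjugate
open Filter Topology

noncomputable section

variable {H : Type*} [NormedAddCommGroup H] [InnerProductSpace ℂ H] [CompleteSpace H]
variable {K : Type*} [NormedAddCommGroup K] [InnerProductSpace ℂ K] [CompleteSpace K]

theorem TCOMP_flip_norm (S : Std H K) (J : H → H) (hnorm : ∀ ζ, ‖J ζ‖ = ‖ζ‖) (ω : H) :
    ‖S.T.tp.flip (J ω)‖ ≤ ‖ω‖ := by
  refine ContinuousLinearMap.opNorm_le_bound _ (norm_nonneg _) fun ζ => ?_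
  rw [ContinuousLinearMap.flip_apply, S.T.norm_tp, hnorm, mul_comm]

/-- Hilbert-Schmidt operators from vectors of `K` -/
theorem exists_hs (S : Std H K) (J : H → H) (hadd : ∀ ζ ω, J (ζ + ω) = J ζ + J ω)
    (hsmul : ∀ (c : ℂ) ζ, J (c • ζ) = conj c • J ζ) (hnorm : ∀ ζ, ‖J ζ‖ = ‖ζ‖) :
    ∃ T : K →L[ℂ] (H →L[ℂ] H), (∀ κ, ‖T κ‖ ≤ ‖κ‖) ∧
      (∀ κ ζ ω, ⟪ζ, T κ ω⟫_ℂ = ⟪S.T.tp ζ (J ω), κ⟫_ℂ) ∧ (∀ κ, IsCompactOperator (T κ)) := by
  let B : K →ₗ[ℂ] H →ₗ[ℂ] H := LinearMap.mk₂ ℂ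
    (fun κ ω => ContinuousLinearMap.adjoint (S.T.tp.flip (J ω)) κ)
    (fun κ κ' ω => map_add _ _ _) (fun c κ ω => map_smul _ _ _)
    (fun κ ω ω' => by
      rw [hadd, map_add, map_add]
      rfl)
    (fun c κ ω => by
      rw [hsmul, map_smul, LinearIsometryEquiv.map_smulₛₗ]
      simp)
  have hB : ∀ κ ω, ‖B κ ω‖ ≤ ‖κ‖ * ‖ω‖ := by
    intro κ ω
    change ‖ContinuousLinearMap.adjoint (S.T.tp.flip (J ω)) κ‖ ≤ _
    refine (ContinuousLinearMap.le_opNorm _ _).trans ?_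
    rw [LinearIsometryEquiv.norm_map, mul_comm]
    exact mul_le_mul_of_nonneg_left (TCOMP_flip_norm S J hnorm ω) (norm_nonneg _)
  let T : K →L[ℂ] (H →L[ℂ] H) := B.mkContinuous₂ 1 (fun κ ω => by
    rw [one_mul]; exact hB κ ω)
  have hT : ∀ κ ω, T κ ω = ContinuousLinearMap.adjoint (S.T.tp.flip (J ω)) κ := fun κ ω => rfl
  have hTi : ∀ κ ζ ω, ⟪ζ, T κ ω⟫_ℂ = ⟪S.T.tp ζ (J ω), κ⟫_ℂ := by
    intro κ ζ ω
    rw [hT, ContinuousLinearMap.adjoint_inner_right, ContinuousLinearMap.flip_apply]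
  refine ⟨T, fun κ => ContinuousLinearMap.opNorm_le_bound _ (norm_nonneg _) (hB κ), hTi, ?_⟩
  refine S.T.induction (fun κ => IsCompactOperator (T κ)) ?_ ?_ ?_ ?_
  · intro a b
    by_cases ha : a = 0
    · have h0 : T (S.T.tp a b) = 0 := by
        rw [ha, map_zero]
        simp
      rw [h0]
      exact isCompactOperator_zero
    · have h1 : ∀ ω, T (S.T.tp a b) ω = ((‖a‖ : ℂ) ^ 2)⁻¹ • (⟪a, T (S.T.tp a b) ω⟫_ℂ • a) := by
        intro ω
        refine ext_inner_left ℂ fun ζ => ?_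
        rw [inner_smul_right, inner_smul_right, hTi, hTi, S.T.inner_tp, S.T.inner_tp,
          inner_self_eq_norm_sq_to_K]
        have hn : ((‖a‖ : ℂ)) ≠ 0 := by
          simpa using ha
        field_simp
        rfl
      have h2 : (T (S.T.tp a b) : H → H) = (ContinuousLinearMap.toSpanSingleton ℂ
          (((‖a‖ : ℂ) ^ 2)⁻¹ • a)) ∘ ((innerSL ℂ a) ∘L (T (S.T.tp a b))) := by
        funext ω
        conv_lhs => rw [h1]
        simp only [Function.comp_apply, ContinuousLinearMap.comp_apply, innerSL_apply_apply,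
          ContinuousLinearMap.toSpanSingleton_apply]
        rw [smul_comm]
      rw [h2]
      apply IsCompactOperator.clm_comp
      exact isCompactOperator_of_locallyCompactSpace_dom _
  · intro x y hx hy
    have : (T (x + y) : H → H) = (T x : H → H) + (T y : H → H) := by
      rw [map_add]; rfl
    rw [this]
    exact hx.add hy
  · intro c x hx
    have : (T (c • x) : H → H) = c • (T x : H → H) := by
      rw [map_smul]; rfl
    rw [this]
    exact hx.smul c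
  · exact isClosed_setOfPred_isCompactOperator.preimage T.continuous

/-- the element of minimal norm of a closed convex hull -/
theorem TCOMP_min {F : Type*} [NormedAddCommGroup F] [InnerProductSpace ℂ F] [CompleteSpace F]
    (s : Set F) (hs : s.Nonempty) :
    ∃ v : F, (∀ D : Set F, Convex ℝ D → IsClosed D → s ⊆ D → v ∈ D) ∧
      ∀ U : F →L[ℂ] F, (∀ x, ‖U x‖ ≤ ‖x‖) → (∀ x ∈ s, U x ∈ s) → U v = v := by
  let : InnerProductSpace ℝ F := InnerProductSpace.rclikeToReal ℂ F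
  set C : Set F := closure (convexHull ℝ s) with hC
  have hconv : Convex ℝ C := (convex_convexHull ℝ s).closure
  have hne : C.Nonempty := (hs.mono (subset_convexHull ℝ s)).closure
  obtain ⟨v, hv, hvm⟩ := exists_norm_eq_iInf_of_complete_convex hne
    (isClosed_closure.isComplete) hconv 0
  have hin := (norm_eq_iInf_iff_real_inner_le_zero hconv hv).1 hvm
  have hsub : ∀ D : Set F, Convex ℝ D → IsClosed D → s ⊆ D → C ⊆ D := fun D h1 h2 h3 =>
    closure_minimal (convexHull_min h3 h1) h2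
  refine ⟨v, fun D h1 h2 h3 => hsub D h1 h2 h3 hv, fun U hU hUs => ?_⟩
  have hUC : U v ∈ C := by
    have h := hsub (U ⁻¹' C) (hconv.linear_preimage ((U : F →ₗ[ℂ] F).restrictScalars ℝ))
      (isClosed_closure.preimage U.continuous)
      (fun x hx => subset_closure (subset_convexHull ℝ s (hUs x hx)))
    exact h hv
  have h1 := hin (U v) hUC
  rw [zero_sub, inner_neg_left, inner_sub_right, real_inner_self_eq_norm_sq] at h1
  have h2 := norm_sub_sq_real (U v) v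
  have h3 : ‖U v‖ ^ 2 ≤ ‖v‖ ^ 2 := pow_le_pow_left₀ (norm_nonneg _) (hU v) 2
  rw [real_inner_comm] at h1
  have h4 : ‖U v - v‖ ^ 2 ≤ 0 := by linarith
  have h5 : ‖U v - v‖ = 0 := by
    have := sq_nonneg ‖U v - v‖
    have h6 : ‖U v - v‖ ^ 2 = 0 := le_antisymm h4 this
    exact pow_eq_zero_iff two_ne_zero |>.1 h6
  exact sub_eq_zero.1 (norm_eq_zero.1 h5)

theorem TCOMP_conj_left (J : H → H) (hadd : ∀ ζ ω, J (ζ + ω) = J ζ + J ω)
    (hnorm : ∀ ζ, ‖J ζ‖ = ‖ζ‖) : Continuous J := by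
  have hneg : ∀ ζ, J (-ζ) = - J ζ := by
    intro ζ
    have h0 : J 0 = 0 := by
      have := hnorm 0
      rw [norm_zero, norm_eq_zero] at this
      exact this
    have := hadd ζ (-ζ)
    rw [add_neg_cancel, h0] at this
    exact (neg_eq_of_add_eq_zero_right this.symm).symm
  have hiso : Isometry J := by
    refine Isometry.of_dist_eq fun a b => ?_
    rw [dist_eq_norm, dist_eq_norm, ← hnorm (a - b), sub_eq_add_neg a b, hadd, hneg,
      ← sub_eq_add_neg]
  exact hiso.continuous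

theorem TCOMP_span (S : Std H K) {V : Type*} [AddCommGroup V] [Module ℂ V]
    (A B : (H →L[ℂ] H) → V)
    (hA : ∀ x ∈ S.M, ∀ y ∈ S.M, A (x + y) = A x + A y) (hA' : ∀ (c : ℂ), ∀ x ∈ S.M,
      A (c • x) = c • A x)
    (hB : ∀ x ∈ S.M, ∀ y ∈ S.M, B (x + y) = B x + B y) (hB' : ∀ (c : ℂ), ∀ x ∈ S.M,
      B (c • x) = c • B x)
    (h : ∀ u ∈ UM S, A u = B u) : ∀ x ∈ S.M, A x = B x := by
  intro x hx
  obtain ⟨w, c, hw, rfl⟩ := four_unitaries S x hx
  have hm : ∀ j, w j ∈ S.M := fun j => (hw j).1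
  have hs : ∀ j, c j • w j ∈ S.M := fun j => S.smul_mem _ (hm j)
  simp only [Fin.sum_univ_four]
  rw [hA _ (add_mem (add_mem (hs 0) (hs 1)) (hs 2)) _ (hs 3),
    hA _ (add_mem (hs 0) (hs 1)) _ (hs 2), hA _ (hs 0) _ (hs 1),
    hB _ (add_mem (add_mem (hs 0) (hs 1)) (hs 2)) _ (hs 3),
    hB _ (add_mem (hs 0) (hs 1)) _ (hs 2), hB _ (hs 0) _ (hs 1)]
  simp only [hA' _ _ (hm _), hB' _ _ (hm _), h _ (hw _)]

theorem TCOMP_proj (T : H →L[ℂ] H) (x : H →L[ℂ] H) (h1 : T * x = x * T)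
    (h2 : T * star x = star x * T) (N : Submodule ℂ H) [N.HasOrthogonalProjection]
    (hN : ∀ ξ, ξ ∈ N ↔ T ξ = 0) (ξ : H) :
    N.starProjection (x ξ) = x (N.starProjection ξ) := by
  have hx : ∀ y : H →L[ℂ] H, T * y = y * T → ∀ η ∈ N, y η ∈ N := by
    intro y hy η hη
    rw [hN] at hη ⊢
    have : (T * y) η = (y * T) η := by rw [hy]
    change T (y η) = y (T η) at this
    rw [this, hη, map_zero]
  apply Submodule.eq_starProjection_of_mem_of_inner_eq_zero
  · exact hx x h1 _ (N.starProjection_apply_mem ξ)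
  · intro w hw
    rw [← map_sub, ← ContinuousLinearMap.adjoint_inner_right,
      ← ContinuousLinearMap.star_eq_adjoint]
    exact Submodule.starProjection_inner_eq_zero _ _ (hx _ h2 w hw)

theorem central_compact (S : Std H K) (e : H →L[ℂ] H) (he : IsStarProjection e) (heM : e ∈ S.M)
    (hec : ∀ x ∈ S.M, e * x = x * e)
    (hcomp : IsCompact (closure {ξ : H | ∃ u ∈ UM S, u (e S.Ω) = ξ})) :
    ∃ T : H →L[ℂ] H, IsCompactOperator T ∧ T.IsPositive ∧ T ∈ S.M ∧ (∀ x ∈ S.M, T * x = x * T) ∧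
      (T * e = T) ∧ (∀ ξ, T ξ = 0 → e ξ = 0) := by
  obtain ⟨J, hadd, hsmul, hnorm, hJJ, hJin, hJdc, -⟩ := exists_J S.M.toStarSubalgebra S.Ω S.tv
  have hJM : ∀ x ∈ S.M, J (x S.Ω) = (star x) S.Ω := fun x hx =>
    hJdc x (Set.subset_centralizer_centralizer hx)
  have hJc : Continuous J := TCOMP_conj_left J hadd hnorm
  have hJl : ∀ x ∈ S.M, ∀ ω, J (x ω) = S.ρ (star x) (J ω) := by
    intro x hx ω
    refine S.tv.cyclic.induction (P := fun ω => J (x ω) = S.ρ (star x) (J ω)) ?_ ?_ ω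
    · rintro ξ ⟨y, hy, rfl⟩
      have h1 : x (y S.Ω) = (x * y) S.Ω := rfl
      rw [h1, hJM _ (mul_mem hx hy), hJM _ hy, S.ρ_apply _ (star_mem hy) _ (star_mem hx),
        star_mul]
    · exact isClosed_eq (hJc.comp x.continuous) ((S.ρ (star x)).continuous.comp hJc)
  have hJr : ∀ x ∈ S.M, ∀ ω, J (S.ρ x ω) = (star x) (J ω) := by
    intro x hx ω
    refine S.tv.cyclic.induction (P := fun ω => J (S.ρ x ω) = (star x) (J ω)) ?_ ?_ ω
    · rintro ξ ⟨y, hy, rfl⟩
      rw [S.ρ_apply _ hy _ hx, hJM _ (mul_mem hy hx), hJM _ hy, star_mul]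
      rfl
    · exact isClosed_eq (hJc.comp (S.ρ x).continuous) ((star x).continuous.comp hJc)
  obtain ⟨T, hT1, hT2, hT3⟩ := exists_hs S J hadd hsmul hnorm
  have hes : star e = e := he.isSelfAdjoint
  have hee : e * e = e := he.isIdempotentElem
  set κ : (H →L[ℂ] H) → K := fun u => S.T.tp (u (e S.Ω)) ((star u) (e S.Ω)) with hκ
  set s : Set K := {k | ∃ u ∈ UM S, κ u = k} with hs
  have hJe : ∀ u ∈ S.M, J (u (e S.Ω)) = (star u) (e S.Ω) := by
    intro u hu
    have h1 : u (e S.Ω) = (u * e) S.Ω := rfl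
    rw [h1, hJM _ (mul_mem hu heM), star_mul, hes, hec _ (star_mem hu)]
    rfl
  have hTκ : ∀ u ∈ S.M, ∀ ζ ω, ⟪ζ, T (κ u) ω⟫_ℂ = ⟪ζ, u (e S.Ω)⟫_ℂ * ⟪u (e S.Ω), ω⟫_ℂ := by
    intro u hu ζ ω
    rw [hT2, hκ]
    simp only
    rw [S.T.inner_tp, ← hJe u hu, hJin]
  obtain ⟨k₀, hmem, hfix⟩ := TCOMP_min s ⟨κ 1, 1, UM_one S, rfl⟩
  -- left right invariance
  have hcon : ∀ x : H →L[ℂ] H, ‖x‖ ≤ 1 → ∀ k : K, ‖S.T.L x k‖ ≤ ‖k‖ := by
    intro x hx k
    have := (S.T.L x).le_of_opNorm_le ((S.T.L_norm_le x).trans hx) k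
    simpa using this
  have hconR : ∀ x : H →L[ℂ] H, ‖x‖ ≤ 1 → ∀ k : K, ‖S.T.R x k‖ ≤ ‖k‖ := by
    intro x hx k
    have := (S.T.R x).le_of_opNorm_le ((S.T.R_norm_le x).trans hx) k
    simpa using this
  have inv1 : ∀ v ∈ UM S, S.l v (S.r (star v) k₀) = k₀ := by
    intro v hv
    refine hfix (S.l v * S.r (star v)) ?_ ?_
    · intro x
      refine (hcon v (UM_norm S hv) _).trans (hconR _ ?_ _)
      exact (S.ρ_norm_le (star_mem hv.1)).trans (UM_norm S (UM_star S hv))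
    · rintro x ⟨u, hu, rfl⟩
      refine ⟨v * u, UM_mul S hv hu, ?_⟩
      change _ = S.l v (S.r (star v) (κ u))
      simp only [hκ]
      rw [S.r_tp, S.l_tp]
      have h1 : (star u) (e S.Ω) = (star u * e) S.Ω := rfl
      rw [h1, S.ρ_apply _ (mul_mem (star_mem hu.1) heM) _ (star_mem hv.1), mul_assoc,
        hec _ (star_mem hv.1), ← mul_assoc, ← star_mul]
      rfl
  have inv2 : ∀ v ∈ UM S, S.T.L (S.ρ v) (S.T.R (star v) k₀) = k₀ := by
    intro v hv
    refine hfix (S.T.L (S.ρ v) * S.T.R (star v)) ?_ ?_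
    · intro x
      refine (hcon _ ((S.ρ_norm_le hv.1).trans (UM_norm S hv)) _).trans
        (hconR _ (UM_norm S (UM_star S hv)) _)
    · rintro x ⟨u, hu, rfl⟩
      refine ⟨u * v, UM_mul S hu hv, ?_⟩
      change _ = S.T.L (S.ρ v) (S.T.R (star v) (κ u))
      simp only [hκ]
      rw [S.T.R_tp, S.T.L_tp]
      have h1 : u (e S.Ω) = (u * e) S.Ω := rfl
      rw [h1, S.ρ_apply _ (mul_mem hu.1 heM) _ hv.1, mul_assoc, hec _ hv.1, ← mul_assoc,
        star_mul]
      rfl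
  have hu1 : ∀ v ∈ UM S, star v * v = 1 := fun v hv => (Unitary.mem_iff.1 hv.2).1
  have hu2 : ∀ v ∈ UM S, v * star v = 1 := fun v hv => (Unitary.mem_iff.1 hv.2).2
  have lr : ∀ x ∈ S.M, S.l x k₀ = S.r x k₀ := by
    refine TCOMP_span S (fun x => S.l x k₀) (fun x => S.r x k₀) ?_ ?_ ?_ ?_ ?_
    · intro x _ y _
      simp only [S.l_add]; rfl
    · intro c x _
      simp only [S.l_smul]; rfl
    · intro x hx y hy
      simp only [S.r_add hx hy]; rfl
    · intro c x hx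
      simp only [S.r_smul c hx]; rfl
    · intro u hu
      have h1 := inv1 (star u) (UM_star S hu)
      rw [star_star] at h1
      have h2 : S.l u (S.l (star u) (S.r u k₀)) = S.r u k₀ := by
        have : S.l u (S.l (star u) (S.r u k₀)) = (S.l u * S.l (star u)) (S.r u k₀) := rfl
        rw [this, ← S.l_mul, hu2 u hu, S.l_one]
        rfl
      rw [h1] at h2
      exact h2
  have LR : ∀ x ∈ S.M, S.T.L (S.ρ x) k₀ = S.T.R x k₀ := by
    refine TCOMP_span S (fun x => S.T.L (S.ρ x) k₀) (fun x => S.T.R x k₀) ?_ ?_ ?_ ?_ ?_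
    · intro x hx y hy
      simp only [S.ρ_add hx hy, map_add]; rfl
    · intro c x hx
      simp only [S.ρ_smul c hx, map_smul]; rfl
    · intro x hx y hy
      simp only [map_add]; rfl
    · intro c x hx
      simp only [map_smul]; rfl
    · intro u hu
      have h1 := inv2 (star u) (UM_star S hu)
      rw [star_star] at h1
      have h2 : S.T.L (S.ρ u) (S.T.L (S.ρ (star u)) (S.T.R u k₀)) = S.T.R u k₀ := by
        have : S.T.L (S.ρ u) (S.T.L (S.ρ (star u)) (S.T.R u k₀)) =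
          (S.T.L (S.ρ u) * S.T.L (S.ρ (star u))) (S.T.R u k₀) := rfl
        rw [this, ← map_mul, ← S.ρ_mul (star_mem hu.1) hu.1, hu1 u hu, S.ρ_one, map_one]
        rfl
      rw [h1] at h2
      exact h2
  have comm1 : ∀ x ∈ S.M, T k₀ * x = x * T k₀ := by
    intro x hx
    refine ContinuousLinearMap.ext fun ω => ext_inner_left ℂ fun ζ => ?_
    change ⟪ζ, T k₀ (x ω)⟫_ℂ = ⟪ζ, x (T k₀ ω)⟫_ℂ
    have h1 : ⟪ζ, x (T k₀ ω)⟫_ℂ = ⟪(star x) ζ, T k₀ ω⟫_ℂ := by
      rw [ContinuousLinearMap.star_eq_adjoint, ContinuousLinearMap.adjoint_inner_left]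
    rw [h1, hT2, hT2, hJl x hx, ← S.r_tp, ← S.l_tp, S.r_star hx, S.l_star,
      ContinuousLinearMap.star_eq_adjoint, ContinuousLinearMap.star_eq_adjoint,
      ContinuousLinearMap.adjoint_inner_left, ContinuousLinearMap.adjoint_inner_left, lr x hx]
  have comm2 : ∀ x ∈ S.M, T k₀ * S.ρ x = S.ρ x * T k₀ := by
    intro x hx
    refine ContinuousLinearMap.ext fun ω => ext_inner_left ℂ fun ζ => ?_
    change ⟪ζ, T k₀ (S.ρ x ω)⟫_ℂ = ⟪ζ, S.ρ x (T k₀ ω)⟫_ℂ
    have h1 : ⟪ζ, S.ρ x (T k₀ ω)⟫_ℂ = ⟪(star (S.ρ x)) ζ, T k₀ ω⟫_ℂ := by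
      rw [ContinuousLinearMap.star_eq_adjoint, ContinuousLinearMap.adjoint_inner_left]
    rw [h1, hT2, hT2, hJr x hx, ← S.T.R_tp, ← S.T.L_tp, map_star, map_star,
      ContinuousLinearMap.star_eq_adjoint, ContinuousLinearMap.star_eq_adjoint,
      ContinuousLinearMap.adjoint_inner_left, ContinuousLinearMap.adjoint_inner_left, LR x hx]
  -- positivity
  have hpos : ∀ ω, (⟪ω, T k₀ ω⟫_ℂ).im = 0 ∧ 0 ≤ (⟪ω, T k₀ ω⟫_ℂ).re := by
    intro ω
    have hcont : Continuous fun k => ⟪ω, T k ω⟫_ℂ := by fun_prop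
    refine hmem {k | (⟪ω, T k ω⟫_ℂ).im = 0 ∧ 0 ≤ (⟪ω, T k ω⟫_ℂ).re} ?_ ?_ ?_
    · intro x hx y hy a b ha hb hab
      simp only [Set.mem_ofPred_eq] at hx hy ⊢
      have e1 : ⟪ω, T (a • x + b • y) ω⟫_ℂ = (a : ℂ) * ⟪ω, T x ω⟫_ℂ + (b : ℂ) * ⟪ω, T y ω⟫_ℂ := by
        have e2 : a • x + b • y = (a : ℂ) • x + (b : ℂ) • y := rfl
        rw [e2, map_add, map_smul, map_smul]
        change ⟪ω, (a : ℂ) • T x ω + (b : ℂ) • T y ω⟫_ℂ = _
        rw [inner_add_right, inner_smul_right, inner_smul_right]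
      rw [e1, Complex.add_im, Complex.add_re, Complex.re_ofReal_mul, Complex.re_ofReal_mul,
        Complex.im_ofReal_mul, Complex.im_ofReal_mul, hx.1, hy.1]
      refine ⟨by ring, ?_⟩
      exact add_nonneg (mul_nonneg ha hx.2) (mul_nonneg hb hy.2)
    · exact (isClosed_eq (Complex.continuous_im.comp hcont) continuous_const).inter
        (isClosed_le continuous_const (Complex.continuous_re.comp hcont))
    · rintro k ⟨u, hu, rfl⟩
      simp only [Set.mem_ofPred_eq]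
      rw [hTκ u hu.1, ← inner_conj_symm ω, mul_comm, Complex.mul_conj]
      exact ⟨Complex.ofReal_im _, by rw [Complex.ofReal_re]; exact Complex.normSq_nonneg _⟩
  have hposT : (T k₀).IsPositive := by
    rw [ContinuousLinearMap.isPositive_iff_complex]
    intro ω
    have h1 : ⟪T k₀ ω, ω⟫_ℂ = conj ⟪ω, T k₀ ω⟫_ℂ := (inner_conj_symm _ _).symm
    obtain ⟨h2, h3⟩ := hpos ω
    refine ⟨?_, ?_⟩
    · apply Complex.ext
      · simp
      · simp only [Complex.ofReal_im]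
        rw [h1, Complex.conj_im, h2, neg_zero]
    · rw [h1]
      change 0 ≤ (conj ⟪ω, T k₀ ω⟫_ℂ).re
      rw [Complex.conj_re]
      exact h3
  have hTe : T k₀ * e = T k₀ := by
    have : k₀ ∈ {k : K | T k * e = T k} := by
      refine hmem _ ?_ ?_ ?_
      · intro x hx y hy a b ha hb hab
        simp only [Set.mem_ofPred_eq] at hx hy ⊢
        have e2 : a • x + b • y = (a : ℂ) • x + (b : ℂ) • y := rfl
        rw [e2, map_add, map_smul, map_smul, add_mul, smul_mul_assoc, smul_mul_assoc, hx, hy]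
      · exact isClosed_eq (T.continuous.mul continuous_const) T.continuous
      · rintro k ⟨u, hu, rfl⟩
        simp only [Set.mem_ofPred_eq]
        refine ContinuousLinearMap.ext fun ω => ext_inner_left ℂ fun ζ => ?_
        change ⟪ζ, T (κ u) (e ω)⟫_ℂ = _
        rw [hTκ u hu.1, hTκ u hu.1]
        congr 1
        rw [← ContinuousLinearMap.adjoint_inner_left, ← ContinuousLinearMap.star_eq_adjoint, hes]
        have h1 : e (u (e S.Ω)) = ((e * u) * e) S.Ω := rfl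
        rw [h1, hec u hu.1, mul_assoc, hee]
        rfl
    exact this
  refine ⟨T k₀, hT3 k₀, hposT, mem_of_comm_ρ S _ comm2, comm1, hTe, ?_⟩
  -- the kernel
  intro ξ hξ
  set N : Submodule ℂ H := LinearMap.ker (T k₀ : H →ₗ[ℂ] H) with hN
  have hNm : ∀ η, η ∈ N ↔ T k₀ η = 0 := fun η => LinearMap.mem_ker
  have hNc : IsClosed (N : Set H) := (T k₀).isClosed_ker
  have : CompleteSpace N := hNc.completeSpace_coe
  set p := N.starProjection with hp
  have hpc : ∀ x ∈ S.M, ∀ η, p (x η) = x (p η) := fun x hx η =>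
    TCOMP_proj (T k₀) x (comm1 x hx) (comm1 _ (star_mem hx)) N hNm η
  have hpξ : p ξ = ξ := Submodule.starProjection_eq_self_iff.2 ((hNm ξ).2 hξ)
  by_cases hc : p (e S.Ω) = 0
  · have h1 : ∀ η, p (e η) = 0 := by
      intro η
      refine S.tv.cyclic.induction (P := fun η => p (e η) = 0) ?_ ?_ η
      · rintro ζ ⟨y, hy, rfl⟩
        have h2 : e (y S.Ω) = (e * y) S.Ω := rfl
        rw [h2, hec y hy]
        change p (y (e S.Ω)) = 0
        rw [hpc y hy, hc, map_zero]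
      · exact isClosed_eq (p.continuous.comp e.continuous) continuous_const
    have h3 := h1 ξ
    rw [hpc e heM, hpξ] at h3
    exact h3
  exfalso
  set c : ℝ := ‖p (e S.Ω)‖ with hcdef
  have hcpos : 0 < c := norm_pos_iff.2 hc
  have htb : TotallyBounded {ξ : H | ∃ u ∈ UM S, u (e S.Ω) = ξ} :=
    hcomp.totallyBounded.subset subset_closure
  obtain ⟨t, hts, htf, htc⟩ := Metric.finite_approx_of_totallyBounded htb c hcpos
  have hpu : ∀ u ∈ UM S, ‖p (u (e S.Ω))‖ = c := by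
    intro u hu
    rw [hpc u hu.1, ContinuousLinearMap.norm_map_of_mem_unitary hu.2]
  have key : k₀ ∈ {k : K | c ^ 4 / 4 ≤ ∑ a ∈ htf.toFinset, (⟪p a, T k (p a)⟫_ℂ).re} := by
    have hcont : ∀ a : H, Continuous fun k => (⟪p a, T k (p a)⟫_ℂ).re := by
      intro a
      apply Complex.continuous_re.comp
      fun_prop
    refine hmem _ ?_ ?_ ?_
    · intro x hx y hy a b ha hb hab
      simp only [Set.mem_ofPred_eq] at hx hy ⊢
      have e1 : ∀ ω, (⟪ω, T (a • x + b • y) ω⟫_ℂ).re =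
          a * (⟪ω, T x ω⟫_ℂ).re + b * (⟪ω, T y ω⟫_ℂ).re := by
        intro ω
        have e2 : a • x + b • y = (a : ℂ) • x + (b : ℂ) • y := rfl
        rw [e2, map_add, map_smul, map_smul]
        change (⟪ω, (a : ℂ) • T x ω + (b : ℂ) • T y ω⟫_ℂ).re = _
        rw [inner_add_right, inner_smul_right, inner_smul_right, Complex.add_re,
          Complex.re_ofReal_mul, Complex.re_ofReal_mul]
      simp only [e1]
      rw [Finset.sum_add_distrib, ← Finset.mul_sum, ← Finset.mul_sum]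
      have h1 : c ^ 4 / 4 = a * (c ^ 4 / 4) + b * (c ^ 4 / 4) := by
        rw [← add_mul, hab, one_mul]
      rw [h1]
      exact add_le_add (mul_le_mul_of_nonneg_left hx ha) (mul_le_mul_of_nonneg_left hy hb)
    · exact isClosed_le continuous_const (continuous_finsetSum _ fun a _ => hcont a)
    · rintro k ⟨u, hu, rfl⟩
      simp only [Set.mem_ofPred_eq]
      have hterm : ∀ a, (⟪p a, T (κ u) (p a)⟫_ℂ).re = ‖⟪p a, u (e S.Ω)⟫_ℂ‖ ^ 2 := by
        intro a
        rw [hTκ u hu.1, ← inner_conj_symm (u (e S.Ω)) (p a), Complex.mul_conj, Complex.ofReal_re,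
          Complex.normSq_eq_norm_sq]
      simp only [hterm]
      have hmemu : u (e S.Ω) ∈ ⋃ y ∈ t, Metric.ball y c := htc ⟨u, hu, rfl⟩
      simp only [Set.mem_iUnion, Metric.mem_ball] at hmemu
      obtain ⟨a, hat, hda⟩ := hmemu
      obtain ⟨w, hw, hwa⟩ := hts hat
      have h1 : ‖p a‖ = c := by rw [← hwa]; exact hpu w hw
      have h2 : ‖p (u (e S.Ω))‖ = c := hpu u hu
      have h3 : ‖p (u (e S.Ω)) - p a‖ ≤ c := by
        rw [← map_sub]
        refine (Submodule.norm_starProjection_apply_le N _).trans ?_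
        rw [← dist_eq_norm]
        exact hda.le
      have h4 : ⟪p a, u (e S.Ω)⟫_ℂ = ⟪p a, p (u (e S.Ω))⟫_ℂ := by
        rw [← Submodule.inner_starProjection_left_eq_right, hp]
        rw [Submodule.starProjection_eq_self_iff.2 (N.starProjection_apply_mem a)]
      have h5 : c ^ 2 / 2 ≤ ‖⟪p a, u (e S.Ω)⟫_ℂ‖ := by
        rw [h4]
        have h6 := norm_sub_sq (𝕜 := ℂ) (p (u (e S.Ω))) (p a)
        rw [h1, h2] at h6
        have h7 : ‖p (u (e S.Ω)) - p a‖ ^ 2 ≤ c ^ 2 := pow_le_pow_left₀ (norm_nonneg _) h3 2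
        have h8 : RCLike.re ⟪p (u (e S.Ω)), p a⟫_ℂ ≤ ‖⟪p a, p (u (e S.Ω))⟫_ℂ‖ := by
          rw [norm_inner_symm]
          exact RCLike.re_le_norm _
        linarith
      have h6 : c ^ 4 / 4 ≤ ‖⟪p a, u (e S.Ω)⟫_ℂ‖ ^ 2 := by
        have := pow_le_pow_left₀ (by positivity) h5 2
        calc c ^ 4 / 4 = (c ^ 2 / 2) ^ 2 := by ring
          _ ≤ _ := this
      refine h6.trans ?_
      exact Finset.single_le_sum (f := fun a => ‖⟪p a, u (e S.Ω)⟫_ℂ‖ ^ 2)
        (fun i _ => sq_nonneg _) (htf.mem_toFinset.2 hat)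
  have hzero : ∑ a ∈ htf.toFinset, (⟪p a, T k₀ (p a)⟫_ℂ).re = 0 := by
    apply Finset.sum_eq_zero
    intro a _
    have : T k₀ (p a) = 0 := (hNm _).1 (N.starProjection_apply_mem a)
    rw [this, inner_zero_right]
    rfl
  simp only [Set.mem_ofPred_eq] at key
  rw [hzero] at key
  have : 0 < c ^ 4 / 4 := by positivity
  linarith

end

end Pool.H62.UC
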