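import Pool.Agent.H62.UC.OpDefs
import Pool.Agent.H62.UC.Jop

/-!
# OPOF: left multiplication operators are affiliated
-/

namespace Pool.H62.UC

open scoped InnerProductSpace TensorProduct ComplexConjugate
open Filter Topology

noncomputable section


variable {H : Type*} [NormedAddCommGroup H] [InnerProductSpace ℂ H] [CompleteSpace H]
variable {K : Type*} [NormedAddCommGroup K] [InnerProductSpace ℂ K] [CompleteSpace K]

/-- `N' v` is dense if no nonzero projection of `N` kills `v` -/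
theorem opof_dense (N : VonNeumannAlgebra K) (v : K)
    (hv : ∀ p ∈ N, p v = 0 → p = 0) : Dense {ζ : K | ∃ u ∈ N.commutant, u v = ζ} := by
  let V0 : Submodule ℂ K :=
    { carrier := {ζ : K | ∃ u ∈ N.commutant, u v = ζ}
      add_mem' := by
        rintro _ _ ⟨u, hu, rfl⟩ ⟨w, hw, rfl⟩
        exact ⟨u + w, add_mem hu hw, rfl⟩
      zero_mem' := ⟨0, zero_mem _, rfl⟩
      smul_mem' := by
        rintro c _ ⟨u, hu, rfl⟩
        exact ⟨c • u, N.commutant.toStarSubalgebra.toSubalgebra.smul_mem hu c, rfl⟩ }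
  have hVinv : ∀ u ∈ N.commutant, ∀ ζ ∈ V0ᗮ, u ζ ∈ V0ᗮ := by
    intro u hu ζ hζ
    rw [Submodule.mem_orthogonal] at hζ ⊢
    rintro _ ⟨w, hw, rfl⟩
    have h1 := hζ ((star u) (w v)) ⟨star u * w, mul_mem (star_mem hu) hw, rfl⟩
    rw [ContinuousLinearMap.star_eq_adjoint, ContinuousLinearMap.adjoint_inner_left] at h1
    exact h1
  have hp : V0ᗮ.starProjection ∈ N := by
    rw [VonNeumannAlgebra.IsStarProjection.mem_iff (isStarProjection_starProjection)]
    intro y hy
    rw [Submodule.range_starProjection]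
    intro ζ hζ
    exact hVinv y hy ζ hζ
  have hpv : V0ᗮ.starProjection v = 0 := by
    have h1 : v ∈ V0 := ⟨1, one_mem _, rfl⟩
    rw [Submodule.starProjection_apply_eq_zero_iff]
    rw [Submodule.mem_orthogonal]
    intro w hw
    rw [Submodule.mem_orthogonal] at hw
    rw [← inner_conj_symm, hw v h1, map_zero]
  have hp0 := hv _ hp hpv
  have hbot : V0ᗮ = ⊥ := by
    rw [Submodule.eq_bot_iff]
    intro x hx
    have h1 : V0ᗮ.starProjection x = x := Submodule.starProjection_eq_self_iff.2 hx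
    rw [hp0] at h1
    exact h1.symm
  have h2 : Dense (V0 : Set K) := by
    rw [Submodule.dense_iff_topologicalClosure_eq_top]
    exact (Submodule.topologicalClosure_eq_top_iff).2 hbot
  exact h2

/-- elements of the span are of the form `(u Ω, u k)` -/
theorem opof_span (N : VonNeumannAlgebra K) (Ω k : K) (p : K × K)
    (hp : p ∈ Submodule.span ℂ {p : K × K | ∃ u ∈ N.commutant, p = (u Ω, u k)}) :
    ∃ u ∈ N.commutant, p = (u Ω, u k) := by
  induction hp using Submodule.span_induction with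
  | mem x hx => exact hx
  | zero => exact ⟨0, zero_mem _, rfl⟩
  | add x y _ _ hx hy =>
    obtain ⟨u, hu, rfl⟩ := hx
    obtain ⟨w, hw, rfl⟩ := hy
    exact ⟨u + w, add_mem hu hw, rfl⟩
  | smul c x _ hx =>
    obtain ⟨u, hu, rfl⟩ := hx
    exact ⟨c • u, N.commutant.toStarSubalgebra.toSubalgebra.smul_mem hu c, rfl⟩

/-- `‖u* Ω‖ = ‖u Ω‖` for `u ∈ N'` -/
theorem opof_norm (N : VonNeumannAlgebra K) (Ω : K) (hN : IsTV N.toStarSubalgebra Ω)
    (u : K →L[ℂ] K) (hu : u ∈ N.commutant) : ‖(star u) Ω‖ = ‖u Ω‖ := by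
  have h1 := (isST_of N Ω hN).2.trace u hu (star u) (star_mem hu)
  have h2 : ⟪Ω, (u * star u) Ω⟫_ℂ = ⟪(star u) Ω, (star u) Ω⟫_ℂ := by
    show ⟪Ω, u ((star u) Ω)⟫_ℂ = _
    rw [ContinuousLinearMap.star_eq_adjoint, ContinuousLinearMap.adjoint_inner_left]
  have h3 : ⟪Ω, (star u * u) Ω⟫_ℂ = ⟪u Ω, u Ω⟫_ℂ := by
    show ⟪Ω, (star u) (u Ω)⟫_ℂ = _
    rw [ContinuousLinearMap.star_eq_adjoint, ContinuousLinearMap.adjoint_inner_right]
  rw [h2, h3, inner_self_eq_norm_sq_to_K, inner_self_eq_norm_sq_to_K] at h1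
  have h4 : ‖(star u) Ω‖ ^ 2 = ‖u Ω‖ ^ 2 := by exact_mod_cast h1
  exact (pow_left_inj₀ (norm_nonneg _) (norm_nonneg _) two_ne_zero).1 h4

/-- single valued: if `u_j Ω → 0`, `u_j k → κ` then for `m ∈ N`:
`⟪κ, m Ω⟫ = lim ⟪u_j k, m Ω⟫ = lim ⟪m* k, u_j* Ω⟫ = 0` as `‖u_j* Ω‖ = ‖u_j Ω‖` (`isST_of`). Domain
dense: `Ω` is cyclic for `N'` (separating for `N`: the projection on the orthogonal complement of
`closure (N' Ω)` is in `N` and kills `Ω`). -/
theorem opOf_affil (N : VonNeumannAlgebra K) (Ω : K) (hN : IsTV N.toStarSubalgebra Ω) (k : K) :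
    Affil N (opOf N Ω k) where
  closed := Submodule.isClosed_topologicalClosure _
  inv := by
    intro u hu p hp
    have hcont : Continuous (fun q : K × K => (u q.1, u q.2)) := by fun_prop
    refine map_mem_closure (f := fun q : K × K => (u q.1, u q.2)) hcont
      (s := (Submodule.span ℂ {p : K × K | ∃ u ∈ N.commutant, p = (u Ω, u k)} : Set (K × K)))
      hp ?_
    intro q hq
    obtain ⟨w, hw, rfl⟩ := opof_span N Ω k q hq
    exact Submodule.subset_span ⟨u * w, mul_mem hu hw, rfl⟩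
  dense := by
    have h1 := opof_dense N Ω (fun p hp hpΩ => (isST_of N Ω hN).1.sep p hp hpΩ)
    refine h1.mono ?_
    rintro _ ⟨u, hu, rfl⟩
    exact ⟨u k, Submodule.le_topologicalClosure _ (Submodule.subset_span ⟨u, hu, rfl⟩)⟩
  sv := by
    intro ω hω
    have hkey : ∀ m ∈ N, ⟪ω, m Ω⟫_ℂ = 0 := by
      intro m hm
      have hcl : IsClosed {p : K × K | ‖⟪p.2, m Ω⟫_ℂ‖ ≤ ‖(star m) k‖ * ‖p.1‖} := by
        refine isClosed_le ?_ ?_
        · fun_prop
        · fun_prop
      have hsub : (Submodule.span ℂ {p : K × K | ∃ u ∈ N.commutant, p = (u Ω, u k)} :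
          Set (K × K)) ⊆ {p : K × K | ‖⟪p.2, m Ω⟫_ℂ‖ ≤ ‖(star m) k‖ * ‖p.1‖} := by
        intro q hq
        obtain ⟨u, hu, rfl⟩ := opof_span N Ω k q hq
        show ‖⟪u k, m Ω⟫_ℂ‖ ≤ ‖(star m) k‖ * ‖u Ω‖
        have hcomm : m * star u = star u * m :=
          VonNeumannAlgebra.mem_commutant_iff.1 (star_mem hu) m hm
        have h1 : ⟪u k, m Ω⟫_ℂ = ⟪(star m) k, (star u) Ω⟫_ℂ := by
          calc ⟪u k, m Ω⟫_ℂ = ⟪k, (star u) (m Ω)⟫_ℂ := by
                rw [ContinuousLinearMap.star_eq_adjoint, ContinuousLinearMap.adjoint_inner_right]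
            _ = ⟪k, m ((star u) Ω)⟫_ℂ := by
                have := congrArg (fun T : K →L[ℂ] K => T Ω) hcomm
                have h2 : m ((star u) Ω) = (star u) (m Ω) := this
                rw [h2]
            _ = ⟪(star m) k, (star u) Ω⟫_ℂ := by
                rw [ContinuousLinearMap.star_eq_adjoint m, ContinuousLinearMap.adjoint_inner_left]
        rw [h1]
        refine (norm_inner_le_norm _ _).trans ?_
        rw [opof_norm N Ω hN u hu]
      have h3 := closure_minimal hsub hcl hω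
      have h4 : ‖⟪ω, m Ω⟫_ℂ‖ ≤ ‖(star m) k‖ * ‖(0 : K)‖ := h3
      rw [norm_zero, mul_zero] at h4
      exact norm_le_zero_iff.1 h4
    have hclosed : IsClosed {ξ : K | ⟪ω, ξ⟫_ℂ = 0} :=
      isClosed_eq (by fun_prop) continuous_const
    have hall : ∀ ξ : K, ⟪ω, ξ⟫_ℂ = 0 := by
      intro ξ
      have hd := hN.cyclic
      refine closure_minimal (s := {ξ : K | ∃ x ∈ N.toStarSubalgebra, x Ω = ξ}) ?_ hclosed (hd ξ)
      rintro _ ⟨x, hx, rfl⟩
      exact hkey x hx
    exact inner_self_eq_zero.1 (hall ω)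

/-- for `B ∈ N'` injective, `N' B Ω` is dense (the projection on its orthogonal complement is
`p ∈ N` with `0 = p B Ω = B p Ω`) -/
theorem dense_comm (N : VonNeumannAlgebra K) (Ω : K) (hN : IsTV N.toStarSubalgebra Ω)
    (B : K →L[ℂ] K) (hB : B ∈ N.commutant) (hinj : ∀ ξ, B ξ = 0 → ξ = 0) :
    Dense {ζ : K | ∃ u ∈ N.commutant, u (B Ω) = ζ} := by
  refine opof_dense N (B Ω) ?_
  intro p hp hpB
  have h1 : p * B = B * p := VonNeumannAlgebra.mem_commutant_iff.1 hB p hp
  have h2 : p (B Ω) = B (p Ω) := congrArg (fun T : K →L[ℂ] K => T Ω) h1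
  rw [h2] at hpB
  exact (isST_of N Ω hN).1.sep p hp (hinj _ hpB)

end

end Pool.H62.UC
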