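import Pool.Agent.H62.UC.Bas
import Pool.Agent.H62.UC.Jop
import Pool.Agent.H62.UC.OpOf

/-!
# COMM: commutation theorem `M' = ρ(M)`

`isST_of`: `Ω` is separating for `M` and `M'`, so cyclic for `M'` (the projection on the orthogonal
complement of `closure (M' Ω)` is in `M'' = M` and kills `Ω`), and it is a trace vector for `M'`.
`exists_right` for the algebra `M'` and `y' ∈ M'` gives `z ∈ M'' = M` with `z Ω = y' Ω`; then
`ρ z Ω = z Ω = y' Ω` and `ρ z, y' ∈ M'`, so `ρ z = y'`.
-/

namespace Pool.H62.UC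

open scoped InnerProductSpace TensorProduct ComplexConjugate
open Filter Topology

noncomputable section

variable {H : Type*} [NormedAddCommGroup H] [InnerProductSpace ℂ H] [CompleteSpace H]
variable {K : Type*} [NormedAddCommGroup K] [InnerProductSpace ℂ K] [CompleteSpace K]

theorem isTV_commutant (S : Std H K) : IsTV S.M.commutant.toStarSubalgebra S.Ω := by
  refine ⟨S.tv.norm_one, ?_, ?_⟩
  · intro x hx y hy
    exact (isST_of S.M S.Ω S.tv).2.trace x hx y hy
  · exact opof_dense S.M S.Ω (fun p hp h => (isST_of S.M S.Ω S.tv).1.sep p hp h)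

theorem exists_ρ (S : Std H K) {z : H →L[ℂ] H} (hz : z ∈ S.M.commutant) :
    ∃ y ∈ S.M, S.ρ y = z := by
  obtain ⟨y, hy, -, hyΩ, -⟩ := exists_right S.M.commutant S.Ω (isTV_commutant S) z hz
  rw [VonNeumannAlgebra.commutant_commutant] at hy
  refine ⟨y, hy, ?_⟩
  have h1 : S.ρ y - z ∈ S.M.commutant := sub_mem (S.ρ_mem hy) hz
  have h2 := (isST_of S.M S.Ω S.tv).2.sep _ h1 (by
    rw [ContinuousLinearMap.sub_apply, S.ρ_Ω hy, hyΩ, sub_self])
  exact sub_eq_zero.1 h2

/-- an operator commuting with all right multiplications is in `M` -/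
theorem mem_of_comm_ρ (S : Std H K) (T : H →L[ℂ] H) (h : ∀ y ∈ S.M, T * S.ρ y = S.ρ y * T) :
    T ∈ S.M := by
  rw [← VonNeumannAlgebra.commutant_commutant S.M, VonNeumannAlgebra.mem_commutant_iff]
  intro z hz
  obtain ⟨y, hy, rfl⟩ := exists_ρ S hz
  exact (h y hy).symm

/-- central elements: `ρ w = w` -/
theorem ρ_central (S : Std H K) {w : H →L[ℂ] H} (hw : w ∈ S.M) (hc : ∀ x ∈ S.M, w * x = x * w) :
    S.ρ w = w := by
  apply S.basB_ext
  intro x hx
  rw [S.ρ_apply x hx w hw, ← hc x hx]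
  rfl

theorem central_mem_commutant (S : Std H K) {w : H →L[ℂ] H}
    (hc : ∀ x ∈ S.M, w * x = x * w) : w ∈ S.M.commutant := by
  rw [VonNeumannAlgebra.mem_commutant_iff]
  intro g hg
  exact (hc g hg).symm

end

end Pool.H62.UC
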