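import Pool.Agent.H62.UC.Nk
import Pool.Agent.H62.UC.Comm

/-!
# ATBLK: combination of the finite dimensional blocks

Given central projections `z k → e` strongly and, for every `k`, a central positive `w k` with
`ker (w k) ⊆ ker (z k)` and `η k` with `r (w k) (l (z k) (r (z k) (d x))) = l x (η k) - r x (η k)`.
`w k = ρ (w k)`, `z k = ρ (z k)` (`ρ_central`), so `r (w k)`, `l (z k)`, `r (z k)` are commuting
positive central elements of `NK S`.  Put `μ k = 2^{-k} / (1 + ‖w k‖ + ‖η k‖)`,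
`A = ∑ μ k r (w k) l (z k) r (z k)`, `β = ∑ μ k η k`.
Kernel: `⟪κ, A κ⟫ = ∑ μ k ⟪E_k κ, r (w k) E_k κ⟫`, all terms are `≥ 0`, so if `A κ = 0` then
`r (w k) E_k κ = 0` (positive operator), so `E_k κ = r (z k) E_k κ = 0` (`Coarse.R_ker`), and
`E_k κ = l (z k) (r (z k) κ) → l e (r e κ)`.
-/

namespace Pool.H62.UC

open scoped InnerProductSpace TensorProduct ComplexConjugate
open Filter Topology

noncomputable section

variable {H : Type*} [NormedAddCommGroup H] [InnerProductSpace ℂ H] [CompleteSpace H]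
variable {K : Type*} [NormedAddCommGroup K] [InnerProductSpace ℂ K] [CompleteSpace K]

theorem atblk_tsum_mem (N : VonNeumannAlgebra K) (f : ℕ → K →L[ℂ] K) (hs : Summable f)
    (h : ∀ k, f k ∈ N) : ∑' k, f k ∈ N := by
  rw [← VonNeumannAlgebra.commutant_commutant N, VonNeumannAlgebra.mem_commutant_iff]
  intro g hg
  rw [← hs.tsum_mul_left, ← hs.tsum_mul_right]
  refine tsum_congr fun k => ?_
  rw [VonNeumannAlgebra.mem_commutant_iff] at hg
  exact (hg _ (h k)).symm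

/-- an operator commuting with the two actions is in the commutant -/
theorem atblk_comm (S : Std H K) (B : K →L[ℂ] K) (h1 : ∀ x ∈ S.M, S.l x * B = B * S.l x)
    (h2 : ∀ x ∈ S.M, S.r x * B = B * S.r x) : B ∈ (NK S).commutant := by
  rw [VonNeumannAlgebra.mem_commutant_iff]
  intro g hg
  rw [NK_mem_iff, StarSubalgebra.mem_centralizer_iff] at hg
  have hB : B ∈ Set.centralizer ({A : K →L[ℂ] K | ∃ x ∈ S.M, A = S.l x} ∪
      {A : K →L[ℂ] K | ∃ y ∈ S.M, A = S.r y}) := by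
    rintro A (⟨x, hx, rfl⟩ | ⟨y, hy, rfl⟩)
    · exact h1 x hx
    · exact h2 y hy
  exact ((hg B hB).1).symm

theorem atblk_r (S : Std H K) {w : H →L[ℂ] H} (hw : w ∈ S.M) (hc : ∀ x ∈ S.M, w * x = x * w) :
    S.r w = S.T.R w := by
  rw [Std.r, ρ_central S hw hc]

theorem atblk_lr (S : Std H K) (x y : H →L[ℂ] H) : S.l x * S.r y = S.r y * S.l x :=
  (NK_lr S x y).symm

theorem atblk_l_comm (S : Std H K) {w : H →L[ℂ] H} (hc : ∀ x ∈ S.M, w * x = x * w) :
    S.l w ∈ (NK S).commutant := by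
  apply atblk_comm
  · intro x hx
    rw [← S.l_mul, ← S.l_mul, hc x hx]
  · intro x _
    exact NK_lr S w x

theorem atblk_r_comm (S : Std H K) {w : H →L[ℂ] H} (hw : w ∈ S.M)
    (hc : ∀ x ∈ S.M, w * x = x * w) : S.r w ∈ (NK S).commutant := by
  apply atblk_comm
  · intro x _
    exact atblk_lr S x w
  · intro x hx
    rw [← S.r_mul hw hx, ← S.r_mul hx hw, hc x hx]

theorem atblk_commute {N : VonNeumannAlgebra K} {A B : K →L[ℂ] K} (hA : A ∈ N)
    (hB : B ∈ N.commutant) : A * B = B * A :=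
  (VonNeumannAlgebra.mem_commutant_iff.1 hB) A hA

theorem at_block (S : Std H K) (e : H →L[ℂ] H) (he : IsStarProjection e) (heM : e ∈ S.M)
    (hec : ∀ x ∈ S.M, e * x = x * e) (z w : ℕ → H →L[ℂ] H) (η : ℕ → K)
    (hz : ∀ k, IsStarProjection (z k)) (hzM : ∀ k, z k ∈ S.M)
    (hzc : ∀ k, ∀ x ∈ S.M, z k * x = x * z k)
    (hze : ∀ ω, Tendsto (fun k => z k ω) atTop (𝓝 (e ω)))
    (hwM : ∀ k, w k ∈ S.M) (hwc : ∀ k, ∀ x ∈ S.M, w k * x = x * w k)
    (hwp : ∀ k, (w k).IsPositive) (hwk : ∀ k ξ, w k ξ = 0 → z k ξ = 0)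
    (P0 : Set ((H →L[ℂ] H) × K))
    (hη : ∀ k, ∀ p ∈ P0, S.r (w k) (S.l (z k) (S.r (z k) p.2)) = S.l p.1 (η k) - S.r p.1 (η k)) :
    ∃ A ∈ NK S, A ∈ (NK S).commutant ∧ (∀ κ, A κ = 0 → S.l e (S.r e κ) = 0) ∧
      ∃ β : K, ∀ p ∈ P0, A p.2 = S.l p.1 β - S.r p.1 β := by
  have hzn : ∀ k, ‖z k‖ ≤ 1 := fun k => (hz k).norm_le
  set E : ℕ → K →L[ℂ] K := fun k => S.l (z k) * S.r (z k) with hE
  set μ : ℕ → ℝ := fun k => (1 / 2) ^ k / (1 + ‖w k‖ + ‖η k‖) with hμ
  have hden : ∀ k, 0 < 1 + ‖w k‖ + ‖η k‖ := fun k => by positivity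
  have hμ0 : ∀ k, 0 < μ k := fun k => div_pos (by positivity) (hden k)
  set F : ℕ → K →L[ℂ] K := fun k => ((μ k : ℝ) : ℂ) • (S.r (w k) * E k) with hF
  have hEn : ∀ k, ‖E k‖ ≤ 1 := by
    intro k
    calc ‖S.l (z k) * S.r (z k)‖ ≤ ‖S.l (z k)‖ * ‖S.r (z k)‖ := norm_mul_le _ _
      _ ≤ 1 * 1 := mul_le_mul ((S.l_norm_le _).trans (hzn k)) ((S.r_norm_le (hzM k)).trans (hzn k))
          (norm_nonneg _) zero_le_one
      _ = 1 := one_mul 1
  have hFn : ∀ k, ‖F k‖ ≤ (1 / 2) ^ k := by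
    intro k
    have h1 : ‖S.r (w k) * E k‖ ≤ ‖w k‖ := by
      calc ‖S.r (w k) * E k‖ ≤ ‖S.r (w k)‖ * ‖E k‖ := norm_mul_le _ _
        _ ≤ ‖w k‖ * 1 := mul_le_mul (S.r_norm_le (hwM k)) (hEn k) (norm_nonneg _) (norm_nonneg _)
        _ = ‖w k‖ := mul_one _
    calc ‖F k‖ = μ k * ‖S.r (w k) * E k‖ := by
          rw [hF]
          simp only [norm_smul, Complex.norm_real, Real.norm_eq_abs, abs_of_pos (hμ0 k)]
      _ ≤ μ k * (1 + ‖w k‖ + ‖η k‖) := by
          apply mul_le_mul_of_nonneg_left _ (hμ0 k).le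
          linarith [norm_nonneg (η k)]
      _ = (1 / 2) ^ k := div_mul_cancel₀ _ (hden k).ne'
  have hgeo : Summable (fun k : ℕ => ((1 : ℝ) / 2) ^ k) := summable_geometric_two
  have hFs : Summable F := Summable.of_norm_bounded hgeo hFn
  set B : ℕ → K := fun k => ((μ k : ℝ) : ℂ) • η k with hB
  have hBn : ∀ k, ‖B k‖ ≤ (1 / 2) ^ k := by
    intro k
    calc ‖B k‖ = μ k * ‖η k‖ := by
          rw [hB]
          simp only [norm_smul, Complex.norm_real, Real.norm_eq_abs, abs_of_pos (hμ0 k)]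
      _ ≤ μ k * (1 + ‖w k‖ + ‖η k‖) := by
          apply mul_le_mul_of_nonneg_left _ (hμ0 k).le
          linarith [norm_nonneg (w k)]
      _ = (1 / 2) ^ k := div_mul_cancel₀ _ (hden k).ne'
  have hBs : Summable B := Summable.of_norm_bounded hgeo hBn
  have happ : ∀ κ : K, HasSum (fun k => F k κ) ((∑' k, F k) κ) := fun κ =>
    hFs.hasSum.mapL (ContinuousLinearMap.apply ℂ K κ)
  refine ⟨∑' k, F k, ?_, ?_, ?_, ∑' k, B k, ?_⟩
  · refine atblk_tsum_mem _ _ hFs fun k => ?_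
    exact (NK S).smul_mem (mul_mem (r_mem_NK S (hwM k))
      (mul_mem (l_mem_NK S (hzM k)) (r_mem_NK S (hzM k)))) _
  · refine atblk_tsum_mem _ _ hFs fun k => ?_
    exact ((NK S).commutant).smul_mem (mul_mem (atblk_r_comm S (hwM k) (hwc k))
      (mul_mem (atblk_l_comm S (hzc k)) (atblk_r_comm S (hzM k) (hzc k)))) _
  · intro κ hκ
    have hb : ∀ k, ∃ b : H →L[ℂ] H, w k = star b * b := fun k =>
      CStarAlgebra.nonneg_iff_eq_star_mul_self.1
        ((ContinuousLinearMap.nonneg_iff_isPositive _).2 (hwp k))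
    choose b hb using hb
    have hEE : ∀ k, E k * E k = E k := by
      intro k
      have h1 : S.l (z k) * S.l (z k) = S.l (z k) := by
        rw [← S.l_mul, (hz k).isIdempotentElem]
      have h2 : S.r (z k) * S.r (z k) = S.r (z k) := by
        rw [← S.r_mul (hzM k) (hzM k), (hz k).isIdempotentElem]
      calc S.l (z k) * S.r (z k) * (S.l (z k) * S.r (z k))
          = S.l (z k) * (S.r (z k) * S.l (z k)) * S.r (z k) := by simp only [mul_assoc]
        _ = S.l (z k) * (S.l (z k) * S.r (z k)) * S.r (z k) := by rw [NK_lr]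
        _ = (S.l (z k) * S.l (z k)) * (S.r (z k) * S.r (z k)) := by simp only [mul_assoc]
        _ = S.l (z k) * S.r (z k) := by rw [h1, h2]
    have hEs : ∀ k, star (E k) = E k := by
      intro k
      change star (S.l (z k) * S.r (z k)) = S.l (z k) * S.r (z k)
      rw [star_mul, ← S.l_star, ← S.r_star (hzM k), (hz k).isSelfAdjoint.star_eq, NK_lr]
    have hER : ∀ k, S.r (w k) * E k = E k * S.r (w k) := by
      intro k
      exact (atblk_commute (mul_mem (l_mem_NK S (hzM k)) (r_mem_NK S (hzM k)))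
        (atblk_r_comm S (hwM k) (hwc k))).symm
    have hterm : ∀ k, ⟪κ, F k κ⟫_ℂ = ((μ k * ‖S.T.R (b k) (E k κ)‖ ^ 2 : ℝ) : ℂ) := by
      intro k
      have h1 : F k κ = ((μ k : ℝ) : ℂ) • (S.r (w k) * E k) κ := rfl
      have h2 : S.r (w k) * E k = E k * (S.r (w k) * E k) := by
        calc S.r (w k) * E k = S.r (w k) * (E k * E k) := by rw [hEE k]
          _ = (S.r (w k) * E k) * E k := (mul_assoc _ _ _).symm
          _ = (E k * S.r (w k)) * E k := by rw [hER k]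
          _ = E k * (S.r (w k) * E k) := mul_assoc _ _ _
      have h3 : ⟪κ, (E k * (S.r (w k) * E k)) κ⟫_ℂ = ⟪E k κ, S.r (w k) (E k κ)⟫_ℂ := by
        calc ⟪κ, E k (S.r (w k) (E k κ))⟫_ℂ = ⟪κ, star (E k) (S.r (w k) (E k κ))⟫_ℂ := by
              rw [hEs k]
          _ = _ := by
              rw [ContinuousLinearMap.star_eq_adjoint, ContinuousLinearMap.adjoint_inner_right]
      have h4 : S.r (w k) (E k κ) =
          ContinuousLinearMap.adjoint (S.T.R (b k)) (S.T.R (b k) (E k κ)) := by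
        rw [atblk_r S (hwM k) (hwc k), hb k, map_mul, map_star]
        rfl
      rw [h1, inner_smul_right, h2, h3, h4, ContinuousLinearMap.adjoint_inner_right,
        inner_self_eq_norm_sq_to_K]
      push_cast
      rfl
    have hsum : HasSum (fun k => μ k * ‖S.T.R (b k) (E k κ)‖ ^ 2) 0 := by
      have h1 := (happ κ).mapL (innerSL ℂ κ)
      rw [hκ, map_zero] at h1
      have h2 : (fun k => (innerSL ℂ κ) (F k κ)) =
          fun k => ((μ k * ‖S.T.R (b k) (E k κ)‖ ^ 2 : ℝ) : ℂ) := by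
        funext k
        exact hterm k
      rw [h2] at h1
      have h3 := Complex.hasSum_ofReal.1 (by simpa using h1 :
        HasSum (fun k => ((μ k * ‖S.T.R (b k) (E k κ)‖ ^ 2 : ℝ) : ℂ)) ((0 : ℝ) : ℂ))
      exact h3
    have hz0 : ∀ k, E k κ = 0 := by
      intro k
      have h1 := (hasSum_zero_iff_of_nonneg (fun k => by
        have := (hμ0 k).le
        positivity)).1 hsum
      have h2 := congrFun h1 k
      simp only [Pi.zero_apply, mul_eq_zero, (hμ0 k).ne', false_or, ne_eq, OfNat.ofNat_ne_zero,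
        not_false_eq_true, pow_eq_zero_iff, norm_eq_zero] at h2
      have h3 : S.T.R (w k) (E k κ) = 0 := by
        rw [hb k, map_mul]
        change S.T.R (star (b k)) (S.T.R (b k) (E k κ)) = 0
        rw [h2, map_zero]
      have h4 : S.T.R (z k) (E k κ) = 0 := S.T.R_ker _ _ (hwk k) _ h3
      rw [← atblk_r S (hzM k) (hzc k)] at h4
      have h5 : S.r (z k) * E k = E k := by
        change S.r (z k) * (S.l (z k) * S.r (z k)) = S.l (z k) * S.r (z k)
        rw [← mul_assoc, NK_lr, mul_assoc, ← S.r_mul (hzM k) (hzM k),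
          (hz k).isIdempotentElem]
      rw [← h5]
      exact h4
    have hl : ∀ κ : K, Tendsto (fun k => S.l (z k) κ) atTop (𝓝 (S.l e κ)) := fun κ =>
      S.l_tendsto hzM heM hzn (hze S.Ω) κ
    have hr : ∀ κ : K, Tendsto (fun k => S.r (z k) κ) atTop (𝓝 (S.r e κ)) := fun κ =>
      S.r_tendsto hzM heM hzn (hze S.Ω) κ
    have hlim : Tendsto (fun k => E k κ) atTop (𝓝 (S.l e (S.r e κ))) := by
      have h1 : Tendsto (fun k => S.l (z k) (S.r (z k) κ - S.r e κ)) atTop (𝓝 0) := by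
        have h2 : Tendsto (fun k => ‖S.r (z k) κ - S.r e κ‖) atTop (𝓝 0) := by
          have := (hr κ).sub_const (S.r e κ)
          rw [sub_self] at this
          simpa using this.norm
        refine squeeze_zero_norm (fun k => ?_) h2
        calc ‖S.l (z k) (S.r (z k) κ - S.r e κ)‖ ≤ ‖S.l (z k)‖ * ‖S.r (z k) κ - S.r e κ‖ :=
              ContinuousLinearMap.le_opNorm _ _
          _ ≤ 1 * ‖S.r (z k) κ - S.r e κ‖ :=
              mul_le_mul_of_nonneg_right ((S.l_norm_le _).trans (hzn k)) (norm_nonneg _)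
          _ = _ := one_mul _
      have h3 := h1.add (hl (S.r e κ))
      rw [zero_add] at h3
      refine h3.congr fun k => ?_
      rw [← map_add, sub_add_cancel]
      rfl
    have hlim0 : Tendsto (fun k => E k κ) atTop (𝓝 0) := by
      simp only [hz0]
      exact tendsto_const_nhds
    exact tendsto_nhds_unique hlim hlim0
  · intro p hp
    have h1 := happ p.2
    have h2 : HasSum (fun k => S.l p.1 (B k) - S.r p.1 (B k))
        (S.l p.1 (∑' k, B k) - S.r p.1 (∑' k, B k)) :=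
      (hBs.hasSum.mapL (S.l p.1)).sub (hBs.hasSum.mapL (S.r p.1))
    have h3 : (fun k => F k p.2) = fun k => S.l p.1 (B k) - S.r p.1 (B k) := by
      funext k
      have h4 : F k p.2 = ((μ k : ℝ) : ℂ) • (S.r (w k) (S.l (z k) (S.r (z k) p.2))) := rfl
      rw [h4, hη k p hp, hB]
      simp only [map_smul, smul_sub]
    rw [h3] at h1
    exact h1.unique h2

/-- gluing along central projections -/
theorem atblk_glue (S : Std H K) (P A B : Fin 3 → (K →L[ℂ] K)) (β c : Fin 3 → K)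
    (hPN : ∀ i, P i ∈ NK S) (hPN' : ∀ i, P i ∈ (NK S).commutant)
    (hPP : ∀ i j, P i * P j = if i = j then P i else 0) (hPs : ∑ i, P i = 1)
    (hA : ∀ i, A i ∈ NK S) (hB : ∀ i, B i ∈ (NK S).commutant)
    (kA : ∀ i ξ, A i (P i ξ) = 0 → P i ξ = 0) (kB : ∀ i ξ, B i (P i ξ) = 0 → P i ξ = 0)
    (he : ∀ i, P i (A i (c i)) = P i (B i (β i))) (P0 : Set ((H →L[ℂ] H) × K))
    (hP0 : ∀ p ∈ P0, p.1 ∈ S.M)
    (hq : ∀ i, ∀ p ∈ P0, P i (B i p.2 - (S.l p.1 (c i) - S.r p.1 (c i))) = 0) :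
    ∃ A ∈ NK S, ∃ β : K, ∃ B ∈ (NK S).commutant, ∃ c : K, (∀ ξ, A ξ = 0 → ξ = 0) ∧
      (∀ ξ, B ξ = 0 → ξ = 0) ∧ A c = B β ∧ ∀ p ∈ P0, B p.2 = S.l p.1 c - S.r p.1 c := by
  have cA : ∀ i j, P i * A j = A j * P i := fun i j => (atblk_commute (hA j) (hPN' i)).symm
  have cB : ∀ i j, P i * B j = B j * P i := fun i j => atblk_commute (hPN i) (hB j)
  have key : ∀ (T : Fin 3 → (K →L[ℂ] K)), (∀ i j, P i * T j = T j * P i) →
      ∀ j, P j * (∑ i, T i * P i) = T j * P j := by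
    intro T hT j
    rw [Finset.mul_sum, Finset.sum_eq_single j]
    · rw [← mul_assoc, hT, mul_assoc, hPP, if_pos rfl]
    · intro i _ hij
      rw [← mul_assoc, hT, mul_assoc, hPP, if_neg (Ne.symm hij), mul_zero]
    · intro h
      exact absurd (Finset.mem_univ j) h
  have inj : ∀ (T : Fin 3 → (K →L[ℂ] K)), (∀ i j, P i * T j = T j * P i) →
      (∀ i ξ, T i (P i ξ) = 0 → P i ξ = 0) → ∀ ξ, (∑ i, T i * P i) ξ = 0 → ξ = 0 := by
    intro T hT hk ξ hξ
    have h1 : ∀ j, P j ξ = 0 := by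
      intro j
      apply hk
      have h2 : (P j * (∑ i, T i * P i)) ξ = 0 := by
        change P j ((∑ i, T i * P i) ξ) = 0
        rw [hξ, map_zero]
      rw [key T hT j] at h2
      exact h2
    have h3 : ξ = (∑ i, P i) ξ := by rw [hPs]; rfl
    rw [h3, ContinuousLinearMap.sum_apply]
    exact Finset.sum_eq_zero fun i _ => h1 i
  have app : ∀ (T : Fin 3 → (K →L[ℂ] K)) (v : Fin 3 → K), (∀ i j, P i * T j = T j * P i) →
      (∑ i, T i * P i) (∑ i, P i (v i)) = ∑ i, P i (T i (v i)) := by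
    intro T v hT
    rw [ContinuousLinearMap.sum_apply]
    refine Finset.sum_congr rfl fun i _ => ?_
    change T i (P i (∑ i, P i (v i))) = _
    have h1 : P i (∑ i, P i (v i)) = P i (v i) := by
      rw [map_sum, Finset.sum_eq_single i]
      · change (P i * P i) (v i) = _
        rw [hPP, if_pos rfl]
      · intro j _ hij
        change (P i * P j) (v j) = _
        rw [hPP, if_neg (Ne.symm hij)]
        rfl
      · intro h
        exact absurd (Finset.mem_univ i) h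
    rw [h1]
    change (T i * P i) (v i) = (P i * T i) (v i)
    rw [hT]
  refine ⟨∑ i, A i * P i, sum_mem fun i _ => mul_mem (hA i) (hPN i), ∑ i, P i (β i),
    ∑ i, B i * P i, sum_mem fun i _ => mul_mem (hB i) (hPN' i), ∑ i, P i (c i),
    inj A cA kA, inj B cB kB, ?_, ?_⟩
  · rw [app A c cA, app B β cB]
    exact Finset.sum_congr rfl fun i _ => he i
  · intro p hp
    rw [ContinuousLinearMap.sum_apply, map_sum, map_sum, ← Finset.sum_sub_distrib]
    refine Finset.sum_congr rfl fun i _ => ?_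
    have h1 := hq i p hp
    rw [map_sub, map_sub, sub_eq_zero] at h1
    have h2 : (B i * P i) p.2 = P i (B i p.2) := by
      rw [← cB]
      rfl
    have h3 : S.l p.1 (P i (c i)) = P i (S.l p.1 (c i)) := by
      have := atblk_commute (l_mem_NK S (hP0 p hp)) (hPN' i)
      exact congrArg (fun T : K →L[ℂ] K => T (c i)) this
    have h4 : S.r p.1 (P i (c i)) = P i (S.r p.1 (c i)) := by
      have := atblk_commute (r_mem_NK S (hP0 p hp)) (hPN' i)
      exact congrArg (fun T : K →L[ℂ] K => T (c i)) this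
    rw [h2, h1, h3, h4]

/-- Three central blocks `l (1-e)`, `l e r (1-e)`, `l e r e`: if each has a pair, so has the sum.
`e` is central so `l e`, `r e` are commuting projections in `NK S` and in its commutant.  For the
last block use the pair `(A', β, A', β)` with `A' = A l e r e + (1 - l e r e)`. Put
`A = ∑ c_i A_i`, etc. -/
theorem combine (S : Std H K) (e : H →L[ℂ] H) (he : IsStarProjection e) (heM : e ∈ S.M)
    (hec : ∀ x ∈ S.M, e * x = x * e) (P0 : Set ((H →L[ℂ] H) × K)) (hP0 : ∀ p ∈ P0, p.1 ∈ S.M)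
    (h1 : ∃ A ∈ NK S, ∃ β : K, ∃ B ∈ (NK S).commutant, ∃ c : K, (∀ ξ, A ξ = 0 → ξ = 0) ∧
      (∀ ξ, B ξ = 0 → ξ = 0) ∧ A c = B β ∧
      ∀ p ∈ P0, S.l (1 - e) (B p.2 - (S.l p.1 c - S.r p.1 c)) = 0)
    (h2 : ∃ A ∈ NK S, ∃ β : K, ∃ B ∈ (NK S).commutant, ∃ c : K, (∀ ξ, A ξ = 0 → ξ = 0) ∧
      (∀ ξ, B ξ = 0 → ξ = 0) ∧ A c = B β ∧
      ∀ p ∈ P0, S.r (1 - e) (B p.2 - (S.l p.1 c - S.r p.1 c)) = 0)
    (h3 : ∃ A ∈ NK S, A ∈ (NK S).commutant ∧ (∀ κ, A κ = 0 → S.l e (S.r e κ) = 0) ∧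
      ∃ β : K, ∀ p ∈ P0, A p.2 = S.l p.1 β - S.r p.1 β) :
    ∃ A ∈ NK S, ∃ β : K, ∃ B ∈ (NK S).commutant, ∃ c : K, (∀ ξ, A ξ = 0 → ξ = 0) ∧
      (∀ ξ, B ξ = 0 → ξ = 0) ∧ A c = B β ∧ ∀ p ∈ P0, B p.2 = S.l p.1 c - S.r p.1 c := by
  obtain ⟨A1, hA1, β1, B1, hB1, c1, kA1, kB1, e1, q1⟩ := h1
  obtain ⟨A2, hA2, β2, B2, hB2, c2, kA2, kB2, e2, q2⟩ := h2
  obtain ⟨A3, hA3, hA3', kA3, β3, q3⟩ := h3
  -- the three projections
  obtain ⟨L, hL⟩ : ∃ L, L = S.l e := ⟨_, rfl⟩
  obtain ⟨R, hR⟩ : ∃ R, R = S.r e := ⟨_, rfl⟩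
  have hLN : L ∈ NK S := hL ▸ l_mem_NK S heM
  have hRN : R ∈ NK S := hR ▸ r_mem_NK S heM
  have hLN' : L ∈ (NK S).commutant := hL ▸ atblk_l_comm S hec
  have hRN' : R ∈ (NK S).commutant := hR ▸ atblk_r_comm S heM hec
  have hLL : L * L = L := by rw [hL, ← S.l_mul, he.isIdempotentElem]
  have hRR : R * R = R := by rw [hR, ← S.r_mul heM heM, he.isIdempotentElem]
  have hLR : L * R = R * L := atblk_commute hLN hRN'
  have hl1 : S.l (1 - e) = 1 - L := by rw [S.l_sub, S.l_one, hL]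
  have hr1 : S.r (1 - e) = 1 - R := by rw [S.r_sub S.one_mem heM, S.r_one, hR]
  obtain ⟨P, hP⟩ : ∃ P : Fin 3 → (K →L[ℂ] K), P = ![1 - L, L * (1 - R), L * R] := ⟨_, rfl⟩
  have hPN : ∀ i, P i ∈ NK S := by
    intro i
    rw [hP]
    fin_cases i
    · exact sub_mem (one_mem _) hLN
    · exact mul_mem hLN (sub_mem (one_mem _) hRN)
    · exact mul_mem hLN hRN
  have hPN' : ∀ i, P i ∈ (NK S).commutant := by
    intro i
    rw [hP]
    fin_cases i
    · exact sub_mem (one_mem _) hLN'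
    · exact mul_mem hLN' (sub_mem (one_mem _) hRN')
    · exact mul_mem hLN' hRN'
  have hPP : ∀ i j, P i * P j = if i = j then P i else 0 := by
    have a1 : L * (L * R) = L * R := by rw [← mul_assoc, hLL]
    have a2 : R * (L * R) = L * R := by rw [← mul_assoc, ← hLR, mul_assoc, hRR]
    have a3 : R * L = L * R := hLR.symm
    intro i j
    rw [hP]
    fin_cases i <;> fin_cases j <;>
      simp [mul_sub, sub_mul, mul_assoc, hLL, a1, a2, a3]
  have hPs : ∑ i, P i = 1 := by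
    rw [Fin.sum_univ_three, hP]
    simp [mul_sub]
  have hA3c : ∀ T ∈ NK S, T * A3 = A3 * T := fun T hT => atblk_commute hT hA3'
  refine atblk_glue S P ![A1, A2, A3] ![B1, B2, A3] ![β1, β2, β3] ![c1, c2, β3] hPN hPN' hPP hPs
    ?_ ?_ ?_ ?_ ?_ P0 hP0 ?_
  · intro i
    fin_cases i
    · exact hA1
    · exact hA2
    · exact hA3
  · intro i
    fin_cases i
    · exact hB1
    · exact hB2
    · exact hA3'
  · have hlast : ∀ ξ, A3 (P 2 ξ) = 0 → P 2 ξ = 0 := by
      intro ξ h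
      have h4 := kA3 _ h
      rw [← hL, ← hR] at h4
      have h5 := hPP 2 2
      rw [if_pos rfl] at h5
      have h6 : P 2 (P 2 ξ) = P 2 ξ := congrArg (fun T : K →L[ℂ] K => T ξ) h5
      rw [← h6]
      have h7 : P 2 = L * R := by rw [hP]; rfl
      have h8 : ∀ ζ, P 2 ζ = L (R ζ) := fun ζ => by rw [h7]; rfl
      rw [h8 (P 2 ξ)]
      exact h4
    intro i ξ h
    fin_cases i
    · exact kA1 _ h
    · exact kA2 _ h
    · exact hlast ξ h
  · have hlast : ∀ ξ, A3 (P 2 ξ) = 0 → P 2 ξ = 0 := by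
      intro ξ h
      have h4 := kA3 _ h
      rw [← hL, ← hR] at h4
      have h5 := hPP 2 2
      rw [if_pos rfl] at h5
      have h6 : P 2 (P 2 ξ) = P 2 ξ := congrArg (fun T : K →L[ℂ] K => T ξ) h5
      rw [← h6]
      have h7 : P 2 = L * R := by rw [hP]; rfl
      have h8 : ∀ ζ, P 2 ζ = L (R ζ) := fun ζ => by rw [h7]; rfl
      rw [h8 (P 2 ξ)]
      exact h4
    intro i ξ h
    fin_cases i
    · exact kB1 _ h
    · exact kB2 _ h
    · exact hlast ξ h
  · intro i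
    fin_cases i
    · exact congrArg (P 0) e1
    · exact congrArg (P 1) e2
    · rfl
  · intro i p hp
    fin_cases i
    · have h4 := q1 p hp
      rw [hl1] at h4
      have h7 : P 0 = 1 - L := by rw [hP]; rfl
      change P 0 (B1 p.2 - (S.l p.1 c1 - S.r p.1 c1)) = 0
      rw [h7]
      exact h4
    · have h4 := q2 p hp
      rw [hr1] at h4
      have h7 : P 1 = L * (1 - R) := by rw [hP]; rfl
      change P 1 (B2 p.2 - (S.l p.1 c2 - S.r p.1 c2)) = 0
      rw [h7]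
      change L ((1 - R) (B2 p.2 - (S.l p.1 c2 - S.r p.1 c2))) = 0
      rw [h4, map_zero]
    · change P 2 (A3 p.2 - (S.l p.1 β3 - S.r p.1 β3)) = 0
      rw [q3 p hp, sub_self, map_zero]

end

end Pool.H62.UC
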