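import Pool.Agent.H62.UC.Comm

/-!
# BLK: innerness on finite dimensional blocks

`z` central projection with finite dimensional range; `δ x = l z (r z (d x))` depends only on `x z`
(hypothesis `hloc`).  `D z Ω` is dense in the finite dimensional space `z H`, so equal to it: choose
`a_i ∈ D` such that `a_i z Ω` is an orthonormal basis of `z H`.
For `x ∈ D` put `X_{ji} = ⟪a_j z Ω, x a_i z Ω⟫`; since `Ω` is separating,
`x a_i z = ∑_j X_{ji} a_j z`, and taking adjoints for `x*`: `(a_j z)* x = ∑_i X_{ji} (a_i z)*`.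
Let `w = ∑ a_i z (a_i z)*`, `η' = ∑_i r ((a_i z)*) (δ a_i)`.  Then
`∑_i r ((a_i z)*) (δ (x a_i)) = ∑_{i,j} X_{ji} r ((a_i z)*) (δ a_j) = r x η'` and by Leibniz it is
`l x η' + r w (δ x)`.  So `r w (δ x) = l x (-η') - r x (-η')`: `η = -η'`.
`w` commutes with `D` (same computation), hence with `M` (`hgen`); `w ≥ 0`; if `w ξ = 0` then
`(a_i z)* ξ = 0` for all `i`, and `z` is a combination of the `a_i z`, so `z ξ = 0`.
-/

namespace Pool.H62.UC

open scoped InnerProductSpace TensorProduct ComplexConjugate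
open Filter Topology

noncomputable section

variable {H : Type*} [NormedAddCommGroup H] [InnerProductSpace ℂ H] [CompleteSpace H]
variable {K : Type*} [NormedAddCommGroup K] [InnerProductSpace ℂ K] [CompleteSpace K]

theorem blk_r_zero (S : Std H K) : S.r (0 : H →L[ℂ] H) = 0 := by
  have h := S.r_smul (0 : ℂ) S.one_mem
  rwa [zero_smul, zero_smul] at h

theorem blk_mem_sum (S : Std H K) {ι : Type*} (s : Finset ι) (b : ι → H →L[ℂ] H)
    (hb : ∀ i, b i ∈ S.M) : ∑ i ∈ s, b i ∈ S.M :=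
  sum_mem fun i _ => hb i

theorem blk_r_sum (S : Std H K) {ι : Type*} (s : Finset ι) (b : ι → H →L[ℂ] H)
    (hb : ∀ i, b i ∈ S.M) : S.r (∑ i ∈ s, b i) = ∑ i ∈ s, S.r (b i) := by
  classical
  induction s using Finset.induction_on with
  | empty => simp [blk_r_zero]
  | insert i s hi ih =>
    rw [Finset.sum_insert hi, Finset.sum_insert hi, S.r_add (hb i) (blk_mem_sum S s b hb), ih]

/-- the orthonormal basis of the block -/
theorem blk_basis (S : Std H K) (z : H →L[ℂ] H) (hz : IsStarProjection z)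
    (hzc : ∀ x ∈ S.M, z * x = x * z)
    (hfin : FiniteDimensional ℂ (LinearMap.range (z : H →ₗ[ℂ] H)))
    (D : StarSubalgebra ℂ (H →L[ℂ] H)) (hD : ∀ x ∈ D, x ∈ S.M)
    (hdense : Dense {ξ : H | ∃ x ∈ D, x S.Ω = ξ}) :
    ∃ (n : ℕ) (a : Fin n → H →L[ℂ] H), (∀ i, a i ∈ D) ∧
      ∀ ξ : H, z ξ = ∑ j, ⟪z (a j S.Ω), ξ⟫_ℂ • z (a j S.Ω) := by
  haveI := hfin
  set E := LinearMap.range (z : H →ₗ[ℂ] H) with hE
  -- every vector of the range is `z (x Ω)` with `x ∈ D`
  have key : ∀ e ∈ E, ∃ x ∈ D, z (x S.Ω) = e := by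
    let W : Submodule ℂ H :=
      { carrier := {ξ : H | ∃ x ∈ D, z (x S.Ω) = ξ}
        add_mem' := by
          rintro _ _ ⟨x, hx, rfl⟩ ⟨y, hy, rfl⟩
          exact ⟨x + y, add_mem hx hy, by simp⟩
        zero_mem' := ⟨0, zero_mem D, by simp⟩
        smul_mem' := by
          rintro c _ ⟨x, hx, rfl⟩
          exact ⟨c • x, D.smul_mem hx c, by simp⟩ }
    have hWE : W ≤ E := by
      rintro _ ⟨x, hx, rfl⟩
      exact ⟨x S.Ω, rfl⟩
    haveI : FiniteDimensional ℂ W := Submodule.finiteDimensional_of_le hWE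
    have hWc : IsClosed (W : Set H) := W.closed_of_finiteDimensional
    rintro _ ⟨ξ, rfl⟩
    have h1 : z ξ ∈ closure (W : Set H) := by
      have h2 : ξ ∈ closure {ξ : H | ∃ x ∈ D, x S.Ω = ξ} := hdense ξ
      refine map_mem_closure z.continuous h2 ?_
      rintro _ ⟨x, hx, rfl⟩
      exact ⟨x, hx, rfl⟩
    rw [hWc.closure_eq] at h1
    exact h1
  let B := stdOrthonormalBasis ℂ E
  have hch : ∀ i, ∃ x ∈ D, z (x S.Ω) = (B i : H) := fun i => key _ (B i).2
  choose a haD ha using hch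
  refine ⟨_, a, haD, fun ξ => ?_⟩
  have h1 : z ξ = ((⟨z ξ, ⟨ξ, rfl⟩⟩ : E) : H) := rfl
  rw [h1, ← B.sum_repr ⟨z ξ, ⟨ξ, rfl⟩⟩, Submodule.coe_sum]
  refine Finset.sum_congr rfl fun j _ => ?_
  rw [Submodule.coe_smul, ha j, B.repr_apply_apply, Submodule.coe_inner]
  congr 1
  have hsa : star z = z := hz.isSelfAdjoint.star_eq
  have hid : z * z = z := hz.isIdempotentElem.eq
  have h2 : z (B j : H) = (B j : H) := by
    rw [← ha j]
    have := congrArg (fun T : H →L[ℂ] H => T (a j S.Ω)) hid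
    simpa using this
  show ⟪(B j : H), z ξ⟫_ℂ = ⟪(B j : H), ξ⟫_ℂ
  rw [jop_inner_right, hsa, h2]

theorem blk (S : Std H K) (z : H →L[ℂ] H) (hz : IsStarProjection z) (hzM : z ∈ S.M)
    (hzc : ∀ x ∈ S.M, z * x = x * z)
    (hfin : FiniteDimensional ℂ (LinearMap.range (z : H →ₗ[ℂ] H)))
    (D : StarSubalgebra ℂ (H →L[ℂ] H)) (hD : ∀ x ∈ D, x ∈ S.M)
    (hgen : ∀ T : H →L[ℂ] H, (∀ x ∈ D, x * T = T * x) → T ∈ S.M.commutant)
    (hdense : Dense {ξ : H | ∃ x ∈ D, x S.Ω = ξ}) (d : D →ₗ[ℂ] K)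
    (leib : ∀ x y : D, d (x * y) = S.l (x : H →L[ℂ] H) (d y) + S.r (y : H →L[ℂ] H) (d x))
    (hloc : ∀ x : D, (x : H →L[ℂ] H) * z = 0 → S.l z (S.r z (d x)) = 0) :
    ∃ w ∈ S.M, (∀ x ∈ S.M, w * x = x * w) ∧ w.IsPositive ∧ (∀ ξ, w ξ = 0 → z ξ = 0) ∧
      ∃ η : K, ∀ x : D, S.r w (S.l z (S.r z (d x))) =
        S.l (x : H →L[ℂ] H) η - S.r (x : H →L[ℂ] H) η := by
  obtain ⟨n, a, haD, hB⟩ := blk_basis S z hz hzc hfin D hD hdense
  have hsa : star z = z := hz.isSelfAdjoint.star_eq
  have hid : z * z = z := hz.isIdempotentElem.eq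
  have haM : ∀ i, a i ∈ S.M := fun i => hD _ (haD i)
  -- the elements `a i z` and their adjoints
  have hazM : ∀ i, a i * z ∈ S.M := fun i => mul_mem (haM i) hzM
  set b : Fin n → H →L[ℂ] H := fun i => star (a i * z) with hb
  have hbM : ∀ i, b i ∈ S.M := fun i => star_mem (hazM i)
  have hbz : ∀ i, z * b i = b i := fun i => by
    rw [hb]
    simp only [star_mul, hsa, ← mul_assoc, hid]
  have hbz' : ∀ i, b i * z = b i := fun i => by
    rw [← hzc _ (hbM i), hbz i]
  set X : (H →L[ℂ] H) → Fin n → Fin n → ℂ :=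
    fun x j i => ⟪z (a j S.Ω), x (z (a i S.Ω))⟫_ℂ with hX
  -- expansion of `x a_i z`
  have hexp : ∀ x ∈ S.M, ∀ i, x * (a i * z) = ∑ j, X x j i • (a j * z) := by
    intro x hx i
    have hm : x * (a i * z) - ∑ j, X x j i • (a j * z) ∈ S.M :=
      sub_mem (mul_mem hx (hazM i)) (blk_mem_sum S _ _ fun j => S.smul_mem _ (hazM j))
    refine sub_eq_zero.1 (S.sep hm ?_)
    have hcz : ∀ j, (a j * z) S.Ω = z (a j S.Ω) := fun j => by
      rw [← hzc _ (haM j)]; rfl
    rw [ContinuousLinearMap.sub_apply, ContinuousLinearMap.sum_apply]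
    simp only [ContinuousLinearMap.smul_apply, hcz]
    have h1 : (x * (a i * z)) S.Ω = z (x (z (a i S.Ω))) := by
      have e1 : (x * (a i * z)) S.Ω = x ((a i * z) S.Ω) := rfl
      rw [e1, hcz]
      have e2 : z (x (z (a i S.Ω))) = (z * x) (z (a i S.Ω)) := rfl
      rw [e2, hzc x hx]
      have e3 : (x * z) (z (a i S.Ω)) = x ((z * z) (a i S.Ω)) := rfl
      rw [e3, hid]
    rw [h1, hB, sub_eq_zero]
  -- the adjoint expansion
  have hexp' : ∀ x ∈ S.M, ∀ j, b j * x = ∑ i, X x j i • b i := by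
    intro x hx j
    have h1 := congrArg star (hexp (star x) (star_mem hx) j)
    rw [star_mul, star_star, star_sum] at h1
    rw [hb]
    simp only
    rw [h1]
    refine Finset.sum_congr rfl fun i _ => ?_
    rw [star_smul]
    congr 1
    rw [hX]
    simp only
    rw [jop_inner_right, star_star]
    exact inner_conj_symm _ _
  -- the central element
  set w : H →L[ℂ] H := ∑ i, (a i * z) * b i with hw
  have hwM : w ∈ S.M := blk_mem_sum S _ _ fun i => mul_mem (hazM i) (hbM i)
  have hwD : ∀ x ∈ S.M, x * w = w * x := by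
    intro x hx
    rw [hw, Finset.mul_sum, Finset.sum_mul]
    have h1 : ∀ i, x * ((a i * z) * b i) = ∑ j, X x j i • ((a j * z) * b i) := fun i => by
      rw [← mul_assoc, hexp x hx i, Finset.sum_mul]
      simp only [smul_mul_assoc]
    have h2 : ∀ j, ((a j * z) * b j) * x = ∑ i, X x j i • ((a j * z) * b i) := fun j => by
      rw [mul_assoc, hexp' x hx j, Finset.mul_sum]
      simp only [mul_smul_comm]
    rw [Finset.sum_congr rfl fun i _ => h1 i, Finset.sum_congr rfl fun j _ => h2 j,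
      Finset.sum_comm]
  refine ⟨w, hwM, fun x hx => (hwD x hx).symm, ?_, ?_, ?_⟩
  · rw [hw]
    refine ContinuousLinearMap.isPositive_sum _ fun i _ => ?_
    have := ContinuousLinearMap.isPositive_self_comp_adjoint (a i * z)
    rw [← ContinuousLinearMap.star_eq_adjoint] at this
    exact this
  · intro ξ hξ
    have h0 : ∀ i, ⟪((a i * z) * b i) ξ, ξ⟫_ℂ = ((‖b i ξ‖ ^ 2 : ℝ) : ℂ) := fun i => by
      have e1 : ((a i * z) * b i) ξ = (a i * z) (b i ξ) := rfl
      rw [e1, jop_inner_left, inner_self_eq_norm_sq_to_K]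
      norm_cast
    have h1 : ∑ i, ‖b i ξ‖ ^ 2 = 0 := by
      have h2 : ⟪w ξ, ξ⟫_ℂ = ((∑ i, ‖b i ξ‖ ^ 2 : ℝ) : ℂ) := by
        rw [hw, ContinuousLinearMap.sum_apply, sum_inner, Complex.ofReal_sum]
        exact Finset.sum_congr rfl fun i _ => h0 i
      rw [hξ, inner_zero_left] at h2
      exact_mod_cast h2.symm
    have h3 : ∀ i, b i ξ = 0 := fun i => by
      have := (Finset.sum_eq_zero_iff_of_nonneg (fun i _ => sq_nonneg ‖b i ξ‖)).1 h1 i
        (Finset.mem_univ i)
      exact norm_eq_zero.1 (pow_eq_zero_iff two_ne_zero |>.1 this)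
    -- `z` is a combination of the `b i`
    have h4 : z = ∑ j, ⟪z (a j S.Ω), S.Ω⟫_ℂ • (a j * z) := by
      have hm : z - ∑ j, ⟪z (a j S.Ω), S.Ω⟫_ℂ • (a j * z) ∈ S.M :=
        sub_mem hzM (blk_mem_sum S _ _ fun j => S.smul_mem _ (hazM j))
      refine sub_eq_zero.1 (S.sep hm ?_)
      have hcz : ∀ j, (a j * z) S.Ω = z (a j S.Ω) := fun j => by
        rw [← hzc _ (haM j)]; rfl
      rw [ContinuousLinearMap.sub_apply, ContinuousLinearMap.sum_apply]
      simp only [ContinuousLinearMap.smul_apply, hcz]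
      rw [hB, sub_eq_zero]
    have h5 := congrArg star h4
    rw [hsa, star_sum] at h5
    rw [h5, ContinuousLinearMap.sum_apply]
    refine Finset.sum_eq_zero fun i _ => ?_
    rw [star_smul, ContinuousLinearMap.smul_apply]
    have := h3 i
    rw [hb] at this
    simp only at this
    rw [this, smul_zero]
  · set δ : D → K := fun x => S.l z (S.r z (d x)) with hδ
    have hδsub : ∀ x y : D, (x : H →L[ℂ] H) * z = (y : H →L[ℂ] H) * z → δ x = δ y := by
      intro x y hxy
      have h1 := hloc (x - y) (by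
        rw [AddSubgroupClass.coe_sub, sub_mul, hxy, sub_self])
      rw [map_sub, map_sub, map_sub] at h1
      exact sub_eq_zero.1 h1
    let A : Fin n → D := fun i => ⟨a i, haD i⟩
    set η' : K := ∑ i, S.r (b i) (δ (A i)) with hη'
    refine ⟨-η', fun x => ?_⟩
    have hxM : (x : H →L[ℂ] H) ∈ S.M := hD _ x.2
    set x' : H →L[ℂ] H := (x : H →L[ℂ] H) with hx'
    -- first computation
    have hA : ∀ i, δ (x * A i) = ∑ j, X x' j i • δ (A j) := by
      intro i
      have h1 : δ (x * A i) = δ (∑ j, X x' j i • A j) := by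
        apply hδsub
        have e1 : ((x * A i : D) : H →L[ℂ] H) * z = x' * (a i * z) := by
          rw [← mul_assoc]; rfl
        rw [e1, hexp x' hxM i]
        have e2 : ((∑ j, X x' j i • A j : D) : H →L[ℂ] H) = ∑ j, X x' j i • a j := by
          rw [AddSubmonoidClass.coe_finset_sum]
          rfl
        rw [e2, Finset.sum_mul]
        simp only [smul_mul_assoc]
      rw [h1, hδ]
      simp only [map_sum, map_smul]
    have hleft : ∑ i, S.r (b i) (δ (x * A i)) = S.r x' η' := by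
      have h1 : ∀ i, S.r (b i) (δ (x * A i)) = ∑ j, X x' j i • S.r (b i) (δ (A j)) := fun i => by
        rw [hA i]
        simp only [map_sum, map_smul]
      rw [Finset.sum_congr rfl fun i _ => h1 i, Finset.sum_comm, hη', map_sum]
      refine Finset.sum_congr rfl fun j _ => ?_
      have h2 : S.r x' (S.r (b j) (δ (A j))) = S.r (b j * x') (δ (A j)) := by
        rw [S.r_mul (hbM j) hxM]; rfl
      rw [h2, hexp' x' hxM j, blk_r_sum S _ _ fun i => S.smul_mem _ (hbM i),
        ContinuousLinearMap.sum_apply]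
      refine Finset.sum_congr rfl fun i _ => ?_
      rw [S.r_smul _ (hbM i)]
      rfl
    -- second computation
    have hright : ∑ i, S.r (b i) (δ (x * A i)) = S.l x' η' + S.r w (δ x) := by
      have h1 : ∀ i, S.r (b i) (δ (x * A i)) =
          S.l x' (S.r (b i) (δ (A i))) + S.r ((a i * z) * b i) (δ x) := fun i => by
        have e1 : δ (x * A i) = S.l x' (δ (A i)) + S.r (a i * z) (δ x) := by
          rw [hδ]
          simp only
          rw [leib x (A i), map_add, map_add]
          congr 1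
          · show S.l z (S.r z (S.l x' (d (A i)))) = S.l x' (S.l z (S.r z (d (A i))))
            rw [← S.lr_comm x']
            have e3 : S.l z (S.l x' (S.r z (d (A i)))) = S.l (z * x') (S.r z (d (A i))) := by
              rw [S.l_mul]; rfl
            rw [e3, hzc x' hxM, S.l_mul]
            rfl
          · show S.l z (S.r z (S.r (a i) (d x))) = S.r (a i * z) (S.l z (S.r z (d x)))
            rw [← S.lr_comm z]
            congr 1
            have e4 : S.r z (S.r (a i) (d x)) = S.r (a i * z) (d x) := by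
              rw [S.r_mul (haM i) hzM]; rfl
            have e5 : S.r (a i * z) (S.r z (d x)) = S.r (z * (a i * z)) (d x) := by
              rw [S.r_mul hzM (hazM i)]; rfl
            rw [e4, e5, ← mul_assoc, hzc _ (haM i), mul_assoc, hid]
        rw [e1, map_add, ← S.lr_comm x', S.r_mul (hazM i) (hbM i)]
        rfl
      rw [Finset.sum_congr rfl fun i _ => h1 i, Finset.sum_add_distrib, hη', map_sum, hw,
        blk_r_sum S _ _ fun i => mul_mem (hazM i) (hbM i), ContinuousLinearMap.sum_apply]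
    have h3 := hleft.symm.trans hright
    show S.r w (δ x) = S.l x' (-η') - S.r x' (-η')
    rw [map_neg, map_neg, h3]
    abel

end

end Pool.H62.UC
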