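import Pool.Agent.H62.UC.Bas
import Pool.Agent.H62.UC.JuncA

/-!
# DECB: extraction of a sequence of unitaries

Choose `v n` inductively in `UM S` with `‖v n (e Ω) - e Ω‖ ≤ 1/(n+1)` (along `F`, `u e Ω → e Ω`
weakly with `‖u e Ω‖ = ‖e Ω‖`, so in norm) and `‖⟪v k (1-e) Ω, v n (1-e) Ω⟫‖ ≤ 1/(n+1)` for `k < n`
(`u (1-e) Ω → e (1-e) Ω = 0` weakly).
Then `ξ_n = v n (1 - e) Ω` is weakly null: the `ζ` with `⟪ζ, ξ_n⟫ → 0` form a closed submodule which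
contains every `ξ_k`, so its orthogonal complement is zero.
So `v n Ω → e Ω` weakly, and on `y Ω`: `⟪ζ, v n y Ω⟫ = ⟪(ρ y)* ζ, v n Ω⟫`; density, boundedness.
-/

namespace Pool.H62.UC

open scoped InnerProductSpace TensorProduct ComplexConjugate
open Filter Topology

noncomputable section

variable {H : Type*} [NormedAddCommGroup H] [InnerProductSpace ℂ H] [CompleteSpace H]
variable {K : Type*} [NormedAddCommGroup K] [InnerProductSpace ℂ K] [CompleteSpace K]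

/-- the submodule of vectors asymptotically orthogonal to a sequence -/
def decb_sub (ξ : ℕ → H) : Submodule ℂ H where
  carrier := {ζ | Tendsto (fun n => ⟪ξ n, ζ⟫_ℂ) atTop (𝓝 0)}
  add_mem' := by
    intro a b ha hb
    simp only [Set.mem_ofPred_eq, inner_add_right] at *
    simpa using ha.add hb
  zero_mem' := by simp
  smul_mem' := by
    intro c a ha
    simp only [Set.mem_ofPred_eq, inner_smul_right] at *
    simpa using ha.const_mul c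

/-- a bounded sequence with asymptotically orthogonal members is weakly null -/
theorem decb_null (ξ : ℕ → H) (C : ℝ) (hC : ∀ n, ‖ξ n‖ ≤ C)
    (h : ∀ k, Tendsto (fun n => ⟪ξ k, ξ n⟫_ℂ) atTop (𝓝 0)) (ζ : H) :
    Tendsto (fun n => ⟪ζ, ξ n⟫_ℂ) atTop (𝓝 0) := by
  have hcl : IsClosed (decb_sub ξ : Set H) := by
    have h1 := BASC_closed (F := (atTop : Filter ℕ)) (fun n => innerSL ℂ (ξ n))
      (0 : H →L[ℂ] ℂ) (C := C) (fun n => by rw [innerSL_apply_norm]; exact hC n)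
    exact h1
  have hk : ∀ k, ξ k ∈ decb_sub ξ := by
    intro k
    show Tendsto (fun n => ⟪ξ n, ξ k⟫_ℂ) atTop (𝓝 0)
    have h2 : Tendsto (fun n => conj ⟪ξ k, ξ n⟫_ℂ) atTop (𝓝 (conj (0 : ℂ))) :=
      (Complex.continuous_conj.tendsto _).comp (h k)
    simpa using h2
  have hbot : (decb_sub ξ)ᗮ = ⊥ := by
    rw [Submodule.eq_bot_iff]
    intro x hx
    have h3 : x ∈ decb_sub ξ := by
      show Tendsto (fun n => ⟪ξ n, x⟫_ℂ) atTop (𝓝 0)
      have h4 : ∀ n, ⟪ξ n, x⟫_ℂ = 0 := fun n => (Submodule.mem_orthogonal _ _).1 hx _ (hk n)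
      simp [h4]
    have h5 := (Submodule.mem_orthogonal _ _).1 hx x h3
    exact inner_self_eq_zero.1 h5
  have : CompleteSpace (decb_sub ξ) := hcl.isComplete.completeSpace_coe
  have htop : decb_sub ξ = ⊤ := Submodule.orthogonal_eq_bot_iff.1 hbot
  have h6 : ζ ∈ decb_sub ξ := by rw [htop]; trivial
  have h7 : Tendsto (fun n => ⟪ξ n, ζ⟫_ℂ) atTop (𝓝 0) := h6
  have h8 : Tendsto (fun n => conj ⟪ξ n, ζ⟫_ℂ) atTop (𝓝 (conj (0 : ℂ))) :=
    (Complex.continuous_conj.tendsto _).comp h7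
  simpa using h8

theorem dec_seq (S : Std H K) (e : H →L[ℂ] H) (he : IsStarProjection e) (heM : e ∈ S.M)
    (hec : ∀ x ∈ S.M, e * x = x * e) (F : Ultrafilter (H →L[ℂ] H))
    (hF : ∀ᶠ u in (F : Filter (H →L[ℂ] H)), u ∈ UM S)
    (hw : ∀ ζ ω : H, Tendsto (fun u : H →L[ℂ] H => ⟪ζ, u ω⟫_ℂ) F (𝓝 ⟪ζ, e ω⟫_ℂ)) :
    ∃ v : ℕ → H →L[ℂ] H, (∀ n, v n ∈ UM S) ∧
      ∀ ζ ω : H, Tendsto (fun n => ⟪ζ, v n ω⟫_ℂ) atTop (𝓝 ⟪ζ, e ω⟫_ℂ) := by
  have hee : ∀ ω : H, e (e ω) = e ω := by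
    intro ω
    have h1 : e * e = e := he.isIdempotentElem
    exact congrArg (fun A : H →L[ℂ] H => A ω) h1
  set p : H := e S.Ω with hp
  set q : H := S.Ω - e S.Ω with hq
  have hep : e p = p := hee _
  have heq : e q = 0 := by rw [hq, map_sub, hee, sub_self]
  -- norm convergence on `p`
  have hnorm : ∀ u ∈ UM S, ‖u p - p‖ ^ 2 = 2 * ‖p‖ ^ 2 - 2 * (⟪p, u p⟫_ℂ).re := by
    intro u hu
    have h1 := @norm_sub_sq ℂ H _ _ _ (u p) p
    have h2 : ‖u p‖ = ‖p‖ := ContinuousLinearMap.norm_map_of_mem_unitary hu.2 p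
    have h3 : RCLike.re ⟪u p, p⟫_ℂ = (⟪p, u p⟫_ℂ).re := by
      rw [← inner_conj_symm p (u p)]
      exact (Complex.conj_re _).symm
    rw [h1, h2, h3]
    ring
  have hnt : Tendsto (fun u : H →L[ℂ] H => 2 * ‖p‖ ^ 2 - 2 * (⟪p, u p⟫_ℂ).re) F (𝓝 0) := by
    have h1 := (Complex.continuous_re.tendsto _).comp (hw p p)
    have h2 : (⟪p, e p⟫_ℂ).re = ‖p‖ ^ 2 := by
      rw [hep, inner_self_eq_norm_sq_to_K]
      norm_cast
    rw [h2] at h1
    have h3 := (h1.const_mul 2).const_sub (2 * ‖p‖ ^ 2)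
    simpa using h3
  have hn1 : ∀ ε : ℝ, 0 < ε → ∀ᶠ u in (F : Filter (H →L[ℂ] H)), ‖u p - p‖ ≤ ε := by
    intro ε hε
    have h1 : ∀ᶠ u in (F : Filter (H →L[ℂ] H)), 2 * ‖p‖ ^ 2 - 2 * (⟪p, u p⟫_ℂ).re < ε ^ 2 :=
      hnt.eventually (gt_mem_nhds (by positivity))
    filter_upwards [hF, h1] with u hu h2
    rw [← hnorm u hu] at h2
    exact (pow_le_pow_iff_left₀ (norm_nonneg _) hε.le two_ne_zero).1 h2.le
  have hn2 : ∀ (ζ : H) (ε : ℝ), 0 < ε → ∀ᶠ u in (F : Filter (H →L[ℂ] H)), ‖⟪ζ, u q⟫_ℂ‖ ≤ ε := by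
    intro ζ ε hε
    have h1 := hw ζ q
    rw [heq, inner_zero_right] at h1
    have h2 := h1.norm
    rw [norm_zero] at h2
    exact (h2.eventually (gt_mem_nhds hε)).mono fun u hu => le_of_lt hu
  -- extraction
  obtain ⟨f, hf1, hf2⟩ := exists_seq_of_forall_finset_exists
    (fun x : ℕ × (H →L[ℂ] H) => x.2 ∈ UM S ∧ ‖x.2 p - p‖ ≤ 1 / ((x.1 : ℝ) + 1))
    (fun x y : ℕ × (H →L[ℂ] H) => x.1 < y.1 ∧ ‖⟪x.2 q, y.2 q⟫_ℂ‖ ≤ 1 / ((y.1 : ℝ) + 1)) (by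
      intro s hs
      set N : ℕ := s.sup (fun x => x.1) + 1 with hN
      have hpos : (0 : ℝ) < 1 / ((N : ℝ) + 1) := by positivity
      have h1 : ∀ᶠ u in (F : Filter (H →L[ℂ] H)), ∀ x ∈ s, ‖⟪x.2 q, u q⟫_ℂ‖ ≤ 1 / ((N : ℝ) + 1) := by
        rw [Filter.eventually_all_finset]
        intro x hx
        exact hn2 _ _ hpos
      obtain ⟨u, hu⟩ := (hF.and ((hn1 _ hpos).and h1)).exists
      refine ⟨(N, u), ⟨hu.1, hu.2.1⟩, fun x hx => ⟨?_, hu.2.2 x hx⟩⟩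
      show x.1 < N
      rw [hN]
      exact Nat.lt_succ_of_le (Finset.le_sup (f := fun x : ℕ × (H →L[ℂ] H) => x.1) hx))
  have hmono : StrictMono (fun n => (f n).1) := fun m n hmn => (hf2 m n hmn).1
  have hge : ∀ n, n ≤ (f n).1 := fun n => hmono.id_le n
  have hle : ∀ n, 1 / (((f n).1 : ℝ) + 1) ≤ 1 / ((n : ℝ) + 1) := by
    intro n
    have h1 : (n : ℝ) ≤ ((f n).1 : ℝ) := by exact_mod_cast hge n
    apply one_div_le_one_div_of_le
    · positivity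
    · linarith
  have hlim : Tendsto (fun n : ℕ => 1 / ((n : ℝ) + 1)) atTop (𝓝 0) :=
    tendsto_one_div_add_atTop_nhds_zero_nat
  refine ⟨fun n => (f n).2, fun n => (hf1 n).1, ?_⟩
  -- the vectors `v n q` are weakly null
  have hnull : ∀ ζ : H, Tendsto (fun n => ⟪ζ, (f n).2 q⟫_ℂ) atTop (𝓝 0) := by
    refine decb_null (fun n => (f n).2 q) ‖q‖ (fun n =>
      (ContinuousLinearMap.norm_map_of_mem_unitary (hf1 n).1.2 q).le) ?_
    intro k
    rw [tendsto_zero_iff_norm_tendsto_zero]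
    refine squeeze_zero' (Eventually.of_forall fun n => norm_nonneg _) ?_ hlim
    filter_upwards [eventually_gt_atTop k] with n hn
    exact (hf2 k n hn).2.trans (hle n)
  have hconv : Tendsto (fun n => (f n).2 p) atTop (𝓝 p) := by
    rw [tendsto_iff_norm_sub_tendsto_zero]
    exact squeeze_zero (fun n => norm_nonneg _) (fun n => (hf1 n).2.trans (hle n)) hlim
  have hΩ : ∀ ζ : H, Tendsto (fun n => ⟪ζ, (f n).2 S.Ω⟫_ℂ) atTop (𝓝 ⟪ζ, e S.Ω⟫_ℂ) := by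
    intro ζ
    have h1 : Tendsto (fun n => ⟪ζ, (f n).2 p⟫_ℂ) atTop (𝓝 ⟪ζ, p⟫_ℂ) :=
      tendsto_const_nhds.inner hconv
    have h2 := h1.add (hnull ζ)
    rw [add_zero] at h2
    refine h2.congr fun n => ?_
    rw [← inner_add_right, ← map_add]
    congr 2
    rw [hp, hq, add_sub_cancel]
  intro ζ ω
  refine BASC_dense (F := (atTop : Filter ℕ)) (fun n => (innerSL ℂ ζ).comp (f n).2)
    ((innerSL ℂ ζ).comp e) (C := ‖ζ‖) ?_ S.BASC_dense_Ω ?_ ω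
  · intro n
    refine (ContinuousLinearMap.opNorm_comp_le _ _).trans ?_
    rw [innerSL_apply_norm]
    exact mul_le_of_le_one_right (norm_nonneg _) (UM_norm S (hf1 n).1)
  · rintro _ ⟨y, hy, rfl⟩
    have h1 := hΩ (star (S.ρ y) ζ)
    have h2 : ∀ x ∈ S.M, ⟪star (S.ρ y) ζ, x S.Ω⟫_ℂ = ⟪ζ, x (y S.Ω)⟫_ℂ := by
      intro x hx
      rw [ContinuousLinearMap.star_eq_adjoint, ContinuousLinearMap.adjoint_inner_left,
        S.ρ_apply x hx y hy]
      rfl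
    rw [h2 e heM] at h1
    refine h1.congr fun n => ?_
    rw [h2 _ (hf1 n).1.1]
    rfl

end

end Pool.H62.UC
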