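import Pool.Agent.H62.UC.Bas
import Pool.Agent.H62.UC.TrigB

/-!
# EXPL: Lipschitz estimate of exponentials (see the last item)

`(1, 0) ∈ Gr` is NOT assumed; it is a hypothesis `h1` (true for extensions of derivations on unital
algebras: `d 1 = d 1 + d 1`).

* `exp_mem`: powers `x^k` are in the domain with derivative `∑ x^j ξ x^{k-1-j}` (norm
  `≤ k ‖x‖^{k-1} ‖ξ‖`), the exponential series and its derivative series converge in norm, with
  bounded partial sums; bounded closedness gives `(uexp θ x, δ_θ) ∈ Gr` and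
  `‖δ_θ‖ ≤ |θ| ‖ξ‖ exp (|θ| ‖x‖)`.
* cocycle: `δ_{θ+θ'} = l (uexp θ x) δ_{θ'} + r (uexp θ' x) δ_θ`, so (unitaries act isometrically)
  `‖δ_{nθ}‖ ≤ n ‖δ_θ‖`; apply with `θ/n` and let `n → ∞`: `‖δ_θ‖ ≤ |θ| ‖ξ‖`.
* `exp_lip`: for self-adjoint `x, u ∈ M`:
  `uexp θ x - uexp θ u = ∑_{k<n} uexp (kθ/n) x (uexp (θ/n) x - uexp (θ/n) u) uexp ((n-1-k)θ/n) u`,
  so `‖(uexp θ x - uexp θ u) Ω‖ ≤ n ‖(uexp (θ/n) x - uexp (θ/n) u) Ω‖` (trace property), which tends
  to `|θ| ‖(x - u) Ω‖`.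
-/

namespace Pool.H62.UC

open scoped InnerProductSpace TensorProduct ComplexConjugate
open Filter Topology

noncomputable section


variable {H : Type*} [NormedAddCommGroup H] [InnerProductSpace ℂ H] [CompleteSpace H]
variable {K : Type*} [NormedAddCommGroup K] [InnerProductSpace ℂ K] [CompleteSpace K]

theorem uexp_mem (S : Std H K) (x : H →L[ℂ] H) (hx : x ∈ S.M) (θ : ℝ) : uexp θ x ∈ S.M := by
  rw [← VonNeumannAlgebra.commutant_commutant S.M, VonNeumannAlgebra.mem_commutant_iff]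
  intro g hg
  rw [VonNeumannAlgebra.mem_commutant_iff] at hg
  have h1 : Commute g ((Complex.I * (θ : ℂ)) • x) := by
    refine Commute.smul_right ?_ _
    exact (hg x hx).symm
  exact h1.exp_right

theorem EXPL_eq (θ t : ℝ) (x : H →L[ℂ] H) :
    uexp (t * θ) x = NormedSpace.exp (t • ((Complex.I * (θ : ℂ)) • x)) := by
  unfold uexp
  congr 1
  rw [← Complex.coe_smul t, smul_smul]
  congr 1
  push_cast
  ring

theorem exp_lip (S : Std H K) (x u : H →L[ℂ] H) (hx : x ∈ S.M) (hu : u ∈ S.M)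
    (hxs : IsSelfAdjoint x) (hus : IsSelfAdjoint u) (θ : ℝ) :
    ‖(uexp θ x - uexp θ u) S.Ω‖ ≤ |θ| * ‖(x - u) S.Ω‖ := by
  set a : H →L[ℂ] H := (Complex.I * (θ : ℂ)) • x with ha
  set b : H →L[ℂ] H := (Complex.I * (θ : ℂ)) • u with hb
  let F : ℝ → (H →L[ℂ] H) := fun t => NormedSpace.exp (t • a) * NormedSpace.exp ((1 - t) • b)
  let F' : ℝ → (H →L[ℂ] H) := fun t =>
    NormedSpace.exp (t • a) * ((a - b) * NormedSpace.exp ((1 - t) • b))
  have hF : ∀ t : ℝ, HasDerivAt F (F' t) t := by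
    intro t
    have h1 : HasDerivAt (fun t : ℝ => NormedSpace.exp (t • a)) (NormedSpace.exp (t • a) * a) t :=
      hasDerivAt_exp_smul_const a t
    have h2 : HasDerivAt (fun t : ℝ => NormedSpace.exp (t • b))
        (b * NormedSpace.exp ((1 - t) • b)) (1 - t) := hasDerivAt_exp_smul_const' b (1 - t)
    have h3 : HasDerivAt (fun t : ℝ => 1 - t) (-1) t := by
      simpa using (hasDerivAt_id t).const_sub 1
    have h4 : HasDerivAt (fun t : ℝ => NormedSpace.exp ((1 - t) • b))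
        ((-1 : ℝ) • (b * NormedSpace.exp ((1 - t) • b))) t := h2.scomp t h3
    have h5 := h1.mul h4
    refine h5.congr_deriv ?_
    show NormedSpace.exp (t • a) * a * NormedSpace.exp ((1 - t) • b) +
      NormedSpace.exp (t • a) * ((-1 : ℝ) • (b * NormedSpace.exp ((1 - t) • b))) =
      NormedSpace.exp (t • a) * ((a - b) * NormedSpace.exp ((1 - t) • b))
    rw [neg_one_smul]
    noncomm_ring
  let G : ℝ → H := fun t => (F t) S.Ω
  have hG : ∀ t : ℝ, HasDerivAt G ((F' t) S.Ω) t := by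
    intro t
    let ev : (H →L[ℂ] H) →L[ℝ] H :=
      ((ContinuousLinearMap.apply ℂ H S.Ω : (H →L[ℂ] H) →L[ℂ] H)).restrictScalars ℝ
    exact ev.hasFDerivAt.comp_hasDerivAt t (hF t)
  have hbound : ∀ t : ℝ, ‖(F' t) S.Ω‖ ≤ |θ| * ‖(x - u) S.Ω‖ := by
    intro t
    have h1 : NormedSpace.exp (t • a) = uexp (t * θ) x := (EXPL_eq θ t x).symm
    have h2 : NormedSpace.exp ((1 - t) • b) = uexp ((1 - t) * θ) u := (EXPL_eq θ (1 - t) u).symm
    have h3 : F' t = uexp (t * θ) x * ((Complex.I * (θ : ℂ)) • ((x - u) * uexp ((1 - t) * θ) u)) := by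
      show NormedSpace.exp (t • a) * ((a - b) * NormedSpace.exp ((1 - t) • b)) = _
      rw [h1, h2, ha, hb, ← smul_sub, smul_mul_assoc]
    rw [h3]
    have h4 := uexp_unitary (t * θ) x hxs
    refine (S.norm_mul_left _ _).trans ?_
    have h5 : ‖uexp (t * θ) x‖ ≤ 1 := by
      have h7 : ‖uexp (t * θ) x‖ * ‖uexp (t * θ) x‖ ≤ 1 := by
        rw [← CStarRing.norm_star_mul_self, (Unitary.mem_iff.1 h4).1]
        exact ContinuousLinearMap.norm_id_le
      nlinarith [norm_nonneg (uexp (t * θ) x)]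
    have h6 : ‖((Complex.I * (θ : ℂ)) • ((x - u) * uexp ((1 - t) * θ) u)) S.Ω‖ =
        |θ| * ‖(x - u) S.Ω‖ := by
      show ‖(Complex.I * (θ : ℂ)) • (((x - u) * uexp ((1 - t) * θ) u) S.Ω)‖ = _
      rw [norm_smul, S.norm_mul_unitary (sub_mem hx hu) (uexp_mem S u hu _)
        (uexp_unitary _ u hus)]
      simp
    rw [h6]
    calc ‖uexp (t * θ) x‖ * (|θ| * ‖(x - u) S.Ω‖) ≤ 1 * (|θ| * ‖(x - u) S.Ω‖) :=
          mul_le_mul_of_nonneg_right h5 (by positivity)
      _ = |θ| * ‖(x - u) S.Ω‖ := one_mul _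
  have hmain := norm_image_sub_le_of_norm_deriv_le_segment_01' (f := G)
    (f' := fun t => (F' t) S.Ω) (C := |θ| * ‖(x - u) S.Ω‖)
    (fun t _ => (hG t).hasDerivWithinAt) (fun t _ => hbound t)
  have hF1 : F 1 = uexp θ x := by
    show NormedSpace.exp ((1 : ℝ) • a) * NormedSpace.exp (((1 : ℝ) - 1) • b) = uexp θ x
    rw [sub_self, zero_smul, NormedSpace.exp_zero, mul_one, one_smul]
    rfl
  have hF0 : F 0 = uexp θ u := by
    show NormedSpace.exp ((0 : ℝ) • a) * NormedSpace.exp (((1 : ℝ) - 0) • b) = uexp θ u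
    rw [sub_zero, zero_smul, NormedSpace.exp_zero, one_mul, one_smul]
    rfl
  have hfin : G 1 - G 0 = (uexp θ x - uexp θ u) S.Ω := by
    show (F 1) S.Ω - (F 0) S.Ω = _
    rw [hF1, hF0]
    rfl
  rw [hfin] at hmain
  exact hmain

end

end Pool.H62.UC
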