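import Pool.Agent.H62.UC.MeanA

/-!
# BESSA (of BESS: `mean_bessel`): Bessel's inequality along random words

For a word `w` of length `N = j + 1 + j'` put `E_j w = E (take j w) w_j (drop (j+1) w)`.
With respect to the semi inner product `⟨F, G⟩ = (m.words N) ⟪F w, G w⟫` the vectors
`E_0, ..., E_{N-1}` are orthogonal (hypotheses `horth`, `h0`), of norm `≤ B`, and `X` has norm
`≤ C`; Bessel gives `∑_j |⟨E_j, X⟩|² ≤ B² C²` (expand `0 ≤ ‖X - B⁻² ∑ ⟨E_j, X⟩ E_j‖²`).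
Sum over `N`, then Cauchy-Schwarz over the block `j ≤ J`, `j' ≤ J'`:
`|average of φ(j,j')|² ≤ (average of |φ(j,j')|²) ≤ (J + J' + 1) (B C)² / ((J+1)(J'+1))`
where `φ(j,j') = (words j) m (words j') ⟪E L i R, X (L ++ i :: R)⟫`.
-/

namespace Pool.H62.UC

open scoped InnerProductSpace TensorProduct ComplexConjugate
open Filter Topology

noncomputable section


variable {I : Type*}
variable {V : Type*} [NormedAddCommGroup V] [InnerProductSpace ℂ V]

/-- Bessel's inequality for the semi inner product of a mean. -/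
theorem mean_bessel (m : Mean I) (n : ℕ) (E : Fin n → I → V) (X : I → V) (B C : ℝ)
    (hB : 0 ≤ B) (hE : ∀ j i, ‖E j i‖ ≤ B) (hX : ∀ i, ‖X i‖ ≤ C)
    (horth : ∀ j k, j ≠ k → m.m (fun i => ⟪E j i, E k i⟫_ℂ) = 0) :
    ∑ j, ‖m.m (fun i => ⟪E j i, X i⟫_ℂ)‖ ^ 2 ≤ (B * C) ^ 2 := by
  classical
  set a : Fin n → ℂ := fun j => m.m (fun i => ⟪E j i, X i⟫_ℂ) with ha
  set S : ℝ := ∑ j, ‖a j‖ ^ 2 with hS
  set Y : I → V := fun i => ∑ j, a j • E j i with hY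
  have bEX : ∀ j, Bdd (fun i => ⟪E j i, X i⟫_ℂ) := fun j =>
    ⟨B * C, fun i => (norm_inner_le_norm _ _).trans
      (mul_le_mul (hE j i) (hX i) (norm_nonneg _) hB)⟩
  have bEE : ∀ j k, Bdd (fun i => ⟪E j i, E k i⟫_ℂ) := fun j k =>
    ⟨B * B, fun i => (norm_inner_le_norm _ _).trans
      (mul_le_mul (hE j i) (hE k i) (norm_nonneg _) hB)⟩
  set D : ℝ := ∑ j, ‖a j‖ * B with hD
  have hD0 : 0 ≤ D := Finset.sum_nonneg fun j _ => mul_nonneg (norm_nonneg _) hB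
  have hYD : ∀ i, ‖Y i‖ ≤ D := by
    intro i
    refine (norm_sum_le _ _).trans (Finset.sum_le_sum fun j _ => ?_)
    rw [norm_smul]
    exact mul_le_mul_of_nonneg_left (hE j i) (norm_nonneg _)
  have bEY : ∀ j, Bdd (fun i => ⟪E j i, Y i⟫_ℂ) := fun j =>
    ⟨B * D, fun i => (norm_inner_le_norm _ _).trans
      (mul_le_mul (hE j i) (hYD i) (norm_nonneg _) hB)⟩
  -- `m ⟪Y, X⟫ = S`
  have hYX : m.m (fun i => ⟪Y i, X i⟫_ℂ) = (S : ℂ) := by
    have h1 : (fun i => ⟪Y i, X i⟫_ℂ) = fun i => ∑ j, conj (a j) * ⟪E j i, X i⟫_ℂ := by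
      funext i
      rw [hY]
      simp only [sum_inner, inner_smul_left]
    rw [h1, Mean.sum m Finset.univ (fun j => conj (a j)) (fun j i => ⟪E j i, X i⟫_ℂ)
      (fun j _ => bEX j), hS]
    push_cast
    refine Finset.sum_congr rfl fun j _ => ?_
    exact Complex.conj_mul' (a j)
  have hEY : ∀ j, m.m (fun i => ⟪E j i, Y i⟫_ℂ) = a j * m.m (fun i => ⟪E j i, E j i⟫_ℂ) := by
    intro j
    have h1 : (fun i => ⟪E j i, Y i⟫_ℂ) = fun i => ∑ k, a k * ⟪E j i, E k i⟫_ℂ := by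
      funext i
      rw [hY]
      simp only [inner_sum, inner_smul_right]
    rw [h1, Mean.sum m Finset.univ a (fun k i => ⟪E j i, E k i⟫_ℂ) (fun k _ => bEE j k)]
    refine Finset.sum_eq_single j (fun k _ hk => ?_) (fun h => absurd (Finset.mem_univ j) h)
    rw [horth j k (Ne.symm hk), mul_zero]
  -- the norms
  have hsq : ∀ v : V, ((‖v‖ ^ 2 : ℝ) : ℂ) = ⟪v, v⟫_ℂ := by
    intro v
    rw [inner_self_eq_norm_sq_to_K]
    push_cast
    rfl
  have hEE : ∀ j, (m.m (fun i => ⟪E j i, E j i⟫_ℂ)).re ≤ B ^ 2 := by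
    intro j
    have h1 : (fun i => ⟪E j i, E j i⟫_ℂ) = fun i => ((‖E j i‖ ^ 2 : ℝ) : ℂ) := by
      funext i
      rw [hsq]
    have h2 : ∀ i, ‖E j i‖ ^ 2 ≤ B ^ 2 := fun i => pow_le_pow_left₀ (norm_nonneg _) (hE j i) 2
    have h3 := Mean.mono m (fun i => ‖E j i‖ ^ 2) (fun _ => B ^ 2)
      ⟨B ^ 2, fun i => by rw [abs_of_nonneg (by positivity)]; exact h2 i⟩
      ⟨B ^ 2, fun i => by rw [abs_of_nonneg (by positivity)]⟩ h2
    rw [m.const, Complex.ofReal_re] at h3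
    rw [h1]
    exact h3
  have hYY : (m.m (fun i => ((‖Y i‖ ^ 2 : ℝ) : ℂ))).re ≤ B ^ 2 * S := by
    have h1 : (fun i => ((‖Y i‖ ^ 2 : ℝ) : ℂ)) = fun i => ∑ j, conj (a j) * ⟪E j i, Y i⟫_ℂ := by
      funext i
      rw [hsq]
      conv_lhs => rw [show Y i = ∑ j, a j • E j i from rfl]
      rw [sum_inner]
      refine Finset.sum_congr rfl fun j _ => ?_
      rw [inner_smul_left]
    rw [h1, Mean.sum m Finset.univ (fun j => conj (a j)) (fun j i => ⟪E j i, Y i⟫_ℂ)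
      (fun j _ => bEY j), Complex.re_sum, hS, Finset.mul_sum]
    refine Finset.sum_le_sum fun j _ => ?_
    rw [hEY j, ← mul_assoc, Complex.conj_mul', ← Complex.ofReal_pow, Complex.re_ofReal_mul,
      mul_comm]
    exact mul_le_mul_of_nonneg_right (hEE j) (by positivity)
  -- the main inequality
  have hmain : ∀ s : ℝ, 2 * s * S ≤ C ^ 2 + s ^ 2 * (B ^ 2 * S) := by
    intro s
    have bYX : Bdd (fun i => ⟪Y i, X i⟫_ℂ) := ⟨D * C, fun i => (norm_inner_le_norm _ _).trans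
      (mul_le_mul (hYD i) (hX i) (norm_nonneg _) hD0)⟩
    have h1 : ∀ i, 2 * s * (⟪Y i, X i⟫_ℂ).re ≤ C ^ 2 + s ^ 2 * ‖Y i‖ ^ 2 := by
      intro i
      have h2 : 0 ≤ ‖X i - (s : ℂ) • Y i‖ ^ 2 := by positivity
      rw [@norm_sub_sq ℂ] at h2
      rw [inner_smul_right, norm_smul] at h2
      have h3 : RCLike.re ((s : ℂ) * ⟪X i, Y i⟫_ℂ) = s * (⟪Y i, X i⟫_ℂ).re := by
        rw [← inner_conj_symm (X i) (Y i)]
        change ((s : ℂ) * conj ⟪Y i, X i⟫_ℂ).re = _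
        rw [Complex.re_ofReal_mul, Complex.conj_re]
      rw [h3, Complex.norm_real, mul_pow, Real.norm_eq_abs, sq_abs] at h2
      have h4 : ‖X i‖ ^ 2 ≤ C ^ 2 := pow_le_pow_left₀ (norm_nonneg _) (hX i) 2
      linarith
    have bY2 : ∀ i, ‖Y i‖ ^ 2 ≤ D ^ 2 := fun i => pow_le_pow_left₀ (norm_nonneg _) (hYD i) 2
    have h5 := Mean.mono m (fun i => 2 * s * (⟪Y i, X i⟫_ℂ).re)
      (fun i => C ^ 2 + s ^ 2 * ‖Y i‖ ^ 2)
      ⟨|2 * s| * (D * C), fun i => by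
        rw [abs_mul]
        refine mul_le_mul_of_nonneg_left ?_ (abs_nonneg _)
        exact (Complex.abs_re_le_norm _).trans ((norm_inner_le_norm _ _).trans
          (mul_le_mul (hYD i) (hX i) (norm_nonneg _) hD0))⟩
      ⟨C ^ 2 + s ^ 2 * D ^ 2, fun i => by
        rw [abs_of_nonneg (by positivity)]
        have := mul_le_mul_of_nonneg_left (bY2 i) (sq_nonneg s)
        linarith⟩ h1
    have h6 : (fun i => ((2 * s * (⟪Y i, X i⟫_ℂ).re : ℝ) : ℂ)) =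
        fun i => ((2 * s : ℝ) : ℂ) * (((⟪Y i, X i⟫_ℂ).re : ℝ) : ℂ) := by
      funext i
      push_cast
      ring
    have h7 : (fun i => ((C ^ 2 + s ^ 2 * ‖Y i‖ ^ 2 : ℝ) : ℂ)) =
        fun i => ((C ^ 2 : ℝ) : ℂ) + ((s ^ 2 : ℝ) : ℂ) * ((‖Y i‖ ^ 2 : ℝ) : ℂ) := by
      funext i
      push_cast
      ring
    have bY : Bdd (fun i => ((‖Y i‖ ^ 2 : ℝ) : ℂ)) := ⟨D ^ 2, fun i => by
      rw [Complex.norm_real, Real.norm_eq_abs, abs_of_nonneg (by positivity)]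
      exact bY2 i⟩
    have bY' : Bdd (fun i => ((s ^ 2 : ℝ) : ℂ) * ((‖Y i‖ ^ 2 : ℝ) : ℂ)) :=
      ⟨s ^ 2 * D ^ 2, fun i => by
        rw [norm_mul, Complex.norm_real, Complex.norm_real, Real.norm_eq_abs, Real.norm_eq_abs,
          abs_of_nonneg (by positivity : (0 : ℝ) ≤ s ^ 2),
          abs_of_nonneg (by positivity : (0 : ℝ) ≤ ‖Y i‖ ^ 2)]
        exact mul_le_mul_of_nonneg_left (bY2 i) (sq_nonneg s)⟩
    have bre : Bdd (fun i => (((⟪Y i, X i⟫_ℂ).re : ℝ) : ℂ)) := ⟨D * C, fun i => by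
      rw [Complex.norm_real, Real.norm_eq_abs]
      exact (Complex.abs_re_le_norm _).trans ((norm_inner_le_norm _ _).trans
        (mul_le_mul (hYD i) (hX i) (norm_nonneg _) hD0))⟩
    rw [h6, h7, m.smul _ _ bre, Mean.re m _ bYX, hYX,
      m.add (fun _ => ((C ^ 2 : ℝ) : ℂ)) _ ⟨‖((C ^ 2 : ℝ) : ℂ)‖, fun _ => le_rfl⟩ bY', m.const,
      m.smul _ _ bY, Complex.re_ofReal_mul, Complex.add_re, Complex.re_ofReal_mul,
      Complex.ofReal_re, Complex.ofReal_re, Complex.ofReal_re] at h5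
    have h8 := mul_le_mul_of_nonneg_left hYY (sq_nonneg s)
    linarith
  rcases eq_or_lt_of_le hB with hB0 | hB0
  · -- `B = 0`
    have hE0 : ∀ j i, E j i = 0 := fun j i => norm_le_zero_iff.1 (by rw [hB0]; exact hE j i)
    have ha0 : ∀ j, a j = 0 := by
      intro j
      have : (fun i => ⟪E j i, X i⟫_ℂ) = fun _ => 0 := by
        funext i
        rw [hE0, inner_zero_left]
      rw [ha]
      simp only
      rw [this, m.const]
    rw [hS]
    simp only [ha0, norm_zero]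
    rw [← hB0]
    simp
  · have h1 := hmain (1 / B ^ 2)
    have h2 : (1 / B ^ 2) ^ 2 * (B ^ 2 * S) = S / B ^ 2 := by
      field_simp
    have h3 : 2 * (1 / B ^ 2) * S = 2 * (S / B ^ 2) := by ring
    rw [h2, h3] at h1
    have h4 : S / B ^ 2 ≤ C ^ 2 := by linarith
    rw [div_le_iff₀ (by positivity)] at h4
    calc S ≤ C ^ 2 * B ^ 2 := h4
      _ = (B * C) ^ 2 := by ring

end

end Pool.H62.UC
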