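import Pool.Agent.H62.UC.MeanC
import Pool.Agent.H62.UC.BessA

/-!
# BESSB (of BESS): Bessel's inequality along random words

For a word `w` of length `N = j + 1 + j'` put `E_j w = E (take j w) w_j (drop (j+1) w)`.
With respect to the semi inner product `⟨F, G⟩ = (m.words N) ⟪F w, G w⟫` the vectors
`E_0, ..., E_{N-1}` are orthogonal (hypotheses `horth`, `h0`), of norm `≤ B`, and `X` has norm
`≤ C`; Bessel gives `∑_j |⟨E_j, X⟩|² ≤ B² C²` (expand `0 ≤ ‖X - B⁻² ∑ ⟨E_j, X⟩ E_j‖²`).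
Sum over `N`, then Cauchy-Schwarz over the block `j ≤ J`, `j' ≤ J'`:
`|average of φ(j,j')|² ≤ (average of |φ(j,j')|²) ≤ (J + J' + 1) (B C)² / ((J+1)(J'+1))`
where `φ(j,j') = (words j) m (words j') ⟪E L i R, X (L ++ i :: R)⟫`.
-/

namespace Pool.H62.UC

open scoped InnerProductSpace TensorProduct ComplexConjugate
open Filter Topology

noncomputable section


variable {I : Type*}
variable {V : Type*} [NormedAddCommGroup V] [InnerProductSpace ℂ V]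

/-- the vector of the junction at position `j` of a word -/
def BESSB_E (E : List I → I → List I → V) (j : ℕ) (w : List I) : V :=
  match w.drop j with
  | [] => 0
  | i :: R => E (w.take j) i R

theorem BESSB_E_append (E : List I → I → List I → V) (L : List I) (i : I) (R : List I) :
    BESSB_E E L.length (L ++ i :: R) = E L i R := by
  unfold BESSB_E
  rw [List.drop_left, List.take_left]

theorem BESSB_E_norm (E : List I → I → List I → V) {B : ℝ} (hB : 0 ≤ B)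
    (hE : ∀ L i R, ‖E L i R‖ ≤ B) (j : ℕ) (w : List I) : ‖BESSB_E E j w‖ ≤ B := by
  unfold BESSB_E
  split
  · rw [norm_zero]; exact hB
  · exact hE _ _ _

theorem BESSB_split (m : Mean I) {j N : ℕ} (hj : j ≤ N) (f : List I → ℂ) :
    (m.words (N + 1)).m f = (m.words j).m (fun L => m.m (fun i => (m.words (N - j)).m
      (fun R => f (L ++ i :: R)))) := by
  have h1 : N + 1 = j + 1 + (N - j) := by omega
  rw [h1, m.words_split]

theorem BESSB_inner_zero (m : Mean I) (E : List I → I → List I → V) (B : ℝ)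
    (hE : ∀ L i R, ‖E L i R‖ ≤ B)
    (h : List I → I → List I → I → ℝ) (hh : ∃ D : ℝ, ∀ L i L' i', 0 ≤ h L i L' i' ∧
      h L i L' i' ≤ D)
    (horth : ∀ L₁ i₁ L₂ i₂ L₃,
      ‖⟪E L₁ i₁ (L₂ ++ i₂ :: L₃), E (L₁ ++ i₁ :: L₂) i₂ L₃⟫_ℂ‖ ≤ h L₁ i₁ L₂ i₂)
    (h0 : ∀ L₁ i₁ L₂, m.m (fun i₂ => ((h L₁ i₁ L₂ i₂ : ℝ) : ℂ)) = 0) {j k N : ℕ} (hjk : j < k)
    (hk : k ≤ N) :
    (m.words (N + 1)).m (fun w => ⟪BESSB_E E j w, BESSB_E E k w⟫_ℂ) = 0 := by
  rw [BESSB_split m (by omega : j ≤ N)]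
  have key : ∀ L₁ : List I, L₁.length = j → ∀ i₁, (m.words (N - j)).m (fun R =>
      ⟪BESSB_E E j (L₁ ++ i₁ :: R), BESSB_E E k (L₁ ++ i₁ :: R)⟫_ℂ) = 0 := by
    intro L₁ hL₁ i₁
    obtain ⟨N', hN'⟩ : ∃ N', N - j = N' + 1 := ⟨N - j - 1, by omega⟩
    rw [hN', BESSB_split m (by omega : k - j - 1 ≤ N')]
    have key2 : ∀ L₂ : List I, L₂.length = k - j - 1 →
        m.m (fun i₂ => (m.words (N' - (k - j - 1))).m (fun L₃ =>
          ⟪BESSB_E E j (L₁ ++ i₁ :: (L₂ ++ i₂ :: L₃)),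
            BESSB_E E k (L₁ ++ i₁ :: (L₂ ++ i₂ :: L₃))⟫_ℂ)) = 0 := by
      intro L₂ hL₂
      have e1 : ∀ i₂ L₃, BESSB_E E j (L₁ ++ i₁ :: (L₂ ++ i₂ :: L₃)) =
          E L₁ i₁ (L₂ ++ i₂ :: L₃) := by
        intro i₂ L₃
        rw [← hL₁, BESSB_E_append]
      have e2 : ∀ i₂ L₃, BESSB_E E k (L₁ ++ i₁ :: (L₂ ++ i₂ :: L₃)) =
          E (L₁ ++ i₁ :: L₂) i₂ L₃ := by
        intro i₂ L₃
        have h1 : k = (L₁ ++ i₁ :: L₂).length := by
          rw [List.length_append, List.length_cons]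
          omega
        have h2 : L₁ ++ i₁ :: (L₂ ++ i₂ :: L₃) = (L₁ ++ i₁ :: L₂) ++ i₂ :: L₃ := by simp
        rw [h1, h2, BESSB_E_append]
      simp only [e1, e2]
      rw [← norm_le_zero_iff]
      obtain ⟨D, hD⟩ := hh
      have h3 := m.norm_le_norm (fun i₂ => (m.words (N' - (k - j - 1))).m (fun L₃ =>
          ⟪E L₁ i₁ (L₂ ++ i₂ :: L₃), E (L₁ ++ i₁ :: L₂) i₂ L₃⟫_ℂ)) (fun i₂ => h L₁ i₁ L₂ i₂)
        ⟨D, fun i₂ => by rw [abs_of_nonneg (hD _ _ _ _).1]; exact (hD _ _ _ _).2⟩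
        (fun i₂ => (m.words _).norm_le _ _ fun L₃ => horth L₁ i₁ L₂ i₂ L₃)
      rw [h0, Complex.zero_re] at h3
      exact h3
    rw [m.words_congr (k - j - 1) _ (fun _ => 0) key2]
    exact (m.words _).const 0
  rw [m.words_congr j _ (fun _ => 0) (fun L₁ hL₁ => by
    simp only [key L₁ hL₁]
    exact m.const 0)]
  exact (m.words _).const 0

/-- For every total length, the sum over the positions. -/
theorem words_bessel (m : Mean I) (E : List I → I → List I → V) (X : List I → V) (B C : ℝ)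
    (hB : 0 ≤ B) (hE : ∀ L i R, ‖E L i R‖ ≤ B) (hX : ∀ w, ‖X w‖ ≤ C)
    (h : List I → I → List I → I → ℝ) (hh : ∃ D : ℝ, ∀ L i L' i', 0 ≤ h L i L' i' ∧
      h L i L' i' ≤ D)
    (horth : ∀ L₁ i₁ L₂ i₂ L₃,
      ‖⟪E L₁ i₁ (L₂ ++ i₂ :: L₃), E (L₁ ++ i₁ :: L₂) i₂ L₃⟫_ℂ‖ ≤ h L₁ i₁ L₂ i₂)
    (h0 : ∀ L₁ i₁ L₂, m.m (fun i₂ => ((h L₁ i₁ L₂ i₂ : ℝ) : ℂ)) = 0) (N : ℕ) :
    ∑ j ∈ Finset.range (N + 1), ‖(m.words j).m (fun L => m.m (fun i => (m.words (N - j)).m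
      (fun R => ⟪E L i R, X (L ++ i :: R)⟫_ℂ)))‖ ^ 2 ≤ (B * C) ^ 2 := by
  have hBd : ∀ j k : ℕ, Bdd (fun w => ⟪BESSB_E E j w, BESSB_E E k w⟫_ℂ) := by
    intro j k
    refine ⟨B * B, fun w => (norm_inner_le_norm _ _).trans ?_⟩
    exact mul_le_mul (BESSB_E_norm E hB hE j w) (BESSB_E_norm E hB hE k w) (norm_nonneg _) hB
  have h1 := mean_bessel (m.words (N + 1)) (N + 1) (fun j : Fin (N + 1) => BESSB_E E (j : ℕ)) X B C
    hB (fun j w => BESSB_E_norm E hB hE j w) hX (by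
      intro j k hjk
      rcases lt_or_gt_of_ne (fun h => hjk (Fin.ext h)) with hlt | hgt
      · exact BESSB_inner_zero m E B hE h hh horth h0 hlt (Nat.lt_succ_iff.1 k.2)
      · have h2 := BESSB_inner_zero m E B hE h hh horth h0 hgt (Nat.lt_succ_iff.1 j.2)
        have h3 := (m.words (N + 1)).conj _ (hBd k j)
        rw [h2, map_zero] at h3
        rw [← h3]
        congr 1
        funext w
        exact (inner_conj_symm _ _).symm)
  rw [Finset.sum_range]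
  refine le_trans (le_of_eq ?_) h1
  refine Finset.sum_congr rfl fun j _ => ?_
  congr 2
  have hj : (j : ℕ) ≤ N := Nat.lt_succ_iff.1 j.2
  rw [BESSB_split m hj]
  refine m.words_congr j _ _ fun L hL => ?_
  congr 1
  funext i
  congr 1
  funext R
  rw [← hL, BESSB_E_append]

theorem BESSB_regroup (a : ℕ → ℕ → ℝ) (ha : ∀ j k, 0 ≤ a j k) (J J' : ℕ) :
    ∑ j ∈ Finset.range (J + 1), ∑ j' ∈ Finset.range (J' + 1), a j j' ≤
      ∑ N ∈ Finset.range (J + J' + 1), ∑ j ∈ Finset.range (N + 1), a j (N - j) := by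
  rw [← Finset.sum_product', Finset.sum_sigma']
  have h1 : ∑ x ∈ Finset.range (J + 1) ×ˢ Finset.range (J' + 1), a x.1 x.2 =
      ∑ y ∈ (Finset.range (J + 1) ×ˢ Finset.range (J' + 1)).image
        (fun x : ℕ × ℕ => (⟨x.1 + x.2, x.1⟩ : Σ _ : ℕ, ℕ)), a y.2 (y.1 - y.2) := by
    rw [Finset.sum_image]
    · refine Finset.sum_congr rfl fun x _ => ?_
      simp
    · rintro ⟨x1, x2⟩ _ ⟨y1, y2⟩ _ hxy
      simp only [Sigma.mk.injEq, heq_eq_eq] at hxy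
      obtain ⟨h1, h2⟩ := hxy
      ext
      · exact h2
      · simp only
        omega
  rw [h1]
  apply Finset.sum_le_sum_of_subset_of_nonneg
  · intro y hy
    rw [Finset.mem_image] at hy
    obtain ⟨⟨x1, x2⟩, hx, rfl⟩ := hy
    rw [Finset.mem_product, Finset.mem_range, Finset.mem_range] at hx
    rw [Finset.mem_sigma, Finset.mem_range, Finset.mem_range]
    simp only at hx ⊢
    omega
  · intro y _ _
    exact ha _ _

/-- The block average. -/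
theorem block_bessel (m : Mean I) (E : List I → I → List I → V) (X : List I → V) (B C : ℝ)
    (hB : 0 ≤ B) (hC : 0 ≤ C) (hE : ∀ L i R, ‖E L i R‖ ≤ B) (hX : ∀ w, ‖X w‖ ≤ C)
    (h : List I → I → List I → I → ℝ) (hh : ∃ D : ℝ, ∀ L i L' i', 0 ≤ h L i L' i' ∧
      h L i L' i' ≤ D)
    (horth : ∀ L₁ i₁ L₂ i₂ L₃,
      ‖⟪E L₁ i₁ (L₂ ++ i₂ :: L₃), E (L₁ ++ i₁ :: L₂) i₂ L₃⟫_ℂ‖ ≤ h L₁ i₁ L₂ i₂)
    (h0 : ∀ L₁ i₁ L₂, m.m (fun i₂ => ((h L₁ i₁ L₂ i₂ : ℝ) : ℂ)) = 0) (J J' : ℕ) :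
    ‖(Mean.avg J).m (fun j => (m.words j).m (fun L => m.m (fun i =>
      (Mean.avg J').m (fun j' => (m.words j').m (fun R => ⟪E L i R, X (L ++ i :: R)⟫_ℂ)))))‖
      ≤ B * C * Real.sqrt (1 / (J + 1) + 1 / (J' + 1)) := by
  obtain ⟨T, hTdef⟩ : ∃ T : List I → I → List I → ℂ, ∀ L i R, T L i R = ⟪E L i R, X (L ++ i :: R)⟫_ℂ :=
    ⟨_, fun _ _ _ => rfl⟩
  have hT : ∀ L i R, ‖T L i R‖ ≤ B * C := by
    intro L i R
    rw [hTdef]
    exact (norm_inner_le_norm _ _).trans (mul_le_mul (hE L i R) (hX _) (norm_nonneg _) hB)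
  have hT1 : ∀ j' L i, ‖(m.words j').m (fun R => T L i R)‖ ≤ B * C := fun j' L i =>
    (m.words j').norm_le _ _ (hT L i)
  have hT2 : ∀ j' L, ‖m.m (fun i => (m.words j').m (fun R => T L i R))‖ ≤ B * C := fun j' L =>
    m.norm_le _ _ (hT1 j' L)
  have hmain : ∀ j, (m.words j).m (fun L => m.m (fun i =>
      (Mean.avg J').m (fun j' => (m.words j').m (fun R => T L i R)))) =
      ∑ j' ∈ Finset.range (J' + 1), ((J' : ℂ) + 1)⁻¹ *
        (m.words j).m (fun L => m.m (fun i => (m.words j').m (fun R => T L i R))) := by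
    intro j
    have h1 : ∀ L i, (Mean.avg J').m (fun j' => (m.words j').m (fun R => T L i R)) =
        ∑ j' ∈ Finset.range (J' + 1), ((J' : ℂ) + 1)⁻¹ * (m.words j').m (fun R => T L i R) := by
      intro L i
      show (∑ j' ∈ Finset.range (J' + 1), (m.words j').m (fun R => T L i R)) / ((J' : ℂ) + 1) = _
      rw [div_eq_inv_mul, Finset.mul_sum]
    simp only [h1]
    have h2 : ∀ L, m.m (fun i => ∑ j' ∈ Finset.range (J' + 1), ((J' : ℂ) + 1)⁻¹ *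
        (m.words j').m (fun R => T L i R)) = ∑ j' ∈ Finset.range (J' + 1), ((J' : ℂ) + 1)⁻¹ *
        m.m (fun i => (m.words j').m (fun R => T L i R)) := by
      intro L
      exact m.sum (Finset.range (J' + 1)) (fun _ => ((J' : ℂ) + 1)⁻¹)
        (fun j' i => (m.words j').m (fun R => T L i R)) (fun j' _ => ⟨B * C, hT1 j' L⟩)
    simp only [h2]
    exact (m.words j).sum (Finset.range (J' + 1)) (fun _ => ((J' : ℂ) + 1)⁻¹)
        (fun j' L => m.m (fun i => (m.words j').m (fun R => T L i R)))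
        (fun j' _ => ⟨B * C, hT2 j'⟩)
  obtain ⟨φ, hφ⟩ : ∃ φ : ℕ → ℕ → ℂ, ∀ j j', φ j j' = (m.words j).m (fun L => m.m (fun i =>
    (m.words j').m (fun R => T L i R))) := ⟨_, fun _ _ => rfl⟩
  simp only [← hTdef, hmain, ← hφ]
  have hav : (Mean.avg J).m (fun j => ∑ j' ∈ Finset.range (J' + 1), ((J' : ℂ) + 1)⁻¹ * φ j j') =
      ((J : ℂ) + 1)⁻¹ * (((J' : ℂ) + 1)⁻¹ *
        ∑ j ∈ Finset.range (J + 1), ∑ j' ∈ Finset.range (J' + 1), φ j j') := by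
    show (∑ j ∈ Finset.range (J + 1), ∑ j' ∈ Finset.range (J' + 1), ((J' : ℂ) + 1)⁻¹ * φ j j') /
      ((J : ℂ) + 1) = _
    rw [div_eq_inv_mul]
    congr 1
    rw [Finset.mul_sum]
    refine Finset.sum_congr rfl fun j _ => ?_
    rw [Finset.mul_sum]
  rw [hav]
  have hN : ∀ N, ∑ j ∈ Finset.range (N + 1), ‖φ j (N - j)‖ ^ 2 ≤ (B * C) ^ 2 := by
    intro N
    have h1 := words_bessel m E X B C hB hE hX h hh horth h0 N
    simp only [← hTdef, ← hφ] at h1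
    exact h1
  have hsum : ∑ j ∈ Finset.range (J + 1), ∑ j' ∈ Finset.range (J' + 1), ‖φ j j'‖ ^ 2 ≤
      (J + J' + 1) * (B * C) ^ 2 := by
    refine (BESSB_regroup (fun j j' => ‖φ j j'‖ ^ 2) (fun _ _ => by positivity) J J').trans ?_
    refine (Finset.sum_le_sum fun N _ => hN N).trans ?_
    rw [Finset.sum_const, Finset.card_range, nsmul_eq_mul]
    push_cast
    exact le_refl _
  have hcs : (∑ j ∈ Finset.range (J + 1), ∑ j' ∈ Finset.range (J' + 1), ‖φ j j'‖) ^ 2 ≤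
      ((J + 1) * (J' + 1)) * ∑ j ∈ Finset.range (J + 1), ∑ j' ∈ Finset.range (J' + 1),
        ‖φ j j'‖ ^ 2 := by
    rw [← Finset.sum_product' (Finset.range (J + 1)) (Finset.range (J' + 1)) (fun j j' => ‖φ j j'‖),
      ← Finset.sum_product' (Finset.range (J + 1)) (Finset.range (J' + 1))
        (fun j j' => ‖φ j j'‖ ^ 2)]
    refine sq_sum_le_card_mul_sum_sq.trans (le_of_eq ?_)
    rw [Finset.card_product, Finset.card_range, Finset.card_range]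
    push_cast
    rfl
  have hJ : (0 : ℝ) < (J : ℝ) + 1 := by positivity
  have hJ' : (0 : ℝ) < (J' : ℝ) + 1 := by positivity
  have hn1 : ‖((J : ℂ) + 1)⁻¹‖ = ((J : ℝ) + 1)⁻¹ := by
    rw [norm_inv]
    congr 1
    have h1 : ((J : ℂ) + 1) = (((J : ℝ) + 1 : ℝ) : ℂ) := by push_cast; ring
    rw [h1, Complex.norm_real, Real.norm_of_nonneg hJ.le]
  have hn2 : ‖((J' : ℂ) + 1)⁻¹‖ = ((J' : ℝ) + 1)⁻¹ := by
    rw [norm_inv]
    congr 1
    have h1 : ((J' : ℂ) + 1) = (((J' : ℝ) + 1 : ℝ) : ℂ) := by push_cast; ring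
    rw [h1, Complex.norm_real, Real.norm_of_nonneg hJ'.le]
  have hle : ‖∑ j ∈ Finset.range (J + 1), ∑ j' ∈ Finset.range (J' + 1), φ j j'‖ ≤
      ∑ j ∈ Finset.range (J + 1), ∑ j' ∈ Finset.range (J' + 1), ‖φ j j'‖ :=
    (norm_sum_le _ _).trans (Finset.sum_le_sum fun j _ => norm_sum_le _ _)
  rw [norm_mul, norm_mul, hn1, hn2]
  have hBC : 0 ≤ B * C := mul_nonneg hB hC
  have hX0 : 0 ≤ ((J : ℝ) + 1)⁻¹ * (((J' : ℝ) + 1)⁻¹ *
      ‖∑ j ∈ Finset.range (J + 1), ∑ j' ∈ Finset.range (J' + 1), φ j j'‖) := by positivity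
  have ht0 : (0 : ℝ) ≤ 1 / ((J : ℝ) + 1) + 1 / ((J' : ℝ) + 1) := by positivity
  rw [← Real.sqrt_sq hX0, ← Real.sqrt_sq hBC, ← Real.sqrt_mul (sq_nonneg _)]
  apply Real.sqrt_le_sqrt
  have hS : ‖∑ j ∈ Finset.range (J + 1), ∑ j' ∈ Finset.range (J' + 1), φ j j'‖ ^ 2 ≤
      ((J + 1) * (J' + 1)) * ((J + J' + 1) * (B * C) ^ 2) := by
    refine (pow_le_pow_left₀ (norm_nonneg _) hle 2).trans (hcs.trans ?_)
    exact mul_le_mul_of_nonneg_left hsum (by positivity)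
  have hfin : (((J : ℝ) + 1)⁻¹ * (((J' : ℝ) + 1)⁻¹ *
      ‖∑ j ∈ Finset.range (J + 1), ∑ j' ∈ Finset.range (J' + 1), φ j j'‖)) ^ 2 =
      (((J : ℝ) + 1) * ((J' : ℝ) + 1))⁻¹ ^ 2 *
        ‖∑ j ∈ Finset.range (J + 1), ∑ j' ∈ Finset.range (J' + 1), φ j j'‖ ^ 2 := by
    rw [mul_inv]
    ring
  rw [hfin]
  have hpos : (0 : ℝ) < ((J : ℝ) + 1) * ((J' : ℝ) + 1) := by positivity
  calc (((J : ℝ) + 1) * ((J' : ℝ) + 1))⁻¹ ^ 2 *
        ‖∑ j ∈ Finset.range (J + 1), ∑ j' ∈ Finset.range (J' + 1), φ j j'‖ ^ 2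
      ≤ (((J : ℝ) + 1) * ((J' : ℝ) + 1))⁻¹ ^ 2 *
        (((J + 1) * (J' + 1)) * ((J + J' + 1) * (B * C) ^ 2)) :=
        mul_le_mul_of_nonneg_left hS (by positivity)
    _ = (B * C) ^ 2 * ((J + J' + 1) / (((J : ℝ) + 1) * ((J' : ℝ) + 1))) := by
        field_simp
    _ ≤ (B * C) ^ 2 * (1 / ((J : ℝ) + 1) + 1 / ((J' : ℝ) + 1)) := by
        apply mul_le_mul_of_nonneg_left _ (sq_nonneg _)
        rw [div_add_div _ _ hJ.ne' hJ'.ne', div_le_div_iff_of_pos_right hpos]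
        linarith

end

end Pool.H62.UC
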