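import Pool.Agent.H62.UC.JuncA
import Pool.Agent.H62.UC.Bess

/-!
# JUNC: the junction argument

Letters `i = ((n, n'), l)`, word `G w = ∏ v n * u l`.
For a junction `(L, (n, n'))` put `g = G L * v n`, `g' = G L * v n'` and
`q = YL (g*) - YL (g'*)`.  For a right word put `q_R = YR ((G R)*)`.

`junc`: `lim_J lim_J' (mL J ⊗ mR J') ⟪κ, q · Xh (g u_l g_R) · q_R⟫ = 0`.

Proof for a simple tensor `κ = ζ ⊗ ω`: use `block_bessel` with `m = mI F`, `X w = Xh (G w)` and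
`E L i R = if i.2 = l then tp (q* ζ) (ρ (q_R)* ω) else 0` (so
`⟪E L i R, X (L ++ i :: R)⟫ = ⟪κ, q · Xh (G L v u G R) · q_R⟫` for `i = (p, l)`, and the letter mean
extracts the factor `2^{-(l+1)}`: `mI_letter`).
Orthogonality: the left legs of `E L₁ i₁ _` and `E (L₁ ++ i₁ :: L₂) i₂ _` have inner product
`f n₂ - f n₂'` with `f n = ⟪q₁* ζ, YL ((G (L₁ ++ i₁ :: L₂) v n)*)* ζ⟫` bounded, the right legs are
bounded, and `mNN_diff` applies.  The bound `B C √(1/(J+1) + 1/(J'+1))` tends to `0` along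
`lim_J lim_J'`.  General `κ`: by density, everything is uniformly bounded.
-/

namespace Pool.H62.UC

open scoped InnerProductSpace TensorProduct ComplexConjugate
open Filter Topology

noncomputable section


variable {H : Type*} [NormedAddCommGroup H] [InnerProductSpace ℂ H] [CompleteSpace H]
variable {K : Type*} [NormedAddCommGroup K] [InnerProductSpace ℂ K] [CompleteSpace K]

abbrev JLet : Type := (ℕ × ℕ) × ℕ

theorem junc_gL_mem (S : Std H K) (u v : ℕ → H →L[ℂ] H) (hu : ∀ l, u l ∈ UM S)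
    (hv : ∀ n, v n ∈ UM S) (w : List JLet) (n : ℕ) : star (gword u v w * v n) ∈ UM S :=
  UM_star S (UM_mul S (gword_mem S u v hu hv w) (hv n))

theorem junc_qL (S : Std H K) (u v : ℕ → H →L[ℂ] H) (hu : ∀ l, u l ∈ UM S)
    (hv : ∀ n, v n ∈ UM S) (YL : (H →L[ℂ] H) → (H →L[ℂ] H))
    (hL : ∀ g ∈ UM S, YL g ∈ S.M ∧ ‖YL g‖ ≤ 5) (c : List JLet × (ℕ × ℕ)) :
    qL u v YL c ∈ S.M ∧ ‖qL u v YL c‖ ≤ 10 := by
  have h1 := hL _ (junc_gL_mem S u v hu hv c.1 c.2.1)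
  have h2 := hL _ (junc_gL_mem S u v hu hv c.1 c.2.2)
  refine ⟨sub_mem h1.1 h2.1, ?_⟩
  refine (norm_sub_le _ _).trans ?_
  have h3 : ‖YL (star (gL u v c))‖ ≤ 5 := h1.2
  have h4 : ‖YL (star (gL' u v c))‖ ≤ 5 := h2.2
  linarith

theorem junc_qR (S : Std H K) (u v : ℕ → H →L[ℂ] H) (hu : ∀ l, u l ∈ UM S)
    (hv : ∀ n, v n ∈ UM S) (YR : (H →L[ℂ] H) → (H →L[ℂ] H))
    (hR : ∀ g ∈ UM S, YR g ∈ S.M ∧ ‖YR g‖ ≤ 5) (w : List JLet) :
    qR u v YR w ∈ S.M ∧ ‖qR u v YR w‖ ≤ 5 :=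
  hR _ (UM_star S (gword_mem S u v hu hv w))

theorem junc_star_norm (A : H →L[ℂ] H) (x : H) (C : ℝ) (hA : ‖A‖ ≤ C) : ‖(star A) x‖ ≤ C * ‖x‖ := by
  refine ((star A).le_opNorm x).trans ?_
  rw [norm_star]
  exact mul_le_mul_of_nonneg_right hA (norm_nonneg _)

theorem junc_inner (T : Coarse H K) (a b : H →L[ℂ] H) (ζ ω : H) (y : K) :
    ⟪T.tp (star a ζ) (star b ω), y⟫_ℂ = ⟪T.tp ζ ω, T.L a (T.R b y)⟫_ℂ := by
  have h1 : T.tp (star a ζ) (star b ω) = star (T.R b) (star (T.L a) (T.tp ζ ω)) := by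
    rw [← map_star, ← map_star, T.L_tp, T.R_tp]
  rw [h1, ContinuousLinearMap.star_eq_adjoint, ContinuousLinearMap.star_eq_adjoint,
    ContinuousLinearMap.adjoint_inner_left, ContinuousLinearMap.adjoint_inner_left]

/-- the test vectors -/
def junc_E (S : Std H K) (u v : ℕ → H →L[ℂ] H) (YL YR : (H →L[ℂ] H) → (H →L[ℂ] H)) (l : ℕ)
    (ζ ω : H) (L : List JLet) (i : JLet) (R : List JLet) : K :=
  if i.2 = l then S.T.tp (star (qL u v YL (L, i.1)) ζ) (star (S.ρ (qR u v YR R)) ω) else 0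

/-- the function `n ↦ ⟪q₁* ζ, YL ((G w v n)*)* ζ⟫` -/
def junc_f (u v : ℕ → H →L[ℂ] H) (YL : (H →L[ℂ] H) → (H →L[ℂ] H))
    (ζ : H) (L₁ : List JLet) (i₁ : JLet) (L₂ : List JLet) (n : ℕ) : ℂ :=
  ⟪star (qL u v YL (L₁, i₁.1)) ζ, star (YL (star (gword u v (L₁ ++ i₁ :: L₂) * v n))) ζ⟫_ℂ

theorem junc_f_bdd (S : Std H K) (u v : ℕ → H →L[ℂ] H) (hu : ∀ l, u l ∈ UM S)
    (hv : ∀ n, v n ∈ UM S) (YL : (H →L[ℂ] H) → (H →L[ℂ] H))
    (hL : ∀ g ∈ UM S, YL g ∈ S.M ∧ ‖YL g‖ ≤ 5) (ζ : H) (L₁ : List JLet) (i₁ : JLet)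
    (L₂ : List JLet) (n : ℕ) : ‖junc_f u v YL ζ L₁ i₁ L₂ n‖ ≤ 50 * ‖ζ‖ ^ 2 := by
  unfold junc_f
  refine (norm_inner_le_norm _ _).trans ?_
  have h1 := junc_star_norm _ ζ 10 (junc_qL S u v hu hv YL hL (L₁, i₁.1)).2
  have h2 := junc_star_norm _ ζ 5 (hL _ (junc_gL_mem S u v hu hv (L₁ ++ i₁ :: L₂) n)).2
  refine (mul_le_mul h1 h2 (norm_nonneg _) (by positivity)).trans (le_of_eq ?_)
  ring

theorem junc_orth (S : Std H K) (u v : ℕ → H →L[ℂ] H) (hu : ∀ l, u l ∈ UM S)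
    (hv : ∀ n, v n ∈ UM S) (YL YR : (H →L[ℂ] H) → (H →L[ℂ] H))
    (hR : ∀ g ∈ UM S, YR g ∈ S.M ∧ ‖YR g‖ ≤ 5) (l : ℕ) (ζ ω : H)
    (L₁ : List JLet) (i₁ : JLet) (L₂ : List JLet) (i₂ : JLet) (L₃ : List JLet) :
    ‖⟪junc_E S u v YL YR l ζ ω L₁ i₁ (L₂ ++ i₂ :: L₃),
      junc_E S u v YL YR l ζ ω (L₁ ++ i₁ :: L₂) i₂ L₃⟫_ℂ‖ ≤
      (25 * ‖ω‖ ^ 2) * ‖junc_f u v YL ζ L₁ i₁ L₂ i₂.1.1 - junc_f u v YL ζ L₁ i₁ L₂ i₂.1.2‖ := by
  unfold junc_E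
  split_ifs with h1 h2
  · rw [S.T.inner_tp, norm_mul, mul_comm]
    refine mul_le_mul ?_ (le_of_eq ?_) (norm_nonneg _) (by positivity)
    · refine (norm_inner_le_norm _ _).trans ?_
      have h3 := junc_qR S u v hu hv YR hR (L₂ ++ i₂ :: L₃)
      have h4 := junc_qR S u v hu hv YR hR L₃
      have h5 := junc_star_norm _ ω 5 ((S.ρ_norm_le h3.1).trans h3.2)
      have h6 := junc_star_norm _ ω 5 ((S.ρ_norm_le h4.1).trans h4.2)
      refine (mul_le_mul h5 h6 (norm_nonneg _) (by positivity)).trans (le_of_eq ?_)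
      ring
    · have : (star (qL u v YL (L₁ ++ i₁ :: L₂, i₂.1))) ζ =
          star (YL (star (gword u v (L₁ ++ i₁ :: L₂) * v i₂.1.1))) ζ -
          star (YL (star (gword u v (L₁ ++ i₁ :: L₂) * v i₂.1.2))) ζ := by
        unfold qL
        rw [star_sub, sub_apply]
        rfl
      rw [this, inner_sub_right]
      rfl
  · rw [inner_zero_right, norm_zero]; positivity
  · rw [inner_zero_left, norm_zero]; positivity
  · rw [inner_zero_left, norm_zero]; positivity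

theorem junc_h0 (F : Ultrafilter ℕ) (f : ℕ → ℂ) (C c : ℝ) (hf : ∀ n, ‖f n‖ ≤ C) :
    (mI F).m (fun i => ((c * ‖f i.1.1 - f i.1.2‖ : ℝ) : ℂ)) = 0 := by
  have h1 : (mI F).m (fun i => ((c * ‖f i.1.1 - f i.1.2‖ : ℝ) : ℂ)) =
      (mNN F).m (fun p => Mean.wsum.m (fun _ => ((c * ‖f p.1 - f p.2‖ : ℝ) : ℂ))) := rfl
  rw [h1]
  simp only [Mean.const]
  have h2 : (fun p : ℕ × ℕ => ((c * ‖f p.1 - f p.2‖ : ℝ) : ℂ)) =
      fun p => (c : ℂ) * ((‖f p.1 - f p.2‖ : ℝ) : ℂ) := by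
    funext p; push_cast; rfl
  rw [h2, Mean.smul, mNN_diff F f ⟨C, hf⟩, mul_zero]
  refine ⟨2 * C, fun p => ?_⟩
  rw [Complex.norm_real, norm_norm]
  refine (norm_sub_le _ _).trans ?_
  linarith [hf p.1, hf p.2]

/-- the inner product to be estimated -/
def junc_phi (S : Std H K) (u v : ℕ → H →L[ℂ] H) (YL YR : (H →L[ℂ] H) → (H →L[ℂ] H))
    (Xh : (H →L[ℂ] H) → K) (l : ℕ) (κ : K) (c : List JLet × (ℕ × ℕ)) (R : List JLet) : ℂ :=
  ⟪κ, S.l (qL u v YL c) (S.r (qR u v YR R) (Xh (gL u v c * u l * gword u v R)))⟫_ℂ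

theorem junc_psi_bdd (S : Std H K) (u v : ℕ → H →L[ℂ] H) (hu : ∀ l, u l ∈ UM S)
    (hv : ∀ n, v n ∈ UM S) (YL YR : (H →L[ℂ] H) → (H →L[ℂ] H)) (Xh : (H →L[ℂ] H) → K) (C : ℝ)
    (hC : 0 ≤ C) (hL : ∀ g ∈ UM S, YL g ∈ S.M ∧ ‖YL g‖ ≤ 5)
    (hR : ∀ g ∈ UM S, YR g ∈ S.M ∧ ‖YR g‖ ≤ 5) (hX : ∀ g ∈ UM S, ‖Xh g‖ ≤ C) (l : ℕ)
    (c : List JLet × (ℕ × ℕ)) (R : List JLet) :
    ‖S.l (qL u v YL c) (S.r (qR u v YR R) (Xh (gL u v c * u l * gword u v R)))‖ ≤ 50 * C := by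
  have h1 := junc_qL S u v hu hv YL hL c
  have h2 := junc_qR S u v hu hv YR hR R
  have h3 : ‖Xh (gL u v c * u l * gword u v R)‖ ≤ C := by
    apply hX
    exact UM_mul S (UM_mul S (UM_mul S (gword_mem S u v hu hv _) (hv _)) (hu l))
      (gword_mem S u v hu hv _)
  have h4 : ‖S.r (qR u v YR R) (Xh (gL u v c * u l * gword u v R))‖ ≤ 5 * C := by
    refine ((S.r _).le_opNorm _).trans ?_
    exact mul_le_mul ((S.r_norm_le h2.1).trans h2.2) h3 (norm_nonneg _) (by norm_num)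
  refine ((S.l _).le_opNorm _).trans ?_
  refine (mul_le_mul ((S.l_norm_le _).trans h1.2) h4 (norm_nonneg _) (by norm_num)).trans
    (le_of_eq ?_)
  ring

theorem junc_E_inner (S : Std H K) (u v : ℕ → H →L[ℂ] H) (YL YR : (H →L[ℂ] H) → (H →L[ℂ] H))
    (Xh : (H →L[ℂ] H) → K) (l : ℕ) (ζ ω : H) (L : List JLet) (i : JLet) (R : List JLet) :
    ⟪junc_E S u v YL YR l ζ ω L i R, Xh (gword u v (L ++ i :: R))⟫_ℂ =
      if i.2 = l then junc_phi S u v YL YR Xh l (S.T.tp ζ ω) (L, i.1) R else 0 := by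
  unfold junc_E
  split_ifs with h
  · rw [junc_inner, gword_append, h]
    rfl
  · exact inner_zero_left _

/-- the block estimate -/
theorem junc_block (S : Std H K) (F : Ultrafilter ℕ)
    (u v : ℕ → H →L[ℂ] H) (hu : ∀ l, u l ∈ UM S) (hv : ∀ n, v n ∈ UM S)
    (YL YR : (H →L[ℂ] H) → (H →L[ℂ] H)) (Xh : (H →L[ℂ] H) → K) (C : ℝ) (hC : 0 ≤ C)
    (hL : ∀ g ∈ UM S, YL g ∈ S.M ∧ ‖YL g‖ ≤ 5) (hR : ∀ g ∈ UM S, YR g ∈ S.M ∧ ‖YR g‖ ≤ 5)
    (hX : ∀ g ∈ UM S, ‖Xh g‖ ≤ C) (l : ℕ) (ζ ω : H) (J J' : ℕ) :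
    ‖(mL F J).m (fun c => (mR F J').m (fun R =>
      junc_phi S u v YL YR Xh l (S.T.tp ζ ω) c R))‖ ≤
      2 ^ (l + 1) * ((50 * ‖ζ‖ * ‖ω‖) * C * Real.sqrt (1 / (J + 1) + 1 / (J' + 1))) := by
  have hphi : ∀ c R, ‖junc_phi S u v YL YR Xh l (S.T.tp ζ ω) c R‖ ≤ ‖S.T.tp ζ ω‖ * (50 * C) := by
    intro c R
    unfold junc_phi
    refine (norm_inner_le_norm _ _).trans ?_
    exact mul_le_mul_of_nonneg_left (junc_psi_bdd S u v hu hv YL YR Xh C hC hL hR hX l c R)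
      (norm_nonneg _)
  have hmR : ∀ c, ‖(mR F J').m (fun R => junc_phi S u v YL YR Xh l (S.T.tp ζ ω) c R)‖ ≤
      ‖S.T.tp ζ ω‖ * (50 * C) := fun c => Mean.norm_le _ _ _ (hphi c)
  have hmain := block_bessel (mI F) (junc_E S u v YL YR l ζ ω) (fun w => Xh (gword u v w))
    (50 * ‖ζ‖ * ‖ω‖) C (by positivity) hC
    (by
      intro L i R
      unfold junc_E
      split_ifs with h
      · rw [S.T.norm_tp]
        have h1 := junc_star_norm _ ζ 10 (junc_qL S u v hu hv YL hL (L, i.1)).2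
        have h3 := junc_qR S u v hu hv YR hR R
        have h5 := junc_star_norm _ ω 5 ((S.ρ_norm_le h3.1).trans h3.2)
        refine (mul_le_mul h1 h5 (norm_nonneg _) (by positivity)).trans (le_of_eq ?_)
        ring
      · rw [norm_zero]; positivity)
    (fun w => hX _ (gword_mem S u v hu hv w))
    (fun L₁ i₁ L₂ i₂ => (25 * ‖ω‖ ^ 2) *
      ‖junc_f u v YL ζ L₁ i₁ L₂ i₂.1.1 - junc_f u v YL ζ L₁ i₁ L₂ i₂.1.2‖)
    ⟨(25 * ‖ω‖ ^ 2) * (50 * ‖ζ‖ ^ 2 + 50 * ‖ζ‖ ^ 2), fun L₁ i₁ L₂ i₂ => ⟨by positivity, by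
      refine mul_le_mul_of_nonneg_left ?_ (by positivity)
      refine (norm_sub_le _ _).trans (add_le_add ?_ ?_)
      · exact junc_f_bdd S u v hu hv YL hL ζ L₁ i₁ L₂ _
      · exact junc_f_bdd S u v hu hv YL hL ζ L₁ i₁ L₂ _⟩⟩
    (fun L₁ i₁ L₂ i₂ L₃ => junc_orth S u v hu hv YL YR hR l ζ ω L₁ i₁ L₂ i₂ L₃)
    (fun L₁ i₁ L₂ => junc_h0 F (junc_f u v YL ζ L₁ i₁ L₂) (50 * ‖ζ‖ ^ 2) (25 * ‖ω‖ ^ 2)
      (junc_f_bdd S u v hu hv YL hL ζ L₁ i₁ L₂)) J J'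
  -- rewrite the letter mean
  have hlet : ∀ L : List JLet, (mI F).m (fun i => (Mean.avg J').m (fun j' => ((mI F).words j').m
      (fun R => ⟪junc_E S u v YL YR l ζ ω L i R, Xh (gword u v (L ++ i :: R))⟫_ℂ))) =
      (1 / 2 : ℂ) ^ (l + 1) * (mNN F).m (fun p => (mR F J').m (fun R =>
        junc_phi S u v YL YR Xh l (S.T.tp ζ ω) (L, p) R)) := by
    intro L
    have h1 : (fun i : JLet => (Mean.avg J').m (fun j' => ((mI F).words j').m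
        (fun R => ⟪junc_E S u v YL YR l ζ ω L i R, Xh (gword u v (L ++ i :: R))⟫_ℂ))) =
        fun i => if i.2 = l then (mR F J').m (fun R =>
          junc_phi S u v YL YR Xh l (S.T.tp ζ ω) (L, i.1) R) else 0 := by
      funext i
      simp only [junc_E_inner]
      split_ifs with h
      · rfl
      · simp only [Mean.const]
    rw [h1, mI_letter F l (fun i => (mR F J').m (fun R =>
          junc_phi S u v YL YR Xh l (S.T.tp ζ ω) (L, i.1) R)) ⟨_, fun i => hmR (L, i.1)⟩]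
  simp only [hlet] at hmain
  have hpull : (Mean.avg J).m (fun j => ((mI F).words j).m (fun L => (1 / 2 : ℂ) ^ (l + 1) *
      (mNN F).m (fun p => (mR F J').m (fun R =>
        junc_phi S u v YL YR Xh l (S.T.tp ζ ω) (L, p) R)))) =
      (1 / 2 : ℂ) ^ (l + 1) * (mL F J).m (fun c => (mR F J').m (fun R =>
        junc_phi S u v YL YR Xh l (S.T.tp ζ ω) c R)) := by
    have hb : ∀ L : List JLet, ‖(mNN F).m (fun p => (mR F J').m (fun R =>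
        junc_phi S u v YL YR Xh l (S.T.tp ζ ω) (L, p) R))‖ ≤ ‖S.T.tp ζ ω‖ * (50 * C) :=
      fun L => Mean.norm_le _ _ _ (fun p => hmR (L, p))
    have h2 : ∀ j, ((mI F).words j).m (fun L => (1 / 2 : ℂ) ^ (l + 1) *
        (mNN F).m (fun p => (mR F J').m (fun R =>
          junc_phi S u v YL YR Xh l (S.T.tp ζ ω) (L, p) R))) = (1 / 2 : ℂ) ^ (l + 1) *
        ((mI F).words j).m (fun L => (mNN F).m (fun p => (mR F J').m (fun R =>
          junc_phi S u v YL YR Xh l (S.T.tp ζ ω) (L, p) R))) := by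
      intro j
      rw [Mean.smul _ _ _ ⟨_, hb⟩]
    simp only [h2]
    rw [Mean.smul _ _ _ ⟨_, fun j => Mean.norm_le _ _ _ hb⟩]
    rfl
  rw [hpull, norm_mul, norm_pow] at hmain
  have h3 : ‖(1 / 2 : ℂ)‖ = 1 / 2 := by simp
  rw [h3] at hmain
  have h4 : (2 : ℝ) ^ (l + 1) * (1 / 2) ^ (l + 1) = 1 := by
    rw [← mul_pow]; norm_num
  calc _ = 2 ^ (l + 1) * ((1 / 2) ^ (l + 1) * ‖(mL F J).m (fun c => (mR F J').m (fun R =>
      junc_phi S u v YL YR Xh l (S.T.tp ζ ω) c R))‖) := by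
        rw [← mul_assoc, h4, one_mul]
    _ ≤ _ := mul_le_mul_of_nonneg_left hmain (by positivity)

theorem junc_ultra_le (F : Ultrafilter ℕ) (f : ℕ → ℂ) (hf : Bdd f) (g : ℕ → ℝ) (c : ℝ)
    (hg : Tendsto g F (𝓝 c)) (h : ∀ n, ‖f n‖ ≤ g n) : ‖(Mean.ultra F).m f‖ ≤ c :=
  le_of_tendsto_of_tendsto' (Mean.ultra_tendsto F f hf).norm hg h

theorem junc (S : Std H K) (F : Ultrafilter ℕ) (hF : (F : Filter ℕ) ≤ atTop)
    (u v : ℕ → H →L[ℂ] H) (hu : ∀ l, u l ∈ UM S) (hv : ∀ n, v n ∈ UM S)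
    (YL YR : (H →L[ℂ] H) → (H →L[ℂ] H)) (Xh : (H →L[ℂ] H) → K) (C : ℝ) (hC : 0 ≤ C)
    (hL : ∀ g ∈ UM S, YL g ∈ S.M ∧ ‖YL g‖ ≤ 5) (hR : ∀ g ∈ UM S, YR g ∈ S.M ∧ ‖YR g‖ ≤ 5)
    (hX : ∀ g ∈ UM S, ‖Xh g‖ ≤ C) (l : ℕ) (κ : K) :
    (mLR F).m (fun x => ⟪κ, S.l (qL u v YL x.1) (S.r (qR u v YR x.2)
      (Xh (gL u v x.1 * u l * gword u v x.2)))⟫_ℂ) = 0 := by
  have hbd : ∃ C' : ℝ, ∀ x : (List JLet × (ℕ × ℕ)) × List JLet,
      ‖S.l (qL u v YL x.1) (S.r (qR u v YR x.2) (Xh (gL u v x.1 * u l * gword u v x.2)))‖ ≤ C' :=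
    ⟨_, fun x => junc_psi_bdd S u v hu hv YL YR Xh C hC hL hR hX l x.1 x.2⟩
  -- simple tensors
  have htp : ∀ ζ ω : H, (mLR F).m (fun x => ⟪S.T.tp ζ ω, S.l (qL u v YL x.1) (S.r (qR u v YR x.2)
      (Xh (gL u v x.1 * u l * gword u v x.2)))⟫_ℂ) = 0 := by
    intro ζ ω
    have h1 : (mLR F).m (fun x => ⟪S.T.tp ζ ω, S.l (qL u v YL x.1) (S.r (qR u v YR x.2)
      (Xh (gL u v x.1 * u l * gword u v x.2)))⟫_ℂ) =
      (Mean.ultra F).m (fun J => (Mean.ultra F).m (fun J' => (mL F J).m (fun c =>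
        (mR F J').m (fun R => junc_phi S u v YL YR Xh l (S.T.tp ζ ω) c R)))) := rfl
    rw [h1]
    have hblk := junc_block S F u v hu hv YL YR Xh C hC hL hR hX l ζ ω
    set D : ℝ := 2 ^ (l + 1) * ((50 * ‖ζ‖ * ‖ω‖) * C) with hD
    have hD0 : 0 ≤ D := by positivity
    have hblk' : ∀ J J' : ℕ, ‖(mL F J).m (fun c => (mR F J').m (fun R =>
      junc_phi S u v YL YR Xh l (S.T.tp ζ ω) c R))‖ ≤ D * Real.sqrt (1 / (J + 1) + 1 / (J' + 1)) := by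
      intro J J'
      refine (hblk J J').trans (le_of_eq ?_)
      rw [hD]; ring
    have hbb : ∀ J J' : ℕ, D * Real.sqrt (1 / ((J : ℝ) + 1) + 1 / ((J' : ℝ) + 1)) ≤ D * 2 := by
      intro J J'
      refine mul_le_mul_of_nonneg_left ?_ hD0
      rw [Real.sqrt_le_left (by norm_num)]
      have h2 : 1 / ((J : ℝ) + 1) ≤ 1 := by
        rw [div_le_one (by positivity)]; linarith [Nat.cast_nonneg (α := ℝ) J]
      have h3 : 1 / ((J' : ℝ) + 1) ≤ 1 := by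
        rw [div_le_one (by positivity)]; linarith [Nat.cast_nonneg (α := ℝ) J']
      linarith
    have hz : Tendsto (fun n : ℕ => 1 / ((n : ℝ) + 1)) F (𝓝 0) :=
      tendsto_one_div_add_atTop_nhds_zero_nat.mono_left hF
    have hin : ∀ J : ℕ, ‖(Mean.ultra F).m (fun J' => (mL F J).m (fun c =>
        (mR F J').m (fun R => junc_phi S u v YL YR Xh l (S.T.tp ζ ω) c R)))‖ ≤
        D * Real.sqrt (1 / ((J : ℝ) + 1)) := by
      intro J
      refine junc_ultra_le F _ ⟨D * 2, fun J' => (hblk' J J').trans (hbb J J')⟩ _ _ ?_ (hblk' J)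
      have h2 : Tendsto (fun J' : ℕ => 1 / ((J : ℝ) + 1) + 1 / ((J' : ℝ) + 1)) F
          (𝓝 (1 / ((J : ℝ) + 1) + 0)) := tendsto_const_nhds.add hz
      rw [add_zero] at h2
      exact (h2.sqrt).const_mul D
    have hout : ‖(Mean.ultra F).m (fun J => (Mean.ultra F).m (fun J' => (mL F J).m (fun c =>
        (mR F J').m (fun R => junc_phi S u v YL YR Xh l (S.T.tp ζ ω) c R))))‖ ≤ 0 := by
      refine junc_ultra_le F _ ⟨D * 1, fun J => (hin J).trans ?_⟩ _ _ ?_ hin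
      · refine mul_le_mul_of_nonneg_left ?_ hD0
        rw [Real.sqrt_le_left (by norm_num)]
        rw [one_pow, div_le_one (by positivity)]; linarith [Nat.cast_nonneg (α := ℝ) J]
      · have h2 := (hz.sqrt).const_mul D
        rw [Real.sqrt_zero, mul_zero] at h2
        exact h2
    exact norm_le_zero_iff.1 hout
  rw [← Mean.inner_vec (mLR F) _ hbd κ]
  have hv0 : (mLR F).vec (fun x => S.l (qL u v YL x.1) (S.r (qR u v YR x.2)
      (Xh (gL u v x.1 * u l * gword u v x.2)))) = 0 := by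
    apply S.T.ext_inner
    intro a b
    rw [Mean.inner_vec (mLR F) _ hbd, htp, inner_zero_right]
  rw [hv0, inner_zero_right]

end

end Pool.H62.UC
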