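import Pool.Agent.H62.UC.StarA
import Pool.Agent.H62.UC.Junc
import Pool.Agent.H62.UC.ExtM

/-!
# STAR: the junction argument gives exact Leibniz elements

Notation: `c = (L, (n, n'))`, `g_c = gL u v c`, `q_c = qL u v YL c`, `dq_c = qL u v dYL c` (so
`(q_c, dq_c) ∈ Gr`), `g_R = gword u v R`, `q_R = qR u v YR R`, `dq_R = qR u v dYR R`.

`aL = mean (q_c g_c)`, `bL = mean (dq_c · g_c)`, `aR = mean (g_R q_R)`, `bR = mean (g_R · dq_R)`.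

`star_rel`: for every letter `u_l`: `(aL u_l aR, aL u_l · bR + bL · u_l aR) ∈ Gr`.

Proof.  Fix the scale `k` and let `Y = Ys k (g_c u_l g_R)`.  Leibniz:
`d (q_c Y q_R) = q_c Y · dq_R + q_c · dY · q_R + dq_c · Y q_R`.  By `junc` the mean of the middle
term vanishes (weakly).  The pairs `(q_c Y q_R Ω, d (q_c Y q_R))` are in the closed convex set
`{(x Ω, ξ) : (x, ξ) ∈ Gr, ‖x‖ ≤ 250}` and bounded, so their mean `(W_k Ω, ω_k)` under `mLR F` is in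
this set too (`Mean.vec_mem` in `WithLp 2 (H × K)`), where `ω_k` is the mean of
`q_c Y · dq_R + dq_c · Y q_R`.  As `k → ∞`, uniformly in `(c, R)`:
`‖(q_c Y q_R - q_c g_c u_l g_R q_R) Ω‖ ≤ 10 * 5 / (k+1)`, and for fixed `κ`:
`⟪κ, q_c (Y - g_c u_l g_R) · dq_R⟫ → 0`, `⟪κ, dq_c · (Y - g_c u_l g_R) q_R⟫ → 0` (move the small
bounded element to `κ`: `Std.l_small`, `Std.r_small`, after a star).  Hence
`W_k Ω → aL u_l aR Ω` and `ω_k → aL u_l · bR + bL · u_l aR` weakly (`mLR_op_vec`, `mLR_vec_op`), and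
`BClosed.ext_mem_weak` applies.
-/

namespace Pool.H62.UC

open scoped InnerProductSpace TensorProduct ComplexConjugate
open Filter Topology

noncomputable section


variable {H : Type*} [NormedAddCommGroup H] [InnerProductSpace ℂ H] [CompleteSpace H]
variable {K : Type*} [NormedAddCommGroup K] [InnerProductSpace ℂ K] [CompleteSpace K]

theorem star_bdd {I : Type*} {V : Type*} [NormedAddCommGroup V] [InnerProductSpace ℂ V]
    (κ : V) (f : I → V) (C : ℝ) (hf : ∀ i, ‖f i‖ ≤ C) : Bdd (fun i => ⟪κ, f i⟫_ℂ) :=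
  ⟨‖κ‖ * C, fun i => (norm_inner_le_norm _ _).trans
    (mul_le_mul_of_nonneg_left (hf i) (norm_nonneg _))⟩

/-- the set of pairs of the graph of bounded norm -/
def starSet (S : Std H K) (Gr : Submodule ℂ ((H →L[ℂ] H) × K)) (C : ℝ) :
    Set (WithLp 2 (H × K)) :=
  {z | ∃ p ∈ Gr, ‖p.1‖ ≤ C ∧ WithLp.ofLp z = (p.1 S.Ω, p.2)}

theorem starSet_closed (S : Std H K) (Gr : Submodule ℂ ((H →L[ℂ] H) × K)) (hG : BClosed S Gr)
    (C : ℝ) : IsClosed (starSet S Gr C) := by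
  have h := (hG.closed C).preimage (WithLp.prod_continuous_ofLp 2 H K)
  exact h

theorem starSet_convex (S : Std H K) (Gr : Submodule ℂ ((H →L[ℂ] H) × K)) (C : ℝ) :
    Convex ℝ (starSet S Gr C) := by
  intro z hz w hw a b ha hb hab
  obtain ⟨p, hp, hpC, hpz⟩ := hz
  obtain ⟨q, hq, hqC, hqw⟩ := hw
  refine ⟨(a : ℂ) • p + (b : ℂ) • q, Gr.add_mem (Gr.smul_mem _ hp) (Gr.smul_mem _ hq), ?_, ?_⟩
  · calc ‖((a : ℂ) • p + (b : ℂ) • q).1‖ = ‖(a : ℂ) • p.1 + (b : ℂ) • q.1‖ := by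
          rw [Prod.fst_add, Prod.smul_fst, Prod.smul_fst]
      _ ≤ ‖(a : ℂ) • p.1‖ + ‖(b : ℂ) • q.1‖ := norm_add_le _ _
      _ = a * ‖p.1‖ + b * ‖q.1‖ := by
          rw [norm_smul, norm_smul, Complex.norm_of_nonneg ha, Complex.norm_of_nonneg hb]
      _ ≤ a * C + b * C := add_le_add (mul_le_mul_of_nonneg_left hpC ha)
          (mul_le_mul_of_nonneg_left hqC hb)
      _ = C := by rw [← add_mul, hab, one_mul]
  · have h1 : a • z + b • w = (a : ℂ) • z + (b : ℂ) • w := rfl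
    rw [h1, WithLp.ofLp_add, WithLp.ofLp_smul, WithLp.ofLp_smul, hpz, hqw]
    simp only [Prod.fst_add, Prod.smul_fst, Prod.snd_add, Prod.smul_snd, Prod.smul_mk,
      Prod.mk_add_mk]
    rfl

theorem star_mean_mem {I : Type*} (hI : Nonempty I) (S : Std H K)
    (Gr : Submodule ℂ ((H →L[ℂ] H) × K)) (hG : BClosed S Gr) (m : Mean I)
    (x : I → H →L[ℂ] H) (ξ : I → K) (C D : ℝ) (hx : ∀ i, (x i, ξ i) ∈ Gr)
    (hC : ∀ i, ‖x i‖ ≤ C) (hD : ∀ i, ‖ξ i‖ ≤ D) :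
    ∃ p ∈ Gr, ‖p.1‖ ≤ C ∧ (∀ ζ : H, ⟪ζ, p.1 S.Ω⟫_ℂ = m.m (fun i => ⟪ζ, x i S.Ω⟫_ℂ)) ∧
      (∀ κ : K, ⟪κ, p.2⟫_ℂ = m.m (fun i => ⟪κ, ξ i⟫_ℂ)) := by
  have hΩ : ‖S.Ω‖ = 1 := S.tv.norm_one
  have hb1 : ∀ i, ‖x i S.Ω‖ ≤ C := fun i => by
    have := (x i).le_opNorm S.Ω
    rw [hΩ, mul_one] at this
    exact this.trans (hC i)
  let F : I → WithLp 2 (H × K) := fun i => WithLp.toLp 2 (x i S.Ω, ξ i)
  have hF : ∃ B : ℝ, ∀ i, ‖F i‖ ≤ B := by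
    refine ⟨Real.sqrt (C ^ 2 + D ^ 2), fun i => ?_⟩
    apply Real.le_sqrt_of_sq_le
    rw [WithLp.prod_norm_sq_eq_of_L2]
    have h1 : ‖(F i).fst‖ ≤ C := hb1 i
    have h2 : ‖(F i).snd‖ ≤ D := hD i
    exact add_le_add (pow_le_pow_left₀ (norm_nonneg _) h1 2)
      (pow_le_pow_left₀ (norm_nonneg _) h2 2)
  have hmem := Mean.vec_mem m F hF (starSet S Gr C) (starSet_closed S Gr hG C)
    (starSet_convex S Gr C) hI (fun i => ⟨(x i, ξ i), hx i, hC i, rfl⟩)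
  obtain ⟨p, hp, hpC, hpe⟩ := hmem
  refine ⟨p, hp, hpC, fun ζ => ?_, fun κ => ?_⟩
  · have h := Mean.inner_vec m F hF (WithLp.toLp 2 (ζ, (0 : K)))
    rw [WithLp.prod_inner_apply, hpe] at h
    simpa [F, WithLp.prod_inner_apply] using h
  · have h := Mean.inner_vec m F hF (WithLp.toLp 2 ((0 : H), κ))
    rw [WithLp.prod_inner_apply, hpe] at h
    simpa [F, WithLp.prod_inner_apply] using h


theorem star_tendsto {I : Type*} (m : Mean I) (f : ℕ → I → ℂ) (g : I → ℂ)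
    (hf : ∀ k, Bdd (f k)) (hg : Bdd g)
    (h : ∀ δ : ℝ, 0 < δ → ∃ N : ℕ, ∀ k, N ≤ k → ∀ i, ‖f k i - g i‖ ≤ δ) :
    Tendsto (fun k => m.m (f k)) atTop (𝓝 (m.m g)) := by
  rw [Metric.tendsto_atTop]
  intro ε hε
  obtain ⟨N, hN⟩ := h (ε / 2) (half_pos hε)
  refine ⟨N, fun k hk => ?_⟩
  rw [dist_eq_norm, ← Mean.sub m (f k) g (hf k) hg]
  exact lt_of_le_of_lt (Mean.norm_le m _ _ (hN k hk)) (half_lt_self hε)

theorem star_l_small (S : Std H K) (C D : ℝ) (hD : 0 ≤ D) (κ : K) (δ : ℝ) (hδ : 0 < δ) :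
    ∃ ε : ℝ, 0 < ε ∧ ∀ x ∈ S.M, ‖x‖ ≤ C → ‖x S.Ω‖ ≤ ε → ∀ ξ : K, ‖ξ‖ ≤ D →
      ‖⟪κ, S.l x ξ⟫_ℂ‖ ≤ δ := by
  have hD1 : 0 < D + 1 := by linarith
  obtain ⟨ε, hε, h⟩ := S.l_small C κ (div_pos hδ hD1)
  refine ⟨ε, hε, fun x hx hxC hxε ξ hξ => ?_⟩
  have h1 := h (star x) (star_mem hx) (by rw [norm_star]; exact hxC)
    (by rw [S.norm_star hx]; exact hxε)
  have h2 : ⟪κ, S.l x ξ⟫_ℂ = ⟪S.l (star x) κ, ξ⟫_ℂ := by
    rw [S.l_star, ContinuousLinearMap.star_eq_adjoint, ContinuousLinearMap.adjoint_inner_left]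
  rw [h2]
  calc ‖⟪S.l (star x) κ, ξ⟫_ℂ‖ ≤ ‖S.l (star x) κ‖ * ‖ξ‖ := norm_inner_le_norm _ _
    _ ≤ δ / (D + 1) * (D + 1) := mul_le_mul h1 (hξ.trans (by linarith)) (norm_nonneg _)
        (div_pos hδ hD1).le
    _ = δ := div_mul_cancel₀ _ hD1.ne'

theorem star_r_small (S : Std H K) (C D : ℝ) (hD : 0 ≤ D) (κ : K) (δ : ℝ) (hδ : 0 < δ) :
    ∃ ε : ℝ, 0 < ε ∧ ∀ x ∈ S.M, ‖x‖ ≤ C → ‖x S.Ω‖ ≤ ε → ∀ ξ : K, ‖ξ‖ ≤ D →
      ‖⟪κ, S.r x ξ⟫_ℂ‖ ≤ δ := by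
  have hD1 : 0 < D + 1 := by linarith
  obtain ⟨ε, hε, h⟩ := S.r_small C κ (div_pos hδ hD1)
  refine ⟨ε, hε, fun x hx hxC hxε ξ hξ => ?_⟩
  have h1 := h (star x) (star_mem hx) (by rw [norm_star]; exact hxC)
    (by rw [S.norm_star hx]; exact hxε)
  have h2 : ⟪κ, S.r x ξ⟫_ℂ = ⟪S.r (star x) κ, ξ⟫_ℂ := by
    rw [S.r_star hx, ContinuousLinearMap.star_eq_adjoint, ContinuousLinearMap.adjoint_inner_left]
  rw [h2]
  calc ‖⟪S.r (star x) κ, ξ⟫_ℂ‖ ≤ ‖S.r (star x) κ‖ * ‖ξ‖ := norm_inner_le_norm _ _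
    _ ≤ δ / (D + 1) * (D + 1) := mul_le_mul h1 (hξ.trans (by linarith)) (norm_nonneg _)
        (div_pos hδ hD1).le
    _ = δ := div_mul_cancel₀ _ hD1.ne'

theorem star_mul_norm {A B : H →L[ℂ] H} {a b : ℝ} (hA : ‖A‖ ≤ a) (hB : ‖B‖ ≤ b) :
    ‖A * B‖ ≤ a * b :=
  (norm_mul_le A B).trans (mul_le_mul hA hB (norm_nonneg _) ((norm_nonneg _).trans hA))

theorem star_apply_norm {V W : Type*} [NormedAddCommGroup V] [InnerProductSpace ℂ V]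
    [NormedAddCommGroup W] [InnerProductSpace ℂ W] {A : V →L[ℂ] W} {ξ : V} {a b : ℝ}
    (hA : ‖A‖ ≤ a) (hξ : ‖ξ‖ ≤ b) : ‖A ξ‖ ≤ a * b :=
  (A.le_opNorm ξ).trans (mul_le_mul hA hξ (norm_nonneg _) ((norm_nonneg _).trans hA))

theorem star_gL (S : Std H K) (u v : ℕ → H →L[ℂ] H) (hu : ∀ l, u l ∈ UM S)
    (hv : ∀ n, v n ∈ UM S) (c : List ((ℕ × ℕ) × ℕ) × (ℕ × ℕ)) : gL u v c ∈ UM S :=
  UM_mul S (gword_mem S u v hu hv c.1) (hv _)

theorem star_gL' (S : Std H K) (u v : ℕ → H →L[ℂ] H) (hu : ∀ l, u l ∈ UM S)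
    (hv : ∀ n, v n ∈ UM S) (c : List ((ℕ × ℕ) × ℕ) × (ℕ × ℕ)) : gL' u v c ∈ UM S :=
  UM_mul S (gword_mem S u v hu hv c.1) (hv _)

theorem star_scale (ε : ℝ) (hε : 0 < ε) : ∃ N : ℕ, ∀ k : ℕ, N ≤ k → 1 / ((k : ℝ) + 1) ≤ ε := by
  obtain ⟨N, hN⟩ := exists_nat_one_div_lt hε
  refine ⟨N, fun k hk => ?_⟩
  refine le_trans ?_ hN.le
  have h1 : (0 : ℝ) < (N : ℝ) + 1 := by positivity
  have h2 : (N : ℝ) ≤ (k : ℝ) := by exact_mod_cast hk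
  exact one_div_le_one_div_of_le h1 (by linarith)

theorem star_mul_apply {V : Type*} [NormedAddCommGroup V] [InnerProductSpace ℂ V]
    (A B : V →L[ℂ] V) (ξ : V) : (A * B) ξ = A (B ξ) := rfl

theorem star_sub_apply {V : Type*} [NormedAddCommGroup V] [InnerProductSpace ℂ V]
    (A B : V →L[ℂ] V) (ξ : V) : (A - B) ξ = A ξ - B ξ := rfl

theorem star_rel (S : Std H K) (Gr : Submodule ℂ ((H →L[ℂ] H) × K)) (hG : BClosed S Gr)
    (F : Ultrafilter ℕ) (hF : (F : Filter ℕ) ≤ atTop)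
    (u v : ℕ → H →L[ℂ] H) (hu : ∀ l, u l ∈ UM S) (hv : ∀ n, v n ∈ UM S)
    (YL YR : (H →L[ℂ] H) → (H →L[ℂ] H)) (dYL dYR : (H →L[ℂ] H) → K) (CL CR εL εR : ℝ)
    (hL : Sel S Gr YL dYL CL εL) (hR : Sel S Gr YR dYR CR εR)
    (Ys : ℕ → (H →L[ℂ] H) → (H →L[ℂ] H)) (dYs : ℕ → (H →L[ℂ] H) → K) (Cs : ℕ → ℝ)
    (hs : ∀ k : ℕ, Sel S Gr (Ys k) (dYs k) (Cs k) (1 / (k + 1))) (l : ℕ) :
    (aL F u v YL * u l * aR F u v YR,
      S.l (aL F u v YL * u l) (bR S F u v dYR) + S.r (u l * aR F u v YR) (bL S F u v dYL)) ∈ Gr := by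
  -- elements
  set q : List ((ℕ × ℕ) × ℕ) × (ℕ × ℕ) → H →L[ℂ] H := fun c => qL u v YL c with hq
  set dq : List ((ℕ × ℕ) × ℕ) × (ℕ × ℕ) → K := fun c => qL u v dYL c with hdq
  set g : List ((ℕ × ℕ) × ℕ) × (ℕ × ℕ) → H →L[ℂ] H := fun c => gL u v c with hg
  set p : List ((ℕ × ℕ) × ℕ) → H →L[ℂ] H := fun R => qR u v YR R with hp
  set dp : List ((ℕ × ℕ) × ℕ) → K := fun R => qR u v dYR R with hdp
  set r : List ((ℕ × ℕ) × ℕ) → H →L[ℂ] H := fun R => gword u v R with hr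
  have hCL : 0 ≤ CL := hL.nonneg
  have hCR : 0 ≤ CR := hR.nonneg
  have hgU : ∀ c, g c ∈ UM S := star_gL S u v hu hv
  have hgU' : ∀ c, gL' u v c ∈ UM S := star_gL' S u v hu hv
  have hrU : ∀ R, r R ∈ UM S := gword_mem S u v hu hv
  have hGU : ∀ c R, g c * u l * r R ∈ UM S := fun c R =>
    UM_mul S (UM_mul S (hgU c) (hu l)) (hrU R)
  have hqG : ∀ c, (q c, dq c) ∈ Gr := fun c =>
    Gr.sub_mem (hL.mem _ (UM_star S (hgU c))) (hL.mem _ (UM_star S (hgU' c)))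
  have hpG : ∀ R, (p R, dp R) ∈ Gr := fun R => hR.mem _ (UM_star S (hrU R))
  have hqM : ∀ c, q c ∈ S.M := fun c => hG.mem _ (hqG c)
  have hpM : ∀ R, p R ∈ S.M := fun R => hG.mem _ (hpG R)
  have hgM : ∀ c, g c ∈ S.M := fun c => (hgU c).1
  have hrM : ∀ R, r R ∈ S.M := fun R => (hrU R).1
  have huM : u l ∈ S.M := (hu l).1
  have hqn : ∀ c, ‖q c‖ ≤ 10 := fun c => by
    refine (norm_sub_le _ _).trans ?_
    have h1 := hL.norm _ (UM_star S (hgU c))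
    have h2 := hL.norm _ (UM_star S (hgU' c))
    linarith
  have hdqn : ∀ c, ‖dq c‖ ≤ 2 * CL := fun c => by
    refine (norm_sub_le _ _).trans ?_
    have h1 := hL.dnorm _ (UM_star S (hgU c))
    have h2 := hL.dnorm _ (UM_star S (hgU' c))
    linarith
  have hpn : ∀ R, ‖p R‖ ≤ 5 := fun R => hR.norm _ (UM_star S (hrU R))
  have hdpn : ∀ R, ‖dp R‖ ≤ CR := fun R => hR.dnorm _ (UM_star S (hrU R))
  have hgn : ∀ c, ‖g c‖ ≤ 1 := fun c => UM_norm S (hgU c)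
  have hrn : ∀ R, ‖r R‖ ≤ 1 := fun R => UM_norm S (hrU R)
  have hun : ‖u l‖ ≤ 1 := UM_norm S (hu l)
  have hΩ : ‖S.Ω‖ ≤ 1 := S.tv.norm_one.le
  -- the scale `k`
  set Y : ℕ → (List ((ℕ × ℕ) × ℕ) × (ℕ × ℕ)) × List ((ℕ × ℕ) × ℕ) → H →L[ℂ] H :=
    fun k x => Ys k (g x.1 * u l * r x.2) with hY
  set dY : ℕ → (List ((ℕ × ℕ) × ℕ) × (ℕ × ℕ)) × List ((ℕ × ℕ) × ℕ) → K :=
    fun k x => dYs k (g x.1 * u l * r x.2) with hdY
  have hYG : ∀ k x, (Y k x, dY k x) ∈ Gr := fun k x => (hs k).mem _ (hGU _ _)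
  have hYM : ∀ k x, Y k x ∈ S.M := fun k x => hG.mem _ (hYG k x)
  have hYn : ∀ k x, ‖Y k x‖ ≤ 5 := fun k x => (hs k).norm _ (hGU _ _)
  have hdYn : ∀ k x, ‖dY k x‖ ≤ Cs k := fun k x => (hs k).dnorm _ (hGU _ _)
  have hYc : ∀ k x, ‖(Y k x - g x.1 * u l * r x.2) S.Ω‖ ≤ 1 / ((k : ℝ) + 1) := fun k x =>
    (hs k).close _ (hGU _ _)
  have hdiffM : ∀ k x, Y k x - g x.1 * u l * r x.2 ∈ S.M := fun k x =>
    sub_mem (hYM k x) (hGU _ _).1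
  have hdiffn : ∀ k x, ‖Y k x - g x.1 * u l * r x.2‖ ≤ 6 := fun k x => by
    refine (norm_sub_le _ _).trans ?_
    have h1 := hYn k x
    have h2 := UM_norm S (hGU x.1 x.2)
    linarith
  -- Leibniz
  have hleib : ∀ k x, ((q x.1 * Y k x) * p x.2,
      S.l (q x.1 * Y k x) (dp x.2) +
        S.r (p x.2) (S.l (q x.1) (dY k x) + S.r (Y k x) (dq x.1))) ∈ Gr := fun k x =>
    hG.leib _ (hG.leib _ (hqG x.1) _ (hYG k x)) _ (hpG x.2)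
  have hn1 : ∀ k x, ‖(q x.1 * Y k x) * p x.2‖ ≤ 250 := fun k x => by
    have := star_mul_norm (star_mul_norm (hqn x.1) (hYn k x)) (hpn x.2)
    linarith
  have hlqY : ∀ k x, ‖S.l (q x.1 * Y k x)‖ ≤ 10 * 5 := fun k x =>
    (S.l_norm_le _).trans (star_mul_norm (hqn x.1) (hYn k x))
  have hn2 : ∀ k x, ‖S.l (q x.1 * Y k x) (dp x.2)‖ ≤ 10 * 5 * CR := fun k x =>
    star_apply_norm (hlqY k x) (hdpn _)
  have hn3 : ∀ k x, ‖S.r (p x.2) (S.l (q x.1) (dY k x))‖ ≤ 5 * (10 * Cs k) := fun k x =>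
    star_apply_norm ((S.r_norm_le (hpM _)).trans (hpn _))
      (star_apply_norm ((S.l_norm_le _).trans (hqn _)) (hdYn k x))
  have hn4 : ∀ k x, ‖S.r (p x.2) (S.r (Y k x) (dq x.1))‖ ≤ 5 * (5 * (2 * CL)) := fun k x =>
    star_apply_norm ((S.r_norm_le (hpM _)).trans (hpn _))
      (star_apply_norm ((S.r_norm_le (hYM k x)).trans (hYn k x)) (hdqn _))
  have hn5 : ∀ k x, ‖S.l (q x.1 * Y k x) (dp x.2) +
        S.r (p x.2) (S.l (q x.1) (dY k x) + S.r (Y k x) (dq x.1))‖ ≤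
        10 * 5 * CR + (5 * (10 * Cs k) + 5 * (5 * (2 * CL))) := fun k x => by
    rw [map_add]
    exact (norm_add_le _ _).trans (add_le_add (hn2 k x)
      ((norm_add_le _ _).trans (add_le_add (hn3 k x) (hn4 k x))))
  -- means
  have hmean := fun k => star_mean_mem ⟨(([], (0, 0)), [])⟩ S Gr hG (mLR F)
    (fun x => (q x.1 * Y k x) * p x.2)
    (fun x => S.l (q x.1 * Y k x) (dp x.2) +
        S.r (p x.2) (S.l (q x.1) (dY k x) + S.r (Y k x) (dq x.1))) 250 _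
    (hleib k) (hn1 k) (hn5 k)
  choose w hwG hwn hw1 hw2 using hmean
  -- the limits
  have hTu : ∃ C : ℝ, ∀ c, ‖q c * g c‖ ≤ C := ⟨10 * 1, fun c => star_mul_norm (hqn c) (hgn c)⟩
  have hTr : ∃ C : ℝ, ∀ R, ‖r R * p R‖ ≤ C := ⟨1 * 5, fun R => star_mul_norm (hrn R) (hpn R)⟩
  have haL : (mLω F).op (fun c => q c * g c * u l) = aL F u v YL * u l :=
    Mean.op_mul_right _ _ hTu _
  have haR : (mRω F).op (fun R => u l * (r R * p R)) = u l * aR F u v YR :=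
    Mean.op_mul_left _ _ hTr _
  have haLM : aL F u v YL ∈ S.M := Mean.op_mem _ _ hTu _ (fun c => mul_mem (hqM c) (hgM c))
  have haRM : aR F u v YR ∈ S.M := Mean.op_mem _ _ hTr _ (fun R => mul_mem (hrM R) (hpM R))
  have hTu' : ∃ C : ℝ, ∀ c, ‖q c * g c * u l‖ ≤ C :=
    ⟨10 * 1 * 1, fun c => star_mul_norm (star_mul_norm (hqn c) (hgn c)) hun⟩
  have hTr' : ∃ C : ℝ, ∀ R, ‖u l * (r R * p R)‖ ≤ C :=
    ⟨1 * (1 * 5), fun R => star_mul_norm hun (star_mul_norm (hrn R) (hpn R))⟩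
  have hTuM : ∀ c, q c * g c * u l ∈ S.M := fun c => mul_mem (mul_mem (hqM c) (hgM c)) huM
  have hTrM : ∀ R, u l * (r R * p R) ∈ S.M := fun R => mul_mem huM (mul_mem (hrM R) (hpM R))
  refine (hG.ext_mem_weak (fun k => (w k).1) (fun k => (w k).2) _ _ 250 hwG hwn
    (mul_mem (mul_mem haLM huM) haRM) ?_ ?_).1
  · intro ζ
    have hb : ∃ C : ℝ, ∀ R, ‖(r R * p R) S.Ω‖ ≤ C :=
      ⟨1 * 5 * 1, fun R => star_apply_norm (star_mul_norm (hrn R) (hpn R)) hΩ⟩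
    have ht : ⟪ζ, (aL F u v YL * u l * aR F u v YR) S.Ω⟫_ℂ =
        (mLR F).m (fun x => ⟪ζ, (q x.1 * g x.1 * u l) ((r x.2 * p x.2) S.Ω)⟫_ℂ) := by
      rw [mLR_op_vec F (fun c => q c * g c * u l) (fun R => (r R * p R) S.Ω) hTu' hb ζ, haL,
        ← Mean.op_apply _ _ hTr]
      rfl
    rw [ht]
    simp only [hw1]
    refine star_tendsto _ _ _ (fun k => ?_) ?_ ?_
    · exact star_bdd ζ _ (250 * 1) (fun x => star_apply_norm (hn1 k x) hΩ)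
    · exact star_bdd ζ _ (10 * 1 * 1 * (1 * 5 * 1)) (fun x => star_apply_norm
        (star_mul_norm (star_mul_norm (hqn _) (hgn _)) hun)
        (star_apply_norm (star_mul_norm (hrn _) (hpn _)) hΩ))
    · intro δ hδ
      have h50 : 0 < δ / (50 * (‖ζ‖ + 1)) := by positivity
      obtain ⟨N, hN⟩ := star_scale _ h50
      refine ⟨N, fun k hk x => ?_⟩
      have he : ⟪ζ, ((q x.1 * Y k x) * p x.2) S.Ω⟫_ℂ -
          ⟪ζ, (q x.1 * g x.1 * u l) ((r x.2 * p x.2) S.Ω)⟫_ℂ =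
          ⟪ζ, (q x.1) (((Y k x - g x.1 * u l * r x.2) * p x.2) S.Ω)⟫_ℂ := by
        rw [← inner_sub_right]
        congr 1
        simp only [star_mul_apply, star_sub_apply, map_sub]
      rw [he]
      have h1 : ‖(q x.1) (((Y k x - g x.1 * u l * r x.2) * p x.2) S.Ω)‖ ≤
          10 * (δ / (50 * (‖ζ‖ + 1)) * 5) :=
        star_apply_norm (hqn _) ((S.norm_mul_right (hdiffM k x) (hpM _)).trans
          (mul_le_mul ((hYc k x).trans (hN k hk)) (hpn _) (norm_nonneg _) h50.le))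
      calc _ ≤ ‖ζ‖ * ‖(q x.1) (((Y k x - g x.1 * u l * r x.2) * p x.2) S.Ω)‖ :=
            norm_inner_le_norm _ _
        _ ≤ (‖ζ‖ + 1) * (10 * (δ / (50 * (‖ζ‖ + 1)) * 5)) :=
            mul_le_mul (by linarith) h1 (norm_nonneg _) (by positivity)
        _ = δ := by field_simp; norm_num
  · intro κ
    have hbR : ∃ C : ℝ, ∀ R, ‖S.l (r R) (dp R)‖ ≤ C :=
      ⟨1 * CR, fun R => star_apply_norm ((S.l_norm_le _).trans (hrn R)) (hdpn R)⟩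
    have hbL : ∃ C : ℝ, ∀ c, ‖S.r (g c) (dq c)‖ ≤ C :=
      ⟨1 * (2 * CL), fun c => star_apply_norm ((S.r_norm_le (hgM c)).trans (hgn c)) (hdqn c)⟩
    have hlT : ∀ c, ‖S.l (q c * g c * u l)‖ ≤ 10 * 1 * 1 := fun c =>
      (S.l_norm_le _).trans (star_mul_norm (star_mul_norm (hqn c) (hgn c)) hun)
    have hrT : ∀ R, ‖S.r (u l * (r R * p R))‖ ≤ 1 * (1 * 5) := fun R =>
      (S.r_norm_le (hTrM R)).trans (star_mul_norm hun (star_mul_norm (hrn R) (hpn R)))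
    have ht1 : (mLR F).m (fun x => ⟪κ, S.l (q x.1 * g x.1 * u l) (S.l (r x.2) (dp x.2))⟫_ℂ) =
        ⟪κ, S.l (aL F u v YL * u l) (bR S F u v dYR)⟫_ℂ := by
      rw [mLR_op_vec F (fun c => S.l (q c * g c * u l)) (fun R => S.l (r R) (dp R)) ⟨_, hlT⟩ hbR κ,
        ← l_op S _ _ hTu', haL]
      rfl
    have ht2 : (mLR F).m (fun x => ⟪κ, S.r (u l * (r x.2 * p x.2)) (S.r (g x.1) (dq x.1))⟫_ℂ) =
        ⟪κ, S.r (u l * aR F u v YR) (bL S F u v dYL)⟫_ℂ := by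
      rw [mLR_vec_op F (fun c => S.r (g c) (dq c)) (fun R => S.r (u l * (r R * p R))) ⟨_, hrT⟩
        hbL κ, ← r_op S _ _ hTrM hTr', haR]
      rfl
    have hbd1 : Bdd (fun x : (List ((ℕ × ℕ) × ℕ) × (ℕ × ℕ)) × List ((ℕ × ℕ) × ℕ) =>
        ⟪κ, S.l (q x.1 * g x.1 * u l) (S.l (r x.2) (dp x.2))⟫_ℂ) := by
      obtain ⟨C, hC⟩ := hbR
      exact star_bdd κ _ _ (fun x => star_apply_norm (hlT x.1) (hC x.2))
    have hbd2 : Bdd (fun x : (List ((ℕ × ℕ) × ℕ) × (ℕ × ℕ)) × List ((ℕ × ℕ) × ℕ) =>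
        ⟪κ, S.r (u l * (r x.2 * p x.2)) (S.r (g x.1) (dq x.1))⟫_ℂ) := by
      obtain ⟨C, hC⟩ := hbL
      exact star_bdd κ _ _ (fun x => star_apply_norm (hrT x.2) (hC x.1))
    have hbk1 : ∀ k, Bdd (fun x => ⟪κ, S.l (q x.1 * Y k x) (dp x.2)⟫_ℂ) := fun k =>
      star_bdd κ _ _ (hn2 k)
    have hbk2 : ∀ k, Bdd (fun x => ⟪κ, S.r (p x.2) (S.r (Y k x) (dq x.1))⟫_ℂ) := fun k =>
      star_bdd κ _ _ (hn4 k)
    have hbk3 : ∀ k, Bdd (fun x => ⟪κ, S.r (p x.2) (S.l (q x.1) (dY k x))⟫_ℂ) := fun k =>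
      star_bdd κ _ _ (hn3 k)
    have hj : ∀ k, (mLR F).m (fun x => ⟪κ, S.r (p x.2) (S.l (q x.1) (dY k x))⟫_ℂ) = 0 := by
      intro k
      have h := junc S F hF u v hu hv YL YR (dYs k) (Cs k) (hs k).nonneg
        (fun g hg => ⟨hG.mem _ (hL.mem g hg), hL.norm g hg⟩)
        (fun g hg => ⟨hG.mem _ (hR.mem g hg), hR.norm g hg⟩) (fun g hg => (hs k).dnorm g hg) l κ
      simp only [S.lr_comm] at h
      exact h
    have hk : ∀ k, ⟪κ, (w k).2⟫_ℂ =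
        (mLR F).m (fun x => ⟪κ, S.l (q x.1 * Y k x) (dp x.2)⟫_ℂ) +
        (mLR F).m (fun x => ⟪κ, S.r (p x.2) (S.r (Y k x) (dq x.1))⟫_ℂ) := by
      intro k
      rw [hw2 k κ]
      have e1 : (fun x : (List ((ℕ × ℕ) × ℕ) × (ℕ × ℕ)) × List ((ℕ × ℕ) × ℕ) =>
          ⟪κ, S.l (q x.1 * Y k x) (dp x.2) +
            S.r (p x.2) (S.l (q x.1) (dY k x) + S.r (Y k x) (dq x.1))⟫_ℂ) =
          fun x => (⟪κ, S.l (q x.1 * Y k x) (dp x.2)⟫_ℂ +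
            ⟪κ, S.r (p x.2) (S.r (Y k x) (dq x.1))⟫_ℂ) +
            ⟪κ, S.r (p x.2) (S.l (q x.1) (dY k x))⟫_ℂ := by
        funext x
        rw [map_add, inner_add_right, inner_add_right]
        ring
      rw [e1, Mean.add _ _ _ ?_ (hbk3 k), hj k, add_zero, Mean.add _ _ _ (hbk1 k) (hbk2 k)]
      obtain ⟨C1, h1⟩ := hbk1 k
      obtain ⟨C2, h2⟩ := hbk2 k
      exact ⟨C1 + C2, fun x => (norm_add_le _ _).trans (add_le_add (h1 x) (h2 x))⟩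
    simp only [hk]
    rw [inner_add_right, ← ht1, ← ht2]
    refine Tendsto.add ?_ ?_
    · refine star_tendsto _ _ _ hbk1 hbd1 ?_
      intro δ hδ
      obtain ⟨ε, hε, hsm⟩ := star_l_small S (10 * 6) CR hCR κ δ hδ
      obtain ⟨N, hN⟩ := star_scale (ε / 10) (by positivity)
      refine ⟨N, fun k hk x => ?_⟩
      have he : ⟪κ, S.l (q x.1 * Y k x) (dp x.2)⟫_ℂ -
          ⟪κ, S.l (q x.1 * g x.1 * u l) (S.l (r x.2) (dp x.2))⟫_ℂ =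
          ⟪κ, S.l (q x.1 * (Y k x - g x.1 * u l * r x.2)) (dp x.2)⟫_ℂ := by
        rw [← inner_sub_right]
        congr 1
        simp only [S.l_mul, S.l_sub, star_mul_apply, star_sub_apply,
          map_sub]
      rw [he]
      refine hsm _ (mul_mem (hqM _) (hdiffM k x)) (star_mul_norm (hqn _) (hdiffn k x)) ?_ _
        (hdpn _)
      calc _ ≤ ‖q x.1‖ * ‖(Y k x - g x.1 * u l * r x.2) S.Ω‖ := S.norm_mul_left _ _
        _ ≤ 10 * (ε / 10) := mul_le_mul (hqn _) ((hYc k x).trans (hN k hk)) (norm_nonneg _)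
            (by norm_num)
        _ = ε := by ring
    · refine star_tendsto _ _ _ hbk2 hbd2 ?_
      intro δ hδ
      obtain ⟨ε, hε, hsm⟩ := star_r_small S (6 * 5) (2 * CL) (by positivity) κ δ hδ
      obtain ⟨N, hN⟩ := star_scale (ε / 5) (by positivity)
      refine ⟨N, fun k hk x => ?_⟩
      have he : ⟪κ, S.r (p x.2) (S.r (Y k x) (dq x.1))⟫_ℂ -
          ⟪κ, S.r (u l * (r x.2 * p x.2)) (S.r (g x.1) (dq x.1))⟫_ℂ =
          ⟪κ, S.r ((Y k x - g x.1 * u l * r x.2) * p x.2) (dq x.1)⟫_ℂ := by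
        rw [← inner_sub_right]
        congr 1
        rw [S.r_mul (hdiffM k x) (hpM _), S.r_sub (hYM k x) (hGU _ _).1,
          S.r_mul huM (mul_mem (hrM _) (hpM _)), S.r_mul (hrM _) (hpM _),
          S.r_mul (mul_mem (hgM _) huM) (hrM _), S.r_mul (hgM _) huM]
        simp only [star_mul_apply, star_sub_apply, map_sub]
      rw [he]
      refine hsm _ (mul_mem (hdiffM k x) (hpM _)) (star_mul_norm (hdiffn k x) (hpn _)) ?_ _
        (hdqn _)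
      calc _ ≤ ‖(Y k x - g x.1 * u l * r x.2) S.Ω‖ * ‖p x.2‖ :=
            S.norm_mul_right (hdiffM k x) (hpM _)
        _ ≤ ε / 5 * 5 := mul_le_mul ((hYc k x).trans (hN k hk)) (hpn _) (norm_nonneg _)
            (by positivity)
        _ = ε := by ring

end

end Pool.H62.UC
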