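import Pool.Agent.H62.UC.ExpD
import Pool.Agent.H62.UC.ExpL
import Pool.Agent.H62.UC.Star

/-!
# LOC: locality of boundedly closed derivations

Let `z` be a central projection of `M`, `(x, ξ) ∈ Gr`, `x` self-adjoint, `x z = 0`.  By `exp_mem`
there is `δ_θ` with `(uexp θ x, δ_θ) ∈ Gr`, `‖δ_θ‖ ≤ |θ| ‖ξ‖`; and `l z (r z δ_θ) = i θ l z (r z ξ)`:
this holds because `(∑_{k<N} (iθ)^k x^k / k!, ∑ (iθ)^k/k! ∑_{j} l x^j r x^{k-1-j} ξ) ∈ Gr`, all terms
with `k ≥ 2` are killed by `l z r z` (`x z = 0 = z x`), and the series converges in norm to an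
element of `Gr` over `uexp θ x` (single valued).  So `η_n = δ_n / n` is bounded with
`((uexp n x - 1)/n, η_n) ∈ Gr`, and `(uexp n x - 1)/n → 0` in norm.  Take an ultrafilter limit `η`
(weak) of `η_n`: by bounded closedness (closed convex sets are weakly closed) `(0, η) ∈ Gr`, `η = 0`.
But `l z (r z η_n) = i l z (r z ξ)` for all `n`.  Alternative to ultrafilters: for every `κ` some
subsequence..., or Banach-Saks: the closed convex hull of `{η_n : n ≥ N}` contains the weak limit.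
-/

namespace Pool.H62.UC

open scoped InnerProductSpace TensorProduct ComplexConjugate
open Filter Topology

noncomputable section

variable {H : Type*} [NormedAddCommGroup H] [InnerProductSpace ℂ H] [CompleteSpace H]
variable {K : Type*} [NormedAddCommGroup K] [InnerProductSpace ℂ K] [CompleteSpace K]

theorem loc_series {S : Std H K} {Gr : Submodule ℂ ((H →L[ℂ] H) × K)} (hG : BClosed S Gr)
    (h1 : ((1 : H →L[ℂ] H), (0 : K)) ∈ Gr) (x : H →L[ℂ] H) (ξ : K) (hx : (x, ξ) ∈ Gr) (θ : ℝ) :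
    Summable (fun k : ℕ => ((Complex.I * (θ : ℂ)) ^ k / (k.factorial : ℂ)) • expd_D S x ξ k) ∧
    (uexp θ x, ∑' k : ℕ, ((Complex.I * (θ : ℂ)) ^ k / (k.factorial : ℂ)) • expd_D S x ξ k) ∈ Gr := by
  have hxM : x ∈ S.M := hG.mem _ hx
  set c : ℕ → ℂ := fun k => (Complex.I * (θ : ℂ)) ^ k / (k.factorial : ℂ) with hc
  set f : ℕ → K := fun k => c k • expd_D S x ξ k with hf
  have hcn : ∀ k, ‖c k‖ = |θ| ^ k / (k.factorial : ℝ) := by
    intro k
    rw [hc]
    simp only [norm_div, norm_pow, norm_mul, Complex.norm_I, one_mul, Complex.norm_real,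
      Real.norm_eq_abs, Complex.norm_natCast]
  set g : ℕ → ℝ := fun j => |θ| * ‖ξ‖ * ((|θ| * ‖x‖) ^ j / (j.factorial : ℝ)) with hg
  have hgs : HasSum g (|θ| * ‖ξ‖ * Real.exp (|θ| * ‖x‖)) := by
    rw [hg]
    refine HasSum.mul_left _ ?_
    rw [Real.exp_eq_exp_ℝ]
    exact NormedSpace.expSeries_div_hasSum_exp (|θ| * ‖x‖)
  have hfg : ∀ j, ‖f (j + 1)‖ ≤ g j := by
    intro j
    rw [hf]
    simp only
    rw [norm_smul, hcn]
    have h2 := expd_norm S x hxM ξ j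
    have h3 : (0 : ℝ) ≤ |θ| ^ (j + 1) / ((j + 1).factorial : ℝ) := by positivity
    refine (mul_le_mul_of_nonneg_left h2 h3).trans (le_of_eq ?_)
    rw [hg]
    simp only
    rw [Nat.factorial_succ]
    push_cast
    have h4 : (j.factorial : ℝ) ≠ 0 := by positivity
    have h5 : (j : ℝ) + 1 ≠ 0 := by positivity
    field_simp
    ring
  have hfs1 : Summable (fun j => f (j + 1)) :=
    Summable.of_norm_bounded hgs.summable hfg
  have hfs : Summable f := (summable_nat_add_iff 1).1 hfs1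
  have hf0 : f 0 = 0 := by
    rw [hf]
    simp only
    have : expd_D S x ξ 0 = 0 := rfl
    rw [this, smul_zero]
  have htsum : (∑' k, f k) = ∑' j, f (j + 1) := by
    rw [hfs.tsum_eq_zero_add, hf0, zero_add]
  refine ⟨hfs, ?_⟩
  · have hP : ∀ N, (∑ k ∈ Finset.range N, c k • x ^ k, ∑ k ∈ Finset.range N, f k) ∈ Gr := by
      intro N
      have h2 : (∑ k ∈ Finset.range N, c k • x ^ k, ∑ k ∈ Finset.range N, f k) =
          ∑ k ∈ Finset.range N, c k • ((x ^ k, expd_D S x ξ k) : (H →L[ℂ] H) × K) := by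
        rw [Prod.ext_iff, Prod.fst_sum, Prod.snd_sum]
        exact ⟨rfl, rfl⟩
      rw [h2]
      exact Submodule.sum_mem _ fun k _ => Submodule.smul_mem _ _ (expd_pow hG h1 x ξ hx k)
    have hlim := uexp_series θ x
    have hyM : uexp θ x ∈ S.M :=
      expd_mem_of_tendsto S.M _ _ (fun N => hG.mem _ (hP N)) hlim
    refine (hG.ext_mem (fun N => ∑ k ∈ Finset.range N, c k • x ^ k)
      (fun N => ∑ k ∈ Finset.range N, f k) (uexp θ x) (∑' k, f k) (Real.exp (|θ| * ‖x‖)) hP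
      (fun N => uexp_series_norm θ x N) hyM ?_ hfs.hasSum.tendsto_sum_nat).1
    exact ((ContinuousLinearMap.apply ℂ H S.Ω).continuous.tendsto _).comp hlim

theorem loc_pow_mul (x z : H →L[ℂ] H) (h : z * x = 0) (k : ℕ) : z * x ^ (k + 1) = 0 := by
  rw [pow_succ', ← mul_assoc, h, zero_mul]

/-- all terms of order at least two are killed by `l z r z` -/
theorem loc_term (S : Std H K) (z : H →L[ℂ] H) (hzM : z ∈ S.M) (x : H →L[ℂ] H) (hxM : x ∈ S.M)
    (hxz : x * z = 0) (hzx : z * x = 0) (ξ : K) (k : ℕ) :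
    S.l z (S.r z (expd_D S x ξ (k + 2))) = 0 := by
  have h0 : expd_D S x ξ (k + 2) = S.l (x ^ (k + 1)) ξ + S.r x (expd_D S x ξ (k + 1)) := rfl
  have hr0 : ∀ η : K, S.r z (S.r x η) = 0 := by
    intro η
    have h1 := S.r_mul hxM hzM
    have h2 : S.r (x * z) η = S.r z (S.r x η) := by rw [h1]; rfl
    rw [← h2, hxz]
    have h3 : S.r (0 : H →L[ℂ] H) = 0 := by
      have h4 := S.r_smul 0 S.one_mem
      rw [zero_smul, zero_smul] at h4
      exact h4
    rw [h3]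
    rfl
  have hl0 : ∀ η : K, S.l z (S.l (x ^ (k + 1)) η) = 0 := by
    intro η
    have h2 : S.l (z * x ^ (k + 1)) η = S.l z (S.l (x ^ (k + 1)) η) := by rw [S.l_mul]; rfl
    rw [← h2, loc_pow_mul x z hzx]
    have h3 : S.l (0 : H →L[ℂ] H) = 0 := by
      have h4 := S.l_smul 0 1
      rw [zero_smul, zero_smul] at h4
      exact h4
    rw [h3]
    rfl
  rw [h0, map_add, map_add, hr0, map_zero, add_zero, S.lr_comm, hl0, map_zero]

theorem loc_lin (S : Std H K) (Gr : Submodule ℂ ((H →L[ℂ] H) × K)) (hG : BClosed S Gr)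
    (h1 : ((1 : H →L[ℂ] H), (0 : K)) ∈ Gr) (z : H →L[ℂ] H)
    (hzM : z ∈ S.M) (x : H →L[ℂ] H) (ξ : K) (hx : (x, ξ) ∈ Gr)
    (hxz : x * z = 0) (hzx : z * x = 0) (θ : ℝ) (δ : K) (hδ : (uexp θ x, δ) ∈ Gr) :
    S.l z (S.r z δ) = (Complex.I * (θ : ℂ)) • S.l z (S.r z ξ) := by
  have hxM : x ∈ S.M := hG.mem _ hx
  obtain ⟨hs, hm⟩ := loc_series hG h1 x ξ hx θ
  have hδe : δ = ∑' k : ℕ, ((Complex.I * (θ : ℂ)) ^ k / (k.factorial : ℂ)) • expd_D S x ξ k := by
    have h2 := Gr.sub_mem hδ hm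
    rw [Prod.mk_sub_mk, sub_self] at h2
    exact sub_eq_zero.1 (hG.sv _ h2)
  have hmap : S.l z (S.r z δ) = ∑' k : ℕ, S.l z (S.r z
      (((Complex.I * (θ : ℂ)) ^ k / (k.factorial : ℂ)) • expd_D S x ξ k)) := by
    rw [hδe]
    have h3 := ((S.l z).comp (S.r z)).map_tsum hs
    exact h3
  rw [hmap, tsum_eq_single 1]
  · have h0 : expd_D S x ξ 1 = S.l (x ^ 0) ξ + S.r x 0 := rfl
    rw [h0, map_zero, add_zero, pow_zero, S.l_one, map_smul, map_smul, pow_one, Nat.factorial_one,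
      Nat.cast_one, div_one]
    rfl
  · intro k hk
    rcases k with _ | _ | k
    · have h0 : expd_D S x ξ 0 = 0 := rfl
      rw [h0, smul_zero, map_zero, map_zero]
    · exact absurd rfl hk
    · rw [map_smul, map_smul, loc_term S z hzM x hxM hxz hzx, smul_zero]

theorem loc (S : Std H K) (Gr : Submodule ℂ ((H →L[ℂ] H) × K)) (hG : BClosed S Gr)
    (h1 : ((1 : H →L[ℂ] H), (0 : K)) ∈ Gr) (z : H →L[ℂ] H) (hz : IsStarProjection z)
    (hzM : z ∈ S.M) (hzc : ∀ x ∈ S.M, z * x = x * z) (x : H →L[ℂ] H) (ξ : K)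
    (hx : (x, ξ) ∈ Gr) (hsa : IsSelfAdjoint x) (hxz : x * z = 0) : S.l z (S.r z ξ) = 0 := by
  have _ := hz
  have hxM : x ∈ S.M := hG.mem _ hx
  have hzx : z * x = 0 := by rw [hzc x hxM, hxz]
  have hu : ∀ θ' : ℝ, ‖uexp θ' x‖ ≤ 1 := by
    intro θ'
    have h2 := CStarRing.norm_mem_unitary_mul (1 : H →L[ℂ] H) (uexp_unitary θ' x hsa)
    rw [mul_one] at h2
    rw [h2]
    exact ContinuousLinearMap.norm_id_le
  have hone : ‖(1 : H →L[ℂ] H)‖ ≤ 1 := ContinuousLinearMap.norm_id_le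
  have hex : ∀ n : ℕ, ∃ δ : K, (uexp ((n : ℝ) + 1) x, δ) ∈ Gr ∧ ‖δ‖ ≤ ((n : ℝ) + 1) * ‖ξ‖ := by
    intro n
    obtain ⟨δ, hδ, hδn⟩ := exp_mem hG h1 x ξ hx hsa ((n : ℝ) + 1)
    refine ⟨δ, hδ, hδn.trans (le_of_eq ?_)⟩
    rw [abs_of_nonneg (by positivity)]
  choose δ hδ hδn using hex
  set c : ℕ → ℂ := fun n => (((n : ℝ) + 1 : ℝ) : ℂ)⁻¹ with hc
  have hcn : ∀ n, ‖c n‖ = ((n : ℝ) + 1)⁻¹ := by
    intro n
    rw [hc]
    simp only
    rw [norm_inv, Complex.norm_real, Real.norm_of_nonneg (by positivity)]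
  obtain ⟨p, hp, hpC, hp1, hp2⟩ := star_mean_mem (I := ℕ) ⟨0⟩ S Gr hG
    (Mean.ultra (Filter.hyperfilter ℕ)) (fun n => c n • (uexp ((n : ℝ) + 1) x - 1))
    (fun n => c n • δ n) 2 ‖ξ‖
    (by
      intro n
      have h2 := Gr.smul_mem (c n) (Gr.sub_mem (hδ n) h1)
      rw [Prod.mk_sub_mk, sub_zero, Prod.smul_mk] at h2
      exact h2)
    (by
      intro n
      rw [norm_smul, hcn]
      have h2 : ‖uexp ((n : ℝ) + 1) x - 1‖ ≤ 2 := by
        refine (norm_sub_le _ _).trans ?_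
        linarith [hu ((n : ℝ) + 1)]
      have h3 : ((n : ℝ) + 1)⁻¹ ≤ 1 := inv_le_one_of_one_le₀ (by linarith [Nat.cast_nonneg (α := ℝ) n])
      have h4 : 0 ≤ ((n : ℝ) + 1)⁻¹ := by positivity
      nlinarith [norm_nonneg (uexp ((n : ℝ) + 1) x - 1)])
    (by
      intro n
      rw [norm_smul, hcn]
      have h3 : 0 < (n : ℝ) + 1 := by positivity
      rw [inv_mul_le_iff₀ h3]
      exact hδn n)
  -- the first component vanishes
  have hlim0 : Tendsto (fun n : ℕ => ((n : ℝ) + 1)⁻¹ * 2) atTop (𝓝 0) := by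
    have h2 := (tendsto_one_div_add_atTop_nhds_zero_nat (𝕜 := ℝ)).mul_const 2
    simpa using h2
  have hfirst : p.1 = 0 := by
    refine S.sep (hG.mem p hp) ?_
    have h2 : ∀ ζ : H, ⟪ζ, p.1 S.Ω⟫_ℂ = 0 := by
      intro ζ
      rw [hp1 ζ]
      have hb : ∀ n : ℕ, ‖⟪ζ, (c n • (uexp ((n : ℝ) + 1) x - 1)) S.Ω⟫_ℂ‖ ≤
          ‖ζ‖ * (((n : ℝ) + 1)⁻¹ * 2) := by
        intro n
        refine (norm_inner_le_norm _ _).trans ?_
        refine mul_le_mul_of_nonneg_left ?_ (norm_nonneg _)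
        change ‖c n • ((uexp ((n : ℝ) + 1) x - 1) S.Ω)‖ ≤ _
        rw [norm_smul, hcn]
        refine mul_le_mul_of_nonneg_left ?_ (by positivity)
        have h3 := (uexp ((n : ℝ) + 1) x - 1).le_opNorm S.Ω
        rw [S.tv.norm_one, mul_one] at h3
        refine h3.trans ((norm_sub_le _ _).trans ?_)
        linarith [hu ((n : ℝ) + 1)]
      have hbd : Bdd (fun n : ℕ => ⟪ζ, (c n • (uexp ((n : ℝ) + 1) x - 1)) S.Ω⟫_ℂ) := by
        refine ⟨‖ζ‖ * 2, fun n => (hb n).trans ?_⟩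
        refine mul_le_mul_of_nonneg_left ?_ (norm_nonneg _)
        have h3 : ((n : ℝ) + 1)⁻¹ ≤ 1 :=
          inv_le_one_of_one_le₀ (by linarith [Nat.cast_nonneg (α := ℝ) n])
        linarith
      have h4 := Mean.ultra_tendsto (Filter.hyperfilter ℕ) _ hbd
      have h5 : Tendsto (fun n : ℕ => ⟪ζ, (c n • (uexp ((n : ℝ) + 1) x - 1)) S.Ω⟫_ℂ)
          (Filter.hyperfilter ℕ : Filter ℕ) (𝓝 0) := by
        refine Tendsto.mono_left ?_ Nat.hyperfilter_le_atTop
        refine squeeze_zero_norm hb ?_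
        have h6 := hlim0.const_mul ‖ζ‖
        rw [mul_zero] at h6
        exact h6
      exact tendsto_nhds_unique h4 h5
    exact inner_self_eq_zero.1 (h2 _)
  have hp20 : p.2 = 0 := by
    refine hG.sv p.2 ?_
    rw [← hfirst]
    exact hp
  -- but its image under `l z r z` is `i l z r z ξ`
  set χ : K := S.l z (S.r z ξ) with hχ
  have hval : ∀ n : ℕ, S.l z (S.r z (c n • δ n)) = Complex.I • χ := by
    intro n
    rw [map_smul, map_smul, loc_lin S Gr hG h1 z hzM x ξ hx hxz hzx ((n : ℝ) + 1) (δ n) (hδ n),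
      smul_smul]
    congr 1
    rw [hc]
    simp only
    have h3 : (((n : ℝ) + 1 : ℝ) : ℂ) ≠ 0 := by
      rw [Ne, Complex.ofReal_eq_zero]
      positivity
    field_simp
  have hbd2 : ∃ C : ℝ, ∀ n, ‖c n • δ n‖ ≤ C := by
    refine ⟨‖ξ‖, fun n => ?_⟩
    rw [norm_smul, hcn]
    have h3 : 0 < (n : ℝ) + 1 := by positivity
    rw [inv_mul_le_iff₀ h3]
    exact hδn n
  have hpv : p.2 = (Mean.ultra (Filter.hyperfilter ℕ)).vec (fun n => c n • δ n) := by
    refine ext_inner_left ℂ fun κ => ?_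
    rw [hp2 κ, Mean.inner_vec _ _ hbd2]
  have hfin : Complex.I • χ = 0 := by
    have h2 := Mean.vec_map (Mean.ultra (Filter.hyperfilter ℕ)) (fun n => c n • δ n) hbd2
      ((S.l z).comp (S.r z))
    have h3 : (fun n : ℕ => ((S.l z).comp (S.r z)) (c n • δ n)) = fun _ => Complex.I • χ := by
      funext n
      exact hval n
    rw [h3, Mean.vec_const, ← hpv, hp20, map_zero] at h2
    exact h2
  rcases smul_eq_zero.1 hfin with h | h
  · exact absurd h Complex.I_ne_zero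
  · exact h

/-- the general element of a star-closed domain: real and imaginary part -/
theorem loc_star (S : Std H K) (Gr : Submodule ℂ ((H →L[ℂ] H) × K)) (hG : BClosed S Gr)
    (h1 : ((1 : H →L[ℂ] H), (0 : K)) ∈ Gr) (z : H →L[ℂ] H) (hz : IsStarProjection z)
    (hzM : z ∈ S.M) (hzc : ∀ x ∈ S.M, z * x = x * z) (x : H →L[ℂ] H) (ξ ξ' : K)
    (hx : (x, ξ) ∈ Gr) (hx' : (star x, ξ') ∈ Gr) (hxz : x * z = 0) : S.l z (S.r z ξ) = 0 := by
  have hxM : x ∈ S.M := hG.mem _ hx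
  have hzx : z * x = 0 := by rw [hzc x hxM, hxz]
  have hxz' : star x * z = 0 := by
    have h2 := congrArg star hzx
    rw [star_mul, star_zero, hz.isSelfAdjoint.star_eq] at h2
    exact h2
  have ha : S.l z (S.r z (ξ + ξ')) = 0 := by
    refine loc S Gr hG h1 z hz hzM hzc (x + star x) (ξ + ξ') (Gr.add_mem hx hx') ?_ ?_
    · rw [isSelfAdjoint_iff, star_add, star_star, add_comm]
    · rw [add_mul, hxz, hxz', add_zero]
  have hb : S.l z (S.r z (Complex.I • (ξ - ξ'))) = 0 := by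
    refine loc S Gr hG h1 z hz hzM hzc (Complex.I • (x - star x)) (Complex.I • (ξ - ξ'))
      (Gr.smul_mem _ (Gr.sub_mem hx hx')) ?_ ?_
    · rw [isSelfAdjoint_iff, star_smul, star_sub, star_star, Complex.star_def, Complex.conj_I,
        neg_smul, ← smul_neg, neg_sub]
    · rw [smul_mul_assoc, sub_mul, hxz, hxz', sub_zero, smul_zero]
  rw [map_smul, map_smul] at hb
  have hb' : S.l z (S.r z (ξ - ξ')) = 0 := by
    rcases smul_eq_zero.1 hb with h | h
    · exact absurd h Complex.I_ne_zero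
    · exact h
  rw [map_add, map_add] at ha
  rw [map_sub, map_sub] at hb'
  have h2 : (2 : ℂ) • S.l z (S.r z ξ) = 0 := by
    rw [two_smul]
    calc S.l z (S.r z ξ) + S.l z (S.r z ξ) = (S.l z (S.r z ξ) + S.l z (S.r z ξ')) +
          (S.l z (S.r z ξ) - S.l z (S.r z ξ')) := by abel
      _ = 0 := by rw [ha, hb', add_zero]
  rcases smul_eq_zero.1 h2 with h | h
  · norm_num at h
  · exact h

end

end Pool.H62.UC
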