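import Pool.Agent.H62.UC.ExpL

/-!
# KAPA: a tracial Kaplansky principle, and the first step of the double commutant theorem

* `dc_closure`: `z` in the double commutant of a unital star algebra `A` of operators; the
  orthogonal projection on `closure (A ω)` commutes with `A` (`A ω` is invariant under `A = A*`),
  so commutes with `z`; hence `z ω ∈ closure (A ω)`.
* `kap`: let `z ∈ M` with `z Ω ∈ closure (A Ω)`.  Self-adjoint case: there are self-adjoint
  `a_k ∈ A` with `a_k Ω → z Ω` (symmetrise, `Std.norm_star`).  `P (uexp θ a_k)` since the partial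
  sums of the exponential series are in `A`, bounded, norm convergent; `uexp θ a_k Ω → uexp θ z Ω` by
  `exp_lip`, so `P (uexp θ z)`; then `P z` by `uexp_deriv`.
  General case: real and imaginary part (`z* Ω ∈ closure (A Ω)` too).
-/

namespace Pool.H62.UC

open scoped InnerProductSpace TensorProduct ComplexConjugate
open Filter Topology

noncomputable section


variable {H : Type*} [NormedAddCommGroup H] [InnerProductSpace ℂ H] [CompleteSpace H]
variable {K : Type*} [NormedAddCommGroup K] [InnerProductSpace ℂ K] [CompleteSpace K]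

theorem dc_closure (A : StarSubalgebra ℂ (H →L[ℂ] H)) (z : H →L[ℂ] H)
    (hz : z ∈ Set.centralizer (Set.centralizer (A : Set (H →L[ℂ] H)))) (ω : H) :
    z ω ∈ closure {ξ : H | ∃ a ∈ A, a ω = ξ} := by
  let V0 : Submodule ℂ H :=
    { carrier := {ξ : H | ∃ a ∈ A, a ω = ξ}
      add_mem' := by
        rintro _ _ ⟨a, ha, rfl⟩ ⟨b, hb, rfl⟩
        exact ⟨a + b, add_mem ha hb, by simp⟩
      zero_mem' := ⟨0, zero_mem A, by simp⟩
      smul_mem' := by
        rintro c _ ⟨a, ha, rfl⟩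
        exact ⟨c • a, SMulMemClass.smul_mem c ha, by simp⟩ }
  have hV0 : (V0 : Set H) = {ξ : H | ∃ a ∈ A, a ω = ξ} := rfl
  rw [← hV0, ← Submodule.topologicalClosure_coe]
  set V : Submodule ℂ H := V0.topologicalClosure with hV
  haveI : CompleteSpace V := V0.isClosed_topologicalClosure.completeSpace_coe
  have hinv : ∀ b ∈ A, ∀ v ∈ V, b v ∈ V := by
    intro b hb v hv
    have hcont : Continuous (fun x : H => b x) := b.continuous
    have hmaps : Set.MapsTo (fun x : H => b x) (V0 : Set H) (V0 : Set H) := by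
      rintro _ ⟨a, ha, rfl⟩
      exact ⟨b * a, mul_mem hb ha, by simp⟩
    have := hmaps.closure hcont
    exact this hv
  have hinv' : ∀ b ∈ A, ∀ v ∈ Vᗮ, b v ∈ Vᗮ := by
    intro b hb v hv
    rw [Submodule.mem_orthogonal]
    intro u hu
    have h1 := (Submodule.mem_orthogonal _ _).1 hv (star b u) (hinv _ (star_mem hb) u hu)
    rwa [ContinuousLinearMap.star_eq_adjoint, ContinuousLinearMap.adjoint_inner_left] at h1
  have hP : V.starProjection ∈ Set.centralizer (A : Set (H →L[ℂ] H)) := by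
    rw [Set.mem_centralizer_iff]
    intro b hb
    ext ξ
    simp only [ContinuousLinearMap.mul_apply]
    symm
    apply Submodule.eq_starProjection_of_mem_orthogonal
    · exact hinv b hb _ (Submodule.starProjection_apply_mem V ξ)
    · rw [← map_sub]
      exact hinv' b hb _ (Submodule.sub_starProjection_mem_orthogonal ξ)
  have hc := (Set.mem_centralizer_iff.1 hz) _ hP
  have hω : ω ∈ V := by
    apply Submodule.le_topologicalClosure
    exact ⟨1, one_mem A, by simp⟩
  have h2 : V.starProjection (z ω) = z ω := by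
    have := congrArg (fun T : H →L[ℂ] H => T ω) hc
    simp only [ContinuousLinearMap.mul_apply] at this
    rw [this, Submodule.starProjection_eq_self_iff.2 hω]
  rw [← h2]
  exact Submodule.starProjection_apply_mem V _

/-- the self-adjoint case of `kap` -/
theorem kapA_sa (S : Std H K) (A : StarSubalgebra ℂ (H →L[ℂ] H)) (hA : ∀ a ∈ A, a ∈ S.M)
    (P : (H →L[ℂ] H) → Prop) (hPA : ∀ a ∈ A, P a)
    (hadd : ∀ x ∈ S.M, ∀ y ∈ S.M, P x → P y → P (x + y))
    (hsmul : ∀ (c : ℂ), ∀ x ∈ S.M, P x → P (c • x))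
    (hcl : ∀ (y : ℕ → H →L[ℂ] H) (z : H →L[ℂ] H) (C : ℝ), (∀ k, y k ∈ S.M) →
      (∀ k, ‖y k‖ ≤ C) → (∀ k, P (y k)) → z ∈ S.M →
      Tendsto (fun k => y k S.Ω) atTop (𝓝 (z S.Ω)) → P z)
    (z : H →L[ℂ] H) (hz : z ∈ S.M) (hzs : IsSelfAdjoint z)
    (b : ℕ → H →L[ℂ] H) (hb : ∀ k, b k ∈ A) (hbs : ∀ k, IsSelfAdjoint (b k))
    (hlim : Tendsto (fun k => b k S.Ω) atTop (𝓝 (z S.Ω))) : P z := by
  have heval : ∀ {ι : Type} {F : Filter ι} {y : ι → H →L[ℂ] H} {w : H →L[ℂ] H},
      Tendsto y F (𝓝 w) → Tendsto (fun i => y i S.Ω) F (𝓝 (w S.Ω)) := by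
    intro ι F y w h
    exact ((ContinuousLinearMap.apply ℂ H S.Ω).continuous.tendsto w).comp h
  -- exponentials of the approximants
  have h1 : ∀ (θ : ℝ) (k : ℕ), P (uexp θ (b k)) := by
    intro θ k
    have hmem : ∀ N : ℕ, (∑ j ∈ Finset.range N,
        ((Complex.I * (θ : ℂ)) ^ j / (j.factorial : ℂ)) • (b k) ^ j) ∈ A := fun N =>
      sum_mem fun j _ => SMulMemClass.smul_mem _ (pow_mem (hb k) j)
    exact hcl (fun N => ∑ j ∈ Finset.range N,
      ((Complex.I * (θ : ℂ)) ^ j / (j.factorial : ℂ)) • (b k) ^ j) _ (Real.exp (|θ| * ‖b k‖))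
      (fun N => hA _ (hmem N)) (fun N => uexp_series_norm θ (b k) N)
      (fun N => hPA _ (hmem N)) (uexp_mem S _ (hA _ (hb k)) θ) (heval (uexp_series θ (b k)))
  have h2 : ∀ θ : ℝ, P (uexp θ z) := by
    intro θ
    refine hcl (fun k => uexp θ (b k)) _ 1 (fun k => uexp_mem S _ (hA _ (hb k)) θ) ?_
      (fun k => h1 θ k) (uexp_mem S _ hz θ) ?_
    · intro k
      have hu := uexp_unitary θ (b k) (hbs k)
      rcases subsingleton_or_nontrivial (H →L[ℂ] H) with h | h
      · rw [Subsingleton.elim (uexp θ (b k)) 0, norm_zero]; exact zero_le_one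
      · exact (CStarRing.norm_of_mem_unitary hu).le
    · rw [tendsto_iff_norm_sub_tendsto_zero] at hlim ⊢
      have h3 : Tendsto (fun k => |θ| * ‖b k S.Ω - z S.Ω‖) atTop (𝓝 0) := by
        simpa using hlim.const_mul |θ|
      refine squeeze_zero (fun k => norm_nonneg _) (fun k => ?_) h3
      have h4 := exp_lip S (b k) z (hA _ (hb k)) hz (hbs k) hzs θ
      simpa only [ContinuousLinearMap.sub_apply] using h4
  -- the derivative at zero
  have h3 : Tendsto (fun n : ℕ => (1 : ℝ) / ((n : ℝ) + 1)) atTop (𝓝[>] 0) := by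
    rw [tendsto_nhdsWithin_iff]
    refine ⟨tendsto_one_div_add_atTop_nhds_zero_nat, Eventually.of_forall fun n => ?_⟩
    exact (Nat.one_div_pos_of_nat : (0 : ℝ) < 1 / ((n : ℝ) + 1))
  have h4 := (uexp_deriv z).comp h3
  have hbd := h4.norm.bddAbove_range
  obtain ⟨C, hC⟩ := hbd
  have hmem : ∀ θ : ℝ, uexp θ z - 1 ∈ S.M := fun θ => sub_mem (uexp_mem S _ hz θ) S.one_mem
  refine hcl _ z C (fun n => S.smul_mem _ (hmem _)) (fun n => hC ⟨n, rfl⟩) (fun n => ?_) hz (heval h4)
  refine hsmul _ _ (hmem _) ?_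
  rw [sub_eq_add_neg]
  refine hadd _ (uexp_mem S _ hz _) _ (neg_mem S.one_mem) (h2 _) ?_
  rw [← neg_one_smul ℂ (1 : H →L[ℂ] H)]
  exact hsmul _ _ S.one_mem (hPA _ (one_mem A))

theorem kap (S : Std H K) (A : StarSubalgebra ℂ (H →L[ℂ] H)) (hA : ∀ a ∈ A, a ∈ S.M)
    (P : (H →L[ℂ] H) → Prop) (hPA : ∀ a ∈ A, P a)
    (hadd : ∀ x ∈ S.M, ∀ y ∈ S.M, P x → P y → P (x + y))
    (hsmul : ∀ (c : ℂ), ∀ x ∈ S.M, P x → P (c • x))
    (hcl : ∀ (y : ℕ → H →L[ℂ] H) (z : H →L[ℂ] H) (C : ℝ), (∀ k, y k ∈ S.M) →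
      (∀ k, ‖y k‖ ≤ C) → (∀ k, P (y k)) → z ∈ S.M →
      Tendsto (fun k => y k S.Ω) atTop (𝓝 (z S.Ω)) → P z)
    (z : H →L[ℂ] H) (hz : z ∈ S.M) (hzA : z S.Ω ∈ closure {ξ : H | ∃ a ∈ A, a S.Ω = ξ}) :
    P z := by
  obtain ⟨ξ, hξ, hlim⟩ := mem_closure_iff_seq_limit.1 hzA
  choose a haA haΩ using hξ
  have hlim1 : Tendsto (fun k => a k S.Ω) atTop (𝓝 (z S.Ω)) := by
    simpa only [haΩ] using hlim
  have hlim2 : Tendsto (fun k => (star (a k)) S.Ω) atTop (𝓝 ((star z) S.Ω)) := by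
    rw [tendsto_iff_norm_sub_tendsto_zero] at hlim1 ⊢
    refine hlim1.congr fun k => ?_
    have h1 : (star (a k)) S.Ω - (star z) S.Ω = (star (a k - z)) S.Ω := by
      rw [star_sub, ContinuousLinearMap.sub_apply]
    rw [h1, S.norm_star (sub_mem (hA _ (haA k)) hz), ContinuousLinearMap.sub_apply]
  have key := kapA_sa S A hA P hPA hadd hsmul hcl
  have hzs : star z ∈ S.M := star_mem hz
  have hI : ((2 * Complex.I)⁻¹ : ℂ) = - (Complex.I / 2) := by
    rw [mul_inv, Complex.inv_I]; ring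
  have hconjI : star ((2 * Complex.I)⁻¹ : ℂ) = - (2 * Complex.I)⁻¹ := by
    rw [hI]
    simp [Complex.conj_I]
    ring
  have h2 : star ((2 : ℂ)⁻¹) = (2 : ℂ)⁻¹ := by simp
  -- real part
  have hre : P ((2 : ℂ)⁻¹ • (z + star z)) := by
    refine key _ (S.smul_mem _ (add_mem hz hzs)) ?_ (fun k => (2 : ℂ)⁻¹ • (a k + star (a k))) ?_ ?_ ?_
    · rw [isSelfAdjoint_iff, star_smul, star_add, star_star, h2, add_comm]
    · intro k
      exact SMulMemClass.smul_mem _ (add_mem (haA k) (star_mem (haA k)))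
    · intro k
      rw [isSelfAdjoint_iff, star_smul, star_add, star_star, h2, add_comm]
    · simpa only [ContinuousLinearMap.smul_apply, ContinuousLinearMap.add_apply] using
        (hlim1.add hlim2).const_smul ((2 : ℂ)⁻¹)
  have him : P ((2 * Complex.I)⁻¹ • (z - star z)) := by
    refine key _ (S.smul_mem _ (sub_mem hz hzs)) ?_
      (fun k => (2 * Complex.I)⁻¹ • (a k - star (a k))) ?_ ?_ ?_
    · rw [isSelfAdjoint_iff, star_smul, star_sub, star_star, hconjI, neg_smul, ← smul_neg, neg_sub]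
    · intro k
      exact SMulMemClass.smul_mem _ (sub_mem (haA k) (star_mem (haA k)))
    · intro k
      rw [isSelfAdjoint_iff, star_smul, star_sub, star_star, hconjI, neg_smul, ← smul_neg, neg_sub]
    · simpa only [ContinuousLinearMap.smul_apply, ContinuousLinearMap.sub_apply] using
        (hlim1.sub hlim2).const_smul ((2 * Complex.I)⁻¹)
  have hsum : z = (2 : ℂ)⁻¹ • (z + star z) + Complex.I • ((2 * Complex.I)⁻¹ • (z - star z)) := by
    have hII : Complex.I * (2 * Complex.I)⁻¹ = (2 : ℂ)⁻¹ := by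
      rw [mul_inv, ← mul_assoc, mul_comm Complex.I, mul_assoc, mul_inv_cancel₀ Complex.I_ne_zero,
        mul_one]
    rw [smul_smul, hII, ← smul_add]
    have : z + star z + (z - star z) = (2 : ℂ) • z := by
      rw [two_smul]; abel
    rw [this, smul_smul, inv_mul_cancel₀ two_ne_zero, one_smul]
  rw [hsum]
  exact hadd _ (S.smul_mem _ (add_mem hz hzs)) _
    (S.smul_mem _ (S.smul_mem _ (sub_mem hz hzs))) hre
    (hsmul _ _ (S.smul_mem _ (sub_mem hz hzs)) him)

end

end Pool.H62.UC
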