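import Pool.Agent.H62.UC.JuncA
import Pool.Agent.H62.UC.KapA

/-!
# UNIQ: uniqueness
-/

namespace Pool.H62.UC

open scoped InnerProductSpace TensorProduct ComplexConjugate
open Filter Topology

noncomputable section


variable {H : Type*} [NormedAddCommGroup H] [InnerProductSpace ℂ H] [CompleteSpace H]
variable {K : Type*} [NormedAddCommGroup K] [InnerProductSpace ℂ K] [CompleteSpace K]

/-- for a bounded sequence of vectors, the set of vectors against which it tends weakly to `0` is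
closed -/
theorem UNIQ_closed (t : ℕ → K) (C : ℝ) (ht : ∀ n, ‖t n‖ ≤ C) :
    IsClosed {κ : K | Tendsto (fun n => ⟪t n, κ⟫_ℂ) atTop (𝓝 0)} := by
  refine isClosed_of_closure_subset ?_
  intro κ hκ
  rw [Metric.mem_closure_iff] at hκ
  show Tendsto (fun n => ⟪t n, κ⟫_ℂ) atTop (𝓝 0)
  rw [Metric.tendsto_atTop]
  intro ε hε
  have hC0 : 0 ≤ C := (norm_nonneg _).trans (ht 0)
  obtain ⟨κ', hκ', hd⟩ := hκ (ε / (2 * (C + 1))) (by positivity)
  have h1 : Tendsto (fun n => ⟪t n, κ'⟫_ℂ) atTop (𝓝 0) := hκ'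
  rw [Metric.tendsto_atTop] at h1
  obtain ⟨N, hN⟩ := h1 (ε / 2) (by positivity)
  refine ⟨N, fun n hn => ?_⟩
  have h2 := hN n hn
  rw [dist_zero_right] at h2 ⊢
  have h3 : ⟪t n, κ⟫_ℂ = ⟪t n, κ - κ'⟫_ℂ + ⟪t n, κ'⟫_ℂ := by
    rw [← inner_add_right, sub_add_cancel]
  have h4 : ‖⟪t n, κ - κ'⟫_ℂ‖ ≤ C * (ε / (2 * (C + 1))) := by
    refine (norm_inner_le_norm _ _).trans ?_
    rw [dist_eq_norm] at hd
    exact mul_le_mul (ht n) hd.le (norm_nonneg _) hC0
  have h5 : C * (ε / (2 * (C + 1))) ≤ ε / 2 := by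
    have h6 : (C + 1) * (ε / (2 * (C + 1))) = ε / 2 := by field_simp
    have h7 : C * (ε / (2 * (C + 1))) ≤ (C + 1) * (ε / (2 * (C + 1))) :=
      mul_le_mul_of_nonneg_right (by linarith) (by positivity)
    linarith
  rw [h3]
  refine (norm_add_le _ _).trans_lt ?_
  linarith

/-- tensors with first leg tending weakly to `0` and bounded second leg tend weakly to `0` -/
theorem UNIQ_weak (T : Coarse H K) (a b : ℕ → H) (A B : ℝ) (ha : ∀ n, ‖a n‖ ≤ A)
    (hb : ∀ n, ‖b n‖ ≤ B) (hw : ∀ c : H, Tendsto (fun n => ⟪a n, c⟫_ℂ) atTop (𝓝 0)) (κ : K) :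
    Tendsto (fun n => ⟪T.tp (a n) (b n), κ⟫_ℂ) atTop (𝓝 0) := by
  have hA0 : 0 ≤ A := (norm_nonneg _).trans (ha 0)
  refine T.induction (fun κ => Tendsto (fun n => ⟪T.tp (a n) (b n), κ⟫_ℂ) atTop (𝓝 0))
    ?_ ?_ ?_ ?_ κ
  · intro c d
    have h1 : ∀ n, ⟪T.tp (a n) (b n), T.tp c d⟫_ℂ = ⟪a n, c⟫_ℂ * ⟪b n, d⟫_ℂ := fun n =>
      T.inner_tp _ _ _ _
    have h2 : Tendsto (fun n => ‖⟪a n, c⟫_ℂ‖ * (B * ‖d‖)) atTop (𝓝 0) := by
      have h3 := ((hw c).norm).mul_const (B * ‖d‖)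
      rwa [norm_zero, zero_mul] at h3
    refine squeeze_zero_norm (fun n => ?_) h2
    rw [h1, norm_mul]
    refine mul_le_mul_of_nonneg_left ?_ (norm_nonneg _)
    exact (norm_inner_le_norm _ _).trans (mul_le_mul_of_nonneg_right (hb n) (norm_nonneg _))
  · intro x y hx hy
    have h1 := hx.add hy
    rw [add_zero] at h1
    refine h1.congr (fun n => ?_)
    rw [inner_add_right]
  · intro c x hx
    have h1 := hx.const_mul c
    rw [mul_zero] at h1
    refine h1.congr (fun n => ?_)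
    rw [inner_smul_right]
  · refine UNIQ_closed _ (A * B) (fun n => ?_)
    rw [T.norm_tp]
    exact mul_le_mul (ha n) (hb n) (norm_nonneg _) hA0

/-- Uniqueness. `P y = (l y κ = r y κ)` is multiplicative, so holds on the star algebra generated by
the star-closed set `X`; `kap` gives `P (v n)`, so `κ = l (v n) (r (v n)* κ)`, which tends weakly to
`0` because `κ = l (1 - e) κ` (test on simple tensors, `v n (1 - e) → 0` weakly). -/
theorem uniq (S : Std H K) (v : ℕ → H →L[ℂ] H) (hv : ∀ n, v n ∈ UM S) (e : H →L[ℂ] H)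
    (he : IsStarProjection e) (heM : e ∈ S.M)
    (hw : ∀ ζ ω : H, Tendsto (fun n => ⟪ζ, v n ω⟫_ℂ) atTop (𝓝 ⟪ζ, e ω⟫_ℂ))
    (X : Set (H →L[ℂ] H)) (hX : ∀ x ∈ X, x ∈ S.M) (hXs : ∀ x ∈ X, star x ∈ X)
    (hvX : ∀ n, v n S.Ω ∈ closure {ξ : H | ∃ x ∈ X, x S.Ω = ξ}) (κ : K)
    (hκ : S.l (1 - e) κ = κ) (hc : ∀ x ∈ X, S.l x κ = S.r x κ) : κ = 0 := by
  -- the relation on the star algebra generated by `X`
  set A : StarSubalgebra ℂ (H →L[ℂ] H) := StarAlgebra.adjoin ℂ X with hAdef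
  have hmulP : ∀ x y : H →L[ℂ] H, x ∈ S.M → y ∈ S.M → S.l x κ = S.r x κ → S.l y κ = S.r y κ →
      S.l (x * y) κ = S.r (x * y) κ := by
    intro x y hx hy h1 h2
    rw [S.l_mul, S.r_mul hx hy]
    show S.l x (S.l y κ) = S.r y (S.r x κ)
    rw [h2, ← h1, S.lr_comm]
  have hA : ∀ a ∈ A, (a ∈ S.M ∧ S.l a κ = S.r a κ) ∧
      (star a ∈ S.M ∧ S.l (star a) κ = S.r (star a) κ) := by
    intro a ha
    refine StarAlgebra.adjoin_induction (p := fun a _ => (a ∈ S.M ∧ S.l a κ = S.r a κ) ∧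
      (star a ∈ S.M ∧ S.l (star a) κ = S.r (star a) κ)) ?_ ?_ ?_ ?_ ?_ ha
    · intro x hx
      exact ⟨⟨hX x hx, hc x hx⟩, hX _ (hXs x hx), hc _ (hXs x hx)⟩
    · intro c
      have h1 : ∀ c : ℂ, (algebraMap ℂ (H →L[ℂ] H) c ∈ S.M ∧
          S.l (algebraMap ℂ (H →L[ℂ] H) c) κ = S.r (algebraMap ℂ (H →L[ℂ] H) c) κ) := by
        intro c
        rw [Algebra.algebraMap_eq_smul_one]
        refine ⟨S.smul_mem c S.one_mem, ?_⟩
        rw [S.l_smul, S.r_smul c S.one_mem, S.l_one, S.r_one]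
      refine ⟨h1 c, ?_⟩
      have h2 : star (algebraMap ℂ (H →L[ℂ] H) c) = algebraMap ℂ (H →L[ℂ] H) (star c) :=
        (algebraMap_star_comm c).symm
      rw [h2]
      exact h1 (star c)
    · rintro x y _ _ ⟨⟨h1, h2⟩, h3, h4⟩ ⟨⟨h5, h6⟩, h7, h8⟩
      refine ⟨⟨add_mem h1 h5, ?_⟩, ?_, ?_⟩
      · rw [S.l_add, S.r_add h1 h5]
        show S.l x κ + S.l y κ = S.r x κ + S.r y κ
        rw [h2, h6]
      · rw [star_add]
        exact add_mem h3 h7
      · rw [star_add, S.l_add, S.r_add h3 h7]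
        show S.l (star x) κ + S.l (star y) κ = S.r (star x) κ + S.r (star y) κ
        rw [h4, h8]
    · rintro x y _ _ ⟨⟨h1, h2⟩, h3, h4⟩ ⟨⟨h5, h6⟩, h7, h8⟩
      refine ⟨⟨mul_mem h1 h5, hmulP x y h1 h5 h2 h6⟩, ?_, ?_⟩
      · rw [star_mul]
        exact mul_mem h7 h3
      · rw [star_mul]
        exact hmulP _ _ h7 h3 h8 h4
    · rintro x _ ⟨h1, h2⟩
      rw [star_star]
      exact ⟨h2, h1⟩
  have hPv : ∀ n, S.l (v n) κ = S.r (v n) κ := by
    intro n
    refine kap S A (fun a ha => (hA a ha).1.1) (fun y => S.l y κ = S.r y κ)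
      (fun a ha => (hA a ha).1.2) ?_ ?_ ?_ (v n) (hv n).1 ?_
    · intro x hx y hy h1 h2
      show S.l (x + y) κ = S.r (x + y) κ
      rw [S.l_add, S.r_add hx hy]
      show S.l x κ + S.l y κ = S.r x κ + S.r y κ
      rw [h1, h2]
    · intro c x hx h1
      show S.l (c • x) κ = S.r (c • x) κ
      rw [S.l_smul, S.r_smul c hx]
      show c • S.l x κ = c • S.r x κ
      rw [h1]
    · intro y z C hy hyC hP hz hlim
      have h1 := S.l_tendsto hy hz hyC hlim κ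
      have h2 := S.r_tendsto hy hz hyC hlim κ
      have h3 : (fun k => S.l (y k) κ) = fun k => S.r (y k) κ := funext hP
      rw [h3] at h1
      exact tendsto_nhds_unique h1 h2
    · refine closure_mono ?_ (hvX n)
      rintro ξ ⟨x, hx, rfl⟩
      exact ⟨x, StarAlgebra.subset_adjoin ℂ X hx, rfl⟩
  have hrep : ∀ n, κ = S.l (v n) (S.l (1 - e) (S.r (star (v n)) κ)) := by
    intro n
    have hvM := (hv n).1
    have hvsM : star (v n) ∈ S.M := star_mem hvM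
    have h1 : S.r (star (v n)) (S.r (v n) κ) = κ := by
      have h2 := S.r_mul hvM hvsM
      have h3 : v n * star (v n) = 1 := (Unitary.mem_iff.1 (hv n).2).2
      rw [h3, S.r_one] at h2
      have h4 := congrArg (fun f : K →L[ℂ] K => f κ) h2
      exact h4.symm
    rw [S.lr_comm, hκ, S.lr_comm, hPv n, h1]
  refine S.T.ext_inner κ 0 (fun a b => ?_)
  rw [inner_zero_right]
  have hes : star (1 - e) = 1 - e := by
    rw [star_sub, star_one, he.isSelfAdjoint.star_eq]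
  have hform : ∀ n, ⟪S.T.tp a b, κ⟫_ℂ =
      ⟪S.T.tp ((1 - e) ((star (v n)) a)) (S.ρ (v n) b), κ⟫_ℂ := by
    intro n
    have hvM := (hv n).1
    have hvsM : star (v n) ∈ S.M := star_mem hvM
    have h1 : ∀ (x : H →L[ℂ] H) (ζ ω : K), ⟪ζ, S.l x ω⟫_ℂ = ⟪S.l (star x) ζ, ω⟫_ℂ := by
      intro x ζ ω
      rw [S.l_star, ContinuousLinearMap.star_eq_adjoint, ContinuousLinearMap.adjoint_inner_left]
    have h2 : ∀ (x : H →L[ℂ] H), x ∈ S.M → ∀ (ζ ω : K),
        ⟪ζ, S.r x ω⟫_ℂ = ⟪S.r (star x) ζ, ω⟫_ℂ := by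
      intro x hx ζ ω
      rw [S.r_star hx, ContinuousLinearMap.star_eq_adjoint,
        ContinuousLinearMap.adjoint_inner_left]
    conv_lhs => rw [hrep n]
    rw [h1, h1, h2 _ hvsM, star_star, hes, S.l_tp, S.l_tp, S.r_tp]
  have hconst : Tendsto (fun n : ℕ => ⟪S.T.tp a b, κ⟫_ℂ) atTop (𝓝 0) := by
    have h1 := UNIQ_weak S.T (fun n => (1 - e) ((star (v n)) a)) (fun n => S.ρ (v n) b)
      (‖(1 : H →L[ℂ] H) - e‖ * ‖a‖) ‖b‖ ?_ ?_ ?_ κ
    · refine h1.congr (fun n => ?_)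
      exact (hform n).symm
    · intro n
      refine (ContinuousLinearMap.le_opNorm _ _).trans ?_
      refine mul_le_mul_of_nonneg_left ?_ (norm_nonneg _)
      refine (ContinuousLinearMap.le_opNorm _ _).trans ?_
      have h2 : ‖star (v n)‖ ≤ 1 := UM_norm S (UM_star S (hv n))
      calc ‖star (v n)‖ * ‖a‖ ≤ 1 * ‖a‖ := mul_le_mul_of_nonneg_right h2 (norm_nonneg _)
        _ = ‖a‖ := one_mul _
    · intro n
      refine (ContinuousLinearMap.le_opNorm _ _).trans ?_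
      have h2 : ‖S.ρ (v n)‖ ≤ 1 := (S.ρ_norm_le (hv n).1).trans (UM_norm S (hv n))
      calc ‖S.ρ (v n)‖ * ‖b‖ ≤ 1 * ‖b‖ := mul_le_mul_of_nonneg_right h2 (norm_nonneg _)
        _ = ‖b‖ := one_mul _
    · intro c
      have h2 := hw a ((1 - e) c)
      have h3 : e ((1 - e) c) = 0 := by
        have h4 : e * (1 - e) = 0 := by
          rw [mul_sub, mul_one, he.isIdempotentElem.eq, sub_self]
        have h5 := congrArg (fun f : H →L[ℂ] H => f c) h4
        exact h5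
      rw [h3, inner_zero_right] at h2
      refine h2.congr (fun n => ?_)
      have h6 : ∀ (x : H →L[ℂ] H) (ζ ω : H), ⟪ζ, x ω⟫_ℂ = ⟪(star x) ζ, ω⟫_ℂ := by
        intro x ζ ω
        rw [ContinuousLinearMap.star_eq_adjoint, ContinuousLinearMap.adjoint_inner_left]
      rw [h6 (v n), h6 (1 - e), hes]
  exact tendsto_nhds_unique tendsto_const_nhds hconst

end

end Pool.H62.UC
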