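import Pool.Agent.H62.UC.Pair
import Pool.Agent.H62.UC.Uniq

/-!
# LALL: one fraction for all elements of `D`
-/

namespace Pool.H62.UC

open scoped InnerProductSpace TensorProduct ComplexConjugate
open Filter Topology

noncomputable section

variable {H : Type*} [NormedAddCommGroup H] [InnerProductSpace ℂ H] [CompleteSpace H]
variable {K : Type*} [NormedAddCommGroup K] [InnerProductSpace ℂ K] [CompleteSpace K]

private theorem LALL_seq (S : Std H K) (v : ℕ → H →L[ℂ] H) (P0 : Set ((H →L[ℂ] H) × K))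
    (hstar : ∀ p ∈ P0, ∃ q ∈ P0, q.1 = star p.1)
    (hdense : Dense {ξ : H | ∃ p ∈ P0, p.1 S.Ω = ξ}) :
    ∃ p₁ : ℕ → (H →L[ℂ] H) × K, (∀ m, p₁ m ∈ P0) ∧ (∀ m, ∃ m', (p₁ m').1 = star (p₁ m).1) ∧
      ∀ n, v n S.Ω ∈ closure {ξ : H | ∃ x ∈ {x | ∃ m, (p₁ m).1 = x}, x S.Ω = ξ} := by
  have h1 : ∀ n k : ℕ, ∃ p ∈ P0, ‖v n S.Ω - p.1 S.Ω‖ < 1 / ((k : ℝ) + 1) := by
    intro n k
    have h := hdense (v n S.Ω)
    rw [Metric.mem_closure_iff] at h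
    obtain ⟨b, ⟨p, hp, rfl⟩, hb⟩ := h (1 / ((k : ℝ) + 1)) (by positivity)
    exact ⟨p, hp, by rwa [dist_eq_norm] at hb⟩
  choose P hP hPn using h1
  choose! T hT hTs using hstar
  let f : ℕ × ℕ × Bool → (H →L[ℂ] H) × K :=
    fun t => if t.2.2 then T (P t.1 t.2.1) else P t.1 t.2.1
  obtain ⟨g⟩ : Nonempty (ℕ ≃ ℕ × ℕ × Bool) := nonempty_equiv_of_countable
  refine ⟨fun m => f (g m), ?_, ?_, ?_⟩
  · intro m
    show f (g m) ∈ P0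
    generalize g m = t
    obtain ⟨n, k, b⟩ := t
    cases b
    · exact hP n k
    · exact hT _ (hP n k)
  · intro m
    rcases hgm : g m with ⟨n, k, b⟩
    refine ⟨g.symm (n, k, !b), ?_⟩
    show (f (g (g.symm (n, k, !b)))).1 = star (f (g m)).1
    rw [g.apply_symm_apply, hgm]
    cases b
    · exact hTs _ (hP n k)
    · show (P n k).1 = star (T (P n k)).1
      rw [hTs _ (hP n k), star_star]
  · intro n
    rw [Metric.mem_closure_iff]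
    intro ε hε
    obtain ⟨k, hk⟩ := exists_nat_one_div_lt hε
    refine ⟨(P n k).1 S.Ω, ⟨(P n k).1, ⟨g.symm (n, k, false), ?_⟩, rfl⟩, ?_⟩
    · show (f (g (g.symm (n, k, false)))).1 = (P n k).1
      rw [g.apply_symm_apply]
      rfl
    · rw [dist_eq_norm]
      exact (hPn n k).trans hk

private theorem LALL_comm (S : Std H K) {P : K →L[ℂ] K} (hP : P ∈ (NK S).commutant)
    {A : K →L[ℂ] K} (hA : A ∈ NK S) (ξ : K) : P (A ξ) = A (P ξ) := by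
  rw [VonNeumannAlgebra.mem_commutant_iff] at hP
  have h := congrArg (fun B : K →L[ℂ] K => B ξ) (hP A hA)
  exact h.symm

/-- moving an element of the commutant through the block relation -/
private theorem LALL_move (S : Std H K) {P : K →L[ℂ] K} (hP : P ∈ (NK S).commutant)
    {f x : H →L[ℂ] H} (hf : f ∈ S.M) (hx : x ∈ S.M) (ω c : K) :
    P (S.l f (ω - (S.l x c - S.r x c))) =
      S.l f (P ω) - (S.l f (S.l x (P c)) - S.l f (S.r x (P c))) := by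
  rw [LALL_comm S hP (l_mem_NK S hf), map_sub, map_sub, map_sub, map_sub,
    LALL_comm S hP (l_mem_NK S hx), LALL_comm S hP (r_mem_NK S hx)]

/-- One pair for all of `P0` (set version). Choose a sequence `p₁ : ℕ → P0` whose set `X₁` of first
components is star-closed with `v n Ω` in the closure of `X₁ Ω` (for every `n, k` an element of `P0`
with `‖p.1 Ω - v n Ω‖ ≤ 1/(k+1)`, and its star), and `(A₁, β₁, B₁, c₁)` for `p₁` by `block_pair`.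
For `p ∈ P0` take `(A₀, β₀, B₀, c₀)` for the sequence `p, p₁ 0, p₁ 1, ...`; `ore_left` in `N'`
(`isST_of`): `P B₁ = Q B₀`, `P` injective; `uniq` for `κ = l (1-e) (P c₁ - Q c₀)`; conclude for `p`:
`P (l (1-e) (B₁ ξ - (l x c₁ - r x c₁))) = 0`. -/
theorem left_all' (S : Std H K) (Gr : Submodule ℂ ((H →L[ℂ] H) × K)) (hG : BClosed S Gr)
    (hUA : UA S Gr) (v : ℕ → H →L[ℂ] H) (hv : ∀ n, v n ∈ UM S) (e : H →L[ℂ] H)
    (he : IsStarProjection e) (heM : e ∈ S.M) (hec : ∀ x ∈ S.M, e * x = x * e)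
    (hw : ∀ ζ ω : H, Tendsto (fun n => ⟪ζ, v n ω⟫_ℂ) atTop (𝓝 ⟪ζ, e ω⟫_ℂ))
    (P0 : Set ((H →L[ℂ] H) × K)) (hP0 : ∀ p ∈ P0, p ∈ Gr)
    (hstar : ∀ p ∈ P0, ∃ q ∈ P0, q.1 = star p.1)
    (hdense : Dense {ξ : H | ∃ p ∈ P0, p.1 S.Ω = ξ}) :
    ∃ A ∈ NK S, ∃ β : K, ∃ B ∈ (NK S).commutant, ∃ c : K, (∀ ξ, A ξ = 0 → ξ = 0) ∧
      (∀ ξ, B ξ = 0 → ξ = 0) ∧ A c = B β ∧
      ∀ p ∈ P0, S.l (1 - e) (B p.2 - (S.l p.1 c - S.r p.1 c)) = 0 := by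
  obtain ⟨p₁, hp₁, hst, hcl⟩ := LALL_seq S v P0 hstar hdense
  obtain ⟨A₁, hA₁, β₁, B₁, hB₁, c₁, hA₁i, hB₁i, hAB₁, hrel₁⟩ :=
    block_pair S Gr hG hUA v hv e he heM hec hw p₁ (fun k => hP0 _ (hp₁ k))
  refine ⟨A₁, hA₁, β₁, B₁, hB₁, c₁, hA₁i, hB₁i, hAB₁, ?_⟩
  intro p hp
  obtain ⟨A₀, hA₀, β₀, B₀, hB₀, c₀, hA₀i, hB₀i, hAB₀, hrel₀⟩ :=
    block_pair S Gr hG hUA v hv e he heM hec hw (fun n => Nat.casesOn n p p₁) (by
      intro k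
      cases k with
      | zero => exact hP0 _ hp
      | succ k => exact hP0 _ (hp₁ k))
  have hrel₀0 : S.l (1 - e) (B₀ p.2 - (S.l p.1 c₀ - S.r p.1 c₀)) = 0 := hrel₀ 0
  have hrel₀1 : ∀ k, S.l (1 - e) (B₀ (p₁ k).2 - (S.l (p₁ k).1 c₀ - S.r (p₁ k).1 c₀)) = 0 :=
    fun k => hrel₀ (k + 1)
  have hST := (isST_of (NK S) (S.T.tp S.Ω S.Ω) (isTV_NK S)).2
  obtain ⟨P, hP, Q, hQ, hPi, hPQ⟩ := ore_left (NK S).commutant (S.T.tp S.Ω S.Ω) hST B₀ B₁ hB₀ hB₁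
    hB₀i
  have hPQ' : ∀ ξ, P (B₁ ξ) = Q (B₀ ξ) := fun ξ =>
    congrArg (fun B : K →L[ℂ] K => B ξ) hPQ
  have hfM : (1 - e) ∈ S.M := S.M.toStarSubalgebra.sub_mem S.M.toStarSubalgebra.one_mem heM
  have hff : (1 - e) * (1 - e) = 1 - e := he.isIdempotentElem.one_sub
  have hcl' : ∀ x ∈ S.M, ∀ ω, S.l x (S.l (1 - e) ω) = S.l (1 - e) (S.l x ω) := by
    intro x hx ω
    have h1 : S.l x * S.l (1 - e) = S.l (1 - e) * S.l x := by
      show S.T.L x * S.T.L (1 - e) = S.T.L (1 - e) * S.T.L x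
      rw [← map_mul, ← map_mul, mul_sub, sub_mul, mul_one, one_mul, hec x hx]
    exact congrArg (fun B : K →L[ℂ] K => B ω) h1
  have hcr' : ∀ x, ∀ ω, S.r x (S.l (1 - e) ω) = S.l (1 - e) (S.r x ω) := by
    intro x ω
    exact congrArg (fun B : K →L[ℂ] K => B ω) (S.T.LR_comm (1 - e) (S.ρ x)).symm
  -- the general identity
  have key : ∀ q : (H →L[ℂ] H) × K, q.1 ∈ S.M →
      S.l (1 - e) (B₀ q.2 - (S.l q.1 c₀ - S.r q.1 c₀)) = 0 →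
      P (S.l (1 - e) (B₁ q.2 - (S.l q.1 c₁ - S.r q.1 c₁))) =
        S.r q.1 (S.l (1 - e) (P c₁ - Q c₀)) - S.l q.1 (S.l (1 - e) (P c₁ - Q c₀)) := by
    intro q hq h0
    have h1 := LALL_move S hP hfM hq (B₁ q.2) c₁
    have h2 := LALL_move S hQ hfM hq (B₀ q.2) c₀
    rw [h0, map_zero] at h2
    rw [h1, hPQ', hcl' _ hq, hcr', map_sub (S.l q.1), map_sub (S.r q.1), map_sub (S.l (1 - e)),
      map_sub (S.l (1 - e))]
    have h3 : S.l (1 - e) (Q (B₀ q.2)) =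
        S.l (1 - e) (S.l q.1 (Q c₀)) - S.l (1 - e) (S.r q.1 (Q c₀)) := by
      rw [eq_comm, sub_eq_zero] at h2
      exact h2
    rw [h3]
    abel
  have hκ : S.l (1 - e) (P c₁ - Q c₀) = 0 := by
    refine uniq S v hv e he heM hw {x | ∃ m, (p₁ m).1 = x} ?_ ?_ hcl _ ?_ ?_
    · rintro x ⟨m, rfl⟩
      exact hG.mem _ (hP0 _ (hp₁ m))
    · rintro x ⟨m, rfl⟩
      exact hst m
    · have h1 : S.l (1 - e) * S.l (1 - e) = S.l (1 - e) := by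
        show S.T.L (1 - e) * S.T.L (1 - e) = S.T.L (1 - e)
        rw [← map_mul, hff]
      exact congrArg (fun B : K →L[ℂ] K => B (P c₁ - Q c₀)) h1
    · rintro x ⟨m, rfl⟩
      have h := key (p₁ m) (hG.mem _ (hP0 _ (hp₁ m))) (hrel₀1 m)
      rw [hrel₁ m, map_zero] at h
      rw [eq_comm, sub_eq_zero] at h
      exact h.symm
  have h := key p (hG.mem _ (hP0 _ hp)) hrel₀0
  rw [hκ, map_zero, map_zero, sub_zero] at h
  exact hPi _ h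

theorem left_all (S : Std H K) (Gr : Submodule ℂ ((H →L[ℂ] H) × K)) (hG : BClosed S Gr)
    (hUA : UA S Gr) (v : ℕ → H →L[ℂ] H) (hv : ∀ n, v n ∈ UM S) (e : H →L[ℂ] H)
    (he : IsStarProjection e) (heM : e ∈ S.M) (hec : ∀ x ∈ S.M, e * x = x * e)
    (hw : ∀ ζ ω : H, Tendsto (fun n => ⟪ζ, v n ω⟫_ℂ) atTop (𝓝 ⟪ζ, e ω⟫_ℂ))
    (D : StarSubalgebra ℂ (H →L[ℂ] H)) (hD : ∀ x ∈ D, x ∈ S.M) (d : D →ₗ[ℂ] K)
    (hd : ∀ x : D, ((x : H →L[ℂ] H), d x) ∈ Gr)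
    (hdense : Dense {ξ : H | ∃ x ∈ D, x S.Ω = ξ}) :
    ∃ A ∈ NK S, ∃ β : K, ∃ B ∈ (NK S).commutant, ∃ c : K, (∀ ξ, A ξ = 0 → ξ = 0) ∧
      (∀ ξ, B ξ = 0 → ξ = 0) ∧ A c = B β ∧
      ∀ x : D, S.l (1 - e) (B (d x) - (S.l x c - S.r x c)) = 0 := by
  obtain ⟨A, hA, β, B, hB, c, h1, h2, h3, h4⟩ := left_all' S Gr hG hUA v hv e he heM hec hw
    {p | ∃ x : D, p = ((x : H →L[ℂ] H), d x)}
    (by rintro p ⟨x, rfl⟩; exact hd x)
    (by rintro p ⟨x, rfl⟩; exact ⟨_, ⟨star x, rfl⟩, rfl⟩)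
    (by
      refine hdense.mono ?_
      rintro ξ ⟨x, hx, rfl⟩
      exact ⟨_, ⟨⟨x, hx⟩, rfl⟩, rfl⟩)
  exact ⟨A, hA, β, B, hB, c, h1, h2, h3, fun x => h4 _ ⟨x, rfl⟩⟩

end

end Pool.H62.UC
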