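import Pool.Agent.H62.UC.Flip
import Pool.Agent.H62.UC.LAll

/-!
# RIGHT: the right block, from `left_all'` for `S.flip`
-/

namespace Pool.H62.UC

open scoped InnerProductSpace TensorProduct ComplexConjugate
open Filter Topology

noncomputable section

variable {H : Type*} [NormedAddCommGroup H] [InnerProductSpace ℂ H] [CompleteSpace H]
variable {K : Type*} [NormedAddCommGroup K] [InnerProductSpace ℂ K] [CompleteSpace K]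

/-- weak convergence of the right multiplications -/
theorem right_weak (S : Std H K) (v : ℕ → H →L[ℂ] H) (hv : ∀ n, v n ∈ UM S) (e : H →L[ℂ] H)
    (he : IsStarProjection e) (hec : ∀ x ∈ S.M, e * x = x * e)
    (hw : ∀ ζ ω : H, Tendsto (fun n => ⟪ζ, v n ω⟫_ℂ) atTop (𝓝 ⟪ζ, e ω⟫_ℂ)) (ζ ω : H) :
    Tendsto (fun n => ⟪ζ, S.ρ (v n) ω⟫_ℂ) atTop (𝓝 ⟪ζ, e ω⟫_ℂ) := by
  have hen : ‖e‖ ≤ 1 := he.norm_le
  have hvn : ∀ n, ‖S.ρ (v n)‖ ≤ 1 := fun n =>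
    (S.ρ_norm_le (hv n).1).trans (UM_norm S (hv n))
  rw [Metric.tendsto_atTop]
  intro ε hε
  have hζ : 0 < ‖ζ‖ + 1 := by positivity
  have hδ : 0 < ε / (4 * (‖ζ‖ + 1)) := by positivity
  have hd := S.tv.cyclic ω
  rw [Metric.mem_closure_iff] at hd
  obtain ⟨b, ⟨x, hx, rfl⟩, hb⟩ := hd _ hδ
  rw [dist_eq_norm] at hb
  have h1 : Tendsto (fun n => ⟪ζ, S.ρ (v n) (x S.Ω)⟫_ℂ) atTop (𝓝 ⟪ζ, e (x S.Ω)⟫_ℂ) := by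
    have h2 := hw ((star x) ζ) S.Ω
    have h3 : ∀ n, ⟪ζ, S.ρ (v n) (x S.Ω)⟫_ℂ = ⟪(star x) ζ, v n S.Ω⟫_ℂ := by
      intro n
      rw [S.ρ_apply x hx _ (hv n).1, Std.basB_adj']
      rfl
    have h4 : ⟪ζ, e (x S.Ω)⟫_ℂ = ⟪(star x) ζ, e S.Ω⟫_ℂ := by
      rw [Std.basB_adj']
      have h5 := congrArg (fun A : H →L[ℂ] H => A S.Ω) (hec x hx)
      exact congrArg _ h5
    rw [h4]
    exact h2.congr fun n => (h3 n).symm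
  rw [Metric.tendsto_atTop] at h1
  obtain ⟨N, hN⟩ := h1 (ε / 2) (by positivity)
  refine ⟨N, fun n hn => ?_⟩
  have h2 := hN n hn
  rw [dist_eq_norm] at h2 ⊢
  have h3 : ⟪ζ, S.ρ (v n) ω⟫_ℂ - ⟪ζ, e ω⟫_ℂ = ⟪ζ, S.ρ (v n) (ω - x S.Ω)⟫_ℂ +
      (⟪ζ, S.ρ (v n) (x S.Ω)⟫_ℂ - ⟪ζ, e (x S.Ω)⟫_ℂ) - ⟪ζ, e (ω - x S.Ω)⟫_ℂ := by
    rw [map_sub, map_sub, inner_sub_right, inner_sub_right]
    ring
  have h4 : ∀ A : H →L[ℂ] H, ‖A‖ ≤ 1 → ‖⟪ζ, A (ω - x S.Ω)⟫_ℂ‖ ≤ ε / 4 := by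
    intro A hA
    calc ‖⟪ζ, A (ω - x S.Ω)⟫_ℂ‖ ≤ ‖ζ‖ * ‖A (ω - x S.Ω)‖ := norm_inner_le_norm _ _
      _ ≤ (‖ζ‖ + 1) * (ε / (4 * (‖ζ‖ + 1))) := by
          refine mul_le_mul (by linarith) ?_ (norm_nonneg _) hζ.le
          calc ‖A (ω - x S.Ω)‖ ≤ ‖A‖ * ‖ω - x S.Ω‖ := A.le_opNorm _
            _ ≤ 1 * ‖ω - x S.Ω‖ := mul_le_mul_of_nonneg_right hA (norm_nonneg _)
            _ ≤ ε / (4 * (‖ζ‖ + 1)) := by rw [one_mul]; exact hb.le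
      _ = ε / 4 := by field_simp
  have h5 := h4 _ (hvn n)
  have h6 := h4 _ hen
  rw [h3]
  calc ‖⟪ζ, S.ρ (v n) (ω - x S.Ω)⟫_ℂ +
      (⟪ζ, S.ρ (v n) (x S.Ω)⟫_ℂ - ⟪ζ, e (x S.Ω)⟫_ℂ) - ⟪ζ, e (ω - x S.Ω)⟫_ℂ‖
      ≤ ‖⟪ζ, S.ρ (v n) (ω - x S.Ω)⟫_ℂ‖ + ‖⟪ζ, S.ρ (v n) (x S.Ω)⟫_ℂ - ⟪ζ, e (x S.Ω)⟫_ℂ‖ +
        ‖⟪ζ, e (ω - x S.Ω)⟫_ℂ‖ :=
        (norm_sub_le _ _).trans (by gcongr; exact norm_add_le _ _)
    _ < ε := by linarith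

/-- Apply `left_all'` to `S.flip`, `flipGr S Gr`, `ρ (v n)`, `e = ρ e` (central) and
`{(ρ p.1, p.2) : p ∈ P0}`; `ρ (v n) → e` weakly: test on `x Ω`, `ρ (v n) x Ω = x v n Ω`. The result
is the relation with `(-c, -β)`. -/
theorem right_all (S : Std H K) (Gr : Submodule ℂ ((H →L[ℂ] H) × K)) (hG : BClosed S Gr)
    (hUA : UA S Gr) (v : ℕ → H →L[ℂ] H) (hv : ∀ n, v n ∈ UM S) (e : H →L[ℂ] H)
    (he : IsStarProjection e) (heM : e ∈ S.M) (hec : ∀ x ∈ S.M, e * x = x * e)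
    (hw : ∀ ζ ω : H, Tendsto (fun n => ⟪ζ, v n ω⟫_ℂ) atTop (𝓝 ⟪ζ, e ω⟫_ℂ))
    (P0 : Set ((H →L[ℂ] H) × K)) (hP0 : ∀ p ∈ P0, p ∈ Gr)
    (hstar : ∀ p ∈ P0, ∃ q ∈ P0, q.1 = star p.1)
    (hdense : Dense {ξ : H | ∃ p ∈ P0, p.1 S.Ω = ξ}) :
    ∃ A ∈ NK S, ∃ β : K, ∃ B ∈ (NK S).commutant, ∃ c : K, (∀ ξ, A ξ = 0 → ξ = 0) ∧
      (∀ ξ, B ξ = 0 → ξ = 0) ∧ A c = B β ∧
      ∀ p ∈ P0, S.r (1 - e) (B p.2 - (S.l p.1 c - S.r p.1 c)) = 0 := by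
  have heC : e ∈ S.flip.M := central_mem_commutant S hec
  have hrel := left_all' S.flip (flipGr S Gr) (flip_closed S Gr hG) (flip_UA S Gr hG hUA)
    (fun n => S.ρ (v n)) (fun n => UM_flip S (hv n)) e he heC
    (fun x hx => VonNeumannAlgebra.mem_commutant_iff.1 hx e heM)
    (fun ζ ω => right_weak S v hv e he hec hw ζ ω)
    {p | ∃ q ∈ P0, p = (S.ρ q.1, q.2)}
    (by
      rintro p ⟨q, hq, rfl⟩
      exact (mem_flipGr S Gr hG _).2 ⟨q, hP0 q hq, rfl⟩)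
    (by
      rintro p ⟨q, hq, rfl⟩
      obtain ⟨r, hr, hrq⟩ := hstar q hq
      refine ⟨(S.ρ r.1, r.2), ⟨r, hr, rfl⟩, ?_⟩
      change S.ρ r.1 = star (S.ρ q.1)
      rw [hrq, S.ρ_star (hG.mem q (hP0 q hq))])
    (by
      refine hdense.mono ?_
      rintro ξ ⟨p, hp, rfl⟩
      refine ⟨(S.ρ p.1, p.2), ⟨p, hp, rfl⟩, ?_⟩
      exact S.ρ_Ω (hG.mem p (hP0 p hp)))
  obtain ⟨A, hA, β, B, hB, c, hAi, hBi, hAB, hr⟩ := hrel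
  rw [NK_flip] at hA hB
  refine ⟨A, hA, -β, B, hB, -c, hAi, hBi, ?_, ?_⟩
  · rw [map_neg, map_neg, hAB]
  · intro p hp
    have hp1 := hG.mem p (hP0 p hp)
    have h1 := hr (S.ρ p.1, p.2) ⟨p, hp, rfl⟩
    have h2 : S.r (1 - e) = S.flip.l (1 - e) := by
      change S.T.R (S.ρ (1 - e)) = S.T.R (1 - e)
      have h3 : S.ρ (1 - e) = 1 - e := by
        refine ρ_central S (sub_mem S.one_mem heM) ?_
        intro x hx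
        rw [sub_mul, mul_sub, one_mul, mul_one, hec x hx]
      rw [h3]
    rw [h2]
    have h4 : B p.2 - (S.l p.1 (-c) - S.r p.1 (-c)) =
        B p.2 - (S.flip.l (S.ρ p.1) c - S.flip.r (S.ρ p.1) c) := by
      rw [flip_l S hp1, flip_r S hp1, map_neg, map_neg]
      abel
    rw [h4]
    exact h1

end

end Pool.H62.UC
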