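import Pool.Agent.H62.UC.Fin1
import Pool.Agent.H62.UC.Right
import Pool.Agent.H62.UC.Dec
import Pool.Agent.H62.UC.DecB
import Pool.Agent.H62.UC.Tcomp
import Pool.Agent.H62.UC.Atom
import Pool.Agent.H62.UC.Loc
import Pool.Agent.H62.UC.Blk
import Pool.Agent.H62.UC.AtBlk

/-!
# FIN2: the theorem for all finite von Neumann algebras
-/

namespace Pool.H62.UC

open scoped InnerProductSpace TensorProduct ComplexConjugate
open Filter Topology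

noncomputable section

variable {H : Type*} [NormedAddCommGroup H] [InnerProductSpace ℂ H] [CompleteSpace H]
variable {K : Type*} [NormedAddCommGroup K] [InnerProductSpace ℂ K] [CompleteSpace K]

/-- `dec_ultra`, `dec_seq`, `exists_gr`, `left_all'`, `right_all`, `central_compact`, `atoms`,
`loc_star`, `blk`, `at_block`, `combine` with `P0` the graph of `d`. -/
theorem general_pair (S : Std H K) (D : StarSubalgebra ℂ (H →L[ℂ] H)) (hD : ∀ x ∈ D, x ∈ S.M)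
    (hgen : ∀ T : H →L[ℂ] H, (∀ x ∈ D, x * T = T * x) → T ∈ S.M.commutant)
    (d : D →ₗ[ℂ] K)
    (leib : ∀ x y : D, d (x * y) = S.l (x : H →L[ℂ] H) (d y) + S.r (y : H →L[ℂ] H) (d x))
    (closable : ∀ ξ : K, ((0 : H), ξ) ∈ closure (dGraph S D d) → ξ = 0)
    (C₀ : ℝ) (hC₀ : 0 ≤ C₀)
    (hstar : ∀ x : D, ‖d (star x)‖ ≤ C₀ * (‖d x‖ + ‖(x : H →L[ℂ] H) S.Ω‖))
    (St : ℝ → H →L[ℂ] H) (hH : Heat (dGraph S D d) St)
    (hun : ∀ ε : ℝ, 0 < ε → ∃ t₀ : ℝ, 0 < t₀ ∧ ∀ t : ℝ, 0 < t → t ≤ t₀ → ∀ g ∈ S.M, ‖g‖ ≤ 1 →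
      ‖St t (g S.Ω) - g S.Ω‖ ≤ ε) :
    ∃ A ∈ NK S, ∃ β : K, ∃ B ∈ (NK S).commutant, ∃ c : K, (∀ ξ, A ξ = 0 → ξ = 0) ∧
      (∀ ξ, B ξ = 0 → ξ = 0) ∧ A c = B β ∧ ∀ x : D, B (d x) = S.l x c - S.r x c := by
  obtain ⟨Gr, hG, hUA, hd⟩ := exists_gr S D hD d leib closable C₀ hC₀ hstar St hH hun
  have hdense := dense_of_gen S D hgen
  obtain ⟨e, he, heM, hec, ⟨F, hF, hFw⟩, hcomp⟩ := dec_ultra S
  obtain ⟨v, hv, hw⟩ := dec_seq S e he heM hec F hF hFw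
  set P0 : Set ((H →L[ℂ] H) × K) := {p | ∃ x : D, p = ((x : H →L[ℂ] H), d x)} with hP0
  have hP0G : ∀ p ∈ P0, p ∈ Gr := by rintro p ⟨x, rfl⟩; exact hd x
  have hP0s : ∀ p ∈ P0, ∃ q ∈ P0, q.1 = star p.1 := by
    rintro p ⟨x, rfl⟩
    exact ⟨_, ⟨star x, rfl⟩, rfl⟩
  have hP0d : Dense {ξ : H | ∃ p ∈ P0, p.1 S.Ω = ξ} := by
    refine hdense.mono ?_
    rintro ξ ⟨x, hx, rfl⟩
    exact ⟨_, ⟨⟨x, hx⟩, rfl⟩, rfl⟩
  have hd1 : d 1 = 0 := by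
    have h := leib 1 1
    have e1 : ((1 : D) : H →L[ℂ] H) = 1 := rfl
    rw [mul_one, e1, Std.l_one, Std.r_one] at h
    simpa using h
  have h10 : ((1 : H →L[ℂ] H), (0 : K)) ∈ Gr := by
    have h := hd 1
    rw [hd1] at h
    exact h
  obtain ⟨T, hT, hTp, hTM, hTc, hTe, hker⟩ := central_compact S e he heM hec hcomp
  obtain ⟨z, hz, hzM, hzc, -, hzf, hzt⟩ := atoms S e he heM hec T hT hTp hTM hTc hTe hker
  have hblk : ∀ k, ∃ w ∈ S.M, (∀ x ∈ S.M, w * x = x * w) ∧ w.IsPositive ∧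
      (∀ ξ, w ξ = 0 → z k ξ = 0) ∧
      ∃ η : K, ∀ x : D, S.r w (S.l (z k) (S.r (z k) (d x))) =
        S.l (x : H →L[ℂ] H) η - S.r (x : H →L[ℂ] H) η := by
    intro k
    refine blk S (z k) (hz k) (hzM k) (hzc k) (hzf k) D hD hgen hdense d leib ?_
    intro x hx
    exact loc_star S Gr hG h10 (z k) (hz k) (hzM k) (hzc k) x (d x) (d (star x)) (hd x)
      (hd (star x)) hx
  choose w hwM hwc hwp hwk η hη using hblk
  have h3 := at_block S e he heM hec z w η hz hzM hzc hzt hwM hwc hwp hwk P0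
    (by rintro k p ⟨x, rfl⟩; exact hη k x)
  obtain ⟨A, hA, β, B, hB, c, hAi, hBi, hAc, hx⟩ := combine S e he heM hec P0
    (by rintro p ⟨x, rfl⟩; exact hD x x.2)
    (left_all' S Gr hG hUA v hv e he heM hec hw P0 hP0G hP0s hP0d)
    (right_all S Gr hG hUA v hv e he heM hec hw P0 hP0G hP0s hP0d) h3
  exact ⟨A, hA, β, B, hB, c, hAi, hBi, hAc, fun x => hx _ ⟨x, rfl⟩⟩

end

end Pool.H62.UC
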