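import Pool.Agent.H62.UC.TrigDefs

/-!
# TRIGA (`trig_approx`, `tcalc_norm_le`, `tcalc_sub_le`): bounded trigonometric approximation of the identity on `[-1,1]`, and its operator calculus

* scalar: let `f` be the 4-periodic triangle wave (`f t = t` on `[-1,1]`, `|f| ≤ 1`), a continuous
  function on `AddCircle 4`; `span_fourier_closure_eq_top` gives a trigonometric polynomial `p` with
  `|p - f| ≤ min ε 1`.
* operators: for self-adjoint `x`, `tcalc θ c x = ∑ c_j exp (i θ_j x)` is `cfc` of the scalar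
  function, so its norm is at most the supremum over the spectrum (contained in `ℝ`, and in `[-1,1]`
  if `‖x‖ ≤ 1`).
-/

namespace Pool.H62.UC

open scoped InnerProductSpace TensorProduct ComplexConjugate
open Filter Topology

noncomputable section


variable {H : Type*} [NormedAddCommGroup H] [InnerProductSpace ℂ H] [CompleteSpace H]

/-- the triangle wave of period `4` -/
private def trigA_w (t : ℝ) : ℂ := ((2 / Real.pi * Real.arcsin (Real.sin (Real.pi / 2 * t)) : ℝ) : ℂ)

private theorem trigA_periodic : Function.Periodic trigA_w 4 := by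
  intro t
  unfold trigA_w
  rw [show Real.pi / 2 * (t + 4) = Real.pi / 2 * t + 2 * Real.pi by ring, Real.sin_add_two_pi]

private theorem trigA_cont : Continuous trigA_w := by
  unfold trigA_w
  exact Complex.continuous_ofReal.comp (continuous_const.mul (Real.continuous_arcsin.comp
    (Real.continuous_sin.comp (continuous_const.mul continuous_id))))

private theorem trigA_le (t : ℝ) : ‖trigA_w t‖ ≤ 1 := by
  unfold trigA_w
  rw [Complex.norm_real, Real.norm_eq_abs, abs_mul, abs_of_pos (by positivity : 0 < 2 / Real.pi)]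
  have h1 : |Real.arcsin (Real.sin (Real.pi / 2 * t))| ≤ Real.pi / 2 :=
    abs_le.2 ⟨Real.neg_pi_div_two_le_arcsin _, Real.arcsin_le_pi_div_two _⟩
  calc 2 / Real.pi * |Real.arcsin (Real.sin (Real.pi / 2 * t))| ≤ 2 / Real.pi * (Real.pi / 2) :=
        mul_le_mul_of_nonneg_left h1 (by positivity)
    _ = 1 := by field_simp

private theorem trigA_eq (t : ℝ) (ht : |t| ≤ 1) : trigA_w t = t := by
  unfold trigA_w
  congr 1
  have h1 := abs_le.1 ht
  rw [Real.arcsin_sin]
  · field_simp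
  · nlinarith [Real.pi_pos]
  · nlinarith [Real.pi_pos]

theorem trig_approx (ε : ℝ) (hε : 0 < ε) : ∃ (n : ℕ) (θ : Fin n → ℝ) (c : Fin n → ℂ),
    (∀ t : ℝ, ‖tscal θ c t‖ ≤ 2) ∧ (∀ t : ℝ, |t| ≤ 1 → ‖tscal θ c t - t‖ ≤ ε) := by
  haveI : Fact (0 < (4 : ℝ)) := ⟨by norm_num⟩
  let f : C(AddCircle (4 : ℝ), ℂ) := ⟨trigA_periodic.lift, by
    refine continuous_coinduced_dom.2 ?_
    exact trigA_cont⟩
  have hf : ∀ t : ℝ, f (t : AddCircle (4 : ℝ)) = trigA_w t := fun t =>
    trigA_periodic.lift_coe t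
  have hmem : f ∈ (Submodule.span ℂ (Set.range (@fourier (4 : ℝ)))).topologicalClosure := by
    rw [span_fourier_closure_eq_top]
    exact Submodule.mem_top
  have hmem' : f ∈ closure ((Submodule.span ℂ (Set.range (@fourier (4 : ℝ))) :
      Submodule ℂ C(AddCircle (4 : ℝ), ℂ)) : Set C(AddCircle (4 : ℝ), ℂ)) := hmem
  obtain ⟨p, hp, hpf⟩ := Metric.mem_closure_iff.1 hmem' (min ε 1) (by positivity)
  rw [SetLike.mem_coe, Finsupp.mem_span_range_iff_exists_finsupp] at hp
  obtain ⟨d, rfl⟩ := hp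
  rw [dist_eq_norm] at hpf
  set g : C(AddCircle (4 : ℝ), ℂ) := d.sum (fun i a => a • fourier i) with hg
  -- enumerate the support
  let e := d.support.equivFin.symm
  refine ⟨d.support.card, fun j => 2 * Real.pi * ((e j : ℤ) : ℝ) / 4, fun j => d (e j), ?_⟩
  have hval : ∀ t : ℝ, tscal (fun j => 2 * Real.pi * ((e j : ℤ) : ℝ) / 4) (fun j => d (e j)) t =
      g (t : AddCircle (4 : ℝ)) := by
    intro t
    rw [hg, Finsupp.sum, ContinuousMap.sum_apply]
    unfold tscal
    rw [Equiv.sum_comp e (fun z : d.support => d z *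
      Complex.exp (Complex.I * ((2 * Real.pi * ((z : ℤ) : ℝ) / 4 * t : ℝ) : ℂ))),
      Finset.sum_coe_sort d.support (fun z : ℤ => d z *
      Complex.exp (Complex.I * ((2 * Real.pi * ((z : ℤ) : ℝ) / 4 * t : ℝ) : ℂ)))]
    refine Finset.sum_congr rfl fun z _ => ?_
    rw [ContinuousMap.smul_apply, fourier_coe_apply, smul_eq_mul]
    congr 2
    push_cast
    ring
  have hdiff : ∀ t : ℝ, ‖g (t : AddCircle (4 : ℝ)) - trigA_w t‖ ≤ min ε 1 := by
    intro t
    rw [← hf t, ← norm_neg, neg_sub]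
    exact (ContinuousMap.norm_coe_le_norm (f - g) (t : AddCircle (4 : ℝ))).trans hpf.le
  refine ⟨fun t => ?_, fun t ht => ?_⟩
  · rw [hval]
    have h1 := hdiff t
    have h2 := trigA_le t
    have h3 : ‖g (t : AddCircle (4 : ℝ))‖ ≤
        ‖g (t : AddCircle (4 : ℝ)) - trigA_w t‖ + ‖trigA_w t‖ := by
      simpa using norm_add_le (g (t : AddCircle (4 : ℝ)) - trigA_w t) (trigA_w t)
    have h4 : min ε 1 ≤ 1 := min_le_right _ _
    linarith
  · rw [hval, ← trigA_eq t ht]
    exact (hdiff t).trans (min_le_left _ _)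

private theorem trigA_uexp (θ : ℝ) (x : H →L[ℂ] H) (hx : IsSelfAdjoint x) :
    uexp θ x = cfc (fun z : ℂ => Complex.exp (Complex.I * (θ : ℂ) * z)) x := by
  have hxn : IsStarNormal x := hx.isStarNormal
  have h1 : IsStarNormal ((Complex.I * (θ : ℂ)) • x) := by
    refine ⟨?_⟩
    rw [star_smul]
    exact (hxn.star_comm_self.smul_left _).smul_right _
  unfold uexp
  rw [← CFC.complex_exp_eq_normedSpace_exp (a := (Complex.I * (θ : ℂ)) • x) h1]
  exact (cfc_comp_smul (Complex.I * (θ : ℂ)) Complex.exp x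
    (by exact Complex.continuous_exp.continuousOn) hxn).symm

private theorem trigA_tcalc {n : ℕ} (θ : Fin n → ℝ) (c : Fin n → ℂ) (x : H →L[ℂ] H)
    (hx : IsSelfAdjoint x) :
    tcalc θ c x = cfc (fun z : ℂ => ∑ j, c j * Complex.exp (Complex.I * (θ j : ℂ) * z)) x := by
  unfold tcalc
  have hc : ∀ j, Continuous (fun z : ℂ => Complex.exp (Complex.I * (θ j : ℂ) * z)) := fun j =>
    Complex.continuous_exp.comp (continuous_const.mul continuous_id)
  have h1 : (fun z : ℂ => ∑ j, c j * Complex.exp (Complex.I * (θ j : ℂ) * z)) =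
      ∑ j, (fun z : ℂ => c j * Complex.exp (Complex.I * (θ j : ℂ) * z)) := by
    funext z
    rw [Finset.sum_apply]
  rw [h1, cfc_sum_univ (fun j => fun z : ℂ => c j * Complex.exp (Complex.I * (θ j : ℂ) * z)) x
    (fun j => (continuous_const.mul (hc j)).continuousOn)]
  refine Finset.sum_congr rfl fun j _ => ?_
  rw [cfc_const_mul (c j) _ x (hc j).continuousOn, trigA_uexp (θ j) x hx]

private theorem trigA_tscal {n : ℕ} (θ : Fin n → ℝ) (c : Fin n → ℂ) (t : ℝ) :
    ∑ j, c j * Complex.exp (Complex.I * (θ j : ℂ) * (t : ℂ)) = tscal θ c t := by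
  unfold tscal
  refine Finset.sum_congr rfl fun j _ => ?_
  congr 2
  push_cast
  ring

theorem tcalc_norm_le {n : ℕ} (θ : Fin n → ℝ) (c : Fin n → ℂ) (x : H →L[ℂ] H)
    (hx : IsSelfAdjoint x) (B : ℝ) (hB : 0 ≤ B) (h : ∀ t : ℝ, ‖tscal θ c t‖ ≤ B) :
    ‖tcalc θ c x‖ ≤ B := by
  rw [trigA_tcalc θ c x hx]
  refine norm_cfc_le hB fun z hz => ?_
  have h1 := hx.mem_spectrum_eq_re hz
  rw [h1, trigA_tscal]
  exact h _

theorem tcalc_sub_le {n : ℕ} (θ : Fin n → ℝ) (c : Fin n → ℂ) (x : H →L[ℂ] H)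
    (hx : IsSelfAdjoint x) (hx1 : ‖x‖ ≤ 1) (ε : ℝ) (hε : 0 ≤ ε)
    (h : ∀ t : ℝ, |t| ≤ 1 → ‖tscal θ c t - t‖ ≤ ε) : ‖tcalc θ c x - x‖ ≤ ε := by
  have hxn : IsStarNormal x := hx.isStarNormal
  have h0 : cfc (fun z : ℂ => z) x = x := cfc_id' ℂ x hxn
  have hc : Continuous (fun z : ℂ => ∑ j, c j * Complex.exp (Complex.I * (θ j : ℂ) * z)) :=
    continuous_finsetSum _ fun j _ => continuous_const.mul
      (Complex.continuous_exp.comp (continuous_const.mul continuous_id))
  have h2 : tcalc θ c x - x = cfc (fun z : ℂ =>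
      (∑ j, c j * Complex.exp (Complex.I * (θ j : ℂ) * z)) - z) x := by
    rw [cfc_sub (fun z : ℂ => ∑ j, c j * Complex.exp (Complex.I * (θ j : ℂ) * z)) (fun z => z) x
      hc.continuousOn continuousOn_id, ← trigA_tcalc θ c x hx, h0]
  rw [h2]
  refine norm_cfc_le hε fun z hz => ?_
  have h1 := hx.mem_spectrum_eq_re hz
  have h3 : ‖z‖ ≤ 1 := by
    refine (spectrum.norm_le_norm_mul_of_mem hz).trans ?_
    exact mul_le_one₀ hx1 (norm_nonneg _) ContinuousLinearMap.norm_id_le
  have h4 : |z.re| ≤ 1 := (Complex.abs_re_le_norm z).trans h3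
  rw [h1, trigA_tscal]
  exact h _ h4

end

end Pool.H62.UC
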