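import Pool.Agent.H62.UC.ExpD
import Pool.Agent.H62.UC.ExpL
import Pool.Agent.H62.UC.TrigA

/-!
# APPR: from `‖·‖₂`-approximation without norm bounds to the property `UA`

Let `g ∈ M`, `‖g‖ ≤ 1`, `g = g₁ + i g₂` with self-adjoint contractions.  Given `ε`, choose a
trigonometric polynomial `(θ, c)` with `trig_approx (ε/8)`, then `δ` with `(∑ |c_j| |θ_j|) δ ≤ ε/8`,
then `p ∈ P0` with `‖p.1 Ω - g₁ Ω‖ ≤ δ`, `‖p.2‖ ≤ C δ`; `x = (p.1 + p.1*)/2` is self-adjoint,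
`(x, ξ) ∈ Gr` with `‖ξ‖` bounded (hypothesis `hstar`, `‖p.1 Ω‖ ≤ 1 + δ`), `‖(x - g₁) Ω‖ ≤ δ`
(`Std.norm_star`).  `Y₁ = tcalc θ c x`: `‖Y₁‖ ≤ 2`,
`‖(Y₁ - g₁) Ω‖ ≤ ‖(tcalc x - tcalc g₁) Ω‖ + ‖tcalc g₁ - g₁‖ ≤ ε/8 + ε/8`, derivative bounded by
`∑ |c_j| |θ_j| ‖ξ‖`.  `Y = Y₁ + i Y₂`.
-/

namespace Pool.H62.UC

open scoped InnerProductSpace TensorProduct ComplexConjugate
open Filter Topology

noncomputable section

variable {H : Type*} [NormedAddCommGroup H] [InnerProductSpace ℂ H] [CompleteSpace H]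
variable {K : Type*} [NormedAddCommGroup K] [InnerProductSpace ℂ K] [CompleteSpace K]

theorem APPR_half {x y : H →L[ℂ] H} : ‖(2⁻¹ : ℂ) • (x + y)‖ ≤ 2⁻¹ * (‖x‖ + ‖y‖) := by
  rw [norm_smul]
  have h : ‖(2⁻¹ : ℂ)‖ = (2⁻¹ : ℝ) := by simp
  rw [h]
  exact mul_le_mul_of_nonneg_left (norm_add_le _ _) (by norm_num)

theorem APPR_sa (S : Std H K) (Gr : Submodule ℂ ((H →L[ℂ] H) × K)) (hG : BClosed S Gr)
    (h1 : ((1 : H →L[ℂ] H), (0 : K)) ∈ Gr) (P0 : Set ((H →L[ℂ] H) × K))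
    (hP0 : ∀ p ∈ P0, p ∈ Gr) (C₀ : ℝ) (hC₀ : 0 ≤ C₀)
    (hstar : ∀ p ∈ P0, ∃ q ∈ Gr, q.1 = star p.1 ∧ ‖q.2‖ ≤ C₀ * (‖p.2‖ + ‖p.1 S.Ω‖))
    (happ : ∀ ε : ℝ, 0 < ε → ∃ C : ℝ, ∀ g ∈ S.M, ‖g‖ ≤ 1 → ∃ p ∈ P0,
      ‖p.1 S.Ω - g S.Ω‖ ≤ ε ∧ ‖p.2‖ ≤ C) (ε : ℝ) (hε : 0 < ε) :
    ∃ C : ℝ, ∀ g ∈ S.M, IsSelfAdjoint g → ‖g‖ ≤ 1 →
      ∃ p ∈ Gr, ‖p.1‖ ≤ 2 ∧ ‖p.1 S.Ω - g S.Ω‖ ≤ ε ∧ ‖p.2‖ ≤ C := by
  obtain ⟨n, θ, c, ht1, ht2⟩ := trig_approx (ε / 2) (by positivity)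
  set A : ℝ := ∑ j, ‖c j‖ * |θ j| with hA
  have hA0 : 0 ≤ A := Finset.sum_nonneg (fun j _ => by positivity)
  set δ : ℝ := ε / (2 * (A + 1)) with hδdef
  have hδ : 0 < δ := by positivity
  have hAδ : A * δ ≤ ε / 2 := by
    have h2 : (A + 1) * δ = ε / 2 := by
      rw [hδdef]
      field_simp
    have h3 : A * δ ≤ (A + 1) * δ := mul_le_mul_of_nonneg_right (by linarith) hδ.le
    linarith
  obtain ⟨C, hC⟩ := happ δ hδ
  refine ⟨A * (2⁻¹ * (C + C₀ * (C + (1 + δ)))), ?_⟩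
  intro g hg hgs hg1
  obtain ⟨p, hp, hp1, hp2⟩ := hC g hg hg1
  obtain ⟨q, hq, hq1, hq2⟩ := hstar p hp
  have hpG := hP0 p hp
  have hpM : p.1 ∈ S.M := hG.mem p hpG
  have hqM : q.1 ∈ S.M := hG.mem q hq
  have hgΩ : ‖g S.Ω‖ ≤ 1 := (S.norm_le_norm g).trans hg1
  have hpΩ : ‖p.1 S.Ω‖ ≤ 1 + δ := by
    have h2 : p.1 S.Ω = (p.1 S.Ω - g S.Ω) + g S.Ω := by abel
    calc ‖p.1 S.Ω‖ = ‖(p.1 S.Ω - g S.Ω) + g S.Ω‖ := by rw [← h2]
      _ ≤ ‖p.1 S.Ω - g S.Ω‖ + ‖g S.Ω‖ := norm_add_le _ _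
      _ ≤ 1 + δ := by linarith
  set x : H →L[ℂ] H := (2⁻¹ : ℂ) • (p.1 + q.1) with hx
  set ξ : K := (2⁻¹ : ℂ) • (p.2 + q.2) with hξ
  have hxξ : (x, ξ) ∈ Gr := by
    have h2 : (2⁻¹ : ℂ) • (p + q) ∈ Gr := Gr.smul_mem _ (Gr.add_mem hpG hq)
    exact h2
  have hxs : IsSelfAdjoint x := by
    show star x = x
    rw [hx, hq1, star_smul, star_add, star_star, add_comm]
    congr 1
    simp
  have hξn : ‖ξ‖ ≤ 2⁻¹ * (C + C₀ * (C + (1 + δ))) := by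
    rw [hξ, norm_smul]
    have h3 : ‖(2⁻¹ : ℂ)‖ = (2⁻¹ : ℝ) := by simp
    rw [h3]
    refine mul_le_mul_of_nonneg_left ?_ (by norm_num)
    refine (norm_add_le _ _).trans (add_le_add hp2 (hq2.trans ?_))
    exact mul_le_mul_of_nonneg_left (add_le_add hp2 hpΩ) hC₀
  have hxM : x ∈ S.M := hG.mem _ hxξ
  have hxg : ‖(x - g) S.Ω‖ ≤ δ := by
    have h2 : x - g = (2⁻¹ : ℂ) • ((p.1 - g) + star (p.1 - g)) := by
      rw [hx, hq1, star_sub, hgs.star_eq, smul_add, smul_add, smul_sub, smul_sub]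
      have h3 : g = (2⁻¹ : ℂ) • g + (2⁻¹ : ℂ) • g := by
        rw [← add_smul]
        norm_num
      nth_rewrite 1 [h3]
      abel
    have h4 : ‖(star (p.1 - g)) S.Ω‖ = ‖(p.1 - g) S.Ω‖ :=
      S.norm_star (sub_mem hpM hg)
    have h5 : ‖(p.1 - g) S.Ω‖ ≤ δ := hp1
    rw [h2]
    show ‖(2⁻¹ : ℂ) • ((p.1 - g) S.Ω + (star (p.1 - g)) S.Ω)‖ ≤ δ
    rw [norm_smul]
    have h3 : ‖(2⁻¹ : ℂ)‖ = (2⁻¹ : ℝ) := by simp
    rw [h3]
    have h6 := norm_add_le ((p.1 - g) S.Ω) ((star (p.1 - g)) S.Ω)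
    linarith
  choose d hd1 hd2 using fun j => exp_mem hG h1 x ξ hxξ hxs (θ j)
  refine ⟨(tcalc θ c x, ∑ j, c j • d j), ?_, ?_, ?_, ?_⟩
  · have h2 : (tcalc θ c x, ∑ j, c j • d j) = ∑ j, c j • ((uexp (θ j) x, d j) :
        (H →L[ℂ] H) × K) := by
      refine Prod.ext ?_ ?_
      · rw [Prod.fst_sum]
        rfl
      · rw [Prod.snd_sum]
        rfl
    rw [h2]
    exact Gr.sum_mem (fun j _ => Gr.smul_mem _ (hd1 j))
  · exact tcalc_norm_le θ c x hxs 2 (by norm_num) ht1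
  · show ‖(tcalc θ c x) S.Ω - g S.Ω‖ ≤ ε
    have h2 : (tcalc θ c x) S.Ω - g S.Ω =
        (∑ j, c j • ((uexp (θ j) x - uexp (θ j) g) S.Ω)) + (tcalc θ c g - g) S.Ω := by
      have h3 : (tcalc θ c x) S.Ω - (tcalc θ c g) S.Ω =
          ∑ j, c j • ((uexp (θ j) x - uexp (θ j) g) S.Ω) := by
        unfold tcalc
        rw [ContinuousLinearMap.sum_apply, ContinuousLinearMap.sum_apply,
          ← Finset.sum_sub_distrib]
        refine Finset.sum_congr rfl (fun j _ => ?_)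
        rw [ContinuousLinearMap.smul_apply, ContinuousLinearMap.smul_apply,
          ContinuousLinearMap.sub_apply, smul_sub]
      rw [← h3, ContinuousLinearMap.sub_apply]
      abel
    have h4 : ‖∑ j, c j • ((uexp (θ j) x - uexp (θ j) g) S.Ω)‖ ≤ A * δ := by
      rw [hA, Finset.sum_mul]
      refine norm_sum_le_of_le _ (fun j _ => ?_)
      rw [norm_smul, mul_assoc]
      refine mul_le_mul_of_nonneg_left ?_ (norm_nonneg _)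
      exact (exp_lip S x g hxM hg hxs hgs (θ j)).trans
        (mul_le_mul_of_nonneg_left hxg (abs_nonneg _))
    have h5 : ‖(tcalc θ c g - g) S.Ω‖ ≤ ε / 2 :=
      (S.norm_le_norm _).trans (tcalc_sub_le θ c g hgs hg1 (ε / 2) (by positivity) ht2)
    rw [h2]
    refine (norm_add_le _ _).trans ?_
    linarith
  · show ‖∑ j, c j • d j‖ ≤ _
    rw [hA, Finset.sum_mul]
    refine norm_sum_le_of_le _ (fun j _ => ?_)
    rw [norm_smul, mul_assoc]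
    refine mul_le_mul_of_nonneg_left ?_ (norm_nonneg _)
    exact (hd2 j).trans (mul_le_mul_of_nonneg_left hξn (abs_nonneg _))

theorem ua_of (S : Std H K) (Gr : Submodule ℂ ((H →L[ℂ] H) × K)) (hG : BClosed S Gr)
    (h1 : ((1 : H →L[ℂ] H), (0 : K)) ∈ Gr) (P0 : Set ((H →L[ℂ] H) × K))
    (hP0 : ∀ p ∈ P0, p ∈ Gr) (C₀ : ℝ) (hC₀ : 0 ≤ C₀)
    (hstar : ∀ p ∈ P0, ∃ q ∈ Gr, q.1 = star p.1 ∧ ‖q.2‖ ≤ C₀ * (‖p.2‖ + ‖p.1 S.Ω‖))
    (happ : ∀ ε : ℝ, 0 < ε → ∃ C : ℝ, ∀ g ∈ S.M, ‖g‖ ≤ 1 → ∃ p ∈ P0,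
      ‖p.1 S.Ω - g S.Ω‖ ≤ ε ∧ ‖p.2‖ ≤ C) :
    UA S Gr := by
  intro ε hε
  obtain ⟨C, hC⟩ := APPR_sa S Gr hG h1 P0 hP0 C₀ hC₀ hstar happ (ε / 2) (by positivity)
  refine ⟨C + C, ?_⟩
  intro g hg hg1
  have hgsM : star g ∈ S.M := star_mem hg
  have hgs1 : ‖star g‖ ≤ 1 := by rw [norm_star]; exact hg1
  set g1 : H →L[ℂ] H := (2⁻¹ : ℂ) • (g + star g) with hg1d
  set g2 : H →L[ℂ] H := (2⁻¹ : ℂ) • ((-Complex.I) • g + Complex.I • star g) with hg2d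
  have hM1 : g1 ∈ S.M := S.smul_mem _ (add_mem hg hgsM)
  have hM2 : g2 ∈ S.M := S.smul_mem _ (add_mem (S.smul_mem _ hg) (S.smul_mem _ hgsM))
  have hs1 : IsSelfAdjoint g1 := by
    show star g1 = g1
    rw [hg1d, star_smul, star_add, star_star, add_comm]
    congr 1
    simp
  have hs2 : IsSelfAdjoint g2 := by
    show star g2 = g2
    rw [hg2d, star_smul, star_add, star_smul, star_smul, star_star, add_comm]
    congr 1
    · simp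
    · simp
  have hn1 : ‖g1‖ ≤ 1 := by
    refine APPR_half.trans ?_
    linarith
  have hn2 : ‖g2‖ ≤ 1 := by
    refine APPR_half.trans ?_
    have h3 : ‖(-Complex.I) • g‖ = ‖g‖ := by rw [norm_smul]; simp
    have h4 : ‖Complex.I • star g‖ = ‖star g‖ := by rw [norm_smul]; simp
    rw [h3, h4]
    linarith
  have hgg : g = g1 + Complex.I • g2 := by
    rw [hg1d, hg2d, smul_comm Complex.I, ← smul_add, smul_add Complex.I, smul_smul, smul_smul]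
    simp only [mul_neg, Complex.I_mul_I, neg_neg, one_smul, neg_smul]
    have h3 : g + star g + (g + -star g) = (2 : ℂ) • g := by
      rw [two_smul]
      abel
    rw [h3, smul_smul]
    norm_num
  obtain ⟨p, hp, hp1, hp2, hp3⟩ := hC g1 hM1 hs1 hn1
  obtain ⟨q, hq, hq1, hq2, hq3⟩ := hC g2 hM2 hs2 hn2
  refine ⟨p + Complex.I • q, Gr.add_mem hp (Gr.smul_mem _ hq), ?_, ?_, ?_⟩
  · show ‖p.1 + Complex.I • q.1‖ ≤ 5
    refine (norm_add_le _ _).trans ?_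
    rw [norm_smul, Complex.norm_I, one_mul]
    linarith
  · show ‖(p.1 + Complex.I • q.1) S.Ω - g S.Ω‖ ≤ ε
    have h3 : (p.1 + Complex.I • q.1) S.Ω - g S.Ω =
        (p.1 S.Ω - g1 S.Ω) + Complex.I • (q.1 S.Ω - g2 S.Ω) := by
      have h4 : g S.Ω = g1 S.Ω + Complex.I • (g2 S.Ω) := by
        conv_lhs => rw [hgg]
        rfl
      rw [h4, ContinuousLinearMap.add_apply, ContinuousLinearMap.smul_apply, smul_sub]
      abel
    rw [h3]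
    refine (norm_add_le _ _).trans ?_
    rw [norm_smul, Complex.norm_I, one_mul]
    linarith
  · show ‖p.2 + Complex.I • q.2‖ ≤ C + C
    refine (norm_add_le _ _).trans ?_
    rw [norm_smul, Complex.norm_I, one_mul]
    linarith

end

end Pool.H62.UC
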