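import Pool.Agent.H62.UC.Bas

/-!
# HEAT: uniform convergence of the heat semigroup gives uniform approximation in the form domain

For `ξ = g Ω` put `y = t⁻¹ ∫_0^t S_r ξ dr` (`r ↦ S_r ξ` is continuous on `[0, ∞)`).  Then
`s⁻¹ (y - S_s y) → ω := t⁻¹ (ξ - S_t ξ)` as `s → 0+`, so `IsDelta G y ω`: there is `η` with
`(y, η) ∈ closure G` and `⟪η, p.2⟫ = ⟪ω, p.1⟫` on `G`, hence on `closure G`, hence
`‖η‖² = ⟪ω, y⟫ ≤ ‖ω‖ ‖y‖ ≤ 2/t`.  And `‖y - ξ‖ ≤ sup_{r ≤ t} ‖S_r ξ - ξ‖`.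
Finally approximate `(y, η)` by an element of `G`.
-/

namespace Pool.H62.UC

open scoped InnerProductSpace TensorProduct ComplexConjugate
open Filter Topology

noncomputable section

variable {H : Type*} [NormedAddCommGroup H] [InnerProductSpace ℂ H] [CompleteSpace H]
variable {K : Type*} [NormedAddCommGroup K] [InnerProductSpace ℂ K] [CompleteSpace K]

/-- For `G` the graph of a densely defined closable operator `∂`: `ξ` is in the domain of
`Δ = ∂* ∂̄` and `Δ ξ = ω`. -/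
def IsDelta (G : Set (H × K)) (ξ ω : H) : Prop :=
  ∃ ζ : K, (ξ, ζ) ∈ closure G ∧ ∀ p ∈ G, ⟪ζ, p.2⟫_ℂ = ⟪ω, p.1⟫_ℂ

/-- `St` is the strongly continuous contraction semigroup `exp (-t Δ)` with generator `-Δ`,
`Δ = ∂* ∂̄`, for the closable operator `∂` with graph `G`. -/
structure Heat (G : Set (H × K)) (St : ℝ → H →L[ℂ] H) : Prop where
  zero : St 0 = 1
  add : ∀ s t, 0 ≤ s → 0 ≤ t → St (s + t) = St s * St t
  contr : ∀ t, 0 ≤ t → ‖St t‖ ≤ 1
  cont : ∀ ξ, Tendsto (fun t => St t ξ) (𝓝[>] 0) (𝓝 ξ)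
  gen : ∀ ξ ω, Tendsto (fun t : ℝ => ((t : ℂ)⁻¹) • (ξ - St t ξ)) (𝓝[>] 0) (𝓝 ω) ↔ IsDelta G ξ ω

theorem heat_dist {G : Set (H × K)} {St : ℝ → H →L[ℂ] H} (hH : Heat G St) (ξ : H) {a b : ℝ}
    (ha : 0 ≤ a) (hab : a ≤ b) : ‖St b ξ - St a ξ‖ ≤ ‖St (b - a) ξ - ξ‖ := by
  have h1 : St b ξ = St a (St (b - a) ξ) := by
    have h2 := hH.add a (b - a) ha (sub_nonneg.2 hab)
    rw [add_sub_cancel] at h2
    rw [h2]
    rfl
  rw [h1, ← map_sub]
  refine ((St a).le_opNorm _).trans ?_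
  exact mul_le_of_le_one_left (norm_nonneg _) (hH.contr a ha)

theorem heat_cont {G : Set (H × K)} {St : ℝ → H →L[ℂ] H} (hH : Heat G St) (ξ : H) :
    Continuous (fun r : ℝ => St (max r 0) ξ) := by
  rw [Metric.continuous_iff]
  intro b ε hε
  have h1 := hH.cont ξ
  rw [Metric.tendsto_nhdsWithin_nhds] at h1
  obtain ⟨δ, hδ, h2⟩ := h1 ε hε
  have h3 : ∀ s : ℝ, 0 ≤ s → s < δ → ‖St s ξ - ξ‖ < ε := by
    intro s hs hsδ
    rcases hs.eq_or_lt with h | h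
    · rw [← h, hH.zero]
      simpa using hε
    · have h4 := h2 (x := s) h (by rw [Real.dist_eq, sub_zero, abs_of_pos h]; exact hsδ)
      rwa [dist_eq_norm] at h4
  refine ⟨δ, hδ, fun a hab => ?_⟩
  rw [Real.dist_eq] at hab
  have h5 : |max a 0 - max b 0| < δ := (abs_max_sub_max_le_abs a b 0).trans_lt hab
  rcases le_total (max a 0) (max b 0) with h | h
  · rw [dist_comm, dist_eq_norm]
    refine (heat_dist hH ξ (le_max_right _ _) h).trans_lt (h3 _ (sub_nonneg.2 h) ?_)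
    rwa [abs_sub_comm, abs_of_nonneg (sub_nonneg.2 h)] at h5
  · rw [dist_eq_norm]
    refine (heat_dist hH ξ (le_max_right _ _) h).trans_lt (h3 _ (sub_nonneg.2 h) ?_)
    rwa [abs_of_nonneg (sub_nonneg.2 h)] at h5

theorem heat_step {G : Set (H × K)} {St : ℝ → H →L[ℂ] H} (hH : Heat G St) {t : ℝ} (ht : 0 < t)
    (ξ : H) (hξ : ‖ξ‖ ≤ 1) {ε : ℝ} (hε : 0 < ε)
    (hun : ∀ r : ℝ, 0 < r → r ≤ t → ‖St r ξ - ξ‖ ≤ ε / 2) :
    ∃ p ∈ G, ‖p.1 - ξ‖ ≤ ε ∧ ‖p.2‖ ≤ Real.sqrt (2 / t) + 1 := by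
  set f : ℝ → H := fun r => St (max r 0) ξ with hf
  have hfc : Continuous f := heat_cont hH ξ
  have hfn : ∀ r, ‖f r‖ ≤ 1 := by
    intro r
    refine ((St (max r 0)).le_opNorm ξ).trans ?_
    exact mul_le_one₀ (hH.contr _ (le_max_right _ _)) (norm_nonneg _) hξ
  have hf0 : f 0 = ξ := by
    simp [hf, hH.zero]
  set F : ℝ → H := fun u => ∫ r in (0 : ℝ)..u, f r with hF
  have hFd : ∀ u, HasDerivAt F (f u) u := fun u => (hfc.integral_hasStrictDerivAt 0 u).hasDerivAt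
  have hF0 : F 0 = 0 := by simp [hF]
  set y : H := ((t : ℂ)⁻¹) • F t with hy
  -- the semigroup acts on the integral
  have hSF : ∀ s : ℝ, 0 < s → St s (F t) = F (t + s) - F s := by
    intro s hs
    have h1 : St s (F t) = ∫ r in (0 : ℝ)..t, St s (f r) :=
      ((St s).intervalIntegral_comp_comm (hfc.intervalIntegrable 0 t)).symm
    have h2 : ∫ r in (0 : ℝ)..t, St s (f r) = ∫ r in (0 : ℝ)..t, f (r + s) := by
      refine intervalIntegral.integral_congr fun r hr => ?_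
      rw [Set.uIcc_of_le ht.le] at hr
      have h3 : f (r + s) = St (s + r) ξ := by
        simp only [hf]
        rw [max_eq_left (by linarith [hr.1]), add_comm]
      have h4 : f r = St r ξ := by
        simp only [hf]
        rw [max_eq_left hr.1]
      change St s (f r) = f (r + s)
      rw [h3, h4, hH.add s r hs.le hr.1]
      rfl
    rw [h1, h2, intervalIntegral.integral_comp_add_right (fun r => f r) s, zero_add]
    rw [hF]
    exact (intervalIntegral.integral_interval_sub_left (hfc.intervalIntegrable _ _)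
      (hfc.intervalIntegrable _ _)).symm
  set ω : H := ((t : ℂ)⁻¹) • (ξ - St t ξ) with hω
  have hft : f t = St t ξ := by
    simp only [hf]
    rw [max_eq_left ht.le]
  have hlim : Tendsto (fun s : ℝ => ((s : ℂ)⁻¹) • (y - St s y)) (𝓝[>] 0) (𝓝 ω) := by
    have h1 : HasDerivAt (fun s : ℝ => F t - F (t + s) + F s) (0 - f t + f 0) 0 := by
      have h2 : HasDerivAt (fun s : ℝ => F (t + s)) (f t) 0 := by
        have h3 := (hFd (t + 0)).comp_const_add t 0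
        rwa [add_zero] at h3
      exact ((hasDerivAt_const (0 : ℝ) (F t)).sub h2).add (hFd 0)
    rw [hasDerivAt_iff_tendsto_slope_zero] at h1
    have h4 := (h1.mono_left (nhdsWithin_mono 0 (fun s (hs : 0 < s) => ne_of_gt hs))).const_smul
      ((t : ℂ)⁻¹)
    have h5 : ((t : ℂ)⁻¹) • (0 - f t + f 0) = ω := by
      rw [hω, hft, hf0]
      congr 1
      abel
    rw [h5] at h4
    refine h4.congr' ?_
    filter_upwards [self_mem_nhdsWithin] with s hs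
    have hs' : (0 : ℝ) < s := hs
    simp only [add_zero, zero_add, hF0, sub_self]
    have h6 : St s y = ((t : ℂ)⁻¹) • (F (t + s) - F s) := by
      rw [hy, map_smul, hSF s hs']
    rw [h6, hy, ← smul_sub, smul_comm, ← Complex.coe_smul, Complex.ofReal_inv]
    congr 2
    abel
  obtain ⟨ζ, hζ, hζG⟩ := (hH.gen y ω).1 hlim
  have hζζ : ⟪ζ, ζ⟫_ℂ = ⟪ω, y⟫_ℂ := by
    have h1 : IsClosed {p : H × K | ⟪ζ, p.2⟫_ℂ = ⟪ω, p.1⟫_ℂ} :=
      isClosed_eq (by fun_prop) (by fun_prop)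
    exact closure_minimal (fun p hp => hζG p hp) h1 hζ
  have hFn : ‖F t‖ ≤ t := by
    have h1 := intervalIntegral.norm_integral_le_of_norm_le_const (a := 0) (b := t) (f := f)
      (C := 1) (fun r _ => hfn r)
    rwa [sub_zero, abs_of_pos ht, one_mul] at h1
  have htn : ‖((t : ℂ)⁻¹)‖ = t⁻¹ := by
    rw [norm_inv, Complex.norm_real, Real.norm_of_nonneg ht.le]
  have hyn : ‖y‖ ≤ 1 := by
    rw [hy, norm_smul, htn, inv_mul_le_iff₀ ht, mul_one]
    exact hFn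
  have hωn : ‖ω‖ ≤ 2 / t := by
    rw [hω, norm_smul, htn, inv_mul_eq_div]
    refine div_le_div_of_nonneg_right ?_ ht.le
    refine (norm_sub_le _ _).trans ?_
    have := hfn t
    rw [hft] at this
    linarith
  have hζn : ‖ζ‖ ≤ Real.sqrt (2 / t) := by
    apply Real.le_sqrt_of_sq_le
    have h1 : ‖ζ‖ ^ 2 = ‖⟪ζ, ζ⟫_ℂ‖ := by
      rw [inner_self_eq_norm_sq_to_K]
      simp
    rw [h1, hζζ]
    refine (norm_inner_le_norm _ _).trans ?_
    calc ‖ω‖ * ‖y‖ ≤ ‖ω‖ * 1 := mul_le_mul_of_nonneg_left hyn (norm_nonneg _)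
      _ ≤ 2 / t := by rw [mul_one]; exact hωn
  have hyξ : ‖y - ξ‖ ≤ ε / 2 := by
    have h1 : F t - (t : ℂ) • ξ = ∫ r in (0 : ℝ)..t, (f r - ξ) := by
      rw [intervalIntegral.integral_sub (hfc.intervalIntegrable _ _)
        (continuous_const.intervalIntegrable _ _), intervalIntegral.integral_const, sub_zero]
      rfl
    have h2 : ‖∫ r in (0 : ℝ)..t, (f r - ξ)‖ ≤ ε / 2 * |t - 0| := by
      refine intervalIntegral.norm_integral_le_of_norm_le_const fun r hr => ?_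
      rw [Set.uIoc_of_le ht.le] at hr
      have h3 : f r = St r ξ := by
        simp only [hf]
        rw [max_eq_left hr.1.le]
      rw [h3]
      exact hun r hr.1 hr.2
    have ht0 : (t : ℂ) ≠ 0 := by exact_mod_cast ht.ne'
    have h4 : y - ξ = ((t : ℂ)⁻¹) • (F t - (t : ℂ) • ξ) := by
      rw [smul_sub, smul_smul, inv_mul_cancel₀ ht0, one_smul]
    rw [h4, norm_smul, htn, h1, inv_mul_le_iff₀ ht]
    rw [sub_zero, abs_of_pos ht] at h2
    linarith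
  obtain ⟨p, hp, hpd⟩ := Metric.mem_closure_iff.1 hζ (min (ε / 2) 1) (lt_min (half_pos hε) one_pos)
  have h1 : dist y p.1 < min (ε / 2) 1 := lt_of_le_of_lt (le_max_left _ _) hpd
  have h2 : dist ζ p.2 < min (ε / 2) 1 := lt_of_le_of_lt (le_max_right _ _) hpd
  refine ⟨p, hp, ?_, ?_⟩
  · have h3 := norm_sub_le_norm_sub_add_norm_sub p.1 y ξ
    rw [dist_comm, dist_eq_norm] at h1
    linarith [min_le_left (ε / 2) 1]
  · have h3 : ‖p.2‖ ≤ ‖ζ‖ + ‖p.2 - ζ‖ := by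
      have := norm_add_le ζ (p.2 - ζ)
      rwa [add_sub_cancel] at this
    rw [dist_comm, dist_eq_norm] at h2
    linarith [min_le_right (ε / 2) 1]

theorem heat_approx (S : Std H K) (G : Set (H × K)) (St : ℝ → H →L[ℂ] H) (hH : Heat G St)
    (hun : ∀ ε : ℝ, 0 < ε → ∃ t₀ : ℝ, 0 < t₀ ∧ ∀ t : ℝ, 0 < t → t ≤ t₀ → ∀ g ∈ S.M, ‖g‖ ≤ 1 →
      ‖St t (g S.Ω) - g S.Ω‖ ≤ ε) :
    ∀ ε : ℝ, 0 < ε → ∃ C : ℝ, ∀ g ∈ S.M, ‖g‖ ≤ 1 → ∃ p ∈ G, ‖p.1 - g S.Ω‖ ≤ ε ∧ ‖p.2‖ ≤ C := by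
  intro ε hε
  obtain ⟨t, ht, hunt⟩ := hun (ε / 2) (half_pos hε)
  refine ⟨Real.sqrt (2 / t) + 1, fun g hg hg1 => ?_⟩
  exact heat_step hH ht (g S.Ω) ((S.norm_le_norm g).trans hg1) hε
    (fun r hr hrt => hunt r hr hrt g hg hg1)

end

end Pool.H62.UC
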