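import Pool.Agent.H62.UC.LAll
import Pool.Agent.H62.UC.Aff
import Pool.Agent.H62.UC.Conc
import Pool.Agent.H62.UC.Ext
import Pool.Agent.H62.UC.Heat
import Pool.Agent.H62.UC.Appr

/-!
# GLUE1: abstract form of the theorem for diffuse algebras
-/

namespace Pool.H62.UC

open scoped InnerProductSpace TensorProduct ComplexConjugate
open Filter Topology

noncomputable section

variable {H : Type*} [NormedAddCommGroup H] [InnerProductSpace ℂ H] [CompleteSpace H]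
variable {K : Type*} [NormedAddCommGroup K] [InnerProductSpace ℂ K] [CompleteSpace K]

/-- `D'' = M` implies that `D Ω` is dense: the projection on its orthogonal complement commutes
with `D`, hence is in `M'`, and kills `Ω`, hence `M Ω`. -/
theorem dense_of_gen (S : Std H K) (D : StarSubalgebra ℂ (H →L[ℂ] H))
    (hgen : ∀ T : H →L[ℂ] H, (∀ x ∈ D, x * T = T * x) → T ∈ S.M.commutant) :
    Dense {ξ : H | ∃ x ∈ D, x S.Ω = ξ} := by
  classical
  -- the closed subspace `E`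
  set E0 : Submodule ℂ H :=
    { carrier := {ξ : H | ∃ x ∈ D, x S.Ω = ξ}
      add_mem' := by
        rintro _ _ ⟨x, hx, rfl⟩ ⟨y, hy, rfl⟩
        exact ⟨x + y, D.add_mem hx hy, rfl⟩
      zero_mem' := ⟨0, D.zero_mem, rfl⟩
      smul_mem' := by
        rintro c _ ⟨x, hx, rfl⟩
        exact ⟨c • x, D.smul_mem hx c, rfl⟩ } with hE0
  set E : Submodule ℂ H := E0.topologicalClosure with hE
  have hEcl : IsClosed (E : Set H) := E0.isClosed_topologicalClosure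
  have : CompleteSpace E := hEcl.completeSpace_coe
  -- invariance
  have hinv : ∀ x ∈ D, ∀ ξ ∈ E, x ξ ∈ E := by
    intro x hx ξ hξ
    have h1 : Set.MapsTo (fun η : H => x η) (E0 : Set H) (E0 : Set H) := by
      rintro _ ⟨y, hy, rfl⟩
      exact ⟨x * y, D.mul_mem hx hy, rfl⟩
    have h2 : Set.MapsTo (fun η : H => x η) (closure (E0 : Set H)) (closure (E0 : Set H)) :=
      h1.closure x.continuous
    exact h2 hξ
  have hinv' : ∀ x ∈ D, ∀ ξ ∈ Eᗮ, x ξ ∈ Eᗮ := by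
    intro x hx ξ hξ
    rw [Submodule.mem_orthogonal] at hξ ⊢
    intro u hu
    rw [← ContinuousLinearMap.adjoint_inner_left, ← ContinuousLinearMap.star_eq_adjoint]
    exact hξ _ (hinv (star x) (star_mem hx) u hu)
  set P : H →L[ℂ] H := Eᗮ.starProjection with hP
  have hcomm : ∀ x ∈ D, x * P = P * x := by
    intro x hx
    ext ξ
    change x (P ξ) = P (x ξ)
    have hdec : ξ = E.starProjection ξ + Eᗮ.starProjection ξ := by
      have := E.starProjection_add_starProjection_orthogonal ξ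
      exact this.symm
    have h1 : P (x (E.starProjection ξ)) = 0 := by
      rw [hP, Submodule.starProjection_apply_eq_zero_iff]
      rw [Submodule.orthogonal_orthogonal]
      exact hinv x hx _ (Submodule.starProjection_apply_mem E ξ)
    have h2 : P (x (P ξ)) = x (P ξ) := by
      rw [hP, Submodule.starProjection_eq_self_iff]
      exact hinv' x hx _ (Submodule.starProjection_apply_mem Eᗮ ξ)
    have h3 : P (x ξ) = P (x (E.starProjection ξ)) + P (x (P ξ)) := by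
      conv_lhs => rw [hdec]
      rw [map_add, map_add]
    rw [h3, h1, h2, zero_add]
  have hPM : P ∈ S.M.commutant := hgen P hcomm
  have hΩE : S.Ω ∈ E := by
    have h0 : S.Ω ∈ E0 := ⟨1, D.one_mem, rfl⟩
    exact E0.le_topologicalClosure h0
  have hPΩ : P S.Ω = 0 := by
    rw [hP, Submodule.starProjection_apply_eq_zero_iff, Submodule.orthogonal_orthogonal]
    exact hΩE
  have hP0 : ∀ ξ : H, P ξ = 0 := by
    have hcl : IsClosed {ξ : H | P ξ = 0} := isClosed_eq P.continuous continuous_const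
    have hd : Dense {ξ : H | P ξ = 0} := by
      refine S.tv.cyclic.mono ?_
      rintro _ ⟨x, hx, rfl⟩
      have h1 := VonNeumannAlgebra.mem_commutant_iff.1 hPM x hx
      have h2 : (x * P) S.Ω = (P * x) S.Ω := by rw [h1]
      change P (x S.Ω) = 0
      change x (P S.Ω) = P (x S.Ω) at h2
      rw [← h2, hPΩ, map_zero]
    intro ξ
    have : ξ ∈ closure {ξ : H | P ξ = 0} := hd ξ
    rw [hcl.closure_eq] at this
    exact this
  intro ξ
  have h1 := hP0 ξ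
  rw [hP, Submodule.starProjection_apply_eq_zero_iff, Submodule.orthogonal_orthogonal] at h1
  exact h1

/-- `ext_exists`, `heat_approx`, `ua_of` -/
theorem exists_gr (S : Std H K) (D : StarSubalgebra ℂ (H →L[ℂ] H)) (hD : ∀ x ∈ D, x ∈ S.M)
    (d : D →ₗ[ℂ] K)
    (leib : ∀ x y : D, d (x * y) = S.l (x : H →L[ℂ] H) (d y) + S.r (y : H →L[ℂ] H) (d x))
    (closable : ∀ ξ : K, ((0 : H), ξ) ∈ closure (dGraph S D d) → ξ = 0)
    (C₀ : ℝ) (hC₀ : 0 ≤ C₀)
    (hstar : ∀ x : D, ‖d (star x)‖ ≤ C₀ * (‖d x‖ + ‖(x : H →L[ℂ] H) S.Ω‖))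
    (St : ℝ → H →L[ℂ] H) (hH : Heat (dGraph S D d) St)
    (hun : ∀ ε : ℝ, 0 < ε → ∃ t₀ : ℝ, 0 < t₀ ∧ ∀ t : ℝ, 0 < t → t ≤ t₀ → ∀ g ∈ S.M, ‖g‖ ≤ 1 →
      ‖St t (g S.Ω) - g S.Ω‖ ≤ ε) :
    ∃ Gr : Submodule ℂ ((H →L[ℂ] H) × K), BClosed S Gr ∧ UA S Gr ∧
      (∀ x : D, ((x : H →L[ℂ] H), d x) ∈ Gr) := by
  obtain ⟨Gr, hG, hGr, -⟩ := ext_exists S D hD d leib closable
  have hd1 : d 1 = 0 := by
    have h := leib 1 1
    have h1 : ((1 : D) : H →L[ℂ] H) = 1 := rfl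
    rw [mul_one, h1, S.l_one, S.r_one] at h
    change d 1 = d 1 + d 1 at h
    exact left_eq_add.1 h
  refine ⟨Gr, hG, ?_, hGr⟩
  refine ua_of S Gr hG ?_ {p | ∃ x : D, p = ((x : H →L[ℂ] H), d x)} ?_ C₀ hC₀ ?_ ?_
  · have := hGr 1
    rw [hd1] at this
    exact this
  · rintro _ ⟨x, rfl⟩
    exact hGr x
  · rintro _ ⟨x, rfl⟩
    exact ⟨(((star x : D) : H →L[ℂ] H), d (star x)), hGr (star x), rfl, hstar x⟩
  · intro ε hε
    obtain ⟨C, hC⟩ := heat_approx S (dGraph S D d) St hH hun ε hε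
    refine ⟨C, fun g hg hg1 => ?_⟩
    obtain ⟨p, ⟨x, rfl⟩, hp1, hp2⟩ := hC g hg hg1
    exact ⟨((x : H →L[ℂ] H), d x), ⟨x, rfl⟩, hp1, hp2⟩

/-- the diffuse case: a weakly null sequence of unitaries -/
theorem diffuse_pair (S : Std H K) (D : StarSubalgebra ℂ (H →L[ℂ] H)) (hD : ∀ x ∈ D, x ∈ S.M)
    (hgen : ∀ T : H →L[ℂ] H, (∀ x ∈ D, x * T = T * x) → T ∈ S.M.commutant)
    (d : D →ₗ[ℂ] K)
    (leib : ∀ x y : D, d (x * y) = S.l (x : H →L[ℂ] H) (d y) + S.r (y : H →L[ℂ] H) (d x))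
    (closable : ∀ ξ : K, ((0 : H), ξ) ∈ closure (dGraph S D d) → ξ = 0)
    (C₀ : ℝ) (hC₀ : 0 ≤ C₀)
    (hstar : ∀ x : D, ‖d (star x)‖ ≤ C₀ * (‖d x‖ + ‖(x : H →L[ℂ] H) S.Ω‖))
    (St : ℝ → H →L[ℂ] H) (hH : Heat (dGraph S D d) St)
    (hun : ∀ ε : ℝ, 0 < ε → ∃ t₀ : ℝ, 0 < t₀ ∧ ∀ t : ℝ, 0 < t → t ≤ t₀ → ∀ g ∈ S.M, ‖g‖ ≤ 1 →
      ‖St t (g S.Ω) - g S.Ω‖ ≤ ε)
    (v : ℕ → H →L[ℂ] H) (hv : ∀ n, v n ∈ UM S)
    (hw : ∀ ζ ω : H, Tendsto (fun n => ⟪ζ, v n ω⟫_ℂ) atTop (𝓝 0)) :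
    ∃ A ∈ NK S, ∃ β : K, ∃ B ∈ (NK S).commutant, ∃ c : K, (∀ ξ, A ξ = 0 → ξ = 0) ∧
      (∀ ξ, B ξ = 0 → ξ = 0) ∧ A c = B β ∧ ∀ x : D, B (d x) = S.l x c - S.r x c := by
  obtain ⟨Gr, hG, hUA, hGr⟩ := exists_gr S D hD d leib closable C₀ hC₀ hstar St hH hun
  obtain ⟨A, hA, β, B, hB, c, hAi, hBi, hAB, hx⟩ :=
    left_all S Gr hG hUA v hv 0 (by
      constructor
      · exact IsIdempotentElem.zero
      · exact IsSelfAdjoint.zero _)
      (by exact S.M.toStarSubalgebra.zero_mem) (fun x _ => by rw [zero_mul, mul_zero])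
      (by
        intro ζ ω
        have h := hw ζ ω
        have h0 : ⟪ζ, (0 : H →L[ℂ] H) ω⟫_ℂ = 0 := by
          change ⟪ζ, (0 : H)⟫_ℂ = 0
          exact inner_zero_right ζ
        rw [h0]
        exact h)
      D hD d hGr (dense_of_gen S D hgen)
  refine ⟨A, hA, β, B, hB, c, hAi, hBi, hAB, fun x => ?_⟩
  have h := hx x
  rw [sub_zero, S.l_one] at h
  exact sub_eq_zero.1 h

end

end Pool.H62.UC
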