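import Pool.Agent.H62.UC.Defs

/-!
# BASA (of BAS): the standing data: trace, right multiplication, bounded vectors, the two actions on `K`

Everything is elementary:
* `‖x Ω‖² = ⟪Ω, x* x Ω⟫ = ⟪Ω, x x* Ω⟫ = ‖x* Ω‖²`.
* `ρ y` is determined on the dense subspace `M Ω`; `ρ y` commutes with `M`; `(ρ y)* = ρ (y*)` by the
  trace property; `‖ρ y (x Ω)‖ = ‖y* x* Ω‖ ≤ ‖y‖ ‖x Ω‖`.
* bounded sequences in `M` which converge in `‖·‖₂` converge strongly: test on `y Ω`,
  `x_k y Ω = ρ y (x_k Ω)`.
* `L A`, `R B` commute (check on simple tensors); contractivity of star homomorphisms of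
  C*-algebras: `NonUnitalStarAlgHom.norm_apply_le`.
-/

namespace Pool.H62.UC

open scoped InnerProductSpace TensorProduct ComplexConjugate
open Filter Topology

noncomputable section


variable {H : Type*} [NormedAddCommGroup H] [InnerProductSpace ℂ H] [CompleteSpace H]
variable {K : Type*} [NormedAddCommGroup K] [InnerProductSpace ℂ K] [CompleteSpace K]

/-! ## the tensor square -/

theorem Coarse.norm_tp (T : Coarse H K) (a b : H) : ‖T.tp a b‖ = ‖a‖ * ‖b‖ := by
  have h := T.inner_tp a b a b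
  rw [inner_self_eq_norm_sq_to_K, inner_self_eq_norm_sq_to_K, inner_self_eq_norm_sq_to_K] at h
  have h2 : ‖T.tp a b‖ ^ 2 = (‖a‖ * ‖b‖) ^ 2 := by
    rw [mul_pow]
    exact_mod_cast h
  exact (pow_left_inj₀ (norm_nonneg _) (by positivity) two_ne_zero).1 h2

theorem Coarse.L_norm_le (T : Coarse H K) (A : H →L[ℂ] H) : ‖T.L A‖ ≤ ‖A‖ := by
  exact NonUnitalStarAlgHom.norm_apply_le T.L A

theorem Coarse.R_norm_le (T : Coarse H K) (A : H →L[ℂ] H) : ‖T.R A‖ ≤ ‖A‖ := by
  exact NonUnitalStarAlgHom.norm_apply_le T.R A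

theorem Coarse.basa_induction (T : Coarse H K) (P : K → Prop) (htp : ∀ a b, P (T.tp a b))
    (hadd : ∀ x y, P x → P y → P (x + y)) (hsmul : ∀ (c : ℂ) x, P x → P (c • x))
    (hcl : IsClosed {x | P x}) (κ : K) : P κ := by
  have h1 : ∀ x ∈ Submodule.span ℂ {κ : K | ∃ a b, T.tp a b = κ}, P x := by
    intro x hx
    induction hx using Submodule.span_induction with
    | mem x hx =>
      obtain ⟨a, b, rfl⟩ := hx
      exact htp a b
    | zero =>
      have := htp 0 0
      simpa using this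
    | add x y hx hy hx' hy' => exact hadd x y hx' hy'
    | smul c x hx hx' => exact hsmul c x hx'
  have h2 : κ ∈ (Submodule.span ℂ {κ : K | ∃ a b, T.tp a b = κ}).topologicalClosure := by
    rw [T.dense_tp]
    exact Submodule.mem_top
  have h3 : κ ∈ closure ((Submodule.span ℂ {κ : K | ∃ a b, T.tp a b = κ} : Submodule ℂ K) : Set K) :=
    h2
  exact (closure_minimal (fun x hx => h1 x hx) hcl) h3

theorem Coarse.basa_adj (T : Coarse H K) (A : H →L[ℂ] H) (b : H) (κ : K) :
    ContinuousLinearMap.adjoint (T.tp.flip b) (T.L A κ) =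
      A (ContinuousLinearMap.adjoint (T.tp.flip b) κ) := by
  refine ext_inner_left ℂ fun h => ?_
  rw [ContinuousLinearMap.adjoint_inner_right]
  have h1 : ⟪T.tp.flip b h, T.L A κ⟫_ℂ = ⟪T.L (star A) (T.tp.flip b h), κ⟫_ℂ := by
    rw [map_star, ContinuousLinearMap.star_eq_adjoint, ContinuousLinearMap.adjoint_inner_left]
  rw [h1, ContinuousLinearMap.flip_apply, T.L_tp, ← ContinuousLinearMap.flip_apply,
    ← ContinuousLinearMap.adjoint_inner_right, ContinuousLinearMap.star_eq_adjoint,
    ContinuousLinearMap.adjoint_inner_left]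

theorem Coarse.basa_adjR (T : Coarse H K) (A : H →L[ℂ] H) (a : H) (κ : K) :
    ContinuousLinearMap.adjoint (T.tp a) (T.R A κ) =
      A (ContinuousLinearMap.adjoint (T.tp a) κ) := by
  refine ext_inner_left ℂ fun h => ?_
  rw [ContinuousLinearMap.adjoint_inner_right]
  have h1 : ⟪T.tp a h, T.R A κ⟫_ℂ = ⟪T.R (star A) (T.tp a h), κ⟫_ℂ := by
    rw [map_star, ContinuousLinearMap.star_eq_adjoint, ContinuousLinearMap.adjoint_inner_left]
  rw [h1, T.R_tp, ← ContinuousLinearMap.adjoint_inner_right, ContinuousLinearMap.star_eq_adjoint,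
    ContinuousLinearMap.adjoint_inner_left]

/-- two continuous linear maps which agree on simple tensors are equal -/
theorem Coarse.ext_tp (T : Coarse H K) {V : Type*} [NormedAddCommGroup V] [NormedSpace ℂ V]
    (A B : K →L[ℂ] V) (h : ∀ a b, A (T.tp a b) = B (T.tp a b)) : A = B := by
  refine ContinuousLinearMap.ext fun κ => ?_
  refine T.basa_induction (fun κ => A κ = B κ) h ?_ ?_ ?_ κ
  · intro x y hx hy
    simp only [map_add, hx, hy]
  · intro c x hx
    simp only [map_smul, hx]
  · exact isClosed_eq A.continuous B.continuous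

/-- vectors are determined by their inner products with simple tensors -/
theorem Coarse.ext_inner (T : Coarse H K) (κ κ' : K)
    (h : ∀ a b, ⟪T.tp a b, κ⟫_ℂ = ⟪T.tp a b, κ'⟫_ℂ) : κ = κ' := by
  refine _root_.ext_inner_left ℂ fun x => ?_
  refine T.basa_induction (fun x => ⟪x, κ⟫_ℂ = ⟪x, κ'⟫_ℂ) h ?_ ?_ ?_ x
  · intro x y hx hy
    simp only [inner_add_left, hx, hy]
  · intro c x hx
    simp only [inner_smul_left, hx]
  · exact isClosed_eq (by fun_prop) (by fun_prop)

theorem Coarse.LR_comm (T : Coarse H K) (A B : H →L[ℂ] H) : T.L A * T.R B = T.R B * T.L A := by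
  refine T.ext_tp _ _ fun a b => ?_
  change T.L A (T.R B (T.tp a b)) = T.R B (T.L A (T.tp a b))
  rw [T.R_tp, T.L_tp, T.L_tp, T.R_tp]

/-- induction principle: a closed linear condition holds if it holds on simple tensors -/
theorem Coarse.induction (T : Coarse H K) (P : K → Prop) (htp : ∀ a b, P (T.tp a b))
    (hadd : ∀ x y, P x → P y → P (x + y)) (hsmul : ∀ (c : ℂ) x, P x → P (c • x))
    (hcl : IsClosed {x | P x}) (κ : K) : P κ := T.basa_induction P htp hadd hsmul hcl κ

/-- if the kernel of `A` is contained in the kernel of `B`, the same holds for `A ⊗ 1`, `B ⊗ 1`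
(slice maps: adjoints of `h ↦ tp h b`) -/
theorem Coarse.L_ker (T : Coarse H K) (A B : H →L[ℂ] H) (h : ∀ ξ, A ξ = 0 → B ξ = 0) (κ : K)
    (hκ : T.L A κ = 0) : T.L B κ = 0 := by
  refine T.ext_inner _ _ fun a b => ?_
  have h1 : A (ContinuousLinearMap.adjoint (T.tp.flip b) κ) = 0 := by
    rw [← T.basa_adj, hκ, map_zero]
  have h2 : ContinuousLinearMap.adjoint (T.tp.flip b) (T.L B κ) = 0 := by
    rw [T.basa_adj, h _ h1]
  rw [inner_zero_right, ← ContinuousLinearMap.flip_apply,
    ← ContinuousLinearMap.adjoint_inner_right, h2, inner_zero_right]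

theorem Coarse.R_ker (T : Coarse H K) (A B : H →L[ℂ] H) (h : ∀ ξ, A ξ = 0 → B ξ = 0) (κ : K)
    (hκ : T.R A κ = 0) : T.R B κ = 0 := by
  refine T.ext_inner _ _ fun a b => ?_
  have h1 : A (ContinuousLinearMap.adjoint (T.tp a) κ) = 0 := by
    rw [← T.basa_adjR, hκ, map_zero]
  have h2 : ContinuousLinearMap.adjoint (T.tp a) (T.R B κ) = 0 := by
    rw [T.basa_adjR, h _ h1]
  rw [inner_zero_right, ← ContinuousLinearMap.adjoint_inner_right, h2, inner_zero_right]

end

end Pool.H62.UC
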