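import Pool.Agent.H62.UC.BasA

/-!
# BASB (of BAS): the standing data: trace, right multiplication, bounded vectors, the two actions on `K`

Everything is elementary:
* `‖x Ω‖² = ⟪Ω, x* x Ω⟫ = ⟪Ω, x x* Ω⟫ = ‖x* Ω‖²`.
* `ρ y` is determined on the dense subspace `M Ω`; `ρ y` commutes with `M`; `(ρ y)* = ρ (y*)` by the
  trace property; `‖ρ y (x Ω)‖ = ‖y* x* Ω‖ ≤ ‖y‖ ‖x Ω‖`.
* bounded sequences in `M` which converge in `‖·‖₂` converge strongly: test on `y Ω`,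
  `x_k y Ω = ρ y (x_k Ω)`.
* `L A`, `R B` commute (check on simple tensors); contractivity of star homomorphisms of
  C*-algebras: `NonUnitalStarAlgHom.norm_apply_le`.
-/

namespace Pool.H62.UC

open scoped InnerProductSpace TensorProduct ComplexConjugate
open Filter Topology

noncomputable section


variable {H : Type*} [NormedAddCommGroup H] [InnerProductSpace ℂ H] [CompleteSpace H]
variable {K : Type*} [NormedAddCommGroup K] [InnerProductSpace ℂ K] [CompleteSpace K]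

/-! ## trace -/

namespace Std

variable (S : Std H K)

theorem one_mem : (1 : H →L[ℂ] H) ∈ S.M := by
  exact OneMemClass.one_mem S.M

theorem smul_mem (c : ℂ) {x : H →L[ℂ] H} (hx : x ∈ S.M) : c • x ∈ S.M := by
  exact S.M.toStarSubalgebra.smul_mem hx c

theorem basB_adj (x : H →L[ℂ] H) (a b : H) : ⟪a, (star x) b⟫_ℂ = ⟪x a, b⟫_ℂ := by
  rw [ContinuousLinearMap.star_eq_adjoint, ContinuousLinearMap.adjoint_inner_right]

theorem basB_adj' (x : H →L[ℂ] H) (a b : H) : ⟪(star x) a, b⟫_ℂ = ⟪a, x b⟫_ℂ := by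
  rw [ContinuousLinearMap.star_eq_adjoint, ContinuousLinearMap.adjoint_inner_left]

theorem norm_star {x : H →L[ℂ] H} (hx : x ∈ S.M) : ‖(star x) S.Ω‖ = ‖x S.Ω‖ := by
  have h1 : ⟪(star x) S.Ω, (star x) S.Ω⟫_ℂ = ⟪x S.Ω, x S.Ω⟫_ℂ := by
    rw [basB_adj', ← basB_adj x]
    exact S.tv.trace x hx (star x) (star_mem hx)
  rw [inner_self_eq_norm_sq_to_K, inner_self_eq_norm_sq_to_K] at h1
  have h2 : ‖(star x) S.Ω‖ ^ 2 = ‖x S.Ω‖ ^ 2 := by exact_mod_cast h1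
  exact (sq_eq_sq₀ (norm_nonneg _) (norm_nonneg _)).1 h2

theorem norm_mul_left (x y : H →L[ℂ] H) : ‖(x * y) S.Ω‖ ≤ ‖x‖ * ‖y S.Ω‖ := by
  exact x.le_opNorm (y S.Ω)

theorem norm_mul_right {x y : H →L[ℂ] H} (hx : x ∈ S.M) (hy : y ∈ S.M) :
    ‖(x * y) S.Ω‖ ≤ ‖x S.Ω‖ * ‖y‖ := by
  rw [← S.norm_star (mul_mem hx hy), star_mul]
  refine (S.norm_mul_left _ _).trans ?_
  rw [_root_.norm_star, S.norm_star hx, mul_comm]

theorem norm_mul_unitary {x u : H →L[ℂ] H} (hx : x ∈ S.M) (hu : u ∈ S.M)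
    (huu : u ∈ unitary (H →L[ℂ] H)) : ‖(x * u) S.Ω‖ = ‖x S.Ω‖ := by
  have h1 : ∀ {v : H →L[ℂ] H}, v ∈ unitary (H →L[ℂ] H) → ‖v‖ ≤ 1 := by
    intro v hv
    refine ContinuousLinearMap.opNorm_le_bound _ zero_le_one fun ξ => ?_
    have h2 : ⟪v ξ, v ξ⟫_ℂ = ⟪ξ, ξ⟫_ℂ := by
      rw [← basB_adj v]
      have h3 : (star v) (v ξ) = (star v * v) ξ := rfl
      rw [h3, Unitary.star_mul_self_of_mem hv]
      rfl
    rw [inner_self_eq_norm_sq_to_K, inner_self_eq_norm_sq_to_K] at h2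
    have h4 : ‖v ξ‖ ^ 2 = ‖ξ‖ ^ 2 := by exact_mod_cast h2
    rw [one_mul]
    exact ((sq_eq_sq₀ (norm_nonneg _) (norm_nonneg _)).1 h4).le
  apply le_antisymm
  · refine (S.norm_mul_right hx hu).trans ?_
    exact mul_le_of_le_one_right (norm_nonneg _) (h1 huu)
  · have h5 : x = (x * u) * star u := by
      rw [mul_assoc, Unitary.mul_star_self_of_mem huu, mul_one]
    have h6 := S.norm_mul_right (mul_mem hx hu) (star_mem hu)
    rw [← h5] at h6
    refine h6.trans ?_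
    exact mul_le_of_le_one_right (norm_nonneg _) (h1 (Unitary.star_mem huu))

theorem norm_le_norm (x : H →L[ℂ] H) : ‖x S.Ω‖ ≤ ‖x‖ := by
  have h := x.le_opNorm S.Ω
  rwa [S.tv.norm_one, mul_one] at h

/-- operators which agree on `M Ω` are equal -/
theorem basB_ext {A B : H →L[ℂ] H} (h : ∀ x ∈ S.M, A (x S.Ω) = B (x S.Ω)) : A = B := by
  have h1 : (A : H → H) = B := by
    refine Continuous.ext_on S.tv.cyclic A.continuous B.continuous ?_
    rintro ξ ⟨x, hx, rfl⟩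
    exact h x hx
  exact ContinuousLinearMap.ext (congrFun h1)

/-- `Ω` is separating for `M` -/
theorem sep {x : H →L[ℂ] H} (hx : x ∈ S.M) (h : x S.Ω = 0) : x = 0 := by
  refine S.basB_ext fun y hy => ?_
  have h1 := S.norm_mul_right hx hy
  rw [h, norm_zero, zero_mul] at h1
  have h2 : (x * y) S.Ω = 0 := norm_le_zero_iff.1 h1
  exact h2

theorem isST : IsST S.M S.Ω := by
  exact ⟨fun x hx y hy => S.tv.trace x hx y hy, fun x hx h => S.sep hx h⟩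

/-! ## right multiplication -/

theorem ρ_mem {y : H →L[ℂ] H} (hy : y ∈ S.M) : S.ρ y ∈ S.M.commutant := by
  rw [VonNeumannAlgebra.mem_commutant_iff]
  intro g hg
  refine S.basB_ext fun x hx => ?_
  change g (S.ρ y (x S.Ω)) = S.ρ y ((g * x) S.Ω)
  rw [S.ρ_apply x hx y hy, S.ρ_apply (g * x) (mul_mem hg hx) y hy, mul_assoc]
  rfl

theorem ρ_comm {x y : H →L[ℂ] H} (hx : x ∈ S.M) (hy : y ∈ S.M) : x * S.ρ y = S.ρ y * x := by
  exact VonNeumannAlgebra.mem_commutant_iff.1 (S.ρ_mem hy) x hx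

theorem ρ_star {y : H →L[ℂ] H} (hy : y ∈ S.M) : S.ρ (star y) = star (S.ρ y) := by
  refine S.basB_ext fun z hz => ?_
  refine Dense.eq_of_inner_right (𝕜 := ℂ) (S := Submodule.span ℂ {ξ : H | ∃ x ∈ S.M, x S.Ω = ξ}) ?_ ?_
  · exact S.tv.cyclic.mono Submodule.subset_span
  · intro v hv
    induction hv using Submodule.span_induction with
    | mem v hv =>
      obtain ⟨x, hx, rfl⟩ := hv
      rw [S.ρ_apply z hz _ (star_mem hy), basB_adj, S.ρ_apply x hx y hy]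
      have h1 : ⟪(x * y) S.Ω, z S.Ω⟫_ℂ = ⟪S.Ω, ((star y) * (star x * z)) S.Ω⟫_ℂ := by
        rw [← basB_adj (x * y), star_mul]
        rfl
      have h2 : ⟪x S.Ω, (z * star y) S.Ω⟫_ℂ = ⟪S.Ω, ((star x * z) * star y) S.Ω⟫_ℂ := by
        rw [← basB_adj x]
        rfl
      rw [h1, h2]
      exact S.tv.trace _ (mul_mem (star_mem hx) hz) _ (star_mem hy)
    | zero => rw [inner_zero_left, inner_zero_left]
    | add a b _ _ ha hb => rw [inner_add_left, inner_add_left, ha, hb]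
    | smul c a _ ha => rw [inner_smul_left, inner_smul_left, ha]

theorem ρ_mul {x y : H →L[ℂ] H} (hx : x ∈ S.M) (hy : y ∈ S.M) :
    S.ρ (x * y) = S.ρ y * S.ρ x := by
  refine S.basB_ext fun z hz => ?_
  change S.ρ (x * y) (z S.Ω) = S.ρ y (S.ρ x (z S.Ω))
  rw [S.ρ_apply z hz _ (mul_mem hx hy), S.ρ_apply z hz x hx, S.ρ_apply _ (mul_mem hz hx) y hy,
    mul_assoc]

theorem ρ_add {x y : H →L[ℂ] H} (hx : x ∈ S.M) (hy : y ∈ S.M) :
    S.ρ (x + y) = S.ρ x + S.ρ y := by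
  refine S.basB_ext fun z hz => ?_
  change S.ρ (x + y) (z S.Ω) = S.ρ x (z S.Ω) + S.ρ y (z S.Ω)
  rw [S.ρ_apply z hz _ (add_mem hx hy), S.ρ_apply z hz x hx, S.ρ_apply z hz y hy, mul_add]
  rfl

theorem ρ_smul (c : ℂ) {y : H →L[ℂ] H} (hy : y ∈ S.M) : S.ρ (c • y) = c • S.ρ y := by
  refine S.basB_ext fun z hz => ?_
  change S.ρ (c • y) (z S.Ω) = c • S.ρ y (z S.Ω)
  rw [S.ρ_apply z hz _ (S.smul_mem c hy), S.ρ_apply z hz y hy, mul_smul_comm]
  rfl

theorem ρ_one : S.ρ 1 = 1 := by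
  refine S.basB_ext fun z hz => ?_
  change S.ρ 1 (z S.Ω) = z S.Ω
  rw [S.ρ_apply z hz _ S.one_mem, mul_one]

theorem ρ_norm_le {y : H →L[ℂ] H} (hy : y ∈ S.M) : ‖S.ρ y‖ ≤ ‖y‖ := by
  refine ContinuousLinearMap.opNorm_le_bound _ (norm_nonneg _) fun ξ => ?_
  refine S.tv.cyclic.induction (P := fun ξ => ‖S.ρ y ξ‖ ≤ ‖y‖ * ‖ξ‖) ?_ ?_ ξ
  · rintro ξ ⟨x, hx, rfl⟩
    rw [S.ρ_apply x hx y hy, mul_comm]
    exact S.norm_mul_right hx hy
  · exact isClosed_le (S.ρ y).continuous.norm (continuous_const.mul continuous_norm)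

theorem ρ_Ω {y : H →L[ℂ] H} (hy : y ∈ S.M) : S.ρ y S.Ω = y S.Ω := by
  have h := S.ρ_apply 1 S.one_mem y hy
  rw [one_mul] at h
  exact h

end Std

end

end Pool.H62.UC
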