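import Pool.Agent.H62.UC.BasB

/-!
# BASC (of BAS): the standing data: trace, right multiplication, bounded vectors, the two actions on `K`

Everything is elementary:
* `‖x Ω‖² = ⟪Ω, x* x Ω⟫ = ⟪Ω, x x* Ω⟫ = ‖x* Ω‖²`.
* `ρ y` is determined on the dense subspace `M Ω`; `ρ y` commutes with `M`; `(ρ y)* = ρ (y*)` by the
  trace property; `‖ρ y (x Ω)‖ = ‖y* x* Ω‖ ≤ ‖y‖ ‖x Ω‖`.
* bounded sequences in `M` which converge in `‖·‖₂` converge strongly: test on `y Ω`,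
  `x_k y Ω = ρ y (x_k Ω)`.
* `L A`, `R B` commute (check on simple tensors); contractivity of star homomorphisms of
  C*-algebras: `NonUnitalStarAlgHom.norm_apply_le`.
-/

namespace Pool.H62.UC

open scoped InnerProductSpace TensorProduct ComplexConjugate
open Filter Topology

noncomputable section


variable {H : Type*} [NormedAddCommGroup H] [InnerProductSpace ℂ H] [CompleteSpace H]
variable {K : Type*} [NormedAddCommGroup K] [InnerProductSpace ℂ K] [CompleteSpace K]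

theorem BASC_closed {V W ι : Type*} [NormedAddCommGroup V] [NormedSpace ℂ V]
    [NormedAddCommGroup W] [NormedSpace ℂ W] {F : Filter ι} (A : ι → V →L[ℂ] W) (B : V →L[ℂ] W)
    {C : ℝ} (hC : ∀ i, ‖A i‖ ≤ C) : IsClosed {v | Tendsto (fun i => A i v) F (𝓝 (B v))} := by
  apply isClosed_of_closure_subset
  intro v hv
  show Tendsto (fun i => A i v) F (𝓝 (B v))
  rw [Metric.tendsto_nhds]
  intro ε hε
  have hD : 0 < |C| + ‖B‖ + 1 := by positivity
  obtain ⟨d, hd, hdv⟩ := Metric.mem_closure_iff.1 hv (ε / (2 * (|C| + ‖B‖ + 1))) (by positivity)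
  have hd' : Tendsto (fun i => A i d) F (𝓝 (B d)) := hd
  filter_upwards [Metric.tendsto_nhds.1 hd' (ε / 2) (by positivity)] with i hi
  rw [dist_eq_norm] at hi hdv ⊢
  have h1 : A i v - B v = A i (v - d) + (A i d - B d) - B (v - d) := by
    rw [map_sub, map_sub]
    abel
  have h2 : ‖A i (v - d)‖ ≤ |C| * ‖v - d‖ :=
    ((A i).le_opNorm _).trans
      (mul_le_mul_of_nonneg_right ((hC i).trans (le_abs_self C)) (norm_nonneg _))
  have h3 : ‖B (v - d)‖ ≤ ‖B‖ * ‖v - d‖ := B.le_opNorm _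
  have h4 : (|C| + ‖B‖ + 1) * ‖v - d‖ < ε / 2 := by
    have := mul_lt_mul_of_pos_left hdv hD
    have h5 : (|C| + ‖B‖ + 1) * (ε / (2 * (|C| + ‖B‖ + 1))) = ε / 2 := by
      field_simp
    rwa [h5] at this
  have h5 : ‖A i v - B v‖ ≤ ‖A i (v - d)‖ + ‖A i d - B d‖ + ‖B (v - d)‖ := by
    rw [h1]
    exact (norm_sub_le _ _).trans (add_le_add_left (norm_add_le _ _) _)
  have h6 := norm_nonneg (v - d)
  nlinarith

theorem BASC_dense {V W ι : Type*} [NormedAddCommGroup V] [NormedSpace ℂ V]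
    [NormedAddCommGroup W] [NormedSpace ℂ W] {F : Filter ι} (A : ι → V →L[ℂ] W) (B : V →L[ℂ] W)
    {C : ℝ} (hC : ∀ i, ‖A i‖ ≤ C) {D : Set V} (hD : Dense D)
    (h : ∀ d ∈ D, Tendsto (fun i => A i d) F (𝓝 (B d))) (v : V) :
    Tendsto (fun i => A i v) F (𝓝 (B v)) := by
  have h1 := (BASC_closed (F := F) A B hC).closure_subset_iff.2 (fun d hd => h d hd)
  exact h1 (hD v)

namespace Std

variable (S : Std H K)

/-! ## bounded vectors -/

theorem BASC_dense_Ω : Dense {ξ : H | ∃ x ∈ S.M, x S.Ω = ξ} := S.tv.cyclic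

/-- bounded `‖·‖₂`-convergence is strong convergence (any filter) -/
theorem BASC_tendsto_of {ι : Type*} {F : Filter ι} {x : ι → H →L[ℂ] H} {y : H →L[ℂ] H} {C : ℝ}
    (hx : ∀ i, x i ∈ S.M) (hy : y ∈ S.M) (hC : ∀ i, ‖x i‖ ≤ C)
    (h : Tendsto (fun i => x i S.Ω) F (𝓝 (y S.Ω))) (ω : H) :
    Tendsto (fun i => x i ω) F (𝓝 (y ω)) := by
  refine BASC_dense x y hC S.BASC_dense_Ω ?_ ω
  rintro _ ⟨z, hz, rfl⟩
  have h1 : ∀ i, x i (z S.Ω) = S.ρ z (x i S.Ω) := fun i => (S.ρ_apply _ (hx i) z hz).symm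
  have h2 : y (z S.Ω) = S.ρ z (y S.Ω) := (S.ρ_apply _ hy z hz).symm
  simp only [h1, h2]
  exact ((S.ρ z).continuous.tendsto _).comp h

/-- the ball of radius `C` of `M` is `‖·‖₂`-closed -/
theorem ball_closed (C : ℝ) : IsClosed {ξ : H | ∃ x ∈ S.M, ‖x‖ ≤ C ∧ x S.Ω = ξ} := by
  apply IsSeqClosed.isClosed
  intro ξ ξ0 hξ hlim
  choose x hxM hxC hxΩ using hξ
  -- Cauchy at every vector
  have hcau : ∀ h : H, CauchySeq (fun k => x k h) := by
    intro h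
    rw [Metric.cauchySeq_iff']
    intro ε hε
    have hC0 : 0 ≤ C := (norm_nonneg _).trans (hxC 0)
    obtain ⟨d, ⟨z, hz, rfl⟩, hd⟩ := S.BASC_dense_Ω.exists_dist_lt h
      (show 0 < ε / (4 * (C + 1)) by positivity)
    have h1 : ∀ i, x i (z S.Ω) = S.ρ z (ξ i) := by
      intro i
      rw [← hxΩ i]
      exact (S.ρ_apply _ (hxM i) z hz).symm
    have h2 : CauchySeq (fun k => x k (z S.Ω)) := by
      simp only [h1]
      exact (((S.ρ z).continuous.tendsto ξ0).comp hlim).cauchySeq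
    obtain ⟨N, hN⟩ := Metric.cauchySeq_iff'.1 h2 (ε / 2) (by positivity)
    refine ⟨N, fun n hn => ?_⟩
    have h3 := hN n hn
    rw [dist_eq_norm] at h3 hd ⊢
    have h4 : x n h - x N h = x n (h - z S.Ω) + (x n (z S.Ω) - x N (z S.Ω)) - x N (h - z S.Ω) := by
      rw [map_sub, map_sub]
      abel
    have h5 : ∀ k, ‖x k (h - z S.Ω)‖ ≤ C * ‖h - z S.Ω‖ := fun k =>
      ((x k).le_opNorm _).trans (mul_le_mul_of_nonneg_right (hxC k) (norm_nonneg _))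
    have h6 : ‖x n h - x N h‖ ≤
        ‖x n (h - z S.Ω)‖ + ‖x n (z S.Ω) - x N (z S.Ω)‖ + ‖x N (h - z S.Ω)‖ := by
      rw [h4]
      exact (norm_sub_le _ _).trans (add_le_add_left (norm_add_le _ _) _)
    have h7 : (C + 1) * ‖h - z S.Ω‖ < ε / 4 := by
      have := mul_lt_mul_of_pos_left hd (show 0 < C + 1 by positivity)
      have h8 : (C + 1) * (ε / (4 * (C + 1))) = ε / 4 := by field_simp
      rwa [h8] at this
    have h8 := h5 n
    have h9 := h5 N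
    have h10 := norm_nonneg (h - z S.Ω)
    nlinarith
  have hex : ∀ h : H, ∃ y, Tendsto (fun k => x k h) atTop (𝓝 y) := fun h =>
    cauchySeq_tendsto_of_complete (hcau h)
  choose f hf using hex
  have hf' : Tendsto (fun n h => x n h) atTop (𝓝 f) := tendsto_pi_nhds.2 hf
  obtain ⟨y, hyf⟩ : ∃ y : H →L[ℂ] H, ∀ h, y h = f h := ⟨continuousLinearMapOfTendsto x hf', fun _ => rfl⟩
  have hy : ∀ h, Tendsto (fun k => x k h) atTop (𝓝 (y h)) := fun h => by rw [hyf]; exact hf h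
  have hC0 : 0 ≤ C := (norm_nonneg _).trans (hxC 0)
  refine ⟨y, ?_, ?_, ?_⟩
  · rw [← S.M.commutant_commutant, VonNeumannAlgebra.mem_commutant_iff]
    intro g hg
    rw [VonNeumannAlgebra.mem_commutant_iff] at hg
    ext h
    have h1 : Tendsto (fun k => g (x k h)) atTop (𝓝 (g (y h))) :=
      (g.continuous.tendsto _).comp (hy h)
    have h2 : Tendsto (fun k => x k (g h)) atTop (𝓝 (y (g h))) := hy (g h)
    have h3 : ∀ k, g (x k h) = x k (g h) := by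
      intro k
      have h4 := hg (x k) (hxM k)
      have h5 := congrArg (fun T : H →L[ℂ] H => T h) h4
      exact h5.symm
    simp only [h3] at h1
    exact tendsto_nhds_unique h1 h2
  · apply ContinuousLinearMap.opNorm_le_bound _ hC0
    intro h
    refine le_of_tendsto (hy h).norm (Eventually.of_forall fun k => ?_)
    exact ((x k).le_opNorm _).trans (mul_le_mul_of_nonneg_right (hxC k) (norm_nonneg _))
  · refine tendsto_nhds_unique (hy S.Ω) ?_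
    simp only [hxΩ]
    exact hlim

/-- bounded `‖·‖₂`-convergence is strong convergence (any filter) -/
theorem tendsto_of {ι : Type*} {F : Filter ι} {x : ι → H →L[ℂ] H} {y : H →L[ℂ] H} {C : ℝ}
    (hx : ∀ i, x i ∈ S.M) (hy : y ∈ S.M) (hC : ∀ i, ‖x i‖ ≤ C)
    (h : Tendsto (fun i => x i S.Ω) F (𝓝 (y S.Ω))) (ω : H) :
    Tendsto (fun i => x i ω) F (𝓝 (y ω)) :=
  S.BASC_tendsto_of hx hy hC h ω

theorem BASC_small {W : Type*} [NormedAddCommGroup W] (g : (H →L[ℂ] H) → W) (C : ℝ)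
    (hg : ∀ x : ℕ → H →L[ℂ] H, (∀ i, x i ∈ S.M) → (∀ i, ‖x i‖ ≤ C) →
      Tendsto (fun i => x i S.Ω) atTop (𝓝 ((0 : H →L[ℂ] H) S.Ω)) →
      Tendsto (fun i => g (x i)) atTop (𝓝 0)) {ε : ℝ} (hε : 0 < ε) :
    ∃ δ : ℝ, 0 < δ ∧ ∀ x ∈ S.M, ‖x‖ ≤ C → ‖x S.Ω‖ ≤ δ → ‖g x‖ ≤ ε := by
  by_contra hcon
  push Not at hcon
  have h1 : ∀ k : ℕ, ∃ x ∈ S.M, ‖x‖ ≤ C ∧ ‖x S.Ω‖ ≤ 1 / ((k : ℝ) + 1) ∧ ε < ‖g x‖ := by
    intro k
    obtain ⟨x, hx1, hx2, hx3, hx4⟩ := hcon (1 / ((k : ℝ) + 1)) (by positivity)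
    exact ⟨x, hx1, hx2, hx3, hx4⟩
  choose x hx1 hx2 hx3 hx4 using h1
  have h2 : Tendsto (fun i => x i S.Ω) atTop (𝓝 ((0 : H →L[ℂ] H) S.Ω)) := by
    rw [_root_.zero_apply]
    exact squeeze_zero_norm hx3 tendsto_one_div_add_atTop_nhds_zero_nat
  have h3 := hg x hx1 hx2 h2
  have h4 := (Metric.tendsto_nhds.1 h3 ε hε).exists
  obtain ⟨k, hk⟩ := h4
  rw [dist_zero_right] at hk
  exact lt_asymm hk (hx4 k)

theorem BASC_zero_mem : (0 : H →L[ℂ] H) ∈ S.M := zero_mem _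

/-- quantitative and uniform: smallness in `‖·‖₂` of elements of a ball of `M` gives smallness on
any given vector -/
theorem small_of (C : ℝ) (ω : H) {ε : ℝ} (hε : 0 < ε) : ∃ δ : ℝ, 0 < δ ∧ ∀ x ∈ S.M, ‖x‖ ≤ C →
    ‖x S.Ω‖ ≤ δ → ‖x ω‖ ≤ ε := by
  refine S.BASC_small (fun x => x ω) C ?_ hε
  intro x hx hxC h
  have := S.tendsto_of hx S.BASC_zero_mem hxC h ω
  simpa using this

/-! ## the two actions on `K` -/

theorem l_mul (x y : H →L[ℂ] H) : S.l (x * y) = S.l x * S.l y := map_mul S.T.L x y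

theorem l_add (x y : H →L[ℂ] H) : S.l (x + y) = S.l x + S.l y := map_add S.T.L x y

theorem l_sub (x y : H →L[ℂ] H) : S.l (x - y) = S.l x - S.l y := map_sub S.T.L x y

theorem l_smul (c : ℂ) (x : H →L[ℂ] H) : S.l (c • x) = c • S.l x := map_smul S.T.L c x

theorem l_one : S.l 1 = 1 := map_one S.T.L

theorem l_star (x : H →L[ℂ] H) : S.l (star x) = star (S.l x) := map_star S.T.L x

theorem l_norm_le (x : H →L[ℂ] H) : ‖S.l x‖ ≤ ‖x‖ := S.T.L_norm_le x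

theorem l_tp (x : H →L[ℂ] H) (a b : H) : S.l x (S.T.tp a b) = S.T.tp (x a) b := S.T.L_tp x a b

theorem r_tp (y : H →L[ℂ] H) (a b : H) : S.r y (S.T.tp a b) = S.T.tp a (S.ρ y b) :=
  S.T.R_tp _ a b

theorem r_mul {x y : H →L[ℂ] H} (hx : x ∈ S.M) (hy : y ∈ S.M) :
    S.r (x * y) = S.r y * S.r x := by
  unfold Std.r
  rw [S.ρ_mul hx hy, map_mul]

theorem r_add {x y : H →L[ℂ] H} (hx : x ∈ S.M) (hy : y ∈ S.M) : S.r (x + y) = S.r x + S.r y := by
  unfold Std.r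
  rw [S.ρ_add hx hy, map_add]

theorem r_smul (c : ℂ) {y : H →L[ℂ] H} (hy : y ∈ S.M) : S.r (c • y) = c • S.r y := by
  unfold Std.r
  rw [S.ρ_smul c hy, map_smul]

theorem r_sub {x y : H →L[ℂ] H} (hx : x ∈ S.M) (hy : y ∈ S.M) : S.r (x - y) = S.r x - S.r y := by
  have h1 : x - y = x + (-1 : ℂ) • y := by rw [neg_one_smul, sub_eq_add_neg]
  rw [h1, S.r_add hx (S.smul_mem _ hy), S.r_smul _ hy, neg_one_smul, sub_eq_add_neg]

theorem r_one : S.r 1 = 1 := by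
  unfold Std.r
  rw [S.ρ_one, map_one]

theorem r_star {y : H →L[ℂ] H} (hy : y ∈ S.M) : S.r (star y) = star (S.r y) := by
  unfold Std.r
  rw [S.ρ_star hy, map_star]

theorem r_norm_le {y : H →L[ℂ] H} (hy : y ∈ S.M) : ‖S.r y‖ ≤ ‖y‖ :=
  (S.T.R_norm_le _).trans (S.ρ_norm_le hy)

/-- no membership needed: legs -/
theorem lr_comm (x y : H →L[ℂ] H) (κ : K) : S.l x (S.r y κ) = S.r y (S.l x κ) := by
  have h := congrArg (fun T : K →L[ℂ] K => T κ) (S.T.LR_comm x (S.ρ y))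
  exact h

theorem l_tendsto {ι : Type*} {F : Filter ι} {x : ι → H →L[ℂ] H} {y : H →L[ℂ] H} {C : ℝ}
    (hx : ∀ i, x i ∈ S.M) (hy : y ∈ S.M) (hC : ∀ i, ‖x i‖ ≤ C)
    (h : Tendsto (fun i => x i S.Ω) F (𝓝 (y S.Ω))) (κ : K) :
    Tendsto (fun i => S.l (x i) κ) F (𝓝 (S.l y κ)) := by
  refine S.T.induction (fun κ => Tendsto (fun i => S.l (x i) κ) F (𝓝 (S.l y κ))) ?_ ?_ ?_ ?_ κ
  · intro a b
    simp only [S.l_tp]
    have h1 := S.tendsto_of hx hy hC h a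
    have h2 : Continuous fun v : H => S.T.tp v b := by fun_prop
    exact (h2.tendsto _).comp h1
  · intro u v hu hv
    simp only [map_add]
    exact hu.add hv
  · intro c u hu
    simp only [map_smul]
    exact hu.const_smul c
  · exact BASC_closed (fun i => S.l (x i)) (S.l y) (fun i => (S.l_norm_le _).trans (hC i))

theorem r_tendsto {ι : Type*} {F : Filter ι} {x : ι → H →L[ℂ] H} {y : H →L[ℂ] H} {C : ℝ}
    (hx : ∀ i, x i ∈ S.M) (hy : y ∈ S.M) (hC : ∀ i, ‖x i‖ ≤ C)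
    (h : Tendsto (fun i => x i S.Ω) F (𝓝 (y S.Ω))) (κ : K) :
    Tendsto (fun i => S.r (x i) κ) F (𝓝 (S.r y κ)) := by
  have hρ : ∀ b : H, Tendsto (fun i => S.ρ (x i) b) F (𝓝 (S.ρ y b)) := by
    intro b
    refine BASC_dense (fun i => S.ρ (x i)) (S.ρ y)
      (fun i => (S.ρ_norm_le (hx i)).trans (hC i)) S.BASC_dense_Ω ?_ b
    rintro _ ⟨z, hz, rfl⟩
    have h1 : ∀ i, S.ρ (x i) (z S.Ω) = z (x i S.Ω) := fun i => S.ρ_apply z hz _ (hx i)
    have h2 : S.ρ y (z S.Ω) = z (y S.Ω) := S.ρ_apply z hz _ hy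
    simp only [h1, h2]
    exact (z.continuous.tendsto _).comp h
  refine S.T.induction (fun κ => Tendsto (fun i => S.r (x i) κ) F (𝓝 (S.r y κ))) ?_ ?_ ?_ ?_ κ
  · intro a b
    simp only [S.r_tp]
    have h2 : Continuous fun v : H => S.T.tp a v := by fun_prop
    exact (h2.tendsto _).comp (hρ b)
  · intro u v hu hv
    simp only [map_add]
    exact hu.add hv
  · intro c u hu
    simp only [map_smul]
    exact hu.const_smul c
  · exact BASC_closed (fun i => S.r (x i)) (S.r y) (fun i => (S.r_norm_le (hx i)).trans (hC i))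

theorem l_small (C : ℝ) (κ : K) {ε : ℝ} (hε : 0 < ε) : ∃ δ : ℝ, 0 < δ ∧ ∀ x ∈ S.M, ‖x‖ ≤ C →
    ‖x S.Ω‖ ≤ δ → ‖S.l x κ‖ ≤ ε := by
  refine S.BASC_small (fun x => S.l x κ) C ?_ hε
  intro x hx hxC h
  have h1 := S.l_tendsto hx S.BASC_zero_mem hxC h κ
  have h2 : S.l 0 κ = 0 := by
    have h3 : S.l 0 = 0 := map_zero S.T.L
    rw [h3, _root_.zero_apply]
  rw [h2] at h1
  exact h1

theorem r_small (C : ℝ) (κ : K) {ε : ℝ} (hε : 0 < ε) : ∃ δ : ℝ, 0 < δ ∧ ∀ x ∈ S.M, ‖x‖ ≤ C →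
    ‖x S.Ω‖ ≤ δ → ‖S.r x κ‖ ≤ ε := by
  refine S.BASC_small (fun x => S.r x κ) C ?_ hε
  intro x hx hxC h
  have h1 := S.r_tendsto hx S.BASC_zero_mem hxC h κ
  have h2 : S.r 0 κ = 0 := by
    have h3 : S.r ((0 : ℂ) • 0) = (0 : ℂ) • S.r 0 := S.r_smul 0 S.BASC_zero_mem
    rw [zero_smul, zero_smul] at h3
    rw [h3, _root_.zero_apply]
  rw [h2] at h1
  exact h1

end Std

end

end Pool.H62.UC
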