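import Pool.Agent.H62.UC.CloseA

/-!
# CLOSEB (`exists_group`, `spanAlg`): a countable group of unitaries closed under countably many maps

`exists_group`: given a sequence `x` in `M`, a sequence `v` in `UM S` and maps `Y k : UM S → M`,
there is an enumeration `u : ℕ → UM S` whose range `W` is a group (contains `1`, closed under
products and stars) containing all `v n`, such that all `x k` and all `Y k g` (`g ∈ W`) are in the
linear span of `W`.  Every element of `M` is a linear combination of four unitaries of `M`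
(self-adjoint contraction `a = (w + w*)/2`, `w = a + i √(1 - a²)`; alternatively
`CStarAlgebra`: `exists_sum_four_unitary`, check membership in `M`: `M` is a C*-algebra, or the
square root commutes with `M'`).  Countable closure: iterate.
-/

namespace Pool.H62.UC

open scoped InnerProductSpace TensorProduct ComplexConjugate
open Filter Topology

noncomputable section


variable {H : Type*} [NormedAddCommGroup H] [InnerProductSpace ℂ H] [CompleteSpace H]
variable {K : Type*} [NormedAddCommGroup K] [InnerProductSpace ℂ K] [CompleteSpace K]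

theorem closeb_four (S : Std H K) (z : H →L[ℂ] H) :
    ∃ w : Fin 4 → H →L[ℂ] H, (∀ j, w j ∈ UM S) ∧
      (z ∈ S.M → z ∈ Submodule.span ℂ (Set.range w)) := by
  by_cases hz : z ∈ S.M
  · obtain ⟨w, c, hw, hsum⟩ := four_unitaries S z hz
    refine ⟨w, hw, fun _ => ?_⟩
    rw [hsum]
    exact Submodule.sum_mem _ fun j _ =>
      Submodule.smul_mem _ _ (Submodule.subset_span (Set.mem_range_self j))
  · exact ⟨fun _ => 1, fun _ => UM_one S, fun h => absurd h hz⟩

/-- one closure step -/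
def closebStep (Y : ℕ → (H →L[ℂ] H) → (H →L[ℂ] H))
    (w : (H →L[ℂ] H) → Fin 4 → H →L[ℂ] H) (A : Set (H →L[ℂ] H)) : Set (H →L[ℂ] H) :=
  A ∪ (⋃ a ∈ A, ⋃ b ∈ A, {a * b}) ∪ (⋃ a ∈ A, {star a}) ∪
    (⋃ k : ℕ, ⋃ g ∈ A, Set.range (w (Y k g)))

/-- the increasing sequence of countable sets -/
def closebSeq (Y : ℕ → (H →L[ℂ] H) → (H →L[ℂ] H))
    (w : (H →L[ℂ] H) → Fin 4 → H →L[ℂ] H) (A0 : Set (H →L[ℂ] H)) : ℕ → Set (H →L[ℂ] H)
  | 0 => A0
  | n + 1 => closebStep Y w (closebSeq Y w A0 n)

theorem closebStep_countable (Y : ℕ → (H →L[ℂ] H) → (H →L[ℂ] H))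
    (w : (H →L[ℂ] H) → Fin 4 → H →L[ℂ] H) (A : Set (H →L[ℂ] H)) (hA : A.Countable) :
    (closebStep Y w A).Countable := by
  unfold closebStep
  refine ((hA.union ?_).union ?_).union ?_
  · exact hA.biUnion fun a _ => hA.biUnion fun b _ => Set.countable_singleton _
  · exact hA.biUnion fun a _ => Set.countable_singleton _
  · exact Set.countable_iUnion fun k => hA.biUnion fun g _ => Set.countable_range _

theorem closebSeq_countable (Y : ℕ → (H →L[ℂ] H) → (H →L[ℂ] H))
    (w : (H →L[ℂ] H) → Fin 4 → H →L[ℂ] H) (A : Set (H →L[ℂ] H)) (hA : A.Countable) (n : ℕ) :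
    (closebSeq Y w A n).Countable := by
  induction n with
  | zero => exact hA
  | succ n ih => exact closebStep_countable Y w _ ih

theorem closebSeq_mono (Y : ℕ → (H →L[ℂ] H) → (H →L[ℂ] H))
    (w : (H →L[ℂ] H) → Fin 4 → H →L[ℂ] H) (A : Set (H →L[ℂ] H)) :
    Monotone (closebSeq Y w A) := by
  refine monotone_nat_of_le_succ fun n => ?_
  intro a ha
  exact Or.inl (Or.inl (Or.inl ha))

theorem exists_group (S : Std H K) (x v : ℕ → H →L[ℂ] H) (hx : ∀ k, x k ∈ S.M)
    (hv : ∀ n, v n ∈ UM S) (Y : ℕ → (H →L[ℂ] H) → (H →L[ℂ] H))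
    (hY : ∀ k, ∀ g ∈ UM S, Y k g ∈ S.M) :
    ∃ u : ℕ → H →L[ℂ] H, (∀ l, u l ∈ UM S) ∧ (1 : H →L[ℂ] H) ∈ Set.range u ∧
      (∀ a ∈ Set.range u, ∀ b ∈ Set.range u, a * b ∈ Set.range u) ∧
      (∀ a ∈ Set.range u, star a ∈ Set.range u) ∧ (∀ n, v n ∈ Set.range u) ∧
      (∀ k, x k ∈ Submodule.span ℂ (Set.range u)) ∧
      (∀ k, ∀ g ∈ Set.range u, Y k g ∈ Submodule.span ℂ (Set.range u)) := by
  choose w hw1 hw2 using closeb_four S
  set A0 : Set (H →L[ℂ] H) := {1} ∪ Set.range v ∪ ⋃ k : ℕ, Set.range (w (x k)) with hA0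
  have hA0c : A0.Countable := by
    refine ((Set.countable_singleton _).union (Set.countable_range _)).union ?_
    exact Set.countable_iUnion fun k => Set.countable_range _
  set W : Set (H →L[ℂ] H) := ⋃ n : ℕ, closebSeq Y w A0 n with hW
  have hWc : W.Countable := Set.countable_iUnion fun n => closebSeq_countable Y w A0 hA0c n
  have h0W : A0 ⊆ W := fun a ha => Set.mem_iUnion.2 ⟨0, ha⟩
  have h1W : (1 : H →L[ℂ] H) ∈ W := h0W (Or.inl (Or.inl rfl))
  have hUM : ∀ n, closebSeq Y w A0 n ⊆ UM S := by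
    intro n
    induction n with
    | zero =>
      rintro a ((ha | ⟨n, rfl⟩) | ha)
      · rw [Set.mem_singleton_iff] at ha
        rw [ha]
        exact UM_one S
      · exact hv n
      · obtain ⟨k, j, rfl⟩ := Set.mem_iUnion.1 ha
        exact hw1 _ j
    | succ n ih =>
      rintro a (((ha | ha) | ha) | ha)
      · exact ih ha
      · simp only [Set.mem_iUnion, Set.mem_singleton_iff] at ha
        obtain ⟨b, hb, c, hc, rfl⟩ := ha
        exact UM_mul S (ih hb) (ih hc)
      · simp only [Set.mem_iUnion, Set.mem_singleton_iff] at ha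
        obtain ⟨b, hb, rfl⟩ := ha
        exact UM_star S (ih hb)
      · simp only [Set.mem_iUnion] at ha
        obtain ⟨k, g, hg, j, rfl⟩ := ha
        exact hw1 _ j
  have hmono := closebSeq_mono Y w A0
  have hstepW : ∀ n, closebStep Y w (closebSeq Y w A0 n) ⊆ W :=
    fun n a ha => Set.mem_iUnion.2 ⟨n + 1, ha⟩
  obtain ⟨u, hu⟩ := hWc.exists_eq_range ⟨1, h1W⟩
  refine ⟨u, ?_, ?_, ?_, ?_, ?_, ?_, ?_⟩
  · intro l
    have : u l ∈ W := by rw [hu]; exact Set.mem_range_self l
    obtain ⟨n, hn⟩ := Set.mem_iUnion.1 this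
    exact hUM n hn
  · rw [← hu]; exact h1W
  · rw [← hu]
    intro a ha b hb
    obtain ⟨n, hn⟩ := Set.mem_iUnion.1 ha
    obtain ⟨m, hm⟩ := Set.mem_iUnion.1 hb
    refine hstepW (max n m) (Or.inl (Or.inl (Or.inr ?_)))
    simp only [Set.mem_iUnion, Set.mem_singleton_iff]
    exact ⟨a, hmono (le_max_left n m) hn, b, hmono (le_max_right n m) hm, rfl⟩
  · rw [← hu]
    intro a ha
    obtain ⟨n, hn⟩ := Set.mem_iUnion.1 ha
    refine hstepW n (Or.inl (Or.inr ?_))
    simp only [Set.mem_iUnion, Set.mem_singleton_iff]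
    exact ⟨a, hn, rfl⟩
  · rw [← hu]
    intro n
    exact h0W (Or.inl (Or.inr (Set.mem_range_self n)))
  · rw [← hu]
    intro k
    refine Submodule.span_mono ?_ (hw2 (x k) (hx k))
    intro a ha
    exact h0W (Or.inr (Set.mem_iUnion.2 ⟨k, ha⟩))
  · rw [← hu]
    intro k g hg
    obtain ⟨n, hn⟩ := Set.mem_iUnion.1 hg
    refine Submodule.span_mono ?_ (hw2 (Y k g) (hY k g (hUM n hn)))
    intro a ha
    refine hstepW n (Or.inr ?_)
    simp only [Set.mem_iUnion]
    exact ⟨k, g, hn, ha⟩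

/-- the span of a star-closed group is a star subalgebra -/
def spanAlg (W : Set (H →L[ℂ] H)) (h1 : (1 : H →L[ℂ] H) ∈ W)
    (hmul : ∀ a ∈ W, ∀ b ∈ W, a * b ∈ W) (hstar : ∀ a ∈ W, star a ∈ W) :
    StarSubalgebra ℂ (H →L[ℂ] H) where
  carrier := Submodule.span ℂ W
  mul_mem' := by
    intro a b ha hb
    have ha' : a ∈ Submodule.span ℂ W := ha
    have hb' : b ∈ Submodule.span ℂ W := hb
    change a * b ∈ Submodule.span ℂ W
    have h : a * b ∈ Submodule.span ℂ W * Submodule.span ℂ W := Submodule.mul_mem_mul ha' hb'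
    rw [Submodule.span_mul_span] at h
    refine Submodule.span_mono ?_ h
    rintro _ ⟨c, hc, d, hd, rfl⟩
    exact hmul c hc d hd
  one_mem' := Submodule.subset_span h1
  add_mem' := by
    intro a b ha hb
    exact Submodule.add_mem _ ha hb
  zero_mem' := Submodule.zero_mem _
  algebraMap_mem' := by
    intro c
    change algebraMap ℂ (H →L[ℂ] H) c ∈ Submodule.span ℂ W
    rw [Algebra.algebraMap_eq_smul_one]
    exact Submodule.smul_mem _ _ (Submodule.subset_span h1)
  star_mem' := by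
    intro a ha
    have ha' : a ∈ Submodule.span ℂ W := ha
    change star a ∈ Submodule.span ℂ W
    induction ha' using Submodule.span_induction with
    | mem x hx => exact Submodule.subset_span (hstar x hx)
    | zero => rw [star_zero]; exact Submodule.zero_mem _
    | add x y hx hy hx' hy' =>
      rw [star_add]
      exact Submodule.add_mem _ (hx' hx) (hy' hy)
    | smul c x hx hx' =>
      rw [star_smul]
      exact Submodule.smul_mem _ _ (hx' hx)

theorem mem_spanAlg (W : Set (H →L[ℂ] H)) (h1 : (1 : H →L[ℂ] H) ∈ W)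
    (hmul : ∀ a ∈ W, ∀ b ∈ W, a * b ∈ W) (hstar : ∀ a ∈ W, star a ∈ W) (z : H →L[ℂ] H) :
    z ∈ spanAlg W h1 hmul hstar ↔ z ∈ Submodule.span ℂ W := Iff.rfl

end

end Pool.H62.UC
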