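import Mathlib

/-!
# MP_95f3e5_an : definitions

`H` is `L²(M, τ)`, `Ω` the trace vector, `K` the coarse bimodule `L²(M) ⊗ L²(M^op)`.
-/

namespace Pool.H62.UC

open scoped InnerProductSpace TensorProduct ComplexConjugate
open Filter Topology

noncomputable section

variable {H : Type*} [NormedAddCommGroup H] [InnerProductSpace ℂ H] [CompleteSpace H]
variable {K : Type*} [NormedAddCommGroup K] [InnerProductSpace ℂ K] [CompleteSpace K]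

/-- `Ω` is a cyclic trace vector of norm one for the star algebra `A`. -/
structure IsTV (A : StarSubalgebra ℂ (H →L[ℂ] H)) (Ω : H) : Prop where
  norm_one : ‖Ω‖ = 1
  trace : ∀ x ∈ A, ∀ y ∈ A, ⟪Ω, (x * y) Ω⟫_ℂ = ⟪Ω, (y * x) Ω⟫_ℂ
  cyclic : Dense {ξ : H | ∃ x ∈ A, x Ω = ξ}

/-- `Ω` is a separating trace vector for the von Neumann algebra `N`
(no cyclicity, no normalisation). -/
structure IsST (N : VonNeumannAlgebra H) (Ω : H) : Prop where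
  trace : ∀ x ∈ N, ∀ y ∈ N, ⟪Ω, (x * y) Ω⟫_ℂ = ⟪Ω, (y * x) Ω⟫_ℂ
  sep : ∀ x ∈ N, x Ω = 0 → x = 0

/-- `K` as a Hilbert space tensor square of `H`, with the two leg actions. -/
structure Coarse (H K : Type*) [NormedAddCommGroup H] [InnerProductSpace ℂ H] [CompleteSpace H]
    [NormedAddCommGroup K] [InnerProductSpace ℂ K] [CompleteSpace K] where
  /-- the tensor product of two vectors -/
  tp : H →L[ℂ] H →L[ℂ] K
  inner_tp : ∀ a b c d, ⟪tp a b, tp c d⟫_ℂ = ⟪a, c⟫_ℂ * ⟪b, d⟫_ℂ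
  dense_tp : (Submodule.span ℂ {κ : K | ∃ a b, tp a b = κ}).topologicalClosure = ⊤
  /-- `A ↦ A ⊗ 1` -/
  L : (H →L[ℂ] H) →⋆ₐ[ℂ] (K →L[ℂ] K)
  /-- `A ↦ 1 ⊗ A` -/
  R : (H →L[ℂ] H) →⋆ₐ[ℂ] (K →L[ℂ] K)
  L_tp : ∀ A a b, L A (tp a b) = tp (A a) b
  R_tp : ∀ A a b, R A (tp a b) = tp a (A b)

/-- The standing data: a finite von Neumann algebra `M` in standard form on `H` with trace vector
`Ω`, its coarse bimodule `K`, and right multiplication `ρ y : x Ω ↦ x y Ω`. -/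
structure Std (H K : Type*) [NormedAddCommGroup H] [InnerProductSpace ℂ H] [CompleteSpace H]
    [NormedAddCommGroup K] [InnerProductSpace ℂ K] [CompleteSpace K] where
  M : VonNeumannAlgebra H
  Ω : H
  tv : IsTV M.toStarSubalgebra Ω
  T : Coarse H K
  ρ : (H →L[ℂ] H) → (H →L[ℂ] H)
  ρ_apply : ∀ x ∈ M, ∀ y ∈ M, ρ y (x Ω) = (x * y) Ω

/-- left action of `M` on `K` -/
def Std.l (S : Std H K) (x : H →L[ℂ] H) : K →L[ℂ] K := S.T.L x

/-- right action of `M` on `K` -/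
def Std.r (S : Std H K) (y : H →L[ℂ] H) : K →L[ℂ] K := S.T.R (S.ρ y)

/-- Graph of a boundedly closed derivation `M ⊇ D_b → K`. -/
structure BClosed (S : Std H K) (Gr : Submodule ℂ ((H →L[ℂ] H) × K)) : Prop where
  mem : ∀ p ∈ Gr, p.1 ∈ S.M
  leib : ∀ p ∈ Gr, ∀ q ∈ Gr, (p.1 * q.1, S.l p.1 q.2 + S.r q.1 p.2) ∈ Gr
  sv : ∀ ξ : K, ((0 : H →L[ℂ] H), ξ) ∈ Gr → ξ = 0
  closed : ∀ C : ℝ, IsClosed {q : H × K | ∃ p ∈ Gr, ‖p.1‖ ≤ C ∧ q = (p.1 S.Ω, p.2)}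

/-- Uniform approximation of the unit ball of `M` by elements of bounded derivative. -/
def UA (S : Std H K) (Gr : Submodule ℂ ((H →L[ℂ] H) × K)) : Prop :=
  ∀ ε : ℝ, 0 < ε → ∃ C : ℝ, ∀ g ∈ S.M, ‖g‖ ≤ 1 →
    ∃ p ∈ Gr, ‖p.1‖ ≤ 5 ∧ ‖p.1 S.Ω - g S.Ω‖ ≤ ε ∧ ‖p.2‖ ≤ C

/-- bounded complex functions -/
def Bdd {I : Type*} (f : I → ℂ) : Prop := ∃ C : ℝ, ∀ i, ‖f i‖ ≤ C

/-- A mean (finitely additive probability) on the set `I`, as a functional on bounded functions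
(the values on unbounded functions are irrelevant). -/
structure Mean (I : Type*) where
  m : (I → ℂ) → ℂ
  add : ∀ f g, Bdd f → Bdd g → m (fun i => f i + g i) = m f + m g
  smul : ∀ (c : ℂ) (f), Bdd f → m (fun i => c * f i) = c * m f
  const : ∀ c : ℂ, m (fun _ => c) = c
  nonneg : ∀ f : I → ℝ, (∃ C : ℝ, ∀ i, |f i| ≤ C) → (∀ i, 0 ≤ f i) →
    0 ≤ (m (fun i => (f i : ℂ))).re ∧ (m (fun i => (f i : ℂ))).im = 0

end

end Pool.H62.UC
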