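import Pool.Agent.H62.UC.StarA

/-!
# EST: norms and limits of the means `aL`, `aR`
-/

namespace Pool.H62.UC

open scoped InnerProductSpace TensorProduct ComplexConjugate
open Filter Topology

noncomputable section

variable {H : Type*} [NormedAddCommGroup H] [InnerProductSpace ℂ H] [CompleteSpace H]
variable {K : Type*} [NormedAddCommGroup K] [InnerProductSpace ℂ K] [CompleteSpace K]

theorem est_gL_mem (S : Std H K) (u v : ℕ → H →L[ℂ] H) (hu : ∀ l, u l ∈ UM S)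
    (hv : ∀ n, v n ∈ UM S) (c : List ((ℕ × ℕ) × ℕ) × (ℕ × ℕ)) : gL u v c ∈ UM S :=
  UM_mul S (gword_mem S u v hu hv c.1) (hv c.2.1)

theorem est_gL'_mem (S : Std H K) (u v : ℕ → H →L[ℂ] H) (hu : ∀ l, u l ∈ UM S)
    (hv : ∀ n, v n ∈ UM S) (c : List ((ℕ × ℕ) × ℕ) × (ℕ × ℕ)) : gL' u v c ∈ UM S :=
  UM_mul S (gword_mem S u v hu hv c.1) (hv c.2.2)

theorem est_L_norm (S : Std H K) (u v : ℕ → H →L[ℂ] H) (hu : ∀ l, u l ∈ UM S)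
    (hv : ∀ n, v n ∈ UM S) (YL : (H →L[ℂ] H) → (H →L[ℂ] H)) (h : ∀ g ∈ UM S, ‖YL g‖ ≤ 5)
    (c : List ((ℕ × ℕ) × ℕ) × (ℕ × ℕ)) : ‖qL u v YL c * gL u v c‖ ≤ 10 := by
  have h1 := h _ (UM_star S (est_gL_mem S u v hu hv c))
  have h2 := h _ (UM_star S (est_gL'_mem S u v hu hv c))
  have h3 := UM_norm S (est_gL_mem S u v hu hv c)
  have h4 : ‖qL u v YL c‖ ≤ 10 := by
    unfold qL
    exact (norm_sub_le _ _).trans (by linarith)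
  calc ‖qL u v YL c * gL u v c‖ ≤ ‖qL u v YL c‖ * ‖gL u v c‖ := norm_mul_le _ _
    _ ≤ 10 * 1 := mul_le_mul h4 h3 (norm_nonneg _) (by norm_num)
    _ = 10 := by norm_num

theorem est_R_norm (S : Std H K) (u v : ℕ → H →L[ℂ] H) (hu : ∀ l, u l ∈ UM S)
    (hv : ∀ n, v n ∈ UM S) (YR : (H →L[ℂ] H) → (H →L[ℂ] H)) (h : ∀ g ∈ UM S, ‖YR g‖ ≤ 5)
    (R : List ((ℕ × ℕ) × ℕ)) : ‖gword u v R * qR u v YR R‖ ≤ 5 := by
  have h1 : ‖qR u v YR R‖ ≤ 5 := h _ (UM_star S (gword_mem S u v hu hv R))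
  have h3 := UM_norm S (gword_mem S u v hu hv R)
  calc ‖gword u v R * qR u v YR R‖ ≤ ‖gword u v R‖ * ‖qR u v YR R‖ := norm_mul_le _ _
    _ ≤ 1 * 5 := mul_le_mul h3 h1 (norm_nonneg _) (by norm_num)
    _ = 5 := by norm_num

theorem aL_norm (S : Std H K) (F : Ultrafilter ℕ)
    (u v : ℕ → H →L[ℂ] H) (hu : ∀ l, u l ∈ UM S) (hv : ∀ n, v n ∈ UM S)
    (YL : (H →L[ℂ] H) → (H →L[ℂ] H)) (h : ∀ g ∈ UM S, ‖YL g‖ ≤ 5) : ‖aL F u v YL‖ ≤ 10 :=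
  Mean.norm_op_le _ _ 10 (by norm_num) (est_L_norm S u v hu hv YL h)

theorem aR_norm (S : Std H K) (F : Ultrafilter ℕ)
    (u v : ℕ → H →L[ℂ] H) (hu : ∀ l, u l ∈ UM S) (hv : ∀ n, v n ∈ UM S)
    (YR : (H →L[ℂ] H) → (H →L[ℂ] H)) (h : ∀ g ∈ UM S, ‖YR g‖ ≤ 5) : ‖aR F u v YR‖ ≤ 5 :=
  Mean.norm_op_le _ _ 5 (by norm_num) (est_R_norm S u v hu hv YR h)

theorem est_gword_mem (u v : ℕ → H →L[ℂ] H) (W : Set (H →L[ℂ] H))
    (huW : ∀ l, u l ∈ W) (hvW : ∀ n, v n ∈ W) (h1 : (1 : H →L[ℂ] H) ∈ W)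
    (hmul : ∀ x ∈ W, ∀ y ∈ W, x * y ∈ W) (w : List ((ℕ × ℕ) × ℕ)) : gword u v w ∈ W := by
  induction w with
  | nil => exact h1
  | cons i w ih => exact hmul _ (hmul _ (hvW _) _ (huW _)) _ ih

/-- membership in a von Neumann algebra containing everything -/
theorem aL_mem (S : Std H K) (F : Ultrafilter ℕ)
    (u v : ℕ → H →L[ℂ] H) (hu : ∀ l, u l ∈ UM S) (hv : ∀ n, v n ∈ UM S)
    (YL : (H →L[ℂ] H) → (H →L[ℂ] H)) (h : ∀ g ∈ UM S, ‖YL g‖ ≤ 5)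
    (N : VonNeumannAlgebra H) (W : Set (H →L[ℂ] H)) (hWN : ∀ g ∈ W, g ∈ N)
    (huW : ∀ l, u l ∈ W) (hvW : ∀ n, v n ∈ W) (h1 : (1 : H →L[ℂ] H) ∈ W)
    (hmul : ∀ x ∈ W, ∀ y ∈ W, x * y ∈ W) (hstar : ∀ x ∈ W, star x ∈ W)
    (hY : ∀ g ∈ W, YL g ∈ N) : aL F u v YL ∈ N := by
  refine Mean.op_mem _ _ ⟨10, est_L_norm S u v hu hv YL h⟩ N fun c => ?_
  have h2 : gL u v c ∈ W := hmul _ (est_gword_mem u v W huW hvW h1 hmul c.1) _ (hvW _)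
  have h3 : gL' u v c ∈ W := hmul _ (est_gword_mem u v W huW hvW h1 hmul c.1) _ (hvW _)
  exact mul_mem (sub_mem (hY _ (hstar _ h2)) (hY _ (hstar _ h3))) (hWN _ h2)

theorem aR_mem (S : Std H K) (F : Ultrafilter ℕ)
    (u v : ℕ → H →L[ℂ] H) (hu : ∀ l, u l ∈ UM S) (hv : ∀ n, v n ∈ UM S)
    (YR : (H →L[ℂ] H) → (H →L[ℂ] H)) (h : ∀ g ∈ UM S, ‖YR g‖ ≤ 5)
    (N : VonNeumannAlgebra H) (W : Set (H →L[ℂ] H)) (hWN : ∀ g ∈ W, g ∈ N)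
    (huW : ∀ l, u l ∈ W) (hvW : ∀ n, v n ∈ W) (h1 : (1 : H →L[ℂ] H) ∈ W)
    (hmul : ∀ x ∈ W, ∀ y ∈ W, x * y ∈ W) (hstar : ∀ x ∈ W, star x ∈ W)
    (hY : ∀ g ∈ W, YR g ∈ N) : aR F u v YR ∈ N := by
  refine Mean.op_mem _ _ ⟨5, est_R_norm S u v hu hv YR h⟩ N fun R => ?_
  have h2 : gword u v R ∈ W := est_gword_mem u v W huW hvW h1 hmul R
  exact mul_mem (hWN _ h2) (hY _ (hstar _ h2))

/-- the mean of a function of the last pair -/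
theorem est_mLω (F : Ultrafilter ℕ) (φ : ℕ × ℕ → ℂ) :
    (mLω F).m (fun c => φ c.2) = (mNN F).m φ := by
  change (Mean.ultra F).m (fun J => (Mean.avg J).m (fun j => ((mI F).words j).m (fun _ =>
    (mNN F).m (fun p => φ p)))) = (mNN F).m φ
  simp only [Mean.const]

theorem est_eps (S : Std H K) (Y : (H →L[ℂ] H) → (H →L[ℂ] H)) (ε : ℝ)
    (hc : ∀ g ∈ UM S, ‖(Y g - g) S.Ω‖ ≤ ε) : 0 ≤ ε :=
  (norm_nonneg _).trans (hc 1 (UM_one S))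

/-- one term -/
theorem est_term (S : Std H K) (Y : (H →L[ℂ] H) → (H →L[ℂ] H)) (hM : ∀ g ∈ UM S, Y g ∈ S.M)
    (ε : ℝ) (hc : ∀ g ∈ UM S, ‖(Y g - g) S.Ω‖ ≤ ε) {a g : H →L[ℂ] H} (ha : a ∈ UM S)
    (hg : g ∈ UM S) : ‖(Y a * g - a * g) S.Ω‖ ≤ ε := by
  rw [← sub_mul, S.norm_mul_unitary (sub_mem (hM a ha) ha.1) hg.1 hg.2]
  exact hc a ha

/-- `q_c g_c = YL (g_c*) g_c - YL (g_c'*) g_c`; the first term is `ε`-close to `1` in `‖·‖₂`, the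
second to `g_c'* g_c = (v n')* v n`, whose mean is `e* e = e` (`mNN_weak`). -/
theorem aL_close (S : Std H K) (F : Ultrafilter ℕ) (hF : (F : Filter ℕ) ≤ atTop)
    (u v : ℕ → H →L[ℂ] H) (hu : ∀ l, u l ∈ UM S) (hv : ∀ n, v n ∈ UM S)
    (e : H →L[ℂ] H) (he : IsStarProjection e)
    (hw : ∀ ζ ω : H, Tendsto (fun n => ⟪ζ, v n ω⟫_ℂ) atTop (𝓝 ⟪ζ, e ω⟫_ℂ))
    (YL : (H →L[ℂ] H) → (H →L[ℂ] H)) (hM : ∀ g ∈ UM S, YL g ∈ S.M)
    (h : ∀ g ∈ UM S, ‖YL g‖ ≤ 5) (ε : ℝ)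
    (hc : ∀ g ∈ UM S, ‖(YL g - g) S.Ω‖ ≤ ε) :
    ‖(aL F u v YL - (1 - e)) S.Ω‖ ≤ 2 * ε := by
  have hε := est_eps S YL ε hc
  have hvn : ∀ n, ‖v n‖ ≤ 1 := fun n => UM_norm S (hv n)
  have hb : ∃ C : ℝ, ∀ c, ‖(star (v (c : List ((ℕ × ℕ) × ℕ) × (ℕ × ℕ)).2.2) * v c.2.1) S.Ω‖ ≤ C := by
    refine ⟨1 * 1 * ‖S.Ω‖, fun c => (ContinuousLinearMap.le_opNorm _ _).trans ?_⟩
    refine mul_le_mul_of_nonneg_right ((norm_mul_le _ _).trans ?_) (norm_nonneg _)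
    rw [_root_.norm_star]
    exact mul_le_mul (hvn _) (hvn _) (norm_nonneg _) zero_le_one
  have hqb : ∃ C : ℝ, ∀ c, ‖(qL u v YL c * gL u v c) S.Ω‖ ≤ C :=
    ⟨10 * ‖S.Ω‖, fun c => (ContinuousLinearMap.le_opNorm _ _).trans
      (mul_le_mul_of_nonneg_right (est_L_norm S u v hu hv YL h c) (norm_nonneg _))⟩
  have he1 : (mLω F).vec (fun c => (star (v c.2.2) * v c.2.1) S.Ω) = e S.Ω := by
    refine ext_inner_left ℂ fun ζ => ?_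
    rw [Mean.inner_vec _ _ hb]
    have h1 : (fun c : List ((ℕ × ℕ) × ℕ) × (ℕ × ℕ) => ⟪ζ, (star (v c.2.2) * v c.2.1) S.Ω⟫_ℂ) =
        fun c => (fun p : ℕ × ℕ => ⟪v p.2 ζ, v p.1 S.Ω⟫_ℂ) c.2 := by
      funext c
      rw [ContinuousLinearMap.mul_apply, ContinuousLinearMap.star_eq_adjoint,
        ContinuousLinearMap.adjoint_inner_right]
    rw [h1, est_mLω F (fun p : ℕ × ℕ => ⟪v p.2 ζ, v p.1 S.Ω⟫_ℂ), mNN_weak F hF v e 1 hvn hw]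
    have h2 : ⟪e ζ, e S.Ω⟫_ℂ = ⟪ζ, (star e * e) S.Ω⟫_ℂ := by
      rw [ContinuousLinearMap.mul_apply, ContinuousLinearMap.star_eq_adjoint,
        ContinuousLinearMap.adjoint_inner_right]
    rw [h2, he.isSelfAdjoint.star_eq, he.isIdempotentElem.eq]
  have h3 : (aL F u v YL - (1 - e)) S.Ω = (mLω F).vec (fun c =>
      ((qL u v YL c * gL u v c) S.Ω - S.Ω) + (star (v c.2.2) * v c.2.1) S.Ω) := by
    rw [Mean.vec_add _ _ _ _ hb, Mean.vec_sub _ _ _ hqb ⟨‖S.Ω‖, fun _ => le_rfl⟩,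
      Mean.vec_const, he1]
    have h4 : aL F u v YL S.Ω = (mLω F).vec (fun c => (qL u v YL c * gL u v c) S.Ω) :=
      Mean.op_apply _ _ ⟨10, est_L_norm S u v hu hv YL h⟩ _
    rw [← h4]
    simp only [ContinuousLinearMap.sub_apply, ContinuousLinearMap.one_apply]
    abel
    obtain ⟨C, hC⟩ := hqb
    exact ⟨C + ‖S.Ω‖, fun c => (norm_sub_le _ _).trans (by linarith [hC c])⟩
  rw [h3]
  refine Mean.norm_vec_le _ _ _ (fun c => ?_) (by positivity)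
  have hg := est_gL_mem S u v hu hv c
  have hg' := est_gL'_mem S u v hu hv c
  have hgg : star (gL u v c) * gL u v c = 1 := hg.2.1
  have hgg' : star (gL' u v c) * gL u v c = star (v c.2.2) * v c.2.1 := by
    unfold gL gL'
    rw [star_mul, mul_assoc, ← mul_assoc (star (gword u v c.1)),
      (gword_mem S u v hu hv c.1).2.1, one_mul]
  have h5 := est_term S YL hM ε hc (UM_star S hg) hg
  have h6 := est_term S YL hM ε hc (UM_star S hg') hg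
  rw [hgg] at h5
  rw [hgg'] at h6
  have h7 : (qL u v YL c * gL u v c) S.Ω - S.Ω + (star (v c.2.2) * v c.2.1) S.Ω =
      (YL (star (gL u v c)) * gL u v c - 1) S.Ω -
        (YL (star (gL' u v c)) * gL u v c - star (v c.2.2) * v c.2.1) S.Ω := by
    unfold qL
    rw [sub_mul]
    simp only [ContinuousLinearMap.sub_apply, ContinuousLinearMap.one_apply]
    abel
  rw [h7]
  exact (norm_sub_le _ _).trans (by linarith)

theorem aR_close (S : Std H K) (F : Ultrafilter ℕ)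
    (u v : ℕ → H →L[ℂ] H) (hu : ∀ l, u l ∈ UM S) (hv : ∀ n, v n ∈ UM S)
    (YR : (H →L[ℂ] H) → (H →L[ℂ] H)) (hM : ∀ g ∈ UM S, YR g ∈ S.M)
    (h : ∀ g ∈ UM S, ‖YR g‖ ≤ 5) (ε : ℝ)
    (hc : ∀ g ∈ UM S, ‖(YR g - g) S.Ω‖ ≤ ε) :
    ‖(aR F u v YR - 1) S.Ω‖ ≤ ε := by
  have hε := est_eps S YR ε hc
  have h3 : (aR F u v YR - 1) S.Ω = (mRω F).vec (fun R =>
      (gword u v R * qR u v YR R) S.Ω - S.Ω) := by
    rw [Mean.vec_sub _ _ _ ⟨5 * ‖S.Ω‖, fun R => (ContinuousLinearMap.le_opNorm _ _).trans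
      (mul_le_mul_of_nonneg_right (est_R_norm S u v hu hv YR h R) (norm_nonneg _))⟩
      ⟨‖S.Ω‖, fun _ => le_rfl⟩, Mean.vec_const]
    have h4 : aR F u v YR S.Ω = (mRω F).vec (fun R => (gword u v R * qR u v YR R) S.Ω) :=
      Mean.op_apply _ _ ⟨5, est_R_norm S u v hu hv YR h⟩ _
    rw [← h4]
    simp only [ContinuousLinearMap.sub_apply, ContinuousLinearMap.one_apply]
  rw [h3]
  refine Mean.norm_vec_le _ _ _ (fun R => ?_) hε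
  have hg := gword_mem S u v hu hv R
  have hgg : gword u v R * star (gword u v R) = 1 := hg.2.2
  have h5 := hc _ (UM_star S hg)
  have h7 : (gword u v R * qR u v YR R) S.Ω - S.Ω =
      (gword u v R * (YR (star (gword u v R)) - star (gword u v R))) S.Ω := by
    unfold qR
    rw [mul_sub, hgg]
    simp only [ContinuousLinearMap.sub_apply, ContinuousLinearMap.one_apply]
  rw [h7]
  calc _ ≤ ‖gword u v R‖ * ‖(YR (star (gword u v R)) - star (gword u v R)) S.Ω‖ :=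
        S.norm_mul_left _ _
    _ ≤ 1 * ε := mul_le_mul (UM_norm S hg) h5 (norm_nonneg _) zero_le_one
    _ = ε := one_mul _

end

end Pool.H62.UC
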