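import Pool.Agent.H62.UC.Comm
import Pool.Agent.H62.UC.Nk
import Pool.Agent.H62.UC.JuncA

/-!
# FLIP: the opposite picture

`S.flip` has algebra `M' = ρ(M)`, the two legs of `K` exchanged, and left (right) action of `ρ x`
equal to the right (left) action of `x`.
-/

namespace Pool.H62.UC

open scoped InnerProductSpace TensorProduct ComplexConjugate
open Filter Topology

noncomputable section

variable {H : Type*} [NormedAddCommGroup H] [InnerProductSpace ℂ H] [CompleteSpace H]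
variable {K : Type*} [NormedAddCommGroup K] [InnerProductSpace ℂ K] [CompleteSpace K]

/-- exchange the legs -/
def Coarse.flip (T : Coarse H K) : Coarse H K where
  tp := T.tp.flip
  inner_tp a b c d := by
    change ⟪T.tp b a, T.tp d c⟫_ℂ = _
    rw [T.inner_tp, mul_comm]
  dense_tp := by
    have h : {κ : K | ∃ a b, T.tp.flip a b = κ} = {κ : K | ∃ a b, T.tp a b = κ} := by
      ext κ
      constructor
      · rintro ⟨a, b, h⟩
        exact ⟨b, a, h⟩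
      · rintro ⟨a, b, h⟩
        exact ⟨b, a, h⟩
    rw [h]
    exact T.dense_tp
  L := T.R
  R := T.L
  L_tp A a b := by
    change T.R A (T.tp b a) = T.tp b (A a)
    exact T.R_tp A b a
  R_tp A a b := by
    change T.L A (T.tp b a) = T.tp (A b) a
    exact T.L_tp A b a

theorem flip_ex (S : Std H K) {y' : H →L[ℂ] H} (hy : y' ∈ S.M.commutant) :
    ∃ y ∈ S.M, y S.Ω = y' S.Ω := by
  obtain ⟨y, hy1, hy2⟩ := exists_ρ S hy
  exact ⟨y, hy1, by rw [← hy2, S.ρ_Ω hy1]⟩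

/-- the opposite standard data -/
def Std.flip (S : Std H K) : Std H K where
  M := S.M.commutant
  Ω := S.Ω
  tv := isTV_commutant S
  T := S.T.flip
  ρ y' := open Classical in if h : ∃ y ∈ S.M, y S.Ω = y' S.Ω then h.choose else 0
  ρ_apply := by
    intro x hx y hy
    have h := flip_ex S hy
    rw [dif_pos h]
    have h1 := h.choose_spec.1
    have h2 := h.choose_spec.2
    have h3 : h.choose * x = x * h.choose :=
      (VonNeumannAlgebra.mem_commutant_iff.1 hx) _ h1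
    have h4 : h.choose (x S.Ω) = x (h.choose S.Ω) := by
      have := congrArg (fun A : H →L[ℂ] H => A S.Ω) h3
      exact this
    rw [h4, h2]
    rfl

variable (S : Std H K)

theorem flip_choose {y' : H →L[ℂ] H} (hy : y' ∈ S.M.commutant) :
    S.flip.ρ y' ∈ S.M ∧ (S.flip.ρ y') S.Ω = y' S.Ω := by
  have h := flip_ex S hy
  have h0 : S.flip.ρ y' = h.choose := dif_pos h
  rw [h0]
  exact h.choose_spec

theorem flip_ρ {y : H →L[ℂ] H} (hy : y ∈ S.M) : S.flip.ρ (S.ρ y) = y := by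
  have h := flip_choose S (S.ρ_mem hy)
  have h1 : S.flip.ρ (S.ρ y) - y ∈ S.M := sub_mem h.1 hy
  have h2 : (S.flip.ρ (S.ρ y) - y) S.Ω = 0 := by
    rw [_root_.sub_apply, h.2, S.ρ_Ω hy, sub_self]
  exact sub_eq_zero.1 (S.sep h1 h2)

theorem flip_l {y : H →L[ℂ] H} (_hy : y ∈ S.M) : S.flip.l (S.ρ y) = S.r y := rfl

theorem flip_r {y : H →L[ℂ] H} (hy : y ∈ S.M) : S.flip.r (S.ρ y) = S.l y := by
  change S.T.L (S.flip.ρ (S.ρ y)) = S.T.L y
  rw [flip_ρ S hy]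

theorem flip_gen : ({A : K →L[ℂ] K | ∃ x ∈ S.flip.M, A = S.flip.l x} ∪
      {A : K →L[ℂ] K | ∃ y ∈ S.flip.M, A = S.flip.r y}) =
      ({A : K →L[ℂ] K | ∃ x ∈ S.M, A = S.l x} ∪
      {A : K →L[ℂ] K | ∃ y ∈ S.M, A = S.r y}) := by
  rw [Set.union_comm]
  congr 1
  · ext A
    constructor
    · rintro ⟨y', hy', rfl⟩
      obtain ⟨y, hy, rfl⟩ := exists_ρ S hy'
      exact ⟨y, hy, flip_r S hy⟩
    · rintro ⟨y, hy, rfl⟩
      exact ⟨S.ρ y, S.ρ_mem hy, (flip_r S hy).symm⟩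
  · ext A
    constructor
    · rintro ⟨y', hy', rfl⟩
      obtain ⟨y, hy, rfl⟩ := exists_ρ S hy'
      exact ⟨y, hy, flip_l S hy⟩
    · rintro ⟨y, hy, rfl⟩
      exact ⟨S.ρ y, S.ρ_mem hy, (flip_l S hy).symm⟩

theorem NK_flip : NK S.flip = NK S := by
  refine SetLike.ext fun A => ?_
  rw [NK_mem_iff, NK_mem_iff, flip_gen]

theorem flip_unit {u : H →L[ℂ] H} (hu : u ∈ UM S) :
    star (S.ρ u) * S.ρ u = 1 ∧ S.ρ u * star (S.ρ u) = 1 := by
  have h1 : star u ∈ S.M := star_mem hu.1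
  have h2 := hu.2
  rw [Unitary.mem_iff] at h2
  constructor
  · rw [← S.ρ_star hu.1, ← S.ρ_mul hu.1 h1, h2.2, S.ρ_one]
  · rw [← S.ρ_star hu.1, ← S.ρ_mul h1 hu.1, h2.1, S.ρ_one]

theorem UM_flip {u : H →L[ℂ] H} (hu : u ∈ UM S) : S.ρ u ∈ UM S.flip := by
  refine ⟨S.ρ_mem hu.1, ?_⟩
  rw [Unitary.mem_iff]
  exact flip_unit S hu

/-- the flipped derivation -/
def flipGr (Gr : Submodule ℂ ((H →L[ℂ] H) × K)) : Submodule ℂ ((H →L[ℂ] H) × K) :=
  Submodule.span ℂ {p | ∃ q ∈ Gr, p = (S.ρ q.1, q.2)}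

theorem mem_flipGr (Gr : Submodule ℂ ((H →L[ℂ] H) × K)) (hG : BClosed S Gr)
    (p : (H →L[ℂ] H) × K) : p ∈ flipGr S Gr ↔ ∃ q ∈ Gr, p = (S.ρ q.1, q.2) := by
  constructor
  · intro hp
    refine Submodule.span_induction (p := fun p _ => ∃ q ∈ Gr, p = (S.ρ q.1, q.2))
      ?_ ?_ ?_ ?_ hp
    · intro x hx
      exact hx
    · refine ⟨0, Gr.zero_mem, ?_⟩
      have h : S.ρ 0 = 0 := by
        have := S.ρ_smul 0 S.one_mem
        rwa [zero_smul, zero_smul] at this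
      change (0 : (H →L[ℂ] H) × K) = (S.ρ 0, 0)
      rw [h]
      rfl
    · rintro x y _ _ ⟨a, ha, rfl⟩ ⟨b, hb, rfl⟩
      refine ⟨a + b, Gr.add_mem ha hb, ?_⟩
      change _ = (S.ρ (a.1 + b.1), a.2 + b.2)
      rw [S.ρ_add (hG.mem a ha) (hG.mem b hb)]
      rfl
    · rintro c x _ ⟨a, ha, rfl⟩
      refine ⟨c • a, Gr.smul_mem c ha, ?_⟩
      change _ = (S.ρ (c • a.1), c • a.2)
      rw [S.ρ_smul c (hG.mem a ha)]
      rfl
  · intro h
    exact Submodule.subset_span h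

theorem flip_norm {y : H →L[ℂ] H} (hy : y ∈ S.M) : ‖S.ρ y‖ = ‖y‖ := by
  refine le_antisymm (S.ρ_norm_le hy) ?_
  have h := S.flip.ρ_norm_le (y := S.ρ y) (S.ρ_mem hy)
  rwa [flip_ρ S hy] at h

theorem flip_closed (Gr : Submodule ℂ ((H →L[ℂ] H) × K)) (hG : BClosed S Gr) :
    BClosed S.flip (flipGr S Gr) where
  mem := by
    intro p hp
    obtain ⟨q, hq, rfl⟩ := (mem_flipGr S Gr hG p).1 hp
    exact S.ρ_mem (hG.mem q hq)
  leib := by
    intro p hp q hq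
    obtain ⟨a, ha, rfl⟩ := (mem_flipGr S Gr hG p).1 hp
    obtain ⟨b, hb, rfl⟩ := (mem_flipGr S Gr hG q).1 hq
    have ha1 := hG.mem a ha
    have hb1 := hG.mem b hb
    have h := hG.leib b hb a ha
    refine (mem_flipGr S Gr hG _).2 ⟨_, h, ?_⟩
    change (S.ρ a.1 * S.ρ b.1, S.flip.l (S.ρ a.1) b.2 + S.flip.r (S.ρ b.1) a.2) =
      (S.ρ (b.1 * a.1), S.l b.1 a.2 + S.r a.1 b.2)
    rw [flip_l S ha1, flip_r S hb1, add_comm (S.r a.1 b.2), ← S.ρ_mul hb1 ha1]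
  sv := by
    intro ξ hξ
    obtain ⟨q, hq, h⟩ := (mem_flipGr S Gr hG _).1 hξ
    have h1 : (0 : H →L[ℂ] H) = S.ρ q.1 := congrArg Prod.fst h
    have h2 : ξ = q.2 := congrArg Prod.snd h
    have hq1 := hG.mem q hq
    have h3 : q.1 = 0 := by
      refine S.sep hq1 ?_
      rw [← S.ρ_Ω hq1, ← h1]
      rfl
    refine hG.sv ξ ?_
    have h4 : q = (0, ξ) := Prod.ext h3 h2.symm
    rwa [h4] at hq
  closed := by
    intro C
    have h : {q : H × K | ∃ p ∈ flipGr S Gr, ‖p.1‖ ≤ C ∧ q = (p.1 S.flip.Ω, p.2)} =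
        {q : H × K | ∃ p ∈ Gr, ‖p.1‖ ≤ C ∧ q = (p.1 S.Ω, p.2)} := by
      ext z
      constructor
      · rintro ⟨p, hp, hpC, rfl⟩
        obtain ⟨q, hq, rfl⟩ := (mem_flipGr S Gr hG p).1 hp
        have hq1 := hG.mem q hq
        refine ⟨q, hq, ?_, ?_⟩
        · rwa [flip_norm S hq1] at hpC
        · change ((S.ρ q.1) S.Ω, q.2) = _
          rw [S.ρ_Ω hq1]
      · rintro ⟨q, hq, hqC, rfl⟩
        have hq1 := hG.mem q hq
        refine ⟨(S.ρ q.1, q.2), (mem_flipGr S Gr hG _).2 ⟨q, hq, rfl⟩, ?_, ?_⟩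
        · change ‖S.ρ q.1‖ ≤ C
          rwa [flip_norm S hq1]
        · change _ = ((S.ρ q.1) S.Ω, q.2)
          rw [S.ρ_Ω hq1]
    rw [h]
    exact hG.closed C

theorem flip_UA (Gr : Submodule ℂ ((H →L[ℂ] H) × K)) (hG : BClosed S Gr) (hUA : UA S Gr) :
    UA S.flip (flipGr S Gr) := by
  intro ε hε
  obtain ⟨C, hC⟩ := hUA ε hε
  refine ⟨C, ?_⟩
  intro g hg hg1
  obtain ⟨y, hy, rfl⟩ := exists_ρ S hg
  rw [flip_norm S hy] at hg1
  obtain ⟨p, hp, h1, h2, h3⟩ := hC y hy hg1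
  have hp1 := hG.mem p hp
  refine ⟨(S.ρ p.1, p.2), (mem_flipGr S Gr hG _).2 ⟨p, hp, rfl⟩, ?_, ?_, h3⟩
  · change ‖S.ρ p.1‖ ≤ 5
    rwa [flip_norm S hp1]
  · change ‖(S.ρ p.1) S.Ω - (S.ρ y) S.Ω‖ ≤ ε
    rwa [S.ρ_Ω hp1, S.ρ_Ω hy]

end

end Pool.H62.UC
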