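import Pool.Agent.H62.UC.OpOf
import Pool.Agent.H62.UC.OreB

/-!
# FRAC: fractions
-/

namespace Pool.H62.UC

open scoped InnerProductSpace TensorProduct ComplexConjugate
open Filter Topology

noncomputable section


variable {H : Type*} [NormedAddCommGroup H] [InnerProductSpace ℂ H] [CompleteSpace H]
variable {K : Type*} [NormedAddCommGroup K] [InnerProductSpace ℂ K] [CompleteSpace K]

/-- Fractions: for injective `A ∈ N` and any vector `β` there are an injective `B ∈ N'` and a vector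
`c` with `A c = B β`.  `exists_pair` for `opOf N Ω β` gives `P₁, X ∈ N`, `P₁` injective,
`(P₁ Ω, X Ω) ∈ opOf N Ω β`; with `B₁ ∈ N'`, `B₁ Ω = P₁ Ω` (`exists_right`), single-valuedness gives
`B₁ β = X Ω`.  `ore_right`: `X P = A Q`; `B₂ Ω = P Ω`: `B₂ B₁ β = B₂ X Ω = X P Ω = A Q Ω`. -/
theorem frac (N : VonNeumannAlgebra K) (Ω : K) (hN : IsTV N.toStarSubalgebra Ω) (A : K →L[ℂ] K)
    (hA : A ∈ N) (hinj : ∀ ξ, A ξ = 0 → ξ = 0) (β : K) :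
    ∃ B ∈ N.commutant, ∃ c : K, (∀ ξ, B ξ = 0 → ξ = 0) ∧ A c = B β := by
  obtain ⟨hST, -⟩ := isST_of N Ω hN
  have hG := opOf_affil N Ω hN β
  obtain ⟨P₁, hP₁, X, hX, hP₁inj, hPX⟩ := exists_pair N (opOf N Ω β) hG.closed hG.inv hG.dense
  obtain ⟨B₁, hB₁, -, hB₁Ω, hB₁inj⟩ := exists_right N Ω hN P₁ hP₁
  have h1 : (B₁ Ω, B₁ β) ∈ opOf N Ω β :=
    Submodule.le_topologicalClosure _ (Submodule.subset_span ⟨B₁, hB₁, rfl⟩)
  have h2 := (opOf N Ω β).sub_mem h1 (hPX Ω)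
  have h3 : B₁ β = X Ω := by
    have h4 : ((0 : K), B₁ β - X Ω) ∈ opOf N Ω β := by
      have h5 : (B₁ Ω, B₁ β) - (P₁ Ω, X Ω) = ((0 : K), B₁ β - X Ω) := by
        rw [hB₁Ω, Prod.mk_sub_mk, sub_self]
      rwa [h5] at h2
    exact sub_eq_zero.1 (hG.sv _ h4)
  obtain ⟨P, hP, Q, hQ, hPinj, hPQ⟩ := ore_right N Ω hST A X hA hX hinj
  obtain ⟨B₂, hB₂, -, hB₂Ω, hB₂inj⟩ := exists_right N Ω hN P hP
  refine ⟨B₂ * B₁, mul_mem hB₂ hB₁, Q Ω, fun ξ hξ => ?_, ?_⟩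
  · exact hB₁inj hP₁inj ξ (hB₂inj hPinj (B₁ ξ) hξ)
  · have h6 : X (B₂ Ω) = B₂ (X Ω) :=
      DFunLike.congr_fun (VonNeumannAlgebra.mem_commutant_iff.1 hB₂ X hX) Ω
    have h7 : X (P Ω) = A (Q Ω) := DFunLike.congr_fun hPQ Ω
    change A (Q Ω) = B₂ (B₁ β)
    rw [h3, ← h6, hB₂Ω, h7]

end

end Pool.H62.UC
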