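import Pool.Agent.H62.UT.Defs
set_option autoImplicit false

namespace Pool.Agent.H62.UC

open Finset

variable {α : Type*} [DecidableEq α]

theorem aw_insert {V : Finset α} {μ : Finset α → ℝ} {N : Finset (Finset α)} {k : α}
    (hk : k ∈ V) {y : Finset α} (hy : y ∈ N1 k N) :
    aw V μ N (insert k y) = aw (V.erase k) (fun Z => μ (insert k Z)) (N1 k N) y := by
  have hky : k ∉ y := (mem_N1.mp hy).1
  unfold aw
  rw [sum_filter, sum_filter, sum_powerset_split hk]
  refine sum_congr rfl fun Z hZ => ?_
  have hkZ : k ∉ Z := fun h => (mem_erase.mp (mem_powerset.mp hZ h)).1 rfl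
  have h1 : ¬ (insert k y ⊆ Z ∧ ∀ x ∈ N, insert k y ⊆ x → x ⊆ Z → x = insert k y) :=
    fun h => hkZ (h.1 (mem_insert_self k y))
  rw [if_neg h1, zero_add]
  have hiff : (insert k y ⊆ insert k Z ∧
      ∀ x ∈ N, insert k y ⊆ x → x ⊆ insert k Z → x = insert k y) ↔
      (y ⊆ Z ∧ ∀ x ∈ N1 k N, y ⊆ x → x ⊆ Z → x = y) := by
    constructor
    · rintro ⟨ha, hb⟩
      refine ⟨fun a haa => ?_, fun x hx hyx hxZ => ?_⟩
      · rcases mem_insert.mp (ha (mem_insert_of_mem haa)) with h | h
        · exact absurd (h ▸ haa) hky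
        · exact h
      · have hx' := mem_N1.mp hx
        have := hb _ hx'.2 (insert_subset_insert k hyx) (insert_subset_insert k hxZ)
        have h2 := congrArg (fun s => s.erase k) this
        simpa [hx'.1, hky] using h2
    · rintro ⟨ha, hb⟩
      refine ⟨insert_subset_insert k ha, fun x hx hyx hxZ => ?_⟩
      have hkx : k ∈ x := hyx (mem_insert_self k y)
      have hx1 : x.erase k ∈ N1 k N := by
        rw [mem_N1]
        exact ⟨by simp, by rwa [insert_erase hkx]⟩
      have hs1 : y ⊆ x.erase k := fun a haa => mem_erase.mpr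
        ⟨fun h => hky (h ▸ haa), hyx (mem_insert_of_mem haa)⟩
      have hs2 : x.erase k ⊆ Z := fun a haa => by
        have h3 := mem_erase.mp haa
        rcases mem_insert.mp (hxZ h3.2) with h | h
        · exact absurd h h3.1
        · exact h
      have := hb _ hx1 hs1 hs2
      rw [← this, insert_erase hkx]
  simp only [hiff]

end Pool.Agent.H62.UC
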