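import Pool.Agent.H62.UC.KapA

/-!
# KAPB: generated von Neumann algebras
`mem_vnGen_of_closure`: `kap` with `P y = (y ∈ vnGen A)` (closed under bounded strong limits).
-/

namespace Pool.H62.UC

open scoped InnerProductSpace TensorProduct ComplexConjugate
open Filter Topology

noncomputable section


variable {H : Type*} [NormedAddCommGroup H] [InnerProductSpace ℂ H] [CompleteSpace H]
variable {K : Type*} [NormedAddCommGroup K] [InnerProductSpace ℂ K] [CompleteSpace K]

private theorem kapB_coe (A : StarSubalgebra ℂ (H →L[ℂ] H)) :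
    ((StarSubalgebra.centralizer ℂ (Set.centralizer (A : Set (H →L[ℂ] H))) :
      StarSubalgebra ℂ (H →L[ℂ] H)) : Set (H →L[ℂ] H)) =
      Set.centralizer (Set.centralizer (A : Set (H →L[ℂ] H))) := by
  rw [StarSubalgebra.coe_centralizer, Set.star_centralizer, StarMemClass.star_coe_eq,
    Set.union_self]

/-- the von Neumann algebra generated by a star subalgebra: its double commutant -/
def vnGen (A : StarSubalgebra ℂ (H →L[ℂ] H)) : VonNeumannAlgebra H where
  toStarSubalgebra := StarSubalgebra.centralizer ℂ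
    (Set.centralizer (A : Set (H →L[ℂ] H)))
  centralizer_centralizer' := by
    have h := kapB_coe A
    change Set.centralizer (Set.centralizer ((StarSubalgebra.centralizer ℂ
      (Set.centralizer (A : Set (H →L[ℂ] H))) : StarSubalgebra ℂ (H →L[ℂ] H)) :
        Set (H →L[ℂ] H))) = ((StarSubalgebra.centralizer ℂ
      (Set.centralizer (A : Set (H →L[ℂ] H))) : StarSubalgebra ℂ (H →L[ℂ] H)) :
        Set (H →L[ℂ] H))
    rw [h, Set.centralizer_centralizer_centralizer]

theorem mem_vnGen (A : StarSubalgebra ℂ (H →L[ℂ] H)) (z : H →L[ℂ] H) :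
    z ∈ vnGen A ↔ z ∈ Set.centralizer (Set.centralizer (A : Set (H →L[ℂ] H))) := by
  rw [← kapB_coe A]
  exact Iff.rfl

theorem le_vnGen (A : StarSubalgebra ℂ (H →L[ℂ] H)) {a : H →L[ℂ] H} (ha : a ∈ A) :
    a ∈ vnGen A := by
  rw [mem_vnGen]
  exact Set.subset_centralizer_centralizer ha

theorem vnGen_le (A : StarSubalgebra ℂ (H →L[ℂ] H)) (M : VonNeumannAlgebra H)
    (h : ∀ a ∈ A, a ∈ M) {z : H →L[ℂ] H} (hz : z ∈ vnGen A) : z ∈ M := by
  rw [mem_vnGen] at hz
  have h1 : (A : Set (H →L[ℂ] H)) ⊆ (M : Set (H →L[ℂ] H)) := fun a ha => h a ha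
  have h2 := Set.centralizer_subset (Set.centralizer_subset h1) hz
  have h3 : Set.centralizer (Set.centralizer (M : Set (H →L[ℂ] H))) = (M : Set (H →L[ℂ] H)) :=
    M.centralizer_centralizer'
  rw [h3] at h2
  exact h2

/-- tracial recognition of the generated algebra -/
theorem mem_vnGen_of_closure (S : Std H K) (A : StarSubalgebra ℂ (H →L[ℂ] H))
    (hA : ∀ a ∈ A, a ∈ S.M) (z : H →L[ℂ] H) (hz : z ∈ S.M)
    (hzA : z S.Ω ∈ closure {ξ : H | ∃ a ∈ A, a S.Ω = ξ}) : z ∈ vnGen A := by
  refine kap S A hA (fun y => y ∈ vnGen A) (fun a ha => le_vnGen A ha)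
    (fun x _ y _ h1 h2 => add_mem h1 h2) (fun c x _ h => ?_) ?_ z hz hzA
  · have h1 : x ∈ (vnGen A).toStarSubalgebra := h
    have h2 : c • x ∈ (vnGen A).toStarSubalgebra := SMulMemClass.smul_mem c h1
    exact h2
  · intro y w C hy hC hP hw hlim
    rw [mem_vnGen, Set.mem_centralizer_iff]
    intro T hT
    ext h
    have h1 := S.tendsto_of hy hw hC hlim
    have h2 : Tendsto (fun k => T (y k h)) atTop (𝓝 (T (w h))) :=
      (T.continuous.tendsto _).comp (h1 h)
    have h3 : Tendsto (fun k => y k (T h)) atTop (𝓝 (w (T h))) := h1 (T h)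
    have h4 : ∀ k, T (y k h) = y k (T h) := by
      intro k
      have h5 := Set.mem_centralizer_iff.1 ((mem_vnGen A (y k)).1 (hP k)) T hT
      exact congrArg (fun R : H →L[ℂ] H => R h) h5
    simp only [h4] at h2
    exact tendsto_nhds_unique h2 h3

end

end Pool.H62.UC
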