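import Pool.Agent.H62.UT.Defs

/-!
Row UCKb.  The numbers `aw` of the members that do not contain `k`.

Notation: `V' = V.erase k`, `μbar Z = μ Z + μ (insert k Z)`, `A = {Z ⊆ V' : w ⊆ Z, no y ∈ N0 k N with
w ⊆ y ⊆ Z other than w}`.

Proof.
(1) `aw V' μbar (N0 k N) w = ∑_{Z ∈ A} (μ Z + μ (insert k Z))` by definition.
(2) `aw V μ N w = ∑_{Z ∈ A} μ Z + ∑_{Z ∈ A, Z good} μ (insert k Z)` where `Z` is good if there is no
    `y ∈ N1 k N` with `w ⊆ y ⊆ Z`.  Indeed split the subsets of `V` by `k ∈ Z`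
    (`sum_powerset_split hk` after writing the filtered sum as a sum with `if`).
    For `Z ⊆ V'`: the `y ∈ N` with `w ⊆ y ⊆ Z` are in `N0 k N`.  For `insert k Z`, `Z ⊆ V'`: the
    `y ∈ N` with `w ⊆ y ⊆ insert k Z` are the `y ∈ N0 k N` with `w ⊆ y ⊆ Z` and the `insert k y'`,
    `y' ∈ N1 k N`, with `w ⊆ y' ⊆ Z` (as `k ∉ w`), and `insert k y' ≠ w`.
(3) If `tt k N w = 0` then every `Z ∈ A` is good: let `y ∈ N1 k N`, `w ⊆ y ⊆ Z`.  The union `u` of the
    members of `N0 k N` inside `y` (`(N0 k N).filter (· ⊆ y)` is not empty, it contains `w`) is in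
    `N0 k N` by the join property: all of them lie in `insert k y ∈ N`, so finite unions of them are
    in `N` (induction over the finset), and they do not contain `k`.  So `Lg (N0 k N) u y`.  Also
    `w ⊆ u ⊆ y ⊆ Z` and `Z ∈ A` give `u = w`, so `y` is counted in `tt k N w`, contradiction.
    Hence `aw V μ N w = aw V' μbar (N0 k N) w`.
(4) If `tt k N w ≥ 1`: `aw V μ N w ≥ ∑_{Z ∈ A} μ Z` (drop the second sum, terms are `≥ 0`) and
    `∑_{Z ∈ A} (μ Z + μ (insert k Z)) ≤ 2 ∑_{Z ∈ A} μ Z` as `μ` is decreasing; `2 ≤ 1 + tt k N w`.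
-/

set_option autoImplicit false

namespace Pool.Agent.H62.UC

open Finset

variable {α : Type*} [DecidableEq α]

private theorem UCKb_sup {N : Finset (Finset α)} (hJ : JoinP N) {k : α} {y : Finset α}
    (hy : y ∈ N1 k N) (T : Finset (Finset α)) :
    T.Nonempty → (∀ z ∈ T, z ∈ N0 k N ∧ z ⊆ y) → T.sup id ∈ N0 k N ∧ T.sup id ⊆ y := by
  rw [mem_N1] at hy
  induction T using Finset.induction_on with
  | empty => exact fun h => absurd h not_nonempty_empty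
  | insert z T hz ih =>
    intro _ h
    obtain ⟨h1, h2⟩ := h z (mem_insert_self z T)
    rcases T.eq_empty_or_nonempty with hT | hT
    · rw [hT]
      simpa using ⟨h1, h2⟩
    · obtain ⟨h3, h4⟩ := ih hT fun z' hz' => h z' (mem_insert_of_mem hz')
      rw [sup_insert, id_eq]
      rw [mem_N0] at h1 h3
      have h5 : z ⊔ T.sup id = z ∪ T.sup id := rfl
      rw [h5, mem_N0]
      refine ⟨⟨?_, ?_⟩, union_subset h2 h4⟩
      · exact hJ _ hy.2 _ h1.1 _ h3.1 (h2.trans (subset_insert k y)) (h4.trans (subset_insert k y))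
      · rw [mem_union, not_or]
        exact ⟨h1.2, h3.2⟩

/-- The condition on the subsets of `V` without `k`. -/
private theorem UCKb_P {N : Finset (Finset α)} {k : α} {w Z : Finset α} (hkZ : k ∉ Z) :
    (w ⊆ Z ∧ ∀ y ∈ N, w ⊆ y → y ⊆ Z → y = w) ↔
      (w ⊆ Z ∧ ∀ y ∈ N0 k N, w ⊆ y → y ⊆ Z → y = w) := by
  constructor
  · rintro ⟨h1, h2⟩
    exact ⟨h1, fun y hy => h2 y (mem_N0.1 hy).1⟩
  · rintro ⟨h1, h2⟩
    exact ⟨h1, fun y hy h3 h4 => h2 y (mem_N0.2 ⟨hy, fun h => hkZ (h4 h)⟩) h3 h4⟩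

/-- The condition on the subsets of `V` with `k`. -/
private theorem UCKb_P1 {N : Finset (Finset α)} {k : α} {w Z : Finset α} (hkw : k ∉ w) :
    (w ⊆ insert k Z ∧ ∀ y ∈ N, w ⊆ y → y ⊆ insert k Z → y = w) ↔
      (w ⊆ Z ∧ ∀ y ∈ N0 k N, w ⊆ y → y ⊆ Z → y = w) ∧ ∀ y ∈ N1 k N, w ⊆ y → ¬ y ⊆ Z := by
  constructor
  · rintro ⟨h1, h2⟩
    refine ⟨⟨?_, ?_⟩, ?_⟩
    · intro a ha
      rcases mem_insert.1 (h1 ha) with h3 | h3
      · exact absurd (h3 ▸ ha) hkw
      · exact h3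
    · intro y hy h3 h4
      exact h2 y (mem_N0.1 hy).1 h3 (h4.trans (subset_insert k Z))
    · intro y hy h3 h4
      rw [mem_N1] at hy
      have h5 := h2 _ hy.2 (h3.trans (subset_insert k y)) (insert_subset_insert k h4)
      apply hkw
      rw [← h5]
      exact mem_insert_self k y
  · rintro ⟨⟨h1, h2⟩, h3⟩
    refine ⟨h1.trans (subset_insert k Z), ?_⟩
    intro y hy h4 h5
    by_cases hky : k ∈ y
    · exfalso
      refine h3 (y.erase k) (mem_N1.2 ⟨notMem_erase k y, by rwa [insert_erase hky]⟩) ?_ ?_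
      · intro a ha
        exact mem_erase.2 ⟨fun h => hkw (h ▸ ha), h4 ha⟩
      · intro a ha
        rw [mem_erase] at ha
        rcases mem_insert.1 (h5 ha.2) with h6 | h6
        · exact absurd h6 ha.1
        · exact h6
    · refine h2 y (mem_N0.2 ⟨hy, hky⟩) h4 ?_
      intro a ha
      rcases mem_insert.1 (h5 ha) with h6 | h6
      · exact absurd (h6 ▸ ha) hky
      · exact h6

/-- The splitting of `aw`. -/
private theorem UCKb_aw {V : Finset α} {μ : Finset α → ℝ} {N : Finset (Finset α)} {k : α}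
    (hk : k ∈ V) {w : Finset α} (hkw : k ∉ w) :
    aw V μ N w = ∑ Z ∈ (V.erase k).powerset with
        (w ⊆ Z ∧ ∀ y ∈ N0 k N, w ⊆ y → y ⊆ Z → y = w),
      (μ Z + if (∀ y ∈ N1 k N, w ⊆ y → ¬ y ⊆ Z) then μ (insert k Z) else 0) := by
  unfold aw
  rw [sum_filter, sum_powerset_split hk, sum_filter]
  refine sum_congr rfl fun Z hZ => ?_
  have hkZ : k ∉ Z := fun h => notMem_erase k V (mem_powerset.1 hZ h)
  have h1 := UCKb_P (N := N) (w := w) hkZ
  have h2 := UCKb_P1 (N := N) (Z := Z) hkw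
  by_cases h3 : w ⊆ Z ∧ ∀ y ∈ N0 k N, w ⊆ y → y ⊆ Z → y = w
  · rw [if_pos (h1.2 h3), if_pos h3]
    by_cases h4 : ∀ y ∈ N1 k N, w ⊆ y → ¬ y ⊆ Z
    · rw [if_pos h4, if_pos (h2.2 ⟨h3, h4⟩)]
    · rw [if_neg h4, if_neg fun h => h4 (h2.1 h).2]
  · rw [if_neg fun h => h3 (h1.1 h), if_neg h3, if_neg fun h => h3 (h2.1 h).1, add_zero]

theorem aw_bar_le {V : Finset α} {μ : Finset α → ℝ} (hμ : Decr V μ) {N : Finset (Finset α)}
    (hN : N ⊆ V.powerset) (hJ : JoinP N) {k : α} (hk : k ∈ V) {w : Finset α}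
    (hw : w ∈ N0 k N) :
    aw (V.erase k) (fun Z => μ Z + μ (insert k Z)) (N0 k N) w
      ≤ (1 + (tt k N w : ℝ)) * aw V μ N w := by
  have hkw : k ∉ w := (mem_N0.1 hw).2
  have hsub : ∀ Z ∈ (V.erase k).powerset, Z ⊆ V ∧ insert k Z ⊆ V := by
    intro Z hZ
    have h1 := (mem_powerset.1 hZ).trans (erase_subset k V)
    exact ⟨h1, insert_subset hk h1⟩
  have h0 : ∀ Z ∈ (V.erase k).powerset, 0 ≤ μ Z ∧ 0 ≤ μ (insert k Z) ∧ μ (insert k Z) ≤ μ Z := by
    intro Z hZ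
    obtain ⟨h1, h2⟩ := hsub Z hZ
    exact ⟨hμ.1 Z h1, hμ.1 _ h2, hμ.2 _ h2 _ (subset_insert k Z)⟩
  rw [UCKb_aw hk hkw]
  rcases Nat.eq_zero_or_pos (tt k N w) with ht | ht
  · rw [ht, Nat.cast_zero, add_zero, one_mul]
    unfold aw
    refine le_of_eq (sum_congr rfl fun Z hZ => ?_)
    rw [mem_filter] at hZ
    have hgood : ∀ y ∈ N1 k N, w ⊆ y → ¬ y ⊆ Z := by
      intro y hy hwy hyZ
      obtain ⟨T, hT⟩ : ∃ T, T = (N0 k N).filter (· ⊆ y) := ⟨_, rfl⟩
      have hwT : w ∈ T := by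
        rw [hT, mem_filter]
        exact ⟨hw, hwy⟩
      obtain ⟨h1, h2⟩ := UCKb_sup hJ hy T ⟨w, hwT⟩ (fun z hz => by
        rw [hT, mem_filter] at hz
        exact hz)
      have h3 : w ⊆ T.sup id := le_sup (f := id) hwT
      have h4 : T.sup id = w := hZ.2.2 _ h1 h3 (h2.trans hyZ)
      have h5 : y ∈ (N1 k N).filter (fun y => Lg (N0 k N) w y) := by
        rw [mem_filter]
        refine ⟨hy, hw, hwy, fun z hz hzy => ?_⟩
        rw [← h4]
        refine le_sup (f := id) ?_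
        rw [hT, mem_filter]
        exact ⟨hz, hzy⟩
      unfold tt at ht
      rw [card_eq_zero] at ht
      rw [ht] at h5
      exact absurd h5 (notMem_empty y)
    rw [if_pos hgood]
  · have h1 : aw (V.erase k) (fun Z => μ Z + μ (insert k Z)) (N0 k N) w ≤
        2 * ∑ Z ∈ (V.erase k).powerset with
          (w ⊆ Z ∧ ∀ y ∈ N0 k N, w ⊆ y → y ⊆ Z → y = w), μ Z := by
      unfold aw
      rw [mul_sum]
      refine sum_le_sum fun Z hZ => ?_
      have h2 := h0 Z (mem_filter.1 hZ).1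
      show μ Z + μ (insert k Z) ≤ 2 * μ Z
      linarith [h2.2.2]
    have h2 : 0 ≤ ∑ Z ∈ (V.erase k).powerset with
          (w ⊆ Z ∧ ∀ y ∈ N0 k N, w ⊆ y → y ⊆ Z → y = w), μ Z :=
      sum_nonneg fun Z hZ => (h0 Z (mem_filter.1 hZ).1).1
    have h3 : ∑ Z ∈ (V.erase k).powerset with
          (w ⊆ Z ∧ ∀ y ∈ N0 k N, w ⊆ y → y ⊆ Z → y = w), μ Z ≤
        ∑ Z ∈ (V.erase k).powerset with (w ⊆ Z ∧ ∀ y ∈ N0 k N, w ⊆ y → y ⊆ Z → y = w),
          (μ Z + if (∀ y ∈ N1 k N, w ⊆ y → ¬ y ⊆ Z) then μ (insert k Z) else 0) := by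
      refine sum_le_sum fun Z hZ => ?_
      have h4 := h0 Z (mem_filter.1 hZ).1
      have h5 : 0 ≤ if (∀ y ∈ N1 k N, w ⊆ y → ¬ y ⊆ Z) then μ (insert k Z) else 0 := by
        split_ifs
        · exact h4.2.1
        · exact le_refl 0
      linarith
    have ht' : (1 : ℝ) ≤ (tt k N w : ℝ) := by exact_mod_cast ht
    refine h1.trans (le_trans ?_ (mul_le_mul_of_nonneg_left h3 (by linarith)))
    exact mul_le_mul_of_nonneg_right (by linarith) h2

end Pool.Agent.H62.UC
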