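import Pool.Agent.H62.UT.Defs

/-!
Row UCKc.  Feasibility in the two slices.

Notation: `V' = V.erase k`.

Proof of `feas_one`.  Nonnegativity: `mem_N1`.  Let `F` be a filter of `N1 k N` (`Filt`).  Then
`F' = F.image (insert k)` is a filter of `N` (a member of `N` that contains `insert k y` contains `k`,
so it is `insert k y'` with `y' ∈ N1 k N`, `y ⊆ y'`).  `∑_{w ∈ F'} c w = ∑_{y ∈ F} c (insert k y)`
(`sum_image`, `insert k` is injective on sets without `k`), and
`up V μ F' = up V' (fun Z => μ (insert k Z)) F`: the `Z ⊆ V` that contain some `insert k y`,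
`y ∈ F`, are the `insert k Z'`, `Z' ⊆ V'`, `y ⊆ Z'`  (bijection `Z ↦ Z.erase k`, or
`sum_powerset_split`).

Proof of `feas_zero`.  Let `F` be a filter of `N0 k N`, and
`F' = F ∪ (((N1 k N).filter (fun y => ∃ w ∈ F, Lg (N0 k N) w y)).image (insert k))`.
* `F'` is a filter of `N`: let `x ∈ N` contain a member of `F'`.
  - If `x` contains `w ∈ F` and `k ∉ x` then `x ∈ N0 k N`, so `x ∈ F`.
  - If `x` contains `w ∈ F` and `k ∈ x`, `x = insert k y`, `y ∈ N1 k N`, `w ⊆ y`.  The union `u` of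
    the members of `N0 k N` inside `y` is in `N0 k N` (join property, everything is inside
    `insert k y ∈ N`; finite unions by induction), so `Lg (N0 k N) u y` and `w ⊆ u`, hence `u ∈ F`
    as `F` is a filter, so `x ∈ F'`.
  - If `x` contains `insert k y`, with `Lg (N0 k N) w y`, `w ∈ F`: then `x` contains `w ∈ F` and `k`,
    previous case.
* `∑_{F'} κ = κ |F'| = κ (|F| + #{y ∈ N1 : ∃ w ∈ F, Lg w y}) = ∑_{w ∈ F} κ (1 + tt k N w)`:
  the two parts of `F'` are disjoint (`k`), `insert k` is injective on `N1 k N`, and for each `y`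
  there is at most one `w` with `Lg (N0 k N) w y` (`Finset.card_eq_sum_card_fiberwise` or
  `card_biUnion`).
* `up V μ F' = up V' μbar F`: a set contains a member of `F'` iff it contains a member of `F` (each
  `insert k y` in `F'` contains a member of `F`), and the members of `F` do not contain `k`, so
  `sum_powerset_split hk` gives the result.
-/

set_option autoImplicit false

namespace Pool.Agent.H62.UC

open Finset

variable {α : Type*} [DecidableEq α]

theorem feas_one {V : Finset α} {μ : Finset α → ℝ} {N : Finset (Finset α)} {k : α} (hk : k ∈ V)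
    {c : Finset α → ℝ} (hc : Feas V μ N c) :
    Feas (V.erase k) (fun Z => μ (insert k Z)) (N1 k N) (fun y => c (insert k y)) := by
  refine ⟨fun y hy => hc.1 _ (mem_N1.mp hy).2, fun F hF => ?_⟩
  have hFk : ∀ y ∈ F, k ∉ y ∧ insert k y ∈ N := fun y hy => mem_N1.mp (hF.1 hy)
  have hinj : Set.InjOn (fun y : Finset α => insert k y) (F : Set (Finset α)) := by
    intro a ha b hb hab
    have h : insert k a = insert k b := hab
    rw [← erase_insert (hFk a ha).1, ← erase_insert (hFk b hb).1, h]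
  have hfilt : Filt N (F.image (fun y => insert k y)) := by
    refine ⟨?_, ?_⟩
    · intro w hw
      obtain ⟨y, hy, rfl⟩ := mem_image.mp hw
      exact (hFk y hy).2
    · intro w hw x hx hwx
      obtain ⟨y, hy, rfl⟩ := mem_image.mp hw
      have hkx : k ∈ x := hwx (mem_insert_self k y)
      refine mem_image.mpr ⟨x.erase k, hF.2 y hy _ (mem_N1.mpr ⟨by simp, by
        rwa [insert_erase hkx]⟩) ?_, insert_erase hkx⟩
      intro a ha
      exact mem_erase.mpr ⟨fun h => (hFk y hy).1 (h ▸ ha), hwx (mem_insert_of_mem ha)⟩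
  have h := hc.2 _ hfilt
  rw [sum_image hinj] at h
  refine h.trans (le_of_eq ?_)
  unfold up
  rw [sum_filter, sum_filter, sum_powerset_split hk]
  refine sum_congr rfl fun Z hZ => ?_
  have hkZ : k ∉ Z := fun h => (mem_erase.mp (mem_powerset.mp hZ h)).1 rfl
  have e1 : ¬ ∃ w ∈ F.image (fun y => insert k y), w ⊆ Z := by
    rintro ⟨w, hw, hwZ⟩
    obtain ⟨y, hy, rfl⟩ := mem_image.mp hw
    exact hkZ (hwZ (mem_insert_self k y))
  have e2 : (∃ w ∈ F.image (fun y => insert k y), w ⊆ insert k Z) ↔ ∃ w ∈ F, w ⊆ Z := by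
    constructor
    · rintro ⟨w, hw, hwZ⟩
      obtain ⟨y, hy, rfl⟩ := mem_image.mp hw
      refine ⟨y, hy, fun a ha => ?_⟩
      rcases mem_insert.mp (hwZ (mem_insert_of_mem ha)) with h | h
      · exact absurd (h ▸ ha) (hFk y hy).1
      · exact h
    · rintro ⟨y, hy, hyZ⟩
      exact ⟨_, mem_image.mpr ⟨y, hy, rfl⟩, insert_subset_insert k hyZ⟩
  rw [if_neg e1, zero_add]
  by_cases h2 : ∃ w ∈ F, w ⊆ Z
  · rw [if_pos h2, if_pos (e2.mpr h2)]
  · rw [if_neg h2, if_neg (fun h => h2 (e2.mp h))]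

theorem kc_exists_Lg {N : Finset (Finset α)} (hJ : JoinP N) {k : α} {y w : Finset α}
    (hy : y ∈ N1 k N) (hw : w ∈ N0 k N) (hwy : w ⊆ y) : ∃ u, Lg (N0 k N) u y ∧ w ⊆ u := by
  have hne : ((N0 k N).filter (fun z => z ⊆ y ∧ w ⊆ z)).Nonempty :=
    ⟨w, mem_filter.mpr ⟨hw, hwy, Subset.refl w⟩⟩
  obtain ⟨u, hu, hmax⟩ := exists_max_image _ (fun z : Finset α => z.card) hne
  rw [mem_filter] at hu
  refine ⟨u, ⟨hu.1, hu.2.1, fun z hz hzy => ?_⟩, hu.2.2⟩
  have hyN := mem_N1.mp hy
  have h1 : u ∪ z ∈ N := hJ _ hyN.2 u (mem_N0.mp hu.1).1 z (mem_N0.mp hz).1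
    (hu.2.1.trans (subset_insert k y)) (hzy.trans (subset_insert k y))
  have h2 : k ∉ u ∪ z := by
    rw [mem_union]
    rintro (h | h)
    · exact (mem_N0.mp hu.1).2 h
    · exact (mem_N0.mp hz).2 h
  have h3 := hmax (u ∪ z) (mem_filter.mpr ⟨mem_N0.mpr ⟨h1, h2⟩, union_subset hu.2.1 hzy,
    hu.2.2.trans subset_union_left⟩)
  have h4 : u = u ∪ z := eq_of_subset_of_card_le subset_union_left h3
  rw [h4]
  exact subset_union_right

theorem kc_Lg_unique {M : Finset (Finset α)} {y w w' : Finset α} (h : Lg M w y)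
    (h' : Lg M w' y) : w = w' :=
  Subset.antisymm (h'.2.2 w h.1 h.2.1) (h.2.2 w' h'.1 h'.2.1)

theorem feas_zero {V : Finset α} {μ : Finset α → ℝ} {N : Finset (Finset α)} (hJ : JoinP N)
    {k : α} (hk : k ∈ V) {κ : ℝ} (hκ : 0 ≤ κ) (hc : Feas V μ N (fun _ => κ)) :
    Feas (V.erase k) (fun Z => μ Z + μ (insert k Z)) (N0 k N)
      (fun w => κ * (1 + (tt k N w : ℝ))) := by
  refine ⟨fun w _ => by positivity, fun F hF => ?_⟩
  have hFk : ∀ w ∈ F, w ∈ N ∧ k ∉ w := fun w hw => mem_N0.mp (hF.1 hw)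
  set G : Finset (Finset α) := (N1 k N).filter (fun y => ∃ w ∈ F, Lg (N0 k N) w y) with hG
  have hGk : ∀ y ∈ G, k ∉ y ∧ insert k y ∈ N := fun y hy => mem_N1.mp (mem_filter.mp hy).1
  have hinj : Set.InjOn (fun y : Finset α => insert k y) (G : Set (Finset α)) := by
    intro a ha b hb hab
    have h : insert k a = insert k b := hab
    rw [← erase_insert (hGk a ha).1, ← erase_insert (hGk b hb).1, h]
  have hdisj : Disjoint F (G.image (fun y => insert k y)) := by
    rw [disjoint_left]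
    intro w hw hw'
    obtain ⟨y, hy, rfl⟩ := mem_image.mp hw'
    exact (hFk _ hw).2 (mem_insert_self k y)
  have key : ∀ w ∈ F, ∀ x ∈ N, w ⊆ x → x ∈ F ∪ G.image (fun y => insert k y) := by
    intro w hw x hx hwx
    by_cases hkx : k ∈ x
    · refine mem_union_right _ (mem_image.mpr ⟨x.erase k, ?_, insert_erase hkx⟩)
      have hy : x.erase k ∈ N1 k N := mem_N1.mpr ⟨by simp, by rwa [insert_erase hkx]⟩
      have hwy : w ⊆ x.erase k := fun a ha =>
        mem_erase.mpr ⟨fun h => (hFk w hw).2 (h ▸ ha), hwx ha⟩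
      obtain ⟨u, hu, hwu⟩ := kc_exists_Lg hJ hy (hF.1 hw) hwy
      exact mem_filter.mpr ⟨hy, u, hF.2 w hw u hu.1 hwu, hu⟩
    · exact mem_union_left _ (hF.2 w hw x (mem_N0.mpr ⟨hx, hkx⟩) hwx)
  have hfilt : Filt N (F ∪ G.image (fun y => insert k y)) := by
    refine ⟨?_, ?_⟩
    · intro w hw
      rcases mem_union.mp hw with h | h
      · exact (hFk w h).1
      · obtain ⟨y, hy, rfl⟩ := mem_image.mp h
        exact (hGk y hy).2
    · intro w hw x hx hwx
      rcases mem_union.mp hw with h | h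
      · exact key w h x hx hwx
      · obtain ⟨y, hy, rfl⟩ := mem_image.mp h
        obtain ⟨_, w', hw', hL⟩ := mem_filter.mp hy
        exact key w' hw' x hx ((hL.2.1.trans (subset_insert k y)).trans hwx)
  have hcard : G.card = ∑ w ∈ F, tt k N w := by
    have h1 : G = F.biUnion (fun w => (N1 k N).filter (fun y => Lg (N0 k N) w y)) := by
      ext y
      constructor
      · intro hy
        obtain ⟨hy1, w, hw, hL⟩ := mem_filter.mp hy
        exact mem_biUnion.mpr ⟨w, hw, mem_filter.mpr ⟨hy1, hL⟩⟩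
      · intro hy
        obtain ⟨w, hw, hy2⟩ := mem_biUnion.mp hy
        obtain ⟨hy1, hL⟩ := mem_filter.mp hy2
        exact mem_filter.mpr ⟨hy1, w, hw, hL⟩
    rw [h1, card_biUnion]
    · rfl
    · intro w _ w' _ hne
      show Disjoint _ _
      rw [disjoint_left]
      intro y hy hy'
      exact hne (kc_Lg_unique (mem_filter.mp hy).2 (mem_filter.mp hy').2)
  have h := hc.2 _ hfilt
  have hsum : ∑ w ∈ F, κ * (1 + (tt k N w : ℝ))
      = ∑ _w ∈ F ∪ G.image (fun y => insert k y), κ := by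
    rw [sum_union hdisj, sum_image hinj, ← mul_sum, sum_add_distrib, sum_const, sum_const,
      sum_const, hcard]
    simp only [nsmul_eq_mul, mul_one]
    push_cast
    ring
  rw [hsum]
  refine h.trans (le_of_eq ?_)
  unfold up
  rw [sum_filter, sum_filter, sum_powerset_split hk]
  refine sum_congr rfl fun Z hZ => ?_
  have hkZ : k ∉ Z := fun h => (mem_erase.mp (mem_powerset.mp hZ h)).1 rfl
  have e1 : (∃ w ∈ F ∪ G.image (fun y => insert k y), w ⊆ Z) ↔ ∃ w ∈ F, w ⊆ Z := by
    constructor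
    · rintro ⟨w, hw, hwZ⟩
      rcases mem_union.mp hw with h | h
      · exact ⟨w, h, hwZ⟩
      · obtain ⟨y, hy, rfl⟩ := mem_image.mp h
        exact absurd (hwZ (mem_insert_self k y)) hkZ
    · rintro ⟨w, hw, hwZ⟩
      exact ⟨w, mem_union_left _ hw, hwZ⟩
  have hin : ∀ y : Finset α, k ∉ y → y ⊆ insert k Z → y ⊆ Z := by
    intro y hy hyZ a ha
    rcases mem_insert.mp (hyZ ha) with h | h
    · exact absurd (h ▸ ha) hy
    · exact h
  have e2 : (∃ w ∈ F ∪ G.image (fun y => insert k y), w ⊆ insert k Z) ↔ ∃ w ∈ F, w ⊆ Z := by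
    constructor
    · rintro ⟨w, hw, hwZ⟩
      rcases mem_union.mp hw with h | h
      · exact ⟨w, h, hin w (hFk w h).2 hwZ⟩
      · obtain ⟨y, hy, rfl⟩ := mem_image.mp h
        obtain ⟨_, w', hw', hL⟩ := mem_filter.mp hy
        exact ⟨w', hw', hL.2.1.trans (hin y (hGk y hy).1 ((subset_insert k y).trans hwZ))⟩
    · rintro ⟨w, hw, hwZ⟩
      exact ⟨w, mem_union_left _ hw, hwZ.trans (subset_insert k Z)⟩
  by_cases h2 : ∃ w ∈ F, w ⊆ Z
  · rw [if_pos h2, if_pos (e1.mpr h2), if_pos (e2.mpr h2)]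
  · rw [if_neg h2, if_neg (fun h => h2 (e1.mp h)), if_neg (fun h => h2 (e2.mp h)), add_zero]

end Pool.Agent.H62.UC
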