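import Pool.Agent.H62.UT.Defs

/-!
Row UCKd.  A tight filter `F` splits the problem.

`cut F μ` is `μ` restricted to the sets that contain no member of `F`.

Proofs.
* `joinP_filter`: `x, y, z ∈ F`, `y, z ⊆ x`: `y ∪ z ∈ N`, it contains `y ∈ F`, so it is in `F`.
* `joinP_rest`: `x, y, z ∈ N \ F`: `y ∪ z ∈ N`; if it were in `F` then `x ⊇ y ∪ z` would be in `F`.
* `decr_cut`: if `Z' ⊆ Z` and `Z'` contains a member of `F` then so does `Z`, both sides: `0 ≤ 0`;
  if `Z` contains one and `Z'` does not: `0 ≤ μ Z'`; otherwise `μ` decreasing.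
* `feas_filter`: a filter of `F` is a filter of `N`.
* `aw_filter`: for `w ∈ F` the `y ∈ N` with `w ⊆ y` are in `F`.
* `feas_rest`: let `G` be a filter of `N \ F`.  `G ∪ F` is a filter of `N` (a member of `N` above
  a member of `G` is in `F`, or in `N \ F` and hence in `G`).  So `∑_G c + ∑_F c ≤ up V μ (G ∪ F)`,
  and `up V μ (G ∪ F) = up V μ F + up V (cut F μ) G` (split the sets that contain a member of `G ∪ F`
  by whether they contain a member of `F`).  With `∑_F c = up V μ F` this is the claim.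
* `aw_rest_le`: `aw V (cut F μ) (N \ F) w` is the sum of `μ Z` over the `Z` with `w ⊆ Z`, no member of
  `F` inside `Z`, and no `y ∈ N \ F` other than `w` with `w ⊆ y ⊆ Z`.  Each such `Z` occurs in
  `aw V μ N w` (a `y ∈ N` with `y ⊆ Z` is not in `F`), and the terms are `≥ 0`.
-/

set_option autoImplicit false

namespace Pool.Agent.H62.UC

open Finset

variable {α : Type*} [DecidableEq α]

/-- `μ` restricted to the sets that contain no member of `F`. -/
noncomputable def cut (F : Finset (Finset α)) (μ : Finset α → ℝ) (Z : Finset α) : ℝ :=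
  if ∃ w ∈ F, w ⊆ Z then 0 else μ Z

theorem joinP_filter {N F : Finset (Finset α)} (hJ : JoinP N) (hF : Filt N F) : JoinP F := by
  intro x hx y hy z hz hyx hzx
  exact hF.2 y hy _ (hJ x (hF.1 hx) y (hF.1 hy) z (hF.1 hz) hyx hzx) subset_union_left

theorem joinP_rest {N F : Finset (Finset α)} (hJ : JoinP N) (hF : Filt N F) :
    JoinP (N \ F) := by
  intro x hx y hy z hz hyx hzx
  rw [mem_sdiff] at hx hy hz ⊢
  refine ⟨hJ x hx.1 y hy.1 z hz.1 hyx hzx, fun h => hx.2 ?_⟩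
  exact hF.2 _ h x hx.1 (union_subset hyx hzx)

theorem decr_cut {V : Finset α} {μ : Finset α → ℝ} (hμ : Decr V μ) (F : Finset (Finset α)) :
    Decr V (cut F μ) := by
  constructor
  · intro Z hZ
    unfold cut
    split_ifs with h
    · exact le_rfl
    · exact hμ.1 Z hZ
  · intro Z hZ Z' hZ'
    unfold cut
    by_cases h' : ∃ w ∈ F, w ⊆ Z'
    · have h : ∃ w ∈ F, w ⊆ Z := by
        obtain ⟨w, hw, hwZ⟩ := h'
        exact ⟨w, hw, hwZ.trans hZ'⟩
      rw [if_pos h, if_pos h']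
    · rw [if_neg h']
      split_ifs with h
      · exact hμ.1 Z' (hZ'.trans hZ)
      · exact hμ.2 Z hZ Z' hZ'

theorem feas_filter {V : Finset α} {μ : Finset α → ℝ} {N F : Finset (Finset α)}
    (hF : Filt N F) {c : Finset α → ℝ} (hc : Feas V μ N c) : Feas V μ F c := by
  refine ⟨fun w hw => hc.1 w (hF.1 hw), fun G hG => hc.2 G ⟨hG.1.trans hF.1, ?_⟩⟩
  intro w hw y hy hwy
  exact hG.2 w hw y (hF.2 w (hG.1 hw) y hy hwy) hwy

theorem aw_filter {V : Finset α} {μ : Finset α → ℝ} {N F : Finset (Finset α)}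
    (hF : Filt N F) {w : Finset α} (hw : w ∈ F) : aw V μ F w = aw V μ N w := by
  unfold aw
  refine sum_congr (filter_congr fun Z _ => ?_) fun _ _ => rfl
  refine and_congr_right fun _ => ?_
  exact ⟨fun h y hy hwy => h y (hF.2 w hw y hy hwy) hwy, fun h y hy => h y (hF.1 hy)⟩

theorem Kd_up {V : Finset α} {μ : Finset α → ℝ} {F G : Finset (Finset α)} :
    up V μ (G ∪ F) = up V (cut F μ) G + up V μ F := by
  unfold up
  rw [sum_filter, sum_filter, sum_filter, ← sum_add_distrib]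
  refine sum_congr rfl fun Z _ => ?_
  unfold cut
  by_cases hF : ∃ w ∈ F, w ⊆ Z
  · have h : ∃ w ∈ G ∪ F, w ⊆ Z := by
      obtain ⟨w, hw, hwZ⟩ := hF
      exact ⟨w, mem_union_right _ hw, hwZ⟩
    rw [if_pos h, if_pos hF, if_pos hF, ite_self, zero_add]
  · rw [if_neg hF, if_neg hF, add_zero]
    have h : (∃ w ∈ G ∪ F, w ⊆ Z) ↔ ∃ w ∈ G, w ⊆ Z := by
      constructor
      · rintro ⟨w, hw, hwZ⟩
        rcases mem_union.1 hw with h | h
        · exact ⟨w, h, hwZ⟩
        · exact absurd ⟨w, h, hwZ⟩ hF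
      · rintro ⟨w, hw, hwZ⟩
        exact ⟨w, mem_union_left _ hw, hwZ⟩
    by_cases hG : ∃ w ∈ G, w ⊆ Z
    · rw [if_pos (h.2 hG), if_pos hG]
    · rw [if_neg (fun h' => hG (h.1 h')), if_neg hG]

theorem feas_rest {V : Finset α} {μ : Finset α → ℝ} {N F : Finset (Finset α)}
    (hF : Filt N F) {c : Finset α → ℝ} (hc : Feas V μ N c)
    (ht : ∑ w ∈ F, c w = up V μ F) : Feas V (cut F μ) (N \ F) c := by
  refine ⟨fun w hw => hc.1 w (mem_sdiff.1 hw).1, fun G hG => ?_⟩
  have hdis : Disjoint G F := by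
    rw [Finset.disjoint_left]
    intro w hw
    exact (mem_sdiff.1 (hG.1 hw)).2
  have hGF : Filt N (G ∪ F) := by
    refine ⟨union_subset (fun w hw => (mem_sdiff.1 (hG.1 hw)).1) hF.1, ?_⟩
    intro w hw y hy hwy
    by_cases hyF : y ∈ F
    · exact mem_union_right _ hyF
    · rcases mem_union.1 hw with h | h
      · exact mem_union_left _ (hG.2 w h y (mem_sdiff.2 ⟨hy, hyF⟩) hwy)
      · exact absurd (hF.2 w h y hy hwy) hyF
  have h1 := hc.2 _ hGF
  rw [sum_union hdis, Kd_up, ht] at h1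
  linarith

theorem aw_rest_le {V : Finset α} {μ : Finset α → ℝ} (hμ : Decr V μ) {N F : Finset (Finset α)}
    (hF : Filt N F) {w : Finset α} (hw : w ∈ N \ F) :
    aw V (cut F μ) (N \ F) w ≤ aw V μ N w := by
  unfold aw
  rw [sum_filter, sum_filter]
  refine sum_le_sum fun Z hZ => ?_
  have h0 := hμ.1 Z (mem_powerset.1 hZ)
  unfold cut
  by_cases hFZ : ∃ w ∈ F, w ⊆ Z
  · rw [if_pos hFZ, ite_self]
    split_ifs
    · exact h0
    · exact le_rfl
  · rw [if_neg hFZ]
    have h : (w ⊆ Z ∧ ∀ y ∈ N \ F, w ⊆ y → y ⊆ Z → y = w) ↔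
        (w ⊆ Z ∧ ∀ y ∈ N, w ⊆ y → y ⊆ Z → y = w) := by
      refine and_congr_right fun _ => ?_
      constructor
      · intro h y hy hwy hyZ
        exact h y (mem_sdiff.2 ⟨hy, fun hyF => hFZ ⟨y, hyF, hyZ⟩⟩) hwy hyZ
      · intro h y hy
        exact h y (mem_sdiff.1 hy).1
    by_cases hG : w ⊆ Z ∧ ∀ y ∈ N, w ⊆ y → y ⊆ Z → y = w
    · rw [if_pos (h.2 hG), if_pos hG]
    · rw [if_neg (fun h' => hG (h.1 h')), if_neg hG]

end Pool.Agent.H62.UC
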