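import Pool.Agent.H62.UT.Defs

/-!
Row UCKe.  A feasible `c` with the largest product exists, and it is constant if no proper filter
is tight.

Proof of `exists_max`.  Let `B = up V μ N`; `N` is a filter of `N`, so a feasible `c` has
`0 ≤ c w ≤ ∑_N c ≤ B` for `w ∈ N`.  Let
`K = {c : Finset α → ℝ | Feas V μ N c ∧ ∀ w, w ∉ N → c w = 0}`.
`K` is a subset of `Set.univ.pi (fun w => Set.Icc 0 (if w ∈ N then B else 0))`, which is compact
(`isCompact_univ_pi`), and `K` is closed (it is an intersection of sets `{c | ∑_{w ∈ F} c w ≤ const}`,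
`{c | 0 ≤ c w}`, `{c | c w = 0}`: `isClosed_le`, `continuous_apply`, `continuous_finset_sum`,
`isClosed_iInter`, `isClosed_setOf`...).  `0 ∈ K` by `up_nonneg`.  So `c ↦ ∏_{w ∈ N} c w` attains its
maximum on `K` (`IsCompact.exists_isMaxOn`).  For an arbitrary feasible `c` replace it by
`fun w => if w ∈ N then c w else 0`, which is in `K` with the same product.

Proof of `const_of_max`.  Suppose `c w < c w'`, `w, w' ∈ N`.  The filters `F` of `N` with `F ≠ ∅`,
`F ≠ N` are finitely many (members of `N.powerset`), and for each `∑_F c < up V μ F`; let `ε > 0` be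
at most all the differences `up V μ F - ∑_F c` and at most `(c w' - c w) / 2` (existence of `ε`:
`Finset.exists_min_image`, or by induction, or `Filter.Eventually` for `ε → 0+`:
`eventually_all_finset`).  Let `c' = Function.update (Function.update c w (c w + ε)) w' (c w' - ε)`.
`c'` is feasible: nonnegative, since `c w' - ε ≥ (c w + c w') / 2 ≥ 0`; for `F = ∅` trivial; for
`F = N` the sum is unchanged; for the other filters `∑_F c' ≤ ∑_F c + ε`.  And
`∏_N c' = (c w + ε) (c w' - ε) ∏_{others} c > ∏_N c` as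
`(c w + ε) (c w' - ε) = c w c w' + ε (c w' - c w - ε)` and all values of `c` on `N` are positive.
-/

set_option autoImplicit false

namespace Pool.Agent.H62.UC

open Finset

variable {α : Type*} [DecidableEq α]

theorem exists_max {V : Finset α} {μ : Finset α → ℝ} (hμ : Decr V μ)
    (N : Finset (Finset α)) :
    ∃ c, Feas V μ N c ∧ ∀ c', Feas V μ N c' → ∏ w ∈ N, c' w ≤ ∏ w ∈ N, c w := by
  obtain ⟨B, hB⟩ : ∃ B, B = up V μ N := ⟨_, rfl⟩
  obtain ⟨K, hK⟩ : ∃ K : Set (Finset α → ℝ),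
    K = {c | Feas V μ N c ∧ ∀ w, w ∉ N → c w = 0} := ⟨_, rfl⟩
  have hmem : ∀ c, c ∈ K ↔ Feas V μ N c ∧ ∀ w, w ∉ N → c w = 0 := by
    intro c
    rw [hK]
    rfl
  have hcl : IsClosed K := by
    have e : K = ((⋂ w : Finset α, ⋂ _ : w ∈ N, {c : Finset α → ℝ | 0 ≤ c w}) ∩
        (⋂ F : Finset (Finset α), ⋂ _ : Filt N F,
          {c : Finset α → ℝ | ∑ w ∈ F, c w ≤ up V μ F})) ∩
        (⋂ w : Finset α, ⋂ _ : w ∉ N, {c : Finset α → ℝ | c w = 0}) := by
      ext c
      rw [hmem]
      unfold Feas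
      simp only [Set.mem_inter_iff, Set.mem_iInter, Set.mem_ofPred_eq]
    rw [e]
    refine (IsClosed.inter ?_ ?_).inter ?_
    · exact isClosed_iInter fun w => isClosed_iInter fun _ =>
        isClosed_le continuous_const (continuous_apply w)
    · exact isClosed_iInter fun F => isClosed_iInter fun _ =>
        isClosed_le (continuous_finsetSum F fun w _ => continuous_apply w) continuous_const
    · exact isClosed_iInter fun w => isClosed_iInter fun _ =>
        isClosed_eq (continuous_apply w) continuous_const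
  have hsub : K ⊆ Set.univ.pi (fun w : Finset α => Set.Icc (0 : ℝ) (if w ∈ N then B else 0)) := by
    intro c hc
    rw [hmem] at hc
    intro w _
    show c w ∈ Set.Icc (0 : ℝ) (if w ∈ N then B else 0)
    by_cases hw : w ∈ N
    · rw [if_pos hw]
      refine ⟨hc.1.1 w hw, ?_⟩
      have h1 := hc.1.2 N ⟨subset_rfl, fun _ _ y hy _ => hy⟩
      have h2 : c w ≤ ∑ y ∈ N, c y := single_le_sum (f := c) (fun y hy => hc.1.1 y hy) hw
      rw [hB]
      exact h2.trans h1
    · rw [if_neg hw, hc.2 w hw]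
      exact ⟨le_rfl, le_rfl⟩
  have hcomp : IsCompact K :=
    (isCompact_univ_pi fun w : Finset α => isCompact_Icc).of_isClosed_subset hcl hsub
  have hne : K.Nonempty := by
    refine ⟨fun _ => 0, ?_⟩
    rw [hmem]
    refine ⟨⟨fun _ _ => le_rfl, fun F _ => ?_⟩, fun _ _ => rfl⟩
    rw [sum_const_zero]
    exact up_nonneg hμ F
  obtain ⟨c, hcK, hc⟩ := hcomp.exists_isMaxOn hne
    (continuous_finsetProd N fun w _ => continuous_apply w).continuousOn
  refine ⟨c, ((hmem c).1 hcK).1, fun c' hc' => ?_⟩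
  obtain ⟨c₁, hc₁⟩ : ∃ c₁ : Finset α → ℝ, c₁ = fun w => if w ∈ N then c' w else 0 := ⟨_, rfl⟩
  have h1 : ∀ w ∈ N, c₁ w = c' w := by
    intro w hw
    rw [hc₁]
    exact if_pos hw
  have h2 : c₁ ∈ K := by
    rw [hmem]
    refine ⟨⟨fun w hw => ?_, fun F hF => ?_⟩, fun w hw => ?_⟩
    · rw [h1 w hw]
      exact hc'.1 w hw
    · rw [sum_congr rfl fun w hw => h1 w (hF.1 hw)]
      exact hc'.2 F hF
    · rw [hc₁]
      exact if_neg hw
  have h3 : ∏ w ∈ N, c₁ w ≤ ∏ w ∈ N, c w := hc h2
  rwa [prod_congr rfl h1] at h3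

private theorem Ke_eps {ι : Type*} (S : Finset ι) (g : ι → ℝ) (h : ∀ i ∈ S, 0 < g i) {δ : ℝ}
    (hδ : 0 < δ) : ∃ ε : ℝ, 0 < ε ∧ ε ≤ δ ∧ ∀ i ∈ S, ε ≤ g i := by
  rcases S.eq_empty_or_nonempty with rfl | hS
  · exact ⟨δ, hδ, le_rfl, fun i hi => absurd hi (notMem_empty i)⟩
  · obtain ⟨j, hj, hm⟩ := exists_min_image S g hS
    exact ⟨min (g j) δ, lt_min (h j hj) hδ, min_le_right _ _,
      fun i hi => (min_le_left _ _).trans (hm i hi)⟩

private theorem Ke_aux {V : Finset α} {μ : Finset α → ℝ} {N : Finset (Finset α)}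
    {c : Finset α → ℝ} (hc : Feas V μ N c)
    (hmax : ∀ c', Feas V μ N c' → ∏ w ∈ N, c' w ≤ ∏ w ∈ N, c w) (hpos : ∀ w ∈ N, 0 < c w)
    (hnt : ∀ F, Filt N F → F ≠ ∅ → F ≠ N → ∑ w ∈ F, c w < up V μ F) {w w' : Finset α}
    (hw : w ∈ N) (hw' : w' ∈ N) : ¬ c w < c w' := by
  classical
  intro hlt
  have hne : w ≠ w' := fun h => by
    rw [h] at hlt
    exact lt_irrefl _ hlt
  obtain ⟨ε, hε, hε2, hεF⟩ := Ke_eps (N.powerset.filter fun F => Filt N F ∧ F ≠ ∅ ∧ F ≠ N)
    (fun F => up V μ F - ∑ w ∈ F, c w) (by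
      intro F hF
      rw [mem_filter] at hF
      exact sub_pos.2 (hnt F hF.2.1 hF.2.2.1 hF.2.2.2)) (δ := (c w' - c w) / 2) (by linarith)
  obtain ⟨c', hc'⟩ : ∃ c' : Finset α → ℝ,
    c' = fun x => c x + (if x = w then ε else 0) - (if x = w' then ε else 0) := ⟨_, rfl⟩
  have hv : ∀ x, c' x = c x + (if x = w then ε else 0) - (if x = w' then ε else 0) := by
    intro x
    rw [hc']
  have hsum : ∀ F : Finset (Finset α), ∑ x ∈ F, c' x =
      ∑ x ∈ F, c x + (if w ∈ F then ε else 0) - (if w' ∈ F then ε else 0) := by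
    intro F
    rw [sum_congr rfl fun x _ => hv x, sum_sub_distrib, sum_add_distrib, sum_ite_eq', sum_ite_eq']
  have e1 : c' w = c w + ε := by
    rw [hv, if_pos rfl, if_neg hne, sub_zero]
  have e2 : c' w' = c w' - ε := by
    rw [hv, if_neg (Ne.symm hne), if_pos rfl, add_zero]
  have e3 : ∀ x, x ≠ w → x ≠ w' → c' x = c x := by
    intro x h1 h2
    rw [hv, if_neg h1, if_neg h2, add_zero, sub_zero]
  have hfeas : Feas V μ N c' := by
    refine ⟨fun x hx => ?_, fun F hF => ?_⟩
    · by_cases h1 : x = w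
      · rw [h1, e1]
        have := hpos w hw
        linarith
      · by_cases h2 : x = w'
        · rw [h2, e2]
          have := hpos w hw
          linarith
        · rw [e3 x h1 h2]
          exact hc.1 x hx
    · rw [hsum F]
      by_cases h1 : F = ∅
      · have h2 := hc.2 F hF
        rw [h1] at h2 ⊢
        simpa using h2
      · by_cases h2 : F = N
        · rw [h2, if_pos hw, if_pos hw']
          have h3 := hc.2 N (h2 ▸ hF)
          linarith
        · have h3 := hεF F (mem_filter.2 ⟨mem_powerset.2 hF.1, hF, h1, h2⟩)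
          have h4 : (if w ∈ F then ε else 0) ≤ ε := by
            split_ifs
            · exact le_rfl
            · exact hε.le
          have h5 : 0 ≤ (if w' ∈ F then ε else 0) := by
            split_ifs
            · exact hε.le
            · exact le_rfl
          linarith
  have hp : ∀ g : Finset α → ℝ, ∏ x ∈ N, g x = g w * (g w' * ∏ x ∈ (N.erase w).erase w', g x) := by
    intro g
    rw [mul_prod_erase (N.erase w) g (mem_erase.2 ⟨Ne.symm hne, hw'⟩), mul_prod_erase N g hw]
  have h1 := hmax c' hfeas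
  have h0 : ∏ x ∈ (N.erase w).erase w', c' x = ∏ x ∈ (N.erase w).erase w', c x :=
    prod_congr rfl fun x hx => by
      rw [mem_erase, mem_erase] at hx
      exact e3 x hx.2.1 hx.1
  rw [hp c', hp c, e1, e2, h0] at h1
  have h2 : 0 < ∏ x ∈ (N.erase w).erase w', c x := prod_pos fun x hx => by
    rw [mem_erase, mem_erase] at hx
    exact hpos x hx.2.2
  rw [← mul_assoc, ← mul_assoc] at h1
  have h3 := le_of_mul_le_mul_right h1 h2
  nlinarith

theorem const_of_max {V : Finset α} {μ : Finset α → ℝ} {N : Finset (Finset α)}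
    {c : Finset α → ℝ} (hc : Feas V μ N c)
    (hmax : ∀ c', Feas V μ N c' → ∏ w ∈ N, c' w ≤ ∏ w ∈ N, c w) (hpos : ∀ w ∈ N, 0 < c w)
    (hnt : ∀ F, Filt N F → F ≠ ∅ → F ≠ N → ∑ w ∈ F, c w < up V μ F) :
    ∀ w ∈ N, ∀ w' ∈ N, c w = c w' := by
  intro w hw w' hw'
  exact le_antisymm (not_lt.1 (Ke_aux hc hmax hpos hnt hw' hw))
    (not_lt.1 (Ke_aux hc hmax hpos hnt hw hw'))

end Pool.Agent.H62.UC
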