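import Pool.Agent.H62.UC.Ka
import Pool.Agent.H62.UC.Kb
import Pool.Agent.H62.UC.Kc
import Pool.Agent.H62.UC.Kd
import Pool.Agent.H62.UC.Ke

/-!
Row UCKf.  The key lemma (assembly of Ka, Kb, Kc, Kd, Ke).

Proof.  Strong induction on `V.card + N.card` (for all `μ`, `c`).  Let `c` be feasible.  By
`exists_max` it is enough to treat a feasible `c` with the largest product.  `0 ≤ ∏ aw` by
`aw_nonneg`; if some `c w = 0`, `w ∈ N`, the left side is `0`.  So all `c w > 0` (`Feas`).  If `N = ∅`: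
`1 ≤ 1`.

Case A: there is a filter `F` of `N`, `F ≠ ∅`, `F ≠ N`, with `¬ (∑_F c < up V μ F)`, i.e.
`∑_F c = up V μ F`.  `∏_N c = ∏_F c * ∏_{N \ F} c` (`prod_sdiff`).  Induction for `(V, μ, F, c)`
(`F.card < N.card`, `feas_filter`, `joinP_filter`, `aw_filter`) and for
`(V, cut F μ, N \ F, c)` (`feas_rest`, `joinP_rest`, `decr_cut`, `aw_rest_le`).

Case B: no such filter: `c` is constant `κ > 0` on `N` (`const_of_max`); so `Feas V μ N (fun _ => κ)`
and `∏_N c = ∏_N κ`.
* `V = ∅`: `N = {∅}`, `∏ = κ = ∑_{w ∈ N} κ ≤ up ∅ μ {∅} = μ ∅ = aw ∅ μ {∅} ∅` (`N` is a filter of `N`).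
* `k ∈ V`: by `feas_zero`, `feas_one` and the induction hypothesis for `V.erase k` (with
  `N0 k N`, `N1 k N`: `card_N0_add` gives cardinalities `≤ N.card`; `N0_sub`, `N1_sub`, `joinP_N0`,
  `joinP_N1`, `decr_bar`, `decr_one`):
  `∏_{w ∈ N0} κ (1 + t_w) ≤ ∏_{w ∈ N0} aw V' μbar (N0 k N) w ≤ ∏_{w ∈ N0} (1 + t_w) aw V μ N w`
  (`aw_bar_le`), so `∏_{w ∈ N0} κ ≤ ∏_{w ∈ N0} aw V μ N w` (cancel `∏ (1 + t_w) > 0`,
  `prod_mul_distrib`), and `∏_{y ∈ N1} κ ≤ ∏_{y ∈ N1} aw V' μ1 (N1 k N) y = ∏_{y ∈ N1} aw V μ N (insert k y)`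
  (`aw_insert`).  Multiply, `prod_split k N`.
-/

set_option autoImplicit false

namespace Pool.Agent.H62.UC

open Finset

variable {α : Type*} [DecidableEq α]

private theorem key_aux (n : ℕ) : ∀ (V : Finset α) (μ : Finset α → ℝ)
    (N : Finset (Finset α)) (c : Finset α → ℝ), V.card + N.card ≤ n → Decr V μ →
    N ⊆ V.powerset → JoinP N → Feas V μ N c →
    ∏ w ∈ N, c w ≤ ∏ w ∈ N, aw V μ N w := by
  induction n with
  | zero =>
    intro V μ N c hn _ _ _ _
    have h1 : N = ∅ := card_eq_zero.1 (by omega)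
    subst h1
    simp
  | succ n ih =>
    intro V μ N c₀ hn hμ hN hJ hc₀
    obtain ⟨c, hc, hmax⟩ := exists_max hμ N
    refine (hmax c₀ hc₀).trans ?_
    by_cases hz : ∃ w ∈ N, c w = 0
    · obtain ⟨w, hw, h0⟩ := hz
      rw [prod_eq_zero hw h0]
      exact prod_nonneg fun w _ => aw_nonneg hμ N w
    have hpos : ∀ w ∈ N, 0 < c w := fun w hw =>
      lt_of_le_of_ne (hc.1 w hw) (fun h => hz ⟨w, hw, h.symm⟩)
    by_cases hA : ∃ F, Filt N F ∧ F ≠ ∅ ∧ F ≠ N ∧ ¬ (∑ w ∈ F, c w < up V μ F)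
    · obtain ⟨F, hF, hF0, hFN, ht⟩ := hA
      have ht' : ∑ w ∈ F, c w = up V μ F := le_antisymm (hc.2 F hF) (not_lt.1 ht)
      have hcard : F.card < N.card := card_lt_card (Finset.ssubset_iff_subset_ne.2 ⟨hF.1, hFN⟩)
      have hcF : 0 < F.card := card_pos.2 (nonempty_iff_ne_empty.2 hF0)
      have hcs : (N \ F).card + F.card = N.card := card_sdiff_add_card_eq_card hF.1
      have h1 := ih V μ F c (by omega) hμ (hF.1.trans hN) (joinP_filter hJ hF)
        (feas_filter hF hc)
      have h2 := ih V (cut F μ) (N \ F) c (by omega) (decr_cut hμ F)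
        (sdiff_subset.trans hN) (joinP_rest hJ hF) (feas_rest hF hc ht')
      rw [← prod_sdiff hF.1, ← prod_sdiff (f := aw V μ N) hF.1]
      refine mul_le_mul ?_ ?_ (prod_nonneg fun w hw => hc.1 w (hF.1 hw))
        (prod_nonneg fun w _ => aw_nonneg hμ N w)
      · exact h2.trans (prod_le_prod (fun w _ => aw_nonneg (decr_cut hμ F) _ w)
          fun w hw => aw_rest_le hμ hF hw)
      · exact h1.trans_eq (prod_congr rfl fun w hw => aw_filter hF hw)
    · have hnt : ∀ F, Filt N F → F ≠ ∅ → F ≠ N → ∑ w ∈ F, c w < up V μ F := by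
        intro F h1 h2 h3
        by_contra h4
        exact hA ⟨F, h1, h2, h3, h4⟩
      have hconst := const_of_max hc hmax hpos hnt
      rcases N.eq_empty_or_nonempty with hNe | ⟨w₀, hw₀⟩
      · subst hNe
        simp
      obtain ⟨κ, hκ⟩ : ∃ κ, κ = c w₀ := ⟨_, rfl⟩
      have hκ0 : 0 < κ := by
        rw [hκ]
        exact hpos w₀ hw₀
      have hcκ : ∀ w ∈ N, c w = κ := fun w hw => by
        rw [hκ]
        exact hconst w hw w₀ hw₀
      have hF : Feas V μ N (fun _ => κ) := by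
        refine ⟨fun _ _ => hκ0.le, fun F hF => ?_⟩
        refine le_trans (le_of_eq ?_) (hc.2 F hF)
        exact sum_congr rfl fun w hw => (hcκ w (hF.1 hw)).symm
      rw [prod_congr rfl hcκ]
      rcases V.eq_empty_or_nonempty with hVe | ⟨k, hk⟩
      · subst hVe
        have hN1 : N = {∅} := by
          apply Subset.antisymm
          · exact hN
          · intro x hx
            rw [mem_singleton] at hx
            have h1 := hN hw₀
            rw [powerset_empty, mem_singleton] at h1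
            rw [hx, ← h1]
            exact hw₀
        subst hN1
        have h1 := hF.2 {∅} ⟨Subset.refl _, fun w _ y hy _ => hy⟩
        have h2 : up ∅ μ {∅} = μ ∅ := by
          simp [up]
        have h3 : aw ∅ μ {∅} ∅ = μ ∅ := by
          simp [aw]
        rw [h2, sum_singleton] at h1
        rw [prod_singleton, prod_singleton, h3]
        exact h1
      · have hVc : (V.erase k).card + 1 = V.card := card_erase_add_one hk
        have hNc := card_N0_add k N
        have h0 := ih (V.erase k) (fun Z => μ Z + μ (insert k Z)) (N0 k N)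
          (fun w => κ * (1 + (tt k N w : ℝ))) (by omega) (decr_bar hμ hk) (N0_sub hN)
          (joinP_N0 hJ) (feas_zero hJ hk hκ0.le hF)
        have h1 := ih (V.erase k) (fun Z => μ (insert k Z)) (N1 k N) (fun _ => κ)
          (by omega) (decr_one hμ hk) (N1_sub hN) (joinP_N1 hJ) (feas_one hk hF)
        have h2 : ∏ w ∈ N0 k N, aw (V.erase k) (fun Z => μ Z + μ (insert k Z)) (N0 k N) w ≤
            ∏ w ∈ N0 k N, (1 + (tt k N w : ℝ)) * aw V μ N w :=
          prod_le_prod (fun w _ => aw_nonneg (decr_bar hμ hk) _ w)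
            fun w hw => aw_bar_le hμ hN hJ hk hw
        have h3 := h0.trans h2
        rw [prod_mul_distrib, prod_mul_distrib, mul_comm] at h3
        have ht : (0 : ℝ) < ∏ w ∈ N0 k N, (1 + (tt k N w : ℝ)) :=
          prod_pos fun w _ => by positivity
        have h4 := le_of_mul_le_mul_left h3 ht
        have h5 : ∏ y ∈ N1 k N, aw (V.erase k) (fun Z => μ (insert k Z)) (N1 k N) y =
            ∏ y ∈ N1 k N, aw V μ N (insert k y) :=
          prod_congr rfl fun y hy => (aw_insert hk hy).symm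
        rw [h5] at h1
        rw [prod_split k N (fun _ => κ), prod_split k N (aw V μ N)]
        exact mul_le_mul h4 h1 (prod_nonneg fun _ _ => hκ0.le)
          (prod_nonneg fun w _ => aw_nonneg hμ N w)

theorem key {V : Finset α} {μ : Finset α → ℝ} (hμ : Decr V μ) {N : Finset (Finset α)}
    (hN : N ⊆ V.powerset) (hJ : JoinP N) {c : Finset α → ℝ} (hc : Feas V μ N c) :
    ∏ w ∈ N, c w ≤ ∏ w ∈ N, aw V μ N w := by
  exact key_aux _ V μ N c le_rfl hμ hN hJ hc

end Pool.Agent.H62.UC
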