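import Pool.Agent.H62.UC.La

/-!
Row UCLb.  Harris' inequality for the product measure.

Proof of `harris_fun`, by induction on `V` (`Finset.induction_on`, for all `f`, `g`).
`V = ∅`: one term, `pm ∅ p ∅ = 1`, equality.
`insert k V`, `k ∉ V`: `sum_powerset_insert`, `pm_insert`, `pm_insert'`.  With
`f0 Z = f Z`, `f1 Z = f (insert k Z)`, and `⟨h⟩ = ∑_{Z ∈ V.powerset} pm V p Z * h Z`:
left side `= (1 - p) ⟨f0 g0⟩ + p ⟨f1 g1⟩ ≤ (1 - p) ⟨f0⟩ ⟨g0⟩ + p ⟨f1⟩ ⟨g1⟩` (induction for `f0, g0` and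
`f1, g1`, which are decreasing / increasing), and with `⟨f1⟩ ≤ ⟨f0⟩`, `⟨g0⟩ ≤ ⟨g1⟩`:
`((1-p) ⟨f0⟩ + p ⟨f1⟩) ((1-p) ⟨g0⟩ + p ⟨g1⟩) - (1-p) ⟨f0⟩⟨g0⟩ - p ⟨f1⟩⟨g1⟩
   = p (1-p) (⟨f0⟩ - ⟨f1⟩) (⟨g1⟩ - ⟨g0⟩) ≥ 0`.

Proof of `harris`: `harris_fun` for `f Z = if Z ∈ H then 0 else 1`,
`g Z = if ∃ w ∈ F, w ⊆ Z then 1 else 0`.
-/

set_option autoImplicit false

namespace Pool.Agent.H62.UC

open Finset

variable {α : Type*} [DecidableEq α]

theorem harris_fun (V : Finset α) (p : α → ℝ) (hp : ∀ j ∈ V, 0 ≤ p j ∧ p j ≤ 1)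
    (f g : Finset α → ℝ) (hf : ∀ Z ⊆ V, ∀ Z' ⊆ Z, f Z ≤ f Z')
    (hg : ∀ Z ⊆ V, ∀ Z' ⊆ Z, g Z' ≤ g Z) :
    ∑ Z ∈ V.powerset, pm V p Z * (f Z * g Z) ≤
      (∑ Z ∈ V.powerset, pm V p Z * f Z) * ∑ Z ∈ V.powerset, pm V p Z * g Z := by
  induction V using Finset.induction_on generalizing f g with
  | empty => simp [pm]
  | insert k V hk ih =>
    have hpk := hp k (mem_insert_self k V)
    have hpV : ∀ j ∈ V, 0 ≤ p j ∧ p j ≤ 1 := fun j hj => hp j (mem_insert_of_mem hj)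
    -- the expansion of a mean over the subsets of `insert k V`
    have hexp : ∀ h : Finset α → ℝ, ∑ Z ∈ (insert k V).powerset, pm (insert k V) p Z * h Z =
        (1 - p k) * ∑ Z ∈ V.powerset, pm V p Z * h Z +
          p k * ∑ Z ∈ V.powerset, pm V p Z * h (insert k Z) := by
      intro h
      rw [sum_powerset_insert hk, mul_sum, mul_sum]
      congr 1
      · refine sum_congr rfl fun Z hZ => ?_
        rw [pm_insert hk (mem_powerset.mp hZ)]; ring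
      · refine sum_congr rfl fun Z hZ => ?_
        rw [pm_insert' hk (mem_powerset.mp hZ)]; ring
    have hf0 : ∀ Z ⊆ V, ∀ Z' ⊆ Z, f Z ≤ f Z' := fun Z hZ Z' hZ' =>
      hf Z (hZ.trans (subset_insert k V)) Z' hZ'
    have hg0 : ∀ Z ⊆ V, ∀ Z' ⊆ Z, g Z' ≤ g Z := fun Z hZ Z' hZ' =>
      hg Z (hZ.trans (subset_insert k V)) Z' hZ'
    have hf1 : ∀ Z ⊆ V, ∀ Z' ⊆ Z, f (insert k Z) ≤ f (insert k Z') := fun Z hZ Z' hZ' =>
      hf _ (insert_subset_insert k hZ) _ (insert_subset_insert k hZ')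
    have hg1 : ∀ Z ⊆ V, ∀ Z' ⊆ Z, g (insert k Z') ≤ g (insert k Z) := fun Z hZ Z' hZ' =>
      hg _ (insert_subset_insert k hZ) _ (insert_subset_insert k hZ')
    have ih0 := ih hpV f g hf0 hg0
    have ih1 := ih hpV (fun Z => f (insert k Z)) (fun Z => g (insert k Z)) hf1 hg1
    have hf01 : ∑ Z ∈ V.powerset, pm V p Z * f (insert k Z) ≤
        ∑ Z ∈ V.powerset, pm V p Z * f Z := by
      refine sum_le_sum fun Z hZ => ?_
      have hZV := mem_powerset.mp hZ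
      exact mul_le_mul_of_nonneg_left
        (hf _ (insert_subset_insert k hZV) Z (subset_insert k Z)) (pm_nonneg hpV hZV)
    have hg01 : ∑ Z ∈ V.powerset, pm V p Z * g Z ≤
        ∑ Z ∈ V.powerset, pm V p Z * g (insert k Z) := by
      refine sum_le_sum fun Z hZ => ?_
      have hZV := mem_powerset.mp hZ
      exact mul_le_mul_of_nonneg_left
        (hg _ (insert_subset_insert k hZV) Z (subset_insert k Z)) (pm_nonneg hpV hZV)
    rw [hexp (fun Z => f Z * g Z), hexp f, hexp g]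
    have h1 : 0 ≤ p k * (1 - p k) := mul_nonneg hpk.1 (by linarith [hpk.2])
    have h2 := mul_nonneg h1 (mul_nonneg (sub_nonneg.mpr hf01) (sub_nonneg.mpr hg01))
    have h3 := mul_le_mul_of_nonneg_left ih0 (by linarith [hpk.2] : (0:ℝ) ≤ 1 - p k)
    have h4 := mul_le_mul_of_nonneg_left ih1 hpk.1
    linarith

theorem harris {V : Finset α} {p : α → ℝ} (hp : ∀ j ∈ V, 0 ≤ p j ∧ p j ≤ 1)
    {H : Finset (Finset α)} (hup : ∀ Y ∈ H, ∀ Z ⊆ V, Y ⊆ Z → Z ∈ H)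
    (F : Finset (Finset α)) :
    ∑ Z ∈ V.powerset with (Z ∉ H ∧ ∃ w ∈ F, w ⊆ Z), pm V p Z ≤
      (∑ Z ∈ V.powerset with Z ∉ H, pm V p Z) * up V (pm V p) F := by
  classical
  have h := harris_fun V p hp (fun Z => if Z ∉ H then (1:ℝ) else 0)
    (fun Z => if ∃ w ∈ F, w ⊆ Z then (1:ℝ) else 0)
    (by
      intro Z hZ Z' hZ'
      by_cases h1 : Z ∉ H
      · have h2 : Z' ∉ H := fun h3 => h1 (hup Z' h3 Z hZ hZ')
        simp [h1, h2]
      · simp only [h1, if_false]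
        split_ifs <;> norm_num)
    (by
      intro Z hZ Z' hZ'
      by_cases h1 : ∃ w ∈ F, w ⊆ Z'
      · obtain ⟨w, hw, hwZ⟩ := h1
        have h2 : ∃ w ∈ F, w ⊆ Z := ⟨w, hw, hwZ.trans hZ'⟩
        have h3 : ∃ w ∈ F, w ⊆ Z' := ⟨w, hw, hwZ⟩
        simp only [h2, h3, if_true, le_refl]
      · simp only [h1, if_false]
        split_ifs <;> norm_num)
  have e1 : ∑ Z ∈ V.powerset with (Z ∉ H ∧ ∃ w ∈ F, w ⊆ Z), pm V p Z =
      ∑ Z ∈ V.powerset, pm V p Z * ((if Z ∉ H then (1:ℝ) else 0) *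
        (if ∃ w ∈ F, w ⊆ Z then (1:ℝ) else 0)) := by
    rw [sum_filter]
    refine sum_congr rfl fun Z _ => ?_
    by_cases h1 : Z ∉ H <;> by_cases h2 : ∃ w ∈ F, w ⊆ Z <;> simp only [h1, h2, and_true,
      and_false, and_self, if_true, if_false, mul_one, mul_zero, not_true, not_false_iff,
      false_and]
  have e2 : ∑ Z ∈ V.powerset with Z ∉ H, pm V p Z =
      ∑ Z ∈ V.powerset, pm V p Z * (if Z ∉ H then (1:ℝ) else 0) := by
    rw [sum_filter]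
    refine sum_congr rfl fun Z _ => ?_
    split_ifs <;> simp
  have e3 : up V (pm V p) F =
      ∑ Z ∈ V.powerset, pm V p Z * (if ∃ w ∈ F, w ⊆ Z then (1:ℝ) else 0) := by
    rw [up, sum_filter]
    refine sum_congr rfl fun Z _ => ?_
    split_ifs <;> simp
  rw [e1, e2, e3]
  exact h

end Pool.Agent.H62.UC
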