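import Pool.Agent.H62.UC.La

/-!
Row UCLc.  Removing supersets keeps a proportion.

Proof of `keep`.  Let `𝒮1 = {Z ∈ 𝒮 : j ∈ Z}`, `𝒮0 = {Z ∈ 𝒮 : j ∉ Z}`.  `Z ↦ Z.erase j` maps `𝒮1`
injectively into `𝒮0` (`w ⊆ Z.erase j` as `j ∉ w`), and `(1 - p j) pm V p Z = p j * pm V p (Z.erase j)`
by `pm_ratio`.  So `(1 - p j) mass 𝒮1 ≤ p j mass 𝒮0`, i.e. `(1 - p j) mass 𝒮 ≤ mass 𝒮0`.  And
`𝒮0 ⊆ 𝒮.filter (¬ Y ⊆ ·)` as `j ∈ Y`.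

Proof of `keep_strict`.  Now also `w ∈ 𝒮` and `2 ≤ (Y \ w).card`.
If no member of `𝒮` contains `Y` then `𝒮.filter (¬ Y ⊆ ·) = 𝒮` has mass `> (1 - p j) mass 𝒮`, as
`mass 𝒮 ≥ pm V p w > 0` and `p j > 0`.
Otherwise `Z ∈ 𝒮`, `Y ⊆ Z`, so `Z0 = insert j w` satisfies `w ⊆ Z0 ⊆ Z`, `Z0 ∈ 𝒮`, `Z0` does not contain
`Y` (there is `j' ∈ Y \ w`, `j' ≠ j`), `j ∈ Z0`.  So `𝒮.filter (¬ Y ⊆ ·)` contains `𝒮0` and the further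
element `Z0`, of positive mass.

Proof of `keep_all`: induction on `ℰ` (the family `𝒮.filter (∀ Y ∈ ℰ, ¬ Y ⊆ ·)` is again closed
under removing points outside `w`; `filter_filter`).
Proof of `keep_all_strict`: let `Y0 ∈ ℰ` have `2 ≤ (Y0 \ w).card`; first apply `keep_all` to
`ℰ.erase Y0`, then `keep_strict` to the resulting family, which contains `w` (`Y ⊆ w` is impossible as
`J Y ∈ Y \ w`); all factors `1 - p (J Y)` are positive.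
-/

set_option autoImplicit false

namespace Pool.Agent.H62.UC

open Finset

variable {α : Type*} [DecidableEq α]

private theorem lc_mono {V : Finset α} {p : α → ℝ} (hp : ∀ j ∈ V, 0 < p j ∧ p j < 1)
    {𝒯 𝒯' : Finset (Finset α)} (h : 𝒯 ⊆ 𝒯') (hV : ∀ Z ∈ 𝒯', Z ⊆ V) :
    mass (pm V p) 𝒯 ≤ mass (pm V p) 𝒯' := by
  unfold mass
  exact Finset.sum_le_sum_of_subset_of_nonneg h fun Z hZ _ => (pm_pos hp (hV Z hZ)).le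

private theorem lc_half {V : Finset α} {p : α → ℝ} (hp : ∀ j ∈ V, 0 < p j ∧ p j < 1)
    {𝒮 : Finset (Finset α)} {w : Finset α} (h𝒮 : ∀ Z ∈ 𝒮, w ⊆ Z ∧ Z ⊆ V)
    (hd : ∀ Z ∈ 𝒮, ∀ Z', w ⊆ Z' → Z' ⊆ Z → Z' ∈ 𝒮) {j : α} (hjV : j ∈ V) (hjw : j ∉ w) :
    (1 - p j) * mass (pm V p) 𝒮 ≤ mass (pm V p) (𝒮.filter (fun Z => j ∉ Z)) := by
  have h1 : mass (pm V p) 𝒮 = mass (pm V p) (𝒮.filter (fun Z => j ∈ Z))
      + mass (pm V p) (𝒮.filter (fun Z => j ∉ Z)) := by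
    unfold mass
    exact (Finset.sum_filter_add_sum_filter_not 𝒮 (fun Z => j ∈ Z) (pm V p)).symm
  have h2 : (1 - p j) * mass (pm V p) (𝒮.filter (fun Z => j ∈ Z))
      ≤ p j * mass (pm V p) (𝒮.filter (fun Z => j ∉ Z)) := by
    have h3 : (1 - p j) * mass (pm V p) (𝒮.filter (fun Z => j ∈ Z))
        = p j * ∑ Z ∈ 𝒮.filter (fun Z => j ∈ Z), pm V p (Z.erase j) := by
      unfold mass
      rw [Finset.mul_sum, Finset.mul_sum]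
      refine Finset.sum_congr rfl fun Z hZ => ?_
      obtain ⟨hZ1, hZ2⟩ := Finset.mem_filter.1 hZ
      have h4 := pm_ratio (p := p) hjV (Z := Z.erase j)
        ((Finset.erase_subset _ _).trans (h𝒮 Z hZ1).2) (Finset.notMem_erase j Z)
      rw [Finset.insert_erase hZ2] at h4
      exact h4
    rw [h3]
    refine mul_le_mul_of_nonneg_left ?_ (hp j hjV).1.le
    have hinj : Set.InjOn (fun Z : Finset α => Z.erase j)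
        (↑(𝒮.filter (fun Z => j ∈ Z)) : Set (Finset α)) := by
      intro Z hZ Z' hZ' he
      have a1 := (Finset.mem_filter.1 (Finset.mem_coe.1 hZ)).2
      have a2 := (Finset.mem_filter.1 (Finset.mem_coe.1 hZ')).2
      have he' : Z.erase j = Z'.erase j := he
      rw [← Finset.insert_erase a1, he', Finset.insert_erase a2]
    have h5 : ∑ Z ∈ 𝒮.filter (fun Z => j ∈ Z), pm V p (Z.erase j)
        = mass (pm V p) ((𝒮.filter (fun Z => j ∈ Z)).image (fun Z => Z.erase j)) := by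
      unfold mass
      rw [Finset.sum_image hinj]
    rw [h5]
    refine lc_mono hp ?_ fun Z hZ => (h𝒮 Z (Finset.mem_filter.1 hZ).1).2
    intro Z hZ
    obtain ⟨Z1, hZ1, rfl⟩ := Finset.mem_image.1 hZ
    obtain ⟨hZ2, hZ3⟩ := Finset.mem_filter.1 hZ1
    refine Finset.mem_filter.2 ⟨hd Z1 hZ2 _ ?_ (Finset.erase_subset _ _),
      Finset.notMem_erase j Z1⟩
    intro a ha
    exact Finset.mem_erase.2 ⟨fun h => hjw (h ▸ ha), (h𝒮 Z1 hZ2).1 ha⟩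
  rw [h1]
  linarith

private theorem lc_sub {V : Finset α} {𝒮 : Finset (Finset α)} {Y w : Finset α} {j : α}
    (hj : j ∈ Y \ w) :
    𝒮.filter (fun Z => j ∉ Z) ⊆ 𝒮.filter (fun Z => ¬ Y ⊆ Z) := by
  intro Z hZ
  obtain ⟨h1, h2⟩ := Finset.mem_filter.1 hZ
  exact Finset.mem_filter.2 ⟨h1, fun h => h2 (h (Finset.mem_sdiff.1 hj).1)⟩

private theorem lc_down {𝒮 : Finset (Finset α)} {w : Finset α}
    (hd : ∀ Z ∈ 𝒮, ∀ Z', w ⊆ Z' → Z' ⊆ Z → Z' ∈ 𝒮) (ℰ : Finset (Finset α)) :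
    ∀ Z ∈ 𝒮.filter (fun Z => ∀ Y ∈ ℰ, ¬ Y ⊆ Z), ∀ Z', w ⊆ Z' → Z' ⊆ Z →
      Z' ∈ 𝒮.filter (fun Z => ∀ Y ∈ ℰ, ¬ Y ⊆ Z) := by
  intro Z hZ Z' h1 h2
  obtain ⟨h3, h4⟩ := Finset.mem_filter.1 hZ
  exact Finset.mem_filter.2 ⟨hd Z h3 Z' h1 h2, fun Y hY h => h4 Y hY (h.trans h2)⟩

theorem keep {V : Finset α} {p : α → ℝ} (hp : ∀ j ∈ V, 0 < p j ∧ p j < 1)
    {𝒮 : Finset (Finset α)} {w : Finset α} (h𝒮 : ∀ Z ∈ 𝒮, w ⊆ Z ∧ Z ⊆ V)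
    (hd : ∀ Z ∈ 𝒮, ∀ Z', w ⊆ Z' → Z' ⊆ Z → Z' ∈ 𝒮) {Y : Finset α} (hY : Y ⊆ V) {j : α}
    (hj : j ∈ Y \ w) :
    (1 - p j) * mass (pm V p) 𝒮 ≤ mass (pm V p) (𝒮.filter (fun Z => ¬ Y ⊆ Z)) := by
  have h1 := Finset.mem_sdiff.1 hj
  refine (lc_half hp h𝒮 hd (hY h1.1) h1.2).trans (lc_mono hp (lc_sub (V := V) hj) ?_)
  intro Z hZ
  exact (h𝒮 Z (Finset.mem_filter.1 hZ).1).2

theorem keep_strict {V : Finset α} {p : α → ℝ} (hp : ∀ j ∈ V, 0 < p j ∧ p j < 1)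
    {𝒮 : Finset (Finset α)} {w : Finset α} (h𝒮 : ∀ Z ∈ 𝒮, w ⊆ Z ∧ Z ⊆ V)
    (hd : ∀ Z ∈ 𝒮, ∀ Z', w ⊆ Z' → Z' ⊆ Z → Z' ∈ 𝒮) {Y : Finset α} (hY : Y ⊆ V) {j : α}
    (hj : j ∈ Y \ w) (hw : w ∈ 𝒮) (h2 : 2 ≤ (Y \ w).card) :
    (1 - p j) * mass (pm V p) 𝒮 < mass (pm V p) (𝒮.filter (fun Z => ¬ Y ⊆ Z)) := by
  have h1 := Finset.mem_sdiff.1 hj
  have hjV : j ∈ V := hY h1.1
  by_cases hc : ∃ Z ∈ 𝒮, Y ⊆ Z
  · obtain ⟨Z, hZ, hYZ⟩ := hc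
    refine (lc_half hp h𝒮 hd hjV h1.2).trans_lt ?_
    have hZ0 : insert j w ∈ 𝒮 := by
      refine hd Z hZ _ (Finset.subset_insert _ _) ?_
      intro a ha
      rcases Finset.mem_insert.1 ha with rfl | ha
      · exact hYZ h1.1
      · exact (h𝒮 Z hZ).1 ha
    obtain ⟨j', hj', hne⟩ := Finset.exists_mem_ne (s := Y \ w) (by omega) j
    have hY0 : ¬ Y ⊆ insert j w := by
      intro h
      have h3 := Finset.mem_sdiff.1 hj'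
      rcases Finset.mem_insert.1 (h h3.1) with h4 | h4
      · exact hne h4
      · exact h3.2 h4
    unfold mass
    refine Finset.sum_lt_sum_of_subset (lc_sub (V := V) hj) (i := insert j w)
      (Finset.mem_filter.2 ⟨hZ0, hY0⟩) ?_ (pm_pos hp (h𝒮 _ hZ0).2) ?_
    · intro h
      exact (Finset.mem_filter.1 h).2 (Finset.mem_insert_self _ _)
    · intro Z' hZ' _
      exact (pm_pos hp (h𝒮 Z' (Finset.mem_filter.1 hZ').1).2).le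
  · have h2 : 𝒮.filter (fun Z => ¬ Y ⊆ Z) = 𝒮 :=
      Finset.filter_true_of_mem fun Z hZ h => hc ⟨Z, hZ, h⟩
    rw [h2]
    have h3 : 0 < mass (pm V p) 𝒮 := by
      unfold mass
      exact Finset.sum_pos (fun Z hZ => pm_pos hp (h𝒮 Z hZ).2) ⟨w, hw⟩
    have h4 := (hp j hjV).1
    nlinarith

theorem keep_all {V : Finset α} {p : α → ℝ} (hp : ∀ j ∈ V, 0 < p j ∧ p j < 1)
    {𝒮 : Finset (Finset α)} {w : Finset α} (h𝒮 : ∀ Z ∈ 𝒮, w ⊆ Z ∧ Z ⊆ V)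
    (hd : ∀ Z ∈ 𝒮, ∀ Z', w ⊆ Z' → Z' ⊆ Z → Z' ∈ 𝒮) (ℰ : Finset (Finset α))
    (J : Finset α → α) (hJ : ∀ Y ∈ ℰ, Y ⊆ V ∧ J Y ∈ Y \ w) :
    (∏ Y ∈ ℰ, (1 - p (J Y))) * mass (pm V p) 𝒮 ≤
      mass (pm V p) (𝒮.filter (fun Z => ∀ Y ∈ ℰ, ¬ Y ⊆ Z)) := by
  induction ℰ using Finset.induction_on with
  | empty =>
    simp
  | insert Y ℰ hYn ih =>
    have ih' := ih fun Y' hY' => hJ Y' (Finset.mem_insert_of_mem hY')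
    have hY := hJ Y (Finset.mem_insert_self _ _)
    have hk := keep hp (𝒮 := 𝒮.filter (fun Z => ∀ Y ∈ ℰ, ¬ Y ⊆ Z)) (w := w)
      (fun Z hZ => h𝒮 Z (Finset.mem_filter.1 hZ).1) (lc_down hd ℰ) hY.1 hY.2
    have hpos : 0 ≤ 1 - p (J Y) := by
      have := (hp (J Y) (hY.1 (Finset.mem_sdiff.1 hY.2).1)).2
      linarith
    have he : (𝒮.filter (fun Z => ∀ Y ∈ ℰ, ¬ Y ⊆ Z)).filter (fun Z => ¬ Y ⊆ Z)
        = 𝒮.filter (fun Z => ∀ Y' ∈ insert Y ℰ, ¬ Y' ⊆ Z) := by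
      ext Z
      simp only [Finset.mem_filter, Finset.forall_mem_insert]
      tauto
    rw [he] at hk
    rw [Finset.prod_insert hYn, mul_assoc]
    exact (mul_le_mul_of_nonneg_left ih' hpos).trans hk

theorem keep_all_strict {V : Finset α} {p : α → ℝ} (hp : ∀ j ∈ V, 0 < p j ∧ p j < 1)
    {𝒮 : Finset (Finset α)} {w : Finset α} (h𝒮 : ∀ Z ∈ 𝒮, w ⊆ Z ∧ Z ⊆ V)
    (hd : ∀ Z ∈ 𝒮, ∀ Z', w ⊆ Z' → Z' ⊆ Z → Z' ∈ 𝒮) (ℰ : Finset (Finset α))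
    (J : Finset α → α) (hJ : ∀ Y ∈ ℰ, Y ⊆ V ∧ J Y ∈ Y \ w) (hw : w ∈ 𝒮)
    (h2 : ∃ Y ∈ ℰ, 2 ≤ (Y \ w).card) :
    (∏ Y ∈ ℰ, (1 - p (J Y))) * mass (pm V p) 𝒮 <
      mass (pm V p) (𝒮.filter (fun Z => ∀ Y ∈ ℰ, ¬ Y ⊆ Z)) := by
  obtain ⟨Y, hYE, hYc⟩ := h2
  have hY := hJ Y hYE
  have h1 := keep_all hp h𝒮 hd (ℰ.erase Y) J fun Y' hY' => hJ Y' (Finset.mem_of_mem_erase hY')
  have hw' : w ∈ 𝒮.filter (fun Z => ∀ Y' ∈ ℰ.erase Y, ¬ Y' ⊆ Z) := by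
    refine Finset.mem_filter.2 ⟨hw, fun Y' hY' h => ?_⟩
    have h3 := Finset.mem_sdiff.1 (hJ Y' (Finset.mem_of_mem_erase hY')).2
    exact h3.2 (h h3.1)
  have hk := keep_strict hp (𝒮 := 𝒮.filter (fun Z => ∀ Y' ∈ ℰ.erase Y, ¬ Y' ⊆ Z)) (w := w)
    (fun Z hZ => h𝒮 Z (Finset.mem_filter.1 hZ).1) (lc_down hd _) hY.1 hY.2 hw' hYc
  have hpos : 0 ≤ 1 - p (J Y) := by
    have := (hp (J Y) (hY.1 (Finset.mem_sdiff.1 hY.2).1)).2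
    linarith
  have he : (𝒮.filter (fun Z => ∀ Y' ∈ ℰ.erase Y, ¬ Y' ⊆ Z)).filter (fun Z => ¬ Y ⊆ Z)
      = 𝒮.filter (fun Z => ∀ Y' ∈ ℰ, ¬ Y' ⊆ Z) := by
    ext Z
    simp only [Finset.mem_filter]
    constructor
    · rintro ⟨⟨a, b⟩, c⟩
      refine ⟨a, fun Y' hY' => ?_⟩
      by_cases hh : Y' = Y
      · rw [hh]
        exact c
      · exact b Y' (Finset.mem_erase.2 ⟨hh, hY'⟩)
    · rintro ⟨a, b⟩
      exact ⟨⟨a, fun Y' hY' => b Y' (Finset.mem_of_mem_erase hY')⟩, b Y hYE⟩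
  rw [he] at hk
  rw [← Finset.mul_prod_erase ℰ (fun Y => 1 - p (J Y)) hYE, mul_assoc]
  exact (mul_le_mul_of_nonneg_left h1 hpos).trans_lt hk

end Pool.Agent.H62.UC
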