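import Pool.Agent.H62.UC.Lb

/-!
Row UCLd.  The law of the largest member is feasible.

`cw V μ N H w` is the mass of the `Z ⊆ V`, `Z ∉ H`, whose largest member of `N` inside is `w`.

Proof of `cw_feas`.  Let `q = ∑_{Z ∉ H} pm V p Z`, `q > 0` (hypothesis).  `0 ≤ cw` clear.  Let `F` be a
filter of `N`.  For every `Z ⊆ V` with `Z ∉ H` that contains some `w ∈ F`: the union `u` of the members
of `N` inside `Z` is in `N`: unions of members of `N` inside `Z` are in `N` or in `H` (`hU`), and a
member of `H` inside `Z` would give `Z ∈ H` (`hup`); so by induction the union of the nonempty finset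
`N.filter (· ⊆ Z)` is in `N` (`Finset.sup` or `biUnion`, induction with nonempty).  So `Lg N u Z`,
and `w ⊆ u` gives `u ∈ F`.  Conversely `Lg N w Z` with `w ∈ F` gives `w ⊆ Z`.  At most one `w` has
`Lg N w Z`.  So `∑_{w ∈ F} cw w = ∑_{Z ∉ H, ∃ w ∈ F, w ⊆ Z} pm V p Z` (`sum_comm'` or write the sums
over filters as sums over disjoint unions, `sum_biUnion`), which is `≤ q * up V (pm V p) F` by
`harris`.  Divide by `q`.
-/

set_option autoImplicit false

namespace Pool.Agent.H62.UC

open Finset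

variable {α : Type*} [DecidableEq α]

/-- The mass of the `Z ⊆ V`, `Z ∉ H`, whose largest member of `N` inside is `w`. -/
noncomputable def cw (V : Finset α) (μ : Finset α → ℝ) (N H : Finset (Finset α))
    (w : Finset α) : ℝ :=
  ∑ Z ∈ V.powerset with (Z ∉ H ∧ Lg N w Z), μ Z

theorem cw_feas {V : Finset α} {p : α → ℝ} (hp : ∀ j ∈ V, 0 ≤ p j ∧ p j ≤ 1)
    {N H : Finset (Finset α)} (hN : N ⊆ V.powerset)
    (hup : ∀ Y ∈ H, ∀ Z ⊆ V, Y ⊆ Z → Z ∈ H)
    (hU : ∀ x ∈ N, ∀ y ∈ N, x ∪ y ∈ N ∨ x ∪ y ∈ H)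
    (hq : 0 < ∑ Z ∈ V.powerset with Z ∉ H, pm V p Z) :
    Feas V (pm V p) N
      (fun w => cw V (pm V p) N H w / ∑ Z ∈ V.powerset with Z ∉ H, pm V p Z) := by
  have hcw : ∀ w, 0 ≤ cw V (pm V p) N H w := fun w => sum_nonneg fun Z hZ =>
    pm_nonneg hp (mem_powerset.mp (mem_filter.mp hZ).1)
  refine ⟨fun w _ => div_nonneg (hcw w) hq.le, fun F hF => ?_⟩
  have hun : ∀ Z ⊆ V, Z ∉ H → ∀ T : Finset (Finset α), (∀ x ∈ T, x ∈ N ∧ x ⊆ Z) →
      T.Nonempty → T.biUnion id ∈ N := by
    intro Z hZV hZH T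
    induction T using Finset.induction_on with
    | empty => intro _ h; exact absurd h (by simp)
    | insert a T ha ih =>
      intro hT _
      rw [biUnion_insert]
      rcases T.eq_empty_or_nonempty with rfl | hne
      · simpa using (hT a (by simp)).1
      · have h1 := ih (fun x hx => hT x (mem_insert_of_mem hx)) hne
        have h2 := hT a (mem_insert_self a T)
        rcases hU a h2.1 _ h1 with h3 | h3
        · exact h3
        · exfalso
          apply hZH
          refine hup _ h3 Z hZV ?_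
          refine union_subset h2.2 ?_
          intro y hy
          obtain ⟨x, hx, hyx⟩ := mem_biUnion.mp hy
          exact (hT x (mem_insert_of_mem hx)).2 hyx
  have key : ∑ w ∈ F, cw V (pm V p) N H w =
      ∑ Z ∈ V.powerset with (Z ∉ H ∧ ∃ w ∈ F, w ⊆ Z), pm V p Z := by
    unfold cw
    rw [← sum_biUnion]
    · refine sum_congr ?_ fun _ _ => rfl
      ext Z
      simp only [mem_biUnion, mem_filter]
      constructor
      · rintro ⟨w, hw, hZ, hH, hL⟩
        exact ⟨hZ, hH, w, hw, hL.2.1⟩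
      · rintro ⟨hZ, hH, w, hw, hwZ⟩
        have hZV := mem_powerset.mp hZ
        have hmem : ∀ x ∈ N.filter (fun x => x ⊆ Z), x ∈ N ∧ x ⊆ Z := fun x hx =>
          mem_filter.mp hx
        have hwN : w ∈ N := hF.1 hw
        have hwT : w ∈ N.filter (fun x => x ⊆ Z) := mem_filter.mpr ⟨hwN, hwZ⟩
        have hu := hun Z hZV hH _ hmem ⟨w, hwT⟩
        have hwu : w ⊆ (N.filter (fun x => x ⊆ Z)).biUnion id :=
          subset_biUnion_of_mem id hwT
        refine ⟨_, hF.2 w hw _ hu hwu, hZ, hH, hu, ?_, ?_⟩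
        · intro y hy
          obtain ⟨x, hx, hyx⟩ := mem_biUnion.mp hy
          exact (hmem x hx).2 hyx
        · intro z hz hzZ
          exact subset_biUnion_of_mem id (mem_filter.mpr ⟨hz, hzZ⟩)
    · intro w _ w' _ hne
      rw [Function.onFun, Finset.disjoint_left]
      intro Z h1 h2
      have h3 := (mem_filter.mp h1).2.2
      have h4 := (mem_filter.mp h2).2.2
      exact hne (Subset.antisymm (h4.2.2 w h3.1 h3.2.1) (h3.2.2 w' h4.1 h4.2.1))
  rw [← sum_div, div_le_iff₀ hq, key, mul_comm]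
  exact harris hp hup F

end Pool.Agent.H62.UC
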