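import Pool.Agent.H62.UC.Lc
import Pool.Agent.H62.UC.Ld

/-!
Row UCLe.  Lower bound for the law of the largest member.

Fix `w ∈ N`.  Let `𝒮 = {Z ⊆ V : w ⊆ Z, no y ∈ N other than w with w ⊆ y ⊆ Z}`, so
`aw V μ N w = mass μ 𝒮`; `𝒮` is closed under removing points outside `w`, and `w ∈ 𝒮`.  Let
`ℰ = ((exits N H).filter (·.1 = w)).image Prod.snd`, `J' Y = J (w, Y)`.  Then
`∏_{Y ∈ ℰ} (1 - p (J' Y)) = ∏_{e ∈ exits, e.1 = w} (1 - p (J e))` (`prod_image`, `Prod.snd` is injective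
on the pairs with first entry `w`).  By `keep_all` it is enough that
`𝒮.filter (∀ Y ∈ ℰ, ¬ Y ⊆ ·) ⊆ {Z ⊆ V : Z ∉ H, Lg N w Z}` (then `mass` is at most `cw`, the terms being
`≥ 0`).  Let `Z` be in the left side.
* `Z ∉ H`: otherwise the finset of the `x ∈ N ∪ H` with `w ⊆ x ⊆ Z`, `x ≠ w` contains `Z`
  (`Z ≠ w` as `w ∉ H`); take `x` in it of smallest cardinality (`exists_min_image`).  `x ∉ N` as
  `Z ∈ 𝒮`, so `x ∈ H`, and `(w, x)` is an exit: a `Z' ∈ N ∪ H` with `w ⊆ Z' ⊆ x` is `w` or has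
  cardinality `≥ x.card`, so it is `x` (`eq_of_subset_of_card_le`).  So `x ∈ ℰ` and `x ⊆ Z`,
  contradiction.
* `Lg N w Z`: `w ∈ N`, `w ⊆ Z`; for `z ∈ N`, `z ⊆ Z`: `z ∪ w ∈ N` or `∈ H`; the latter gives `Z ∈ H` by
  `hup`; so `z ∪ w ∈ N`, `w ⊆ z ∪ w ⊆ Z`, hence `z ∪ w = w` as `Z ∈ 𝒮`, `z ⊆ w`.
`cw_lower_strict` is the same with `keep_all_strict`.
-/

set_option autoImplicit false

namespace Pool.Agent.H62.UC

open Finset

variable {α : Type*} [DecidableEq α]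

/-- The subsets of `V` in which `w` is a maximal member of `N`. -/
private def SS (V : Finset α) (N : Finset (Finset α)) (w : Finset α) : Finset (Finset α) :=
  V.powerset.filter fun Z => w ⊆ Z ∧ ∀ y ∈ N, w ⊆ y → y ⊆ Z → y = w

/-- The upper ends of the exits at `w`. -/
private def EE (N H : Finset (Finset α)) (w : Finset α) : Finset (Finset α) :=
  ((exits N H).filter (fun e => e.1 = w)).image Prod.snd

private theorem mem_SS {V : Finset α} {N : Finset (Finset α)} {w Z : Finset α} :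
    Z ∈ SS V N w ↔ Z ⊆ V ∧ w ⊆ Z ∧ ∀ y ∈ N, w ⊆ y → y ⊆ Z → y = w := by
  simp [SS]

private theorem mem_EE {N H : Finset (Finset α)} {w Y : Finset α} :
    Y ∈ EE N H w ↔ (w, Y) ∈ exits N H := by
  simp only [EE, mem_image, mem_filter]
  constructor
  · rintro ⟨e, ⟨he, h1⟩, h2⟩
    rw [← h1, ← h2]
    exact he
  · intro h
    exact ⟨(w, Y), ⟨h, rfl⟩, rfl⟩

private theorem prod_EE {N H : Finset (Finset α)} {w : Finset α} (p : α → ℝ)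
    (J : Finset α × Finset α → α) :
    ∏ Y ∈ EE N H w, (1 - p (J (w, Y))) = ∏ e ∈ exits N H with e.1 = w, (1 - p (J e)) := by
  rw [EE, prod_image]
  · refine prod_congr rfl fun e he => ?_
    have h := (mem_filter.mp he).2
    rw [← h]
  · intro a ha b hb hab
    simp only [coe_filter, Set.mem_ofPred_eq] at ha hb
    exact Prod.ext (ha.2.trans hb.2.symm) hab

private theorem core {V : Finset α} {N H : Finset (Finset α)} (_hN : N ⊆ V.powerset)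
    (hup : ∀ Y ∈ H, ∀ Z ⊆ V, Y ⊆ Z → Z ∈ H) (hdis : ∀ w ∈ N, w ∉ H)
    (hU : ∀ x ∈ N, ∀ y ∈ N, x ∪ y ∈ N ∨ x ∪ y ∈ H) {w : Finset α} (hw : w ∈ N) :
    (SS V N w).filter (fun Z => ∀ Y ∈ EE N H w, ¬ Y ⊆ Z) ⊆
      V.powerset.filter (fun Z => Z ∉ H ∧ Lg N w Z) := by
  intro Z hZ
  rw [mem_filter, mem_SS] at hZ
  obtain ⟨⟨hZV, hwZ, hmax⟩, hE⟩ := hZ
  have hZH : Z ∉ H := by
    intro hZH
    have hne : Z ≠ w := fun h => hdis w hw (h ▸ hZH)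
    have hT : ((N ∪ H).filter (fun x => w ⊆ x ∧ x ⊆ Z ∧ x ≠ w)).Nonempty :=
      ⟨Z, by simp [hZH, hwZ, hne]⟩
    obtain ⟨x, hx, hmin⟩ := exists_min_image _ (fun x : Finset α => x.card) hT
    rw [mem_filter, mem_union] at hx
    obtain ⟨hxm, hwx, hxZ, hxw⟩ := hx
    have hxN : x ∉ N := fun h => hxw (hmax x h hwx hxZ)
    have hxH : x ∈ H := hxm.resolve_left hxN
    refine hE x ?_ hxZ
    rw [mem_EE, mem_exits]
    refine ⟨hw, hxH, hwx, fun y hy hwy hyx => ?_⟩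
    by_cases h : y = w
    · exact Or.inl h
    · right
      refine eq_of_subset_of_card_le hyx (hmin y ?_)
      rw [mem_filter, mem_union]
      exact ⟨hy, hwy, hyx.trans hxZ, h⟩
  rw [mem_filter, mem_powerset]
  refine ⟨hZV, hZH, hw, hwZ, fun z hz hzZ => ?_⟩
  have h1 : z ∪ w ∈ N := by
    refine (hU z hz w hw).resolve_right fun h => hZH ?_
    exact hup _ h Z hZV (union_subset hzZ hwZ)
  have h2 := hmax _ h1 subset_union_right (union_subset hzZ hwZ)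
  rw [← h2]
  exact subset_union_left

private theorem mass_le_cw {V : Finset α} {p : α → ℝ} (hp : ∀ j ∈ V, 0 < p j ∧ p j < 1)
    {N H : Finset (Finset α)} (hN : N ⊆ V.powerset)
    (hup : ∀ Y ∈ H, ∀ Z ⊆ V, Y ⊆ Z → Z ∈ H) (hdis : ∀ w ∈ N, w ∉ H)
    (hU : ∀ x ∈ N, ∀ y ∈ N, x ∪ y ∈ N ∨ x ∪ y ∈ H) {w : Finset α} (hw : w ∈ N) :
    mass (pm V p) ((SS V N w).filter (fun Z => ∀ Y ∈ EE N H w, ¬ Y ⊆ Z)) ≤
      cw V (pm V p) N H w := by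
  refine sum_le_sum_of_subset_of_nonneg (core hN hup hdis hU hw) fun Z hZ _ => ?_
  exact (pm_pos hp (mem_powerset.mp (mem_filter.mp hZ).1)).le

private theorem SS_down {V : Finset α} {N : Finset (Finset α)} {w : Finset α} :
    ∀ Z ∈ SS V N w, ∀ Z', w ⊆ Z' → Z' ⊆ Z → Z' ∈ SS V N w := by
  intro Z hZ Z' h1 h2
  rw [mem_SS] at hZ ⊢
  exact ⟨h2.trans hZ.1, h1, fun y hy h3 h4 => hZ.2.2 y hy h3 (h4.trans h2)⟩

private theorem EE_J {V : Finset α} {N H : Finset (Finset α)} {w : Finset α}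
    (hH : H ⊆ V.powerset) {J : Finset α × Finset α → α}
    (hJ : ∀ e ∈ exits N H, J e ∈ e.2 \ e.1) :
    ∀ Y ∈ EE N H w, Y ⊆ V ∧ J (w, Y) ∈ Y \ w := by
  intro Y hY
  rw [mem_EE] at hY
  exact ⟨mem_powerset.mp (hH (mem_exits.mp hY).2.1), hJ _ hY⟩

theorem cw_lower {V : Finset α} {p : α → ℝ} (hp : ∀ j ∈ V, 0 < p j ∧ p j < 1)
    {N H : Finset (Finset α)} (hN : N ⊆ V.powerset) (hH : H ⊆ V.powerset)
    (hup : ∀ Y ∈ H, ∀ Z ⊆ V, Y ⊆ Z → Z ∈ H) (hdis : ∀ w ∈ N, w ∉ H)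
    (hU : ∀ x ∈ N, ∀ y ∈ N, x ∪ y ∈ N ∨ x ∪ y ∈ H)
    {J : Finset α × Finset α → α} (hJ : ∀ e ∈ exits N H, J e ∈ e.2 \ e.1)
    {w : Finset α} (hw : w ∈ N) :
    (∏ e ∈ exits N H with e.1 = w, (1 - p (J e))) * aw V (pm V p) N w ≤
      cw V (pm V p) N H w := by
  have h1 := keep_all hp (𝒮 := SS V N w) (w := w)
    (fun Z hZ => ⟨(mem_SS.mp hZ).2.1, (mem_SS.mp hZ).1⟩) (SS_down) (EE N H w)
    (fun Y => J (w, Y)) (EE_J hH hJ)
  rw [prod_EE] at h1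
  exact h1.trans (mass_le_cw hp hN hup hdis hU hw)

theorem cw_lower_strict {V : Finset α} {p : α → ℝ} (hp : ∀ j ∈ V, 0 < p j ∧ p j < 1)
    {N H : Finset (Finset α)} (hN : N ⊆ V.powerset) (hH : H ⊆ V.powerset)
    (hup : ∀ Y ∈ H, ∀ Z ⊆ V, Y ⊆ Z → Z ∈ H) (hdis : ∀ w ∈ N, w ∉ H)
    (hU : ∀ x ∈ N, ∀ y ∈ N, x ∪ y ∈ N ∨ x ∪ y ∈ H)
    {J : Finset α × Finset α → α} (hJ : ∀ e ∈ exits N H, J e ∈ e.2 \ e.1)
    {w : Finset α} (hw : w ∈ N) (h2 : ∃ e ∈ exits N H, e.1 = w ∧ 2 ≤ (e.2 \ e.1).card) :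
    (∏ e ∈ exits N H with e.1 = w, (1 - p (J e))) * aw V (pm V p) N w <
      cw V (pm V p) N H w := by
  have h3 : ∃ Y ∈ EE N H w, 2 ≤ (Y \ w).card := by
    obtain ⟨e, he, h4, h5⟩ := h2
    refine ⟨e.2, ?_, ?_⟩
    · rw [mem_EE, ← h4]
      exact he
    · rw [← h4]
      exact h5
  have h1 := keep_all_strict hp (𝒮 := SS V N w) (w := w)
    (fun Z hZ => ⟨(mem_SS.mp hZ).2.1, (mem_SS.mp hZ).1⟩) (SS_down) (EE N H w)
    (fun Y => J (w, Y)) (EE_J hH hJ)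
    (mem_SS.mpr ⟨mem_powerset.mp (hN hw), Subset.rfl, fun y _ h4 h5 => Subset.antisymm h5 h4⟩) h3
  rw [prod_EE] at h1
  exact lt_of_lt_of_le h1 (mass_le_cw hp hN hup hdis hU hw)

end Pool.Agent.H62.UC
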