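import Pool.Agent.H62.UC.StarY
import Pool.Agent.H62.UC.OreB

/-!
# LEFTB: the raw left block relation
-/

namespace Pool.H62.UC

open scoped InnerProductSpace TensorProduct ComplexConjugate
open Filter Topology

noncomputable section


variable {H : Type*} [NormedAddCommGroup H] [InnerProductSpace ℂ H] [CompleteSpace H]
variable {K : Type*} [NormedAddCommGroup K] [InnerProductSpace ℂ K] [CompleteSpace K]

/-- `starY` with `x k = (p k).1`, `ore_left` in `N` for `A = b`, `X = b * x k`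
(`b` here is called `a` in the conclusion), single-valuedness of `Gr`, `Coarse.L_ker`. -/
theorem left_block (S : Std H K) (Gr : Submodule ℂ ((H →L[ℂ] H) × K)) (hG : BClosed S Gr)
    (hUA : UA S Gr) (v : ℕ → H →L[ℂ] H) (hv : ∀ n, v n ∈ UM S) (e : H →L[ℂ] H)
    (he : IsStarProjection e) (heM : e ∈ S.M)
    (hw : ∀ ζ ω : H, Tendsto (fun n => ⟪ζ, v n ω⟫_ℂ) atTop (𝓝 ⟪ζ, e ω⟫_ℂ))
    (p : ℕ → (H →L[ℂ] H) × K) (hp : ∀ k, p k ∈ Gr) :
    ∃ a ∈ S.M, ∃ β : K, (∀ ξ, a ξ = 0 → ξ = 0) ∧ ∀ k, ∃ w ∈ S.M, ∃ z ∈ S.M,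
      (∀ ξ, w ξ = 0 → ξ = 0) ∧ w * a * (p k).1 = z * a ∧
      S.l (1 - e) (S.l w (S.r (p k).1 β) + S.l (w * a) (p k).2 - S.l z β) = 0 := by
  obtain ⟨N, hNM, hxN, a, ha, b, hb, β, γ, hka, hkb, hrel⟩ :=
    starY S Gr hG hUA v hv e he heM hw (fun k => (p k).1) (fun k => hG.mem _ (hp k))
  have hST : IsST N S.Ω :=
    { trace := fun x hx y hy => S.tv.trace x (hNM x hx) y (hNM y hy)
      sep := fun x hx h => S.sep (hNM x hx) h }
  refine ⟨b, hNM b hb, γ, hkb, fun k => ?_⟩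
  have hxk := hxN k
  obtain ⟨w, hwN, z, hzN, hwi, hwz⟩ := ore_left N S.Ω hST b (b * (p k).1) hb
    (mul_mem hb hxk) hkb
  refine ⟨w, hNM w hwN, z, hNM z hzN, hwi, by rw [mul_assoc]; exact hwz, ?_⟩
  have r1 := hG.leib _ (hrel w hwN) _ (hp k)
  have r2 := hrel z hzN
  have r3 := Gr.sub_mem r1 r2
  simp only [Prod.mk_sub_mk] at r3
  have e1 : a * w * b * (p k).1 - a * z * b = 0 := by
    have : a * w * b * (p k).1 = a * (w * (b * (p k).1)) := by noncomm_ring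
    rw [this, hwz]; noncomm_ring
  rw [e1] at r3
  have r4 := hG.sv _ r3
  have hMwb : w * b ∈ S.M := hNM _ (mul_mem hwN hb)
  have e2 : S.ρ (z * b) = S.ρ (p k).1 * S.ρ (w * b) := by
    rw [← hwz, ← mul_assoc, Std.ρ_mul S hMwb (hNM _ hxk)]
  have e3 : S.l a (S.l w (S.r (p k).1 γ) + S.l (w * b) (p k).2 - S.l z γ) = 0 := by
    have c1 : ∀ (A : H →L[ℂ] H) (κ : K), S.T.R (S.ρ (p k).1) (S.T.L A κ) =
        S.T.L A (S.T.R (S.ρ (p k).1) κ) := fun A κ => by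
      have := Coarse.LR_comm S.T A (S.ρ (p k).1)
      have h' := congrArg (fun B : K →L[ℂ] K => B κ) this
      simpa using h'.symm
    simp only [Std.l, Std.r, e2, map_mul, map_add, mul_apply_eq_comp] at r4 ⊢
    rw [c1, c1] at r4
    rw [← r4]
    simp only [map_add, map_sub]
    abel
  exact Coarse.L_ker S.T a (1 - e) hka _ e3

end

end Pool.H62.UC
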