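import Pool.Agent.H62.UC.Kf
import Pool.Agent.H62.UC.Le

/-!
Row UCLf.  The exit inequality (assembly of `key`, `cw_feas`, `cw_lower`, `cw_lower_strict`).

Proof.  Let `q = ∑_{Z ∉ H} pm V p Z`.  If `N = ∅`: the left side is `0` and the right side is a sum of
`log (1 / (1 - p (J e)))` over `exits = ∅`; (strict version: there is an exit, so `N ≠ ∅`).
Let `N ≠ ∅`.  For `w ∈ N`: `aw V (pm V p) N w ≥ pm V p w > 0` (the set `w` itself is in the index set),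
so `cw w > 0` by `cw_lower` (the factors `1 - p (J e)` are positive as `J e ∈ V`), and `q ≥ cw w > 0`.
`JoinP N`: for `x, y, z ∈ N`, `y, z ⊆ x`: `y ∪ z ∈ N` or `∈ H`; in the latter case `x ∈ H` by `hup`,
contradiction to `hdis`.  `Decr V (pm V p)` by `pm_decr`.  `key` and `cw_feas`:
`∏_N (cw w / q) ≤ ∏_N aw w`.  Take logarithms (`Real.log_prod`, all factors positive):
`∑_N log (cw w) - |N| log q ≤ ∑_N log (aw w)`.  By `cw_lower`:
`log (cw w) ≥ log (aw w) + ∑_{e ∈ exits, e.1 = w} log (1 - p (J e))`.  Sum over `w ∈ N`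
(`sum_fiberwise_of_maps_to`, `e.1 ∈ N` for `e ∈ exits`):
`|N| log (1/q) ≤ ∑_N (log (aw w) - log (cw w)) ≤ ∑_{e ∈ exits} log (1 / (1 - p (J e)))`.
Strict version: one of the inequalities `cw_lower` is strict.
-/

set_option autoImplicit false

namespace Pool.Agent.H62.UC

open Finset

variable {α : Type*} [DecidableEq α]

private theorem UCLf_aw_pos {V : Finset α} {p : α → ℝ} (hp : ∀ j ∈ V, 0 < p j ∧ p j < 1)
    {N : Finset (Finset α)} (hN : N ⊆ V.powerset) {w : Finset α} (hw : w ∈ N) :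
    0 < aw V (pm V p) N w := by
  have hwV : w ∈ V.powerset := hN hw
  unfold aw
  refine sum_pos' ?_ ⟨w, ?_, pm_pos hp (mem_powerset.1 hwV)⟩
  · intro Z hZ
    exact (pm_pos hp (mem_powerset.1 (mem_filter.1 hZ).1)).le
  · rw [mem_filter]
    exact ⟨hwV, Subset.refl w, fun y _ h1 h2 => Subset.antisymm h2 h1⟩

private theorem UCLf_P_pos {V : Finset α} {p : α → ℝ} (hp : ∀ j ∈ V, 0 < p j ∧ p j < 1)
    {N H : Finset (Finset α)} (hH : H ⊆ V.powerset)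
    {J : Finset α × Finset α → α} (hJ : ∀ e ∈ exits N H, J e ∈ e.2 \ e.1) :
    ∀ e ∈ exits N H, 0 < 1 - p (J e) := by
  intro e he
  have h1 := mem_powerset.1 (hH (mem_exits.1 he).2.1)
  have h2 := hp _ (h1 (mem_sdiff.1 (hJ e he)).1)
  linarith [h2.2]

private theorem UCLf_main {V : Finset α} {p : α → ℝ} (hp : ∀ j ∈ V, 0 < p j ∧ p j ≤ 1 / 2)
    {N H : Finset (Finset α)} (hN : N ⊆ V.powerset) (hH : H ⊆ V.powerset)
    (hup : ∀ Y ∈ H, ∀ Z ⊆ V, Y ⊆ Z → Z ∈ H) (hdis : ∀ w ∈ N, w ∉ H)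
    (hU : ∀ x ∈ N, ∀ y ∈ N, x ∪ y ∈ N ∨ x ∪ y ∈ H)
    {J : Finset α × Finset α → α} (hJ : ∀ e ∈ exits N H, J e ∈ e.2 \ e.1) :
    (N.card : ℝ) * Real.log (1 / ∑ Z ∈ V.powerset with Z ∉ H, pm V p Z) +
      ∑ w ∈ N, (Real.log (cw V (pm V p) N H w) -
        Real.log ((∏ e ∈ exits N H with e.1 = w, (1 - p (J e))) * aw V (pm V p) N w)) ≤
      ∑ e ∈ exits N H, Real.log (1 / (1 - p (J e))) := by
  have hp1 : ∀ j ∈ V, 0 < p j ∧ p j < 1 := fun j hj => ⟨(hp j hj).1, by linarith [(hp j hj).2]⟩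
  have hp2 : ∀ j ∈ V, 0 ≤ p j ∧ p j ≤ 1 := fun j hj =>
    ⟨(hp j hj).1.le, by linarith [(hp j hj).2]⟩
  have hp3 : ∀ j ∈ V, 0 ≤ p j ∧ p j ≤ 1 / 2 := fun j hj => ⟨(hp j hj).1.le, (hp j hj).2⟩
  have hP := UCLf_P_pos (N := N) hp1 hH hJ
  rcases N.eq_empty_or_nonempty with hNe | ⟨w0, hw0⟩
  · have h1 : exits N H = ∅ := by
      rw [hNe]
      unfold exits
      rw [empty_product, filter_empty]
    rw [h1, hNe]
    simp
  obtain ⟨q, hq⟩ : ∃ q, q = ∑ Z ∈ V.powerset with Z ∉ H, pm V p Z := ⟨_, rfl⟩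
  have haw : ∀ w ∈ N, 0 < aw V (pm V p) N w := fun w hw => UCLf_aw_pos hp1 hN hw
  have hPw : ∀ w, 0 < ∏ e ∈ exits N H with e.1 = w, (1 - p (J e)) := fun w =>
    prod_pos fun e he => hP e (mem_filter.1 he).1
  have hlow : ∀ w ∈ N, (∏ e ∈ exits N H with e.1 = w, (1 - p (J e))) * aw V (pm V p) N w ≤
      cw V (pm V p) N H w := fun w hw => cw_lower hp1 hN hH hup hdis hU hJ hw
  have hcw : ∀ w ∈ N, 0 < cw V (pm V p) N H w := fun w hw =>
    lt_of_lt_of_le (mul_pos (hPw w) (haw w hw)) (hlow w hw)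
  have hq0 : 0 < q := by
    refine lt_of_lt_of_le (hcw w0 hw0) ?_
    rw [hq]
    unfold cw
    refine sum_le_sum_of_subset_of_nonneg ?_ ?_
    · intro Z hZ
      rw [mem_filter] at hZ ⊢
      exact ⟨hZ.1, hZ.2.1⟩
    · intro Z hZ _
      exact pm_nonneg hp2 (mem_powerset.1 (mem_filter.1 hZ).1)
  have hJP : JoinP N := by
    intro x hx y hy z hz h1 h2
    rcases hU y hy z hz with h3 | h3
    · exact h3
    · exact absurd (hup _ h3 x (mem_powerset.1 (hN hx)) (union_subset h1 h2)) (hdis x hx)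
  have hkey := key (pm_decr hp3) hN hJP (cw_feas hp2 hN hup hU (by rw [← hq]; exact hq0))
  rw [← hq] at hkey ⊢
  have hpos : 0 < ∏ w ∈ N, cw V (pm V p) N H w / q :=
    prod_pos fun w hw => div_pos (hcw w hw) hq0
  have hlog := Real.log_le_log hpos hkey
  rw [Real.log_prod fun w hw => (div_pos (hcw w hw) hq0).ne',
    Real.log_prod fun w hw => (haw w hw).ne'] at hlog
  have h1 : ∑ w ∈ N, Real.log (cw V (pm V p) N H w / q) =
      ∑ w ∈ N, Real.log (cw V (pm V p) N H w) - (N.card : ℝ) * Real.log q := by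
    rw [sum_congr rfl fun w hw => Real.log_div (hcw w hw).ne' hq0.ne', sum_sub_distrib, sum_const,
      nsmul_eq_mul]
  have h2 : ∑ w ∈ N, Real.log ((∏ e ∈ exits N H with e.1 = w, (1 - p (J e))) *
      aw V (pm V p) N w) = ∑ e ∈ exits N H, Real.log (1 - p (J e)) +
        ∑ w ∈ N, Real.log (aw V (pm V p) N w) := by
    rw [sum_congr rfl fun w hw => Real.log_mul (hPw w).ne' (haw w hw).ne', sum_add_distrib]
    congr 1
    rw [← sum_fiberwise_of_maps_to (s := exits N H) (t := N) (g := Prod.fst)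
      (fun e he => (mem_exits.1 he).1)]
    refine sum_congr rfl fun w _ => ?_
    rw [Real.log_prod fun e he => (hP e (mem_filter.1 he).1).ne']
  have h3 : ∑ e ∈ exits N H, Real.log (1 / (1 - p (J e))) =
      -∑ e ∈ exits N H, Real.log (1 - p (J e)) := by
    rw [← sum_neg_distrib]
    refine sum_congr rfl fun e _ => ?_
    rw [one_div, Real.log_inv]
  rw [sum_sub_distrib, h2, h3, one_div, Real.log_inv]
  linarith

theorem exits_ge {V : Finset α} {p : α → ℝ} (hp : ∀ j ∈ V, 0 < p j ∧ p j ≤ 1 / 2)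
    {N H : Finset (Finset α)} (hN : N ⊆ V.powerset) (hH : H ⊆ V.powerset)
    (hup : ∀ Y ∈ H, ∀ Z ⊆ V, Y ⊆ Z → Z ∈ H) (hdis : ∀ w ∈ N, w ∉ H)
    (hU : ∀ x ∈ N, ∀ y ∈ N, x ∪ y ∈ N ∨ x ∪ y ∈ H)
    {J : Finset α × Finset α → α} (hJ : ∀ e ∈ exits N H, J e ∈ e.2 \ e.1) :
    (N.card : ℝ) * Real.log (1 / ∑ Z ∈ V.powerset with Z ∉ H, pm V p Z) ≤
      ∑ e ∈ exits N H, Real.log (1 / (1 - p (J e))) := by
  have hp1 : ∀ j ∈ V, 0 < p j ∧ p j < 1 := fun j hj => ⟨(hp j hj).1, by linarith [(hp j hj).2]⟩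
  have hmain := UCLf_main hp hN hH hup hdis hU hJ
  have h0 : 0 ≤ ∑ w ∈ N, (Real.log (cw V (pm V p) N H w) -
        Real.log ((∏ e ∈ exits N H with e.1 = w, (1 - p (J e))) * aw V (pm V p) N w)) := by
    refine sum_nonneg fun w hw => sub_nonneg.2 ?_
    exact Real.log_le_log (mul_pos (prod_pos fun e he => UCLf_P_pos hp1 hH hJ e
      (mem_filter.1 he).1) (UCLf_aw_pos hp1 hN hw)) (cw_lower hp1 hN hH hup hdis hU hJ hw)
  linarith

theorem exits_gt {V : Finset α} {p : α → ℝ} (hp : ∀ j ∈ V, 0 < p j ∧ p j ≤ 1 / 2)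
    {N H : Finset (Finset α)} (hN : N ⊆ V.powerset) (hH : H ⊆ V.powerset)
    (hup : ∀ Y ∈ H, ∀ Z ⊆ V, Y ⊆ Z → Z ∈ H) (hdis : ∀ w ∈ N, w ∉ H)
    (hU : ∀ x ∈ N, ∀ y ∈ N, x ∪ y ∈ N ∨ x ∪ y ∈ H)
    {J : Finset α × Finset α → α} (hJ : ∀ e ∈ exits N H, J e ∈ e.2 \ e.1)
    (h2 : ∃ e ∈ exits N H, 2 ≤ (e.2 \ e.1).card) :
    (N.card : ℝ) * Real.log (1 / ∑ Z ∈ V.powerset with Z ∉ H, pm V p Z) <
      ∑ e ∈ exits N H, Real.log (1 / (1 - p (J e))) := by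
  have hp1 : ∀ j ∈ V, 0 < p j ∧ p j < 1 := fun j hj => ⟨(hp j hj).1, by linarith [(hp j hj).2]⟩
  have hmain := UCLf_main hp hN hH hup hdis hU hJ
  have hpos : ∀ w ∈ N, 0 < (∏ e ∈ exits N H with e.1 = w, (1 - p (J e))) *
      aw V (pm V p) N w := fun w hw =>
    mul_pos (prod_pos fun e he => UCLf_P_pos hp1 hH hJ e (mem_filter.1 he).1)
      (UCLf_aw_pos hp1 hN hw)
  have h0 : 0 < ∑ w ∈ N, (Real.log (cw V (pm V p) N H w) -
        Real.log ((∏ e ∈ exits N H with e.1 = w, (1 - p (J e))) * aw V (pm V p) N w)) := by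
    obtain ⟨e, he, he2⟩ := h2
    have heN : e.1 ∈ N := (mem_exits.1 he).1
    refine sum_pos' (fun w hw => sub_nonneg.2 ?_) ⟨e.1, heN, sub_pos.2 ?_⟩
    · exact Real.log_le_log (hpos w hw) (cw_lower hp1 hN hH hup hdis hU hJ hw)
    · exact Real.log_lt_log (hpos _ heN)
        (cw_lower_strict hp1 hN hH hup hdis hU hJ heN ⟨e, he, rfl, he2⟩)
  linarith

end Pool.Agent.H62.UC
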