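import Pool.Agent.H62.UC.Ma

/-!
Row UCMb.  The injection of the exits into the bad pairs.

Proof.  Let `E = S.sigma (fun i => (exits (Ns A i) (Hs G A i)).filter (fun e => e.2 \ e.1 ⊆ S))`, a finset of
pairs `⟨i, e⟩`.  Define `φ ⟨i, e⟩ = if e.2 ∈ A then (J i e, insert i e.2) else (i, insert i e.2)`, in
`α × Finset α`.
* `φ` maps `E` into the pairs `(j, T)` with `j ∈ S`, `T ∈ Bd A j`: `T = insert i e.2 ∈ A` (`exit_T`).  If
  `e.2 ∉ A`: `j = i`, `T.erase i = e.2 ∉ A` (`i ∉ e.2` by `mem_Hs`).  If `e.2 ∈ A`: `j = J i e ∈ e.2 \ e.1 ⊆ S`,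
  `j ∈ T`, `T.erase j ∉ A` (`exit_bad`).
* `φ` is injective on `E`.  Let `φ ⟨i, (w, Y)⟩ = φ ⟨i', (w', Y')⟩`; both have the same `T`, `T = insert i Y =
  insert i' Y'`, `Y = T.erase i`, `Y' = T.erase i'`.  (F) is `exit_F`.
  - `Y ∉ A`, `Y' ∉ A`: `i = i'`, so `Y = Y'`.  `w ∪ w' ∈ A`, `w ∪ w' ⊆ Y`, so (F) for `(w, Y)` gives
    `w ∪ w' = w` (not `Y`, as `Y ∉ A`; not `T`, as `i ∉`), and in the same way `w ∪ w' = w'`.
  - `Y ∈ A`, `Y' ∈ A`: `j = J i (w, Y) = J i' (w', Y')`, `j ∈ Y \ w`, `j ∈ Y' \ w'`.  `w ∪ w' ∈ A`, `⊆ T`, and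
    `j ∉ w ∪ w'`, so it is not `T`, `Y`, `Y'`; (F) twice: `w ∪ w' = w`, `w ∪ w' = w'`.  So `w = w'`.  If
    `i ≠ i'`: `Y' ∈ A`, `w ⊆ Y' ⊆ T`, so by (F) for `(w, Y)` `Y' = w` (no: `j`), `Y' = T` (no: `i'`), or
    `Y' = Y` (no: `i ∈ Y'`, `i ∉ Y`).  So `i = i'`, `Y = Y'`.
  - `Y ∉ A`, `Y' ∈ A` (and symmetric): `i = J i' (w', Y') ∈ Y' \ w'`, so `i ≠ i'`, `i ∉ w'`.
    `w ∪ w' ∈ A`, `⊆ T`, `i ∉ w ∪ w'`; (F) for `(w, Y)`: `w ∪ w' = w` (not `Y ∉ A`, not `T`).  So `w' ⊆ w`.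
    (F) for `(w', Y')` and `Z = w`: `w = w'`, or `w = Y'` (no: `i ∈ Y'`, `i ∉ w`), or `w = T` (no).
    So `w = w'`, and `Y' ∈ A`, `w ⊆ Y' ⊆ T`: (F) for `(w, Y)`: `Y' = w` (no: `i ∈ Y'`), `Y' = Y` (no: `i`),
    `Y' = T` (no: `i'`).  Contradiction.
* Weights: `lam i * min 1 (lam (J i e) / lam i) = min (lam i) (lam (J i e)) ≤ lam (φ ⟨i, e⟩).1`
  (all `lam > 0` on `S`, `J i e ∈ S`).
So the left side is `≤ ∑_{x ∈ E} lam (φ x).1 = ∑_{z ∈ E.image φ} lam z.1 ≤ ∑_{j ∈ S} ∑_{T ∈ Bd A j} lam j`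
(`sum_image`, `sum_le_sum_of_subset_of_nonneg`, the right side is a sum over a finset of pairs
`(S ×ˢ A).filter (fun z => z.2 ∈ Bd A z.1)`, `sum_finset_product'` or `sum_sigma'`).
-/

set_option autoImplicit false

namespace Pool.Agent.H62.UC

open Finset

variable {α : Type*} [DecidableEq α]

theorem phi_inj {G : Finset α} {A : Finset (Finset α)}
    (hA : ∀ S ∈ A, ∀ T ∈ A, S ∪ T ∈ A) (hG : ∀ T ∈ A, T ⊆ G) {i i' : α}
    {w Y w' Y' : Finset α} (he : (w, Y) ∈ exits (Ns A i) (Hs G A i))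
    (he' : (w', Y') ∈ exits (Ns A i') (Hs G A i')) (hT : insert i Y = insert i' Y')
    {j j' : α} (hj : j ∈ Y \ w) (hj' : j' ∈ Y' \ w')
    (hφ : (if Y ∈ A then j else i) = (if Y' ∈ A then j' else i')) :
    i = i' ∧ w = w' ∧ Y = Y' := by
  have FF : ∀ Z ∈ A, w ⊆ Z → Z ⊆ insert i Y → Z = w ∨ Z = Y ∨ Z = insert i Y :=
    fun Z hZ h1 h2 => exit_F hA hG he hZ h1 h2
  have FF' : ∀ Z ∈ A, w' ⊆ Z → Z ⊆ insert i Y → Z = w' ∨ Z = Y' ∨ Z = insert i Y := by
    intro Z hZ h1 h2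
    rw [hT] at h2 ⊢
    exact exit_F hA hG he' hZ h1 h2
  have m := mem_exits.mp he
  have m' := mem_exits.mp he'
  have hwA : w ∈ A := (mem_Ns.mp m.1).1
  have hwA' : w' ∈ A := (mem_Ns.mp m'.1).1
  have hiw : i ∉ w := (mem_Ns.mp m.1).2.1
  have hiw' : i' ∉ w' := (mem_Ns.mp m'.1).2.1
  have hiY : i ∉ Y := (mem_Hs.mp m.2.1).1.2
  have hiY' : i' ∉ Y' := (mem_Hs.mp m'.2.1).1.2
  have hwY : w ⊆ Y := m.2.2.1
  have hwY' : w' ⊆ Y' := m'.2.2.1
  have hwT : w ⊆ insert i Y := hwY.trans (subset_insert i Y)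
  have hYT' : Y' ⊆ insert i Y := by rw [hT]; exact subset_insert i' Y'
  have hwT' : w' ⊆ insert i Y := hwY'.trans hYT'
  have hU : w ∪ w' ∈ A := hA w hwA w' hwA'
  have hUT : w ∪ w' ⊆ insert i Y := union_subset hwT hwT'
  have hiT : i ∈ insert i Y := mem_insert_self i Y
  have hiT' : i' ∈ insert i Y := by rw [hT]; exact mem_insert_self i' Y'
  have c1 := FF _ hU subset_union_left hUT
  have c2 := FF' _ hU subset_union_right hUT
  by_cases hY : Y ∈ A
  · by_cases hY' : Y' ∈ A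
    · rw [if_pos hY, if_pos hY'] at hφ
      subst hφ
      obtain ⟨hjY, hjw⟩ := mem_sdiff.mp hj
      obtain ⟨hjY', hjw'⟩ := mem_sdiff.mp hj'
      have hjU : j ∉ w ∪ w' := by
        rw [mem_union]; rintro (h | h)
        · exact hjw h
        · exact hjw' h
      have d1 : w ∪ w' = w := by
        rcases c1 with h | h | h
        · exact h
        · exact absurd (h ▸ hjY) hjU
        · exact absurd (h ▸ mem_insert_of_mem hjY) hjU
      have d2 : w ∪ w' = w' := by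
        rcases c2 with h | h | h
        · exact h
        · exact absurd (h ▸ hjY') hjU
        · exact absurd (h ▸ mem_insert_of_mem hjY) hjU
      have hww : w = w' := d1.symm.trans d2
      by_cases hii : i = i'
      · subst hii
        refine ⟨rfl, hww, ?_⟩
        rw [← erase_insert hiY, hT, erase_insert hiY']
      · exfalso
        have hwsub : w ⊆ Y' := by rw [hww]; exact hwY'
        rcases FF Y' hY' hwsub hYT' with h | h | h
        · exact hjw (h ▸ hjY')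
        · have h3 : i ∈ Y' := by
            have h4 : i ∈ insert i' Y' := hT ▸ hiT
            rcases mem_insert.mp h4 with h5 | h5
            · exact absurd h5 hii
            · exact h5
          exact hiY (h ▸ h3)
        · exact hiY' (h ▸ hiT')
    · exfalso
      rw [if_pos hY, if_neg hY'] at hφ
      subst hφ
      -- `j = i'`
      obtain ⟨hjY, hjw⟩ := mem_sdiff.mp hj
      have hjU : j ∉ w ∪ w' := by
        rw [mem_union]; rintro (h | h)
        · exact hjw h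
        · exact hiw' h
      have d2 : w ∪ w' = w' := by
        rcases c2 with h | h | h
        · exact h
        · exact absurd (h ▸ hU) hY'
        · exact absurd (h ▸ hiT') hjU
      have hsub : w ⊆ w' := by rw [← d2]; exact subset_union_left
      have hww : w' = w := by
        rcases FF w' hwA' hsub hwT' with h | h | h
        · exact h
        · exact absurd (h ▸ hjY) hiw'
        · exact absurd (h ▸ hiT') hiw'
      have hwsub : w' ⊆ Y := by rw [hww]; exact hwY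
      rcases FF' Y hY hwsub (subset_insert i Y) with h | h | h
      · exact hiw' (h ▸ hjY)
      · exact hiY' (h ▸ hjY)
      · exact hiY (h ▸ hiT)
  · by_cases hY' : Y' ∈ A
    · exfalso
      rw [if_neg hY, if_pos hY'] at hφ
      subst hφ
      -- `j' = i`
      obtain ⟨hjY', hjw'⟩ := mem_sdiff.mp hj'
      have hjU : i ∉ w ∪ w' := by
        rw [mem_union]; rintro (h | h)
        · exact hiw h
        · exact hjw' h
      have d1 : w ∪ w' = w := by
        rcases c1 with h | h | h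
        · exact h
        · exact absurd (h ▸ hU) hY
        · exact absurd (h ▸ hiT) hjU
      have hsub : w' ⊆ w := by rw [← d1]; exact subset_union_right
      have hww : w = w' := by
        rcases FF' w hwA hsub hwT with h | h | h
        · exact h
        · exact absurd (h ▸ hjY') hiw
        · exact absurd (h ▸ hiT) hiw
      have hwsub : w ⊆ Y' := by rw [hww]; exact hwY'
      rcases FF Y' hY' hwsub hYT' with h | h | h
      · exact hiw (h ▸ hjY')
      · exact hiY (h ▸ hjY')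
      · exact hiY' (h ▸ hiT')
    · rw [if_neg hY, if_neg hY'] at hφ
      subst hφ
      have hYY : Y = Y' := by rw [← erase_insert hiY, hT, erase_insert hiY']
      have hiU : i ∉ w ∪ w' := by
        rw [mem_union]; rintro (h | h)
        · exact hiw h
        · exact hiw' h
      have d1 : w ∪ w' = w := by
        rcases c1 with h | h | h
        · exact h
        · exact absurd (h ▸ hU) hY
        · exact absurd (h ▸ hiT) hiU
      have d2 : w ∪ w' = w' := by
        rcases c2 with h | h | h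
        · exact h
        · exact absurd (h ▸ hU) hY'
        · exact absurd (h ▸ hiT) hiU
      exact ⟨rfl, d1.symm.trans d2, hYY⟩

theorem inj_bound {G : Finset α} {A : Finset (Finset α)}
    (hA : ∀ S ∈ A, ∀ T ∈ A, S ∪ T ∈ A) (hG : ∀ T ∈ A, T ⊆ G) {S : Finset α}
    {lam : α → ℝ} (hlam : ∀ i ∈ S, 0 < lam i) {J : α → Finset α × Finset α → α}
    (hJ : ∀ i ∈ S, ∀ e ∈ exits (Ns A i) (Hs G A i), J i e ∈ e.2 \ e.1) :
    ∑ i ∈ S, ∑ e ∈ exits (Ns A i) (Hs G A i) with e.2 \ e.1 ⊆ S,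
        lam i * min 1 (lam (J i e) / lam i) ≤
      ∑ j ∈ S, lam j * ((Bd A j).card : ℝ) := by
  set φ : (Σ _ : α, Finset α × Finset α) → α × Finset α := fun x =>
    (if x.2.2 ∈ A then J x.1 x.2 else x.1, insert x.1 x.2.2) with hφ
  set E : Finset (Σ _ : α, Finset α × Finset α) :=
    S.sigma (fun i => (exits (Ns A i) (Hs G A i)).filter (fun e => e.2 \ e.1 ⊆ S)) with hE
  have memE : ∀ x ∈ E, x.1 ∈ S ∧ x.2 ∈ exits (Ns A x.1) (Hs G A x.1) ∧ x.2.2 \ x.2.1 ⊆ S := by
    intro x hx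
    rw [hE, mem_sigma, mem_filter] at hx
    exact ⟨hx.1, hx.2.1, hx.2.2⟩
  have hJS : ∀ x ∈ E, J x.1 x.2 ∈ S := fun x hx =>
    (memE x hx).2.2 (hJ x.1 (memE x hx).1 x.2 (memE x hx).2.1)
  rw [sum_sigma']
  have step1 : ∑ x ∈ E, lam x.1 * min 1 (lam (J x.1 x.2) / lam x.1) ≤
      ∑ x ∈ E, lam (φ x).1 := by
    refine sum_le_sum fun x hx => ?_
    have h1 := hlam x.1 (memE x hx).1
    have h3 : lam x.1 * min 1 (lam (J x.1 x.2) / lam x.1) =
        min (lam x.1) (lam (J x.1 x.2)) := by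
      rw [mul_min_of_nonneg _ _ h1.le, mul_one, mul_div_cancel₀ _ h1.ne']
    rw [h3]
    by_cases hc : x.2.2 ∈ A
    · have : (φ x).1 = J x.1 x.2 := by simp [hφ, hc]
      rw [this]; exact min_le_right _ _
    · have : (φ x).1 = x.1 := by simp [hφ, hc]
      rw [this]; exact min_le_left _ _
  have hinj : Set.InjOn φ (E : Set (Σ _ : α, Finset α × Finset α)) := by
    rintro ⟨i, w, Y⟩ hx ⟨i', w', Y'⟩ hx' h
    have m := memE _ (mem_coe.mp hx)
    have m' := memE _ (mem_coe.mp hx')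
    have hp := Prod.mk.inj h
    obtain ⟨h1, h2, h3⟩ := phi_inj hA hG m.2.1 m'.2.1 hp.2 (hJ i m.1 _ m.2.1)
      (hJ i' m'.1 _ m'.2.1) hp.1
    subst h1 h2 h3
    rfl
  have himg : E.image φ ⊆ (S ×ˢ A).filter (fun z => z.2 ∈ Bd A z.1) := by
    intro z hz
    obtain ⟨x, hx, rfl⟩ := mem_image.mp hz
    have m := memE x hx
    have hT := exit_T hA hG m.2.1
    have hj := hJ x.1 m.1 x.2 m.2.1
    have hiY : x.1 ∉ x.2.2 := (mem_Hs.mp (mem_exits.mp m.2.1).2.1).1.2
    rw [mem_filter, mem_product, mem_Bd]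
    by_cases hc : x.2.2 ∈ A
    · have e1 : φ x = (J x.1 x.2, insert x.1 x.2.2) := by simp [hφ, hc]
      rw [e1]
      exact ⟨⟨hJS x hx, hT⟩, hT, mem_insert_of_mem (mem_sdiff.mp hj).1,
        exit_bad hA hG m.2.1 hj⟩
    · have e1 : φ x = (x.1, insert x.1 x.2.2) := by simp [hφ, hc]
      rw [e1]
      refine ⟨⟨m.1, hT⟩, hT, mem_insert_self _ _, ?_⟩
      show (insert x.1 x.2.2).erase x.1 ∉ A
      rw [erase_insert hiY]; exact hc
  refine step1.trans ?_
  rw [← sum_image (f := fun z : α × Finset α => lam z.1) hinj]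
  refine (sum_le_sum_of_subset_of_nonneg himg ?_).trans (le_of_eq ?_)
  · intro z hz _
    exact (hlam z.1 (mem_product.mp (mem_filter.mp hz).1).1).le
  · rw [sum_filter, sum_product]
    refine sum_congr rfl fun j _ => ?_
    rw [← sum_filter]
    have h1 : A.filter (fun T => T ∈ Bd A j) = Bd A j := by
      ext T
      rw [mem_filter]
      exact ⟨fun h => h.2, fun h => ⟨(mem_Bd.mp h).1, h⟩⟩
    show ∑ _a ∈ A.filter (fun T => T ∈ Bd A j), lam j = lam j * ((Bd A j).card : ℝ)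
    rw [h1, sum_const, nsmul_eq_mul, mul_comm]

end Pool.Agent.H62.UC
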