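import Pool.Agent.H62.UC.MeanB

/-!
# MEANC: properties of the special means
-/

namespace Pool.H62.UC

open scoped InnerProductSpace TensorProduct ComplexConjugate
open Filter Topology

noncomputable section


variable {I J : Type*}

/-- splitting a word of length `j + 1 + k` at position `j` -/
theorem Mean.words_split (m : Mean I) (j k : ℕ) (f : List I → ℂ) :
    (m.words (j + 1 + k)).m f =
      (m.words j).m (fun L => m.m (fun i => (m.words k).m (fun R => f (L ++ i :: R)))) := by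
  induction j generalizing f with
  | zero =>
    have h : 0 + 1 + k = k + 1 := by omega
    rw [h]
    rfl
  | succ j ih =>
    have h : j + 1 + 1 + k = (j + 1 + k) + 1 := by omega
    rw [h, Mean.words_succ, Mean.words_succ]
    congr 1
    funext i
    rw [ih]
    rfl

/-- every word in the support of `m.words k` has length `k` -/
theorem Mean.words_congr (m : Mean I) (k : ℕ) (f g : List I → ℂ)
    (h : ∀ w, w.length = k → f w = g w) : (m.words k).m f = (m.words k).m g := by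
  induction k generalizing f g with
  | zero => exact h [] rfl
  | succ k ih =>
    rw [Mean.words_succ, Mean.words_succ]
    congr 1
    funext i
    exact ih _ _ fun w hw => h (i :: w) (by rw [List.length_cons, hw])

/-- restriction to one value of the weight index -/
theorem mI_letter (F : Ultrafilter ℕ) (l₀ : ℕ) (f : (ℕ × ℕ) × ℕ → ℂ) (hf : Bdd f) :
    (mI F).m (fun i => if i.2 = l₀ then f i else 0) =
      (1 / 2 : ℂ) ^ (l₀ + 1) * (mNN F).m (fun p => f (p, l₀)) := by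
  have h1 : (mI F).m (fun i => if i.2 = l₀ then f i else 0) =
      (mNN F).m (fun p => ∑' l, (1 / 2 : ℂ) ^ (l + 1) * (if l = l₀ then f (p, l) else 0)) := rfl
  rw [h1]
  have h2 : ∀ p : ℕ × ℕ, (∑' l, (1 / 2 : ℂ) ^ (l + 1) * (if l = l₀ then f (p, l) else 0)) =
      (1 / 2 : ℂ) ^ (l₀ + 1) * f (p, l₀) := by
    intro p
    rw [tsum_eq_single l₀]
    · rw [if_pos rfl]
    · intro l hl
      rw [if_neg hl, mul_zero]
  simp only [h2]
  exact (mNN F).smul _ _ (hf.imp fun C hC p => hC (p, l₀))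

theorem meanC_ultra_eq (F : Ultrafilter ℕ) (f : ℕ → ℂ) {a : ℂ}
    (h : Tendsto f (F : Filter ℕ) (𝓝 a)) : (Mean.ultra F).m f = a :=
  h.limUnder_eq

/-- differences `f n - f n'` are asymptotically zero -/
theorem mNN_diff (F : Ultrafilter ℕ) (f : ℕ → ℂ) (hf : Bdd f) :
    (mNN F).m (fun p => ((‖f p.1 - f p.2‖ : ℝ) : ℂ)) = 0 := by
  have h1 : (mNN F).m (fun p => ((‖f p.1 - f p.2‖ : ℝ) : ℂ)) =
      (Mean.ultra F).m (fun n => (Mean.ultra F).m (fun n' => ((‖f n - f n'‖ : ℝ) : ℂ))) := rfl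
  rw [h1]
  have hl := Mean.ultra_tendsto F f hf
  set a := (Mean.ultra F).m f with ha
  have h2 : ∀ n, (Mean.ultra F).m (fun n' => ((‖f n - f n'‖ : ℝ) : ℂ)) =
      ((‖f n - a‖ : ℝ) : ℂ) := by
    intro n
    apply meanC_ultra_eq
    exact (Complex.continuous_ofReal.tendsto _).comp ((tendsto_const_nhds.sub hl).norm)
  simp only [h2]
  apply meanC_ultra_eq
  have h3 : Tendsto (fun n => ‖f n - a‖) (F : Filter ℕ) (𝓝 0) := by
    have := (hl.sub_const a).norm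
    rwa [sub_self, norm_zero] at this
  have h4 := (Complex.continuous_ofReal.tendsto 0).comp h3
  rw [Complex.ofReal_zero] at h4
  exact h4

/-- the mean of `⟪v n' ζ, v n ω⟫` for a weakly convergent sequence -/
theorem mNN_weak {V : Type*} [NormedAddCommGroup V] [InnerProductSpace ℂ V] [CompleteSpace V]
    (F : Ultrafilter ℕ) (hF : (F : Filter ℕ) ≤ atTop) (v : ℕ → V →L[ℂ] V) (e : V →L[ℂ] V)
    (C : ℝ) (hv : ∀ n, ‖v n‖ ≤ C)
    (hw : ∀ ζ ω : V, Tendsto (fun n => ⟪ζ, v n ω⟫_ℂ) atTop (𝓝 ⟪ζ, e ω⟫_ℂ)) (ζ ω : V) :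
    (mNN F).m (fun p => ⟪v p.2 ζ, v p.1 ω⟫_ℂ) = ⟪e ζ, e ω⟫_ℂ := by
  have h1 : (mNN F).m (fun p => ⟪v p.2 ζ, v p.1 ω⟫_ℂ) =
      (Mean.ultra F).m (fun n => (Mean.ultra F).m (fun n' => ⟪v n' ζ, v n ω⟫_ℂ)) := rfl
  rw [h1]
  have h2 : ∀ n, (Mean.ultra F).m (fun n' => ⟪v n' ζ, v n ω⟫_ℂ) = ⟪e ζ, v n ω⟫_ℂ := by
    intro n
    apply meanC_ultra_eq
    have h3 := ((Complex.continuous_conj.tendsto _).comp (hw (v n ω) ζ)).mono_left hF
    rw [inner_conj_symm] at h3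
    refine h3.congr fun n' => ?_
    exact inner_conj_symm _ _
  simp only [h2]
  apply meanC_ultra_eq
  exact (hw (e ζ) ω).mono_left hF

section Fact

variable {V : Type*} [NormedAddCommGroup V] [InnerProductSpace ℂ V] [CompleteSpace V]

theorem meanC_R_vec (F : Ultrafilter ℕ) (ξ : List ((ℕ × ℕ) × ℕ) → V)
    (hξ : ∃ C : ℝ, ∀ R, ‖ξ R‖ ≤ C) (w : V) :
    Tendsto (fun J' => ⟪w, (mR F J').vec ξ⟫_ℂ) (F : Filter ℕ) (𝓝 ⟪w, (mRω F).vec ξ⟫_ℂ) := by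
  obtain ⟨C, hC⟩ := hξ
  rw [Mean.inner_vec (mRω F) ξ ⟨C, hC⟩ w]
  have h1 : (mRω F).m (fun R => ⟪w, ξ R⟫_ℂ) =
      (Mean.ultra F).m (fun J' => (mR F J').m (fun R => ⟪w, ξ R⟫_ℂ)) := rfl
  rw [h1]
  have h2 : ∀ J', ⟪w, (mR F J').vec ξ⟫_ℂ = (mR F J').m (fun R => ⟪w, ξ R⟫_ℂ) :=
    fun J' => Mean.inner_vec (mR F J') ξ ⟨C, hC⟩ w
  simp only [h2]
  apply Mean.ultra_tendsto
  exact ⟨‖w‖ * C, fun J' => Mean.norm_le _ _ _ fun R => (norm_inner_le_norm _ _).trans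
    (mul_le_mul_of_nonneg_left (hC R) (norm_nonneg _))⟩

theorem meanC_L_vec (F : Ultrafilter ℕ) (ξ : List ((ℕ × ℕ) × ℕ) × (ℕ × ℕ) → V)
    (hξ : ∃ C : ℝ, ∀ R, ‖ξ R‖ ≤ C) (w : V) :
    Tendsto (fun J' => ⟪w, (mL F J').vec ξ⟫_ℂ) (F : Filter ℕ) (𝓝 ⟪w, (mLω F).vec ξ⟫_ℂ) := by
  obtain ⟨C, hC⟩ := hξ
  rw [Mean.inner_vec (mLω F) ξ ⟨C, hC⟩ w]
  have h1 : (mLω F).m (fun R => ⟪w, ξ R⟫_ℂ) =
      (Mean.ultra F).m (fun J' => (mL F J').m (fun R => ⟪w, ξ R⟫_ℂ)) := rfl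
  rw [h1]
  have h2 : ∀ J', ⟪w, (mL F J').vec ξ⟫_ℂ = (mL F J').m (fun R => ⟪w, ξ R⟫_ℂ) :=
    fun J' => Mean.inner_vec (mL F J') ξ ⟨C, hC⟩ w
  simp only [h2]
  apply Mean.ultra_tendsto
  exact ⟨‖w‖ * C, fun J' => Mean.norm_le _ _ _ fun R => (norm_inner_le_norm _ _).trans
    (mul_le_mul_of_nonneg_left (hC R) (norm_nonneg _))⟩

theorem meanC_R_op (F : Ultrafilter ℕ) (T : List ((ℕ × ℕ) × ℕ) → V →L[ℂ] V)
    (hT : ∃ C : ℝ, ∀ R, ‖T R‖ ≤ C) (w v : V) :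
    Tendsto (fun J' => ⟪w, (mR F J').op T v⟫_ℂ) (F : Filter ℕ) (𝓝 ⟪w, (mRω F).op T v⟫_ℂ) := by
  have h := meanC_R_vec F (fun R => T R v) (hT.imp' (fun C => C * ‖v‖) fun C hC R =>
    ((T R).le_opNorm v).trans (mul_le_mul_of_nonneg_right (hC R) (norm_nonneg _))) w
  rw [← Mean.op_apply (mRω F) T hT v] at h
  refine h.congr fun J' => ?_
  rw [← Mean.op_apply (mR F J') T hT v]

theorem meanC_L_op (F : Ultrafilter ℕ) (T : List ((ℕ × ℕ) × ℕ) × (ℕ × ℕ) → V →L[ℂ] V)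
    (hT : ∃ C : ℝ, ∀ R, ‖T R‖ ≤ C) (w v : V) :
    Tendsto (fun J' => ⟪w, (mL F J').op T v⟫_ℂ) (F : Filter ℕ) (𝓝 ⟪w, (mLω F).op T v⟫_ℂ) := by
  have h := meanC_L_vec F (fun R => T R v) (hT.imp' (fun C => C * ‖v‖) fun C hC R =>
    ((T R).le_opNorm v).trans (mul_le_mul_of_nonneg_right (hC R) (norm_nonneg _))) w
  rw [← Mean.op_apply (mLω F) T hT v] at h
  refine h.congr fun J' => ?_
  rw [← Mean.op_apply (mL F J') T hT v]

end Fact

/-- factorisation of the double limit, operator, vector form: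
`T c` acts after the vectors `ξ R` -/
theorem mLR_op_vec {V : Type*} [NormedAddCommGroup V] [InnerProductSpace ℂ V] [CompleteSpace V]
    (F : Ultrafilter ℕ) (T : List ((ℕ × ℕ) × ℕ) × (ℕ × ℕ) → V →L[ℂ] V)
    (ξ : List ((ℕ × ℕ) × ℕ) → V) (hT : ∃ C : ℝ, ∀ c, ‖T c‖ ≤ C) (hξ : ∃ C : ℝ, ∀ R, ‖ξ R‖ ≤ C)
    (κ : V) :
    (mLR F).m (fun x => ⟪κ, T x.1 (ξ x.2)⟫_ℂ) = ⟪κ, (mLω F).op T ((mRω F).vec ξ)⟫_ℂ := by
  have h1 : (mLR F).m (fun x => ⟪κ, T x.1 (ξ x.2)⟫_ℂ) =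
      (Mean.ultra F).m (fun J => (Mean.ultra F).m (fun J' =>
        (mL F J).m (fun c => (mR F J').m (fun R => ⟪κ, T c (ξ R)⟫_ℂ)))) := rfl
  rw [h1]
  have h2 : ∀ J J', (mL F J).m (fun c => (mR F J').m (fun R => ⟪κ, T c (ξ R)⟫_ℂ)) =
      ⟪ContinuousLinearMap.adjoint ((mL F J).op T) κ, (mR F J').vec ξ⟫_ℂ := by
    intro J J'
    rw [ContinuousLinearMap.adjoint_inner_left, Mean.inner_op (mL F J) T hT]
    congr 1
    funext c
    rw [← ContinuousLinearMap.adjoint_inner_left, Mean.inner_vec (mR F J') ξ hξ]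
    congr 1
    funext R
    rw [ContinuousLinearMap.adjoint_inner_left]
  simp only [h2]
  have h3 : ∀ J, (Mean.ultra F).m (fun J' =>
      ⟪ContinuousLinearMap.adjoint ((mL F J).op T) κ, (mR F J').vec ξ⟫_ℂ) =
      ⟪κ, (mL F J).op T ((mRω F).vec ξ)⟫_ℂ := by
    intro J
    rw [meanC_ultra_eq F _ (meanC_R_vec F ξ hξ _), ContinuousLinearMap.adjoint_inner_left]
  simp only [h3]
  exact meanC_ultra_eq F _ (meanC_L_op F T hT κ _)

/-- factorisation of the double limit, vector, operator form -/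
theorem mLR_vec_op {V : Type*} [NormedAddCommGroup V] [InnerProductSpace ℂ V] [CompleteSpace V]
    (F : Ultrafilter ℕ) (ξ : List ((ℕ × ℕ) × ℕ) × (ℕ × ℕ) → V)
    (T : List ((ℕ × ℕ) × ℕ) → V →L[ℂ] V) (hT : ∃ C : ℝ, ∀ R, ‖T R‖ ≤ C)
    (hξ : ∃ C : ℝ, ∀ c, ‖ξ c‖ ≤ C) (κ : V) :
    (mLR F).m (fun x => ⟪κ, T x.2 (ξ x.1)⟫_ℂ) = ⟪κ, (mRω F).op T ((mLω F).vec ξ)⟫_ℂ := by
  have h1 : (mLR F).m (fun x => ⟪κ, T x.2 (ξ x.1)⟫_ℂ) =
      (Mean.ultra F).m (fun J => (Mean.ultra F).m (fun J' =>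
        (mL F J).m (fun c => (mR F J').m (fun R => ⟪κ, T R (ξ c)⟫_ℂ)))) := rfl
  rw [h1]
  have h2 : ∀ J J', (mL F J).m (fun c => (mR F J').m (fun R => ⟪κ, T R (ξ c)⟫_ℂ)) =
      ⟪κ, (mR F J').op T ((mL F J).vec ξ)⟫_ℂ := by
    intro J J'
    rw [← ContinuousLinearMap.adjoint_inner_left, Mean.inner_vec (mL F J) ξ hξ]
    congr 1
    funext c
    rw [ContinuousLinearMap.adjoint_inner_left, Mean.inner_op (mR F J') T hT]
  simp only [h2]
  have h3 : ∀ J, (Mean.ultra F).m (fun J' => ⟪κ, (mR F J').op T ((mL F J).vec ξ)⟫_ℂ) =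
      ⟪ContinuousLinearMap.adjoint ((mRω F).op T) κ, (mL F J).vec ξ⟫_ℂ := by
    intro J
    rw [meanC_ultra_eq F _ (meanC_R_op F T hT κ _), ContinuousLinearMap.adjoint_inner_left]
  simp only [h3]
  rw [meanC_ultra_eq F _ (meanC_L_vec F ξ hξ _), ContinuousLinearMap.adjoint_inner_left]

end

end Pool.H62.UC
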