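import Pool.Agent.H62.UC.Me

/-!
Row UCMf.  What equality means (`S = U` is the union of all members).

Notation: `U = A.sup id`, `N = Ns A i`, `H = Hs U A i`, `f i = 2 freq_i - |A|`.

Proof.  All `f i ≤ 0` by `hfreq`.  Choose `J` as in `main_ineq` and let
`Σ_i = ∑_{e ∈ exits N H} min 1 (lam (J i e) / lam i)`.  For `i ∈ U`, `V = U.erase i`:
`q_i := ∑_{Z ⊆ V, Z ∉ H} pm V (pr lam i) Z = nu A U lam i` (unfold `Hs`, `nu`; filters agree).
(a) `exits_ge` (with `V = U.erase i`, `Ns_sub`, `Hs_sub`, `Hs_up`, `Ns_not_Hs`, `Ns_union`, `pr_bounds`)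
    gives `|N| log (1 / nu) ≤ log 2 * Σ_i` (`log_pr`).  If `nu ≤ 1/2` and `|N| ≥ 1` then `nu > 0` (a
    `w ∈ N` is not in `H`, `pm > 0`), `log (1 / nu) ≥ log 2`, so `|N| ≤ Σ_i`.  If `|N| = 0`: `0 ≤ Σ_i`.
(b) all `e.2 \ e.1 ⊆ U` (`Hs_sub`), so `inj_bound` with `S = G = U`:
    `∑_{i ∈ U} lam i Σ_i ≤ ∑_{j ∈ U} lam j |Bd A j|`.
(c) `0 ≥ ∑_{i ∈ U} lam i f i = ∑ lam i |Bd A i| - ∑ lam i |Ns A i| ≥ ∑ lam i (Σ_i - |Ns A i|) ≥ 0`
    (`freq_identity`).  So all are equalities: `f i = 0` for every `i ∈ U` (each term `lam i f i ≤ 0` and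
    the sum is `≥ 0`: `Finset.sum_eq_zero_iff_of_nonpos`), and `Σ_i = |Ns A i|` for every `i ∈ U`
    (each `lam i (Σ_i - |N|) ≥ 0`).
(d) `freq_eq` is `f i = 0`.  For `nu_eq`: `|N| ≥ 1`, `|N| log (1 / nu) ≤ log 2 * Σ_i = |N| log 2`, so
    `log (1 / nu) ≤ log 2`, `nu ≥ 1/2`, `nu = 1/2`.
(e) For `exit_single`: if some exit had `2 ≤ (e.2 \ e.1).card`, `exits_gt` would give
    `|N| log (1 / nu) < log 2 * Σ_i = |N| log 2`, with `N ≠ ∅` (`e.1 ∈ N`), so `nu > 1/2`, contradiction.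
-/

set_option autoImplicit false

namespace Pool.Agent.H62.UC

open Finset

variable {α : Type*} [DecidableEq α]

/-- A point of `e.2 \ e.1`. -/
private noncomputable def Mf_J (i : α) (e : Finset α × Finset α) : α :=
  if h : (e.2 \ e.1).Nonempty then h.choose else i

private theorem Mf_J_mem {A : Finset (Finset α)} {G : Finset α}
    (hA : ∀ S ∈ A, ∀ T ∈ A, S ∪ T ∈ A) {i : α} {e : Finset α × Finset α}
    (he : e ∈ exits (Ns A i) (Hs G A i)) : Mf_J i e ∈ e.2 \ e.1 := by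
  have h : (e.2 \ e.1).Nonempty := exit_nonempty hA he
  rw [Mf_J, dif_pos h]
  exact h.choose_spec

private theorem Mf_nu (A : Finset (Finset α)) (G : Finset α) (lam : α → ℝ) (i : α) :
    ∑ Z ∈ (G.erase i).powerset with Z ∉ Hs G A i, pm (G.erase i) (pr lam i) Z =
      nu A G lam i := by
  unfold nu
  refine sum_congr (filter_congr fun Z hZ => ?_) fun _ _ => rfl
  rw [Hs, mem_filter, not_and]
  exact ⟨fun h => h hZ, fun h _ => h⟩

private theorem Mf_log {A : Finset (Finset α)} {G : Finset α} {lam : α → ℝ} {i : α} :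
    ∑ e ∈ exits (Ns A i) (Hs G A i), Real.log (1 / (1 - pr lam i (Mf_J i e))) =
      Real.log 2 * ∑ e ∈ exits (Ns A i) (Hs G A i), min 1 (lam (Mf_J i e) / lam i) := by
  rw [mul_sum]
  refine sum_congr rfl fun e _ => ?_
  rw [log_pr, mul_comm]

theorem equality_case {A : Finset (Finset α)} (hA : ∀ S ∈ A, ∀ T ∈ A, S ∪ T ∈ A)
    {lam : α → ℝ} (hlam : ∀ i ∈ A.sup id, 0 < lam i)
    (hnu : ∀ i ∈ A.sup id, nu A (A.sup id) lam i ≤ 1 / 2)
    (hfreq : ∀ i ∈ A.sup id, 2 * (A.filter (fun T => i ∈ T)).card ≤ A.card) :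
    (∀ i ∈ A.sup id, 2 * (A.filter (fun T => i ∈ T)).card = A.card) ∧
    (∀ i ∈ A.sup id, (Ns A i).Nonempty → nu A (A.sup id) lam i = 1 / 2) ∧
    (∀ i ∈ A.sup id, ∀ e ∈ exits (Ns A i) (Hs (A.sup id) A i), (e.2 \ e.1).card < 2) := by
  obtain ⟨U, hU⟩ : ∃ U, U = A.sup id := ⟨_, rfl⟩
  rw [← hU] at hlam hnu hfreq ⊢
  have hG : ∀ T ∈ A, T ⊆ U := fun T hT => by
    rw [hU]
    exact le_sup (f := id) hT
  have hl2 : 0 < Real.log 2 := Real.log_pos one_lt_two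
  obtain ⟨Sg, hSg⟩ : ∃ Sg : α → ℝ, Sg = fun i => ∑ e ∈ exits (Ns A i) (Hs U A i),
    min 1 (lam (Mf_J i e) / lam i) := ⟨_, rfl⟩
  have hJ : ∀ i, ∀ e ∈ exits (Ns A i) (Hs U A i), Mf_J i e ∈ e.2 \ e.1 :=
    fun i e he => Mf_J_mem hA he
  have hsub : ∀ i, ∀ e ∈ exits (Ns A i) (Hs U A i), e.2 \ e.1 ⊆ U := by
    intro i e he
    have h1 := mem_powerset.1 (Hs_sub U A i (mem_exits.1 he).2.1)
    exact sdiff_subset.trans (h1.trans (erase_subset i U))
  have hp : ∀ i ∈ U, ∀ j ∈ U.erase i, 0 < pr lam i j ∧ pr lam i j ≤ 1 / 2 := fun i hi j hj =>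
    pr_bounds (hlam i hi) (hlam j (mem_of_mem_erase hj))
  have hge : ∀ i ∈ U, ((Ns A i).card : ℝ) * Real.log (1 / nu A U lam i) ≤
      Real.log 2 * Sg i := by
    intro i hi
    have h1 := exits_ge (hp i hi) (Ns_sub hG i) (Hs_sub U A i) Hs_up (Ns_not_Hs hA)
      (Ns_union hA hG) (hJ i)
    rw [Mf_nu, Mf_log] at h1
    rw [hSg]
    exact h1
  have hgt : ∀ i ∈ U, (∃ e ∈ exits (Ns A i) (Hs U A i), 2 ≤ (e.2 \ e.1).card) →
      ((Ns A i).card : ℝ) * Real.log (1 / nu A U lam i) < Real.log 2 * Sg i := by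
    intro i hi h2
    have h1 := exits_gt (hp i hi) (Ns_sub hG i) (Hs_sub U A i) Hs_up (Ns_not_Hs hA)
      (Ns_union hA hG) (hJ i) h2
    rw [Mf_nu, Mf_log] at h1
    rw [hSg]
    exact h1
  have hnupos : ∀ i ∈ U, (Ns A i).Nonempty → 0 < nu A U lam i := by
    intro i hi hne
    obtain ⟨w, hw⟩ := hne
    have hp1 : ∀ j ∈ U.erase i, 0 < pr lam i j ∧ pr lam i j < 1 := fun j hj =>
      ⟨(hp i hi j hj).1, by linarith [(hp i hi j hj).2]⟩
    rw [← Mf_nu]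
    have hwV := Ns_sub hG i hw
    refine sum_pos' ?_ ⟨w, mem_filter.2 ⟨hwV, Ns_not_Hs hA w hw⟩,
      pm_pos hp1 (mem_powerset.1 hwV)⟩
    intro Z hZ
    exact (pm_pos hp1 (mem_powerset.1 (mem_filter.1 hZ).1)).le
  have hlogge : ∀ i ∈ U, (Ns A i).Nonempty → Real.log 2 ≤ Real.log (1 / nu A U lam i) := by
    intro i hi hne
    have h1 := hnupos i hi hne
    refine Real.log_le_log two_pos ?_
    rw [le_div_iff₀ h1]
    linarith [hnu i hi]
  have hSge : ∀ i ∈ U, ((Ns A i).card : ℝ) ≤ Sg i := by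
    intro i hi
    rcases (Ns A i).eq_empty_or_nonempty with he | hne
    · rw [he, card_empty, Nat.cast_zero, hSg]
      refine sum_nonneg fun e he' => le_min zero_le_one (div_nonneg ?_ (hlam i hi).le)
      exact (hlam _ (hsub i e he' (hJ i e he'))).le
    · have h1 := hge i hi
      have h2 := hlogge i hi hne
      have h3 : ((Ns A i).card : ℝ) * Real.log 2 ≤ ((Ns A i).card : ℝ) *
          Real.log (1 / nu A U lam i) := mul_le_mul_of_nonneg_left h2 (Nat.cast_nonneg _)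
      have h4 : Real.log 2 * ((Ns A i).card : ℝ) ≤ Real.log 2 * Sg i := by
        rw [mul_comm (Real.log 2) ((Ns A i).card : ℝ)]
        exact h3.trans h1
      exact le_of_mul_le_mul_left h4 hl2
  have hinj := inj_bound hA hG (S := U) hlam (J := Mf_J) (fun i _ e he => hJ i e he)
  have hinj' : ∑ i ∈ U, lam i * Sg i ≤ ∑ j ∈ U, lam j * ((Bd A j).card : ℝ) := by
    refine le_trans (le_of_eq ?_) hinj
    refine sum_congr rfl fun i _ => ?_
    rw [filter_true_of_mem (fun e he => hsub i e he), hSg, mul_sum]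
  obtain ⟨f, hf⟩ : ∃ f : α → ℝ, f = fun i => 2 * ((A.filter (fun T => i ∈ T)).card : ℝ) -
    (A.card : ℝ) := ⟨_, rfl⟩
  have hf0 : ∀ i ∈ U, f i ≤ 0 := by
    intro i hi
    have h1 : (2 : ℝ) * ((A.filter (fun T => i ∈ T)).card : ℝ) ≤ (A.card : ℝ) := by
      exact_mod_cast hfreq i hi
    rw [hf]
    dsimp only
    linarith
  have hsum : ∑ i ∈ U, lam i * (Sg i - ((Ns A i).card : ℝ)) ≤ ∑ i ∈ U, lam i * f i := by
    have h1 : ∑ i ∈ U, lam i * f i = ∑ i ∈ U, lam i * ((Bd A i).card : ℝ) -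
        ∑ i ∈ U, lam i * ((Ns A i).card : ℝ) := by
      rw [← sum_sub_distrib]
      refine sum_congr rfl fun i _ => ?_
      rw [hf]
      dsimp only
      rw [freq_identity, mul_sub]
    have h2 : ∑ i ∈ U, lam i * (Sg i - ((Ns A i).card : ℝ)) = ∑ i ∈ U, lam i * Sg i -
        ∑ i ∈ U, lam i * ((Ns A i).card : ℝ) := by
      rw [← sum_sub_distrib]
      refine sum_congr rfl fun i _ => mul_sub _ _ _
    rw [h1, h2]
    exact sub_le_sub_right hinj' _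
  have hnn : ∀ i ∈ U, 0 ≤ lam i * (Sg i - ((Ns A i).card : ℝ)) := fun i hi =>
    mul_nonneg (hlam i hi).le (sub_nonneg.2 (hSge i hi))
  have hnp : ∀ i ∈ U, lam i * f i ≤ 0 := fun i hi =>
    mul_nonpos_of_nonneg_of_nonpos (hlam i hi).le (hf0 i hi)
  have hs1 : 0 ≤ ∑ i ∈ U, lam i * (Sg i - ((Ns A i).card : ℝ)) := sum_nonneg hnn
  have hs2 : ∑ i ∈ U, lam i * f i ≤ 0 := sum_nonpos hnp
  have hz1 : ∑ i ∈ U, lam i * f i = 0 := le_antisymm hs2 (hs1.trans hsum)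
  have hz2 : ∑ i ∈ U, lam i * (Sg i - ((Ns A i).card : ℝ)) = 0 :=
    le_antisymm (hsum.trans hs2) hs1
  have hf1 : ∀ i ∈ U, f i = 0 := by
    intro i hi
    have h1 := (sum_eq_zero_iff_of_nonpos hnp).1 hz1 i hi
    exact (mul_eq_zero.1 h1).resolve_left (hlam i hi).ne'
  have hS1 : ∀ i ∈ U, Sg i = ((Ns A i).card : ℝ) := by
    intro i hi
    have h1 := (sum_eq_zero_iff_of_nonneg hnn).1 hz2 i hi
    have h2 := (mul_eq_zero.1 h1).resolve_left (hlam i hi).ne'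
    linarith
  refine ⟨?_, ?_, ?_⟩
  · intro i hi
    have h1 := hf1 i hi
    rw [hf] at h1
    dsimp only at h1
    have h2 : (2 : ℝ) * ((A.filter (fun T => i ∈ T)).card : ℝ) = (A.card : ℝ) := by linarith
    exact_mod_cast h2
  · intro i hi hne
    have h1 := hge i hi
    rw [hS1 i hi, mul_comm (Real.log 2)] at h1
    have hc : (0 : ℝ) < ((Ns A i).card : ℝ) := Nat.cast_pos.2 (card_pos.2 hne)
    have h2 := le_of_mul_le_mul_left h1 hc
    have h3 := hnupos i hi hne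
    have h4 : 1 / nu A U lam i ≤ 2 := (Real.log_le_log_iff (by positivity) two_pos).1 h2
    rw [div_le_iff₀ h3] at h4
    have h5 := hnu i hi
    linarith
  · intro i hi e he
    by_contra hcon
    have h1 := hgt i hi ⟨e, he, by omega⟩
    rw [hS1 i hi, mul_comm (Real.log 2)] at h1
    have hne : (Ns A i).Nonempty := ⟨e.1, (mem_exits.1 he).1⟩
    have h2 := hlogge i hi hne
    have h3 : ((Ns A i).card : ℝ) * Real.log 2 ≤ ((Ns A i).card : ℝ) *
        Real.log (1 / nu A U lam i) := mul_le_mul_of_nonneg_left h2 (Nat.cast_nonneg _)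
    linarith

end Pool.Agent.H62.UC
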