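import Pool.Agent.H62.UC.Mf

/-!
Row UCMg.  Poonen's strict inequality under the covering condition.

Notation: `U = A.sup id`.

Proof of `strict_of_empty` (`∅ ∈ A`).  Suppose all `2 freq ≤ |A|`; `equality_case` gives (1) all
`2 freq = |A|`, (2) `nu = 1/2` if `Ns A i ≠ ∅`, (3) all exits have `(e.2 \ e.1).card < 2`.
(α) If `{i} ∈ A` then `Ns A i = ∅` (`insert i T = {i} ∪ T ∈ A`), so by `freq_identity` and (1)
    `(Bd A i).card = 0`: `T ∈ A`, `i ∈ T` imply `T.erase i ∈ A`.
(β) There is a point `x ∈ U` with `{x} ∉ A`: otherwise every subset of `U` is a union of singletons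
    (`∅ ∈ A`, induction), so `A = U.powerset` (`A ⊆ U.powerset` by `le_sup`), excluded.
(γ) Take `T ∈ A` with `x ∈ T` and `T.card` minimal.  By (α) and minimality no `i ∈ T` has `{i} ∈ A`
    (`i ≠ x` as `{x} ∉ A`, and `T.erase i` would be smaller, containing `x`).
    Among the nonempty members `T' ⊆ T` (e.g. `T`) take one, `T'`, of minimal cardinality.  It has
    `2 ≤ T'.card` (a singleton `{i} ∈ A`, `i ∈ T`, is excluded), and the members inside `T'` are `∅` and
    `T'`.
(δ) For `i ∈ T'`: `∅ ∈ Ns A i` (`{i} ∉ A`), and `(∅, T'.erase i)` is an exit of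
    `(Ns A i, Hs U A i)`: a `Z ∈ Ns A i` inside `T'.erase i` is `∅` (a member inside `T'`, not `T'`); if
    `Z ∈ Hs U A i`, `Z ⊆ T'.erase i`: a member `T2`, `i ∈ T2 ⊆ insert i Z ⊆ T'`, so `T2 = T'` and
    `Z = T'.erase i`.  By (3) `(T'.erase i).card < 2`.  So `T'.card = 2`, `T' = {a, b}`, `a ≠ b`,
    and by symmetry we may assume `lam b ≤ lam a` (`le_total`).
(ε) `nu A U lam b = 1/2` (`∅ ∈ Ns A b`), and `pr lam b a = 1/2` (`lam a / lam b ≥ 1`, min `= 1`,
    `2 ^ (-1) = 1/2`).  Claim: every member `T2` with `b ∈ T2` contains `a`.  Suppose `a ∉ T2`.  The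
    `Y ⊆ U.erase b` that do not cover `b` do not contain `a` (`{a, b} ⊆ insert b Y` otherwise), and
    `Y0 = T2.erase b` does not contain `a` but covers `b`.  So `nu A U lam b` is at most the sum of
    `pm` over the `Y ⊆ U.erase b` with `a ∉ Y`, minus `pm Y0 > 0`; and the sum over the `Y` with
    `a ∉ Y` is `1 - pr lam b a = 1/2`: by `pm_insert` with `V = (U.erase b).erase a`,
    `∑_{Y ⊆ V} pm (insert a V) Y = (1 - pr) ∑_{Y ⊆ V} pm V Y = 1 - pr` (`pm_total`).  So `nu < 1/2`,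
    contradiction.
(ζ) So `{T ∋ b} ⊆ {T ∋ a}` and both have `|A| / 2` members by (1): they are equal
    (`Finset.eq_of_subset_of_card_le`), so `a`, `b` are not separated: contradiction to `hsep`.

Proof of `strict`.  If `∅ ∈ A`: `strict_of_empty`.  If `∅ ∉ A` let `B = insert ∅ A`: union-closed,
`B.sup id = U`, separating (same members with points), `nu B U lam i = nu A U lam i` (only members
that contain `i` matter), `freq` the same.  If `B ≠ U.powerset`: some `x` has
`B.card < 2 freq_x`, and `A.card < B.card`.  If `B = U.powerset`: `U ≠ ∅` (`A` has a member, which is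
not `∅`), take `x ∈ U`: `2 freq_x = B.card` (`T ↦ T.erase x`, or `freq_identity` with
`Bd B x = ∅ = Ns B x`) `> A.card`.
-/

set_option autoImplicit false

namespace Pool.Agent.H62.UC

open Finset

variable {α : Type*} [DecidableEq α]

private theorem Mg_sub {A : Finset (Finset α)} {T : Finset α} (hT : T ∈ A) : T ⊆ A.sup id :=
  le_sup (f := id) hT

private theorem Mg_all {A : Finset (Finset α)} (hA : ∀ S ∈ A, ∀ T ∈ A, S ∪ T ∈ A)
    (h0 : ∅ ∈ A) (h1 : ∀ x ∈ A.sup id, {x} ∈ A) : A = (A.sup id).powerset := by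
  apply Subset.antisymm
  · intro T hT
    exact mem_powerset.2 (Mg_sub hT)
  · intro S hS
    rw [mem_powerset] at hS
    induction S using Finset.induction_on with
    | empty => exact h0
    | insert a S ha ih =>
      rw [insert_eq]
      exact hA _ (h1 a (hS (mem_insert_self a S))) _ (ih ((subset_insert a S).trans hS))

private theorem Mg_alpha {A : Finset (Finset α)} (hA : ∀ S ∈ A, ∀ T ∈ A, S ∪ T ∈ A) {i : α}
    (hf : 2 * (A.filter (fun T => i ∈ T)).card = A.card) (hi : {i} ∈ A) {T : Finset α}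
    (hT : T ∈ A) (hiT : i ∈ T) : T.erase i ∈ A := by
  have hN : Ns A i = ∅ := by
    rw [eq_empty_iff_forall_notMem]
    intro T hT
    rw [mem_Ns] at hT
    refine hT.2.2 ?_
    rw [insert_eq]
    exact hA _ hi _ hT.1
  have h1 := freq_identity A i
  have h2 : (2:ℝ) * ((A.filter (fun T => i ∈ T)).card : ℝ) = (A.card : ℝ) := by exact_mod_cast hf
  rw [hN, card_empty, Nat.cast_zero, h2] at h1
  have h3 : ((Bd A i).card : ℝ) = 0 := by linarith
  have h4 : Bd A i = ∅ := card_eq_zero.1 (by exact_mod_cast h3)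
  by_contra hcon
  have h5 : T ∈ Bd A i := mem_Bd.2 ⟨hT, hiT, hcon⟩
  rw [h4] at h5
  exact notMem_empty _ h5

private theorem Mg_exit {A : Finset (Finset α)} (h0 : ∅ ∈ A) {T' : Finset α} (hT' : T' ∈ A)
    (hmin : ∀ T ∈ A, T ⊆ T' → T = ∅ ∨ T = T') {i : α} (hi : i ∈ T') (hs : {i} ∉ A) :
    ((∅ : Finset α), T'.erase i) ∈ exits (Ns A i) (Hs (A.sup id) A i) := by
  rw [mem_exits]
  refine ⟨mem_Ns.2 ⟨h0, notMem_empty i, ?_⟩, mem_Hs.2 ⟨⟨(erase_subset i T').trans (Mg_sub hT'),
    notMem_erase i T'⟩, T', hT', hi, ?_⟩, empty_subset _, ?_⟩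
  · exact hs
  · show T' ⊆ insert i (T'.erase i)
    rw [insert_erase hi]
  · intro Z hZ _ hZ2
    have hZ2' : Z ⊆ T'.erase i := hZ2
    rcases hZ with hZ | hZ
    · left
      rw [mem_Ns] at hZ
      rcases hmin Z hZ.1 (hZ2'.trans (erase_subset i T')) with h | h
      · exact h
      · exact absurd hi (h ▸ hZ.2.1)
    · right
      rw [mem_Hs] at hZ
      obtain ⟨_, T2, hT2, hiT2, hsub⟩ := hZ
      have h1 : T2 ⊆ T' := hsub.trans (by
        intro a ha
        rcases mem_insert.1 ha with h | h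
        · rw [h]
          exact hi
        · exact mem_of_mem_erase (hZ2' h))
      rcases hmin T2 hT2 h1 with h | h
      · rw [h] at hiT2
        exact absurd hiT2 (notMem_empty i)
      · apply Subset.antisymm hZ2'
        intro a ha
        rw [mem_erase] at ha
        have h2 : a ∈ insert i Z := by
          apply hsub
          rw [h]
          exact ha.2
        rcases mem_insert.1 h2 with h3 | h3
        · exact absurd h3 ha.1
        · exact h3

private theorem Mg_eps {A : Finset (Finset α)} {lam : α → ℝ}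
    (hlam : ∀ i ∈ A.sup id, 0 < lam i) {a b : α} (hab : a ≠ b) (hT : {a, b} ∈ A)
    (haU : a ∈ A.sup id) (hbU : b ∈ A.sup id) (hnu : nu A (A.sup id) lam b = 1 / 2)
    (hle : lam b ≤ lam a) {T2 : Finset α} (hT2 : T2 ∈ A) (hb2 : b ∈ T2) : a ∈ T2 := by
  by_contra ha2
  obtain ⟨V, hV⟩ : ∃ V, V = ((A.sup id).erase b).erase a := ⟨_, rfl⟩
  have haV : a ∉ V := by
    rw [hV]
    exact notMem_erase _ _
  have hUV : (A.sup id).erase b = insert a V := by
    rw [hV, insert_erase (mem_erase.2 ⟨hab, haU⟩)]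
  have hp : ∀ j ∈ (A.sup id).erase b, 0 < pr lam b j ∧ pr lam b j < 1 := fun j hj => by
    have h1 := pr_bounds (hlam b hbU) (hlam j (mem_of_mem_erase hj))
    exact ⟨h1.1, by linarith [h1.2]⟩
  have hpa : pr lam b a = 1 / 2 := by
    unfold pr
    have h1 : 1 ≤ lam a / lam b := (one_le_div (hlam b hbU)).2 hle
    rw [min_eq_left h1, Real.rpow_neg_one]
    norm_num
  have hY0 : T2.erase b ⊆ V := by
    intro c hc
    rw [mem_erase] at hc
    rw [hV, mem_erase, mem_erase]
    exact ⟨fun h => ha2 (h ▸ hc.2), hc.1, Mg_sub hT2 hc.2⟩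
  have hsub : ((A.sup id).erase b).powerset.filter
      (fun Y => ¬ ∃ T ∈ A, b ∈ T ∧ T ⊆ insert b Y) ⊆ V.powerset.erase (T2.erase b) := by
    intro Y hY
    rw [mem_filter, mem_powerset] at hY
    rw [mem_erase, mem_powerset]
    constructor
    · rintro rfl
      refine hY.2 ⟨T2, hT2, hb2, ?_⟩
      rw [insert_erase hb2]
    · intro c hc
      have h1 := hY.1 hc
      rw [hUV] at h1
      rcases mem_insert.1 h1 with h | h
      · exfalso
        refine hY.2 ⟨{a, b}, hT, by simp, ?_⟩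
        intro d hd
        rw [mem_insert, mem_singleton] at hd
        rcases hd with hd | hd
        · rw [hd, ← h]
          exact mem_insert_of_mem hc
        · rw [hd]
          exact mem_insert_self b Y
      · exact h
  have hsum : ∑ Y ∈ V.powerset, pm ((A.sup id).erase b) (pr lam b) Y = 1 / 2 := by
    rw [hUV]
    have h1 : ∀ Y ∈ V.powerset, pm (insert a V) (pr lam b) Y =
        (1 - pr lam b a) * pm V (pr lam b) Y := fun Y hY => pm_insert haV (mem_powerset.1 hY)
    rw [sum_congr rfl h1, ← mul_sum, pm_total, hpa]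
    norm_num
  have hlt : nu A (A.sup id) lam b < 1 / 2 := by
    unfold nu
    calc ∑ Y ∈ ((A.sup id).erase b).powerset with ¬ ∃ T ∈ A, b ∈ T ∧ T ⊆ insert b Y,
          pm ((A.sup id).erase b) (pr lam b) Y
        ≤ ∑ Y ∈ V.powerset.erase (T2.erase b), pm ((A.sup id).erase b) (pr lam b) Y := by
          refine sum_le_sum_of_subset_of_nonneg hsub ?_
          intro Y hY _
          refine (pm_pos hp ?_).le
          rw [hUV]
          exact (mem_powerset.1 (mem_of_mem_erase hY)).trans (subset_insert a V)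
      _ = 1 / 2 - pm ((A.sup id).erase b) (pr lam b) (T2.erase b) := by
          rw [← hsum, ← add_sum_erase V.powerset _ (mem_powerset.2 hY0)]
          ring
      _ < 1 / 2 := by
          have h1 : 0 < pm ((A.sup id).erase b) (pr lam b) (T2.erase b) := by
            refine pm_pos hp ?_
            rw [hUV]
            exact hY0.trans (subset_insert a V)
          linarith
  exact absurd hnu hlt.ne

private theorem Mg_fin {A : Finset (Finset α)} (h0 : ∅ ∈ A)
    (hsep : ∀ x ∈ A.sup id, ∀ y ∈ A.sup id, x ≠ y → ∃ T ∈ A, ¬ (x ∈ T ↔ y ∈ T))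
    {lam : α → ℝ} (hlam : ∀ i ∈ A.sup id, 0 < lam i)
    (e1 : ∀ i ∈ A.sup id, 2 * (A.filter (fun T => i ∈ T)).card = A.card)
    (e2 : ∀ i ∈ A.sup id, (Ns A i).Nonempty → nu A (A.sup id) lam i = 1 / 2)
    {a b : α} (hab : a ≠ b) (hT : {a, b} ∈ A) (hb : {b} ∉ A) (hle : lam b ≤ lam a) : False := by
  have haU : a ∈ A.sup id := Mg_sub hT (by simp)
  have hbU : b ∈ A.sup id := Mg_sub hT (by simp)
  have hN : (Ns A b).Nonempty := ⟨∅, mem_Ns.2 ⟨h0, notMem_empty b, hb⟩⟩
  have hnu := e2 b hbU hN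
  have hsub : A.filter (fun T => b ∈ T) ⊆ A.filter (fun T => a ∈ T) := by
    intro T2 h2
    rw [mem_filter] at h2 ⊢
    exact ⟨h2.1, Mg_eps hlam hab hT haU hbU hnu hle h2.1 h2.2⟩
  have hc : (A.filter (fun T => a ∈ T)).card ≤ (A.filter (fun T => b ∈ T)).card := by
    have h1 := e1 a haU
    have h2 := e1 b hbU
    omega
  have heq := eq_of_subset_of_card_le hsub hc
  obtain ⟨T, hTA, hT3⟩ := hsep a haU b hbU hab
  refine hT3 ?_
  constructor
  · intro h
    have h1 : T ∈ A.filter (fun T => a ∈ T) := mem_filter.2 ⟨hTA, h⟩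
    rw [← heq] at h1
    exact (mem_filter.1 h1).2
  · intro h
    have h1 : T ∈ A.filter (fun T => b ∈ T) := mem_filter.2 ⟨hTA, h⟩
    rw [heq] at h1
    exact (mem_filter.1 h1).2

theorem strict_of_empty {A : Finset (Finset α)} (hA : ∀ S ∈ A, ∀ T ∈ A, S ∪ T ∈ A)
    (h0 : ∅ ∈ A) (hsep : ∀ x ∈ A.sup id, ∀ y ∈ A.sup id, x ≠ y → ∃ T ∈ A, ¬ (x ∈ T ↔ y ∈ T))
    (hpow : A ≠ (A.sup id).powerset) {lam : α → ℝ} (hlam : ∀ i ∈ A.sup id, 0 < lam i)
    (hnu : ∀ i ∈ A.sup id, nu A (A.sup id) lam i ≤ 1 / 2) :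
    ∃ x ∈ A.sup id, A.card < 2 * (A.filter (fun T => x ∈ T)).card := by
  by_contra hcon
  have hfreq : ∀ x ∈ A.sup id, 2 * (A.filter (fun T => x ∈ T)).card ≤ A.card := by
    intro x hx
    by_contra h
    exact hcon ⟨x, hx, by omega⟩
  obtain ⟨e1, e2, e3⟩ := equality_case hA hlam hnu hfreq
  obtain ⟨x, hxU, hxA⟩ : ∃ x ∈ A.sup id, {x} ∉ A := by
    by_contra h
    refine hpow (Mg_all hA h0 fun x hx => ?_)
    by_contra h1
    exact h ⟨x, hx, h1⟩
  have hxne : (A.filter (fun T => x ∈ T)).Nonempty := by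
    obtain ⟨T, hT, hxT⟩ := mem_sup.1 hxU
    exact ⟨T, mem_filter.2 ⟨hT, hxT⟩⟩
  obtain ⟨T, hT, hTmin⟩ := exists_min_image _ (fun T : Finset α => T.card) hxne
  rw [mem_filter] at hT
  have hns : ∀ i ∈ T, {i} ∉ A := by
    intro i hi hiA
    have hix : i ≠ x := fun h => hxA (h ▸ hiA)
    have h1 := Mg_alpha hA (e1 i (Mg_sub hT.1 hi)) hiA hT.1 hi
    have h2 := hTmin (T.erase i) (mem_filter.2 ⟨h1, mem_erase.2 ⟨hix.symm, hT.2⟩⟩)
    have h3 := card_erase_lt_of_mem hi
    exact absurd h2 (not_le.2 h3)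
  have hne2 : (A.filter (fun T' => T'.Nonempty ∧ T' ⊆ T)).Nonempty :=
    ⟨T, mem_filter.2 ⟨hT.1, ⟨x, hT.2⟩, Subset.refl _⟩⟩
  obtain ⟨T', hT', hT'min⟩ := exists_min_image _ (fun T : Finset α => T.card) hne2
  rw [mem_filter] at hT'
  obtain ⟨hT'A, hT'ne, hT'T⟩ := hT'
  have hmin : ∀ T2 ∈ A, T2 ⊆ T' → T2 = ∅ ∨ T2 = T' := by
    intro T2 hT2 hsub
    rcases T2.eq_empty_or_nonempty with h | h
    · exact Or.inl h
    · right
      exact eq_of_subset_of_card_le hsub
        (hT'min T2 (mem_filter.2 ⟨hT2, h, hsub.trans hT'T⟩))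
  obtain ⟨i, hi⟩ := hT'ne
  have hex := Mg_exit h0 hT'A hmin hi (hns i (hT'T hi))
  have h3 := e3 i (Mg_sub hT'A hi) _ hex
  have h4 : (T'.erase i).card < 2 := by
    have h5 : ((T'.erase i) \ (∅ : Finset α)).card < 2 := h3
    rwa [sdiff_empty] at h5
  rw [card_erase_of_mem hi] at h4
  have h5 : T'.card ≠ 1 := by
    intro h
    obtain ⟨j, hj⟩ := card_eq_one.1 h
    rw [hj] at hT'A hT'T
    exact hns j (hT'T (mem_singleton_self j)) hT'A
  have h6 : 0 < T'.card := card_pos.2 ⟨i, hi⟩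
  have h7 : T'.card = 2 := by omega
  obtain ⟨a, b, hab, hT'ab⟩ := card_eq_two.1 h7
  rw [hT'ab] at hT'A hT'T
  have ha : {a} ∉ A := hns a (hT'T (by simp))
  have hb : {b} ∉ A := hns b (hT'T (by simp))
  rcases le_total (lam b) (lam a) with hle | hle
  · exact Mg_fin h0 hsep hlam e1 e2 hab hT'A hb hle
  · rw [pair_comm] at hT'A
    exact Mg_fin h0 hsep hlam e1 e2 hab.symm hT'A ha hle

theorem strict {A : Finset (Finset α)} (hA : ∀ S ∈ A, ∀ T ∈ A, S ∪ T ∈ A)
    (hne : A.Nonempty)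
    (hsep : ∀ x ∈ A.sup id, ∀ y ∈ A.sup id, x ≠ y → ∃ T ∈ A, ¬ (x ∈ T ↔ y ∈ T))
    (hpow : A ≠ (A.sup id).powerset) {lam : α → ℝ} (hlam : ∀ i ∈ A.sup id, 0 < lam i)
    (hnu : ∀ i ∈ A.sup id, nu A (A.sup id) lam i ≤ 1 / 2) :
    ∃ x ∈ A.sup id, A.card < 2 * (A.filter (fun T => x ∈ T)).card := by
  by_cases h0 : ∅ ∈ A
  · exact strict_of_empty hA h0 hsep hpow hlam hnu
  obtain ⟨B, hB⟩ : ∃ B, B = insert ∅ A := ⟨_, rfl⟩
  have hBU : B.sup id = A.sup id := by
    rw [hB, sup_insert]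
    exact bot_sup_eq _
  have hBA : ∀ S ∈ B, ∀ T ∈ B, S ∪ T ∈ B := by
    intro S hS T hT
    rw [hB, mem_insert] at hS hT ⊢
    rcases hS with rfl | hS
    · rw [empty_union]
      exact hT
    · rcases hT with rfl | hT
      · rw [union_empty]
        exact Or.inr hS
      · exact Or.inr (hA S hS T hT)
  have hB0 : ∅ ∈ B := by
    rw [hB]
    exact mem_insert_self _ _
  have hBfreq : ∀ x, B.filter (fun T => x ∈ T) = A.filter (fun T => x ∈ T) := by
    intro x
    rw [hB, filter_insert, if_neg (notMem_empty x)]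
  have hBcard : B.card = A.card + 1 := by
    rw [hB, card_insert_of_notMem h0]
  have hBnu : ∀ i, nu B (A.sup id) lam i = nu A (A.sup id) lam i := by
    intro i
    unfold nu
    refine sum_congr (filter_congr fun Y _ => ?_) fun _ _ => rfl
    refine not_congr ?_
    constructor
    · rintro ⟨T, hT, hiT, hTY⟩
      rw [hB, mem_insert] at hT
      rcases hT with rfl | hT
      · exact absurd hiT (notMem_empty i)
      · exact ⟨T, hT, hiT, hTY⟩
    · rintro ⟨T, hT, hiT, hTY⟩
      refine ⟨T, ?_, hiT, hTY⟩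
      rw [hB]
      exact mem_insert_of_mem hT
  by_cases hBp : B = (B.sup id).powerset
  · obtain ⟨T, hT⟩ := hne
    have hTne : T.Nonempty := by
      rw [nonempty_iff_ne_empty]
      rintro rfl
      exact h0 hT
    obtain ⟨x, hx⟩ := hTne
    have hxU : x ∈ A.sup id := Mg_sub hT hx
    refine ⟨x, hxU, ?_⟩
    have hmem : ∀ S, S ∈ B ↔ S ⊆ A.sup id := by
      intro S
      rw [hBp, mem_powerset, hBU]
    have h1 := freq_identity B x
    have h2 : Bd B x = ∅ := by
      rw [eq_empty_iff_forall_notMem]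
      intro S hS
      rw [mem_Bd] at hS
      exact hS.2.2 ((hmem _).2 ((erase_subset x S).trans ((hmem _).1 hS.1)))
    have h3 : Ns B x = ∅ := by
      rw [eq_empty_iff_forall_notMem]
      intro S hS
      rw [mem_Ns] at hS
      exact hS.2.2 ((hmem _).2 (insert_subset hxU ((hmem _).1 hS.1)))
    rw [h2, h3, hBfreq, card_empty, Nat.cast_zero, sub_zero] at h1
    have h4 : (2 : ℝ) * ((A.filter (fun T => x ∈ T)).card : ℝ) = (B.card : ℝ) := by linarith
    have h5 : 2 * (A.filter (fun T => x ∈ T)).card = B.card := by exact_mod_cast h4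
    omega
  · obtain ⟨x, hx, h1⟩ := strict_of_empty (A := B) (lam := lam) hBA hB0
      (by
        rw [hBU]
        intro x hx y hy hxy
        obtain ⟨T, hT, h1⟩ := hsep x hx y hy hxy
        refine ⟨T, ?_, h1⟩
        rw [hB]
        exact mem_insert_of_mem hT) hBp (by rw [hBU]; exact hlam)
      (by
        rw [hBU]
        intro i hi
        rw [hBnu]
        exact hnu i hi)
    rw [hBU] at hx
    rw [hBfreq] at h1
    exact ⟨x, hx, by omega⟩

end Pool.Agent.H62.UC
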