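import Pool.Agent.H62.UC.Me
import Pool.Agent.H62.UC.La

/-!
Row UCMh.  Members that meet only in `x`.

Proof of `mass_disjoint`: induction on `𝒟` (for all `V`).  `𝒟 = ∅`: `pm_total`.
`insert D 𝒟'`: every `D' ∈ 𝒟'` lies in `V \ D`.  The map `Y ↦ (Y ∩ D, Y \ D)` is a bijection from
`V.powerset` to `D.powerset ×ˢ (V \ D).powerset` with inverse `(Y1, Y2) ↦ Y1 ∪ Y2`, and
`pm V p (Y1 ∪ Y2) = pm D p Y1 * pm (V \ D) p Y2` (products over disjoint unions; `V \ (Y1 ∪ Y2) =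
(D \ Y1) ∪ ((V \ D) \ Y2)`).  `D ⊆ Y1 ∪ Y2` iff `Y1 = D`; `D' ⊆ Y1 ∪ Y2` iff `D' ⊆ Y2` for `D' ∈ 𝒟'`
(`D'` is disjoint from `D`).  So the sum is
`(∑_{Y1 ⊆ D, Y1 ≠ D} pm D p Y1) * (∑_{Y2 ⊆ V \ D, no D' ⊆ Y2} pm (V \ D) p Y2)`; the first factor is
`1 - pm D p D = 1 - ∏_{j ∈ D} p j` by `pm_total`, the second is the induction hypothesis.

Proof of `nu_le_prod`: with `lam = 1`: `pr (fun _ => 1) x j = 1 - 2 ^ (-1) = 1/2`, so
`pm (S.erase x) (pr ..) = pm (S.erase x) (fun _ => 1/2)`.  `𝒟 = 𝒯.image (fun T => T.erase x)` is a family of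
pairwise disjoint subsets of `S.erase x` (`T ∩ T' = {x}`), the map is injective on `𝒯` (all
contain `x`), and if `Y` covers no member then no `D ∈ 𝒟` lies in `Y` (`T ⊆ insert x Y`).  Hence
`nu ≤ ∑_{Y, no D ⊆ Y} pm = ∏_{D ∈ 𝒟} (1 - (1/2) ^ D.card) = ∏_{T ∈ 𝒯} (1 - (1/2) ^ (T.card - 1))`
(`card_erase_of_mem`, `prod_image`).
-/

set_option autoImplicit false

namespace Pool.Agent.H62.UC

open Finset

variable {α : Type*} [DecidableEq α]

private lemma UCMh_split (D W : Finset α) (hd : Disjoint D W) (f : Finset α → ℝ) :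
    ∑ Y ∈ (D ∪ W).powerset, f Y = ∑ Y1 ∈ D.powerset, ∑ Y2 ∈ W.powerset, f (Y1 ∪ Y2) := by
  rw [← Finset.sum_product']
  symm
  refine Finset.sum_nbij' (fun q => q.1 ∪ q.2) (fun Y => (Y ∩ D, Y ∩ W)) ?_ ?_ ?_ ?_ ?_
  · intro q hq
    rw [mem_product, mem_powerset, mem_powerset] at hq
    rw [mem_powerset]
    exact union_subset_union hq.1 hq.2
  · intro Y _
    rw [mem_product, mem_powerset, mem_powerset]
    exact ⟨inter_subset_right, inter_subset_right⟩
  · intro q hq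
    rw [mem_product, mem_powerset, mem_powerset] at hq
    obtain ⟨Y1, Y2⟩ := q
    have h1 : (Y1 ∪ Y2) ∩ D = Y1 := by
      ext a
      rw [mem_inter, mem_union]
      constructor
      · rintro ⟨h | h, h'⟩
        · exact h
        · exact absurd (hq.2 h) (disjoint_left.1 hd h')
      · intro h
        exact ⟨Or.inl h, hq.1 h⟩
    have h2 : (Y1 ∪ Y2) ∩ W = Y2 := by
      ext a
      rw [mem_inter, mem_union]
      constructor
      · rintro ⟨h | h, h'⟩
        · exact absurd h' (disjoint_left.1 hd (hq.1 h))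
        · exact h
      · intro h
        exact ⟨Or.inr h, hq.2 h⟩
    show ((Y1 ∪ Y2) ∩ D, (Y1 ∪ Y2) ∩ W) = (Y1, Y2)
    rw [h1, h2]
  · intro Y hY
    rw [mem_powerset] at hY
    show Y ∩ D ∪ Y ∩ W = Y
    rw [← inter_union_distrib_left, inter_eq_left]
    exact hY
  · intro q _
    rfl

private lemma UCMh_pm (D W : Finset α) (hd : Disjoint D W) (p : α → ℝ) {Y1 Y2 : Finset α}
    (h1 : Y1 ⊆ D) (h2 : Y2 ⊆ W) : pm (D ∪ W) p (Y1 ∪ Y2) = pm D p Y1 * pm W p Y2 := by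
  have e1 : (D ∪ W) \ (Y1 ∪ Y2) = (D \ Y1) ∪ (W \ Y2) := by
    ext a
    simp only [mem_sdiff, mem_union, not_or]
    constructor
    · rintro ⟨h | h, h3, h4⟩
      · exact Or.inl ⟨h, h3⟩
      · exact Or.inr ⟨h, h4⟩
    · rintro (⟨h, h3⟩ | ⟨h, h4⟩)
      · exact ⟨Or.inl h, h3, fun h4 => disjoint_left.1 hd h (h2 h4)⟩
      · exact ⟨Or.inr h, fun h3 => disjoint_left.1 hd (h1 h3) h, h4⟩
  unfold pm
  rw [e1, prod_union (disjoint_of_subset_left h1 (disjoint_of_subset_right h2 hd)),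
    prod_union (disjoint_of_subset_left sdiff_subset (disjoint_of_subset_right sdiff_subset hd))]
  ring

private lemma UCMh_one (D : Finset α) (p : α → ℝ) :
    ∑ Y ∈ D.powerset, (if Y = D then 0 else pm D p Y) = 1 - ∏ j ∈ D, p j := by
  have h1 : ∀ Y ∈ D.powerset, (if Y = D then 0 else pm D p Y) =
      pm D p Y - if Y = D then pm D p D else 0 := by
    intro Y _
    split_ifs with h
    · rw [h, sub_self]
    · rw [sub_zero]
  rw [sum_congr rfl h1, sum_sub_distrib, pm_total, sum_ite_eq', if_pos (mem_powerset_self D)]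
  congr 1
  unfold pm
  rw [Finset.sdiff_self, prod_empty, mul_one]

theorem mass_disjoint (p : α → ℝ) (𝒟 : Finset (Finset α)) :
    ∀ V : Finset α, (∀ D ∈ 𝒟, D ⊆ V) → (∀ D ∈ 𝒟, ∀ D' ∈ 𝒟, D ≠ D' → Disjoint D D') →
      ∑ Y ∈ V.powerset with (∀ D ∈ 𝒟, ¬ D ⊆ Y), pm V p Y = ∏ D ∈ 𝒟, (1 - ∏ j ∈ D, p j) := by
  induction 𝒟 using Finset.induction_on with
  | empty =>
    intro V _ _
    rw [prod_empty, ← pm_total V p]
    congr 1
    rw [filter_eq_self]
    intro Y _ D hD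
    exact absurd hD (notMem_empty _)
  | insert D 𝒟' hD ih =>
    intro V hV hdis
    have hDV : D ⊆ V := hV D (mem_insert_self _ _)
    obtain ⟨W, hW⟩ : ∃ W, W = V \ D := ⟨_, rfl⟩
    have hd : Disjoint D W := by
      rw [hW]
      exact disjoint_sdiff
    have hVW : V = D ∪ W := by
      rw [hW, union_sdiff_of_subset hDV]
    have hdD : ∀ D' ∈ 𝒟', Disjoint D' D := by
      intro D' hD'
      refine hdis D' (mem_insert_of_mem hD') D (mem_insert_self _ _) ?_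
      rintro rfl
      exact hD hD'
    have hih := ih W
      (fun D' hD' => by
        rw [hW]
        exact subset_sdiff.2 ⟨hV D' (mem_insert_of_mem hD'), hdD D' hD'⟩)
      (fun D₁ h₁ D₂ h₂ => hdis D₁ (mem_insert_of_mem h₁) D₂ (mem_insert_of_mem h₂))
    rw [prod_insert hD, ← hih, ← UCMh_one D p, sum_filter, sum_filter, hVW, UCMh_split D W hd,
      sum_mul_sum]
    refine sum_congr rfl fun Y1 hY1 => sum_congr rfl fun Y2 hY2 => ?_
    rw [mem_powerset] at hY1 hY2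
    rw [UCMh_pm D W hd p hY1 hY2]
    have hc : (∀ D' ∈ insert D 𝒟', ¬ D' ⊆ Y1 ∪ Y2) ↔ (¬ Y1 = D ∧ ∀ D' ∈ 𝒟', ¬ D' ⊆ Y2) := by
      constructor
      · intro h
        refine ⟨fun h1 => h D (mem_insert_self _ _) (by rw [h1]; exact subset_union_left), ?_⟩
        intro D' hD' h1
        exact h D' (mem_insert_of_mem hD') (h1.trans subset_union_right)
      · rintro ⟨h1, h2⟩ D' hD' h3
        rcases mem_insert.1 hD' with h4 | h4
        · apply h1
          refine Subset.antisymm hY1 fun a ha => ?_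
          rcases mem_union.1 (h3 (h4 ▸ ha)) with h5 | h5
          · exact h5
          · exact absurd (hY2 h5) (disjoint_left.1 hd ha)
        · apply h2 D' h4
          intro a ha
          rcases mem_union.1 (h3 ha) with h5 | h5
          · exact absurd (hY1 h5) (disjoint_left.1 (hdD D' h4) ha)
          · exact h5
    by_cases h1 : Y1 = D
    · rw [if_neg (fun h => (hc.1 h).1 h1), if_pos h1, zero_mul]
    · rw [if_neg h1]
      by_cases h2 : ∀ D' ∈ 𝒟', ¬ D' ⊆ Y2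
      · rw [if_pos (hc.2 ⟨h1, h2⟩), if_pos h2]
      · rw [if_neg (fun h => h2 (hc.1 h).2), if_neg h2, mul_zero]

omit [DecidableEq α] in
private lemma UCMh_pr (x : α) : pr (fun _ => 1) x = fun _ => (1 / 2 : ℝ) := by
  funext j
  unfold pr
  rw [div_one, min_self, Real.rpow_neg_one]
  norm_num

theorem nu_le_prod {A : Finset (Finset α)} {S : Finset α} {x : α} {𝒯 : Finset (Finset α)}
    (h𝒯 : ∀ T ∈ 𝒯, T ∈ A ∧ x ∈ T ∧ T ⊆ S)
    (hd : ∀ T ∈ 𝒯, ∀ T' ∈ 𝒯, T ≠ T' → T ∩ T' = {x}) :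
    nu A S (fun _ => 1) x ≤ ∏ T ∈ 𝒯, (1 - (1 / 2 : ℝ) ^ (T.card - 1)) := by
  have hinj : Set.InjOn (fun T : Finset α => T.erase x) (𝒯 : Set (Finset α)) := by
    intro T hT T' hT' h
    have h1 := (h𝒯 T hT).2.1
    have h2 := (h𝒯 T' hT').2.1
    have h3 : T.erase x = T'.erase x := h
    rw [← insert_erase h1, ← insert_erase h2, h3]
  have hm := mass_disjoint (fun _ => (1 / 2 : ℝ)) (𝒯.image fun T => T.erase x) (S.erase x)
    (by
      intro D hD
      obtain ⟨T, hT, rfl⟩ := mem_image.1 hD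
      exact erase_subset_erase x (h𝒯 T hT).2.2)
    (by
      intro D hD D' hD' hne
      obtain ⟨T, hT, rfl⟩ := mem_image.1 hD
      obtain ⟨T', hT', rfl⟩ := mem_image.1 hD'
      have hTT : T ≠ T' := by
        rintro rfl
        exact hne rfl
      have h1 := hd T hT T' hT' hTT
      rw [disjoint_left]
      intro a ha ha'
      rw [mem_erase] at ha ha'
      have h2 : a ∈ T ∩ T' := mem_inter.2 ⟨ha.2, ha'.2⟩
      rw [h1, mem_singleton] at h2
      exact ha.1 h2)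
  rw [prod_image hinj] at hm
  have he : ∏ T ∈ 𝒯, (1 - (1 / 2 : ℝ) ^ (T.card - 1)) =
      ∏ T ∈ 𝒯, (1 - ∏ _j ∈ T.erase x, (1 / 2 : ℝ)) := by
    refine prod_congr rfl fun T hT => ?_
    rw [prod_const, card_erase_of_mem (h𝒯 T hT).2.1]
  rw [he, ← hm]
  unfold nu
  rw [UCMh_pr]
  refine sum_le_sum_of_subset_of_nonneg ?_ ?_
  · intro Y hY
    rw [mem_filter] at hY ⊢
    refine ⟨hY.1, fun D hD hDY => hY.2 ?_⟩
    obtain ⟨T, hT, rfl⟩ := mem_image.1 hD
    refine ⟨T, (h𝒯 T hT).1, (h𝒯 T hT).2.1, ?_⟩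
    rw [← insert_erase (h𝒯 T hT).2.1]
    exact insert_subset_insert x hDY
  · intro Y hY _
    exact pm_nonneg (fun j _ => by norm_num) (mem_powerset.1 (mem_filter.1 hY).1)

end Pool.Agent.H62.UC
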