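import Pool.Agent.H62.UC.OreA

/-!
# definitions: left multiplication operators of vectors, affiliated operators
-/

namespace Pool.H62.UC

open scoped InnerProductSpace TensorProduct ComplexConjugate
open Filter Topology

noncomputable section


variable {H : Type*} [NormedAddCommGroup H] [InnerProductSpace ℂ H] [CompleteSpace H]
variable {K : Type*} [NormedAddCommGroup K] [InnerProductSpace ℂ K] [CompleteSpace K]

/-- The closed operator of left multiplication by `k ∈ L²(N)`, as a graph:
closure of `n' Ω ↦ n' k`. -/
def opOf (N : VonNeumannAlgebra K) (Ω k : K) : Submodule ℂ (K × K) :=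
  (Submodule.span ℂ {p : K × K | ∃ u ∈ N.commutant, p = (u Ω, u k)}).topologicalClosure

/-- graph of a closed densely defined operator affiliated with `N` -/
structure Affil (N : VonNeumannAlgebra K) (G : Submodule ℂ (K × K)) : Prop where
  closed : IsClosed (G : Set (K × K))
  inv : Inv N G
  dense : Dense {ζ : K | ∃ ω, (ζ, ω) ∈ G}
  sv : ∀ ω : K, ((0 : K), ω) ∈ G → ω = 0

end

end Pool.H62.UC
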