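import Pool.Agent.H62.UC.Tik

/-!
# OREA (`proj_blocks`, `exists_pair`): closed invariant subspaces of `H × H`, Ore condition, trace lemma

`G : Submodule ℂ (H × H)` closed and invariant under `u ⊕ u`, `u ∈ N'`. Let `P` be the orthogonal
projection of the Hilbert space `WithLp 2 (H × H)` on `G`; its four blocks commute with `N'`, hence
are in `N`.
-/

namespace Pool.H62.UC

open scoped InnerProductSpace TensorProduct ComplexConjugate
open Filter Topology ContinuousLinearMap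

noncomputable section


variable {H : Type*} [NormedAddCommGroup H] [InnerProductSpace ℂ H] [CompleteSpace H]

/-- invariance of `G ≤ H × H` under the diagonal action of the commutant of `N` -/
def Inv (N : VonNeumannAlgebra H) (G : Submodule ℂ (H × H)) : Prop :=
  ∀ u ∈ N.commutant, ∀ p ∈ G, (u p.1, u p.2) ∈ G

/-- the orthogonal projection on a closed subspace of `H × H`, as a block matrix -/
theorem oreA_blocks (G : Submodule ℂ (H × H)) (hG : IsClosed (G : Set (H × H))) :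
    ∃ A B C D : H →L[ℂ] H, (∀ ζ ω : H, (A ζ + B ω, C ζ + D ω) ∈ G) ∧
      (∀ ζ ω : H, ∀ p ∈ G, ⟪p.1, ζ - (A ζ + B ω)⟫_ℂ + ⟪p.2, ω - (C ζ + D ω)⟫_ℂ = 0) := by
  set e : WithLp 2 (H × H) ≃L[ℂ] H × H := WithLp.prodContinuousLinearEquiv 2 ℂ H H with he
  set K : Submodule ℂ (WithLp 2 (H × H)) := G.comap (e : WithLp 2 (H × H) →ₗ[ℂ] H × H) with hK
  have hKc : IsClosed (K : Set (WithLp 2 (H × H))) := hG.preimage e.continuous
  have : CompleteSpace K := hKc.completeSpace_coe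
  have hmem : ∀ x : WithLp 2 (H × H), x ∈ K ↔ e x ∈ G := fun x => Iff.rfl
  set Pj : WithLp 2 (H × H) →L[ℂ] WithLp 2 (H × H) := K.starProjection with hPj
  set T : H × H →L[ℂ] H × H := (e : WithLp 2 (H × H) →L[ℂ] H × H) ∘L Pj ∘L
    (e.symm : H × H →L[ℂ] WithLp 2 (H × H)) with hT
  have hTG : ∀ p, T p ∈ G := fun p => (hmem _).1 (Submodule.starProjection_apply_mem K _)
  have hadd : ∀ ζ ω : H, T (ζ, ω) = T (ζ, 0) + T (0, ω) := by
    intro ζ ω
    rw [← map_add]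
    simp
  have horth : ∀ q p : H × H, p ∈ G →
      ⟪p.1, q.1 - (T q).1⟫_ℂ + ⟪p.2, q.2 - (T q).2⟫_ℂ = 0 := by
    intro q p hp
    have h1 : e.symm p ∈ K := by
      rw [hmem]; simpa using hp
    have h2 := Submodule.sub_starProjection_mem_orthogonal (K := K) (e.symm q)
    have h3 := h2 _ h1
    rw [WithLp.prod_inner_apply] at h3
    exact h3
  refine ⟨(ContinuousLinearMap.fst ℂ H H) ∘L T ∘L (ContinuousLinearMap.inl ℂ H H),
    (ContinuousLinearMap.fst ℂ H H) ∘L T ∘L (ContinuousLinearMap.inr ℂ H H),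
    (ContinuousLinearMap.snd ℂ H H) ∘L T ∘L (ContinuousLinearMap.inl ℂ H H),
    (ContinuousLinearMap.snd ℂ H H) ∘L T ∘L (ContinuousLinearMap.inr ℂ H H), ?_, ?_⟩
  · intro ζ ω
    have h := hTG (ζ, ω)
    rw [hadd] at h
    exact h
  · intro ζ ω p hp
    have h := horth (ζ, ω) p hp
    rw [hadd] at h
    exact h

/-- Blocks of the projection on `G`: `P = (P₁₁ P₁₂ ; P₂₁ P₂₂)`, `P₁₂ = P₂₁*`.
`ζ ↦ (P₁₁ ζ, P₂₁ ζ)` is the projection of `(ζ, 0)`, `ω ↦ (P₁₂ ω, P₂₂ ω)` that of `(0, ω)`. -/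
theorem proj_blocks (N : VonNeumannAlgebra H) (G : Submodule ℂ (H × H))
    (hG : IsClosed (G : Set (H × H))) (hinv : Inv N G) :
    ∃ P Q R : H →L[ℂ] H, P ∈ N ∧ Q ∈ N ∧ R ∈ N ∧ star P = P ∧ star R = R ∧
      (∀ ζ ω : H, (P ζ + (star Q) ω, Q ζ + R ω) ∈ G) ∧
      (∀ ζ ω : H, ∀ p ∈ G, ⟪p.1, ζ - (P ζ + (star Q) ω)⟫_ℂ + ⟪p.2, ω - (Q ζ + R ω)⟫_ℂ = 0) := by
  obtain ⟨A, B, C, D, hmem, horth⟩ := oreA_blocks G hG
  -- symmetry
  have hsym : ∀ ζ ω ζ' ω' : H,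
      ⟪A ζ + B ω, ζ'⟫_ℂ + ⟪C ζ + D ω, ω'⟫_ℂ = ⟪ζ, A ζ' + B ω'⟫_ℂ + ⟪ω, C ζ' + D ω'⟫_ℂ := by
    intro ζ ω ζ' ω'
    have h1 := horth ζ' ω' _ (hmem ζ ω)
    have h2 := horth ζ ω _ (hmem ζ' ω')
    simp only [inner_sub_right] at h1 h2
    have h3 := congrArg (starRingEnd ℂ) h2
    simp only [map_add, map_sub, inner_conj_symm, map_zero] at h3
    linear_combination h1 - h3
  have hB : star C = B := by
    rw [ContinuousLinearMap.star_eq_adjoint]
    symm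
    rw [ContinuousLinearMap.eq_adjoint_iff]
    intro ω ζ
    have := hsym 0 ω ζ 0
    simpa using this
  have hA : star A = A := by
    rw [ContinuousLinearMap.star_eq_adjoint]
    symm
    rw [ContinuousLinearMap.eq_adjoint_iff]
    intro ω ζ
    have := hsym ω 0 ζ 0
    simpa using this
  have hD : star D = D := by
    rw [ContinuousLinearMap.star_eq_adjoint]
    symm
    rw [ContinuousLinearMap.eq_adjoint_iff]
    intro ω ζ
    have := hsym 0 ω 0 ζ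
    simpa using this
  -- uniqueness
  have huniq : ∀ ζ ω : H, ∀ q ∈ G,
      (∀ p ∈ G, ⟪p.1, ζ - q.1⟫_ℂ + ⟪p.2, ω - q.2⟫_ℂ = 0) → q = (A ζ + B ω, C ζ + D ω) := by
    intro ζ ω q hq h
    have hd := G.sub_mem (hmem ζ ω) hq
    have h1 := h _ hd
    have h2 := horth ζ ω _ hd
    have h3 : ⟪A ζ + B ω - q.1, A ζ + B ω - q.1⟫_ℂ + ⟪C ζ + D ω - q.2, C ζ + D ω - q.2⟫_ℂ = 0 := by
      simp only [Prod.fst_sub, Prod.snd_sub, inner_sub_right] at h1 h2 ⊢
      linear_combination h1 - h2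
    rw [inner_self_eq_norm_sq_to_K, inner_self_eq_norm_sq_to_K] at h3
    have h4 : ‖A ζ + B ω - q.1‖ ^ 2 + ‖C ζ + D ω - q.2‖ ^ 2 = 0 := by
      apply Complex.ofReal_injective
      push_cast
      exact h3
    have h5 : ‖A ζ + B ω - q.1‖ ^ 2 = 0 := by nlinarith [sq_nonneg ‖A ζ + B ω - q.1‖, sq_nonneg ‖C ζ + D ω - q.2‖]
    have h6 : ‖C ζ + D ω - q.2‖ ^ 2 = 0 := by nlinarith [sq_nonneg ‖A ζ + B ω - q.1‖, sq_nonneg ‖C ζ + D ω - q.2‖]
    have h7 : A ζ + B ω = q.1 := by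
      rw [← sub_eq_zero]; simpa using h5
    have h8 : C ζ + D ω = q.2 := by
      rw [← sub_eq_zero]; simpa using h6
    rw [h7, h8]
  -- commutation
  have hcomm : ∀ u ∈ N.commutant, ∀ ζ ω : H,
      u (A ζ + B ω) = A (u ζ) + B (u ω) ∧ u (C ζ + D ω) = C (u ζ) + D (u ω) := by
    intro u hu ζ ω
    have hsu : star u ∈ N.commutant := star_mem hu
    have h := huniq (u ζ) (u ω) _ (hinv u hu _ (hmem ζ ω)) (by
      intro p hp
      have h1 := horth ζ ω _ (hinv _ hsu p hp)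
      simp only [ContinuousLinearMap.star_eq_adjoint, ContinuousLinearMap.adjoint_inner_left,
        map_sub] at h1
      exact h1)
    exact ⟨congrArg Prod.fst h, congrArg Prod.snd h⟩
  have hN : ∀ X : H →L[ℂ] H, (∀ u ∈ N.commutant, ∀ ζ, u (X ζ) = X (u ζ)) → X ∈ N := by
    intro X hX
    rw [← VonNeumannAlgebra.commutant_commutant N, VonNeumannAlgebra.mem_commutant_iff]
    intro u hu
    ext ζ
    exact hX u hu ζ
  refine ⟨A, C, D, ?_, ?_, ?_, hA, hD, ?_, ?_⟩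
  · apply hN
    intro u hu ζ
    simpa using (hcomm u hu ζ 0).1
  · apply hN
    intro u hu ζ
    simpa using (hcomm u hu ζ 0).2
  · apply hN
    intro u hu ζ
    simpa using (hcomm u hu 0 ζ).2
  · intro ζ ω
    rw [hB]
    exact hmem ζ ω
  · intro ζ ω p hp
    rw [hB]
    exact horth ζ ω p hp

/-- A closed invariant densely defined `G` contains the graph of a pair `(P, Q)` of elements of `N`
with `P` injective (`P ζ = 0` implies `(ζ, 0) ⟂ G`). -/
theorem exists_pair (N : VonNeumannAlgebra H) (G : Submodule ℂ (H × H))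
    (hG : IsClosed (G : Set (H × H))) (hinv : Inv N G)
    (hd : Dense {ζ : H | ∃ ω, (ζ, ω) ∈ G}) :
    ∃ P ∈ N, ∃ Q ∈ N, (∀ ζ, P ζ = 0 → ζ = 0) ∧ ∀ ζ, (P ζ, Q ζ) ∈ G := by
  obtain ⟨P, Q, R, hP, hQ, -, -, -, hmem, horth⟩ := proj_blocks N G hG hinv
  have hmem0 : ∀ ζ, (P ζ, Q ζ) ∈ G := by
    intro ζ
    simpa using hmem ζ 0
  refine ⟨P, hP, Q, hQ, ?_, hmem0⟩
  intro ζ hζ
  -- `Q ζ = 0`
  have hQζ : Q ζ = 0 := by
    have h := horth ζ 0 _ (hmem0 ζ)
    simp only [map_zero, add_zero, hζ, sub_zero, inner_zero_left, zero_sub, zero_add,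
      inner_neg_right, neg_eq_zero] at h
    simpa using h
  have horth' : ∀ p ∈ G, ⟪p.1, ζ⟫_ℂ = 0 := by
    intro p hp
    have h := horth ζ 0 p hp
    simpa [hζ, hQζ] using h
  have hall : ∀ η : H, ⟪η, ζ⟫_ℂ = 0 := by
    intro η
    have hcl : IsClosed {η : H | ⟪η, ζ⟫_ℂ = 0} :=
      isClosed_eq (continuous_id.inner continuous_const) continuous_const
    have hsub : {ζ : H | ∃ ω, (ζ, ω) ∈ G} ⊆ {η : H | ⟪η, ζ⟫_ℂ = 0} := by
      rintro x ⟨ω, hx⟩
      exact horth' _ hx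
    have h1 := hcl.closure_subset_iff.2 hsub
    exact h1 (hd η)
  exact inner_self_eq_zero.1 (hall ζ)

end

end Pool.H62.UC
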