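import Pool.Agent.H62.UC.LeftB
import Pool.Agent.H62.UC.Nk
import Pool.Agent.H62.UC.Frac

/-!
# PAIR: the block relation with a fraction
-/

namespace Pool.H62.UC

open scoped InnerProductSpace TensorProduct ComplexConjugate
open Filter Topology

noncomputable section


variable {H : Type*} [NormedAddCommGroup H] [InnerProductSpace ℂ H] [CompleteSpace H]
variable {K : Type*} [NormedAddCommGroup K] [InnerProductSpace ℂ K] [CompleteSpace K]

/-- `l a` is injective if `a` is -/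
theorem pair_l_inj (S : Std H K) {a : H →L[ℂ] H} (ha : ∀ ξ, a ξ = 0 → ξ = 0) (κ : K)
    (h : S.l a κ = 0) : κ = 0 := by
  have h1 : S.T.L 1 κ = 0 := S.T.L_ker a 1 (fun ξ hξ => by rw [ha ξ hξ]; simp) κ h
  rw [map_one] at h1
  exact h1

/-- `left_block` and `frac` with `A = l a`; multiply the relation by `B`, which commutes with `l`
and `r`; cancel the injective `w * a` (`Coarse.L_ker`), using that `e` is central. -/
theorem block_pair (S : Std H K) (Gr : Submodule ℂ ((H →L[ℂ] H) × K)) (hG : BClosed S Gr)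
    (hUA : UA S Gr) (v : ℕ → H →L[ℂ] H) (hv : ∀ n, v n ∈ UM S) (e : H →L[ℂ] H)
    (he : IsStarProjection e) (heM : e ∈ S.M) (hec : ∀ x ∈ S.M, e * x = x * e)
    (hw : ∀ ζ ω : H, Tendsto (fun n => ⟪ζ, v n ω⟫_ℂ) atTop (𝓝 ⟪ζ, e ω⟫_ℂ))
    (p : ℕ → (H →L[ℂ] H) × K) (hp : ∀ k, p k ∈ Gr) :
    ∃ A ∈ NK S, ∃ β : K, ∃ B ∈ (NK S).commutant, ∃ c : K, (∀ ξ, A ξ = 0 → ξ = 0) ∧
      (∀ ξ, B ξ = 0 → ξ = 0) ∧ A c = B β ∧
      ∀ k, S.l (1 - e) (B (p k).2 - (S.l (p k).1 c - S.r (p k).1 c)) = 0 := by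
  obtain ⟨a, haM, β, hainj, hrel⟩ := left_block S Gr hG hUA v hv e he heM hw p hp
  obtain ⟨B, hB, c, hBinj, hAc⟩ := frac (NK S) (S.T.tp S.Ω S.Ω) (isTV_NK S) (S.l a)
    (l_mem_NK S haM) (pair_l_inj S hainj) β
  refine ⟨S.l a, l_mem_NK S haM, β, B, hB, c, pair_l_inj S hainj, hBinj, hAc, fun k => ?_⟩
  obtain ⟨w, hwM, z, hzM, hwinj, hwa, hz⟩ := hrel k
  have hx : (p k).1 ∈ S.M := hG.mem _ (hp k)
  have h1e : (1 - e) ∈ S.M := sub_mem S.one_mem heM
  rw [VonNeumannAlgebra.mem_commutant_iff] at hB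
  have hBl : ∀ x ∈ S.M, ∀ κ : K, B (S.l x κ) = S.l x (B κ) := fun x hx κ =>
    (congrArg (fun T : K →L[ℂ] K => T κ) (hB _ (l_mem_NK S hx))).symm
  have hBr : ∀ x ∈ S.M, ∀ κ : K, B (S.r x κ) = S.r x (B κ) := fun x hx κ =>
    (congrArg (fun T : K →L[ℂ] K => T κ) (hB _ (r_mem_NK S hx))).symm
  have h2 := congrArg B hz
  rw [map_zero, hBl _ h1e, map_sub, map_add, hBl _ hwM, hBr _ hx, hBl _ (mul_mem hwM haM),
    hBl _ hzM, ← hAc] at h2
  have h3 : S.l w (S.r (p k).1 (S.l a c)) = S.l (w * a) (S.r (p k).1 c) := by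
    rw [← S.lr_comm, S.l_mul]; rfl
  have h4 : S.l z (S.l a c) = S.l (w * a) (S.l (p k).1 c) := by
    have : S.l z (S.l a c) = S.l (z * a) c := by rw [S.l_mul]; rfl
    rw [this, ← hwa, S.l_mul (w * a)]; rfl
  rw [h3, h4] at h2
  have h5 : S.l (w * a) (S.l (1 - e) (B (p k).2 - (S.l (p k).1 c - S.r (p k).1 c))) = 0 := by
    have hc : (w * a) * (1 - e) = (1 - e) * (w * a) := by
      rw [mul_sub, sub_mul, mul_one, one_mul, hec _ (mul_mem hwM haM)]
    have h6 : S.l (w * a) (S.l (1 - e) (B (p k).2 - (S.l (p k).1 c - S.r (p k).1 c))) =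
        S.l (1 - e) (S.l (w * a) (B (p k).2 - (S.l (p k).1 c - S.r (p k).1 c))) := by
      have := congrArg (fun T : K →L[ℂ] K => T (B (p k).2 - (S.l (p k).1 c - S.r (p k).1 c)))
        ((S.l_mul (w * a) (1 - e)).symm.trans ((congrArg S.l hc).trans (S.l_mul (1 - e) (w * a))))
      exact this
    rw [h6, map_sub (S.l (w * a)), map_sub (S.l (w * a)), ← h2]
    congr 1
    abel
  refine pair_l_inj S ?_ _ h5
  intro ξ hξ
  exact hainj _ (hwinj _ hξ)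

end

end Pool.H62.UC
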