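import Pool.Agent.H62.UC.StarA
import Pool.Agent.H62.UC.Kap
import Pool.Agent.H62.UC.ExtM

/-!
# POSA: selections, extension of the Leibniz relation to the generated algebra
-/

namespace Pool.H62.UC

open scoped InnerProductSpace TensorProduct ComplexConjugate
open Filter Topology

noncomputable section


variable {H : Type*} [NormedAddCommGroup H] [InnerProductSpace ℂ H] [CompleteSpace H]
variable {K : Type*} [NormedAddCommGroup K] [InnerProductSpace ℂ K] [CompleteSpace K]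

/-- choice in `UA` (with `C` replaced by `max C 0`; unitaries have norm `≤ 1`) -/
theorem exists_sel (S : Std H K) (Gr : Submodule ℂ ((H →L[ℂ] H) × K)) (hUA : UA S Gr) (ε : ℝ)
    (hε : 0 < ε) : ∃ (Y : (H →L[ℂ] H) → (H →L[ℂ] H)) (dY : (H →L[ℂ] H) → K) (C : ℝ),
      Sel S Gr Y dY C ε := by
  obtain ⟨C, hC⟩ := hUA ε hε
  have h : ∀ g : H →L[ℂ] H, ∃ p : (H →L[ℂ] H) × K, g ∈ UM S →
      (p ∈ Gr ∧ ‖p.1‖ ≤ 5 ∧ ‖p.1 S.Ω - g S.Ω‖ ≤ ε ∧ ‖p.2‖ ≤ max C 0) := by
    intro g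
    by_cases hg : g ∈ UM S
    · obtain ⟨p, hp, h5, he, hc⟩ := hC g hg.1 (UM_norm S hg)
      exact ⟨p, fun _ => ⟨hp, h5, he, hc.trans (le_max_left _ _)⟩⟩
    · exact ⟨0, fun h => absurd h hg⟩
  choose p hp using h
  refine ⟨fun g => (p g).1, fun g => (p g).2, max C 0, ?_⟩
  refine ⟨le_max_right _ _, fun g hg => (hp g hg).1, fun g hg => (hp g hg).2.1,
    fun g hg => (hp g hg).2.2.2, fun g hg => ?_⟩
  exact (hp g hg).2.2.1

/-- extension of the Leibniz relation from `A` to its double commutant: `kap` with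
`P y = ((a y b, a y · γ + β · y b) ∈ Gr)`, `dc_closure`, `BClosed.ext_mem`, `Std.l_tendsto`,
`Std.r_tendsto` -/
theorem rel_extend (S : Std H K) (Gr : Submodule ℂ ((H →L[ℂ] H) × K)) (hG : BClosed S Gr)
    (A : StarSubalgebra ℂ (H →L[ℂ] H)) (hA : ∀ x ∈ A, x ∈ S.M) (a b : H →L[ℂ] H) (ha : a ∈ S.M)
    (hb : b ∈ S.M) (β γ : K)
    (h : ∀ y ∈ A, (a * y * b, S.l (a * y) γ + S.r (y * b) β) ∈ Gr) :
    ∀ y ∈ vnGen A, (a * y * b, S.l (a * y) γ + S.r (y * b) β) ∈ Gr := by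
  intro y hy
  have hyM : y ∈ S.M := vnGen_le A S.M hA hy
  refine kap S A hA (fun y => (a * y * b, S.l (a * y) γ + S.r (y * b) β) ∈ Gr) h ?_ ?_ ?_ y hyM
    (dc_closure A y ((mem_vnGen A y).1 hy) S.Ω)
  · intro x hx z hz h1 h2
    have h3 := Gr.add_mem h1 h2
    have h4 : (a * x * b, S.l (a * x) γ + S.r (x * b) β) + (a * z * b, S.l (a * z) γ + S.r (z * b) β)
        = (a * (x + z) * b, S.l (a * (x + z)) γ + S.r ((x + z) * b) β) := by
      rw [mul_add, add_mul, add_mul, S.l_add, S.r_add (mul_mem hx hb) (mul_mem hz hb),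
        Prod.mk_add_mk, add_apply, add_apply]
      congr 1
      abel
    rwa [h4] at h3
  · intro c x hx h1
    have h3 := Gr.smul_mem c h1
    have h4 : c • (a * x * b, S.l (a * x) γ + S.r (x * b) β)
        = (a * (c • x) * b, S.l (a * (c • x)) γ + S.r ((c • x) * b) β) := by
      rw [mul_smul_comm, smul_mul_assoc, smul_mul_assoc, S.l_smul, S.r_smul c (mul_mem hx hb),
        Prod.smul_mk, smul_apply, smul_apply, smul_add]
    rwa [h4] at h3
  · intro x z C hx hC hP hz ht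
    have hC0 : 0 ≤ C := (norm_nonneg _).trans (hC 0)
    refine (hG.ext_mem (fun k => a * x k * b) (fun k => S.l (a * x k) γ + S.r (x k * b) β)
      (a * z * b) _ (‖a‖ * C * ‖b‖) hP (fun k => ?_) (mul_mem (mul_mem ha hz) hb) ?_ ?_).1
    · calc ‖a * x k * b‖ ≤ ‖a * x k‖ * ‖b‖ := norm_mul_le _ _
        _ ≤ ‖a‖ * ‖x k‖ * ‖b‖ := by gcongr; exact norm_mul_le _ _
        _ ≤ ‖a‖ * C * ‖b‖ := by gcongr; exact hC k
    · have h1 := S.tendsto_of hx hz hC ht (b S.Ω)
      exact (a.continuous.tendsto _).comp h1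
    · have h1 := S.l_tendsto hx hz hC ht γ
      have h2 := S.r_tendsto hx hz hC ht β
      have h3 := ((S.l a).continuous.tendsto _).comp h1
      have h4 := ((S.r b).continuous.tendsto _).comp h2
      rw [S.l_mul, S.r_mul hz hb]
      refine (h3.add h4).congr fun k => ?_
      rw [S.l_mul, S.r_mul (hx k) hb]
      rfl

end

end Pool.H62.UC
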