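import Pool.Agent.H62.UC.ExtM

/-!
# POSB: positive combinations of Leibniz elements
-/

namespace Pool.H62.UC

open scoped InnerProductSpace TensorProduct ComplexConjugate
open Filter Topology

noncomputable section


variable {H : Type*} [NormedAddCommGroup H] [InnerProductSpace ℂ H] [CompleteSpace H]
variable {K : Type*} [NormedAddCommGroup K] [InnerProductSpace ℂ K] [CompleteSpace K]

theorem posB_apply {A : ℕ → H →L[ℂ] H} {A₀ : H →L[ℂ] H} {v : ℕ → H} {v₀ : H}
    (hA : Tendsto A atTop (𝓝 A₀)) (hv : Tendsto v atTop (𝓝 v₀)) :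
    Tendsto (fun n => A n (v n)) atTop (𝓝 (A₀ v₀)) :=
  ((isBoundedBilinearMap_apply (𝕜 := ℂ) (E := H) (F := H)).continuous.tendsto (A₀, v₀)).comp
    (hA.prodMk_nhds hv)

theorem posB_vec (v : ℕ → K) (h : ∀ i, ‖v i‖ ≤ 10 * (1 / 2) ^ i) :
    ∃ w : K, Tendsto (fun n => ∑ i ∈ Finset.range n, v i) atTop (𝓝 w) := by
  have h1 : Summable v :=
    Summable.of_norm_bounded (g := fun i : ℕ => (10 : ℝ) * (1 / 2) ^ i)
      (summable_geometric_two.mul_left 10) h
  exact ⟨_, h1.hasSum.tendsto_sum_nat⟩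

theorem posB_mem (N : VonNeumannAlgebra H) (x : ℕ → H →L[ℂ] H) (y : H →L[ℂ] H)
    (hx : ∀ n, x n ∈ N) (h : Tendsto x atTop (𝓝 y)) : y ∈ N := by
  rw [← N.commutant_commutant, VonNeumannAlgebra.mem_commutant_iff]
  intro g hg
  rw [VonNeumannAlgebra.mem_commutant_iff] at hg
  have h1 : Tendsto (fun n => g * x n) atTop (𝓝 (g * y)) := h.const_mul g
  have h2 : Tendsto (fun n => x n * g) atTop (𝓝 (y * g)) := h.mul_const g
  have h3 : (fun n => g * x n) = fun n => x n * g := funext fun n => (hg (x n) (hx n)).symm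
  rw [h3] at h1
  exact tendsto_nhds_unique h1 h2

theorem posB_sum (N : VonNeumannAlgebra H) (c : ℕ → H →L[ℂ] H) (lam : ℕ → ℝ)
    (hlam0 : ∀ i, 0 < lam i) (hlam1 : ∀ i, lam i ≤ (1 / 2) ^ i) (hc : ∀ i, c i ∈ N)
    (hc' : ∀ i, ‖c i‖ ≤ 10) :
    ∃ P ∈ N, Tendsto (fun n => ∑ i ∈ Finset.range n, (lam i : ℂ) • (star (c i) * c i)) atTop
      (𝓝 P) ∧ ∀ ξ, P ξ = 0 → ∀ i, c i ξ = 0 := by
  have h1 : Summable (fun i => (lam i : ℂ) • (star (c i) * c i)) := by
    refine Summable.of_norm_bounded (g := fun i : ℕ => (100 : ℝ) * (1 / 2) ^ i)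
      (summable_geometric_two.mul_left 100) (fun i => ?_)
    rw [norm_smul, Complex.norm_real, Real.norm_of_nonneg (hlam0 i).le]
    have h2 : ‖star (c i) * c i‖ ≤ 100 := by
      refine (norm_mul_le _ _).trans ?_
      rw [_root_.norm_star]
      nlinarith [hc' i, norm_nonneg (c i)]
    calc lam i * ‖star (c i) * c i‖ ≤ (1 / 2) ^ i * 100 :=
          mul_le_mul (hlam1 i) h2 (norm_nonneg _) (by positivity)
      _ = _ := by ring
  have h2 := h1.hasSum.tendsto_sum_nat
  refine ⟨_, posB_mem N _ _ (fun n => sum_mem fun i _ =>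
    N.toStarSubalgebra.smul_mem (mul_mem (star_mem (hc i)) (hc i)) _) h2, h2, ?_⟩
  intro ξ hξ k
  have h3 : Tendsto (fun n => (⟪ξ, (∑ i ∈ Finset.range n,
      (lam i : ℂ) • (star (c i) * c i)) ξ⟫_ℂ).re) atTop (𝓝 0) := by
    have h4 := posB_apply h2 (tendsto_const_nhds (x := ξ))
    rw [hξ] at h4
    have h5 := (Complex.continuous_re.tendsto _).comp
      ((tendsto_const_nhds (x := ξ) (f := (atTop : Filter ℕ))).inner (𝕜 := ℂ) h4)
    rw [inner_zero_right, Complex.zero_re] at h5
    exact h5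
  have h6 : ∀ n, (⟪ξ, (∑ i ∈ Finset.range n, (lam i : ℂ) • (star (c i) * c i)) ξ⟫_ℂ).re =
      ∑ i ∈ Finset.range n, lam i * ‖c i ξ‖ ^ 2 := by
    intro n
    rw [sum_apply, inner_sum, Complex.re_sum]
    refine Finset.sum_congr rfl fun i _ => ?_
    have h7 : ⟪ξ, ((lam i : ℂ) • (star (c i) * c i)) ξ⟫_ℂ =
        (lam i : ℂ) * ⟪c i ξ, c i ξ⟫_ℂ := by
      change ⟪ξ, (lam i : ℂ) • (star (c i)) (c i ξ)⟫_ℂ = _
      rw [inner_smul_right, ContinuousLinearMap.star_eq_adjoint,
        ContinuousLinearMap.adjoint_inner_right]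
    rw [h7, inner_self_eq_norm_sq_to_K, Complex.re_ofReal_mul]
    norm_cast
  have h8 : lam k * ‖c k ξ‖ ^ 2 ≤ 0 := by
    refine ge_of_tendsto h3 ?_
    filter_upwards [eventually_gt_atTop k] with n hn
    rw [h6]
    exact Finset.single_le_sum (f := fun i => lam i * ‖c i ξ‖ ^ 2)
      (fun i _ => mul_nonneg (hlam0 i).le (sq_nonneg _)) (Finset.mem_range.2 hn)
  have h9 : ‖c k ξ‖ ^ 2 ≤ 0 := by
    by_contra hne
    exact absurd h8 (not_le.2 (mul_pos (hlam0 k) (not_le.1 hne)))
  exact norm_eq_zero.1 (pow_eq_zero_iff (two_ne_zero)|>.1 (le_antisymm h9 (sq_nonneg _)))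

/-- `a' = ∑ λ_i a_i a_i*`, `β' = ∑ λ_i β_i · a_i*`, `b' = ∑ μ_j b_j* b_j`, `γ' = ∑ μ_j b_j* · γ_j`,
with summable weights (`λ_i = 2^{-i} / (1 + ‖β_i‖)`, `μ_j = 2^{-j} / (1 + ‖γ_j‖)`); insert
`a_i* y b_j*` for `y` in the relation, sum (partial sums are bounded: `BClosed.ext_mem`).
Kernel: `⟪ξ, a' ξ⟫ = ∑ λ_i ‖a_i* ξ‖²`, and `a_i* → 1 - e` strongly (`Std.norm_star`,
`Std.tendsto_of`). -/
theorem pos_combine (S : Std H K) (Gr : Submodule ℂ ((H →L[ℂ] H) × K)) (hG : BClosed S Gr)
    (N : VonNeumannAlgebra H) (hN : ∀ z ∈ N, z ∈ S.M) (e : H →L[ℂ] H) (he : IsStarProjection e)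
    (heM : e ∈ S.M) (a b : ℕ → H →L[ℂ] H) (β γ : ℕ → K) (ha : ∀ i, a i ∈ N) (hb : ∀ i, b i ∈ N)
    (ha' : ∀ i, ‖a i‖ ≤ 10) (hb' : ∀ i, ‖b i‖ ≤ 10)
    (hrel : ∀ i j, ∀ y ∈ N, (a i * y * b j, S.l (a i * y) (γ j) + S.r (y * b j) (β i)) ∈ Gr)
    (hae : Tendsto (fun i => a i S.Ω) atTop (𝓝 ((1 - e) S.Ω)))
    (hbe : Tendsto (fun i => b i S.Ω) atTop (𝓝 S.Ω)) :
    ∃ a' ∈ N, ∃ b' ∈ N, ∃ β' γ' : K, (∀ ξ, a' ξ = 0 → (1 - e) ξ = 0) ∧ (∀ ξ, b' ξ = 0 → ξ = 0) ∧
      ∀ y ∈ N, (a' * y * b', S.l (a' * y) γ' + S.r (y * b') β') ∈ Gr := by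
  -- the weights
  set lam : ℕ → ℝ := fun i => (1 / 2) ^ i / (1 + ‖β i‖) with hlam
  set mu : ℕ → ℝ := fun i => (1 / 2) ^ i / (1 + ‖γ i‖) with hmu
  have hlam0 : ∀ i, 0 < lam i := fun i => by positivity
  have hmu0 : ∀ i, 0 < mu i := fun i => by positivity
  have hlam1 : ∀ i, lam i ≤ (1 / 2) ^ i := fun i =>
    div_le_self (by positivity) (by linarith [norm_nonneg (β i)])
  have hmu1 : ∀ i, mu i ≤ (1 / 2) ^ i := fun i =>
    div_le_self (by positivity) (by linarith [norm_nonneg (γ i)])
  have hlamβ : ∀ i, lam i * ‖β i‖ ≤ (1 / 2) ^ i := fun i => by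
    simp only [hlam]
    rw [div_mul_eq_mul_div, div_le_iff₀ (by positivity)]
    exact mul_le_mul_of_nonneg_left (by linarith) (by positivity)
  have hmuγ : ∀ i, mu i * ‖γ i‖ ≤ (1 / 2) ^ i := fun i => by
    simp only [hmu]
    rw [div_mul_eq_mul_div, div_le_iff₀ (by positivity)]
    exact mul_le_mul_of_nonneg_left (by linarith) (by positivity)
  have hgeo : Summable (fun i : ℕ => ((1 : ℝ) / 2) ^ i) := summable_geometric_two
  have hstar : ∀ x : H →L[ℂ] H, ‖star x‖ = ‖x‖ := fun x => _root_.norm_star x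
  obtain ⟨a', ha'N, hA, haker⟩ := posB_sum N (fun i => star (a i)) lam hlam0 hlam1
    (fun i => star_mem (ha i)) (fun i => by rw [hstar]; exact ha' i)
  obtain ⟨b', hb'N, hB, hbker⟩ := posB_sum N b mu hmu0 hmu1 hb hb'
  simp only [star_star] at hA
  obtain ⟨β', hβ'⟩ : ∃ β' : K, Tendsto
      (fun n => ∑ i ∈ Finset.range n, (lam i : ℂ) • S.r (star (a i)) (β i)) atTop (𝓝 β') := by
    refine posB_vec _ (fun i => ?_)
    have h1 : ‖S.r (star (a i)) (β i)‖ ≤ 10 * ‖β i‖ := by
      refine ((S.r (star (a i))).le_opNorm _).trans (mul_le_mul_of_nonneg_right ?_ (norm_nonneg _))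
      refine (S.r_norm_le (hN _ (star_mem (ha i)))).trans ?_
      rw [hstar]; exact ha' i
    rw [norm_smul, Complex.norm_real, Real.norm_of_nonneg (hlam0 i).le]
    calc lam i * ‖S.r (star (a i)) (β i)‖ ≤ lam i * (10 * ‖β i‖) :=
          mul_le_mul_of_nonneg_left h1 (hlam0 i).le
      _ = 10 * (lam i * ‖β i‖) := by ring
      _ ≤ 10 * (1 / 2) ^ i := mul_le_mul_of_nonneg_left (hlamβ i) (by norm_num)
  obtain ⟨γ', hγ'⟩ : ∃ γ' : K, Tendsto
      (fun n => ∑ i ∈ Finset.range n, (mu i : ℂ) • S.l (star (b i)) (γ i)) atTop (𝓝 γ') := by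
    refine posB_vec _ (fun i => ?_)
    have h1 : ‖S.l (star (b i)) (γ i)‖ ≤ 10 * ‖γ i‖ := by
      refine ((S.l (star (b i))).le_opNorm _).trans (mul_le_mul_of_nonneg_right ?_ (norm_nonneg _))
      refine (S.l_norm_le _).trans ?_
      rw [hstar]; exact hb' i
    rw [norm_smul, Complex.norm_real, Real.norm_of_nonneg (hmu0 i).le]
    calc mu i * ‖S.l (star (b i)) (γ i)‖ ≤ mu i * (10 * ‖γ i‖) :=
          mul_le_mul_of_nonneg_left h1 (hmu0 i).le
      _ = 10 * (mu i * ‖γ i‖) := by ring
      _ ≤ 10 * (1 / 2) ^ i := mul_le_mul_of_nonneg_left (hmuγ i) (by norm_num)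
  refine ⟨a', ha'N, b', hb'N, β', γ', ?_, ?_, ?_⟩
  · intro ξ hξ
    have h1 := haker ξ hξ
    have h1e : star (1 - e) = 1 - e := by
      rw [star_sub, star_one, he.isSelfAdjoint.star_eq]
    have h1M : (1 - e) ∈ S.M := sub_mem S.one_mem heM
    have h2 : Tendsto (fun i => (star (a i)) S.Ω) atTop (𝓝 ((1 - e) S.Ω)) := by
      rw [tendsto_iff_norm_sub_tendsto_zero] at hae ⊢
      refine hae.congr fun i => ?_
      have h3 := S.norm_star (sub_mem (hN _ (ha i)) h1M)
      rw [star_sub, h1e] at h3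
      exact h3.symm
    have h4 := S.tendsto_of (fun i => hN _ (star_mem (ha i))) h1M
      (fun i => by rw [hstar]; exact ha' i) h2 ξ
    have h5 : (fun i => (star (a i)) ξ) = fun _ => (0 : H) := funext h1
    rw [h5] at h4
    exact (tendsto_nhds_unique h4 tendsto_const_nhds)
  · intro ξ hξ
    have h1 := hbker ξ hξ
    have h4 := S.tendsto_of (y := 1) (fun i => hN _ (hb i)) S.one_mem hb' hbe ξ
    have h5 : (fun i => (b i) ξ) = fun _ => (0 : H) := funext h1
    rw [h5] at h4
    exact (tendsto_nhds_unique h4 tendsto_const_nhds)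
  · intro y hy
    -- finite sums
    have hrel1 : ∀ (j n : ℕ) (y : H →L[ℂ] H), y ∈ N →
        ((∑ i ∈ Finset.range n, (lam i : ℂ) • (a i * star (a i))) * y * (star (b j) * b j),
          S.l ((∑ i ∈ Finset.range n, (lam i : ℂ) • (a i * star (a i))) * y)
              (S.l (star (b j)) (γ j)) +
            S.r (y * (star (b j) * b j))
              (∑ i ∈ Finset.range n, (lam i : ℂ) • S.r (star (a i)) (β i))) ∈ Gr := by
      intro j n y hy
      induction n with
      | zero =>
        have h0 : S.l ((0 : H →L[ℂ] H)) = 0 := by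
          have := S.l_smul 0 (0 : H →L[ℂ] H)
          simpa using this
        simp only [Finset.range_zero, Finset.sum_empty, zero_mul, map_zero, add_zero, h0]
        exact Gr.zero_mem
      | succ n ih =>
        have h1 := hrel n j (star (a n) * y * star (b j))
          (mul_mem (mul_mem (star_mem (ha n)) hy) (star_mem (hb j)))
        have h2 := Gr.add_mem ih (Gr.smul_mem (lam n : ℂ) h1)
        rw [Finset.sum_range_succ, Finset.sum_range_succ]
        convert h2 using 1
        rw [Prod.smul_mk, Prod.mk_add_mk]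
        refine Prod.ext ?_ ?_
        · simp only [add_mul, smul_mul_assoc, mul_assoc]
        · have e1 : S.l ((∑ x ∈ Finset.range n, (lam x : ℂ) • (a x * star (a x)) +
              (lam n : ℂ) • (a n * star (a n))) * y) (S.l (star (b j)) (γ j)) =
              S.l ((∑ x ∈ Finset.range n, (lam x : ℂ) • (a x * star (a x))) * y)
                (S.l (star (b j)) (γ j)) +
              (lam n : ℂ) • S.l (a n * (star (a n) * y * star (b j))) (γ j) := by
            have e2 : a n * (star (a n) * y * star (b j)) = (a n * star (a n) * y) * star (b j) := by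
              simp only [mul_assoc]
            rw [add_mul, S.l_add, e2, S.l_mul (a n * star (a n) * y), smul_mul_assoc, S.l_smul]
            rfl
          have e3 : S.r (y * (star (b j) * b j))
              (∑ i ∈ Finset.range n, (lam i : ℂ) • S.r (star (a i)) (β i) +
                (lam n : ℂ) • S.r (star (a n)) (β n)) =
              S.r (y * (star (b j) * b j))
                (∑ i ∈ Finset.range n, (lam i : ℂ) • S.r (star (a i)) (β i)) +
              (lam n : ℂ) • S.r (star (a n) * y * star (b j) * b j) (β n) := by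
            have e4 : star (a n) * y * star (b j) * b j =
                star (a n) * (y * (star (b j) * b j)) := by
              simp only [mul_assoc]
            rw [map_add, map_smul, e4, S.r_mul (hN _ (star_mem (ha n)))
              (hN _ (mul_mem hy (mul_mem (star_mem (hb j)) (hb j))))]
            rfl
          simp only [e1, e3, smul_add]
          abel
    have hAN : ∀ n, (∑ i ∈ Finset.range n, (lam i : ℂ) • (a i * star (a i))) ∈ N := fun n =>
      sum_mem fun i _ => N.toStarSubalgebra.smul_mem (mul_mem (ha i) (star_mem (ha i))) _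
    have hBN : ∀ n, (∑ i ∈ Finset.range n, (mu i : ℂ) • (star (b i) * b i)) ∈ N := fun n =>
      sum_mem fun i _ => N.toStarSubalgebra.smul_mem (mul_mem (star_mem (hb i)) (hb i)) _
    have hrel2 : ∀ (n m : ℕ),
        ((∑ i ∈ Finset.range n, (lam i : ℂ) • (a i * star (a i))) * y *
            (∑ j ∈ Finset.range m, (mu j : ℂ) • (star (b j) * b j)),
          S.l ((∑ i ∈ Finset.range n, (lam i : ℂ) • (a i * star (a i))) * y)
              (∑ j ∈ Finset.range m, (mu j : ℂ) • S.l (star (b j)) (γ j)) +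
            S.r (y * (∑ j ∈ Finset.range m, (mu j : ℂ) • (star (b j) * b j)))
              (∑ i ∈ Finset.range n, (lam i : ℂ) • S.r (star (a i)) (β i))) ∈ Gr := by
      intro n m
      induction m with
      | zero =>
        have h0 : S.r ((0 : H →L[ℂ] H)) = 0 := by
          have := S.r_smul 0 (y := (0 : H →L[ℂ] H)) (zero_mem _)
          simpa using this
        simp only [Finset.range_zero, Finset.sum_empty, mul_zero, map_zero, zero_add, h0]
        exact Gr.zero_mem
      | succ m ih =>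
        have h2 := Gr.add_mem ih (Gr.smul_mem (mu m : ℂ) (hrel1 m n y hy))
        rw [Finset.sum_range_succ, Finset.sum_range_succ]
        convert h2 using 1
        rw [Prod.smul_mk, Prod.mk_add_mk]
        refine Prod.ext ?_ ?_
        · simp only [mul_add, mul_smul_comm]
        · have e3 : S.r (y * (∑ j ∈ Finset.range m, (mu j : ℂ) • (star (b j) * b j) +
              (mu m : ℂ) • (star (b m) * b m))) =
              S.r (y * ∑ j ∈ Finset.range m, (mu j : ℂ) • (star (b j) * b j)) +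
              (mu m : ℂ) • S.r (y * (star (b m) * b m)) := by
            have hbb : y * (star (b m) * b m) ∈ S.M :=
              hN _ (mul_mem hy (mul_mem (star_mem (hb m)) (hb m)))
            rw [mul_add, mul_smul_comm, S.r_add (hN _ (mul_mem hy (hBN m)))
              (S.smul_mem _ hbb), S.r_smul _ hbb]
          simp only [e3, map_add, map_smul, add_apply, smul_apply, smul_add]
          abel
    -- norm bounds of the partial sums
    have hgs : ∀ n, ∑ i ∈ Finset.range n, ((1 : ℝ) / 2) ^ i ≤ 2 := by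
      intro n
      have h1 := hgeo.sum_le_tsum (Finset.range n) (fun i _ => by positivity)
      rwa [tsum_geometric_two] at h1
    have hAn : ∀ n, ‖∑ i ∈ Finset.range n, (lam i : ℂ) • (a i * star (a i))‖ ≤ 200 := by
      intro n
      have h1 : ∀ i ∈ Finset.range n, ‖(lam i : ℂ) • (a i * star (a i))‖ ≤ 100 * (1 / 2) ^ i := by
        intro i _
        rw [norm_smul, Complex.norm_real, Real.norm_of_nonneg (hlam0 i).le]
        have h2 : ‖a i * star (a i)‖ ≤ 100 := by
          refine (norm_mul_le _ _).trans ?_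
          rw [hstar]
          nlinarith [ha' i, norm_nonneg (a i)]
        calc lam i * ‖a i * star (a i)‖ ≤ (1 / 2) ^ i * 100 :=
              mul_le_mul (hlam1 i) h2 (norm_nonneg _) (by positivity)
          _ = _ := by ring
      refine (norm_sum_le_of_le _ h1).trans ?_
      rw [← Finset.mul_sum]
      linarith [hgs n]
    have hBn : ∀ n, ‖∑ i ∈ Finset.range n, (mu i : ℂ) • (star (b i) * b i)‖ ≤ 200 := by
      intro n
      have h1 : ∀ i ∈ Finset.range n, ‖(mu i : ℂ) • (star (b i) * b i)‖ ≤ 100 * (1 / 2) ^ i := by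
        intro i _
        rw [norm_smul, Complex.norm_real, Real.norm_of_nonneg (hmu0 i).le]
        have h2 : ‖star (b i) * b i‖ ≤ 100 := by
          refine (norm_mul_le _ _).trans ?_
          rw [hstar]
          nlinarith [hb' i, norm_nonneg (b i)]
        calc mu i * ‖star (b i) * b i‖ ≤ (1 / 2) ^ i * 100 :=
              mul_le_mul (hmu1 i) h2 (norm_nonneg _) (by positivity)
          _ = _ := by ring
      refine (norm_sum_le_of_le _ h1).trans ?_
      rw [← Finset.mul_sum]
      linarith [hgs n]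
    have hfin := hG.ext_mem
      (fun n => (∑ i ∈ Finset.range n, (lam i : ℂ) • (a i * star (a i))) * y *
            (∑ j ∈ Finset.range n, (mu j : ℂ) • (star (b j) * b j)))
      (fun n => S.l ((∑ i ∈ Finset.range n, (lam i : ℂ) • (a i * star (a i))) * y)
              (∑ j ∈ Finset.range n, (mu j : ℂ) • S.l (star (b j)) (γ j)) +
            S.r (y * (∑ j ∈ Finset.range n, (mu j : ℂ) • (star (b j) * b j)))
              (∑ i ∈ Finset.range n, (lam i : ℂ) • S.r (star (a i)) (β i)))
      (a' * y * b') (S.l (a' * y) γ' + S.r (y * b') β') (200 * ‖y‖ * 200)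
      (fun n => hrel2 n n) (fun n => ?_) (hN _ (mul_mem (mul_mem ha'N hy) hb'N)) ?_ ?_
    · exact hfin.1
    · refine (norm_mul_le _ _).trans ?_
      refine mul_le_mul ?_ (hBn n) (norm_nonneg _) (by positivity)
      refine (norm_mul_le _ _).trans ?_
      exact mul_le_mul_of_nonneg_right (hAn n) (norm_nonneg _)
    · have h1 := ((hA.mul_const y).mul hB)
      exact posB_apply h1 tendsto_const_nhds
    · refine Tendsto.add ?_ ?_
      · refine posB_apply ?_ hγ'
        rw [tendsto_iff_norm_sub_tendsto_zero]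
        have h1 := hA.mul_const y
        rw [tendsto_iff_norm_sub_tendsto_zero] at h1
        refine squeeze_zero (fun _ => norm_nonneg _) (fun n => ?_) h1
        rw [← S.l_sub]
        exact S.l_norm_le _
      · refine posB_apply ?_ hβ'
        rw [tendsto_iff_norm_sub_tendsto_zero]
        have h1 := hB.const_mul y
        rw [tendsto_iff_norm_sub_tendsto_zero] at h1
        refine squeeze_zero (fun _ => norm_nonneg _) (fun n => ?_) h1
        rw [← S.r_sub (hN _ (mul_mem hy (hBN n))) (hN _ (mul_mem hy hb'N))]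
        exact S.r_norm_le (sub_mem (hN _ (mul_mem hy (hBN n))) (hN _ (mul_mem hy hb'N)))

end

end Pool.H62.UC
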