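import Pool.Agent.H62.UC.JuncA
import Pool.Agent.H62.UC.MeanC

/-!
# STARA: definitions of the junction means; actions and means
`r_op`, `l_op`: test on simple tensors; `ρ (T i) (y Ω) = y (T i Ω)`.
-/

namespace Pool.H62.UC

open scoped InnerProductSpace TensorProduct ComplexConjugate
open Filter Topology

noncomputable section


variable {H : Type*} [NormedAddCommGroup H] [InnerProductSpace ℂ H] [CompleteSpace H]
variable {K : Type*} [NormedAddCommGroup K] [InnerProductSpace ℂ K] [CompleteSpace K]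

/-- a selection of approximants with accuracy `ε` and derivative bounded by `C` -/
structure Sel (S : Std H K) (Gr : Submodule ℂ ((H →L[ℂ] H) × K)) (Y : (H →L[ℂ] H) → (H →L[ℂ] H))
    (dY : (H →L[ℂ] H) → K) (C ε : ℝ) : Prop where
  nonneg : 0 ≤ C
  mem : ∀ g ∈ UM S, (Y g, dY g) ∈ Gr
  norm : ∀ g ∈ UM S, ‖Y g‖ ≤ 5
  dnorm : ∀ g ∈ UM S, ‖dY g‖ ≤ C
  close : ∀ g ∈ UM S, ‖(Y g - g) S.Ω‖ ≤ ε

/-- left mean -/
def aL (F : Ultrafilter ℕ) (u v : ℕ → H →L[ℂ] H) (YL : (H →L[ℂ] H) → (H →L[ℂ] H)) : H →L[ℂ] H :=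
  (mLω F).op (fun c => qL u v YL c * gL u v c)

def bL (S : Std H K) (F : Ultrafilter ℕ) (u v : ℕ → H →L[ℂ] H) (dYL : (H →L[ℂ] H) → K) : K :=
  (mLω F).vec (fun c => S.r (gL u v c) (qL u v dYL c))

/-- right mean -/
def aR (F : Ultrafilter ℕ) (u v : ℕ → H →L[ℂ] H) (YR : (H →L[ℂ] H) → (H →L[ℂ] H)) : H →L[ℂ] H :=
  (mRω F).op (fun R => gword u v R * qR u v YR R)

def bR (S : Std H K) (F : Ultrafilter ℕ) (u v : ℕ → H →L[ℂ] H) (dYR : (H →L[ℂ] H) → K) : K :=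
  (mRω F).vec (fun R => S.l (gword u v R) (qR u v dYR R))

private theorem starA_bdd {I : Type*} (A : I → H →L[ℂ] H) (hC : ∃ C : ℝ, ∀ i, ‖A i‖ ≤ C)
    (c a : H) : Bdd (fun i => ⟪c, A i a⟫_ℂ) := by
  obtain ⟨C, hC⟩ := hC
  refine ⟨‖c‖ * (C * ‖a‖), fun i => ?_⟩
  refine (norm_inner_le_norm _ _).trans ?_
  refine mul_le_mul_of_nonneg_left ?_ (norm_nonneg _)
  exact ((A i).le_opNorm a).trans (mul_le_mul_of_nonneg_right (hC i) (norm_nonneg _))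

private theorem starA_L {I : Type*} (T : Coarse H K) (m : Mean I) (A : I → H →L[ℂ] H)
    (hC : ∃ C : ℝ, ∀ i, ‖A i‖ ≤ C) : T.L (m.op A) = m.op (fun i => T.L (A i)) := by
  have hC' : ∃ C : ℝ, ∀ i, ‖T.L (A i)‖ ≤ C := by
    obtain ⟨C, hC⟩ := hC
    exact ⟨C, fun i => (T.L_norm_le (A i)).trans (hC i)⟩
  refine T.ext_tp _ _ (fun a b => ?_)
  refine T.ext_inner _ _ (fun c d => ?_)
  rw [Mean.inner_op m _ hC', T.L_tp, T.inner_tp, Mean.inner_op m A hC]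
  have : (fun i => ⟪T.tp c d, (T.L (A i)) (T.tp a b)⟫_ℂ) =
      fun i => ⟪d, b⟫_ℂ * ⟪c, A i a⟫_ℂ := by
    funext i
    rw [T.L_tp, T.inner_tp, mul_comm]
  rw [this, m.smul _ _ (starA_bdd A hC c a), mul_comm]

private theorem starA_R {I : Type*} (T : Coarse H K) (m : Mean I) (A : I → H →L[ℂ] H)
    (hC : ∃ C : ℝ, ∀ i, ‖A i‖ ≤ C) : T.R (m.op A) = m.op (fun i => T.R (A i)) := by
  have hC' : ∃ C : ℝ, ∀ i, ‖T.R (A i)‖ ≤ C := by
    obtain ⟨C, hC⟩ := hC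
    exact ⟨C, fun i => (T.R_norm_le (A i)).trans (hC i)⟩
  refine T.ext_tp _ _ (fun a b => ?_)
  refine T.ext_inner _ _ (fun c d => ?_)
  rw [Mean.inner_op m _ hC', T.R_tp, T.inner_tp, Mean.inner_op m A hC]
  have : (fun i => ⟪T.tp c d, (T.R (A i)) (T.tp a b)⟫_ℂ) =
      fun i => ⟪c, a⟫_ℂ * ⟪d, A i b⟫_ℂ := by
    funext i
    rw [T.R_tp, T.inner_tp]
  rw [this, m.smul _ _ (starA_bdd A hC d b)]

private theorem starA_rho {I : Type*} (S : Std H K) (m : Mean I) (T : I → H →L[ℂ] H)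
    (hT : ∀ i, T i ∈ S.M) (hC : ∃ C : ℝ, ∀ i, ‖T i‖ ≤ C) :
    S.ρ (m.op T) = m.op (fun i => S.ρ (T i)) := by
  have hC' : ∃ C : ℝ, ∀ i, ‖S.ρ (T i)‖ ≤ C := by
    obtain ⟨C, hC⟩ := hC
    exact ⟨C, fun i => (S.ρ_norm_le (hT i)).trans (hC i)⟩
  have hm : m.op T ∈ S.M := Mean.op_mem m T hC S.M hT
  have h : (⇑(S.ρ (m.op T)) : H → H) = ⇑(m.op (fun i => S.ρ (T i))) := by
    refine Continuous.ext_on S.tv.cyclic (ContinuousLinearMap.continuous _)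
      (ContinuousLinearMap.continuous _) ?_
    rintro ξ ⟨y, hy, rfl⟩
    refine ext_inner_left ℂ (fun d => ?_)
    rw [Mean.inner_op m _ hC', S.ρ_apply y hy _ hm]
    have h1 : (fun i => ⟪d, (S.ρ (T i)) (y S.Ω)⟫_ℂ) = fun i => ⟪star y d, T i S.Ω⟫_ℂ := by
      funext i
      rw [S.ρ_apply y hy _ (hT i), ContinuousLinearMap.star_eq_adjoint,
        ContinuousLinearMap.adjoint_inner_left]
      rfl
    rw [h1, ← Mean.inner_op m T hC, ContinuousLinearMap.star_eq_adjoint,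
      ContinuousLinearMap.adjoint_inner_left]
    rfl
  exact DFunLike.coe_injective h

/-- the two actions commute with means: right action -/
theorem r_op {I : Type*} (S : Std H K) (m : Mean I) (T : I → H →L[ℂ] H) (hT : ∀ i, T i ∈ S.M)
    (hC : ∃ C : ℝ, ∀ i, ‖T i‖ ≤ C) : S.r (m.op T) = m.op (fun i => S.r (T i)) := by
  have hC' : ∃ C : ℝ, ∀ i, ‖S.ρ (T i)‖ ≤ C := by
    obtain ⟨C, hC⟩ := hC
    exact ⟨C, fun i => (S.ρ_norm_le (hT i)).trans (hC i)⟩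
  change S.T.R (S.ρ (m.op T)) = m.op (fun i => S.T.R (S.ρ (T i)))
  rw [starA_rho S m T hT hC, starA_R S.T m _ hC']

theorem l_op {I : Type*} (S : Std H K) (m : Mean I) (T : I → H →L[ℂ] H)
    (hC : ∃ C : ℝ, ∀ i, ‖T i‖ ≤ C) : S.l (m.op T) = m.op (fun i => S.l (T i)) :=
  starA_L S.T m T hC

end

end Pool.H62.UC
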