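import Pool.Agent.H62.UC.Star
import Pool.Agent.H62.UC.Est
import Pool.Agent.H62.UC.PosA
import Pool.Agent.H62.UC.PosB
import Pool.Agent.H62.UC.Close

/-!
# STARY: Leibniz elements with small kernels
-/

namespace Pool.H62.UC

open scoped InnerProductSpace TensorProduct ComplexConjugate
open Filter Topology

noncomputable section


variable {H : Type*} [NormedAddCommGroup H] [InnerProductSpace ℂ H] [CompleteSpace H]
variable {K : Type*} [NormedAddCommGroup K] [InnerProductSpace ℂ K] [CompleteSpace K]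

/-- linear extension of the Leibniz relation from a set to its span -/
private theorem starY_span (S : Std H K) (Gr : Submodule ℂ ((H →L[ℂ] H) × K))
    (W : Set (H →L[ℂ] H)) (hW : ∀ g ∈ W, g ∈ S.M) (a b : H →L[ℂ] H) (hb : b ∈ S.M) (β γ : K)
    (h : ∀ y ∈ W, (a * y * b, S.l (a * y) γ + S.r (y * b) β) ∈ Gr) (y : H →L[ℂ] H)
    (hy : y ∈ Submodule.span ℂ W) :
    y ∈ S.M ∧ (a * y * b, S.l (a * y) γ + S.r (y * b) β) ∈ Gr := by
  induction hy using Submodule.span_induction with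
  | mem x hx => exact ⟨hW x hx, h x hx⟩
  | zero =>
    refine ⟨zero_mem S.M, ?_⟩
    have h0 : S.l (a * 0) γ = 0 := by
      rw [mul_zero]
      have h1 : S.l (0 : H →L[ℂ] H) = 0 := by simpa using S.l_smul 0 (0 : H →L[ℂ] H)
      rw [h1]; rfl
    have h2 : S.r ((0 : H →L[ℂ] H) * b) β = 0 := by
      rw [zero_mul]
      have h1 : S.r (0 : H →L[ℂ] H) = 0 := by
        simpa using S.r_smul 0 (y := (0 : H →L[ℂ] H)) (zero_mem S.M)
      rw [h1]; rfl
    rw [h0, h2, mul_zero, zero_mul, add_zero]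
    exact Gr.zero_mem
  | add x y _ _ hx hy =>
    refine ⟨add_mem hx.1 hy.1, ?_⟩
    have := Gr.add_mem hx.2 hy.2
    have e1 : a * (x + y) * b = a * x * b + a * y * b := by
      rw [mul_add, add_mul]
    have e2 : S.l (a * (x + y)) γ = S.l (a * x) γ + S.l (a * y) γ := by
      rw [mul_add, S.l_add]; rfl
    have e3 : S.r ((x + y) * b) β = S.r (x * b) β + S.r (y * b) β := by
      rw [add_mul, S.r_add (mul_mem hx.1 hb) (mul_mem hy.1 hb)]; rfl
    rw [e1, e2, e3]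
    have e4 : S.l (a * x) γ + S.l (a * y) γ + (S.r (x * b) β + S.r (y * b) β) =
        S.l (a * x) γ + S.r (x * b) β + (S.l (a * y) γ + S.r (y * b) β) := by abel
    rw [e4]
    simpa using this
  | smul c x _ hx =>
    refine ⟨S.smul_mem c hx.1, ?_⟩
    have := Gr.smul_mem c hx.2
    have e1 : a * (c • x) * b = c • (a * x * b) := by
      rw [mul_smul_comm, smul_mul_assoc]
    have e2 : S.l (a * (c • x)) γ = c • S.l (a * x) γ := by
      rw [mul_smul_comm, S.l_smul]; rfl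
    have e3 : S.r ((c • x) * b) β = c • S.r (x * b) β := by
      rw [smul_mul_assoc, S.r_smul c (mul_mem hx.1 hb)]; rfl
    rw [e1, e2, e3, ← smul_add]
    exact this

omit [InnerProductSpace ℂ H] [CompleteSpace H] in
/-- convergence from the bound `c / (k + 1)` -/
private theorem starY_tendsto (f : ℕ → H) (g : H) (c : ℝ)
    (h : ∀ k : ℕ, ‖f k - g‖ ≤ c * (1 / ((k : ℝ) + 1))) : Tendsto f atTop (𝓝 g) := by
  rw [tendsto_iff_norm_sub_tendsto_zero]
  refine squeeze_zero (fun k => norm_nonneg _) h ?_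
  have := (tendsto_one_div_add_atTop_nhds_zero_nat (𝕜 := ℝ)).const_mul c
  simpa using this

/-- `exists_sel` at the scales `1/(k+1)`; `exists_group` for the sequence `x`, `v` and the
selections; `W = range u`, `N = vnGen (spanAlg W)`; `star_rel` for all `i`, `j`, `l` (with
`F = hyperfilter ℕ`), linear extension to the span of `W`, `rel_extend`; `aL_mem`, `aR_mem`,
`aL_close`, `aR_close`; `pos_combine`. -/
theorem starY (S : Std H K) (Gr : Submodule ℂ ((H →L[ℂ] H) × K)) (hG : BClosed S Gr)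
    (hUA : UA S Gr) (v : ℕ → H →L[ℂ] H) (hv : ∀ n, v n ∈ UM S) (e : H →L[ℂ] H)
    (he : IsStarProjection e) (heM : e ∈ S.M)
    (hw : ∀ ζ ω : H, Tendsto (fun n => ⟪ζ, v n ω⟫_ℂ) atTop (𝓝 ⟪ζ, e ω⟫_ℂ))
    (x : ℕ → H →L[ℂ] H) (hx : ∀ k, x k ∈ S.M) :
    ∃ N : VonNeumannAlgebra H, (∀ z ∈ N, z ∈ S.M) ∧ (∀ k, x k ∈ N) ∧
      ∃ a ∈ N, ∃ b ∈ N, ∃ β γ : K, (∀ ξ, a ξ = 0 → (1 - e) ξ = 0) ∧ (∀ ξ, b ξ = 0 → ξ = 0) ∧
        ∀ y ∈ N, (a * y * b, S.l (a * y) γ + S.r (y * b) β) ∈ Gr := by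
  have hsel : ∀ k : ℕ, ∃ (Y : (H →L[ℂ] H) → (H →L[ℂ] H)) (dY : (H →L[ℂ] H) → K) (C : ℝ),
      Sel S Gr Y dY C (1 / ((k : ℝ) + 1)) := fun k => exists_sel S Gr hUA _ (by positivity)
  choose Y dY C hs using hsel
  have hYM : ∀ k, ∀ g ∈ UM S, Y k g ∈ S.M := fun k g hg => hG.mem _ ((hs k).mem g hg)
  obtain ⟨u, huM, h1, hmul, hstar, hvW, hxW, hYW⟩ := exists_group S x v hx hv Y hYM
  have hWM : ∀ g ∈ Set.range u, g ∈ S.M := by
    rintro g ⟨l, rfl⟩
    exact (huM l).1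
  have hWU : ∀ g ∈ Set.range u, g ∈ UM S := by
    rintro g ⟨l, rfl⟩
    exact huM l
  have hAM : ∀ z ∈ spanAlg (Set.range u) h1 hmul hstar, z ∈ S.M := by
    intro z hz
    rw [mem_spanAlg] at hz
    have := Submodule.span_induction (p := fun z _ => z ∈ S.M) (fun z hz => hWM z hz)
      (zero_mem S.M) (fun x y _ _ hx hy => add_mem hx hy) (fun c x _ hx => S.smul_mem c hx) hz
    exact this
  have hAN : ∀ z ∈ Submodule.span ℂ (Set.range u),
      z ∈ vnGen (spanAlg (Set.range u) h1 hmul hstar) := fun z hz =>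
    le_vnGen _ ((mem_spanAlg _ _ _ _ z).2 hz)
  have hNM : ∀ z ∈ vnGen (spanAlg (Set.range u) h1 hmul hstar), z ∈ S.M := fun z hz =>
    vnGen_le _ S.M hAM hz
  have hWN : ∀ g ∈ Set.range u, g ∈ vnGen (spanAlg (Set.range u) h1 hmul hstar) :=
    fun g hg => hAN g (Submodule.subset_span hg)
  have hF : ((hyperfilter ℕ : Ultrafilter ℕ) : Filter ℕ) ≤ atTop := Nat.hyperfilter_le_atTop
  have haN : ∀ i, aL (hyperfilter ℕ) u v (Y i) ∈ vnGen (spanAlg (Set.range u) h1 hmul hstar) :=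
    fun i => aL_mem S (hyperfilter ℕ) u v huM hv (Y i) (hs i).norm _ (Set.range u) hWN
      (fun l => ⟨l, rfl⟩) hvW h1 hmul hstar (fun g hg => hAN _ (hYW i g hg))
  have hbN : ∀ i, aR (hyperfilter ℕ) u v (Y i) ∈ vnGen (spanAlg (Set.range u) h1 hmul hstar) :=
    fun i => aR_mem S (hyperfilter ℕ) u v huM hv (Y i) (hs i).norm _ (Set.range u) hWN
      (fun l => ⟨l, rfl⟩) hvW h1 hmul hstar (fun g hg => hAN _ (hYW i g hg))
  have hrel : ∀ i j, ∀ y ∈ vnGen (spanAlg (Set.range u) h1 hmul hstar),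
      (aL (hyperfilter ℕ) u v (Y i) * y * aR (hyperfilter ℕ) u v (Y j),
        S.l (aL (hyperfilter ℕ) u v (Y i) * y) (bR S (hyperfilter ℕ) u v (dY j)) +
        S.r (y * aR (hyperfilter ℕ) u v (Y j)) (bL S (hyperfilter ℕ) u v (dY i))) ∈ Gr := by
    intro i j
    refine rel_extend S Gr hG _ hAM _ _ (hNM _ (haN i)) (hNM _ (hbN j)) _ _ ?_
    intro y hy
    rw [mem_spanAlg] at hy
    refine (starY_span S Gr (Set.range u) hWM _ _ (hNM _ (hbN j)) _ _ ?_ y hy).2
    rintro g ⟨l, rfl⟩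
    exact star_rel S Gr hG (hyperfilter ℕ) hF u v huM hv (Y i) (Y j) (dY i) (dY j) _ _ _ _
      (hs i) (hs j) Y dY C hs l
  refine ⟨vnGen (spanAlg (Set.range u) h1 hmul hstar), hNM, fun k => hAN _ (hxW k), ?_⟩
  refine pos_combine S Gr hG _ hNM e he heM (fun i => aL (hyperfilter ℕ) u v (Y i))
    (fun j => aR (hyperfilter ℕ) u v (Y j)) (fun i => bL S (hyperfilter ℕ) u v (dY i))
    (fun j => bR S (hyperfilter ℕ) u v (dY j)) haN hbN
    (fun i => aL_norm S (hyperfilter ℕ) u v huM hv (Y i) (hs i).norm)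
    (fun i => (aR_norm S (hyperfilter ℕ) u v huM hv (Y i) (hs i).norm).trans (by norm_num))
    hrel ?_ ?_
  · refine starY_tendsto _ _ 2 (fun k => ?_)
    have := aL_close S (hyperfilter ℕ) hF u v huM hv e he hw (Y k) (hYM k) (hs k).norm _
      (hs k).close
    simpa using this
  · refine starY_tendsto _ _ 1 (fun k => ?_)
    have := aR_close S (hyperfilter ℕ) u v huM hv (Y k) (hYM k) (hs k).norm _
      (hs k).close
    simpa using this

end

end Pool.H62.UC
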