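import Pool.Agent.H51.UC.Ic

/-!
# MP_75f39d_co, theorem T5* (threshold 2/3): common definitions (notes `/team-store/H62_75f39d_star.md`,
`/team-store/H78_T5star.md`, `/team-store/H51_ISO.md`), weighted form.

`V` is a finite set, `P = pm V p` the law of a random subset of `V` that contains `j` with probability
`p j`, `l j` the capacity of the edges in direction `j`.
-/

set_option autoImplicit false

namespace Pool.Agent.H62.UC

open Finset Pool.Agent.H51.UC

variable {α : Type*} [DecidableEq α]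

/-- Every down-closed family inside `D` has boundary at least `L` times its mass. -/
def Adm (V : Finset α) (p l : α → ℝ) (D : Finset (Finset α)) (L : ℝ) : Prop :=
  ∀ E ⊆ D, Down E → L * wP V p E ≤ wB V p l E

/-- The subsets `Y` of `S ∖ {i}` such that no member of `A` contains `i` and lies in `Y ∪ {i}`. -/
def Ds (A : Finset (Finset α)) (S : Finset α) (i : α) : Finset (Finset α) :=
  (S.erase i).powerset.filter fun Y => ¬ ∃ T ∈ A, i ∈ T ∧ T ⊆ insert i Y

/-- The union of the members of `B` inside `X` (the largest member inside `X` if there is one). -/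
def lg (B : Finset (Finset α)) (X : Finset α) : Finset α := (B.filter (· ⊆ X)).sup id

/-- The sets `Y ⊆ S ∖ {i}` such that `w` is the largest member of `B` inside `Y ∪ {i}`. -/
def fib (B : Finset (Finset α)) (S : Finset α) (i : α) (w : Finset α) : Finset (Finset α) :=
  (S.erase i).powerset.filter fun Y => lg B (insert i Y) = w

/-- The sets `Y ⊆ S ∖ {i, j}` such that `T` is the largest member of `B` inside `Y ∪ {i, j}`. -/
def fib2 (B : Finset (Finset α)) (S : Finset α) (i j : α) (T : Finset α) :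
    Finset (Finset α) :=
  (S.erase i).powerset.filter fun Y => j ∉ Y ∧ lg B (insert i (insert j Y)) = T

/-- The pairs `(T, j)` with `j ∈ S`, `T ∖ {j}` not a member, such that `i ∈ T ∖ {j}` is not in the
largest member inside `T ∖ {j}`. -/
def Bp (B : Finset (Finset α)) (S : Finset α) (i : α) : Finset (Finset α × α) :=
  (B ×ˢ S).filter fun e => e.2 ∈ e.1 ∧ e.1.erase e.2 ∉ B ∧ i ∈ e.1.erase e.2 \ lg B (e.1.erase e.2)

/-- The number of points of `T ∖ {j}` outside the largest member inside it, minus one. -/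
def kk (B : Finset (Finset α)) (e : Finset α × α) : ℕ :=
  (e.1.erase e.2 \ lg B (e.1.erase e.2)).card - 1

theorem mem_Ds {A : Finset (Finset α)} {S : Finset α} {i : α} {Y : Finset α} :
    Y ∈ Ds A S i ↔ Y ⊆ S.erase i ∧ ¬ ∃ T ∈ A, i ∈ T ∧ T ⊆ insert i Y := by
  simp [Ds]

theorem Ds_dn (A : Finset (Finset α)) (S : Finset α) (i : α) : Down (Ds A S i) := by
  intro Y hY Z hZ
  rw [mem_Ds] at hY ⊢
  refine ⟨hZ.trans hY.1, ?_⟩
  rintro ⟨T, hT, hiT, hTZ⟩
  exact hY.2 ⟨T, hT, hiT, hTZ.trans (insert_subset_insert i hZ)⟩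

theorem lg_sub (B : Finset (Finset α)) (X : Finset α) : lg B X ⊆ X := by
  unfold lg
  have h : (B.filter (· ⊆ X)).sup id ≤ X :=
    Finset.sup_le fun T hT => (mem_filter.1 hT).2
  exact h

theorem le_lg {B : Finset (Finset α)} {X T : Finset α} (hT : T ∈ B) (hX : T ⊆ X) :
    T ⊆ lg B X :=
  Finset.le_sup (f := id) (mem_filter.2 ⟨hT, hX⟩)

/-- `lg B X` is a member as soon as `X` contains a member. -/
theorem lg_mem {B : Finset (Finset α)} (hB : ∀ S ∈ B, ∀ T ∈ B, S ∪ T ∈ B) {X T : Finset α}
    (hT : T ∈ B) (hX : T ⊆ X) : lg B X ∈ B := by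
  have key : ∀ F : Finset (Finset α), F ⊆ B → F.Nonempty → F.sup id ∈ B := by
    intro F
    induction F using Finset.induction_on with
    | empty => intro _ h; exact absurd h not_nonempty_empty
    | insert a F ha ih =>
      intro hF _
      rw [sup_insert]
      rcases F.eq_empty_or_nonempty with h | h
      · rw [h, sup_empty, sup_bot_eq]
        exact hF (mem_insert_self a F)
      · exact hB _ (hF (mem_insert_self a F)) _ (ih ((subset_insert a F).trans hF) h)
  exact key _ (filter_subset _ _) ⟨T, mem_filter.2 ⟨hT, hX⟩⟩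

theorem lg_self {B : Finset (Finset α)} {T : Finset α} (hT : T ∈ B) : lg B T = T :=
  Subset.antisymm (lg_sub B T) (le_lg hT (Subset.refl T))

theorem lg_mono {B : Finset (Finset α)} {X Y : Finset α} (h : X ⊆ Y) : lg B X ⊆ lg B Y := by
  unfold lg
  have h1 : (B.filter (· ⊆ X)).sup id ≤ (B.filter (· ⊆ Y)).sup id :=
    Finset.sup_mono fun T hT => mem_filter.2 ⟨(mem_filter.1 hT).1, (mem_filter.1 hT).2.trans h⟩
  exact h1

theorem mem_fib {B : Finset (Finset α)} {S : Finset α} {i : α} {w Y : Finset α} :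
    Y ∈ fib B S i w ↔ Y ⊆ S.erase i ∧ lg B (insert i Y) = w := by
  simp [fib]

theorem mem_fib2 {B : Finset (Finset α)} {S : Finset α} {i j : α} {T Y : Finset α} :
    Y ∈ fib2 B S i j T ↔ Y ⊆ S.erase i ∧ j ∉ Y ∧ lg B (insert i (insert j Y)) = T := by
  simp [fib2]

theorem mem_Bp {B : Finset (Finset α)} {S : Finset α} {i : α} {e : Finset α × α} :
    e ∈ Bp B S i ↔ (e.1 ∈ B ∧ e.2 ∈ S) ∧ e.2 ∈ e.1 ∧ e.1.erase e.2 ∉ B ∧
      i ∈ e.1.erase e.2 ∧ i ∉ lg B (e.1.erase e.2) := by
  simp [Bp, and_assoc]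

end Pool.Agent.H62.UC
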