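import Pool.Agent.H62.UC.TDefs

/-!
Row TSa.  Admissible ratios for equal weights (`p = 1/2`, `l = 1`); `Adm`, `wP`, `wB` in
`Pool.Agent.H62.UC.TDefs`, `Pool.Agent.H51.UC.Ic`; `bd`, `bd_down`, `ei`, `iso_le`, `iso_lt` in
`Pool.Agent.H51.UC.{Ia,Ib}`.

* `wP_half`: `pm V (fun _ => 1/2) Y = (1/2) ^ |Y| * (1/2) ^ |V \ Y| = (1/2) ^ |V|` for `Y ⊆ V`.
* `wB_half`: `bd V X` is the disjoint union over `Y ∈ X` of the `j` (`card_eq_sum_card_fiberwise` or
  `card_filter` + `sum_product`): `∑_{Y ∈ X} #{j ∈ V : j ∉ Y, insert j Y ∉ X} = |bd V X|`.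
* `adm_two_thirds`: for `E ⊆ D`: `iso_le` gives `|E| ≤ |bd V E|` (`3 |D| ≤ 2 * 2 ^ |V|` from `h`).
* `adm_lt`: `L = 1 + (1/2) ^ |V|`; for `E ≠ ∅`, `iso_lt` gives `|E| + 1 ≤ |bd V E|`, and
  `|E| ≤ 2 ^ |V|`, so `L |E| ≤ |E| + 1`.
* `ei_large`: `3 a ≥ 2 * 2 ^ m`, `a ≤ 2 ^ m` imply `2 ei a + 2 * 2 ^ m ≤ (m + 2) a`.  Strong induction on `m`:
  `m = 0`: `a = 1`, `ei 1 = 0`.  `m = 1`: `a = 2` (`3 a ≥ 4`), `ei 2 = 1`.  `m ≥ 2`: `a = 2 ^ (m - 1) + c`,
  `c ≤ 2 ^ (m - 1)`, `3 c ≥ 2 ^ (m - 1)`; by `ei_add_eq`, `ei_two_pow`: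
  `2 ei a = (m - 1) 2 ^ (m - 1) + 2 ei c + 2 c`, so the claim is `2 ei c + 2 ^ (m - 1) ≤ m c`.
  If `c ≤ 2 ^ (m - 2)` this is the induction hypothesis for `m - 2` (`3 c ≥ 2 * 2 ^ (m - 2)`).
  Otherwise `c = 2 ^ (m - 2) + c'`, `c' ≤ 2 ^ (m - 2)`, `2 ei c = (m - 2) 2 ^ (m - 2) + 2 ei c' + 2 c'` and
  `2 ei c' ≤ (m - 2) c'` (`ei_pow`).
* `adm_large`: `ν = wP D`, `2/3 ≤ ν`.  For `E ⊆ D` down-closed, `a = |E|`, `M = 2 ^ |V|`: if
  `3 a ≤ 2 M` then `|bd V E| ≥ a` (`iso_le` with `D = E`) and `2 / ν - 2 ≤ 1`; otherwise by `bd_down`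
  (`|bd V E| ≥ |V| a - 2 ei a`) and `ei_large` `|bd V E| ≥ 2 (M - a) ≥ (2 / ν - 2) a` as `a ≤ ν M`.
-/

set_option autoImplicit false

namespace Pool.Agent.H62.UC

open Finset Pool.Agent.H51.UC

variable {α : Type*} [DecidableEq α]

private theorem TSa_pm {V Y : Finset α} (h : Y ⊆ V) : pm V (fun _ => 1 / 2) Y = 1 / 2 ^ V.card := by
  unfold pm
  have h1 : (1 : ℝ) - 1 / 2 = 1 / 2 := by norm_num
  have h2 : Y.card + (V \ Y).card = V.card := by
    rw [add_comm]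
    exact card_sdiff_add_card_eq_card h
  rw [prod_const, prod_const, h1, ← pow_add, h2, one_div_pow]

theorem wP_half {V : Finset α} {X : Finset (Finset α)} (hX : X ⊆ V.powerset) :
    wP V (fun _ => 1 / 2) X = (X.card : ℝ) / 2 ^ V.card := by
  unfold wP
  rw [sum_congr rfl fun Y hY => TSa_pm (mem_powerset.1 (hX hY)), sum_const, nsmul_eq_mul, mul_one_div]

theorem wB_half {V : Finset α} {X : Finset (Finset α)} (hX : X ⊆ V.powerset) :
    wB V (fun _ => 1 / 2) (fun _ => 1) X = ((bd V X).card : ℝ) / 2 ^ V.card := by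
  unfold wB
  have h1 : ∀ Y ∈ X, ∑ j ∈ V with (j ∉ Y ∧ insert j Y ∉ X), (fun _ => (1 : ℝ)) j * pm V (fun _ => 1 / 2) Y =
      ((V.filter fun j => j ∉ Y ∧ insert j Y ∉ X).card : ℝ) * (1 / 2 ^ V.card) := by
    intro Y hY
    rw [TSa_pm (mem_powerset.1 (hX hY)), sum_const, nsmul_eq_mul, one_mul]
  rw [sum_congr rfl h1, ← sum_mul, mul_one_div]
  congr 1
  rw [← Nat.cast_sum]
  congr 1
  unfold bd
  rw [card_filter, sum_product]
  refine sum_congr rfl fun Y _ => ?_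
  rw [← card_filter]

theorem adm_two_thirds {V : Finset α} {D : Finset (Finset α)} (hDV : D ⊆ V.powerset)
    (hD : Down D) (h : wP V (fun _ => 1 / 2) D ≤ 2 / 3) :
    Adm V (fun _ => 1 / 2) (fun _ => 1) D 1 := by
  intro E hE hdE
  rw [wP_half hDV] at h
  have h2 : (0 : ℝ) < 2 ^ V.card := by positivity
  rw [div_le_iff₀ h2] at h
  have h3 : 3 * D.card ≤ 2 * 2 ^ V.card := by
    have : (3 : ℝ) * D.card ≤ 2 * 2 ^ V.card := by linarith
    exact_mod_cast this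
  have h4 := iso_le hDV hD h3 hE
  rw [wP_half (hE.trans hDV), wB_half (hE.trans hDV), one_mul]
  exact div_le_div_of_nonneg_right (by exact_mod_cast h4) h2.le

theorem adm_lt {V : Finset α} {D : Finset (Finset α)} (hDV : D ⊆ V.powerset)
    (hD : Down D) (h : wP V (fun _ => 1 / 2) D < 1 / 2) :
    ∃ L : ℝ, 1 < L ∧ Adm V (fun _ => 1 / 2) (fun _ => 1) D L := by
  rw [wP_half hDV] at h
  have h2 : (0 : ℝ) < 2 ^ V.card := by positivity
  rw [div_lt_iff₀ h2] at h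
  have h3 : 2 * D.card < 2 ^ V.card := by
    have : (2 : ℝ) * D.card < 2 ^ V.card := by linarith
    exact_mod_cast this
  refine ⟨1 + 1 / 2 ^ V.card, by
    have : (0 : ℝ) < 1 / 2 ^ V.card := by positivity
    linarith, fun E hE hdE => ?_⟩
  rw [wP_half (hE.trans hDV), wB_half (hE.trans hDV), ← mul_div_assoc]
  refine div_le_div_of_nonneg_right ?_ h2.le
  rcases E.eq_empty_or_nonempty with h0 | h0
  · rw [h0, card_empty, Nat.cast_zero, mul_zero]
    exact Nat.cast_nonneg _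
  · have h4 := iso_lt hDV hD h3 hE h0
    have h5 : (E.card : ℝ) + 1 ≤ ((bd V E).card : ℝ) := by exact_mod_cast h4
    have h6 : (E.card : ℝ) ≤ 2 ^ V.card := by
      have h7 := card_le_card (hE.trans hDV)
      rw [card_powerset] at h7
      exact_mod_cast h7
    have h8 : 1 / (2 : ℝ) ^ V.card * E.card ≤ 1 := by
      rw [one_div, inv_mul_le_iff₀ h2, mul_one]
      exact h6
    linarith

theorem ei_large (m : ℕ) : ∀ a, a ≤ 2 ^ m → 2 * 2 ^ m ≤ 3 * a →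
    2 * ei a + 2 * 2 ^ m ≤ (m + 2) * a := by
  induction m using Nat.strong_induction_on with
  | _ m ih =>
    intro a ha h
    rcases m with _ | _ | m2
    · rw [pow_zero] at ha h ⊢
      have h1 : a = 1 := by omega
      rw [h1, ei_one]
      norm_num
    · have h0 : (2 : ℕ) ^ (0 + 1) = 2 := by norm_num
      rw [h0] at ha h ⊢
      have h1 : a = 2 * 1 := by omega
      rw [h1, ei_two, ei_one]
    · have e1 : (2 : ℕ) ^ (m2 + 1 + 1) = 2 * 2 ^ (m2 + 1) := by rw [pow_succ, mul_comm]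
      have e2 : (2 : ℕ) ^ (m2 + 1) = 2 * 2 ^ m2 := by rw [pow_succ, mul_comm]
      rw [e1] at ha h ⊢
      obtain ⟨c, hc⟩ : ∃ c, a = 2 ^ (m2 + 1) + c := ⟨a - 2 ^ (m2 + 1), by omega⟩
      have h2 := ei_add_eq (m2 + 1) c (by omega)
      have h3 := ei_two_pow (m2 + 1)
      have key : 2 * ei c + 2 * 2 ^ m2 ≤ (m2 + 2) * c := by
        rcases Nat.lt_or_ge (2 ^ m2) c with h4 | h4
        · obtain ⟨d, hd⟩ : ∃ d, c = 2 ^ m2 + d := ⟨c - 2 ^ m2, by omega⟩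
          have h5 := ei_add_eq m2 d (by omega)
          have h6 := ei_two_pow m2
          have h7 := (ei_pow m2 d (by omega)).1
          have h8 : (m2 + 2) * (2 ^ m2 + d) = m2 * 2 ^ m2 + 2 * 2 ^ m2 + m2 * d + 2 * d := by ring
          rw [hd, h5, h8]
          omega
        · exact ih m2 (by omega) c h4 (by omega)
      have h9 : (m2 + 1 + 1 + 2) * (2 ^ (m2 + 1) + c) =
          (m2 + 1) * 2 ^ (m2 + 1) + 3 * 2 ^ (m2 + 1) + (m2 + 2) * c + 2 * c := by ring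
      rw [hc, h2, h9]
      omega

theorem adm_large {V : Finset α} {D : Finset (Finset α)} (hDV : D ⊆ V.powerset)
    (hD : Down D) (h : 2 / 3 ≤ wP V (fun _ => 1 / 2) D) :
    Adm V (fun _ => 1 / 2) (fun _ => 1) D (2 / wP V (fun _ => 1 / 2) D - 2) := by
  intro E hE hdE
  have h2 : (0 : ℝ) < 2 ^ V.card := by positivity
  have hEV := hE.trans hDV
  have hcard : (E.card : ℝ) ≤ D.card := by exact_mod_cast card_le_card hE
  have hν : wP V (fun _ => 1 / 2) D * 2 ^ V.card = D.card := by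
    rw [wP_half hDV, div_mul_cancel₀ _ h2.ne']
  obtain ⟨ν, hνd⟩ : ∃ ν, ν = wP V (fun _ => 1 / 2) D := ⟨_, rfl⟩
  rw [← hνd] at h hν ⊢
  have hν0 : 0 < ν := by linarith
  rw [wP_half hEV, wB_half hEV, ← mul_div_assoc]
  refine div_le_div_of_nonneg_right ?_ h2.le
  rcases Nat.lt_or_ge (2 * 2 ^ V.card) (3 * E.card) with h3 | h3
  · have h4 := ei_large V.card E.card (by
      have h7 := card_le_card hEV
      rw [card_powerset] at h7
      exact h7) h3.le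
    have h5 := bd_down hEV hdE
    have h6 := sum_card_le V E hEV hdE
    have h4' : 2 * (ei E.card : ℝ) + 2 * 2 ^ V.card ≤ (V.card + 2) * E.card := by exact_mod_cast h4
    have h5' : ((bd V E).card : ℝ) + 2 * ∑ Y ∈ E, (Y.card : ℝ) = (V.card : ℝ) * (E.card : ℝ) := by
      exact_mod_cast h5
    have h7 : 2 * ((2 : ℝ) ^ V.card - E.card) ≤ ((bd V E).card : ℝ) := by linarith
    refine le_trans ?_ h7
    have h8 : 2 / ν * E.card ≤ 2 * 2 ^ V.card := by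
      rw [div_mul_eq_mul_div, div_le_iff₀ hν0]
      have h9 : 2 * (2 : ℝ) ^ V.card * ν = 2 * D.card := by rw [← hν]; ring
      rw [h9]
      linarith
    linarith
  · have h4 := iso_le hEV hdE h3 (Subset.refl E)
    have h5 : (E.card : ℝ) ≤ ((bd V E).card : ℝ) := by exact_mod_cast h4
    have h6 : 2 / ν ≤ 3 := by
      rw [div_le_iff₀ hν0]
      linarith
    have h7 : (2 / ν - 2) * (E.card : ℝ) ≤ 1 * E.card :=
      mul_le_mul_of_nonneg_right (by linarith) (Nat.cast_nonneg _)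
    linarith

end Pool.Agent.H62.UC
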