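import Pool.Agent.H62.UC.TDefs

/-!
Row TSb.  The logarithmic ratio is admissible for all weights: `p j = 1 - 2 ^ (- l j)`, `0 < l j ≤ 1`.

* `log_aux`: for `0 ≤ b`, `0 ≤ a' ≤ a`: `(a' + b) log (a' + b) - a' log a' ≤ (a + b) log (a + b) - a log a`
  (`0 log 0 = 0`).  Proof: `a = a'` trivial.  The function `x ↦ (x + b) log (x + b) - x log x` is monotone
  on `[0, ∞)`: continuous (`Real.continuous_mul_log`), derivative `log (x + b) - log x ≥ 0` for `x > 0`
  (`monotoneOn_of_deriv_nonneg`); or use `Real.negMulLog` facts / convexity of `x log x`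
  (`Real.convexOn_mul_log`: slopes of a convex function increase, `ConvexOn.slope_mono...`).
* `down_log`: for a down-closed `E ⊆ V.powerset`:
  `Real.log (1 / wP E) * wP E ≤ Real.log 2 * wB E`.  Induction on `V` (all `E`).  `V = ∅`: `E = ∅` or
  `E = {∅}`, `wP = 0` or `1`, both sides `0`.  `V = insert k V'`: let `E0 = {Y ∈ E : k ∉ Y}`,
  `E1 = {Y ⊆ V' : insert k Y ∈ E}`, `E1 ⊆ E0` (down-closed), both down-closed in `V'.powerset`,
  `m0 = wP V' E0`, `m1 = wP V' E1`, `m1 ≤ m0`.  With `P = p k`, `Q = 1 - P = 2 ^ (- l k)`: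
  `wP V E = Q m0 + P m1`,
  `wB V E = Q wB V' E0 + P wB V' E1 + l k * Q * (m0 - m1)`
  (`pm_insert`, `pm_insert'`; `wB_eq` and `wj` in `H51/UC/Ic` may help).  By induction it remains to show,
  with `m = Q m0 + P m1` and natural logarithms (`Real.log 2 * l k = - Real.log Q`):
  `- m log m ≤ - Q m0 log m0 - P m1 log m1 - log Q * Q * (m0 - m1)`.
  `m0 = 0`: all zero.  Otherwise `t = m1 / m0 ∈ [0, 1]`, and after dividing by `m0` the claim is
  `(Q + P t) log (Q + P t) - Q log Q ≥ P t log t - t Q log Q`, which is `log_aux` with `a = Q`, `a' = t Q`,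
  `b = P t`: `(t Q + P t) log (t Q + P t) - t Q log (t Q) = t log t - t Q log t - t Q log Q
  = P t log t - t Q log Q` (`P + Q = 1`).
* `adm_log`: for `E ⊆ D` down-closed: `E = ∅` trivial; otherwise `0 < wP E ≤ wP D` (`wP` of `{∅} ⊆ E` is
  positive), so `logb 2 (1 / wP D) * wP E ≤ logb 2 (1 / wP E) * wP E ≤ wB E`.
-/

set_option autoImplicit false

namespace Pool.Agent.H62.UC

open Finset Pool.Agent.H51.UC

variable {α : Type*} [DecidableEq α]

theorem log_aux {a a' b : ℝ} (hb : 0 ≤ b) (ha' : 0 ≤ a') (h : a' ≤ a) :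
    (a' + b) * Real.log (a' + b) - a' * Real.log a' ≤
      (a + b) * Real.log (a + b) - a * Real.log a := by
  have hc : Continuous fun x : ℝ => (x + b) * Real.log (x + b) - x * Real.log x :=
    (Real.continuous_mul_log.comp (continuous_id.add continuous_const)).sub
      Real.continuous_mul_log
  have hd : ∀ x : ℝ, 0 < x → HasDerivAt (fun x : ℝ => (x + b) * Real.log (x + b) - x * Real.log x)
      (Real.log (x + b) + 1 - (Real.log x + 1)) x := by
    intro x hx
    have h1 : HasDerivAt (fun x : ℝ => x * Real.log x) (Real.log (x + b) + 1) (x + b) :=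
      Real.hasDerivAt_mul_log (by positivity)
    have h2 := h1.comp_add_const x b
    exact h2.sub (Real.hasDerivAt_mul_log hx.ne')
  have hm : MonotoneOn (fun x : ℝ => (x + b) * Real.log (x + b) - x * Real.log x) (Set.Ici 0) := by
    refine monotoneOn_of_deriv_nonneg (convex_Ici 0) hc.continuousOn ?_ ?_
    · intro x hx
      rw [interior_Ici] at hx
      exact (hd x hx).differentiableAt.differentiableWithinAt
    · intro x hx
      rw [interior_Ici] at hx
      rw [(hd x hx).deriv]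
      have h3 : Real.log x ≤ Real.log (x + b) := Real.log_le_log hx (by linarith)
      linarith
  exact hm (Set.mem_Ici.2 ha') (Set.mem_Ici.2 (ha'.trans h)) h

private theorem TSb_mul_log {Q x : ℝ} (hQ : 0 < Q) (hx : 0 ≤ x) :
    x * Real.log (Q * x) = x * (Real.log Q + Real.log x) := by
  rcases hx.eq_or_lt with h | h
  · rw [← h, zero_mul, zero_mul]
  · rw [Real.log_mul hQ.ne' h.ne']

private theorem TSb_ent {Q P m0 m1 : ℝ} (hQ : 0 < Q) (hP : 0 ≤ P) (hPQ : P + Q = 1) (h1 : 0 ≤ m1)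
    (h10 : m1 ≤ m0) : Q * (m0 * Real.log m0) + P * (m1 * Real.log m1) +
      Real.log Q * Q * (m0 - m1) ≤ (Q * m0 + P * m1) * Real.log (Q * m0 + P * m1) := by
  have h0 : 0 ≤ m0 := h1.trans h10
  have h := log_aux (a := Q * m0) (a' := Q * m1) (b := P * m1) (mul_nonneg hP h1)
    (mul_nonneg hQ.le h1) (mul_le_mul_of_nonneg_left h10 hQ.le)
  have e1 : Q * m1 + P * m1 = m1 := by
    rw [← add_mul, add_comm, hPQ, one_mul]
  have e2 : Q * m1 * Real.log (Q * m1) = Q * (m1 * (Real.log Q + Real.log m1)) := by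
    rw [mul_assoc, TSb_mul_log hQ h1]
  have e3 : Q * m0 * Real.log (Q * m0) = Q * (m0 * (Real.log Q + Real.log m0)) := by
    rw [mul_assoc, TSb_mul_log hQ h0]
  rw [e1, e2, e3] at h
  have e4 : P = 1 - Q := by linarith
  rw [e4] at h ⊢
  nlinarith [h]

private theorem TSb_wj_ins {V : Finset α} {p : α → ℝ} {k : α} (hk : k ∉ V)
    {E : Finset (Finset α)} {j : α} (hj : j ∈ V) :
    wj (insert k V) p E j = (1 - p k) * wj V p (E.filter (fun Y => k ∉ Y)) j +
      p k * wj V p (V.powerset.filter (fun Y => insert k Y ∈ E)) j := by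
  have hjk : j ≠ k := fun h => hk (h ▸ hj)
  unfold wj
  rw [erase_insert_of_ne hjk.symm, sum_powerset_insert (fun h => hk (mem_of_mem_erase h)),
    mul_sum, mul_sum]
  congr 1
  · refine sum_congr rfl fun Y hY => ?_
    have hYV : Y ⊆ V := (mem_powerset.1 hY).trans (erase_subset j V)
    have hkY : k ∉ Y := fun h => hk (hYV h)
    have hkj : k ∉ insert j Y := by
      rw [mem_insert, not_or]
      exact ⟨hjk.symm, hkY⟩
    rw [pm_insert hk hYV]
    simp only [mem_filter, hkY, hkj, not_false_eq_true, and_true]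
    split_ifs <;> simp
  · refine sum_congr rfl fun Y hY => ?_
    have hYV : Y ⊆ V := (mem_powerset.1 hY).trans (erase_subset j V)
    have hjYV : insert j Y ⊆ V := insert_subset hj hYV
    rw [pm_insert' hk hYV, Finset.insert_comm j k Y]
    simp only [mem_filter, mem_powerset, hYV, hjYV, true_and]
    split_ifs <;> simp

private theorem TSb_wj_k {V : Finset α} {p : α → ℝ} {k : α} (hk : k ∉ V)
    {E : Finset (Finset α)} (hE : E ⊆ (insert k V).powerset)
    (hE10 : V.powerset.filter (fun Y => insert k Y ∈ E) ⊆ E.filter (fun Y => k ∉ Y)) :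
    wj (insert k V) p E k = (1 - p k) * (wP V p (E.filter (fun Y => k ∉ Y)) -
      wP V p (V.powerset.filter (fun Y => insert k Y ∈ E))) := by
  unfold wj wP
  rw [erase_insert hk, ← sum_sdiff hE10, add_sub_cancel_right, mul_sum]
  have h1 : ∀ Y ∈ V.powerset, (if Y ∈ E ∧ insert k Y ∉ E then pm (insert k V) p Y else 0) =
      if Y ∈ E ∧ insert k Y ∉ E then (1 - p k) * pm V p Y else 0 := by
    intro Y hY
    rw [pm_insert hk (mem_powerset.1 hY)]
  rw [sum_congr rfl h1, ← sum_filter]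
  refine sum_congr ?_ fun _ _ => rfl
  ext Y
  simp only [mem_filter, mem_sdiff, mem_powerset]
  constructor
  · rintro ⟨h2, h3, h4⟩
    exact ⟨⟨h3, fun h => hk (h2 h)⟩, fun h => h4 h.2⟩
  · rintro ⟨⟨h2, h3⟩, h4⟩
    have h5 : Y ⊆ V := (subset_insert_iff_of_notMem h3).1 (mem_powerset.1 (hE h2))
    exact ⟨h5, h2, fun h => h4 ⟨h5, h⟩⟩

private theorem TSb_wP_ins {V : Finset α} {p : α → ℝ} {k : α} (hk : k ∉ V)
    {E : Finset (Finset α)} (hE : E ⊆ (insert k V).powerset) :
    wP (insert k V) p E = (1 - p k) * wP V p (E.filter (fun Y => k ∉ Y)) +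
      p k * wP V p (V.powerset.filter (fun Y => insert k Y ∈ E)) := by
  have h0 : E.filter (fun Y => k ∉ Y) ⊆ V.powerset := by
    intro Y hY
    rw [mem_filter] at hY
    exact mem_powerset.2 ((subset_insert_iff_of_notMem hY.2).1 (mem_powerset.1 (hE hY.1)))
  rw [wP_ind hE, wP_ind h0, wP_ind (filter_subset _ _), sum_powerset_insert hk, mul_sum, mul_sum]
  congr 1
  · refine sum_congr rfl fun Y hY => ?_
    have hYV : Y ⊆ V := mem_powerset.1 hY
    have hkY : k ∉ Y := fun h => hk (hYV h)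
    rw [pm_insert hk hYV]
    simp only [mem_filter, hkY, not_false_eq_true, and_true]
    split_ifs <;> simp
  · refine sum_congr rfl fun Y hY => ?_
    have hYV : Y ⊆ V := mem_powerset.1 hY
    rw [pm_insert' hk hYV]
    simp only [mem_filter, mem_powerset, hYV, true_and]
    split_ifs <;> simp

private theorem TSb_p {V : Finset α} {l : α → ℝ} (hl : ∀ j ∈ V, 0 < l j ∧ l j ≤ 1) :
    ∀ j ∈ V, 0 < (fun j => 1 - (2:ℝ) ^ (-l j)) j ∧ (fun j => 1 - (2:ℝ) ^ (-l j)) j < 1 := by
  intro j hj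
  have h1 : (2:ℝ) ^ (-l j) < 1 :=
    Real.rpow_lt_one_of_one_lt_of_neg (by norm_num) (by have := (hl j hj).1; linarith)
  have h2 : 0 < (2:ℝ) ^ (-l j) := Real.rpow_pos_of_pos (by norm_num) _
  constructor
  · show 0 < 1 - (2:ℝ) ^ (-l j)
    linarith
  · show 1 - (2:ℝ) ^ (-l j) < 1
    linarith

theorem down_log {V : Finset α} {l : α → ℝ} (hl : ∀ j ∈ V, 0 < l j ∧ l j ≤ 1)
    {E : Finset (Finset α)} (hE : E ⊆ V.powerset) (hD : Down E) :
    Real.log (1 / wP V (fun j => 1 - (2:ℝ) ^ (-l j)) E) * wP V (fun j => 1 - (2:ℝ) ^ (-l j)) E ≤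
      Real.log 2 * wB V (fun j => 1 - (2:ℝ) ^ (-l j)) l E := by
  induction V using Finset.induction_on generalizing E with
  | empty =>
    have hB : wB (∅ : Finset α) (fun j => 1 - (2:ℝ) ^ (-l j)) l E = 0 := by
      unfold wB
      simp
    rw [hB, mul_zero]
    rw [powerset_empty, subset_singleton_iff] at hE
    rcases hE with rfl | rfl
    · have : wP (∅ : Finset α) (fun j => 1 - (2:ℝ) ^ (-l j)) ∅ = 0 := by simp [wP]
      rw [this, mul_zero]
    · have : wP (∅ : Finset α) (fun j => 1 - (2:ℝ) ^ (-l j)) {∅} = 1 := by simp [wP, pm]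
      rw [this]
      simp
  | insert k V hk ih =>
    have hlV : ∀ j ∈ V, 0 < l j ∧ l j ≤ 1 := fun j hj => hl j (mem_insert_of_mem hj)
    have hlk := hl k (mem_insert_self k V)
    have hpV := TSb_p hlV
    set p : α → ℝ := fun j => 1 - (2:ℝ) ^ (-l j) with hp
    set E0 := E.filter (fun Y => k ∉ Y) with hE0
    set E1 := V.powerset.filter (fun Y => insert k Y ∈ E) with hE1
    have hE10 : E1 ⊆ E0 := by
      intro Y hY
      rw [hE1, mem_filter, mem_powerset] at hY
      rw [hE0, mem_filter]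
      exact ⟨hD _ hY.2 _ (subset_insert k Y), fun h => hk (hY.1 h)⟩
    have h0V : E0 ⊆ V.powerset := by
      intro Y hY
      rw [hE0, mem_filter] at hY
      exact mem_powerset.2 ((subset_insert_iff_of_notMem hY.2).1 (mem_powerset.1 (hE hY.1)))
    have h1V : E1 ⊆ V.powerset := filter_subset _ _
    have hD0 : Down E0 := by
      intro Y hY Z hZ
      rw [hE0, mem_filter] at hY ⊢
      exact ⟨hD Y hY.1 Z hZ, fun h => hY.2 (hZ h)⟩
    have hD1 : Down E1 := by
      intro Y hY Z hZ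
      rw [hE1, mem_filter, mem_powerset] at hY ⊢
      exact ⟨hZ.trans hY.1, hD _ hY.2 _ (insert_subset_insert k hZ)⟩
    have ih0 := ih hlV h0V hD0
    have ih1 := ih hlV h1V hD1
    have hpm : ∀ Y ∈ V.powerset, 0 ≤ pm V p Y := fun Y hY =>
      pm_nonneg (fun j hj => ⟨(hpV j hj).1.le, (hpV j hj).2.le⟩) (mem_powerset.1 hY)
    have m1n : 0 ≤ wP V p E1 := sum_nonneg fun Y hY => hpm Y (h1V hY)
    have m10 : wP V p E1 ≤ wP V p E0 :=
      sum_le_sum_of_subset_of_nonneg hE10 fun Y hY _ => hpm Y (h0V hY)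
    have eP : wP (insert k V) p E = (1 - p k) * wP V p E0 + p k * wP V p E1 := TSb_wP_ins hk hE
    have eB : wB (insert k V) p l E = (1 - p k) * wB V p l E0 + p k * wB V p l E1 +
        l k * ((1 - p k) * (wP V p E0 - wP V p E1)) := by
      rw [wB_eq hE, wB_eq h0V, wB_eq h1V, sum_insert hk, TSb_wj_k hk hE hE10, mul_sum, mul_sum,
        ← sum_add_distrib, add_comm]
      congr 1
      refine sum_congr rfl fun j hj => ?_
      rw [TSb_wj_ins hk hj]
      ring
    have hQ : 1 - p k = (2:ℝ) ^ (-l k) := by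
      rw [hp]
      ring
    have hQ0 : 0 < 1 - p k := by
      rw [hQ]
      exact Real.rpow_pos_of_pos (by norm_num) _
    have hP0 : 0 ≤ p k := by
      have : (2:ℝ) ^ (-l k) < 1 :=
        Real.rpow_lt_one_of_one_lt_of_neg (by norm_num) (by linarith [hlk.1])
      rw [← hQ] at this
      linarith
    have hlog : Real.log (1 - p k) = -(Real.log 2 * l k) := by
      rw [hQ, Real.log_rpow (by norm_num)]
      ring
    have key := TSb_ent hQ0 hP0 (by ring) m1n m10
    rw [one_div, Real.log_inv] at ih0 ih1 ⊢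
    rw [eP, eB]
    rw [hlog] at key
    have i0 := mul_le_mul_of_nonneg_left ih0 hQ0.le
    have i1 := mul_le_mul_of_nonneg_left ih1 hP0
    nlinarith [key, i0, i1]

theorem adm_log {V : Finset α} {l : α → ℝ} (hl : ∀ j ∈ V, 0 < l j ∧ l j ≤ 1)
    {D : Finset (Finset α)} (hDV : D ⊆ V.powerset) :
    Adm V (fun j => 1 - (2:ℝ) ^ (-l j)) l D
      (Real.logb 2 (1 / wP V (fun j => 1 - (2:ℝ) ^ (-l j)) D)) := by
  intro E hED hE
  have hpV := TSb_p hl
  rcases E.eq_empty_or_nonempty with rfl | ⟨Y, hY⟩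
  · simp [wP, wB]
  · have h := down_log hl (hED.trans hDV) hE
    set p : α → ℝ := fun j => 1 - (2:ℝ) ^ (-l j) with hp
    have hpos : ∀ Z ∈ V.powerset, 0 < pm V p Z := fun Z hZ => pm_pos hpV (mem_powerset.1 hZ)
    have hE0 : 0 < wP V p E := sum_pos (fun Z hZ => hpos Z (hDV (hED hZ))) ⟨Y, hY⟩
    have hED' : wP V p E ≤ wP V p D :=
      sum_le_sum_of_subset_of_nonneg hED fun Z hZ _ => (hpos Z (hDV hZ)).le
    have hlog2 : 0 < Real.log 2 := Real.log_pos (by norm_num)
    have h1 : Real.log (1 / wP V p D) ≤ Real.log (1 / wP V p E) := by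
      rw [one_div, one_div, Real.log_inv, Real.log_inv]
      have := Real.log_le_log hE0 hED'
      linarith
    have h2 : Real.log (1 / wP V p D) * wP V p E ≤ Real.log 2 * wB V p l E :=
      (mul_le_mul_of_nonneg_right h1 hE0.le).trans h
    unfold Real.logb
    rw [div_mul_eq_mul_div, div_le_iff₀ hlog2]
    linarith

end Pool.Agent.H62.UC
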