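import Pool.Agent.H78.UC.Gw

/-!
Row TSf (helper78, interface).  The reduction for one point.
-/

set_option autoImplicit false

namespace Pool.Agent.H62.UC

open Finset Pool.Agent.H51.UC

variable {α : Type*} [DecidableEq α]

theorem gw {A B : Finset (Finset α)} {S : Finset α} (hB : ∀ T ∈ B, ∀ T' ∈ B, T ∪ T' ∈ B)
    (hBS : ∀ T ∈ B, T ⊆ S) (hAB : ∀ T ∈ A, T ⊆ S → ∀ w ∈ B, T ∪ w ∈ B) {i : α} (hi : i ∈ S)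
    {p l : α → ℝ} (hp : ∀ j ∈ S.erase i, 0 < p j ∧ p j ≤ 1 / 2) (hl : ∀ j ∈ S.erase i, 0 ≤ l j)
    {L : ℝ} (hL : Adm (S.erase i) p l (Ds A S i) L) :
    L * ((Ns B i).card : ℝ) ≤ ∑ e ∈ Bp B S i, l e.2 * (1 / 2 : ℝ) ^ kk B e := by
  exact H78.UC.gw hB hBS hAB hi hp hl hL

theorem gw_lt {A B : Finset (Finset α)} {S : Finset α} (hB : ∀ T ∈ B, ∀ T' ∈ B, T ∪ T' ∈ B)
    (hBS : ∀ T ∈ B, T ⊆ S) (hAB : ∀ T ∈ A, T ⊆ S → ∀ w ∈ B, T ∪ w ∈ B) {i : α} (hi : i ∈ S)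
    {p l : α → ℝ} (hp : ∀ j ∈ S.erase i, 0 < p j ∧ p j ≤ 1 / 2) (hl : ∀ j ∈ S.erase i, 0 ≤ l j)
    {L : ℝ} (hL : Adm (S.erase i) p l (Ds A S i) L) {e0 : Finset α × α} (he0 : e0 ∈ Bp B S i)
    (hl0 : 0 < l e0.2) (hW : lg B (e0.1.erase e0.2) ∈ B)
    (hs : wP (S.erase i) p (fib2 B S i e0.2 e0.1) <
      (1 / 2 : ℝ) ^ kk B e0 * wP (S.erase i) p (fib B S i (lg B (e0.1.erase e0.2)))) :
    L * ((Ns B i).card : ℝ) < ∑ e ∈ Bp B S i, l e.2 * (1 / 2 : ℝ) ^ kk B e := by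
  exact H78.UC.gw_lt hB hBS hAB hi hp hl hL he0 hl0 hW hs

end Pool.Agent.H62.UC
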