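import Pool.Agent.H62.UC.Tf
import Pool.Agent.H62.UC.Me

/-!
Row TSg.  Sum over the points of `S`.

`bsum`: `∑_{i ∈ S} ∑_{e ∈ Bp B S i} lam e.2 * (1/2) ^ kk B e ≤ ∑_{j ∈ S} lam j * |Bd B j|`.
Proof.  Let `P = (B ×ˢ S).filter (fun e => e.2 ∈ e.1 ∧ e.1.erase e.2 ∉ B)` and, for `e ∈ P`,
`K e = e.1.erase e.2 \ lg B (e.1.erase e.2)`.  `Bp B S i = P.filter (i ∈ K e)`.  Exchange the sums
(`sum_filter`, `sum_comm`): for `e ∈ P` the inner sum over `i ∈ S`, `i ∈ K e` is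
`|{i ∈ S : i ∈ K e}| * lam e.2 * (1/2) ^ (|K e| - 1) ≤ |K e| (1/2) ^ (|K e| - 1) lam e.2 ≤ lam e.2`
(`k * (1/2) ^ (k - 1) ≤ 1` for every natural `k`; `k ≤ 2 ^ (k - 1)` for `k ≥ 1`).  Finally
`∑_{e ∈ P} lam e.2 = ∑_{j ∈ S} |Bd B j| lam j` (`sum_filter`, `sum_product_right`, `Bd B j` is the fibre).

`sum_bound`: `gw` with `p = pr lam i`, `l = fun j => min 1 (lam j / lam i)` (`pr_bounds`), multiplied by
`lam i > 0`; `lam i * min 1 (lam j / lam i) ≤ lam j`; then `bsum`.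
-/

set_option autoImplicit false

namespace Pool.Agent.H62.UC

open Finset Pool.Agent.H51.UC

variable {α : Type*} [DecidableEq α]

private theorem tg_pow (k : ℕ) : (k : ℝ) * (1 / 2) ^ (k - 1) ≤ 1 := by
  rcases k with _ | k
  · simp
  · simp only [Nat.add_sub_cancel]
    have h : ((k + 1 : ℕ) : ℝ) ≤ 2 ^ k := by
      exact_mod_cast Nat.lt_two_pow_self (n := k)
    rw [one_div, inv_pow, ← div_eq_mul_inv, div_le_one (by positivity)]
    exact h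

theorem bsum (B : Finset (Finset α)) (S : Finset α) {lam : α → ℝ} (hlam : ∀ i ∈ S, 0 < lam i) :
    ∑ i ∈ S, ∑ e ∈ Bp B S i, lam e.2 * (1 / 2 : ℝ) ^ kk B e ≤
      ∑ j ∈ S, lam j * ((Bd B j).card : ℝ) := by
  have h1 : ∀ i ∈ S, ∑ e ∈ Bp B S i, lam e.2 * (1 / 2 : ℝ) ^ kk B e =
      ∑ e ∈ B ×ˢ S, if e.2 ∈ e.1 ∧ e.1.erase e.2 ∉ B ∧ i ∈ e.1.erase e.2 \ lg B (e.1.erase e.2) then
        lam e.2 * (1 / 2 : ℝ) ^ kk B e else 0 := by
    intro i _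
    rw [Bp, sum_filter]
  have h2 : ∑ j ∈ S, lam j * ((Bd B j).card : ℝ) =
      ∑ e ∈ B ×ˢ S, if e.2 ∈ e.1 ∧ e.1.erase e.2 ∉ B then lam e.2 else 0 := by
    rw [sum_product_right]
    refine sum_congr rfl fun j _ => ?_
    dsimp only
    rw [← sum_filter, sum_const, nsmul_eq_mul, mul_comm]
    rfl
  rw [sum_congr rfl h1, sum_comm, h2]
  refine sum_le_sum fun e he => ?_
  by_cases hP : e.2 ∈ e.1 ∧ e.1.erase e.2 ∉ B
  · rw [if_pos hP]
    have h3 : ∀ i ∈ S, (if e.2 ∈ e.1 ∧ e.1.erase e.2 ∉ B ∧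
        i ∈ e.1.erase e.2 \ lg B (e.1.erase e.2) then lam e.2 * (1 / 2 : ℝ) ^ kk B e else 0) =
        if i ∈ e.1.erase e.2 \ lg B (e.1.erase e.2) then lam e.2 * (1 / 2 : ℝ) ^ kk B e else 0 :=
      fun i _ => if_congr ⟨fun h => h.2.2, fun h => ⟨hP.1, hP.2, h⟩⟩ rfl rfl
    rw [sum_congr rfl h3, ← sum_filter, sum_const, nsmul_eq_mul]
    have hl : 0 < lam e.2 := hlam _ (mem_product.1 he).2
    have h4 : ((S.filter fun i => i ∈ e.1.erase e.2 \ lg B (e.1.erase e.2)).card : ℝ) ≤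
        ((e.1.erase e.2 \ lg B (e.1.erase e.2)).card : ℝ) := by
      exact_mod_cast card_le_card fun i hi => (mem_filter.1 hi).2
    have h5 := tg_pow (e.1.erase e.2 \ lg B (e.1.erase e.2)).card
    have h6 : (0 : ℝ) ≤ (1 / 2 : ℝ) ^ kk B e := by positivity
    calc ((S.filter fun i => i ∈ e.1.erase e.2 \ lg B (e.1.erase e.2)).card : ℝ) *
          (lam e.2 * (1 / 2 : ℝ) ^ kk B e)
        ≤ ((e.1.erase e.2 \ lg B (e.1.erase e.2)).card : ℝ) * (lam e.2 * (1 / 2 : ℝ) ^ kk B e) :=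
          mul_le_mul_of_nonneg_right h4 (mul_nonneg hl.le h6)
      _ = lam e.2 * (((e.1.erase e.2 \ lg B (e.1.erase e.2)).card : ℝ) * (1 / 2 : ℝ) ^ kk B e) := by ring
      _ ≤ lam e.2 * 1 := mul_le_mul_of_nonneg_left h5 hl.le
      _ = lam e.2 := mul_one _
  · rw [if_neg hP]
    refine le_of_eq (sum_eq_zero fun i _ => if_neg fun h => hP ⟨h.1, h.2.1⟩)

theorem sum_bound {A B : Finset (Finset α)} {S : Finset α}
    (hB : ∀ T ∈ B, ∀ T' ∈ B, T ∪ T' ∈ B) (hBS : ∀ T ∈ B, T ⊆ S)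
    (hAB : ∀ T ∈ A, T ⊆ S → ∀ w ∈ B, T ∪ w ∈ B) {lam : α → ℝ} (hlam : ∀ i ∈ S, 0 < lam i)
    {L : α → ℝ} (hL : ∀ i ∈ S, Adm (S.erase i) (pr lam i) (fun j => min 1 (lam j / lam i))
      (Ds A S i) (L i)) :
    ∑ i ∈ S, lam i * (L i * ((Ns B i).card : ℝ)) ≤ ∑ j ∈ S, lam j * ((Bd B j).card : ℝ) := by
  refine le_trans (sum_le_sum fun i hi => ?_) (bsum B S hlam)
  have hli := hlam i hi
  have h1 := gw hB hBS hAB hi (p := pr lam i) (l := fun j => min 1 (lam j / lam i))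
    (fun j hj => pr_bounds hli (hlam j (mem_of_mem_erase hj)))
    (fun j hj => le_min zero_le_one (div_nonneg (hlam j (mem_of_mem_erase hj)).le hli.le)) (hL i hi)
  refine (mul_le_mul_of_nonneg_left h1 hli.le).trans ?_
  rw [mul_sum]
  refine sum_le_sum fun e _ => ?_
  rw [← mul_assoc]
  refine mul_le_mul_of_nonneg_right ?_ (by positivity)
  calc lam i * min 1 (lam e.2 / lam i) ≤ lam i * (lam e.2 / lam i) :=
        mul_le_mul_of_nonneg_left (min_le_right _ _) hli.le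
    _ = lam e.2 := by
        rw [mul_comm, div_mul_cancel₀ _ hli.ne']

end Pool.Agent.H62.UC
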