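import Pool.Agent.H62.UC.Tg
import Pool.Agent.H62.UC.Md

/-!
Row TSh.  Slices and the main inequality.

For `R` disjoint from `S` let `sl A S R` be the family of the traces `T ∩ S` of the `T ∈ A` with
`T \ S = R`; `w ∈ sl A S R ↔ w ⊆ S ∧ w ∪ R ∈ A` (`mem_sl`).
* `sl` is union-closed, its members lie in `S`, and `T ∈ A`, `T ⊆ S`, `w ∈ sl A S R` imply
  `T ∪ w ∈ sl A S R`.
* For `i ∈ S` and `𝓡 = ((A.sup id) \ S).powerset` (every `T ∈ A` has `T \ S ∈ 𝓡`; `T = (T ∩ S) ∪ (T \ S)`):
  `∑_{R ∈ 𝓡} |Ns (sl A S R) i| = |Ns A i|` and `∑_{R ∈ 𝓡} |Bd (sl A S R) i| = |Bd A i|`: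
  `Ns A i` is the disjoint union of its parts with `T \ S = R` (`card_eq_sum_card_fiberwise`), and
  `w ↦ w ∪ R` is a bijection from `Ns (sl A S R) i` to such a part (`insert i (w ∪ R) = insert i w ∪ R`,
  `(w ∪ R) \ S = R`, `(w ∪ R) ∩ S = w`; `(w ∪ R).erase i = w.erase i ∪ R` as `i ∉ R`).
* `star_main`: sum `sum_bound` for `B = sl A S R` over `R ∈ 𝓡`, exchange the sums, and use
  `freq_identity`: `2 freq - |A| = |Bd A i| - |Ns A i|`.
-/

set_option autoImplicit false

namespace Pool.Agent.H62.UC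

open Finset Pool.Agent.H51.UC

variable {α : Type*} [DecidableEq α]

/-- The traces on `S` of the members whose part outside `S` is `R`. -/
def sl (A : Finset (Finset α)) (S R : Finset α) : Finset (Finset α) :=
  (A.filter fun T => T \ S = R).image (· ∩ S)

theorem mem_sl {A : Finset (Finset α)} {S R : Finset α} (hR : Disjoint R S) {w : Finset α} :
    w ∈ sl A S R ↔ w ⊆ S ∧ w ∪ R ∈ A := by
  unfold sl
  rw [mem_image]
  constructor
  · rintro ⟨T, hT, rfl⟩
    rw [mem_filter] at hT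
    refine ⟨inter_subset_right, ?_⟩
    rw [← hT.2]
    have h : T ∩ S ∪ T \ S = T := by
      ext x
      simp only [mem_union, mem_inter, mem_sdiff]
      tauto
    rw [h]
    exact hT.1
  · rintro ⟨hw, hA⟩
    refine ⟨w ∪ R, mem_filter.2 ⟨hA, ?_⟩, ?_⟩
    · ext x
      simp only [mem_union, mem_sdiff]
      constructor
      · rintro ⟨h1 | h1, h2⟩
        · exact absurd (hw h1) h2
        · exact h1
      · intro h
        exact ⟨Or.inr h, fun h' => (disjoint_left.1 hR h h').elim⟩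
    · ext x
      simp only [mem_union, mem_inter]
      constructor
      · rintro ⟨h1 | h1, h2⟩
        · exact h1
        · exact (disjoint_left.1 hR h1 h2).elim
      · intro h
        exact ⟨Or.inl h, hw h⟩

private theorem parts {S R w : Finset α} (hR : Disjoint R S) (hw : w ⊆ S) :
    (w ∪ R) \ S = R ∧ (w ∪ R) ∩ S = w := by
  constructor
  · ext x
    simp only [mem_union, mem_sdiff]
    constructor
    · rintro ⟨h1 | h1, h2⟩
      · exact absurd (hw h1) h2
      · exact h1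
    · intro h
      exact ⟨Or.inr h, fun h' => (disjoint_left.1 hR h h').elim⟩
  · ext x
    simp only [mem_union, mem_inter]
    constructor
    · rintro ⟨h1 | h1, h2⟩
      · exact h1
      · exact (disjoint_left.1 hR h1 h2).elim
    · intro h
      exact ⟨Or.inl h, hw h⟩

private theorem join (T S : Finset α) : T ∩ S ∪ T \ S = T := by
  ext x
  simp only [mem_union, mem_inter, mem_sdiff]
  tauto

private theorem disj {A : Finset (Finset α)} {S R : Finset α}
    (hR : R ∈ ((A.sup id) \ S).powerset) : Disjoint R S :=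
  disjoint_of_subset_left (mem_powerset.1 hR) sdiff_disjoint

private theorem maps (A : Finset (Finset α)) (S : Finset α) {T : Finset α} (hT : T ∈ A) :
    T \ S ∈ ((A.sup id) \ S).powerset := by
  rw [mem_powerset]
  have h : T ⊆ A.sup id := Finset.le_sup (f := id) hT
  exact sdiff_subset_sdiff h (Subset.refl S)

theorem sum_Ns_sl (A : Finset (Finset α)) {S : Finset α} {i : α} (hi : i ∈ S) :
    ∑ R ∈ ((A.sup id) \ S).powerset, (Ns (sl A S R) i).card = (Ns A i).card := by
  symm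
  rw [card_eq_sum_card_fiberwise (f := fun T : Finset α => T \ S)
    (t := ((A.sup id) \ S).powerset) (fun T hT => maps A S (mem_Ns.1 hT).1)]
  refine sum_congr rfl fun R hR => ?_
  have hd := disj hR
  symm
  refine card_bij' (fun w _ => w ∪ R) (fun T _ => T ∩ S) ?_ ?_ ?_ ?_
  · intro w hw
    rw [mem_Ns, mem_sl hd, mem_sl hd] at hw
    obtain ⟨⟨h1, h2⟩, h3, h4⟩ := hw
    have h5 : i ∉ R := fun h => disjoint_left.1 hd h hi
    rw [mem_filter, mem_Ns]
    refine ⟨⟨h2, ?_, ?_⟩, (parts hd h1).1⟩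
    · rw [mem_union]
      exact not_or.2 ⟨h3, h5⟩
    · intro h
      exact h4 ⟨insert_subset hi h1, by rw [insert_union]; exact h⟩
  · intro T hT
    rw [mem_filter, mem_Ns] at hT
    obtain ⟨⟨h1, h2, h3⟩, h4⟩ := hT
    have hj := join T S
    rw [h4] at hj
    rw [mem_Ns, mem_sl hd, mem_sl hd]
    refine ⟨⟨inter_subset_right, by rw [hj]; exact h1⟩, ?_, ?_⟩
    · intro h
      exact h2 (mem_inter.1 h).1
    · rintro ⟨-, h5⟩
      rw [insert_union, hj] at h5
      exact h3 h5
  · intro w hw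
    rw [mem_Ns, mem_sl hd] at hw
    exact (parts hd hw.1.1).2
  · intro T hT
    rw [mem_filter] at hT
    have hj := join T S
    rw [hT.2] at hj
    exact hj

theorem sum_Bd_sl (A : Finset (Finset α)) {S : Finset α} {i : α} (hi : i ∈ S) :
    ∑ R ∈ ((A.sup id) \ S).powerset, (Bd (sl A S R) i).card = (Bd A i).card := by
  symm
  rw [card_eq_sum_card_fiberwise (f := fun T : Finset α => T \ S)
    (t := ((A.sup id) \ S).powerset) (fun T hT => maps A S (mem_Bd.1 hT).1)]
  refine sum_congr rfl fun R hR => ?_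
  have hd := disj hR
  have h5 : i ∉ R := fun h => disjoint_left.1 hd h hi
  symm
  refine card_bij' (fun w _ => w ∪ R) (fun T _ => T ∩ S) ?_ ?_ ?_ ?_
  · intro w hw
    rw [mem_Bd, mem_sl hd, mem_sl hd] at hw
    obtain ⟨⟨h1, h2⟩, h3, h4⟩ := hw
    rw [mem_filter, mem_Bd]
    refine ⟨⟨h2, mem_union_left R h3, ?_⟩, (parts hd h1).1⟩
    intro h
    refine h4 ⟨(erase_subset i w).trans h1, ?_⟩
    rw [erase_union_distrib, erase_eq_of_notMem h5] at h
    exact h
  · intro T hT
    rw [mem_filter, mem_Bd] at hT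
    obtain ⟨⟨h1, h2, h3⟩, h4⟩ := hT
    have hj := join T S
    rw [h4] at hj
    rw [mem_Bd, mem_sl hd, mem_sl hd]
    refine ⟨⟨inter_subset_right, by rw [hj]; exact h1⟩, mem_inter.2 ⟨h2, hi⟩, ?_⟩
    rintro ⟨-, h6⟩
    apply h3
    have h7 : (T ∩ S).erase i ∪ R = T.erase i := by
      have h8 : ((T ∩ S) ∪ R).erase i = (T ∩ S).erase i ∪ R := by
        rw [erase_union_distrib, erase_eq_of_notMem h5]
      rw [← h8, hj]
    rw [← h7]
    exact h6
  · intro w hw
    rw [mem_Bd, mem_sl hd] at hw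
    exact (parts hd hw.1.1).2
  · intro T hT
    rw [mem_filter] at hT
    have hj := join T S
    rw [hT.2] at hj
    exact hj

theorem star_main {A : Finset (Finset α)} (hA : ∀ S ∈ A, ∀ T ∈ A, S ∪ T ∈ A) {S : Finset α}
    {lam : α → ℝ} (hlam : ∀ i ∈ S, 0 < lam i) {L : α → ℝ}
    (hL : ∀ i ∈ S, Adm (S.erase i) (pr lam i) (fun j => min 1 (lam j / lam i)) (Ds A S i) (L i)) :
    ∑ i ∈ S, lam i * (((Ns A i).card : ℝ) * (L i - 1)) ≤
      ∑ i ∈ S, lam i * (2 * ((A.filter (fun T => i ∈ T)).card : ℝ) - (A.card : ℝ)) := by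
  have key : ∀ R ∈ ((A.sup id) \ S).powerset,
      ∑ i ∈ S, lam i * (L i * ((Ns (sl A S R) i).card : ℝ)) ≤
        ∑ j ∈ S, lam j * ((Bd (sl A S R) j).card : ℝ) := by
    intro R hR
    have hd := disj hR
    refine sum_bound (A := A) (B := sl A S R) (S := S) ?_ ?_ ?_ hlam hL
    · intro T hT T' hT'
      rw [mem_sl hd] at hT hT' ⊢
      refine ⟨union_subset hT.1 hT'.1, ?_⟩
      have h := hA _ hT.2 _ hT'.2
      have h1 : T ∪ R ∪ (T' ∪ R) = T ∪ T' ∪ R := by
        ext x
        simp only [mem_union]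
        tauto
      rw [h1] at h
      exact h
    · intro T hT
      exact ((mem_sl hd).1 hT).1
    · intro T hT hTS w hw
      rw [mem_sl hd] at hw ⊢
      refine ⟨union_subset hTS hw.1, ?_⟩
      rw [union_assoc]
      exact hA _ hT _ hw.2
  have h1 := sum_le_sum key
  rw [sum_comm, sum_comm (s := ((A.sup id) \ S).powerset)] at h1
  have h2 : ∀ i ∈ S, ∑ R ∈ ((A.sup id) \ S).powerset,
      lam i * (L i * ((Ns (sl A S R) i).card : ℝ)) = lam i * (L i * ((Ns A i).card : ℝ)) := by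
    intro i hi
    rw [← mul_sum, ← mul_sum, ← sum_Ns_sl A hi]
    push_cast
    rfl
  have h3 : ∀ i ∈ S, ∑ R ∈ ((A.sup id) \ S).powerset,
      lam i * ((Bd (sl A S R) i).card : ℝ) = lam i * ((Bd A i).card : ℝ) := by
    intro i hi
    rw [← mul_sum, ← sum_Bd_sl A hi]
    push_cast
    rfl
  rw [sum_congr rfl h2, sum_congr rfl h3] at h1
  have h4 : ∀ i ∈ S, lam i * (2 * ((A.filter (fun T => i ∈ T)).card : ℝ) - (A.card : ℝ)) =
      lam i * ((Bd A i).card : ℝ) - lam i * ((Ns A i).card : ℝ) := by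
    intro i _
    rw [freq_identity, mul_sub]
  have h5 : ∀ i ∈ S, lam i * (((Ns A i).card : ℝ) * (L i - 1)) =
      lam i * (L i * ((Ns A i).card : ℝ)) - lam i * ((Ns A i).card : ℝ) := by
    intro i _
    ring
  rw [sum_congr rfl h4, sum_congr rfl h5, sum_sub_distrib, sum_sub_distrib]
  linarith

end Pool.Agent.H62.UC
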