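import Pool.Agent.H62.UC.Th
import Pool.Agent.H62.UC.Ta

/-!
Row TSi.  Equality (equal weights, `S = U = A.sup id`).

`half_pr`: `pr (fun _ => 1) i j = 1 / 2` and `min 1 (1 / 1) = 1`, so `Adm` for `pr (fun _ => 1) i` is `Adm` for
`fun _ => 1 / 2`, `fun _ => 1` (`funext`, `norm_num [pr]`).
`adm_one`: if `wP (S.erase i) (1/2) (Ds A S i) ≤ 2/3` then `Adm (S.erase i) (1/2) 1 (Ds A S i) 1`
(`adm_two_thirds`, `Ds_dn`).

`eq_case`.  `A` union-closed, `U = A.sup id`, all densities at most `2/3`, all `2 freq i ≤ |A|` for `i ∈ U`.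
For `i ∈ U` let `g i = ∑_{e ∈ Bp A U i} (1/2) ^ kk A e`.  `gw` with `L = 1` (and `B = A`, `S = U`, `l = 1`)
gives `|Ns A i| ≤ g i`; `bsum` (`lam = 1`) gives `∑ g i ≤ ∑ |Bd A i|`; `freq_identity` gives
`∑ (|Bd A i| - |Ns A i|) = ∑ (2 freq i - |A|) ≤ 0`.  So all these inequalities are equalities, termwise:
`2 freq i = |A|` and `|Ns A i| = g i` for all `i ∈ U` (`Finset.sum_eq_sum_iff_of_le`).
-/

set_option autoImplicit false

namespace Pool.Agent.H62.UC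

open Finset Pool.Agent.H51.UC

variable {α : Type*} [DecidableEq α]

theorem half_pr (i : α) : pr (fun _ : α => (1 : ℝ)) i = fun _ => 1 / 2 := by
  funext j
  have h1 : min (1 : ℝ) (1 / 1) = 1 := by norm_num
  unfold pr
  simp only [h1, Real.rpow_neg_one]
  norm_num

theorem half_l (i : α) : (fun j : α => min 1 ((fun _ : α => (1 : ℝ)) j / (fun _ : α => (1 : ℝ)) i)) =
    fun _ => (1 : ℝ) := by
  funext j
  norm_num

theorem eq_case {A : Finset (Finset α)} (hA : ∀ S ∈ A, ∀ T ∈ A, S ∪ T ∈ A)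
    (hd : ∀ i ∈ A.sup id, wP ((A.sup id).erase i) (fun _ => 1 / 2) (Ds A (A.sup id) i) ≤ 2 / 3)
    (hf : ∀ i ∈ A.sup id, 2 * (A.filter (fun T => i ∈ T)).card ≤ A.card) :
    ∀ i ∈ A.sup id, 2 * (A.filter (fun T => i ∈ T)).card = A.card ∧
      ((Ns A i).card : ℝ) = ∑ e ∈ Bp A (A.sup id) i, (1 / 2 : ℝ) ^ kk A e := by
  have hsub : ∀ T ∈ A, T ⊆ A.sup id := fun T hT => Finset.le_sup (f := id) hT
  have hg : ∀ i ∈ A.sup id, ((Ns A i).card : ℝ) ≤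
      ∑ e ∈ Bp A (A.sup id) i, (1 / 2 : ℝ) ^ kk A e := by
    intro i hi
    have hadm : Adm ((A.sup id).erase i) (fun _ => 1 / 2) (fun _ => 1) (Ds A (A.sup id) i) 1 :=
      adm_two_thirds (fun Y hY => mem_powerset.2 (mem_Ds.1 hY).1) (Ds_dn A _ i) (hd i hi)
    have h1 := gw (A := A) (B := A) (S := A.sup id) hA hsub (fun T hT _ w hw => hA T hT w hw) hi
      (p := fun _ => (1 / 2 : ℝ)) (l := fun _ => (1 : ℝ))
      (fun j _ => ⟨by norm_num, le_refl _⟩) (fun j _ => zero_le_one) hadm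
    simpa only [one_mul] using h1
  have hb : ∑ i ∈ A.sup id, ∑ e ∈ Bp A (A.sup id) i, (1 / 2 : ℝ) ^ kk A e ≤
      ∑ j ∈ A.sup id, ((Bd A j).card : ℝ) := by
    have h1 := bsum A (A.sup id) (lam := fun _ => (1 : ℝ)) (fun i _ => zero_lt_one)
    simpa only [one_mul] using h1
  have hnp : ∀ i ∈ A.sup id, 2 * ((A.filter (fun T => i ∈ T)).card : ℝ) - (A.card : ℝ) ≤ 0 := by
    intro i hi
    have h1 : ((2 * (A.filter (fun T => i ∈ T)).card : ℕ) : ℝ) ≤ (A.card : ℝ) :=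
      Nat.cast_le.2 (hf i hi)
    rw [Nat.cast_mul, Nat.cast_ofNat] at h1
    linarith
  have hsum : ∑ i ∈ A.sup id, (2 * ((A.filter (fun T => i ∈ T)).card : ℝ) - (A.card : ℝ)) =
      ∑ i ∈ A.sup id, ((Bd A i).card : ℝ) - ∑ i ∈ A.sup id, ((Ns A i).card : ℝ) := by
    rw [← sum_sub_distrib]
    exact sum_congr rfl fun i _ => freq_identity A i
  have hle : ∑ i ∈ A.sup id, ((Ns A i).card : ℝ) ≤
      ∑ i ∈ A.sup id, ∑ e ∈ Bp A (A.sup id) i, (1 / 2 : ℝ) ^ kk A e := sum_le_sum hg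
  have hle0 : ∑ i ∈ A.sup id, (2 * ((A.filter (fun T => i ∈ T)).card : ℝ) - (A.card : ℝ)) ≤ 0 :=
    sum_nonpos hnp
  have h0 : ∑ i ∈ A.sup id, (2 * ((A.filter (fun T => i ∈ T)).card : ℝ) - (A.card : ℝ)) = 0 := by
    refine le_antisymm hle0 ?_
    rw [hsum]
    linarith
  have h1 : ∑ i ∈ A.sup id, ((Ns A i).card : ℝ) =
      ∑ i ∈ A.sup id, ∑ e ∈ Bp A (A.sup id) i, (1 / 2 : ℝ) ^ kk A e := by
    refine le_antisymm hle ?_
    rw [hsum] at h0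
    linarith
  intro i hi
  refine ⟨?_, (sum_eq_sum_iff_of_le hg).1 h1 i hi⟩
  have h2 := (sum_eq_zero_iff_of_nonpos hnp).1 h0 i hi
  have h3 : ((2 * (A.filter (fun T => i ∈ T)).card : ℕ) : ℝ) = (A.card : ℝ) := by
    rw [Nat.cast_mul, Nat.cast_ofNat]
    linarith
  exact Nat.cast_injective h3

end Pool.Agent.H62.UC
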