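import Pool.Agent.H62.UC.Defs

/-!
# TIKA (`reg_inv`, `tik_row`, `tik_row_le`, `tik_pos`): regularised projections and the inequality of tracial dimensions

For a bounded operator `T : E → F` between Hilbert spaces and `ε > 0` let
`R_ε = (T T* + ε)⁻¹` (`T T* + ε` is bounded below and self-adjoint, so invertible; or: spectrum).
* `0 ≤ T* R_ε T ≤ 1`;
* `T* R_ε T (T* w) = T* w - ε T* R_ε w` and `‖ε T* R_ε w‖² ≤ ε ‖w‖²`, so `T* R_ε T v → v` for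
  `v` in the closure of the range of `T*`, i.e. for `v ⟂ ker T`.
* `R_ε` commutes with everything that commutes with `T T*`.
Dimension inequality `dim_le`: `N` with separating trace vector `Ω`, `X, Y ∈ N`; then for
`T (ζ, ω) = X ζ + Y ω` the trace of `T* R_ε T` on `H ⊕ H` (the sum of the two diagonal vector states)
is `⟪Ω, X* R X Ω⟫ + ⟪Ω, Y* R Y Ω⟫ = ⟪Ω, R (X X* + Y Y*) Ω⟫ ≤ ‖Ω‖²`.
-/

namespace Pool.H62.UC

open scoped InnerProductSpace TensorProduct ComplexConjugate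
open Filter Topology ContinuousLinearMap

set_option linter.unusedSectionVars false

noncomputable section


variable {H : Type*} [NormedAddCommGroup H] [InnerProductSpace ℂ H] [CompleteSpace H]

theorem tika_inner_self (x : H) : (⟪x, x⟫_ℂ).re = ‖x‖ ^ 2 := by
  have := inner_self_eq_norm_sq (𝕜 := ℂ) x
  simpa using this

/-- lower bound for `Z + ε` -/
theorem tika_low (Z : H →L[ℂ] H) (hZ : Z.IsPositive) (ε : ℝ) (x : H) :
    ε * ‖x‖ ^ 2 ≤ (⟪x, (Z + (ε : ℂ) • (1 : H →L[ℂ] H)) x⟫_ℂ).re := by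
  have h1 : 0 ≤ (⟪x, Z x⟫_ℂ).re := hZ.re_inner_nonneg_right x
  have h2 : (Z + (ε : ℂ) • (1 : H →L[ℂ] H)) x = Z x + (ε : ℂ) • x := rfl
  rw [h2, inner_add_right, inner_smul_right, Complex.add_re, Complex.re_ofReal_mul,
    tika_inner_self]
  linarith

/-- `‖ε R u‖ ≤ ‖u‖` -/
theorem tika_bound (Z : H →L[ℂ] H) (hZ : Z.IsPositive) (ε : ℝ) (hε : 0 < ε) (R : H →L[ℂ] H)
    (hR : (Z + (ε : ℂ) • (1 : H →L[ℂ] H)) * R = 1) (u : H) : ‖(ε : ℂ) • R u‖ ≤ ‖u‖ := by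
  have h1 := tika_low Z hZ ε (R u)
  have h2 : (Z + (ε : ℂ) • (1 : H →L[ℂ] H)) (R u) = u := by
    have := congrArg (fun T : H →L[ℂ] H => T u) hR
    exact this
  rw [h2] at h1
  have h3 : (⟪R u, u⟫_ℂ).re ≤ ‖R u‖ * ‖u‖ :=
    (Complex.re_le_norm _).trans (norm_inner_le_norm _ _)
  rw [norm_smul, Complex.norm_real, Real.norm_of_nonneg hε.le]
  rcases eq_or_lt_of_le (norm_nonneg (R u)) with h4 | h4
  · rw [← h4, mul_zero]
    exact norm_nonneg u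
  · have h5 : ‖R u‖ * (ε * ‖R u‖) ≤ ‖R u‖ * ‖u‖ := by
      calc ‖R u‖ * (ε * ‖R u‖) = ε * ‖R u‖ ^ 2 := by ring
        _ ≤ _ := h1.trans h3
    exact le_of_mul_le_mul_left h5 h4

/-- Existence of the regularised inverse for a positive operator `Z`. -/
theorem reg_inv (Z : H →L[ℂ] H) (hZ : Z.IsPositive) (ε : ℝ) (hε : 0 < ε) :
    ∃ R : H →L[ℂ] H, R * (Z + (ε : ℂ) • (1 : H →L[ℂ] H)) = 1 ∧
      (Z + (ε : ℂ) • (1 : H →L[ℂ] H)) * R = 1 ∧ R.IsPositive ∧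
      (∀ u : H →L[ℂ] H, u * Z = Z * u → u * R = R * u) ∧
      (∀ ξ, (⟪ξ, (R * Z) ξ⟫_ℂ).re ≤ ‖ξ‖ ^ 2) ∧ (∀ ξ, 0 ≤ (⟪ξ, (R * Z) ξ⟫_ℂ).re) := by
  set A : H →L[ℂ] H := Z + (ε : ℂ) • (1 : H →L[ℂ] H) with hA
  have hlow : ∀ x, ε * ‖x‖ ^ 2 ≤ (⟪x, A x⟫_ℂ).re := tika_low Z hZ ε
  have hunit : IsUnit A := by
    refine isUnit_of_forall_le_norm_inner_map A (c := ⟨ε, hε.le⟩) hε ?_
    intro x
    have h1 := hlow x
    have h2 : (⟪x, A x⟫_ℂ).re ≤ ‖⟪x, A x⟫_ℂ‖ := Complex.re_le_norm _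
    have h3 : ‖⟪A x, x⟫_ℂ‖ = ‖⟪x, A x⟫_ℂ‖ := norm_inner_symm _ _
    rw [h3]
    show ‖x‖ ^ 2 * ε ≤ _
    linarith
  obtain ⟨U, hU⟩ := hunit
  have hl : (↑U⁻¹ : H →L[ℂ] H) * A = 1 := by rw [← hU]; exact U.inv_mul
  have hr : A * (↑U⁻¹ : H →L[ℂ] H) = 1 := by rw [← hU]; exact U.mul_inv
  generalize (↑U⁻¹ : H →L[ℂ] H) = R at hl hr
  have hl' : ∀ x, R (A x) = x := fun x => congrArg (fun T : H →L[ℂ] H => T x) hl
  have hr' : ∀ x, A (R x) = x := fun x => congrArg (fun T : H →L[ℂ] H => T x) hr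
  have hAsym : ∀ x y, ⟪A x, y⟫_ℂ = ⟪x, A y⟫_ℂ := by
    intro x y
    have h2 : ∀ x, A x = Z x + (ε : ℂ) • x := fun _ => rfl
    rw [h2, h2, inner_add_left, inner_add_right, inner_smul_left, inner_smul_right,
      hZ.inner_left_eq_inner_right, Complex.conj_ofReal]
  have hRZ : ∀ x, (R * Z) x = x - (ε : ℂ) • R x := by
    intro x
    have h1 := hl' x
    have h2 : A x = Z x + (ε : ℂ) • x := rfl
    rw [h2, map_add, map_smul] at h1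
    exact eq_sub_of_add_eq h1
  have hRpos : R.IsPositive := by
    refine ⟨?_, ?_⟩
    · intro x y
      show ⟪R x, y⟫_ℂ = ⟪x, R y⟫_ℂ
      calc ⟪R x, y⟫_ℂ = ⟪R x, A (R y)⟫_ℂ := by rw [hr']
        _ = ⟪A (R x), R y⟫_ℂ := (hAsym _ _).symm
        _ = ⟪x, R y⟫_ℂ := by rw [hr']
    · intro x
      show 0 ≤ (⟪R x, x⟫_ℂ).re
      have h1 := hlow (R x)
      rw [hr'] at h1
      exact le_trans (mul_nonneg hε.le (sq_nonneg _)) h1
  refine ⟨R, hl, hr, hRpos, ?_, ?_, ?_⟩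
  · intro u hu
    have h1 : u * A = A * u := by
      rw [hA, mul_add, add_mul, hu, mul_smul_comm, smul_mul_assoc, mul_one, one_mul]
    calc u * R = (R * A) * (u * R) := by rw [hl, one_mul]
      _ = R * (A * u) * R := by noncomm_ring
      _ = R * (u * A) * R := by rw [h1]
      _ = R * u * (A * R) := by noncomm_ring
      _ = R * u := by rw [hr, mul_one]
  · intro ξ
    rw [hRZ, inner_sub_right, inner_smul_right, Complex.sub_re, Complex.re_ofReal_mul,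
      tika_inner_self]
    have h1 : 0 ≤ (⟪ξ, R ξ⟫_ℂ).re := hRpos.re_inner_nonneg_right ξ
    nlinarith
  · intro ξ
    rw [hRZ, inner_sub_right, Complex.sub_re, tika_inner_self]
    have h1 := tika_bound Z hZ ε hε R hr ξ
    have h2 : (⟪ξ, (ε : ℂ) • R ξ⟫_ℂ).re ≤ ‖ξ‖ * ‖(ε : ℂ) • R ξ‖ :=
      (Complex.re_le_norm _).trans (norm_inner_le_norm _ _)
    have h3 : ‖ξ‖ * ‖(ε : ℂ) • R ξ‖ ≤ ‖ξ‖ * ‖ξ‖ := mul_le_mul_of_nonneg_left h1 (norm_nonneg _)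
    nlinarith

/-- `ε R_ε ξ → 0` for `ξ` orthogonal to the kernel of `Z` -/
theorem tika_core (Z : H →L[ℂ] H) (hZ : Z.IsPositive)
    (Rf : ℝ → H →L[ℂ] H)
    (hR : ∀ ε : ℝ, 0 < ε → Rf ε * (Z + (ε : ℂ) • (1 : H →L[ℂ] H)) = 1 ∧
      (Z + (ε : ℂ) • (1 : H →L[ℂ] H)) * Rf ε = 1) (ξ : H)
    (hξ : ∀ u, Z u = 0 → ⟪u, ξ⟫_ℂ = 0) :
    Tendsto (fun ε : ℝ => (ε : ℂ) • Rf ε ξ) (𝓝[>] 0) (𝓝 0) := by
  have hmem : ξ ∈ Z.range.topologicalClosure := by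
    have h1 : ξ ∈ Z.kerᗮ := by
      rw [Submodule.mem_orthogonal]
      intro u hu
      exact hξ u hu
    rw [ContinuousLinearMap.orthogonal_ker, hZ.isSelfAdjoint.adjoint_eq] at h1
    exact h1
  rw [Metric.tendsto_nhds]
  intro δ hδ
  obtain ⟨y, hy, hyd⟩ : ∃ y ∈ (Z.range : Set H), dist ξ y < δ / 2 := by
    have h1 : ξ ∈ closure (Z.range : Set H) := hmem
    exact Metric.mem_closure_iff.1 h1 (δ / 2) (by positivity)
  obtain ⟨w, hw⟩ := hy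
  have hw' : Z w = y := hw
  have hev : ∀ᶠ ε : ℝ in 𝓝[>] 0, ε * (2 * ‖w‖) < δ / 2 := by
    have h1 : Tendsto (fun ε : ℝ => ε * (2 * ‖w‖)) (𝓝[>] 0) (𝓝 (0 * (2 * ‖w‖))) :=
      (tendsto_id.mono_left nhdsWithin_le_nhds).mul_const _
    rw [zero_mul] at h1
    exact h1.eventually (gt_mem_nhds (by positivity))
  filter_upwards [hev, self_mem_nhdsWithin] with ε h1 h2
  have hε : 0 < ε := h2
  obtain ⟨hl, hr⟩ := hR ε hε
  rw [dist_zero_right]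
  have h3 : (ε : ℂ) • Rf ε ξ = (ε : ℂ) • Rf ε (ξ - y) + (ε : ℂ) • Rf ε (Z w) := by
    rw [hw', ← smul_add, ← map_add, sub_add_cancel]
  have h4 : Rf ε (Z w) = w - (ε : ℂ) • Rf ε w := by
    have h5 : Rf ε ((Z + (ε : ℂ) • (1 : H →L[ℂ] H)) w) = w :=
      congrArg (fun T : H →L[ℂ] H => T w) hl
    have h6 : (Z + (ε : ℂ) • (1 : H →L[ℂ] H)) w = Z w + (ε : ℂ) • w := rfl
    rw [h6, map_add, map_smul] at h5
    exact eq_sub_of_add_eq h5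
  have h7 : ‖(ε : ℂ) • Rf ε (ξ - y)‖ ≤ ‖ξ - y‖ := tika_bound Z hZ ε hε _ hr _
  have h8 : ‖(ε : ℂ) • Rf ε (Z w)‖ ≤ ε * (2 * ‖w‖) := by
    rw [norm_smul, Complex.norm_real, Real.norm_of_nonneg hε.le, h4]
    have h9 : ‖w - (ε : ℂ) • Rf ε w‖ ≤ ‖w‖ + ‖w‖ :=
      (norm_sub_le _ _).trans (add_le_add le_rfl (tika_bound Z hZ ε hε _ hr w))
    have h10 : ‖w - (ε : ℂ) • Rf ε w‖ ≤ 2 * ‖w‖ := by linarith
    exact mul_le_mul_of_nonneg_left h10 hε.le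
  rw [dist_eq_norm] at hyd
  calc ‖(ε : ℂ) • Rf ε ξ‖ ≤ ‖(ε : ℂ) • Rf ε (ξ - y)‖ + ‖(ε : ℂ) • Rf ε (Z w)‖ := by
        rw [h3]
        exact norm_add_le _ _
    _ ≤ ‖ξ - y‖ + ε * (2 * ‖w‖) := add_le_add h7 h8
    _ < δ := by linarith

/-- the row operator -/
def tikaT (X Y : H →L[ℂ] H) : WithLp 2 (H × H) →L[ℂ] H :=
  X ∘L WithLp.fstL 2 ℂ H H + Y ∘L WithLp.sndL 2 ℂ H H

theorem tikaT_apply (X Y : H →L[ℂ] H) (a b : H) :
    tikaT X Y (WithLp.toLp 2 (a, b)) = X a + Y b := rfl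

theorem tikaT_apply' (X Y : H →L[ℂ] H) (v : WithLp 2 (H × H)) :
    tikaT X Y v = X v.fst + Y v.snd := rfl

theorem tikaT_adj (X Y : H →L[ℂ] H) (w : H) :
    (ContinuousLinearMap.adjoint (tikaT X Y)) w = WithLp.toLp 2 (star X w, star Y w) := by
  refine ext_inner_left ℂ fun v => ?_
  rw [ContinuousLinearMap.adjoint_inner_right, WithLp.prod_inner_apply]
  have h1 : tikaT X Y v = X v.fst + Y v.snd := rfl
  rw [h1, inner_add_left]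
  show _ = ⟪v.fst, star X w⟫_ℂ + ⟪v.snd, star Y w⟫_ℂ
  rw [ContinuousLinearMap.star_eq_adjoint, ContinuousLinearMap.star_eq_adjoint,
    ContinuousLinearMap.adjoint_inner_right, ContinuousLinearMap.adjoint_inner_right]

theorem tikaT_mul (X Y : H →L[ℂ] H) (w : H) :
    tikaT X Y ((ContinuousLinearMap.adjoint (tikaT X Y)) w) = (X * star X + Y * star Y) w := by
  rw [tikaT_adj, tikaT_apply]
  rfl

/-- the regularised inverse of `T* T` -/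
def tikaR (X Y : H →L[ℂ] H) (ε : ℝ) (R : H →L[ℂ] H) :
    WithLp 2 (H × H) →L[ℂ] WithLp 2 (H × H) :=
  ((ε : ℂ)⁻¹) • (1 - (ContinuousLinearMap.adjoint (tikaT X Y)) ∘L (R ∘L tikaT X Y))

theorem tikaR_spec (X Y : H →L[ℂ] H) (R : H →L[ℂ] H) (ε : ℝ) (hε : 0 < ε)
    (hR : R * (X * star X + Y * star Y + (ε : ℂ) • (1 : H →L[ℂ] H)) = 1 ∧
      (X * star X + Y * star Y + (ε : ℂ) • (1 : H →L[ℂ] H)) * R = 1) :
    tikaR X Y ε R * ((ContinuousLinearMap.adjoint (tikaT X Y)) ∘L tikaT X Y + (ε : ℂ) • (1 : _ →L[ℂ] _)) = 1 ∧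
      ((ContinuousLinearMap.adjoint (tikaT X Y)) ∘L tikaT X Y + (ε : ℂ) • (1 : _ →L[ℂ] _)) * tikaR X Y ε R = 1 := by
  have hε' : (ε : ℂ) ≠ 0 := by exact_mod_cast hε.ne'
  obtain ⟨hl, hr⟩ := hR
  constructor
  · ext1 v
    set T := tikaT X Y with hT
    show (ε : ℂ)⁻¹ • ((ContinuousLinearMap.adjoint T (T v) + (ε : ℂ) • v) - ContinuousLinearMap.adjoint T (R (T (ContinuousLinearMap.adjoint T (T v) + (ε : ℂ) • v)))) = v
    have h1 : R (T (ContinuousLinearMap.adjoint T (T v) + (ε : ℂ) • v)) = T v := by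
      rw [map_add, map_smul, hT, tikaT_mul]
      exact congrArg (fun S : H →L[ℂ] H => S (tikaT X Y v)) hl
    rw [h1, add_sub_cancel_left, smul_smul, inv_mul_cancel₀ hε', one_smul]
  · ext1 v
    set T := tikaT X Y with hT
    show ContinuousLinearMap.adjoint T (T ((ε : ℂ)⁻¹ • (v - ContinuousLinearMap.adjoint T (R (T v))))) + (ε : ℂ) • ((ε : ℂ)⁻¹ • (v - ContinuousLinearMap.adjoint T (R (T v)))) = v
    rw [smul_smul, mul_inv_cancel₀ hε', one_smul, map_smul, map_smul, map_sub]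
    have h1 : T (ContinuousLinearMap.adjoint T (R (T v))) = T v - (ε : ℂ) • R (T v) := by
      rw [hT, tikaT_mul]
      have h2 := congrArg (fun S : H →L[ℂ] H => S (tikaT X Y v)) hr
      exact eq_sub_of_add_eq h2
    rw [h1, sub_sub_cancel, map_smul, smul_smul, inv_mul_cancel₀ hε', one_smul]
    abel

theorem tikaT_pos (X Y : H →L[ℂ] H) : ((ContinuousLinearMap.adjoint (tikaT X Y)) ∘L tikaT X Y).IsPositive :=
  ContinuousLinearMap.isPositive_adjoint_comp_self _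

theorem tika_form (X Y : H →L[ℂ] H) (R : H →L[ℂ] H) (ε : ℝ) (hε : 0 < ε) (a b : H) :
    (⟪X a + Y b, R (X a + Y b)⟫_ℂ).re = (‖a‖ ^ 2 + ‖b‖ ^ 2) -
      (⟪WithLp.toLp 2 (a, b), (ε : ℂ) • tikaR X Y ε R (WithLp.toLp 2 (a, b))⟫_ℂ).re := by
  have hε' : (ε : ℂ) ≠ 0 := by exact_mod_cast hε.ne'
  set v : WithLp 2 (H × H) := WithLp.toLp 2 (a, b) with hv
  have h1 : (ε : ℂ) • tikaR X Y ε R v = v - (ContinuousLinearMap.adjoint (tikaT X Y)) (R (tikaT X Y v)) := by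
    show (ε : ℂ) • ((ε : ℂ)⁻¹ • (v - (ContinuousLinearMap.adjoint (tikaT X Y)) (R (tikaT X Y v)))) = _
    rw [smul_smul, mul_inv_cancel₀ hε', one_smul]
  rw [h1, inner_sub_right, ContinuousLinearMap.adjoint_inner_right, Complex.sub_re]
  have h2 : (⟪v, v⟫_ℂ).re = ‖a‖ ^ 2 + ‖b‖ ^ 2 := by
    rw [WithLp.prod_inner_apply, Complex.add_re]
    show (⟪a, a⟫_ℂ).re + (⟪b, b⟫_ℂ).re = _
    rw [tika_inner_self, tika_inner_self]
  rw [h2, hv, tikaT_apply]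
  ring

/-- Regularised projections, for a row operator `(ζ, ω) ↦ X ζ + Y ω`.
`Rf ε` is any regularised inverse of `X X* + Y Y*`. If `(a, b)` is orthogonal to the kernel of the
row then `‖(a,b)‖²` is the limit of the quadratic form of `T* R_ε T`. -/
theorem tik_row (X Y : H →L[ℂ] H) (Rf : ℝ → H →L[ℂ] H)
    (hR : ∀ ε : ℝ, 0 < ε → Rf ε * (X * star X + Y * star Y + (ε : ℂ) • (1 : H →L[ℂ] H)) = 1 ∧
      (X * star X + Y * star Y + (ε : ℂ) • (1 : H →L[ℂ] H)) * Rf ε = 1)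
    (a b : H) (hab : ∀ ζ ω : H, X ζ + Y ω = 0 → ⟪ζ, a⟫_ℂ + ⟪ω, b⟫_ℂ = 0) :
    Tendsto (fun ε : ℝ => (⟪X a + Y b, Rf ε (X a + Y b)⟫_ℂ).re) (𝓝[>] 0)
      (𝓝 (‖a‖ ^ 2 + ‖b‖ ^ 2)) := by
  have h1 := tika_core ((ContinuousLinearMap.adjoint (tikaT X Y)) ∘L tikaT X Y) (tikaT_pos X Y)
    (fun ε => tikaR X Y ε (Rf ε)) (fun ε hε => tikaR_spec X Y (Rf ε) ε hε (hR ε hε))
    (WithLp.toLp 2 (a, b)) (by
      intro u hu
      have hu' : (ContinuousLinearMap.adjoint (tikaT X Y)) (tikaT X Y u) = 0 := hu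
      have h3 : ⟪u, (ContinuousLinearMap.adjoint (tikaT X Y)) (tikaT X Y u)⟫_ℂ = 0 := by
        rw [hu', inner_zero_right]
      rw [ContinuousLinearMap.adjoint_inner_right] at h3
      have h2 : tikaT X Y u = 0 := inner_self_eq_zero.1 h3
      rw [tikaT_apply'] at h2
      have h4 := hab u.fst u.snd h2
      rw [WithLp.prod_inner_apply]
      exact h4)
  have h2 : Tendsto (fun ε : ℝ => (‖a‖ ^ 2 + ‖b‖ ^ 2) -
      (⟪WithLp.toLp 2 (a, b), (ε : ℂ) • tikaR X Y ε (Rf ε) (WithLp.toLp 2 (a, b))⟫_ℂ).re)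
      (𝓝[>] 0) (𝓝 ((‖a‖ ^ 2 + ‖b‖ ^ 2) - (⟪WithLp.toLp 2 (a, b), (0 : WithLp 2 (H × H))⟫_ℂ).re)) :=
    tendsto_const_nhds.sub (Complex.continuous_re.continuousAt.tendsto.comp
      (tendsto_const_nhds.inner h1))
  rw [inner_zero_right, Complex.zero_re, sub_zero] at h2
  refine h2.congr' ?_
  filter_upwards [self_mem_nhdsWithin] with ε hε
  exact (tika_form X Y (Rf ε) ε hε a b).symm

/-- upper bound for every vector (no orthogonality) -/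
theorem tik_row_le (X Y : H →L[ℂ] H) (R : H →L[ℂ] H) (ε : ℝ) (hε : 0 < ε)
    (hR : R * (X * star X + Y * star Y + (ε : ℂ) • (1 : H →L[ℂ] H)) = 1 ∧
      (X * star X + Y * star Y + (ε : ℂ) • (1 : H →L[ℂ] H)) * R = 1)
    (a b : H) : (⟪X a + Y b, R (X a + Y b)⟫_ℂ).re ≤ ‖a‖ ^ 2 + ‖b‖ ^ 2 := by
  rw [tika_form X Y R ε hε a b, inner_smul_right, Complex.re_ofReal_mul]
  have hs := (tikaR_spec X Y R ε hε hR).2
  set v : WithLp 2 (H × H) := WithLp.toLp 2 (a, b) with hv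
  set S := tikaR X Y ε R with hS
  have h1 := tika_low _ (tikaT_pos X Y) ε (S v)
  have h2 : (((ContinuousLinearMap.adjoint (tikaT X Y)) ∘L tikaT X Y + (ε : ℂ) •
      (1 : WithLp 2 (H × H) →L[ℂ] WithLp 2 (H × H))) (S v)) = v :=
    congrArg (fun L : WithLp 2 (H × H) →L[ℂ] WithLp 2 (H × H) => L v) hs
  rw [h2] at h1
  have h3 : (⟪v, S v⟫_ℂ).re = (⟪S v, v⟫_ℂ).re := by
    rw [← inner_conj_symm v (S v), Complex.conj_re]
  rw [h3]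
  have h4 : 0 ≤ (⟪S v, v⟫_ℂ).re := le_trans (mul_nonneg hε.le (sq_nonneg _)) h1
  nlinarith

/-- Dual inequality: if `X : H → H` in `N` is injective then `⟪Ω, R X X* Ω⟫ → ‖Ω‖²`; consequently
if `X X* ≤ ...`; used in the form: for an injective positive `Z` with regularised inverses `Rf ε`,
`⟪ξ, Rf ε (Z ξ)⟫ → ‖ξ‖²`. -/
theorem tik_pos (Z : H →L[ℂ] H) (hZ : Z.IsPositive) (hinj : ∀ ξ, Z ξ = 0 → ξ = 0)
    (Rf : ℝ → H →L[ℂ] H)
    (hR : ∀ ε : ℝ, 0 < ε → Rf ε * (Z + (ε : ℂ) • (1 : H →L[ℂ] H)) = 1 ∧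
      (Z + (ε : ℂ) • (1 : H →L[ℂ] H)) * Rf ε = 1) (ξ : H) :
    Tendsto (fun ε : ℝ => (⟪ξ, Rf ε (Z ξ)⟫_ℂ).re) (𝓝[>] 0) (𝓝 (‖ξ‖ ^ 2)) := by
  have h1 := tika_core Z hZ Rf hR ξ (fun u hu => by rw [hinj u hu, inner_zero_left])
  have h2 : Tendsto (fun ε : ℝ => ‖ξ‖ ^ 2 - (⟪ξ, (ε : ℂ) • Rf ε ξ⟫_ℂ).re)
      (𝓝[>] 0) (𝓝 (‖ξ‖ ^ 2 - (⟪ξ, (0 : H)⟫_ℂ).re)) :=
    tendsto_const_nhds.sub (Complex.continuous_re.continuousAt.tendsto.comp
      (tendsto_const_nhds.inner h1))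
  rw [inner_zero_right, Complex.zero_re, sub_zero] at h2
  refine h2.congr' ?_
  filter_upwards [self_mem_nhdsWithin] with ε hε
  have h5 : Rf ε ((Z + (ε : ℂ) • (1 : H →L[ℂ] H)) ξ) = ξ :=
    congrArg (fun T : H →L[ℂ] H => T ξ) (hR ε hε).1
  have h6 : (Z + (ε : ℂ) • (1 : H →L[ℂ] H)) ξ = Z ξ + (ε : ℂ) • ξ := rfl
  rw [h6, map_add, map_smul] at h5
  have h7 : Rf ε (Z ξ) = ξ - (ε : ℂ) • Rf ε ξ := eq_sub_of_add_eq h5
  rw [h7, inner_sub_right, Complex.sub_re, tika_inner_self]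

end

end Pool.H62.UC
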