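import Pool.Agent.H62.UC.TikA

/-!
# TIKB (`dim_le`, `inj_star`, `dense_dom`): regularised projections and the inequality of tracial dimensions

For a bounded operator `T : E → F` between Hilbert spaces and `ε > 0` let
`R_ε = (T T* + ε)⁻¹` (`T T* + ε` is bounded below and self-adjoint, so invertible; or: spectrum).
* `0 ≤ T* R_ε T ≤ 1`;
* `T* R_ε T (T* w) = T* w - ε T* R_ε w` and `‖ε T* R_ε w‖² ≤ ε ‖w‖²`, so `T* R_ε T v → v` for
  `v` in the closure of the range of `T*`, i.e. for `v ⟂ ker T`.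
* `R_ε` commutes with everything that commutes with `T T*`.
Dimension inequality `dim_le`: `N` with separating trace vector `Ω`, `X, Y ∈ N`; then for
`T (ζ, ω) = X ζ + Y ω` the trace of `T* R_ε T` on `H ⊕ H` (the sum of the two diagonal vector states)
is `⟪Ω, X* R X Ω⟫ + ⟪Ω, Y* R Y Ω⟫ = ⟪Ω, R (X X* + Y Y*) Ω⟫ ≤ ‖Ω‖²`.
-/

namespace Pool.H62.UC

open scoped InnerProductSpace TensorProduct ComplexConjugate
open Filter Topology ContinuousLinearMap

noncomputable section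


variable {H : Type*} [NormedAddCommGroup H] [InnerProductSpace ℂ H] [CompleteSpace H]

/-- projections on closed subspaces invariant under the commutant are in the algebra -/
private theorem tikb_proj (N : VonNeumannAlgebra H) (L : Submodule ℂ H)
    [L.HasOrthogonalProjection]
    (hL : ∀ u ∈ N.commutant, ∀ ξ ∈ L, u ξ ∈ L) : L.starProjection ∈ N := by
  rw [← N.commutant_commutant, VonNeumannAlgebra.mem_commutant_iff]
  intro u hu
  ext ξ
  rw [mul_apply_eq_comp, mul_apply_eq_comp]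
  symm
  apply Submodule.eq_starProjection_of_mem_of_inner_eq_zero
  · exact hL u hu _ (Submodule.starProjection_apply_mem L ξ)
  · intro w hw
    have hu' : star u ∈ N.commutant := star_mem hu
    rw [← map_sub]
    have h1 : (star u) w ∈ L := hL _ hu' w hw
    rw [← ContinuousLinearMap.adjoint_inner_right, ← ContinuousLinearMap.star_eq_adjoint]
    have h2 := Submodule.sub_starProjection_mem_orthogonal (K := L) ξ
    exact (Submodule.mem_orthogonal' L _).mp h2 _ h1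

/-- The tracial dimension inequality. Let `X, Y ∈ N`, and let `a = p Ω`, `b = q Ω`,... the two
vectors `(a, b')`, `(a', b)` below be the projections of `(Ω, 0)` and `(0, Ω)` on the orthogonal
complement of the kernel of the row `(X, Y)`. Then the sum of the squares of their norms is at most
`‖Ω‖²`. -/
theorem dim_le (N : VonNeumannAlgebra H) (Ω : H) (hN : IsST N Ω) (X Y : H →L[ℂ] H) (hX : X ∈ N)
    (hY : Y ∈ N) (a b a' b' : H)
    (h1 : ∀ ζ ω : H, X ζ + Y ω = 0 → ⟪ζ, a⟫_ℂ + ⟪ω, b'⟫_ℂ = 0)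
    (h1' : X a + Y b' = X Ω)
    (h2 : ∀ ζ ω : H, X ζ + Y ω = 0 → ⟪ζ, a'⟫_ℂ + ⟪ω, b⟫_ℂ = 0)
    (h2' : X a' + Y b = Y Ω) :
    ‖a‖ ^ 2 + ‖b'‖ ^ 2 + (‖a'‖ ^ 2 + ‖b‖ ^ 2) ≤ ‖Ω‖ ^ 2 := by
  classical
  set Z : H →L[ℂ] H := X * star X + Y * star Y with hZdef
  have hZ : Z.IsPositive := by
    rw [← ContinuousLinearMap.nonneg_iff_isPositive]
    exact add_nonneg (mul_star_self_nonneg X) (mul_star_self_nonneg Y)
  have hZN : Z ∈ N := add_mem (mul_mem hX (star_mem hX)) (mul_mem hY (star_mem hY))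
  have hex : ∀ ε : ℝ, ∃ R : H →L[ℂ] H, 0 < ε → (R * (Z + (ε : ℂ) • (1 : H →L[ℂ] H)) = 1 ∧
      (Z + (ε : ℂ) • (1 : H →L[ℂ] H)) * R = 1 ∧ R.IsPositive ∧
      (∀ u : H →L[ℂ] H, u * Z = Z * u → u * R = R * u) ∧
      (∀ ξ, (⟪ξ, (R * Z) ξ⟫_ℂ).re ≤ ‖ξ‖ ^ 2) ∧ (∀ ξ, 0 ≤ (⟪ξ, (R * Z) ξ⟫_ℂ).re)) := by
    intro ε
    by_cases hε : 0 < ε
    · obtain ⟨R, hR⟩ := reg_inv Z hZ ε hε
      exact ⟨R, fun _ => hR⟩
    · exact ⟨0, fun h => absurd h hε⟩
  choose Rf hRf using hex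
  have hRN : ∀ ε : ℝ, 0 < ε → Rf ε ∈ N := by
    intro ε hε
    rw [← N.commutant_commutant, VonNeumannAlgebra.mem_commutant_iff]
    intro u hu
    exact (hRf ε hε).2.2.2.1 u ((VonNeumannAlgebra.mem_commutant_iff.mp hu Z hZN).symm)
  have t1 := tik_row X Y Rf (fun ε hε => ⟨(hRf ε hε).1, (hRf ε hε).2.1⟩) a b' h1
  have t2 := tik_row X Y Rf (fun ε hε => ⟨(hRf ε hε).1, (hRf ε hε).2.1⟩) a' b h2
  rw [h1'] at t1
  rw [h2'] at t2
  refine le_of_tendsto (t1.add t2) ?_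
  filter_upwards [self_mem_nhdsWithin] with ε hε
  have hε' : 0 < ε := hε
  have hR := hRN ε hε'
  have tr : ∀ X ∈ N, ⟪X Ω, Rf ε (X Ω)⟫_ℂ = ⟪Ω, (Rf ε * (X * star X)) Ω⟫_ℂ := by
    intro X hX
    rw [← ContinuousLinearMap.adjoint_inner_right, ← ContinuousLinearMap.star_eq_adjoint]
    have h3 := hN.trace (star X) (star_mem hX) (Rf ε * X) (mul_mem hR hX)
    rw [mul_assoc] at h3
    exact h3
  rw [tr X hX, tr Y hY, ← Complex.add_re, ← inner_add_right]
  have h4 : (Rf ε * (X * star X)) Ω + (Rf ε * (Y * star Y)) Ω = (Rf ε * Z) Ω := by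
    rw [hZdef, mul_add]
    rfl
  rw [h4]
  exact (hRf ε hε').2.2.2.2.1 Ω

/-- In a finite von Neumann algebra an injective element has injective adjoint:
`ker (star A)` has a projection `p ∈ N`; apply `dim_le` to the row `(A, p)`:
`A ζ + p ω = 0` implies `A ζ = 0`, `p ω = 0` (orthogonal ranges), so the two projections are
`(Ω, 0)` and `(0, p Ω)` and `‖Ω‖² + ‖p Ω‖² ≤ ‖Ω‖²`. -/
theorem inj_star (N : VonNeumannAlgebra H) (Ω : H) (hN : IsST N Ω) (A : H →L[ℂ] H) (hA : A ∈ N)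
    (hinj : ∀ ξ, A ξ = 0 → ξ = 0) : ∀ ξ, (star A) ξ = 0 → ξ = 0 := by
  let L : Submodule ℂ H := LinearMap.ker (star A).toLinearMap
  have hLcl : IsClosed (L : Set H) := (star A).isClosed_ker
  haveI : CompleteSpace L := hLcl.completeSpace_coe
  have hLmem : ∀ ξ, ξ ∈ L ↔ (star A) ξ = 0 := fun ξ => LinearMap.mem_ker
  have hsA : star A ∈ N := star_mem hA
  have hp : L.starProjection ∈ N := by
    apply tikb_proj
    intro u hu ξ hξ
    rw [hLmem] at hξ ⊢
    have h := VonNeumannAlgebra.mem_commutant_iff.mp hu _ hsA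
    have h2 : (star A) (u ξ) = u ((star A) ξ) := by
      have := congrArg (fun T : H →L[ℂ] H => T ξ) h
      simpa using this
    rw [h2, hξ, map_zero]
  set p := L.starProjection with hpdef
  have hsym : ∀ x y, ⟪p x, y⟫_ℂ = ⟪x, p y⟫_ℂ := fun x y =>
    Submodule.inner_starProjection_left_eq_right L x y
  have hker : ∀ ζ ω : H, A ζ + p ω = 0 → ζ = 0 ∧ p ω = 0 := by
    intro ζ ω h
    have h0 : (star A) (p ω) = 0 := (hLmem _).mp (Submodule.starProjection_apply_mem L ω)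
    have h1 : ⟪A ζ, p ω⟫_ℂ = 0 := by
      rw [← ContinuousLinearMap.adjoint_inner_right, ← ContinuousLinearMap.star_eq_adjoint, h0,
        inner_zero_right]
    have h2 : A ζ = - p ω := eq_neg_of_add_eq_zero_left h
    rw [h2, inner_neg_left, neg_eq_zero, inner_self_eq_zero] at h1
    refine ⟨hinj ζ ?_, h1⟩
    rw [h2, h1, neg_zero]
  have hd := dim_le N Ω hN A p hA hp Ω (p Ω) 0 0
    (by
      intro ζ ω h
      rw [(hker ζ ω h).1]
      simp)
    (by simp)
    (by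
      intro ζ ω h
      rw [← hsym, (hker ζ ω h).2]
      simp)
    (by
      have : p (p Ω) = p Ω :=
        Submodule.starProjection_eq_self_iff.mpr (Submodule.starProjection_apply_mem L Ω)
      rw [this]
      simp)
  have hp0 : p Ω = 0 := by
    have h3 : ‖p Ω‖ ^ 2 ≤ 0 := by
      have : ‖(0 : H)‖ = 0 := norm_zero
      rw [this] at hd
      linarith
    have h4 : ‖p Ω‖ = 0 := by nlinarith [norm_nonneg (p Ω)]
    exact norm_eq_zero.mp h4
  have hp1 : p = 0 := hN.sep p hp hp0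
  intro ξ hξ
  have h5 : p ξ = ξ := Submodule.starProjection_eq_self_iff.mpr ((hLmem ξ).mpr hξ)
  rw [← h5, hp1]
  rfl

/-- Density of the domain of `A⁻¹ X`. `E = {ζ : X ζ ∈ range A}` is invariant under the commutant;
let `f ∈ N` be the projection on `Eᗮ`; the row `(X f, -A)` has kernel `{(ζ, 0) : f ζ = 0}`
(if `X f ζ = A ω` then `f ζ ∈ E ∩ Eᗮ`), so `dim_le` with `(f Ω, 0)`, `(0, Ω)` gives
`‖f Ω‖² + ‖Ω‖² ≤ ‖Ω‖²`, `f = 0`. -/
theorem dense_dom (N : VonNeumannAlgebra H) (Ω : H) (hN : IsST N Ω) (A X : H →L[ℂ] H)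
    (hA : A ∈ N) (hX : X ∈ N) (hinj : ∀ ξ, A ξ = 0 → ξ = 0) :
    Dense {ζ : H | ∃ ω, X ζ = A ω} := by
  let E : Submodule ℂ H := (LinearMap.range A.toLinearMap).comap X.toLinearMap
  have hEmem : ∀ ζ, ζ ∈ E ↔ ∃ ω, X ζ = A ω := by
    intro ζ
    constructor
    · rintro ⟨ω, hω⟩
      exact ⟨ω, hω.symm⟩
    · rintro ⟨ω, hω⟩
      exact ⟨ω, hω.symm⟩
  have hEu : ∀ u ∈ N.commutant, ∀ ξ ∈ E, u ξ ∈ E := by
    intro u hu ξ hξ
    rw [hEmem] at hξ ⊢
    obtain ⟨ω, hω⟩ := hξ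
    have hXu : X (u ξ) = u (X ξ) := by
      have := congrArg (fun T : H →L[ℂ] H => T ξ) (VonNeumannAlgebra.mem_commutant_iff.mp hu X hX)
      simpa using this
    have hAu : A (u ω) = u (A ω) := by
      have := congrArg (fun T : H →L[ℂ] H => T ω) (VonNeumannAlgebra.mem_commutant_iff.mp hu A hA)
      simpa using this
    exact ⟨u ω, by rw [hXu, hω, hAu]⟩
  have hEo : ∀ u ∈ N.commutant, ∀ ξ ∈ Eᗮ, u ξ ∈ Eᗮ := by
    intro u hu ξ hξ
    rw [Submodule.mem_orthogonal]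
    intro w hw
    have hu' : star u ∈ N.commutant := star_mem hu
    rw [← ContinuousLinearMap.adjoint_inner_left, ← ContinuousLinearMap.star_eq_adjoint]
    exact (Submodule.mem_orthogonal E ξ).mp hξ _ (hEu _ hu' w hw)
  haveI : CompleteSpace Eᗮ := E.isClosed_orthogonal.completeSpace_coe
  have hf : (Eᗮ).starProjection ∈ N := tikb_proj N Eᗮ hEo
  set f := (Eᗮ).starProjection with hfdef
  have hsym : ∀ x y, ⟪f x, y⟫_ℂ = ⟪x, f y⟫_ℂ := fun x y =>
    Submodule.inner_starProjection_left_eq_right Eᗮ x y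
  have hfE : ∀ x, f x ∈ Eᗮ := fun x => Submodule.starProjection_apply_mem Eᗮ x
  have hff : ∀ x, f (f x) = f x := fun x =>
    Submodule.starProjection_eq_self_iff.mpr (hfE x)
  have hker : ∀ ζ ω : H, (X * f) ζ + (-A) ω = 0 → f ζ = 0 ∧ ω = 0 := by
    intro ζ ω h
    have h1 : X (f ζ) = A ω := by
      have h' : X (f ζ) - A ω = 0 := by simpa [sub_eq_add_neg] using h
      exact sub_eq_zero.mp h'
    have h2 : f ζ ∈ E := (hEmem _).mpr ⟨ω, h1⟩
    have h3 : ⟪f ζ, f ζ⟫_ℂ = 0 := (Submodule.mem_orthogonal E _).mp (hfE ζ) _ h2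
    rw [inner_self_eq_zero] at h3
    refine ⟨h3, hinj ω ?_⟩
    rw [← h1, h3, map_zero]
  have hd := dim_le N Ω hN (X * f) (-A) (mul_mem hX hf) (neg_mem hA) (f Ω) Ω 0 0
    (by
      intro ζ ω h
      rw [← hsym, (hker ζ ω h).1]
      simp)
    (by simp [hff])
    (by
      intro ζ ω h
      rw [(hker ζ ω h).2]
      simp)
    (by simp)
  have hf0 : f Ω = 0 := by
    have h3 : ‖f Ω‖ ^ 2 ≤ 0 := by
      have : ‖(0 : H)‖ = 0 := norm_zero
      rw [this] at hd
      linarith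
    have h4 : ‖f Ω‖ = 0 := by nlinarith [norm_nonneg (f Ω)]
    exact norm_eq_zero.mp h4
  have hf1 : f = 0 := hN.sep f hf hf0
  have hbot : Eᗮ = ⊥ := by
    rw [Submodule.eq_bot_iff]
    intro x hx
    have h5 : f x = x := Submodule.starProjection_eq_self_iff.mpr hx
    rw [← h5, hf1]
    rfl
  have hdense : Dense (E : Set H) := by
    rw [Submodule.dense_iff_topologicalClosure_eq_top, Submodule.topologicalClosure_eq_top_iff]
    exact hbot
  have hset : {ζ : H | ∃ ω, X ζ = A ω} = (E : Set H) := by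
    ext ζ
    exact (hEmem ζ).symm
  rw [hset]
  exact hdense

end

end Pool.H62.UC
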