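import Pool.Agent.H62.UC.Mg
import Pool.Agent.H62.UC.TDefs

/-!
Row TSj.  A small member.

`minimal_member` (`∅ ∈ A`, all `2 freq i = |A|`, `A ≠ U.powerset`, `U = A.sup id`): there is `T' ∈ A`,
`2 ≤ |T'|`, such that the members inside `T'` are `∅` and `T'`, and no `i ∈ T'` has `{i} ∈ A`.  These are
the steps (α), (β), (γ) of `Pool/Agent/H62/UC/Mg.lean`: copy `Mg_sub`, `Mg_all`, `Mg_alpha` (private
there, rename) and the beginning of the proof of `strict_of_empty` (down to `hmin`, `h5`); `e1 i hi` there is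
`hf i hi` here.
-/

set_option autoImplicit false

namespace Pool.Agent.H62.UC

open Finset Pool.Agent.H51.UC

variable {α : Type*} [DecidableEq α]

private theorem Tj_sub {A : Finset (Finset α)} {T : Finset α} (hT : T ∈ A) : T ⊆ A.sup id :=
  le_sup (f := id) hT

private theorem Tj_all {A : Finset (Finset α)} (hA : ∀ S ∈ A, ∀ T ∈ A, S ∪ T ∈ A)
    (h0 : ∅ ∈ A) (h1 : ∀ x ∈ A.sup id, {x} ∈ A) : A = (A.sup id).powerset := by
  apply Subset.antisymm
  · intro T hT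
    exact mem_powerset.2 (Tj_sub hT)
  · intro S hS
    rw [mem_powerset] at hS
    induction S using Finset.induction_on with
    | empty => exact h0
    | insert a S ha ih =>
      rw [insert_eq]
      exact hA _ (h1 a (hS (mem_insert_self a S))) _ (ih ((subset_insert a S).trans hS))

private theorem Tj_alpha {A : Finset (Finset α)} (hA : ∀ S ∈ A, ∀ T ∈ A, S ∪ T ∈ A) {i : α}
    (hf : 2 * (A.filter (fun T => i ∈ T)).card = A.card) (hi : {i} ∈ A) {T : Finset α}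
    (hT : T ∈ A) (hiT : i ∈ T) : T.erase i ∈ A := by
  have hN : Ns A i = ∅ := by
    rw [eq_empty_iff_forall_notMem]
    intro T hT
    rw [mem_Ns] at hT
    refine hT.2.2 ?_
    rw [insert_eq]
    exact hA _ hi _ hT.1
  have h1 := freq_identity A i
  have h2 : (2 : ℝ) * ((A.filter (fun T => i ∈ T)).card : ℝ) = (A.card : ℝ) := by
    exact_mod_cast hf
  rw [hN, card_empty, Nat.cast_zero, h2] at h1
  have h3 : ((Bd A i).card : ℝ) = 0 := by linarith
  have h4 : Bd A i = ∅ := card_eq_zero.1 (by exact_mod_cast h3)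
  by_contra hcon
  have h5 : T ∈ Bd A i := mem_Bd.2 ⟨hT, hiT, hcon⟩
  rw [h4] at h5
  exact notMem_empty _ h5

theorem minimal_member {A : Finset (Finset α)} (hA : ∀ S ∈ A, ∀ T ∈ A, S ∪ T ∈ A)
    (h0 : ∅ ∈ A) (hpow : A ≠ (A.sup id).powerset)
    (hf : ∀ i ∈ A.sup id, 2 * (A.filter (fun T => i ∈ T)).card = A.card) :
    ∃ T' ∈ A, 2 ≤ T'.card ∧ (∀ T ∈ A, T ⊆ T' → T = ∅ ∨ T = T') ∧ ∀ i ∈ T', {i} ∉ A := by
  obtain ⟨x, hxU, hxA⟩ : ∃ x ∈ A.sup id, {x} ∉ A := by
    by_contra h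
    refine hpow (Tj_all hA h0 fun x hx => ?_)
    by_contra h1
    exact h ⟨x, hx, h1⟩
  have hxne : (A.filter (fun T => x ∈ T)).Nonempty := by
    obtain ⟨T, hT, hxT⟩ := mem_sup.1 hxU
    exact ⟨T, mem_filter.2 ⟨hT, hxT⟩⟩
  obtain ⟨T, hT, hTmin⟩ := exists_min_image _ (fun T : Finset α => T.card) hxne
  rw [mem_filter] at hT
  have hns : ∀ i ∈ T, {i} ∉ A := by
    intro i hi hiA
    have hix : i ≠ x := fun h => hxA (h ▸ hiA)
    have h1 := Tj_alpha hA (hf i (Tj_sub hT.1 hi)) hiA hT.1 hi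
    have h2 := hTmin (T.erase i) (mem_filter.2 ⟨h1, mem_erase.2 ⟨hix.symm, hT.2⟩⟩)
    have h3 := card_erase_lt_of_mem hi
    exact absurd h2 (not_le.2 h3)
  have hne2 : (A.filter (fun T' => T'.Nonempty ∧ T' ⊆ T)).Nonempty :=
    ⟨T, mem_filter.2 ⟨hT.1, ⟨x, hT.2⟩, Subset.refl _⟩⟩
  obtain ⟨T', hT', hT'min⟩ := exists_min_image _ (fun T : Finset α => T.card) hne2
  rw [mem_filter] at hT'
  obtain ⟨hT'A, hT'ne, hT'T⟩ := hT'
  have hmin : ∀ T2 ∈ A, T2 ⊆ T' → T2 = ∅ ∨ T2 = T' := by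
    intro T2 hT2 hsub
    rcases T2.eq_empty_or_nonempty with h | h
    · exact Or.inl h
    · right
      exact eq_of_subset_of_card_le hsub
        (hT'min T2 (mem_filter.2 ⟨hT2, h, hsub.trans hT'T⟩))
  have h5 : T'.card ≠ 1 := by
    intro h
    obtain ⟨j, hj⟩ := card_eq_one.1 h
    rw [hj] at hT'A hT'T
    exact hns j (hT'T (mem_singleton_self j)) hT'A
  have h6 : 0 < T'.card := card_pos.2 hT'ne
  exact ⟨T', hT'A, by omega, hmin, fun i hi => hns i (hT'T hi)⟩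

end Pool.Agent.H62.UC
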