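import Pool.Agent.H62.UC.Ta

/-!
Row TSk.  `case_three`: `T' ∈ A`, `3 ≤ |T'|`, the members inside `T'` are `∅` and `T'`, `i, j ∈ T'`,
`i ≠ j`.  `U = A.sup id`.  Then `e0 = (T', j)` is in
`Bp A U i` with `lg A (T'.erase j) = ∅`, `kk A e0 = |T'| - 2`, and (`p = 1/2`)
`wP (fib2 A U i j T') < (1/2) ^ (|T'| - 2) * wP (fib A U i ∅)`.
Proof.  `T'.erase j ∉ A` and `lg A (T'.erase j) = ∅` since the members inside `T'` are `∅` and `T'`
(`lg` is the union of the members inside, all are `∅`).
With `wP_half` the inequality is `2 ^ (|T'| - 2) * |fib2| < |fib ∅|`.  The map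
`(Y, Z) ↦ (Y \ T') ∪ Z`, `Y ∈ fib2 A U i j T'`, `Z ⊆ T' \ {i, j}`, is injective (every `Y ∈ fib2` contains
`T' \ {i, j}` as `T' = lg (..) ⊆ Y ∪ {i, j}`, and `i, j ∉ Y`, so `Y = (Y \ T') ∪ (T' \ {i, j})`; the
image determines `Y \ T'` and `Z`), and maps into `fib A U i ∅`: a member `T ⊆ insert i ((Y \ T') ∪ Z)`
lies in `insert i (insert j Y)`, so `T ⊆ lg (insert i (insert j Y)) = T'` (`le_lg`); `j ∉ T` (`j ∉ Y \ T'`,
`j ≠ i`, `j ∉ Z`), so `T = ∅`.  All sets of the image miss `j`, but `{j} ∈ fib A U i ∅`: the members inside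
`{i, j}` lie in `T'` and have at most two points, so they are `∅`.  (`card_image_of_injOn`,
`card_product`, `card_powerset`, `card_lt_card`.)
-/

set_option autoImplicit false

namespace Pool.Agent.H62.UC

open Finset Pool.Agent.H51.UC

variable {α : Type*} [DecidableEq α]

private theorem tk_lg {B : Finset (Finset α)} {X : Finset α} (h : ∀ T ∈ B, T ⊆ X → T = ∅) :
    lg B X = ∅ := by
  have h1 : (B.filter (· ⊆ X)).sup id ≤ ∅ := Finset.sup_le fun T hT => by
    rw [mem_filter] at hT
    exact (h T hT.1 hT.2).le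
  exact subset_empty.1 h1

private theorem tk_card {A : Finset (Finset α)} {T' : Finset α} (hT' : T' ∈ A)
    (h3 : 3 ≤ T'.card) (hmin : ∀ T ∈ A, T ⊆ T' → T = ∅ ∨ T = T') {i j : α} (hi : i ∈ T')
    (hj : j ∈ T') (hij : i ≠ j) :
    (fib2 A (A.sup id) i j T').card * 2 ^ (T'.card - 2) < (fib A (A.sup id) i ∅).card := by
  have hTU : T' ⊆ A.sup id := Finset.le_sup (f := id) hT'
  have hS : ((T'.erase i).erase j).card = T'.card - 2 := by
    rw [card_erase_of_mem (mem_erase.2 ⟨hij.symm, hj⟩), card_erase_of_mem hi]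
    omega
  rw [← hS, ← card_powerset, ← card_product]
  have hY1 : ∀ Y ∈ fib2 A (A.sup id) i j T', i ∉ Y ∧ j ∉ Y ∧ (T'.erase i).erase j ⊆ Y ∧
      Y ⊆ (A.sup id).erase i ∧ lg A (insert i (insert j Y)) = T' := by
    intro Y hY
    rw [mem_fib2] at hY
    refine ⟨fun h => (mem_erase.1 (hY.1 h)).1 rfl, hY.2.1, ?_, hY.1, hY.2.2⟩
    intro x hx
    rw [mem_erase, mem_erase] at hx
    have h1 : T' ⊆ insert i (insert j Y) := by
      have h2 := lg_sub A (insert i (insert j Y))
      rw [hY.2.2] at h2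
      exact h2
    rcases mem_insert.1 (h1 hx.2.2) with h | h
    · exact absurd h hx.2.1
    · rcases mem_insert.1 h with h | h
      · exact absurd h hx.1
      · exact h
  have hinj : Set.InjOn (fun q : Finset α × Finset α => (q.1 \ T') ∪ q.2)
      (↑(fib2 A (A.sup id) i j T' ×ˢ ((T'.erase i).erase j).powerset) : Set (Finset α × Finset α)) := by
    rintro ⟨Y, Z⟩ hq ⟨Y', Z'⟩ hq' he
    rw [mem_coe, mem_product, mem_powerset] at hq hq'
    dsimp only at hq hq' he
    obtain ⟨a1, a2, a3, _, _⟩ := hY1 Y hq.1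
    obtain ⟨b1, b2, b3, _, _⟩ := hY1 Y' hq'.1
    have hmem : ∀ x, (x ∈ Y ∧ x ∉ T') ∨ x ∈ Z ↔ (x ∈ Y' ∧ x ∉ T') ∨ x ∈ Z' := by
      intro x
      have h1 := Finset.ext_iff.1 he x
      rw [mem_union, mem_sdiff, mem_union, mem_sdiff] at h1
      exact h1
    have hZT : ∀ x, x ∈ Z → x ∈ T' := fun x hx => mem_of_mem_erase (mem_of_mem_erase (hq.2 hx))
    have hZT' : ∀ x, x ∈ Z' → x ∈ T' := fun x hx => mem_of_mem_erase (mem_of_mem_erase (hq'.2 hx))
    have e1 : Z = Z' := by
      ext x
      have h1 := hmem x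
      have h2 := hZT x
      have h3 := hZT' x
      tauto
    have e2 : Y = Y' := by
      ext x
      by_cases hx : x ∈ T'
      · by_cases hxi : x = i
        · rw [hxi]
          exact ⟨fun h => absurd h a1, fun h => absurd h b1⟩
        · by_cases hxj : x = j
          · rw [hxj]
            exact ⟨fun h => absurd h a2, fun h => absurd h b2⟩
          · have h1 : x ∈ (T'.erase i).erase j := mem_erase.2 ⟨hxj, mem_erase.2 ⟨hxi, hx⟩⟩
            exact ⟨fun _ => b3 h1, fun _ => a3 h1⟩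
      · have h1 := hmem x
        have h2 := hZT x
        have h3 := hZT' x
        tauto
    rw [e1, e2]
  rw [← card_image_of_injOn hinj]
  have hjn : ∀ W ∈ (fib2 A (A.sup id) i j T' ×ˢ ((T'.erase i).erase j).powerset).image
      (fun q : Finset α × Finset α => (q.1 \ T') ∪ q.2), j ∉ W := by
    intro W hW hjW
    rw [mem_image] at hW
    obtain ⟨⟨Y, Z⟩, hq, rfl⟩ := hW
    rw [mem_product, mem_powerset] at hq
    rcases mem_union.1 hjW with h | h
    · exact (mem_sdiff.1 h).2 hj
    · exact (mem_erase.1 (hq.2 h)).1 rfl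
  have hjf : ({j} : Finset α) ∈ fib A (A.sup id) i ∅ := by
    rw [mem_fib]
    refine ⟨?_, ?_⟩
    · rw [singleton_subset_iff]
      exact mem_erase.2 ⟨hij.symm, hTU hj⟩
    · refine tk_lg fun T hT hTs => ?_
      have h1 : T ⊆ T' := by
        intro x hx
        rcases mem_insert.1 (hTs hx) with h | h
        · rw [h]
          exact hi
        · rw [mem_singleton.1 h]
          exact hj
      rcases hmin T hT h1 with h | h
      · exact h
      · exfalso
        rw [h] at hTs
        have h2 := card_le_card hTs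
        have h4 : (insert i ({j} : Finset α)).card ≤ 2 := card_le_two
        omega
  refine card_lt_card ?_
  rw [Finset.ssubset_iff_of_subset ?_]
  · exact ⟨{j}, hjf, fun h => hjn _ h (mem_singleton_self j)⟩
  · intro W hW0
    have hjW := hjn W hW0
    rw [mem_image] at hW0
    obtain ⟨⟨Y, Z⟩, hq, rfl⟩ := hW0
    rw [mem_product, mem_powerset] at hq
    obtain ⟨a1, a2, a3, a4, a5⟩ := hY1 Y hq.1
    have hWY : (Y \ T') ∪ Z ⊆ Y := by
      intro x hx
      rcases mem_union.1 hx with h | h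
      · exact (mem_sdiff.1 h).1
      · exact a3 (hq.2 h)
    dsimp only at hjW ⊢
    rw [mem_fib]
    refine ⟨hWY.trans a4, tk_lg fun T hT hTs => ?_⟩
    have h1 : T ⊆ insert i (insert j Y) :=
      hTs.trans (insert_subset_insert i (hWY.trans (subset_insert j Y)))
    have h2 : T ⊆ T' := by
      have h3 := le_lg hT h1
      rw [a5] at h3
      exact h3
    rcases hmin T hT h2 with h | h
    · exact h
    · exfalso
      rw [h] at hTs
      rcases mem_insert.1 (hTs hj) with h4 | h4
      · exact hij h4.symm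
      · exact hjW h4

theorem case_three {A : Finset (Finset α)} (h0 : ∅ ∈ A) {T' : Finset α} (hT' : T' ∈ A)
    (h3 : 3 ≤ T'.card) (hmin : ∀ T ∈ A, T ⊆ T' → T = ∅ ∨ T = T') {i j : α} (hi : i ∈ T')
    (hj : j ∈ T') (hij : i ≠ j) :
    ((T', j) : Finset α × α) ∈ Bp A (A.sup id) i ∧ lg A (T'.erase j) = ∅ ∧
      wP ((A.sup id).erase i) (fun _ => 1 / 2) (fib2 A (A.sup id) i j T') <
        (1 / 2 : ℝ) ^ kk A (T', j) *
          wP ((A.sup id).erase i) (fun _ => 1 / 2) (fib A (A.sup id) i ∅) := by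
  have hTU : T' ⊆ A.sup id := Finset.le_sup (f := id) hT'
  have h1 : T'.erase j ∉ A := by
    intro h
    rcases hmin _ h (erase_subset j T') with h2 | h2
    · have h4 : (T'.erase j).card = T'.card - 1 := card_erase_of_mem hj
      rw [h2, card_empty] at h4
      omega
    · have h4 : j ∉ T'.erase j := notMem_erase j T'
      rw [h2] at h4
      exact h4 hj
  have h2 : lg A (T'.erase j) = ∅ := by
    refine tk_lg fun T hT hTs => ?_
    rcases hmin T hT (hTs.trans (erase_subset j T')) with h | h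
    · exact h
    · exfalso
      rw [h] at hTs
      exact notMem_erase j T' (hTs hj)
  have h4 : kk A (T', j) = T'.card - 2 := by
    unfold kk
    dsimp only
    rw [h2, sdiff_empty, card_erase_of_mem hj]
    omega
  refine ⟨?_, h2, ?_⟩
  · rw [mem_Bp]
    dsimp only
    refine ⟨⟨hT', hTU hj⟩, hj, h1, mem_erase.2 ⟨hij, hi⟩, ?_⟩
    rw [h2]
    exact notMem_empty i
  · have g1 : fib2 A (A.sup id) i j T' ⊆ ((A.sup id).erase i).powerset := filter_subset _ _
    have g2 : fib A (A.sup id) i ∅ ⊆ ((A.sup id).erase i).powerset := filter_subset _ _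
    rw [h4, wP_half g1, wP_half g2]
    have h5 := tk_card hT' h3 hmin hi hj hij
    have h6 : ((fib2 A (A.sup id) i j T').card : ℝ) * 2 ^ (T'.card - 2) <
        ((fib A (A.sup id) i ∅).card : ℝ) := by exact_mod_cast h5
    have h7 : (0 : ℝ) < 2 ^ (T'.card - 2) := by positivity
    have h8 : (0 : ℝ) < 2 ^ ((A.sup id).erase i).card := by positivity
    rw [one_div, inv_pow, ← div_eq_inv_mul, div_div, div_lt_div_iff₀ h8 (mul_pos h8 h7)]
    calc ((fib2 A (A.sup id) i j T').card : ℝ) * (2 ^ ((A.sup id).erase i).card * 2 ^ (T'.card - 2))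
        = ((fib2 A (A.sup id) i j T').card : ℝ) * 2 ^ (T'.card - 2) * 2 ^ ((A.sup id).erase i).card := by
          ring
      _ < ((fib A (A.sup id) i ∅).card : ℝ) * 2 ^ ((A.sup id).erase i).card :=
          mul_lt_mul_of_pos_right h6 h8

end Pool.Agent.H62.UC
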