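import Pool.Agent.H62.UC.Ta
import Pool.Agent.H62.UC.Tf

/-!
Row TSl.  `case_two`: `T' = {a, b} ∈ A`, `a ≠ b`, `{b} ∉ A`, `∅ ∈ A`, `U = A.sup id`, and
`|Ns A b| = ∑_{e ∈ Bp A U b} (1/2) ^ kk A e`.  Then every member containing `b` contains `a`.
Proof.  Let `D = Ds A U b`.  `D ⊆ ((U.erase b).erase a).powerset` (if `a ∈ Y` then `{a, b} ⊆ insert b Y`);
the latter has `2 ^ (|U| - 2)` elements, half of `2 ^ |U.erase b|`.  If some member `T ∋ b` has `a ∉ T` then
`T.erase b` is in the latter but not in `D`, so `wP D < 1/2` (`wP_half`, `card_lt_card`), `adm_lt` gives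
`L > 1` with `Adm ..`, and `gw` (`B = A`, `S = U`, `p = 1/2`, `l = 1`) gives
`L |Ns A b| ≤ ∑ 1 * (1/2) ^ kk = |Ns A b|`; but `∅ ∈ Ns A b` (`insert b ∅ = {b} ∉ A`), so `|Ns A b| > 0`, a
contradiction.
-/

set_option autoImplicit false

namespace Pool.Agent.H62.UC

open Finset Pool.Agent.H51.UC

variable {α : Type*} [DecidableEq α]

theorem case_two {A : Finset (Finset α)} (hA : ∀ S ∈ A, ∀ T ∈ A, S ∪ T ∈ A) (h0 : ∅ ∈ A)
    {a b : α} (hab : a ≠ b) (hT : {a, b} ∈ A) (hb : {b} ∉ A)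
    (he : ((Ns A b).card : ℝ) = ∑ e ∈ Bp A (A.sup id) b, (1 / 2 : ℝ) ^ kk A e) {T : Finset α}
    (hTA : T ∈ A) (hbT : b ∈ T) : a ∈ T := by
  by_contra haT
  have hsub : ∀ X ∈ A, X ⊆ A.sup id := fun X hX => by
    have h : X ≤ A.sup id := Finset.le_sup (f := id) hX
    exact h
  have hbU : b ∈ A.sup id := hsub _ hTA hbT
  have haU : a ∈ A.sup id := hsub _ hT (mem_insert_self a {b})
  have haV : a ∈ (A.sup id).erase b := mem_erase.2 ⟨hab, haU⟩
  have hDV : Ds A (A.sup id) b ⊆ ((A.sup id).erase b).powerset := filter_subset _ _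
  have hD1 : Ds A (A.sup id) b ⊆ (((A.sup id).erase b).erase a).powerset := by
    intro Y hY
    rw [mem_Ds] at hY
    rw [mem_powerset, subset_erase]
    refine ⟨hY.1, fun haY => hY.2 ⟨{a, b}, hT, by simp, ?_⟩⟩
    intro x hx
    rw [mem_insert, mem_singleton] at hx
    rcases hx with rfl | rfl
    · exact mem_insert_of_mem haY
    · exact mem_insert_self _ _
  have hD2 : Ds A (A.sup id) b ⊂ (((A.sup id).erase b).erase a).powerset := by
    refine Finset.ssubset_iff_subset_ne.2 ⟨hD1, fun heq => ?_⟩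
    have h1 : T.erase b ∈ (((A.sup id).erase b).erase a).powerset := by
      rw [mem_powerset, subset_erase]
      exact ⟨erase_subset_erase b (hsub T hTA), fun h => haT (mem_of_mem_erase h)⟩
    rw [← heq, mem_Ds] at h1
    exact h1.2 ⟨T, hTA, hbT, by rw [insert_erase hbT]⟩
  have hc := card_lt_card hD2
  rw [card_powerset, card_erase_of_mem haV] at hc
  have hpos : 0 < ((A.sup id).erase b).card := card_pos.2 ⟨a, haV⟩
  have hhalf : wP ((A.sup id).erase b) (fun _ => 1 / 2) (Ds A (A.sup id) b) < 1 / 2 := by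
    rw [wP_half hDV, div_lt_div_iff₀ (by positivity) (by norm_num)]
    obtain ⟨m, hm⟩ : ∃ m, ((A.sup id).erase b).card = m + 1 := ⟨_, (Nat.succ_pred_eq_of_pos hpos).symm⟩
    rw [hm] at hc ⊢
    rw [Nat.add_sub_cancel] at hc
    have hc' : ((Ds A (A.sup id) b).card : ℝ) < 2 ^ m := by exact_mod_cast hc
    rw [pow_succ]
    linarith
  obtain ⟨L, hL1, hL⟩ := adm_lt hDV (Ds_dn A (A.sup id) b) hhalf
  have hg := gw (A := A) (B := A) (S := A.sup id) hA hsub (fun X hX _ w hw => hA X hX w hw)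
    hbU (p := fun _ => 1 / 2) (l := fun _ => 1) (fun _ _ => ⟨by norm_num, le_refl _⟩)
    (fun _ _ => zero_le_one) hL
  simp only [one_mul] at hg
  rw [← he] at hg
  have hN : (0 : ℝ) < ((Ns A b).card : ℝ) := by
    have : 0 < (Ns A b).card := card_pos.2 ⟨∅, by
      rw [mem_Ns]
      exact ⟨h0, notMem_empty b, by simpa using hb⟩⟩
    exact_mod_cast this
  nlinarith

end Pool.Agent.H62.UC
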