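import Pool.Agent.H62.UC.Ti
import Pool.Agent.H62.UC.Tj
import Pool.Agent.H62.UC.Tk
import Pool.Agent.H62.UC.Tl

/-!
Row TSm.  Strictness: Poonen's inequality under the covering condition with `2/3`.

`strict_of_empty'`: suppose all `2 freq ≤ |A|`.  `eq_case` gives `2 freq i = |A|` and
`|Ns A i| = ∑ (1/2) ^ kk` for all `i ∈ U = A.sup id`.  Take `T'` from `minimal_member`.  If `3 ≤ |T'|` take
`i ≠ j` in `T'` (`one_lt_card`): `case_three` and `gw_lt` (`B = A`, `S = U`, `p = 1/2`, `l = 1`, `L = 1`,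
`adm_two_thirds`, `Ds_dn`, `h0` for `hW`) give `|Ns A i| < ∑ (1/2) ^ kk`, a contradiction.  If
`|T'| = 2`, `T' = {a, b}` (`card_eq_two`): `case_two` twice (`a`, `b` exchanged, `pair_comm`): a member contains
`a` iff it contains `b`, against `hsep`.

`strict'`: as `strict` at the end of `Pool/Agent/H62/UC/Mg.lean`: if `∅ ∈ A`: `strict_of_empty'`.  Otherwise
`B = insert ∅ A` is union-closed, `B.sup id = A.sup id`, separating (same members with points),
`Ds B U i = Ds A U i` (only members that contain `i` matter), `freq` the same.  If `B ≠ U.powerset`: some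
`x` has `B.card < 2 freq x`, and `A.card < B.card`.  If `B = U.powerset`: `U ≠ ∅` (`A` has a member, which
is not `∅`), `x ∈ U`: `2 freq x = B.card > A.card`.
-/

set_option autoImplicit false

namespace Pool.Agent.H62.UC

open Finset Pool.Agent.H51.UC

variable {α : Type*} [DecidableEq α]

private theorem TSm_sub {A : Finset (Finset α)} {T : Finset α} (hT : T ∈ A) : T ⊆ A.sup id :=
  le_sup (f := id) hT

theorem strict_of_empty' {A : Finset (Finset α)} (hA : ∀ S ∈ A, ∀ T ∈ A, S ∪ T ∈ A)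
    (h0 : ∅ ∈ A)
    (hsep : ∀ x ∈ A.sup id, ∀ y ∈ A.sup id, x ≠ y → ∃ T ∈ A, ¬ (x ∈ T ↔ y ∈ T))
    (hpow : A ≠ (A.sup id).powerset)
    (hd : ∀ i ∈ A.sup id, wP ((A.sup id).erase i) (fun _ => 1 / 2) (Ds A (A.sup id) i) ≤ 2 / 3) :
    ∃ i ∈ A.sup id, A.card < 2 * (A.filter (fun T => i ∈ T)).card := by
  by_contra hcon
  have hfreq : ∀ x ∈ A.sup id, 2 * (A.filter (fun T => x ∈ T)).card ≤ A.card := by
    intro x hx
    by_contra h
    exact hcon ⟨x, hx, by omega⟩
  have heq := eq_case hA hd hfreq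
  obtain ⟨T', hT', hc2, hmin, hns⟩ := minimal_member hA h0 hpow (fun i hi => (heq i hi).1)
  by_cases h3 : 3 ≤ T'.card
  · obtain ⟨i, hi, j, hj, hij⟩ := one_lt_card.1 (by omega : 1 < T'.card)
    obtain ⟨c1, c2, c3⟩ := case_three h0 hT' h3 hmin hi hj hij
    have hiU : i ∈ A.sup id := TSm_sub hT' hi
    have hadm : Adm ((A.sup id).erase i) (fun _ => 1 / 2) (fun _ => 1) (Ds A (A.sup id) i) 1 :=
      adm_two_thirds (fun Y hY => mem_powerset.2 (mem_Ds.1 hY).1) (Ds_dn A _ i) (hd i hiU)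
    have h1 := gw_lt (A := A) (B := A) (S := A.sup id) hA (fun T hT => TSm_sub hT)
      (fun T hT _ w hw => hA T hT w hw) hiU
      (p := fun _ => (1 / 2 : ℝ)) (l := fun _ => (1 : ℝ))
      (fun j _ => ⟨by norm_num, le_refl _⟩) (fun j _ => zero_le_one) hadm (e0 := (T', j)) c1
      zero_lt_one (by
        show lg A (T'.erase j) ∈ A
        rw [c2]
        exact h0) (by
        show wP ((A.sup id).erase i) (fun _ => 1 / 2) (fib2 A (A.sup id) i j T') <
          (1 / 2 : ℝ) ^ kk A (T', j) * wP ((A.sup id).erase i) (fun _ => 1 / 2)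
            (fib A (A.sup id) i (lg A (T'.erase j)))
        rw [c2]
        exact c3)
    simp only [one_mul] at h1
    exact absurd (heq i hiU).2 (ne_of_lt h1)
  · have h7 : T'.card = 2 := by omega
    obtain ⟨a, b, hab, hT'ab⟩ := card_eq_two.1 h7
    rw [hT'ab] at hT' hns
    have haU : a ∈ A.sup id := TSm_sub hT' (by simp)
    have hbU : b ∈ A.sup id := TSm_sub hT' (by simp)
    have ha : {a} ∉ A := hns a (by simp)
    have hb : {b} ∉ A := hns b (by simp)
    obtain ⟨T, hTA, hT3⟩ := hsep a haU b hbU hab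
    refine hT3 ⟨fun h => ?_, fun h => ?_⟩
    · have hT2 := hT'
      rw [pair_comm] at hT2
      exact case_two hA h0 hab.symm hT2 ha (heq a haU).2 hTA h
    · exact case_two hA h0 hab hT' hb (heq b hbU).2 hTA h

theorem strict' {A : Finset (Finset α)} (hA : ∀ S ∈ A, ∀ T ∈ A, S ∪ T ∈ A)
    (hne : A.Nonempty)
    (hsep : ∀ x ∈ A.sup id, ∀ y ∈ A.sup id, x ≠ y → ∃ T ∈ A, ¬ (x ∈ T ↔ y ∈ T))
    (hpow : A ≠ (A.sup id).powerset)
    (hd : ∀ i ∈ A.sup id, wP ((A.sup id).erase i) (fun _ => 1 / 2) (Ds A (A.sup id) i) ≤ 2 / 3) :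
    ∃ i ∈ A.sup id, A.card < 2 * (A.filter (fun T => i ∈ T)).card := by
  by_cases h0 : ∅ ∈ A
  · exact strict_of_empty' hA h0 hsep hpow hd
  obtain ⟨B, hB⟩ : ∃ B, B = insert ∅ A := ⟨_, rfl⟩
  have hBU : B.sup id = A.sup id := by
    rw [hB, sup_insert]
    exact bot_sup_eq _
  have hBA : ∀ S ∈ B, ∀ T ∈ B, S ∪ T ∈ B := by
    intro S hS T hT
    rw [hB, mem_insert] at hS hT ⊢
    rcases hS with rfl | hS
    · rw [empty_union]
      exact hT
    · rcases hT with rfl | hT
      · rw [union_empty]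
        exact Or.inr hS
      · exact Or.inr (hA S hS T hT)
  have hB0 : ∅ ∈ B := by
    rw [hB]
    exact mem_insert_self _ _
  have hBfreq : ∀ x, B.filter (fun T => x ∈ T) = A.filter (fun T => x ∈ T) := by
    intro x
    rw [hB, filter_insert, if_neg (notMem_empty x)]
  have hBcard : B.card = A.card + 1 := by
    rw [hB, card_insert_of_notMem h0]
  have hBD : ∀ i, Ds B (A.sup id) i = Ds A (A.sup id) i := by
    intro i
    unfold Ds
    refine filter_congr fun Y _ => ?_
    refine not_congr ?_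
    constructor
    · rintro ⟨T, hT, hiT, hTY⟩
      rw [hB, mem_insert] at hT
      rcases hT with rfl | hT
      · exact absurd hiT (notMem_empty i)
      · exact ⟨T, hT, hiT, hTY⟩
    · rintro ⟨T, hT, hiT, hTY⟩
      refine ⟨T, ?_, hiT, hTY⟩
      rw [hB]
      exact mem_insert_of_mem hT
  by_cases hBp : B = (B.sup id).powerset
  · obtain ⟨T, hT⟩ := hne
    have hTne : T.Nonempty := by
      rw [nonempty_iff_ne_empty]
      rintro rfl
      exact h0 hT
    obtain ⟨x, hx⟩ := hTne
    have hxU : x ∈ A.sup id := TSm_sub hT hx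
    refine ⟨x, hxU, ?_⟩
    have hmem : ∀ S, S ∈ B ↔ S ⊆ A.sup id := by
      intro S
      rw [hBp, mem_powerset, hBU]
    have h1 := freq_identity B x
    have h2 : Bd B x = ∅ := by
      rw [eq_empty_iff_forall_notMem]
      intro S hS
      rw [mem_Bd] at hS
      exact hS.2.2 ((hmem _).2 ((erase_subset x S).trans ((hmem _).1 hS.1)))
    have h3 : Ns B x = ∅ := by
      rw [eq_empty_iff_forall_notMem]
      intro S hS
      rw [mem_Ns] at hS
      exact hS.2.2 ((hmem _).2 (insert_subset hxU ((hmem _).1 hS.1)))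
    rw [h2, h3, hBfreq, card_empty, Nat.cast_zero, sub_zero] at h1
    have h4 : (2 : ℝ) * ((A.filter (fun T => x ∈ T)).card : ℝ) = (B.card : ℝ) := by linarith
    have h5 : 2 * (A.filter (fun T => x ∈ T)).card = B.card := by exact_mod_cast h4
    omega
  · obtain ⟨x, hx, h1⟩ := strict_of_empty' (A := B) hBA hB0
      (by
        rw [hBU]
        intro x hx y hy hxy
        obtain ⟨T, hT, h1⟩ := hsep x hx y hy hxy
        refine ⟨T, ?_, h1⟩
        rw [hB]
        exact mem_insert_of_mem hT) hBp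
      (by
        rw [hBU]
        intro i hi
        rw [hBD]
        exact hd i hi)
    rw [hBU] at hx
    rw [hBfreq] at h1
    exact ⟨x, hx, by omega⟩

end Pool.Agent.H62.UC
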