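import Pool.Agent.H62.UC.Ta

/-!
Cards: `Adm` for `p = 1/2` in terms of the number of sets and the weighted number of edges.
-/

set_option autoImplicit false

namespace Pool.Agent.H62.UC

open Finset Pool.Agent.H51.UC

variable {α : Type*} [DecidableEq α]

/-- The weighted number of upward edges leaving `X`. -/
noncomputable def cB (V : Finset α) (l : α → ℝ) (X : Finset (Finset α)) : ℝ :=
  ∑ Y ∈ X, ∑ j ∈ V with (j ∉ Y ∧ insert j Y ∉ X), l j

theorem pm_half {V Y : Finset α} (hY : Y ⊆ V) :
    pm V (fun _ => (1 / 2 : ℝ)) Y = 1 / 2 ^ V.card := by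
  unfold pm
  have h1 : (1 : ℝ) - 1 / 2 = 1 / 2 := by norm_num
  have h2 : Y.card + (V \ Y).card = V.card := by
    rw [add_comm]
    exact card_sdiff_add_card_eq_card hY
  rw [prod_const, prod_const, h1, ← pow_add, h2, one_div_pow]

theorem wB_unif {V : Finset α} {l : α → ℝ} {X : Finset (Finset α)} (hX : X ⊆ V.powerset) :
    wB V (fun _ => 1 / 2) l X = cB V l X / 2 ^ V.card := by
  unfold wB cB
  rw [sum_div]
  refine sum_congr rfl fun Y hY => ?_
  rw [pm_half (mem_powerset.1 (hX hY)), ← sum_mul, mul_one_div]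

theorem adm_card {V : Finset α} {l : α → ℝ} {D : Finset (Finset α)} (hDV : D ⊆ V.powerset)
    {L : ℝ} : Adm V (fun _ => 1 / 2) l D L ↔
      ∀ E ⊆ D, Down E → L * (E.card : ℝ) ≤ cB V l E := by
  have h2 : (0 : ℝ) < 2 ^ V.card := by positivity
  refine forall_congr' fun E => forall_congr' fun hE => forall_congr' fun _ => ?_
  rw [wP_half (hE.trans hDV), wB_unif (hE.trans hDV), ← mul_div_assoc,
    div_le_div_iff_of_pos_right h2]

theorem cB_mul {V : Finset α} {l : α → ℝ} {X : Finset (Finset α)} (c : ℝ) :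
    cB V (fun j => l j * c) X = cB V l X * c := by
  unfold cB
  rw [sum_mul]
  refine sum_congr rfl fun Y _ => ?_
  rw [sum_mul]

end Pool.Agent.H62.UC
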