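import Pool.Agent.H62.UC.Tn
import Pool.Agent.H62.UC.Th

/-!
The main inequality with weights `lam ≥ 0` and the uniform measure.
-/

set_option autoImplicit false

namespace Pool.Agent.H62.UC

open Finset Pool.Agent.H51.UC

variable {α : Type*} [DecidableEq α]

/-- Every down-closed family `E ⊆ D` has weighted boundary at least `L * lam x * |E|`. -/
def Rt (V : Finset α) (lam : α → ℝ) (x : α) (D : Finset (Finset α)) (L : ℝ) : Prop :=
  ∀ E ⊆ D, Down E → L * lam x * (E.card : ℝ) ≤ cB V lam E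

theorem Rt.adm {V : Finset α} {lam : α → ℝ} {x : α} {D : Finset (Finset α)}
    (hDV : D ⊆ V.powerset) {L : ℝ} (hx : 0 < lam x) (h : Rt V lam x D L) :
    Adm V (fun _ => 1 / 2) (fun j => lam j / lam x) D L := by
  rw [adm_card hDV]
  intro E hE hd
  have h1 := h E hE hd
  have h2 : cB V (fun j => lam j / lam x) E = cB V lam E / lam x := by
    have h3 := cB_mul (V := V) (l := lam) (X := E) (1 / lam x)
    simp only [mul_one_div] at h3
    exact h3
  rw [h2, le_div_iff₀ hx]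
  linarith

theorem gw_w {A B : Finset (Finset α)} {S : Finset α} (hB : ∀ T ∈ B, ∀ T' ∈ B, T ∪ T' ∈ B)
    (hBS : ∀ T ∈ B, T ⊆ S) (hAB : ∀ T ∈ A, T ⊆ S → ∀ w ∈ B, T ∪ w ∈ B) {lam : α → ℝ}
    (hlam : ∀ i ∈ S, 0 ≤ lam i) {i : α} (hi : i ∈ S) {L : ℝ}
    (hL : Rt (S.erase i) lam i (Ds A S i) L) :
    lam i * (L * ((Ns B i).card : ℝ)) ≤ ∑ e ∈ Bp B S i, lam e.2 * (1 / 2 : ℝ) ^ kk B e := by
  rcases (hlam i hi).eq_or_lt with h0 | h0
  · rw [← h0, zero_mul]
    refine sum_nonneg fun e he => mul_nonneg (hlam e.2 ?_) (by positivity)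
    exact (mem_Bp.1 he).1.2
  · have h1 := gw hB hBS hAB hi (p := fun _ => (1 / 2 : ℝ)) (l := fun j => lam j / lam i)
      (fun j _ => ⟨by norm_num, le_refl _⟩)
      (fun j hj => div_nonneg (hlam j (mem_of_mem_erase hj)) h0.le)
      (hL.adm (filter_subset _ _) h0)
    have h2 := mul_le_mul_of_nonneg_left h1 h0.le
    refine h2.trans (le_of_eq ?_)
    rw [mul_sum]
    refine sum_congr rfl fun e _ => ?_
    field_simp

theorem bsum_w (B : Finset (Finset α)) (S : Finset α) {lam : α → ℝ} (hlam : ∀ i ∈ S, 0 ≤ lam i) :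
    ∑ i ∈ S, ∑ e ∈ Bp B S i, lam e.2 * (1 / 2 : ℝ) ^ kk B e ≤
      ∑ j ∈ S, lam j * ((Bd B j).card : ℝ) := by
  obtain ⟨P, hP⟩ : ∃ P, P = (B ×ˢ S).filter fun e => e.2 ∈ e.1 ∧ e.1.erase e.2 ∉ B := ⟨_, rfl⟩
  obtain ⟨K, hK⟩ : ∃ K : Finset α × α → Finset α,
    K = fun e => e.1.erase e.2 \ lg B (e.1.erase e.2) := ⟨_, rfl⟩
  have h1 : ∀ i, Bp B S i = P.filter fun e => i ∈ K e := by
    intro i
    rw [hP, hK]
    unfold Bp
    rw [filter_filter]
    refine filter_congr fun e _ => ?_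
    tauto
  have hk : ∀ n : ℕ, (n : ℝ) * (1 / 2 : ℝ) ^ (n - 1) ≤ 1 := by
    intro n
    rcases n with _ | n
    · simp
    · rw [Nat.add_sub_cancel, one_div_pow, mul_one_div, div_le_one (by positivity)]
      have h2 : n + 1 ≤ 2 ^ n := Nat.lt_two_pow_self
      exact_mod_cast h2
  have h2 : ∀ i ∈ S, ∑ e ∈ Bp B S i, lam e.2 * (1 / 2 : ℝ) ^ kk B e =
      ∑ e ∈ P, if i ∈ K e then lam e.2 * (1 / 2 : ℝ) ^ kk B e else 0 := by
    intro i _
    rw [h1, sum_filter]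
  rw [sum_congr rfl h2, sum_comm]
  have h3 : ∀ e ∈ P, (∑ i ∈ S, if i ∈ K e then lam e.2 * (1 / 2 : ℝ) ^ kk B e else 0) ≤
      lam e.2 := by
    intro e he
    rw [hP, mem_filter, mem_product] at he
    rw [← sum_filter, sum_const, nsmul_eq_mul]
    have h4 : (S.filter fun i => i ∈ K e).card ≤ (K e).card :=
      card_le_card fun i hi => (mem_filter.1 hi).2
    have h5 : kk B e = (K e).card - 1 := by
      rw [hK]
      rfl
    have h6 := hlam e.2 he.1.2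
    have h7 : ((S.filter fun i => i ∈ K e).card : ℝ) * (1 / 2 : ℝ) ^ kk B e ≤ 1 := by
      rw [h5]
      refine le_trans (mul_le_mul_of_nonneg_right (Nat.cast_le.2 h4) (by positivity)) (hk _)
    calc ((S.filter fun i => i ∈ K e).card : ℝ) * (lam e.2 * (1 / 2 : ℝ) ^ kk B e) =
        lam e.2 * (((S.filter fun i => i ∈ K e).card : ℝ) * (1 / 2 : ℝ) ^ kk B e) := by ring
      _ ≤ lam e.2 * 1 := mul_le_mul_of_nonneg_left h7 h6
      _ = lam e.2 := mul_one _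
  refine (sum_le_sum h3).trans (le_of_eq ?_)
  rw [hP, sum_filter, sum_product_right]
  refine sum_congr rfl fun j _ => ?_
  rw [← sum_filter]
  show ∑ _a ∈ Bd B j, lam j = _
  rw [sum_const, nsmul_eq_mul, mul_comm]

theorem sum_bound_w {A B : Finset (Finset α)} {S : Finset α}
    (hB : ∀ T ∈ B, ∀ T' ∈ B, T ∪ T' ∈ B) (hBS : ∀ T ∈ B, T ⊆ S)
    (hAB : ∀ T ∈ A, T ⊆ S → ∀ w ∈ B, T ∪ w ∈ B) {lam : α → ℝ} (hlam : ∀ i ∈ S, 0 ≤ lam i)
    {L : α → ℝ} (hL : ∀ i ∈ S, Rt (S.erase i) lam i (Ds A S i) (L i)) :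
    ∑ i ∈ S, lam i * (L i * ((Ns B i).card : ℝ)) ≤ ∑ j ∈ S, lam j * ((Bd B j).card : ℝ) :=
  (sum_le_sum fun i hi => gw_w hB hBS hAB hlam hi (hL i hi)).trans (bsum_w B S hlam)

private theorem star_disj {A : Finset (Finset α)} {S R : Finset α}
    (hR : R ∈ ((A.sup id) \ S).powerset) : Disjoint R S :=
  disjoint_of_subset_left (mem_powerset.1 hR) sdiff_disjoint

theorem star_main_w {A : Finset (Finset α)} (hA : ∀ S ∈ A, ∀ T ∈ A, S ∪ T ∈ A) {S : Finset α}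
    {lam : α → ℝ} (hlam : ∀ i ∈ S, 0 ≤ lam i) {L : α → ℝ}
    (hL : ∀ i ∈ S, Rt (S.erase i) lam i (Ds A S i) (L i)) :
    ∑ i ∈ S, lam i * (((Ns A i).card : ℝ) * (L i - 1)) ≤
      ∑ i ∈ S, lam i * (2 * ((A.filter (fun T => i ∈ T)).card : ℝ) - (A.card : ℝ)) := by
  have key : ∀ R ∈ ((A.sup id) \ S).powerset,
      ∑ i ∈ S, lam i * (L i * ((Ns (sl A S R) i).card : ℝ)) ≤
        ∑ j ∈ S, lam j * ((Bd (sl A S R) j).card : ℝ) := by
    intro R hR
    have hd := star_disj hR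
    refine sum_bound_w (A := A) (B := sl A S R) (S := S) ?_ ?_ ?_ hlam hL
    · intro T hT T' hT'
      rw [mem_sl hd] at hT hT' ⊢
      refine ⟨union_subset hT.1 hT'.1, ?_⟩
      have h := hA _ hT.2 _ hT'.2
      have h1 : T ∪ R ∪ (T' ∪ R) = T ∪ T' ∪ R := by
        ext x
        simp only [mem_union]
        tauto
      rw [h1] at h
      exact h
    · intro T hT
      exact ((mem_sl hd).1 hT).1
    · intro T hT hTS w hw
      rw [mem_sl hd] at hw ⊢
      refine ⟨union_subset hTS hw.1, ?_⟩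
      rw [union_assoc]
      exact hA _ hT _ hw.2
  have h1 := sum_le_sum key
  rw [sum_comm, sum_comm (s := ((A.sup id) \ S).powerset)] at h1
  have h2 : ∀ i ∈ S, ∑ R ∈ ((A.sup id) \ S).powerset,
      lam i * (L i * ((Ns (sl A S R) i).card : ℝ)) = lam i * (L i * ((Ns A i).card : ℝ)) := by
    intro i hi
    rw [← mul_sum, ← mul_sum, ← sum_Ns_sl A hi]
    push_cast
    rfl
  have h3 : ∀ i ∈ S, ∑ R ∈ ((A.sup id) \ S).powerset,
      lam i * ((Bd (sl A S R) i).card : ℝ) = lam i * ((Bd A i).card : ℝ) := by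
    intro i hi
    rw [← mul_sum, ← sum_Bd_sl A hi]
    push_cast
    rfl
  rw [sum_congr rfl h2, sum_congr rfl h3] at h1
  have h4 : ∀ i ∈ S, lam i * (2 * ((A.filter (fun T => i ∈ T)).card : ℝ) - (A.card : ℝ)) =
      lam i * ((Bd A i).card : ℝ) - lam i * ((Ns A i).card : ℝ) := by
    intro i _
    rw [freq_identity, mul_sub]
  have h5 : ∀ i ∈ S, lam i * (((Ns A i).card : ℝ) * (L i - 1)) =
      lam i * (L i * ((Ns A i).card : ℝ)) - lam i * ((Ns A i).card : ℝ) := by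
    intro i _
    ring
  rw [sum_congr rfl h4, sum_congr rfl h5, sum_sub_distrib, sum_sub_distrib]
  linarith

theorem eq_case_w {A : Finset (Finset α)} (hA : ∀ S ∈ A, ∀ T ∈ A, S ∪ T ∈ A) {lam : α → ℝ}
    (hlam : ∀ i ∈ A.sup id, 0 < lam i)
    (hd : ∀ i ∈ A.sup id, Rt ((A.sup id).erase i) lam i (Ds A (A.sup id) i) 1)
    (hf : ∀ i ∈ A.sup id, 2 * (A.filter (fun T => i ∈ T)).card ≤ A.card) :
    ∀ i ∈ A.sup id, 2 * (A.filter (fun T => i ∈ T)).card = A.card ∧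
      lam i * ((Ns A i).card : ℝ) =
        ∑ e ∈ Bp A (A.sup id) i, lam e.2 * (1 / 2 : ℝ) ^ kk A e := by
  have hsub : ∀ T ∈ A, T ⊆ A.sup id := fun T hT => Finset.le_sup (f := id) hT
  have hlam0 : ∀ i ∈ A.sup id, 0 ≤ lam i := fun i hi => (hlam i hi).le
  have hg : ∀ i ∈ A.sup id, lam i * ((Ns A i).card : ℝ) ≤
      ∑ e ∈ Bp A (A.sup id) i, lam e.2 * (1 / 2 : ℝ) ^ kk A e := by
    intro i hi
    have h1 := gw_w (A := A) (B := A) (S := A.sup id) hA hsub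
      (fun T hT _ w hw => hA T hT w hw) hlam0 hi (hd i hi)
    simpa only [one_mul] using h1
  have hb := bsum_w A (A.sup id) hlam0
  have hnp : ∀ i ∈ A.sup id,
      lam i * (2 * ((A.filter (fun T => i ∈ T)).card : ℝ) - (A.card : ℝ)) ≤ 0 := by
    intro i hi
    have h1 : ((2 * (A.filter (fun T => i ∈ T)).card : ℕ) : ℝ) ≤ (A.card : ℝ) :=
      Nat.cast_le.2 (hf i hi)
    rw [Nat.cast_mul, Nat.cast_ofNat] at h1
    exact mul_nonpos_of_nonneg_of_nonpos (hlam0 i hi) (by linarith)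
  have hsum : ∑ i ∈ A.sup id,
      lam i * (2 * ((A.filter (fun T => i ∈ T)).card : ℝ) - (A.card : ℝ)) =
      ∑ i ∈ A.sup id, lam i * ((Bd A i).card : ℝ) -
        ∑ i ∈ A.sup id, lam i * ((Ns A i).card : ℝ) := by
    rw [← sum_sub_distrib]
    exact sum_congr rfl fun i _ => by rw [freq_identity A i, mul_sub]
  have hle := sum_le_sum hg
  have hle0 := sum_nonpos hnp
  have h0 : ∑ i ∈ A.sup id,
      lam i * (2 * ((A.filter (fun T => i ∈ T)).card : ℝ) - (A.card : ℝ)) = 0 := by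
    refine le_antisymm hle0 ?_
    rw [hsum]
    linarith
  have h1 : ∑ i ∈ A.sup id, lam i * ((Ns A i).card : ℝ) =
      ∑ i ∈ A.sup id, ∑ e ∈ Bp A (A.sup id) i, lam e.2 * (1 / 2 : ℝ) ^ kk A e := by
    refine le_antisymm hle ?_
    rw [hsum] at h0
    linarith
  intro i hi
  refine ⟨?_, (sum_eq_sum_iff_of_le hg).1 h1 i hi⟩
  have h2 := (sum_eq_zero_iff_of_nonpos hnp).1 h0 i hi
  have h4 := (mul_eq_zero.1 h2).resolve_left (hlam i hi).ne'
  have h3 : ((2 * (A.filter (fun T => i ∈ T)).card : ℕ) : ℝ) = (A.card : ℝ) := by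
    rw [Nat.cast_mul, Nat.cast_ofNat]
    linarith
  exact Nat.cast_injective h3

end Pool.Agent.H62.UC
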