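import Pool.Agent.H62.UC.To
import Pool.Agent.H62.UC.Tj
import Pool.Agent.H62.UC.Tk
import Pool.Agent.H62.UC.Tm

/-!
Strictness with weights.
-/

set_option autoImplicit false

namespace Pool.Agent.H62.UC

open Finset Pool.Agent.H51.UC

variable {α : Type*} [DecidableEq α]

private theorem Tp_sub {A : Finset (Finset α)} {T : Finset α} (hT : T ∈ A) : T ⊆ A.sup id :=
  le_sup (f := id) hT

theorem case_two_w {A : Finset (Finset α)} (hA : ∀ S ∈ A, ∀ T ∈ A, S ∪ T ∈ A) (h0 : ∅ ∈ A)
    {lam : α → ℝ} (hlam : ∀ i ∈ A.sup id, 0 < lam i)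
    {a b : α} (hab : a ≠ b) (hT : {a, b} ∈ A) (hb : {b} ∉ A) (hle : lam b ≤ lam a)
    (he : lam b * ((Ns A b).card : ℝ) =
      ∑ e ∈ Bp A (A.sup id) b, lam e.2 * (1 / 2 : ℝ) ^ kk A e) {T : Finset α}
    (hTA : T ∈ A) (hbT : b ∈ T) : a ∈ T := by
  by_contra ha
  have hsub : ∀ T ∈ A, T ⊆ A.sup id := fun T hT => Finset.le_sup (f := id) hT
  have hbU : b ∈ A.sup id := hsub T hTA hbT
  have haU : a ∈ A.sup id := hsub _ hT (by simp)
  obtain ⟨V, hV⟩ : ∃ V, V = (A.sup id).erase b := ⟨_, rfl⟩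
  have haV : a ∈ V := by
    rw [hV]
    exact mem_erase.2 ⟨hab, haU⟩
  have hVU : ∀ j ∈ V, j ∈ A.sup id := fun j hj => by
    rw [hV] at hj
    exact mem_of_mem_erase hj
  obtain ⟨j0, hj0, hmin⟩ := exists_min_image (A.sup id) lam ⟨b, hbU⟩
  have hμ : 0 < lam j0 := hlam j0 hj0
  have hlb : 0 < lam b := hlam b hbU
  have h2 : (0 : ℝ) < 2 ^ V.card := by positivity
  obtain ⟨L, hLdef⟩ : ∃ L : ℝ, L = 1 + lam j0 / (lam b * 2 ^ V.card) := ⟨_, rfl⟩
  have hL1 : 1 < L := by
    rw [hLdef]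
    have : 0 < lam j0 / (lam b * 2 ^ V.card) := by positivity
    linarith
  have hDa : ∀ Y ∈ Ds A (A.sup id) b, a ∉ Y := by
    intro Y hY haY
    rw [mem_Ds] at hY
    refine hY.2 ⟨{a, b}, hT, by simp, ?_⟩
    intro c hc
    rw [mem_insert, mem_singleton] at hc
    rcases hc with h | h
    · rw [h]
      exact mem_insert_of_mem haY
    · rw [h]
      exact mem_insert_self b Y
  have hrt : Rt V lam b (Ds A (A.sup id) b) L := by
    intro E hE hdE
    rcases E.eq_empty_or_nonempty with hE0 | hE0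
    · rw [hE0]
      simp [cB]
    have hem : ∅ ∈ E := by
      obtain ⟨Y, hY⟩ := hE0
      exact hdE Y hY ∅ (empty_subset Y)
    -- a special pair
    obtain ⟨W, hW⟩ : ∃ W, W = T.erase b := ⟨_, rfl⟩
    have hWV : W ⊆ V := by
      rw [hW, hV]
      exact erase_subset_erase b (hsub T hTA)
    have hWE : W ∉ E := by
      intro h
      have h1 := hE h
      rw [mem_Ds] at h1
      refine h1.2 ⟨T, hTA, hbT, ?_⟩
      rw [hW, insert_erase hbT]
    have haW : a ∉ W := by
      rw [hW]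
      exact fun h => ha (mem_of_mem_erase h)
    obtain ⟨Y0, hY0, hmax⟩ := exists_max_image (E.filter (· ⊆ W)) (fun Y => Y.card)
      ⟨∅, mem_filter.2 ⟨hem, empty_subset W⟩⟩
    rw [mem_filter] at hY0
    have hne : (W \ Y0).Nonempty := by
      rw [nonempty_iff_ne_empty]
      intro h
      rw [sdiff_eq_empty_iff_subset] at h
      exact hWE (Subset.antisymm hY0.2 h ▸ hY0.1)
    obtain ⟨j1, hj1⟩ := hne
    rw [mem_sdiff] at hj1
    have hj1E : insert j1 Y0 ∉ E := by
      intro h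
      have h1 := hmax _ (mem_filter.2 ⟨h, insert_subset hj1.1 hY0.2⟩)
      rw [card_insert_of_notMem hj1.2] at h1
      omega
    have hj1a : j1 ≠ a := fun h => haW (h ▸ hj1.1)
    have hinner : ∀ Y ∈ E, lam a ≤ ∑ j ∈ V with (j ∉ Y ∧ insert j Y ∉ E), lam j := by
      intro Y hY
      refine single_le_sum (f := lam) (fun j hj => (hlam j (hVU j (mem_filter.1 hj).1)).le) ?_
      refine mem_filter.2 ⟨haV, hDa Y (hE hY), fun h => ?_⟩
      exact hDa _ (hE h) (mem_insert_self a Y)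
    have hinner0 : lam a + lam j1 ≤ ∑ j ∈ V with (j ∉ Y0 ∧ insert j Y0 ∉ E), lam j := by
      have h1 : ({a, j1} : Finset α) ⊆ V.filter fun j => j ∉ Y0 ∧ insert j Y0 ∉ E := by
        intro c hc
        rw [mem_insert, mem_singleton] at hc
        rcases hc with h | h
        · rw [h]
          refine mem_filter.2 ⟨haV, hDa Y0 (hE hY0.1), fun h => ?_⟩
          exact hDa _ (hE h) (mem_insert_self a Y0)
        · rw [h]
          exact mem_filter.2 ⟨hWV hj1.1, hj1.2, hj1E⟩
      have h3 := sum_le_sum_of_subset_of_nonneg h1 (f := lam)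
        (fun j hj _ => (hlam j (hVU j (mem_filter.1 hj).1)).le)
      rwa [sum_pair hj1a.symm] at h3
    have hsum : (E.card : ℝ) * lam a + lam j1 ≤ cB V lam E := by
      unfold cB
      rw [← add_sum_erase E _ hY0.1]
      have h3 : ∑ Y ∈ E.erase Y0, lam a ≤
          ∑ Y ∈ E.erase Y0, ∑ j ∈ V with (j ∉ Y ∧ insert j Y ∉ E), lam j :=
        sum_le_sum fun Y hY => hinner Y (mem_of_mem_erase hY)
      rw [sum_const, card_erase_of_mem hY0.1, nsmul_eq_mul] at h3
      have h4 : ((E.card - 1 : ℕ) : ℝ) = (E.card : ℝ) - 1 := by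
        rw [Nat.cast_sub (card_pos.2 ⟨Y0, hY0.1⟩), Nat.cast_one]
      rw [h4] at h3
      linarith
    have hcard : (E.card : ℝ) ≤ 2 ^ V.card := by
      have h7 : E ⊆ V.powerset := fun Y hY => by
        rw [hV]
        exact mem_powerset.2 (mem_Ds.1 (hE hY)).1
      have h8 := card_le_card h7
      rw [card_powerset] at h8
      exact_mod_cast h8
    have hm1 : lam j0 ≤ lam j1 := hmin j1 (hVU j1 (hWV hj1.1))
    have h5 : L * lam b * (E.card : ℝ) ≤ (E.card : ℝ) * lam b + lam j0 := by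
      have h6 : L * lam b * (E.card : ℝ) =
          (E.card : ℝ) * lam b + lam j0 * ((E.card : ℝ) / 2 ^ V.card) := by
        rw [hLdef]
        field_simp
      rw [h6]
      have h7 : (E.card : ℝ) / 2 ^ V.card ≤ 1 := (div_le_one h2).2 hcard
      have h8 : lam j0 * ((E.card : ℝ) / 2 ^ V.card) ≤ lam j0 * 1 :=
        mul_le_mul_of_nonneg_left h7 hμ.le
      linarith
    have h9 : (E.card : ℝ) * lam b ≤ (E.card : ℝ) * lam a :=
      mul_le_mul_of_nonneg_left hle (Nat.cast_nonneg _)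
    linarith
  rw [hV] at hrt
  have h1 := gw_w (A := A) (B := A) (S := A.sup id) hA hsub
    (fun T hT _ w hw => hA T hT w hw) (fun i hi => (hlam i hi).le) hbU hrt
  rw [← he] at h1
  have h3 : 0 < ((Ns A b).card : ℝ) := by
    have h4 : ∅ ∈ Ns A b := mem_Ns.2 ⟨h0, notMem_empty b, hb⟩
    exact_mod_cast card_pos.2 ⟨∅, h4⟩
  have h5 : ((Ns A b).card : ℝ) < L * ((Ns A b).card : ℝ) := by
    have := mul_lt_mul_of_pos_right hL1 h3
    linarith
  have h6 := mul_lt_mul_of_pos_left h5 hlb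
  linarith

theorem strict_of_empty_w {A : Finset (Finset α)} (hA : ∀ S ∈ A, ∀ T ∈ A, S ∪ T ∈ A)
    (h0 : ∅ ∈ A)
    (hsep : ∀ x ∈ A.sup id, ∀ y ∈ A.sup id, x ≠ y → ∃ T ∈ A, ¬ (x ∈ T ↔ y ∈ T))
    (hpow : A ≠ (A.sup id).powerset) {lam : α → ℝ}
    (hlam : ∀ i ∈ A.sup id, 0 < lam i)
    (hd : ∀ i ∈ A.sup id, Rt ((A.sup id).erase i) lam i (Ds A (A.sup id) i) 1) :
    ∃ i ∈ A.sup id, A.card < 2 * (A.filter (fun T => i ∈ T)).card := by
  by_contra hcon
  have hfreq : ∀ x ∈ A.sup id, 2 * (A.filter (fun T => x ∈ T)).card ≤ A.card := by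
    intro x hx
    by_contra h
    exact hcon ⟨x, hx, by omega⟩
  have heq := eq_case_w hA hlam hd hfreq
  obtain ⟨T', hT', hc2, hmin, hns⟩ := minimal_member hA h0 hpow (fun i hi => (heq i hi).1)
  by_cases h3 : 3 ≤ T'.card
  · obtain ⟨i, hi, j, hj, hij⟩ := one_lt_card.1 (by omega : 1 < T'.card)
    obtain ⟨c1, c2, c3⟩ := case_three h0 hT' h3 hmin hi hj hij
    have hiU : i ∈ A.sup id := Tp_sub hT' hi
    have hjU : j ∈ A.sup id := Tp_sub hT' hj
    have hli := hlam i hiU
    have hadm := (hd i hiU).adm (filter_subset _ _) hli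
    have h1 := gw_lt (A := A) (B := A) (S := A.sup id) hA (fun T hT => Tp_sub hT)
      (fun T hT _ w hw => hA T hT w hw) hiU
      (p := fun _ => (1 / 2 : ℝ)) (l := fun j => lam j / lam i)
      (fun j _ => ⟨by norm_num, le_refl _⟩)
      (fun j hj => div_nonneg (hlam j (mem_of_mem_erase hj)).le hli.le) hadm (e0 := (T', j)) c1
      (div_pos (hlam j hjU) hli) (by
        show lg A (T'.erase j) ∈ A
        rw [c2]
        exact h0) (by
        show wP ((A.sup id).erase i) (fun _ => 1 / 2) (fib2 A (A.sup id) i j T') <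
          (1 / 2 : ℝ) ^ kk A (T', j) * wP ((A.sup id).erase i) (fun _ => 1 / 2)
            (fib A (A.sup id) i (lg A (T'.erase j)))
        rw [c2]
        exact c3)
    have h2 := mul_lt_mul_of_pos_left h1 hli
    have h4 : lam i * ∑ e ∈ Bp A (A.sup id) i, lam e.2 / lam i * (1 / 2 : ℝ) ^ kk A e =
        ∑ e ∈ Bp A (A.sup id) i, lam e.2 * (1 / 2 : ℝ) ^ kk A e := by
      rw [mul_sum]
      refine sum_congr rfl fun e _ => ?_
      field_simp
    rw [one_mul] at h2
    have h5 : lam i * ((Ns A i).card : ℝ) <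
        ∑ e ∈ Bp A (A.sup id) i, lam e.2 * (1 / 2 : ℝ) ^ kk A e := by
      rw [← h4]
      exact h2
    exact absurd (heq i hiU).2 (ne_of_lt h5)
  · have h7 : T'.card = 2 := by omega
    obtain ⟨a, b, hab, hT'ab⟩ := card_eq_two.1 h7
    rw [hT'ab] at hT' hns
    have haU : a ∈ A.sup id := Tp_sub hT' (by simp)
    have hbU : b ∈ A.sup id := Tp_sub hT' (by simp)
    have ha : {a} ∉ A := hns a (by simp)
    have hb : {b} ∉ A := hns b (by simp)
    have key : ∀ a b : α, a ≠ b → {a, b} ∈ A → a ∈ A.sup id → b ∈ A.sup id → {b} ∉ A →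
        lam b ≤ lam a → False := by
      intro a b hab hT haU hbU hb hle
      have hss : A.filter (fun T => b ∈ T) ⊆ A.filter (fun T => a ∈ T) := by
        intro T hT3
        rw [mem_filter] at hT3 ⊢
        exact ⟨hT3.1, case_two_w hA h0 hlam hab hT hb hle (heq b hbU).2 hT3.1 hT3.2⟩
      have hcard : (A.filter (fun T => a ∈ T)).card ≤ (A.filter (fun T => b ∈ T)).card := by
        have h8 := (heq a haU).1
        have h9 := (heq b hbU).1
        omega
      have heq2 := eq_of_subset_of_card_le hss hcard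
      obtain ⟨T, hTA, hT3⟩ := hsep a haU b hbU hab
      refine hT3 ⟨fun h => ?_, fun h => ?_⟩
      · have h8 : T ∈ A.filter (fun T => a ∈ T) := mem_filter.2 ⟨hTA, h⟩
        rw [← heq2] at h8
        exact (mem_filter.1 h8).2
      · have h8 : T ∈ A.filter (fun T => b ∈ T) := mem_filter.2 ⟨hTA, h⟩
        exact (mem_filter.1 (hss h8)).2
    rcases le_total (lam b) (lam a) with hle | hle
    · exact key a b hab hT' haU hbU hb hle
    · rw [pair_comm] at hT'
      exact key b a hab.symm hT' hbU haU ha hle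

theorem strict_w {A : Finset (Finset α)} (hA : ∀ S ∈ A, ∀ T ∈ A, S ∪ T ∈ A)
    (hne : A.Nonempty)
    (hsep : ∀ x ∈ A.sup id, ∀ y ∈ A.sup id, x ≠ y → ∃ T ∈ A, ¬ (x ∈ T ↔ y ∈ T))
    (hpow : A ≠ (A.sup id).powerset) {lam : α → ℝ}
    (hlam : ∀ i ∈ A.sup id, 0 < lam i)
    (hd : ∀ i ∈ A.sup id, Rt ((A.sup id).erase i) lam i (Ds A (A.sup id) i) 1) :
    ∃ i ∈ A.sup id, A.card < 2 * (A.filter (fun T => i ∈ T)).card := by
  by_cases h0 : ∅ ∈ A
  · exact strict_of_empty_w hA h0 hsep hpow hlam hd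
  obtain ⟨B, hB⟩ : ∃ B, B = insert ∅ A := ⟨_, rfl⟩
  have hBU : B.sup id = A.sup id := by
    rw [hB, sup_insert]
    exact bot_sup_eq _
  have hBA : ∀ S ∈ B, ∀ T ∈ B, S ∪ T ∈ B := by
    intro S hS T hT
    rw [hB, mem_insert] at hS hT ⊢
    rcases hS with rfl | hS
    · rw [empty_union]
      exact hT
    · rcases hT with rfl | hT
      · rw [union_empty]
        exact Or.inr hS
      · exact Or.inr (hA S hS T hT)
  have hB0 : ∅ ∈ B := by
    rw [hB]
    exact mem_insert_self _ _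
  have hBfreq : ∀ x, B.filter (fun T => x ∈ T) = A.filter (fun T => x ∈ T) := by
    intro x
    rw [hB, filter_insert, if_neg (notMem_empty x)]
  have hBcard : B.card = A.card + 1 := by
    rw [hB, card_insert_of_notMem h0]
  have hBD : ∀ i, Ds B (A.sup id) i = Ds A (A.sup id) i := by
    intro i
    unfold Ds
    refine filter_congr fun Y _ => ?_
    refine not_congr ?_
    constructor
    · rintro ⟨T, hT, hiT, hTY⟩
      rw [hB, mem_insert] at hT
      rcases hT with rfl | hT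
      · exact absurd hiT (notMem_empty i)
      · exact ⟨T, hT, hiT, hTY⟩
    · rintro ⟨T, hT, hiT, hTY⟩
      refine ⟨T, ?_, hiT, hTY⟩
      rw [hB]
      exact mem_insert_of_mem hT
  by_cases hBp : B = (B.sup id).powerset
  · obtain ⟨T, hT⟩ := hne
    have hTne : T.Nonempty := by
      rw [nonempty_iff_ne_empty]
      rintro rfl
      exact h0 hT
    obtain ⟨x, hx⟩ := hTne
    have hxU : x ∈ A.sup id := Tp_sub hT hx
    refine ⟨x, hxU, ?_⟩
    have hmem : ∀ S, S ∈ B ↔ S ⊆ A.sup id := by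
      intro S
      rw [hBp, mem_powerset, hBU]
    have h1 := freq_identity B x
    have h2 : Bd B x = ∅ := by
      rw [eq_empty_iff_forall_notMem]
      intro S hS
      rw [mem_Bd] at hS
      exact hS.2.2 ((hmem _).2 ((erase_subset x S).trans ((hmem _).1 hS.1)))
    have h3 : Ns B x = ∅ := by
      rw [eq_empty_iff_forall_notMem]
      intro S hS
      rw [mem_Ns] at hS
      exact hS.2.2 ((hmem _).2 (insert_subset hxU ((hmem _).1 hS.1)))
    rw [h2, h3, hBfreq, card_empty, Nat.cast_zero, sub_zero] at h1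
    have h4 : (2 : ℝ) * ((A.filter (fun T => x ∈ T)).card : ℝ) = (B.card : ℝ) := by linarith
    have h5 : 2 * (A.filter (fun T => x ∈ T)).card = B.card := by exact_mod_cast h4
    omega
  · obtain ⟨x, hx, h1⟩ := strict_of_empty_w (A := B) hBA hB0
      (by
        rw [hBU]
        intro x hx y hy hxy
        obtain ⟨T, hT, h1⟩ := hsep x hx y hy hxy
        refine ⟨T, ?_, h1⟩
        rw [hB]
        exact mem_insert_of_mem hT) hBp (lam := lam)
      (by
        rw [hBU]
        exact hlam)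
      (by
        rw [hBU]
        intro i hi
        rw [hBD]
        exact hd i hi)
    rw [hBU] at hx
    rw [hBfreq] at h1
    exact ⟨x, hx, by omega⟩

end Pool.Agent.H62.UC
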