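import Pool.Agent.H62.UC.To

/-!
The main inequality with rates that depend on the part of the member outside `S`.
-/

set_option autoImplicit false

namespace Pool.Agent.H62.UC

open Finset Pool.Agent.H51.UC

variable {α : Type*} [DecidableEq α]

/-- The subsets `Y` of `S ∖ {i}` such that no member of `A` contains `i` and lies in
`Y ∪ R ∪ {i}`. -/
def DsR (A : Finset (Finset α)) (S R : Finset α) (i : α) : Finset (Finset α) :=
  (S.erase i).powerset.filter fun Y => ¬ ∃ T ∈ A, i ∈ T ∧ T ⊆ insert i (Y ∪ R)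

/-- The traces on `S` of the members whose part outside `S` lies in `R`. -/
def tr (A : Finset (Finset α)) (S R : Finset α) : Finset (Finset α) :=
  (A.filter fun T => T \ S ⊆ R).image (· ∩ S)

theorem mem_tr {A : Finset (Finset α)} {S R X : Finset α} :
    X ∈ tr A S R ↔ ∃ T ∈ A, T \ S ⊆ R ∧ T ∩ S = X := by
  simp [tr, and_assoc]

theorem Ds_tr {A : Finset (Finset α)} {S R : Finset α} (hR : Disjoint R S) {i : α}
    (hi : i ∈ S) : Ds (tr A S R) S i = DsR A S R i := by
  unfold Ds DsR
  refine filter_congr fun Y hY => not_congr ?_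
  rw [mem_powerset] at hY
  constructor
  · rintro ⟨X, hX, hiX, hXY⟩
    obtain ⟨T, hT, hTR, rfl⟩ := mem_tr.1 hX
    refine ⟨T, hT, (mem_inter.1 hiX).1, fun a ha => ?_⟩
    by_cases haS : a ∈ S
    · have h1 := hXY (mem_inter.2 ⟨ha, haS⟩)
      rw [mem_insert] at h1 ⊢
      rcases h1 with h1 | h1
      · exact Or.inl h1
      · exact Or.inr (mem_union_left _ h1)
    · exact mem_insert_of_mem (mem_union_right _ (hTR (mem_sdiff.2 ⟨ha, haS⟩)))
  · rintro ⟨T, hT, hiT, hTY⟩
    refine ⟨T ∩ S, mem_tr.2 ⟨T, hT, fun a ha => ?_, rfl⟩, mem_inter.2 ⟨hiT, hi⟩, fun a ha => ?_⟩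
    · rw [mem_sdiff] at ha
      have h1 := hTY ha.1
      rw [mem_insert, mem_union] at h1
      rcases h1 with h1 | h1 | h1
      · exact absurd (h1 ▸ hi) ha.2
      · exact absurd (mem_of_mem_erase (hY h1)) ha.2
      · exact h1
    · rw [mem_inter] at ha
      have h1 := hTY ha.1
      rw [mem_insert, mem_union] at h1
      rw [mem_insert]
      rcases h1 with h1 | h1 | h1
      · exact Or.inl h1
      · exact Or.inr h1
      · exact absurd ha.2 (disjoint_left.1 hR h1)

private theorem TSq_disj {A : Finset (Finset α)} {S R : Finset α}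
    (hR : R ∈ ((A.sup id) \ S).powerset) : Disjoint R S :=
  disjoint_of_subset_left (mem_powerset.1 hR) sdiff_disjoint

theorem sl_sub {A : Finset (Finset α)} {S R : Finset α} {T : Finset α} (hT : T ∈ sl A S R) :
    T ⊆ S := by
  unfold sl at hT
  rw [mem_image] at hT
  obtain ⟨T', _, rfl⟩ := hT
  exact inter_subset_right

/-- The relevant members of `A` for `i` in the slice `R`. -/
theorem sum_Ns_R (A : Finset (Finset α)) {S : Finset α} {i : α} (hi : i ∈ S)
    (f : Finset α → ℝ) :
    ∑ R ∈ ((A.sup id) \ S).powerset, f R * ((Ns (sl A S R) i).card : ℝ) =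
      ∑ T ∈ Ns A i, f (T \ S) := by
  have hmaps : ∀ T ∈ Ns A i, T \ S ∈ ((A.sup id) \ S).powerset := by
    intro T hT
    rw [mem_powerset]
    have h : T ⊆ A.sup id := Finset.le_sup (f := id) (mem_Ns.1 hT).1
    exact sdiff_subset_sdiff h (Subset.refl S)
  rw [← sum_fiberwise_of_maps_to hmaps]
  refine sum_congr rfl fun R hR => ?_
  have hd := TSq_disj hR
  have h1 : ((Ns A i).filter fun T => T \ S = R).card = (Ns (sl A S R) i).card := by
    refine Finset.card_bij' (fun T _ => T ∩ S) (fun w _ => w ∪ R) ?_ ?_ ?_ ?_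
    · intro T hT
      rw [mem_filter, mem_Ns] at hT
      obtain ⟨⟨hTA, hiT, hins⟩, hTR⟩ := hT
      have hTe : T ∩ S ∪ R = T := by
        rw [← hTR, union_comm]
        exact sdiff_union_inter T S
      rw [mem_Ns, mem_sl hd, mem_sl hd, hTe]
      refine ⟨⟨inter_subset_right, hTA⟩, fun h => hiT (mem_inter.1 h).1, fun h => hins ?_⟩
      have h2 := h.2
      rw [insert_union, hTe] at h2
      exact h2
    · intro w hw
      rw [mem_Ns, mem_sl hd, mem_sl hd] at hw
      obtain ⟨⟨hwS, hwA⟩, hiw, hins⟩ := hw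
      have hiR : i ∉ R := fun h => disjoint_left.1 hd h hi
      rw [mem_filter, mem_Ns]
      refine ⟨⟨hwA, ?_, fun h => hins ⟨insert_subset hi hwS, ?_⟩⟩, ?_⟩
      · rw [mem_union, not_or]
        exact ⟨hiw, hiR⟩
      · rw [insert_union]
        exact h
      · ext a
        rw [mem_sdiff, mem_union]
        constructor
        · rintro ⟨h | h, h3⟩
          · exact absurd (hwS h) h3
          · exact h
        · intro h
          exact ⟨Or.inr h, fun h3 => disjoint_left.1 hd h h3⟩
    · intro T hT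
      rw [mem_filter] at hT
      show T ∩ S ∪ R = T
      rw [← hT.2, union_comm]
      exact sdiff_union_inter T S
    · intro w hw
      rw [mem_Ns, mem_sl hd] at hw
      show (w ∪ R) ∩ S = w
      ext a
      rw [mem_inter, mem_union]
      constructor
      · rintro ⟨h | h, h3⟩
        · exact h
        · exact absurd h3 (disjoint_left.1 hd h)
      · intro h
        exact ⟨Or.inl h, hw.1.1 h⟩
  rw [← h1]
  have h2 : ∑ T ∈ (Ns A i).filter (fun T => T \ S = R), f (T \ S) =
      ∑ _T ∈ (Ns A i).filter (fun T => T \ S = R), f R :=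
    sum_congr rfl fun T hT => by rw [(mem_filter.1 hT).2]
  rw [h2, sum_const, nsmul_eq_mul, mul_comm]

theorem star_R {A : Finset (Finset α)} (hA : ∀ S ∈ A, ∀ T ∈ A, S ∪ T ∈ A) {S : Finset α}
    {lam : α → ℝ} (hlam : ∀ i ∈ S, 0 ≤ lam i) {L : α → Finset α → ℝ}
    (hL : ∀ i ∈ S, ∀ T ∈ Ns A i, Rt (S.erase i) lam i (DsR A S (T \ S) i) (L i (T \ S))) :
    ∑ i ∈ S, lam i * ∑ T ∈ Ns A i, (L i (T \ S) - 1) ≤
      ∑ i ∈ S, lam i * (2 * ((A.filter (fun T => i ∈ T)).card : ℝ) - (A.card : ℝ)) := by
  have key : ∀ R ∈ ((A.sup id) \ S).powerset,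
      ∑ i ∈ S, lam i * (L i R * ((Ns (sl A S R) i).card : ℝ)) ≤
        ∑ j ∈ S, lam j * ((Bd (sl A S R) j).card : ℝ) := by
    intro R hR
    have hd := TSq_disj hR
    refine (sum_le_sum fun i hi => ?_).trans (bsum_w (sl A S R) S hlam)
    rcases (Ns (sl A S R) i).eq_empty_or_nonempty with h0 | h0
    · rw [h0, card_empty, Nat.cast_zero, mul_zero, mul_zero]
      refine sum_nonneg fun e he => mul_nonneg (hlam e.2 ?_) (by positivity)
      exact (mem_Bp.1 he).1.2
    · obtain ⟨w, hw⟩ := h0
      rw [mem_Ns, mem_sl hd, mem_sl hd] at hw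
      obtain ⟨⟨hwS, hwA⟩, hiw, hins⟩ := hw
      have hiR : i ∉ R := fun h => disjoint_left.1 hd h hi
      have hT : w ∪ R ∈ Ns A i := by
        rw [mem_Ns]
        refine ⟨hwA, ?_, fun h => hins ⟨insert_subset hi hwS, ?_⟩⟩
        · rw [mem_union, not_or]
          exact ⟨hiw, hiR⟩
        · rw [insert_union]
          exact h
      have hTS : (w ∪ R) \ S = R := by
        ext a
        rw [mem_sdiff, mem_union]
        constructor
        · rintro ⟨h | h, h3⟩
          · exact absurd (hwS h) h3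
          · exact h
        · intro h
          exact ⟨Or.inr h, fun h3 => disjoint_left.1 hd h h3⟩
      have h1 := hL i hi _ hT
      rw [hTS, ← Ds_tr hd hi] at h1
      refine gw_w (A := tr A S R) (B := sl A S R) (S := S) ?_ (fun T hT => sl_sub hT) ?_ hlam
        hi h1
      · intro T hT T' hT'
        rw [mem_sl hd] at hT hT' ⊢
        refine ⟨union_subset hT.1 hT'.1, ?_⟩
        have h := hA _ hT.2 _ hT'.2
        have h1 : T ∪ R ∪ (T' ∪ R) = T ∪ T' ∪ R := by
          ext x
          simp only [mem_union]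
          tauto
        rw [h1] at h
        exact h
      · intro X hX _ w hw
        obtain ⟨T, hT, hTR, rfl⟩ := mem_tr.1 hX
        rw [mem_sl hd] at hw ⊢
        refine ⟨union_subset inter_subset_right hw.1, ?_⟩
        have h := hA _ hT _ hw.2
        have h2 : T ∪ (w ∪ R) = T ∩ S ∪ w ∪ R := by
          ext x
          simp only [mem_union, mem_inter]
          constructor
          · rintro (h3 | h3 | h3)
            · by_cases hxS : x ∈ S
              · exact Or.inl (Or.inl ⟨h3, hxS⟩)
              · exact Or.inr (hTR (mem_sdiff.2 ⟨h3, hxS⟩))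
            · exact Or.inl (Or.inr h3)
            · exact Or.inr h3
          · rintro ((h3 | h3) | h3)
            · exact Or.inl h3.1
            · exact Or.inr (Or.inl h3)
            · exact Or.inr (Or.inr h3)
        rw [h2] at h
        exact h
  have h1 := sum_le_sum key
  rw [sum_comm, sum_comm (s := ((A.sup id) \ S).powerset)] at h1
  have h2 : ∀ i ∈ S, ∑ R ∈ ((A.sup id) \ S).powerset,
      lam i * (L i R * ((Ns (sl A S R) i).card : ℝ)) =
        lam i * ∑ T ∈ Ns A i, L i (T \ S) := by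
    intro i hi
    rw [← mul_sum, sum_Ns_R A hi]
  have h3 : ∀ i ∈ S, ∑ R ∈ ((A.sup id) \ S).powerset,
      lam i * ((Bd (sl A S R) i).card : ℝ) = lam i * ((Bd A i).card : ℝ) := by
    intro i hi
    rw [← mul_sum, ← sum_Bd_sl A hi]
    push_cast
    rfl
  rw [sum_congr rfl h2, sum_congr rfl h3] at h1
  have h4 : ∀ i ∈ S, lam i * (2 * ((A.filter (fun T => i ∈ T)).card : ℝ) - (A.card : ℝ)) =
      lam i * ((Bd A i).card : ℝ) - lam i * ((Ns A i).card : ℝ) := by
    intro i _
    rw [freq_identity, mul_sub]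
  have h5 : ∀ i ∈ S, lam i * ∑ T ∈ Ns A i, (L i (T \ S) - 1) =
      lam i * ∑ T ∈ Ns A i, L i (T \ S) - lam i * ((Ns A i).card : ℝ) := by
    intro i _
    rw [sum_sub_distrib, sum_const, nsmul_eq_mul, mul_one]
    ring
  rw [sum_congr rfl h4, sum_congr rfl h5, sum_sub_distrib, sum_sub_distrib]
  linarith

end Pool.Agent.H62.UC
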