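import Pool.Agent.H62.UC.Defs

/-!
# definitions for TRIG
-/

namespace Pool.H62.UC

open scoped InnerProductSpace TensorProduct ComplexConjugate
open Filter Topology

noncomputable section


variable {H : Type*} [NormedAddCommGroup H] [InnerProductSpace ℂ H] [CompleteSpace H]

/-- scalar trigonometric polynomial -/
def tscal {n : ℕ} (θ : Fin n → ℝ) (c : Fin n → ℂ) (t : ℝ) : ℂ :=
  ∑ j, c j * Complex.exp (Complex.I * (θ j * t : ℝ))

/-- the unitary group generated by `x` -/
def uexp (θ : ℝ) (x : H →L[ℂ] H) : H →L[ℂ] H := NormedSpace.exp ((Complex.I * (θ : ℂ)) • x)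

/-- operator trigonometric polynomial -/
def tcalc {n : ℕ} (θ : Fin n → ℝ) (c : Fin n → ℂ) (x : H →L[ℂ] H) : H →L[ℂ] H :=
  ∑ j, c j • uexp (θ j) x

end

end Pool.H62.UC
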