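import Pool.Agent.H62.UC.Tp
import Pool.Agent.H62.UC.Tb
import Pool.Agent.H66.FC.Nec
import Pool.Agent.H66.FC.Petal

/-!
# MP_75f39d_co: draft of the result file `LocalCriterion`
-/

set_option autoImplicit false

namespace Pool.Agent.H62.UC.TDraft

open Finset

/-- The union of any two members is a member. -/
def UnionClosed {α : Type*} [DecidableEq α] (A : Finset (Finset α)) : Prop :=
  ∀ S ∈ A, ∀ T ∈ A, S ∪ T ∈ A

/-- `A` has a member, separates the points of its union, and is not the power set of its union. -/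
def SepNotPower {α : Type*} [DecidableEq α] (A : Finset (Finset α)) : Prop :=
  A.Nonempty ∧ (∀ x ∈ A.sup id, ∀ y ∈ A.sup id, x ≠ y → ∃ T ∈ A, ¬ (x ∈ T ↔ y ∈ T)) ∧
    A ≠ (A.sup id).powerset

/-- Twice the number of members that contain `x`, minus the number of members. -/
def bias {α : Type*} [DecidableEq α] (A : Finset (Finset α)) (x : α) : ℝ :=
  2 * ((A.filter fun T => x ∈ T).card : ℝ) - (A.card : ℝ)

/-- The number of members `T` without `x` such that `T ∪ {x}` is not a member. -/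
def gap {α : Type*} [DecidableEq α] (A : Finset (Finset α)) (x : α) : ℕ :=
  (A.filter fun T => x ∉ T ∧ insert x T ∉ A).card

/-- The subsets `Y` of `S ∖ {x}` such that no member `T` of `F` has `x ∈ T ⊆ Y ∪ {x}`. -/
def uncovered {α : Type*} [DecidableEq α] (F : Finset (Finset α)) (S : Finset α) (x : α) :
    Finset (Finset α) :=
  (S.erase x).powerset.filter fun Y => ¬ ∃ T ∈ F, x ∈ T ∧ T ⊆ insert x Y

/-- The number of `Y ∈ E` without `j` such that `Y ∪ {j} ∉ E`. -/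
def exits {α : Type*} [DecidableEq α] (E : Finset (Finset α)) (j : α) : ℕ :=
  (E.filter fun Y => j ∉ Y ∧ insert j Y ∉ E).card

/-- `L` is a rate at `x`: every down-closed family `E` of uncovered sets has
`L * lam x * |E| ≤ ∑ lam j * exits E j` (sum over `j ∈ S ∖ {x}`). -/
def Rate {α : Type*} [DecidableEq α] (F : Finset (Finset α)) (S : Finset α) (lam : α → ℝ)
    (x : α) (L : ℝ) : Prop :=
  ∀ E ⊆ uncovered F S x, (∀ Y ∈ E, ∀ Z ⊆ Y, Z ∈ E) →
    L * lam x * (E.card : ℝ) ≤ ∑ j ∈ S.erase x, lam j * (exits E j : ℝ)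

/-- The proportion of uncovered sets among the subsets of `S ∖ {x}`. -/
noncomputable def miss {α : Type*} [DecidableEq α] (F : Finset (Finset α)) (S : Finset α)
    (x : α) : ℝ :=
  ((uncovered F S x).card : ℝ) / 2 ^ (S.erase x).card

private theorem cB_eq {α : Type*} [DecidableEq α] (V : Finset α) (lam : α → ℝ)
    (E : Finset (Finset α)) : H62.UC.cB V lam E = ∑ j ∈ V, lam j * (exits E j : ℝ) := by
  unfold H62.UC.cB exits
  have h1 : ∀ Y ∈ E, ∑ j ∈ V with (j ∉ Y ∧ insert j Y ∉ E), lam j =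
      ∑ j ∈ V, if j ∉ Y ∧ insert j Y ∉ E then lam j else 0 := fun Y _ => sum_filter _ _
  rw [sum_congr rfl h1, sum_comm]
  refine sum_congr rfl fun j _ => ?_
  rw [← sum_filter, sum_const, nsmul_eq_mul, mul_comm]

private theorem rate_iff {α : Type*} [DecidableEq α] (F : Finset (Finset α)) (S : Finset α)
    (lam : α → ℝ) (x : α) (L : ℝ) : Rate F S lam x L ↔
      H62.UC.Rt (S.erase x) lam x (H62.UC.Ds F S x) L := by
  unfold Rate H62.UC.Rt
  refine forall_congr' fun E => ?_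
  rw [cB_eq]
  rfl

private theorem rate_of_adm {α : Type*} [DecidableEq α] {F : Finset (Finset α)} {S : Finset α}
    {x : α} {L : ℝ} (h : H62.UC.Adm (S.erase x) (fun _ => 1 / 2) (fun _ => 1)
      (H62.UC.Ds F S x) L) : Rate F S (fun _ => 1) x L := by
  have hV : H62.UC.Ds F S x ⊆ (S.erase x).powerset := filter_subset _ _
  rw [H62.UC.adm_card hV] at h
  rw [rate_iff]
  intro E hE hd
  rw [mul_one]
  exact h E hE hd

private theorem miss_eq {α : Type*} [DecidableEq α] (F : Finset (Finset α)) (S : Finset α)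
    (x : α) : H51.UC.wP (S.erase x) (fun _ => 1 / 2) (H62.UC.Ds F S x) = miss F S x :=
  H62.UC.wP_half (filter_subset _ _)

private theorem rate_one {α : Type*} [DecidableEq α] (F : Finset (Finset α)) {S : Finset α}
    {x : α} (h : miss F S x ≤ 2 / 3) : Rate F S (fun _ => 1) x 1 := by
  rw [← miss_eq] at h
  exact rate_of_adm (H62.UC.adm_two_thirds (filter_subset _ _) (H62.UC.Ds_dn F S x) h)

private theorem rate_large {α : Type*} [DecidableEq α] (F : Finset (Finset α)) {S : Finset α}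
    {x : α} (h : 2 / 3 ≤ miss F S x) : Rate F S (fun _ => 1) x (2 / miss F S x - 2) := by
  rw [← miss_eq] at h ⊢
  exact rate_of_adm (H62.UC.adm_large (filter_subset _ _) (H62.UC.Ds_dn F S x) h)

private theorem rate_log {α : Type*} [DecidableEq α] (F : Finset (Finset α)) {S : Finset α}
    {x : α} : Rate F S (fun _ => 1) x (Real.logb 2 (1 / miss F S x)) := by
  have h1 := H62.UC.adm_log (V := S.erase x) (l := fun _ => (1 : ℝ))
    (fun _ _ => ⟨one_pos, le_refl _⟩) (D := H62.UC.Ds F S x) (filter_subset _ _)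
  have h2 : (fun j : α => 1 - (2:ℝ) ^ (-(fun _ : α => (1:ℝ)) j)) = fun _ => 1 / 2 := by
    funext j
    rw [Real.rpow_neg_one]
    norm_num
  rw [h2, miss_eq] at h1
  exact rate_of_adm h1

private theorem rate_petal {α : Type*} [DecidableEq α] {F : Finset (Finset α)} {S : Finset α}
    {x : α} {𝒯 : Finset (Finset α)} (h𝒯 : ∀ T ∈ 𝒯, T ∈ F ∧ x ∈ T ∧ T ⊆ S)
    (hd : ∀ T ∈ 𝒯, ∀ T' ∈ 𝒯, T ≠ T' → T ∩ T' = {x}) :
    Rate F S (fun _ => 1) x (∑ T ∈ 𝒯, ((T.card - 1 : ℕ) : ℝ) / (2 ^ (T.card - 1) - 1)) := by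
  intro E hE hdE
  obtain ⟨Q, hQ⟩ : ∃ Q, Q = 𝒯.image fun T => T.erase x := ⟨_, rfl⟩
  have hinj : Set.InjOn (fun T : Finset α => T.erase x) (𝒯 : Set (Finset α)) := by
    intro T hT T' hT' h
    have h1 : T.erase x = T'.erase x := h
    rw [← insert_erase (h𝒯 T hT).2.1, ← insert_erase (h𝒯 T' hT').2.1, h1]
  have h1 := H66.FC.petal (V := S.erase x) (E := E) (hE.trans (filter_subset _ _)) hdE
    (Q := Q) (by
      intro P hP
      rw [hQ, mem_image] at hP
      obtain ⟨T, hT, rfl⟩ := hP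
      exact erase_subset_erase x (h𝒯 T hT).2.2)
    (by
      intro P hP P' hP' hne
      rw [hQ, mem_image] at hP hP'
      obtain ⟨T, hT, rfl⟩ := hP
      obtain ⟨T', hT', rfl⟩ := hP'
      have h2 := hd T hT T' hT' (fun h => hne (by rw [h]))
      rw [disjoint_left]
      intro a ha ha'
      rw [mem_erase] at ha ha'
      have h3 : a ∈ T ∩ T' := mem_inter.2 ⟨ha.2, ha'.2⟩
      rw [h2, mem_singleton] at h3
      exact ha.1 h3)
    (by
      intro P hP Y hY hPY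
      rw [hQ, mem_image] at hP
      obtain ⟨T, hT, rfl⟩ := hP
      have h2 := (mem_filter.1 (hE hY)).2
      refine h2 ⟨T, (h𝒯 T hT).1, (h𝒯 T hT).2.1, ?_⟩
      rw [← insert_erase (h𝒯 T hT).2.1]
      exact insert_subset_insert x hPY)
    (lam := fun _ => 1) (fun _ _ => zero_le_one) (w := fun _ => 1) (fun _ _ _ _ => le_refl _)
    (fun _ _ => zero_le_one)
  rw [mul_one]
  refine le_trans (le_of_eq ?_) h1
  congr 1
  rw [hQ, sum_image hinj]
  refine sum_congr rfl fun T hT => ?_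
  rw [card_erase_of_mem (h𝒯 T hT).2.1, one_mul]

private theorem part1 {α : Type*} [DecidableEq α] {A : Finset (Finset α)} (hA : UnionClosed A)
    {S : Finset α} {lam L : α → ℝ} (h : ∀ x ∈ S, 0 ≤ lam x ∧ Rate A S lam x (L x)) :
    ∑ x ∈ S, lam x * ((gap A x : ℝ) * (L x - 1)) ≤ ∑ x ∈ S, lam x * bias A x :=
  H62.UC.star_main_w hA (fun x hx => (h x hx).1) (fun x hx => (rate_iff _ _ _ _ _).1 (h x hx).2)

private theorem rate_mono {α : Type*} [DecidableEq α] {F A : Finset (Finset α)} (hFA : F ⊆ A)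
    {S : Finset α} {lam : α → ℝ} {x : α} {L : ℝ} (h : Rate F S lam x L) : Rate A S lam x L := by
  intro E hE hd
  refine h E (fun Y hY => ?_) hd
  have h1 := mem_filter.1 (hE hY)
  refine mem_filter.2 ⟨h1.1, ?_⟩
  rintro ⟨T, hT, hxT, hTY⟩
  exact h1.2 ⟨T, hFA hT, hxT, hTY⟩

private theorem part2 {α : Type*} [DecidableEq α] {F : Finset (Finset α)} {S : Finset α}
    {lam : α → ℝ} (hF : ∀ T ∈ F, T ⊆ S) (hlam : ∀ x ∈ S, 0 ≤ lam x) :
    (∀ A, UnionClosed A → F ⊆ A → 0 ≤ ∑ x ∈ S, lam x * bias A x) ↔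
      ∀ x ∈ S, Rate F S lam x 1 := by
  constructor
  · intro h x hx E hE hd
    rw [one_mul]
    exact H66.FC.nec hF hx hE hd fun A hA hFA _ => h A hA hFA
  · intro h A hA hFA
    have h1 := part1 hA (S := S) (lam := lam) (L := fun _ => 1)
      fun x hx => ⟨hlam x hx, rate_mono hFA (h x hx)⟩
    simpa using h1

/-- (draft) -/
theorem result {α : Type*} [DecidableEq α] :
    (∀ A : Finset (Finset α), UnionClosed A → ∀ (S : Finset α) (lam L : α → ℝ),
      (∀ x ∈ S, 0 ≤ lam x ∧ Rate A S lam x (L x)) →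
      ∑ x ∈ S, lam x * ((gap A x : ℝ) * (L x - 1)) ≤ ∑ x ∈ S, lam x * bias A x) ∧
    (∀ (F : Finset (Finset α)) (S : Finset α) (lam : α → ℝ), (∀ T ∈ F, T ⊆ S) →
      (∀ x ∈ S, 0 ≤ lam x) →
      ((∀ A, UnionClosed A → F ⊆ A → 0 ≤ ∑ x ∈ S, lam x * bias A x) ↔
        ∀ x ∈ S, Rate F S lam x 1)) ∧
    (∀ A : Finset (Finset α), UnionClosed A → SepNotPower A →
      (∃ lam : α → ℝ, ∀ x ∈ A.sup id, 0 < lam x ∧ Rate A (A.sup id) lam x 1) →
      ∃ x ∈ A.sup id, 0 < bias A x) ∧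
    (∀ (F : Finset (Finset α)) (S : Finset α) (x : α),
      Rate F S (fun _ => 1) x (Real.logb 2 (1 / miss F S x)) ∧
      (miss F S x ≤ 2 / 3 → Rate F S (fun _ => 1) x 1) ∧
      (2 / 3 ≤ miss F S x → Rate F S (fun _ => 1) x (2 / miss F S x - 2)) ∧
      ∀ 𝒯 : Finset (Finset α), (∀ T ∈ 𝒯, T ∈ F ∧ x ∈ T ∧ T ⊆ S) →
        (∀ T ∈ 𝒯, ∀ T' ∈ 𝒯, T ≠ T' → T ∩ T' = {x}) →
        Rate F S (fun _ => 1) x (∑ T ∈ 𝒯, ((T.card - 1 : ℕ) : ℝ) / (2 ^ (T.card - 1) - 1))) := by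
  refine ⟨fun A hA S lam L h => part1 hA h, fun F S lam hF hlam => part2 hF hlam, ?_,
    fun F S x => ⟨rate_log F, rate_one F, rate_large F, fun 𝒯 h𝒯 hd => rate_petal h𝒯 hd⟩⟩
  rintro A hA ⟨hne, hsep, hpow⟩ ⟨lam, hl⟩
  obtain ⟨x, hx, h⟩ := H62.UC.strict_w hA hne hsep hpow (fun i hi => (hl i hi).1)
    (fun i hi => (rate_iff _ _ _ _ _).1 (hl i hi).2)
  refine ⟨x, hx, ?_⟩
  have h1 : (A.card : ℝ) < ((2 * (A.filter (fun T => x ∈ T)).card : ℕ) : ℝ) := by exact_mod_cast h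
  rw [Nat.cast_mul, Nat.cast_ofNat] at h1
  unfold bias
  linarith

end Pool.Agent.H62.UC.TDraft
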